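import Pool.Agent.TH115.TC.Compl

/-!
# The map between completions at a prime where the extension is locally trivial
-/

set_option autoImplicit false
set_option linter.all false

open IsDedekindDomain WithZero Filter Topology MonoidWithZeroHom

namespace Pool.Agent.H14F

open Pool.Agent.TH115.GD (exists_compl_map)

section nhds

variable {B M : Type} [CommRing B] [IsDedekindDomain B] [Field M] [Algebra B M]
  [IsFractionRing B M] (w : HeightOneSpectrum B)

/-- Neighbourhoods of zero in the completion. -/
theorem mem_nhds_iff (s : Set (w.adicCompletion M)) : s ∈ 𝓝 (0 : w.adicCompletion M) ↔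
    ∃ n : ℕ, {x : w.adicCompletion M | Valued.v x ≤ exp (-(n : ℤ))} ⊆ s := by
  rw [Valued.mem_nhds_zero]
  constructor
  · rintro ⟨γ, hγ⟩
    have hg : ValueGroup₀.embedding γ.1 ≠ 0 := by
      rw [Ne, map_eq_zero]
      exact γ.ne_zero
    obtain ⟨n, hn, -⟩ := exists_exp_neg_natCast_lt_and_lt hg hg
    refine ⟨n, fun x hx => hγ ?_⟩
    show Valued.v.restrict x < γ
    rw [Valuation.restrict_lt_iff_lt_embedding]
    exact lt_of_le_of_lt hx hn
  · rintro ⟨n, hn⟩
    obtain ⟨π, hπ⟩ := w.valuation_exists_uniformizer M
    have hπ0 : π ≠ 0 := by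
      rintro rfl
      rw [map_zero] at hπ
      exact exp_ne_zero hπ.symm
    have hne : (Valued.v (R := w.adicCompletion M)).restrict
        (algebraMap M (w.adicCompletion M) (π ^ n)) ≠ 0 := by
      rw [Valuation.ne_zero_iff]
      intro h
      exact pow_ne_zero n hπ0 ((map_eq_zero _).1 h)
    refine ⟨Units.mk0 _ hne, fun x hx => hn ?_⟩
    have h1 := (Valuation.restrict_lt_iff _).1 hx
    have h2 : Valued.v (algebraMap M (w.adicCompletion M) (π ^ n)) = exp (-(n : ℤ)) := by
      have h3 : Valued.v (algebraMap M (w.adicCompletion M) (π ^ n)) =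
          w.valuation M (π ^ n) := HeightOneSpectrum.valuedAdicCompletion_eq_valuation' w (π ^ n)
      rw [h3, map_pow, hπ, ← exp_nsmul]
      congr 1
      simp
    rw [h2] at h1
    exact h1.le

end nhds

section surj

variable {A F B M : Type} [CommRing A] [IsDedekindDomain A] [Field F] [Algebra A F]
  [IsFractionRing A F] [CommRing B] [IsDedekindDomain B] [Field M] [Algebra B M]
  [IsFractionRing B M] (v : HeightOneSpectrum A) (w : HeightOneSpectrum B) (f : F →+* M)

theorem near {v : HeightOneSpectrum A} {w : HeightOneSpectrum B} {f : F →+* M}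
    (hd : ∀ s : M, s ≠ 0 → ∃ s₀ : F, w.valuation M (s - f s₀) < w.valuation M s) (n : ℕ) :
    ∀ (m : ℕ) (s : M), w.valuation M s ≤ exp ((m : ℤ) - n) →
      ∃ s₀ : F, w.valuation M (s - f s₀) ≤ exp (-(n : ℤ)) := by
  intro m
  induction m with
  | zero =>
    intro s hs
    exact ⟨0, by simpa using hs⟩
  | succ m ih =>
    intro s hs
    by_cases h0 : s = 0
    · exact ⟨0, by rw [h0]; simp⟩
    · obtain ⟨s₁, h1⟩ := hd s h0
      have h2 : w.valuation M (s - f s₁) ≤ exp ((m : ℤ) - n) := by
        have h3 := lt_of_lt_of_le h1 hs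
        by_cases h4 : w.valuation M (s - f s₁) = 0
        · rw [h4]; exact zero_le
        · have h5 : exp (log (w.valuation M (s - f s₁))) = w.valuation M (s - f s₁) := exp_log h4
          rw [← h5, exp_lt_exp] at h3
          rw [← h5, exp_le_exp]
          push_cast at h3
          omega
      obtain ⟨s₂, h3⟩ := ih _ h2
      refine ⟨s₁ + s₂, ?_⟩
      have e : s - f (s₁ + s₂) = s - f s₁ - f s₂ := by
        rw [map_add]; ring
      rw [e]
      exact h3

theorem near' {v : HeightOneSpectrum A} {w : HeightOneSpectrum B} {f : F →+* M}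
    (hd : ∀ s : M, s ≠ 0 → ∃ s₀ : F, w.valuation M (s - f s₀) < w.valuation M s) (n : ℕ) (s : M) :
    ∃ s₀ : F, w.valuation M (s - f s₀) ≤ exp (-(n : ℤ)) := by
  by_cases h0 : s = 0
  · exact ⟨0, by rw [h0]; simp⟩
  · have h1 : w.valuation M s ≠ 0 := (Valuation.ne_zero_iff _).2 h0
    have h2 : exp (log (w.valuation M s)) = w.valuation M s := exp_log h1
    refine near (v := v) hd n (log (w.valuation M s) + n).toNat s ?_
    rw [← h2, exp_le_exp, log_exp]
    have := Int.self_le_toNat (log (w.valuation M s) + n)
    omega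

/-- If the valuations agree and `F` is dense in `M`, the completions are the same. -/
theorem compl_bij (hv : ∀ x, w.valuation M (f x) = v.valuation F x)
    (hd : ∀ s : M, s ≠ 0 → ∃ s₀ : F, w.valuation M (s - f s₀) < w.valuation M s) :
    ∃ e : v.adicCompletion F ≃+* w.adicCompletion M,
      ∀ x : F, e (algebraMap F (v.adicCompletion F) x) = algebraMap M (w.adicCompletion M) (f x) := by
  obtain ⟨j, hj, hj1, hj2⟩ := exists_compl_map v w f (fun x hx => by rw [hv]; exact hx)
    (fun x hx => by rw [hv]; exact hx)
  have vx : ∀ x : F, Valued.v (algebraMap F (v.adicCompletion F) x) = v.valuation F x :=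
    fun x => HeightOneSpectrum.valuedAdicCompletion_eq_valuation' v x
  have wx : ∀ x : M, Valued.v (algebraMap M (w.adicCompletion M) x) = w.valuation M x :=
    fun x => HeightOneSpectrum.valuedAdicCompletion_eq_valuation' w x
  -- isometry
  have hunit : ∀ y : v.adicCompletion F, Valued.v y = 1 → Valued.v (j y) = 1 := by
    intro y hy
    have h0 : y ≠ 0 := by
      rintro rfl
      rw [map_zero] at hy
      exact zero_ne_one hy
    refine le_antisymm (hj1 y hy.le) ?_
    have h1 : Valued.v (j y⁻¹) ≤ 1 := hj1 _ (by rw [map_inv₀, hy, inv_one])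
    have h2 : Valued.v (j y) * Valued.v (j y⁻¹) = 1 := by
      rw [← map_mul, ← map_mul, mul_inv_cancel₀ h0, map_one, map_one]
    calc 1 = Valued.v (j y) * Valued.v (j y⁻¹) := h2.symm
      _ ≤ Valued.v (j y) * 1 := mul_le_mul' le_rfl h1
      _ = Valued.v (j y) := mul_one _
  obtain ⟨π, hπ⟩ := v.valuation_exists_uniformizer F
  have hπ0 : π ≠ 0 := by
    rintro rfl
    rw [map_zero] at hπ
    exact exp_ne_zero hπ.symm
  have hiso : ∀ y : v.adicCompletion F, Valued.v (j y) = Valued.v y := by
    intro y
    by_cases h0 : y = 0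
    · rw [h0, map_zero, map_zero, map_zero]
    · have h1 : Valued.v y ≠ 0 := (Valuation.ne_zero_iff _).2 h0
      have h2 : exp (log (Valued.v y)) = Valued.v y := exp_log h1
      set k : ℤ := log (Valued.v y)
      have h3 : Valued.v (algebraMap F (v.adicCompletion F) (π ^ k)) = exp (-k) := by
        rw [vx, map_zpow₀, hπ, ← exp_zsmul]
        congr 1
        simp
      have h4 : Valued.v (j (algebraMap F (v.adicCompletion F) (π ^ k))) = exp (-k) := by
        rw [hj, wx, hv, map_zpow₀, hπ, ← exp_zsmul]
        congr 1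
        simp
      have h5 : Valued.v (y * algebraMap F (v.adicCompletion F) (π ^ k)) = 1 := by
        rw [map_mul, h3, ← h2, ← exp_add, add_neg_cancel, exp_zero]
      have h6 := hunit _ h5
      rw [map_mul, map_mul, h4] at h6
      rw [← h2]
      have h7 : Valued.v (j y) * exp (-k) * exp k = exp k := by rw [h6, one_mul]
      rwa [mul_assoc, ← exp_add, neg_add_cancel, exp_zero, mul_one] at h7
  have hind : IsInducing j := by
    have h1 : 𝓝 (0 : v.adicCompletion F) = comap j (𝓝 (j 0)) := by
      rw [map_zero]
      ext s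
      rw [mem_comap, mem_nhds_iff]
      constructor
      · rintro ⟨n, hn⟩
        refine ⟨{x | Valued.v x ≤ exp (-(n : ℤ))}, (mem_nhds_iff w _).2 ⟨n, le_rfl⟩, ?_⟩
        intro y hy
        apply hn
        have h2 : Valued.v (j y) ≤ exp (-(n : ℤ)) := hy
        rw [hiso] at h2
        exact h2
      · rintro ⟨t, ht, hts⟩
        obtain ⟨n, hn⟩ := (mem_nhds_iff w _).1 ht
        refine ⟨n, fun y hy => hts (hn ?_)⟩
        have h2 : Valued.v y ≤ exp (-(n : ℤ)) := hy
        show Valued.v (j y) ≤ exp (-(n : ℤ))
        rw [hiso]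
        exact h2
    exact (IsTopologicalAddGroup.isInducing_iff_nhds_zero (f := j.toAddMonoidHom)).2 (by
      have h2 : (j.toAddMonoidHom 0) = 0 := map_zero _
      have h3 : j 0 = 0 := map_zero _
      rw [h3] at h1
      exact h1)
  have hui : IsUniformInducing j :=
    AddMonoidHom.isUniformInducing_of_isInducing (f := j.toAddMonoidHom) hind
  have hcl : IsClosed (Set.range j) := (hui.isComplete_range).isClosed
  have hdense : Dense (Set.range j) := by
    intro y
    have hsub : Set.range (algebraMap M (w.adicCompletion M)) ⊆ closure (Set.range j) := by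
      rintro _ ⟨s, rfl⟩
      rw [mem_closure_iff_nhds]
      intro t ht
      have ht' : (fun z => algebraMap M (w.adicCompletion M) s - z) ⁻¹' t ∈
          𝓝 (0 : w.adicCompletion M) := by
        have h5 : Tendsto (fun z : w.adicCompletion M => algebraMap M (w.adicCompletion M) s - z)
            (𝓝 0) (𝓝 (algebraMap M (w.adicCompletion M) s - 0)) :=
          tendsto_const_nhds.sub tendsto_id
        rw [sub_zero] at h5
        exact h5 ht
      obtain ⟨n, hn⟩ := (mem_nhds_iff w _).1 ht'
      obtain ⟨s₀, hs₀⟩ := near' (v := v) hd n s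
      refine ⟨j (algebraMap F (v.adicCompletion F) s₀), ?_, ⟨_, rfl⟩⟩
      have h6 := hn (show Valued.v (algebraMap M (w.adicCompletion M) (s - f s₀)) ≤
        exp (-(n : ℤ)) by rw [wx]; exact hs₀)
      have h7 : algebraMap M (w.adicCompletion M) s -
          algebraMap M (w.adicCompletion M) (s - f s₀) ∈ t := h6
      rw [hj]
      rwa [map_sub, sub_sub_cancel] at h7
    exact closure_minimal hsub isClosed_closure (HeightOneSpectrum.denseRange_algebraMap M w y)
  have hsurj : Function.Surjective j := by
    intro y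
    have h := hcl.closure_eq ▸ hdense y
    exact h
  exact ⟨RingEquiv.ofBijective j ⟨j.injective, hsurj⟩, hj⟩

end surj

end Pool.Agent.H14F
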