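import Pool.Agent.H14F.StmB
import Pool.Agent.R395.CT.Comp
import Pool.Agent.H14Q.Alg

/-!
# F6 stub ALG: the partial algorithm, the search for a certificate
-/

set_option autoImplicit false

namespace Pool.Agent.H14F.ALG

open Pool.Agent.Helper446 Pool.Agent.W960.GA Pool.Agent.R395.CT Pool.Agent.H14F
open Pool.Agent.H14Q (exists_red ab ab_eq dvd_congr cab cp_sq)

/-- the value of the form -/
def qv (a b c x w : ℤ) : ℤ := a * (x * x) + b * (x * w) + c * (w * w)

/-- `ObsF` in bounded form -/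
def ObsB (a b c a' b' c' t : ℤ) (q : ℕ) : Prop :=
  ∀ x < q * q, ∀ w < q * q, ∀ u < q * q, ∀ v < q * q,
    ((q * q ∣ ab (qv a b c x w - t * ((u : ℤ) * u)) ∧
      q * q ∣ ab (qv a' b' c' x w - t * ((v : ℤ) * v))) → (q ∣ x ∧ q ∣ w))

theorem obs_iff {f g : Fin 3 → ℤ} {t : ℤ} {q : ℕ} (hq : 0 < q) :
    ObsF f g t q ↔ ObsB (f 0) (f 1) (f 2) (g 0) (g 1) (g 2) t q := by
  have hdv : ∀ z : ℤ, q * q ∣ ab z ↔ (q : ℤ) ^ 2 ∣ z := by
    intro z
    rw [ab_eq, ← Int.natCast_dvd, sq]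
    push_cast
    rfl
  have hev : ∀ (f : Fin 3 → ℤ) (x w : ℤ), qv (f 0) (f 1) (f 2) x w = ev f x w := by
    intro f x w
    unfold qv ev
    simp only [Int.cast_id]
    ring
  constructor
  · intro ho x _ w _ u _ v _ ⟨e1, e2⟩
    rw [hdv, hev] at e1 e2
    have := ho x w u v (by convert e1 using 1; ring) (by convert e2 using 1; ring)
    simpa only [Int.natCast_dvd_natCast] using this
  · intro ho x w u v e1 e2
    obtain ⟨x', hx', hx⟩ := exists_red hq x
    obtain ⟨w', hw', hw⟩ := exists_red hq w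
    obtain ⟨u', hu', hu⟩ := exists_red hq u
    obtain ⟨v', hv', hv⟩ := exists_red hq v
    have hsq : ∀ {x a : ℤ}, (q : ℤ) ^ 2 ∣ x - a → (q : ℤ) ^ 2 ∣ x ^ 2 - a ^ 2 := by
      intro x a h
      exact h.trans (sub_dvd_pow_sub_pow x a 2)
    have hevc : ∀ f : Fin 3 → ℤ, (q : ℤ) ^ 2 ∣ ev f x w - ev f (x' : ℤ) (w' : ℤ) := by
      intro f
      obtain ⟨a, ha⟩ := hx
      obtain ⟨b, hb⟩ := hw
      have e1 : x = x' + (q : ℤ) ^ 2 * a := by linear_combination ha
      have e2 : w = w' + (q : ℤ) ^ 2 * b := by linear_combination hb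
      rw [e1, e2]
      unfold ev
      simp only [Int.cast_id]
      refine ⟨f 0 * a * (2 * x' + (q : ℤ) ^ 2 * a) + f 1 * (a * w' + b * x' + (q : ℤ) ^ 2 * a * b) +
        f 2 * b * (2 * w' + (q : ℤ) ^ 2 * b), ?_⟩
      ring
    have f1 : q * q ∣ ab (qv (f 0) (f 1) (f 2) x' w' - t * ((u' : ℤ) * u')) := by
      rw [hdv, hev]
      have e : ev f (x' : ℤ) (w' : ℤ) - t * ((u' : ℤ) * u') =
        (ev f x w - t * u ^ 2) - (ev f x w - ev f (x' : ℤ) (w' : ℤ)) + t * (u ^ 2 - (u' : ℤ) ^ 2) := by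
        ring
      rw [e]
      exact dvd_add (dvd_sub e1 (hevc f)) ((hsq hu).mul_left _)
    have f2 : q * q ∣ ab (qv (g 0) (g 1) (g 2) x' w' - t * ((v' : ℤ) * v')) := by
      rw [hdv, hev]
      have e : ev g (x' : ℤ) (w' : ℤ) - t * ((v' : ℤ) * v') =
        (ev g x w - t * v ^ 2) - (ev g x w - ev g (x' : ℤ) (w' : ℤ)) + t * (v ^ 2 - (v' : ℤ) ^ 2) := by
        ring
      rw [e]
      exact dvd_add (dvd_sub e2 (hevc g)) ((hsq hv).mul_left _)
    have := ho x' hx' w' hw' u' hu' v' hv' ⟨f1, f2⟩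
    rw [dvd_congr hx, dvd_congr hw]
    simpa only [Int.natCast_dvd_natCast] using this

/-- a natural number is squarefree, in bounded form -/
def SqB (n : ℕ) : Prop := ∀ d < n + 1, (¬ (1 < d ∧ d * d ∣ n))

theorem sqB_iff {n : ℕ} (hn : n ≠ 0) : Squarefree n ↔ SqB n := by
  constructor
  · intro h d _ ⟨h1, h2⟩
    have := h d h2
    rw [Nat.isUnit_iff] at this
    omega
  · intro h d hd
    rw [Nat.isUnit_iff]
    have h0 : d ≠ 0 := by
      rintro rfl
      rw [zero_mul, zero_dvd_iff] at hd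
      exact hn hd
    by_contra h1
    have h2 : d ≤ n := by
      refine le_trans ?_ (Nat.le_of_dvd (Nat.pos_of_ne_zero hn) hd)
      exact Nat.le_mul_self d
    exact h d (by omega) ⟨by omega, hd⟩

/-- a natural number is prime, in bounded form -/
def PrB (n : ℕ) : Prop := 1 < n ∧ ∀ d < n, (¬ (1 < d ∧ d ∣ n))

theorem prB_iff (n : ℕ) : n.Prime ↔ PrB n := by
  constructor
  · intro h
    refine ⟨h.one_lt, fun d hd ⟨h1, h2⟩ => ?_⟩
    rcases (Nat.dvd_prime h).1 h2 with h3 | h3 <;> omega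
  · rintro ⟨h1, h2⟩
    rw [Nat.prime_def_lt]
    refine ⟨h1, fun m hm hd => ?_⟩
    have h0 : m ≠ 0 := by
      rintro rfl
      rw [zero_dvd_iff] at hd
      omega
    by_contra h3
    exact h2 m hm ⟨by omega, hd⟩

/-- the resultant -/
def rs (a b c a' b' c' : ℤ) : ℤ :=
  (a * c' - a' * c) * (a * c' - a' * c) - (a * b' - a' * b) * (b * c' - b' * c)

/-- `Cert` in bounded form -/
def CertB (a b c a' b' c' : ℤ) : Prop :=
  (¬ rs a b c a' b' c' = 0) ∧ ∀ s < 2 * ab (rs a b c a' b' c') + 1,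
    (¬ (ab ((s : ℤ) - ab (rs a b c a' b' c')) ∣ ab (rs a b c a' b' c') ∧
      SqB (ab ((s : ℤ) - ab (rs a b c a' b' c'))))) ∨
      ∃ q : ℕ, PrB q ∧ ObsB a b c a' b' c' ((s : ℤ) - ab (rs a b c a' b' c')) q

theorem rs_eq (f g : Fin 3 → ℤ) : rs (f 0) (f 1) (f 2) (g 0) (g 1) (g 2) = res f g := by
  unfold rs res
  ring

theorem cert_iff (f g : Fin 3 → ℤ) : Cert f g ↔ CertB (f 0) (f 1) (f 2) (g 0) (g 1) (g 2) := by
  unfold CertB
  rw [rs_eq]
  constructor
  · rintro ⟨hk, hc⟩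
    refine ⟨hk, fun s _ => ?_⟩
    by_cases hab : ab ((s : ℤ) - ab (res f g)) ∣ ab (res f g) ∧
      SqB (ab ((s : ℤ) - ab (res f g)))
    · obtain ⟨h1, h2⟩ := hab
      rw [ab_eq, ab_eq (res f g)] at h1
      have h3 : ((s : ℤ) - ab (res f g)) ∣ res f g := by
        rw [ab_eq]
        exact Int.natAbs_dvd_natAbs.1 h1
      have h4 : ((s : ℤ) - ab (res f g)) ≠ 0 := by
        intro h0
        rw [h0, zero_dvd_iff] at h3
        exact hk h3
      rw [ab_eq ((s : ℤ) - ab (res f g)), ← sqB_iff (Int.natAbs_ne_zero.2 h4),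
        Int.squarefree_natAbs] at h2
      obtain ⟨q, hq, ho⟩ := hc _ h3 h2
      exact Or.inr ⟨q, (prB_iff q).1 hq, (obs_iff hq.pos).1 ho⟩
    · exact Or.inl hab
  · rintro ⟨hk, hc⟩
    refine ⟨hk, fun t ht hs => ?_⟩
    have h1 : t.natAbs ≤ (res f g).natAbs :=
      Nat.le_of_dvd (Int.natAbs_pos.2 hk) (Int.natAbs_dvd_natAbs.2 ht)
    have hbd : ∃ s < 2 * ab (res f g) + 1, (s : ℤ) - ab (res f g) = t := by
      rw [ab_eq]
      refine ⟨(t + (res f g).natAbs).toNat, ?_, ?_⟩ <;> omega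
    obtain ⟨s, hs1, hs2⟩ := hbd
    have := hc s hs1
    rw [hs2] at this
    rcases this with h2 | ⟨q, hq, ho⟩
    · exfalso
      apply h2
      refine ⟨?_, ?_⟩
      · rw [ab_eq, ab_eq]
        exact Int.natAbs_dvd_natAbs.2 ht
      · rw [ab_eq, ← sqB_iff (Int.natAbs_ne_zero.2 hs.ne_zero), Int.squarefree_natAbs]
        exact hs
    · have hq' := (prB_iff q).2 hq
      exact ⟨q, hq', (obs_iff hq'.pos).2 ho⟩

section

variable {α : Type} [Primcodable α]

attribute [local fun_prop] ciadd cisub cimul cineg cicast cab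

theorem cqv {a b c : α → ℤ} {x w : α → ℕ} (ha : Computable a) (hb : Computable b)
    (hc : Computable c) (hx : Computable x) (hw : Computable w) :
    Computable fun z => qv (a z) (b z) (c z) (x z) (w z) := by
  unfold qv
  have h1 : Computable fun z => (x z : ℤ) := by fun_prop
  have h2 : Computable fun z => (w z : ℤ) := by fun_prop
  exact ciadd (ciadd (cimul ha (cimul h1 h1)) (cimul hb (cimul h1 h2))) (cimul hc (cimul h2 h2))

theorem csb {a b c t : α → ℤ} {x w u : α → ℕ} (ha : Computable a) (hb : Computable b)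
    (hc : Computable c) (ht : Computable t) (hx : Computable x) (hw : Computable w)
    (hu : Computable u) :
    Computable fun z => qv (a z) (b z) (c z) (x z) (w z) - t z * ((u z : ℤ) * u z) := by
  have h3 : Computable fun z => (u z : ℤ) := by fun_prop
  exact cisub (cqv ha hb hc hx hw) (cimul ht (cimul h3 h3))

/-- the matrix of `ObsB` -/
def ObsA (a b c a' b' c' t : ℤ) (q x w u v : ℕ) : Prop :=
  ((q * q ∣ ab (qv a b c x w - t * ((u : ℤ) * u)) ∧
      q * q ∣ ab (qv a' b' c' x w - t * ((v : ℤ) * v))) → (q ∣ x ∧ q ∣ w))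

theorem cp_obsA {a b c a' b' c' t : α → ℤ} {q x w u v : α → ℕ} (ha : Computable a)
    (hb : Computable b) (hc : Computable c) (ha' : Computable a') (hb' : Computable b')
    (hc' : Computable c') (ht : Computable t) (hq : Computable q) (hx : Computable x)
    (hw : Computable w) (hu : Computable u) (hv : Computable v) :
    ComputablePred fun z => ObsA (a z) (b z) (c z) (a' z) (b' z) (c' z) (t z) (q z) (x z) (w z)
      (u z) (v z) := by
  unfold ObsA
  exact cp_imp (cp_and (cp_sq (csb ha hb hc ht hx hw hu) hq) (cp_sq (csb ha' hb' hc' ht hx hw hv) hq))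
    (cp_and (cp_dvd hq hx) (cp_dvd hq hw))

theorem cp_obs {a b c a' b' c' t : α → ℤ} {q : α → ℕ} (ha : Computable a)
    (hb : Computable b) (hc : Computable c) (ha' : Computable a') (hb' : Computable b')
    (hc' : Computable c') (ht : Computable t) (hq : Computable q) :
    ComputablePred fun z => ObsB (a z) (b z) (c z) (a' z) (b' z) (c' z) (t z) (q z) := by
  change ComputablePred fun z => ∀ x < q z * q z, ∀ w < q z * q z, ∀ u < q z * q z,
    ∀ v < q z * q z, ObsA (a z) (b z) (c z) (a' z) (b' z) (c' z) (t z) (q z) x w u v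
  refine cp_all_lt (p := fun z x => ∀ w < q z * q z, ∀ u < q z * q z, ∀ v < q z * q z,
    ObsA (a z) (b z) (c z) (a' z) (b' z) (c' z) (t z) (q z) x w u v) ?_ (by fun_prop)
  refine cp_all_lt (p := fun (z : α × ℕ) w => ∀ u < q z.1 * q z.1, ∀ v < q z.1 * q z.1,
    ObsA (a z.1) (b z.1) (c z.1) (a' z.1) (b' z.1) (c' z.1) (t z.1) (q z.1) z.2 w u v) ?_
    (by fun_prop)
  refine cp_all_lt (p := fun (z : (α × ℕ) × ℕ) u => ∀ v < q z.1.1 * q z.1.1,
    ObsA (a z.1.1) (b z.1.1) (c z.1.1) (a' z.1.1) (b' z.1.1) (c' z.1.1) (t z.1.1) (q z.1.1)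
      z.1.2 z.2 u v) ?_ (by fun_prop)
  refine cp_all_lt (p := fun (z : ((α × ℕ) × ℕ) × ℕ) v =>
    ObsA (a z.1.1.1) (b z.1.1.1) (c z.1.1.1) (a' z.1.1.1) (b' z.1.1.1) (c' z.1.1.1) (t z.1.1.1)
      (q z.1.1.1) z.1.1.2 z.1.2 z.2 v) ?_ (by fun_prop)
  apply cp_obsA <;> fun_prop

theorem cp_sqB {n : α → ℕ} (hn : Computable n) : ComputablePred fun z => SqB (n z) := by
  unfold SqB
  refine cp_all_lt (p := fun z d => ¬ (1 < d ∧ d * d ∣ n z)) ?_ (by fun_prop)
  exact cp_not (cp_and (RE.cp_lt (by fun_prop) (by fun_prop)) (cp_dvd (by fun_prop) (by fun_prop)))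

theorem cp_prB {n : α → ℕ} (hn : Computable n) : ComputablePred fun z => PrB (n z) := by
  unfold PrB
  refine cp_and (RE.cp_lt (by fun_prop) (by fun_prop)) ?_
  refine cp_all_lt (p := fun z d => ¬ (1 < d ∧ d ∣ n z)) ?_ (by fun_prop)
  exact cp_not (cp_and (RE.cp_lt (by fun_prop) (by fun_prop)) (cp_dvd (by fun_prop) (by fun_prop)))

theorem crs {a b c a' b' c' : α → ℤ} (ha : Computable a)
    (hb : Computable b) (hc : Computable c) (ha' : Computable a') (hb' : Computable b')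
    (hc' : Computable c') : Computable fun z => rs (a z) (b z) (c z) (a' z) (b' z) (c' z) := by
  unfold rs
  have h1 : Computable fun z => a z * c' z - a' z * c z := cisub (cimul ha hc') (cimul ha' hc)
  have h2 : Computable fun z => a z * b' z - a' z * b z := cisub (cimul ha hb') (cimul ha' hb)
  have h3 : Computable fun z => b z * c' z - b' z * c z := cisub (cimul hb hc') (cimul hb' hc)
  exact cisub (cimul h1 h1) (cimul h2 h3)

/-- the matrix of `CertB` -/
def CertA (a b c a' b' c' r : ℤ) : Prop :=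
  (¬ r = 0) ∧ ∀ s < 2 * ab r + 1,
    (¬ (ab ((s : ℤ) - ab r) ∣ ab r ∧ SqB (ab ((s : ℤ) - ab r)))) ∨
      ∃ q : ℕ, PrB q ∧ ObsB a b c a' b' c' ((s : ℤ) - ab r) q

theorem re_certA {a b c a' b' c' r : α → ℤ} (ha : Computable a)
    (hb : Computable b) (hc : Computable c) (ha' : Computable a') (hb' : Computable b')
    (hc' : Computable c') (hr : Computable r) :
    REPred fun z => CertA (a z) (b z) (c z) (a' z) (b' z) (c' z) (r z) := by
  unfold CertA
  refine RE.and (RE.of_comput (cp_not (RE.cp_eq (by fun_prop) (by fun_prop)))) ?_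
  refine RE.all_lt (p := fun z s =>
    (¬ (ab ((s : ℤ) - ab (r z)) ∣ ab (r z) ∧ SqB (ab ((s : ℤ) - ab (r z))))) ∨
      ∃ q : ℕ, PrB q ∧ ObsB (a z) (b z) (c z) (a' z) (b' z) (c' z) ((s : ℤ) - ab (r z)) q) ?_
    (by fun_prop)
  refine RE.or (RE.of_comput (cp_not (cp_and (cp_dvd (by fun_prop) (by fun_prop))
    (cp_sqB (by fun_prop))))) ?_
  refine RE.exN (p := fun (z : α × ℕ) q => PrB q ∧ ObsB (a z.1) (b z.1) (c z.1) (a' z.1) (b' z.1)
    (c' z.1) ((z.2 : ℤ) - ab (r z.1)) q) ?_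
  refine RE.of_comput (cp_and (cp_prB (by fun_prop)) ?_)
  apply cp_obs <;> fun_prop

/-- the coefficients of the curve -/
def crv (a b c a' b' c' : ℤ) : List (List ℤ) :=
  [[-(c * c'), 0, 1], [-(b * c' + c * b')], [-(a * c' + b * b' + c * a')],
    [-(a * b' + b * a')], [-(a * a')]]

theorem ccrv {a b c a' b' c' : α → ℤ} (ha : Computable a)
    (hb : Computable b) (hc : Computable c) (ha' : Computable a') (hb' : Computable b')
    (hc' : Computable c') : Computable fun z => crv (a z) (b z) (c z) (a' z) (b' z) (c' z) := by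
  unfold crv
  have hs : ∀ {f : α → ℤ}, Computable f → Computable fun z => [f z] := fun hf =>
    Computable.list_cons.comp hf (Computable.const _)
  refine Computable.list_cons.comp (Computable.list_cons.comp (cineg (cimul hc hc'))
    (Computable.const _)) (Computable.list_cons.comp (hs (cineg (ciadd (cimul hb hc')
    (cimul hc hb')))) (Computable.list_cons.comp (hs (cineg (ciadd (ciadd (cimul ha hc')
    (cimul hb hb')) (cimul hc ha')))) (Computable.list_cons.comp (hs (cineg (ciadd (cimul ha hb')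
    (cimul hb ha')))) (Computable.list_cons.comp (hs (cineg (cimul ha ha'))) (Computable.const _)))))

/-- there is a certificate for `L` -/
def PFin (L : List (List ℤ)) : Prop :=
  ∃ w : (ℤ × ℤ × ℤ) × (ℤ × ℤ × ℤ), CertA w.1.1 w.1.2.1 w.1.2.2 w.2.1 w.2.2.1 w.2.2.2
    (rs w.1.1 w.1.2.1 w.1.2.2 w.2.1 w.2.2.1 w.2.2.2) ∧
    L = crv w.1.1 w.1.2.1 w.1.2.2 w.2.1 w.2.2.1 w.2.2.2

theorem re_PFin : REPred PFin := by
  unfold PFin
  refine RE.ex (p := fun (L : List (List ℤ)) (w : (ℤ × ℤ × ℤ) × (ℤ × ℤ × ℤ)) =>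
    CertA w.1.1 w.1.2.1 w.1.2.2 w.2.1 w.2.2.1 w.2.2.2
    (rs w.1.1 w.1.2.1 w.1.2.2 w.2.1 w.2.2.1 w.2.2.2) ∧
    L = crv w.1.1 w.1.2.1 w.1.2.2 w.2.1 w.2.2.1 w.2.2.2) ?_
  refine RE.and ?_ (RE.of_comput (RE.cp_eq (by fun_prop) ?_))
  · apply re_certA
    · fun_prop
    · fun_prop
    · fun_prop
    · fun_prop
    · fun_prop
    · fun_prop
    · apply crs <;> fun_prop
  · apply ccrv <;> fun_prop

end

theorem pFin_iff (L : List (List ℤ)) : PFin L ↔ ∃ f g, L = curve f g ∧ Cert f g := by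
  constructor
  · rintro ⟨⟨⟨a, b, c⟩, ⟨a', b', c'⟩⟩, h1, h2⟩
    refine ⟨![a, b, c], ![a', b', c'], ?_, ?_⟩
    · rw [h2]
      rfl
    · rw [cert_iff]
      exact h1
  · rintro ⟨f, g, h1, h2⟩
    rw [cert_iff] at h2
    exact ⟨((f 0, f 1, f 2), (g 0, g 1, g 2)), h2, h1⟩

theorem t : Pool.Agent.H14F.ALG := by
  obtain ⟨φ, hφ, h1, h2⟩ := RE.uniformize
    (r := fun (L : List (List ℤ)) (b : Bool) => b = false ∧ PFin L)
    (RE.and (RE.eq (by fun_prop) (by fun_prop)) (RE.comp re_PFin (by fun_prop)))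
  refine ⟨φ, hφ, fun L hL => ?_, fun L => ?_⟩
  · exact absurd (h2 L true hL).1 (by decide)
  · rw [← pFin_iff]
    constructor
    · intro h
      exact (h2 L false h).2
    · intro hc
      have hd : (φ L).Dom := (h1 _).2 ⟨false, rfl, hc⟩
      obtain ⟨b, hb⟩ := Part.dom_iff_mem.1 hd
      have := (h2 _ b hb).1
      rwa [this] at hb

end Pool.Agent.H14F.ALG
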