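import Pool.Agent.H14F.Stm
import Pool.Agent.H14Q.Mert

/-!
# Mertens for project F6
-/

set_option autoImplicit false

namespace Pool.Agent.H14F.MER

open Finset

theorem mem_P {z p : ℕ} (h : p ∈ P z) : 24 ≤ p ∧ p ≤ z ∧ p.Prime := by
  unfold P at h
  rw [mem_filter, mem_Icc] at h
  exact ⟨h.1.1, h.1.2, h.2⟩

/-- The sum of the inverses of the primes. -/
theorem sum_inv : ∃ C : ℝ, 0 ≤ C ∧ ∀ z : ℕ, 24 ≤ z →
    Real.log (Real.log z) - C ≤ ∑ p ∈ P z, (1 : ℝ) / p ∧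
      ∑ p ∈ P z, (1 : ℝ) / p ≤ Real.log (Real.log z) + C := by
  obtain ⟨C, hC⟩ := Pool.Agent.Erdos456.Mert.mertens_inv
  have hC0 : 0 ≤ C := (abs_nonneg _).trans (hC 3 le_rfl)
  set D : ℝ := ∑ p ∈ (Finset.Icc 1 23).filter Nat.Prime, (1 : ℝ) / p with hD
  have hD0 : 0 ≤ D := Finset.sum_nonneg fun t _ => by positivity
  refine ⟨C + D, by linarith, fun z hz => ?_⟩
  have h1 := abs_le.1 (hC z (by omega))
  have h2 : ∑ p ∈ (Finset.Icc 1 z).filter Nat.Prime, (1 : ℝ) / p = D + ∑ p ∈ P z, (1 : ℝ) / p := by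
    rw [hD, ← Finset.sum_union]
    · refine Finset.sum_congr ?_ fun _ _ => rfl
      ext p
      unfold P
      simp only [mem_union, mem_filter, mem_Icc]
      constructor
      · rintro ⟨⟨h3, h4⟩, h5⟩
        by_cases h6 : p ≤ 23
        · exact Or.inl ⟨⟨h3, h6⟩, h5⟩
        · exact Or.inr ⟨⟨by omega, h4⟩, h5⟩
      · rintro (⟨⟨h3, h4⟩, h5⟩ | ⟨⟨h3, h4⟩, h5⟩)
        · exact ⟨⟨h3, by omega⟩, h5⟩
        · exact ⟨⟨by omega, h4⟩, h5⟩
    · rw [Finset.disjoint_left]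
      intro p hp hq
      unfold P at hq
      rw [mem_filter, mem_Icc] at hp hq
      omega
  constructor
  · linarith [h1.1]
  · linarith [h1.2]

theorem t : Pool.Agent.H14F.MER := by
  obtain ⟨C, hC0, hC⟩ := sum_inv
  obtain ⟨E, hE0, hE⟩ := Pool.Agent.H14Q.sum_sq_le
  set A : ℝ := Real.exp (32 / 25 * C + 7 * E) with hA
  set B : ℝ := Real.exp (11 / 25 * C + 33 / 25 * E) with hB
  have hA0 : 0 < A := Real.exp_pos _
  have hB0 : 0 < B := Real.exp_pos _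
  refine ⟨A + B + 4 * C, by linarith, fun z hz => ?_⟩
  have hz0 : (24 : ℝ) ≤ z := by exact_mod_cast hz
  have hl : 0 < Real.log z := Real.log_pos (by linarith)
  obtain ⟨h1, h2⟩ := hC z hz
  have h3 := hE (P z)
  have hs : ∀ a b : ℝ, ∑ p ∈ P z, (a / (p : ℝ) + b / (p : ℝ) ^ 2) =
      a * ∑ p ∈ P z, (1 : ℝ) / p + b * ∑ p ∈ P z, (1 : ℝ) / (p : ℝ) ^ 2 := by
    intro a b
    rw [Finset.sum_add_distrib, Finset.mul_sum, Finset.mul_sum]
    congr 1
    · exact Finset.sum_congr rfl fun p _ => by ring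
    · exact Finset.sum_congr rfl fun p _ => by ring
  refine ⟨?_, ?_, ?_⟩
  · have e1 : ∏ p ∈ P z, (1 - (32 / 25 / (p : ℝ) - 7 / (p : ℝ) ^ 2)) ≤
        ∏ p ∈ P z, Real.exp (-(32 / 25) / (p : ℝ) + 7 / (p : ℝ) ^ 2) := by
      refine Finset.prod_le_prod (fun p hp => ?_) fun p hp => ?_
      · have h4 : (24 : ℝ) ≤ p := by exact_mod_cast (mem_P hp).1
        have h5 : 32 / 25 / (p : ℝ) ≤ 1 := by
          rw [div_le_one (by linarith)]
          linarith
        have h6 : (0 : ℝ) ≤ 7 / (p : ℝ) ^ 2 := by positivity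
        linarith
      · have h4 := Real.add_one_le_exp (-(32 / 25) / (p : ℝ) + 7 / (p : ℝ) ^ 2)
        have h5 : -(32 / 25) / (p : ℝ) = -(32 / 25 / (p : ℝ)) := by ring
        rw [h5] at h4 ⊢
        linarith
    have e2 : Real.log z ^ (-(32 : ℝ) / 25) = Real.exp (-(32 / 25) * Real.log (Real.log z)) := by
      rw [Real.rpow_def_of_pos hl]
      congr 1
      ring
    refine e1.trans ?_
    rw [← Real.exp_sum, hs]
    have e3 : Real.exp (-(32 / 25) * ∑ p ∈ P z, (1 : ℝ) / p + 7 * ∑ p ∈ P z, (1 : ℝ) / (p : ℝ) ^ 2) ≤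
        A * Real.log z ^ (-(32 : ℝ) / 25) := by
      rw [e2, hA, ← Real.exp_add]
      refine Real.exp_le_exp.2 ?_
      nlinarith
    refine e3.trans (mul_le_mul_of_nonneg_right (by linarith) (Real.rpow_nonneg hl.le _))
  · have e1 : ∏ p ∈ P z, (1 + 11 / 25 * (1 / (p : ℝ) + 3 / (p : ℝ) ^ 2)) ≤
        ∏ p ∈ P z, Real.exp ((11 / 25) / (p : ℝ) + (33 / 25) / (p : ℝ) ^ 2) := by
      refine Finset.prod_le_prod (fun p hp => ?_) fun p hp => ?_
      · positivity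
      · have h4 := Real.add_one_le_exp ((11 / 25) / (p : ℝ) + (33 / 25) / (p : ℝ) ^ 2)
        have h5 : 11 / 25 * (1 / (p : ℝ) + 3 / (p : ℝ) ^ 2) =
            (11 / 25) / (p : ℝ) + (33 / 25) / (p : ℝ) ^ 2 := by ring
        rw [h5]
        linarith
    have e2 : Real.log z ^ ((11 : ℝ) / 25) = Real.exp ((11 / 25) * Real.log (Real.log z)) := by
      rw [Real.rpow_def_of_pos hl]
      congr 1
      ring
    refine e1.trans ?_
    rw [← Real.exp_sum, hs]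
    have e3 : Real.exp ((11 / 25) * ∑ p ∈ P z, (1 : ℝ) / p +
        (33 / 25) * ∑ p ∈ P z, (1 : ℝ) / (p : ℝ) ^ 2) ≤ B * Real.log z ^ ((11 : ℝ) / 25) := by
      rw [e2, hB, ← Real.exp_add]
      refine Real.exp_le_exp.2 ?_
      nlinarith
    refine e3.trans (mul_le_mul_of_nonneg_right (by linarith) (Real.rpow_nonneg hl.le _))
  · have e1 : ∑ p ∈ P z, 4 / (p : ℝ) = 4 * ∑ p ∈ P z, (1 : ℝ) / p := by
      rw [Finset.mul_sum]
      exact Finset.sum_congr rfl fun p _ => by ring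
    rw [e1]
    linarith

end Pool.Agent.H14F.MER
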