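import Pool.Agent.H14F.Stm

/-!
# Project F6, stub OMEGA: pairs of forms whose resultant has many small prime factors

Author: helper66.
-/

set_option autoImplicit false

namespace Pool.Agent.H14F.OMEGA

open Finset

/-- the resultant is periodic -/
theorem res_modEq {p : ℤ} {f f' g g' : Fin 3 → ℤ} (hf : ∀ i, f i ≡ f' i [ZMOD p])
    (hg : ∀ i, g i ≡ g' i [ZMOD p]) : res f g ≡ res f' g' [ZMOD p] := by
  unfold res
  exact Int.ModEq.sub
    (Int.ModEq.pow 2 (Int.ModEq.sub ((hf 0).mul (hg 2)) ((hg 0).mul (hf 2))))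
    (Int.ModEq.mul (Int.ModEq.sub ((hf 0).mul (hg 1)) ((hg 0).mul (hf 1)))
      (Int.ModEq.sub ((hf 1).mul (hg 2)) ((hg 1).mul (hf 2))))

/-- the reduction modulo `p` -/
def red (p : ℕ) (f : Fin 3 → ℤ) : Fin 3 → ℤ := fun i => f i % (p : ℤ)

theorem red_mem {p : ℕ} (hp : 0 < p) (f : Fin 3 → ℤ) : red p f ∈ cls p := by
  unfold cls
  rw [Fintype.mem_piFinset]
  intro i
  rw [mem_Ico]
  exact ⟨Int.emod_nonneg _ (by exact_mod_cast hp.ne'), Int.emod_lt_of_pos _ (by exact_mod_cast hp)⟩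

theorem red_modEq (p : ℕ) (f : Fin 3 → ℤ) (i : Fin 3) : f i ≡ red p f i [ZMOD p] :=
  (Int.mod_modEq _ _).symm

/-- the quotients -/
def quo (P : ℕ) (f : Fin 3 → ℤ) : Fin 3 → ℤ := fun i => f i / (P : ℤ)

/-- the box of the quotients -/
noncomputable def qbox (P H : ℕ) : Finset (Fin 3 → ℤ) :=
  Fintype.piFinset fun _ => Icc (-(H : ℤ) / P) ((H : ℤ) / P)

theorem quo_mem {P H : ℕ} (hP : 0 < P) {f : Fin 3 → ℤ} (hf : f ∈ box H) : quo P f ∈ qbox P H := by
  unfold box rbox at hf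
  rw [Fintype.mem_piFinset] at hf
  unfold qbox
  rw [Fintype.mem_piFinset]
  intro i
  have h := hf i
  rw [mem_Icc] at h ⊢
  have hP' : (0 : ℤ) < P := by exact_mod_cast hP
  exact ⟨Int.ediv_le_ediv hP' h.1, Int.ediv_le_ediv hP' h.2⟩

theorem qbox_card {P H : ℕ} (hP : 0 < P) (hPH : P ≤ H) :
    ((qbox P H).card : ℝ) ≤ (4 * (H : ℝ) / P) ^ 3 := by
  unfold qbox
  rw [Fintype.card_piFinset]
  simp only [Int.card_Icc, prod_const, card_univ, Fintype.card_fin]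
  push_cast
  refine pow_le_pow_left₀ (by positivity) ?_ 3
  have hP' : (0 : ℝ) < P := by exact_mod_cast hP
  have h1 : (((H : ℤ) / P : ℤ) : ℝ) ≤ (H : ℝ) / P := by
    rw [le_div_iff₀ hP']
    have := Int.ediv_mul_le (H : ℤ) (show (P : ℤ) ≠ 0 by exact_mod_cast hP.ne')
    exact_mod_cast this
  have h2 : -(H : ℝ) / P - 1 ≤ ((-(H : ℤ) / P : ℤ) : ℝ) := by
    rw [sub_le_iff_le_add, div_le_iff₀ hP']
    have := Int.lt_ediv_add_one_mul_self (-(H : ℤ)) (show (0 : ℤ) < P by exact_mod_cast hP)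
    have h3 : -(H : ℝ) < (((-(H : ℤ) / P : ℤ) : ℝ) + 1) * P := by exact_mod_cast this
    exact h3.le
  have h3 : (0 : ℤ) ≤ (H : ℤ) / P + 1 - -(H : ℤ) / P := by
    have ha : (0 : ℤ) ≤ (H : ℤ) / P := Int.ediv_nonneg (by positivity) (by positivity)
    have hb : -(H : ℤ) / P ≤ 0 := by
      have : -(H : ℤ) / P ≤ 0 / P := Int.ediv_le_ediv (by exact_mod_cast hP) (by
        have : (0 : ℤ) ≤ H := by positivity
        linarith)
      simpa using this
    linarith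
  have h4 : ((((H : ℤ) / P + 1 - -(H : ℤ) / P).toNat : ℕ) : ℝ) =
      (((H : ℤ) / P : ℤ) : ℝ) + 1 - ((-(H : ℤ) / P : ℤ) : ℝ) := by
    have := Int.toNat_of_nonneg h3
    exact_mod_cast congrArg (fun x : ℤ => (x : ℝ)) this
  rw [h4]
  have h5 : (1 : ℝ) ≤ (H : ℝ) / P := by
    rw [le_div_iff₀ hP', one_mul]
    exact_mod_cast hPH
  have h6 : -(H : ℝ) / P = -((H : ℝ) / P) := by ring
  rw [h6] at h2
  have h7 : 4 * (H : ℝ) / P = 4 * ((H : ℝ) / P) := by ring
  rw [h7]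
  linarith

/-- the pairs of forms modulo `p` with vanishing resultant -/
noncomputable def Z (p : ℕ) : Finset ((Fin 3 → ℤ) × (Fin 3 → ℤ)) :=
  (cls p ×ˢ cls p).filter fun q : (Fin 3 → ℤ) × (Fin 3 → ℤ) => (p : ℤ) ∣ res q.1 q.2

theorem eq_of_all {S : Finset ℕ} (hS : ∀ p ∈ S, p.Prime) {x y : ℤ}
    (hq : x / ((∏ p ∈ S, p : ℕ) : ℤ) = y / ((∏ p ∈ S, p : ℕ) : ℤ))
    (hr : ∀ p ∈ S, x % (p : ℤ) = y % (p : ℤ)) : x = y := by
  have h1 : (((∏ p ∈ S, p : ℕ)) : ℤ) ∣ x - y := by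
    rw [Nat.cast_prod]
    refine Finset.prod_dvd_of_coprime ?_ ?_
    · intro p hp q hq' hpq
      have := (Nat.coprime_primes (hS p hp) (hS q hq')).2 hpq
      exact_mod_cast Nat.Coprime.isCoprime this
    · intro p hp
      exact Int.ModEq.dvd (hr p hp).symm
  have h2 : x % ((∏ p ∈ S, p : ℕ) : ℤ) = y % ((∏ p ∈ S, p : ℕ) : ℤ) :=
    (Int.ModEq.symm ((Int.modEq_iff_dvd).2 h1))
  rw [← Int.emod_add_mul_ediv x ((∏ p ∈ S, p : ℕ) : ℤ), ← Int.emod_add_mul_ediv y ((∏ p ∈ S, p : ℕ) : ℤ), h2, hq]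

/-- counting the pairs in the box whose resultant is divisible by all `p` in `S` -/
theorem count {S : Finset ℕ} {H : ℕ} (hS : ∀ p ∈ S, p.Prime) (hPH : ∏ p ∈ S, p ≤ H) :
    (((box H ×ˢ box H).filter fun q : (Fin 3 → ℤ) × (Fin 3 → ℤ) =>
      ∀ p ∈ S, ((p : ℕ) : ℤ) ∣ res q.1 q.2).card : ℝ) ≤
      (4 * (H : ℝ) / (∏ p ∈ S, p : ℕ)) ^ 6 * ∏ p ∈ S, ((Z p).card : ℝ) := by
  classical
  set P := ∏ p ∈ S, p with hPdef
  have hP : 0 < P := Finset.prod_pos fun p hp => (hS p hp).pos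
  have h1 : ((box H ×ˢ box H).filter fun q : (Fin 3 → ℤ) × (Fin 3 → ℤ) =>
      ∀ p ∈ S, ((p : ℕ) : ℤ) ∣ res q.1 q.2).card ≤
      ((qbox P H ×ˢ qbox P H) ×ˢ S.pi fun p => Z p).card := by
    refine Finset.card_le_card_of_injOn
      (fun q => ((quo P q.1, quo P q.2), fun p _ => (red p q.1, red p q.2))) ?_ ?_
    · intro q hq
      rw [Finset.mem_coe, mem_filter, mem_product] at hq
      rw [Finset.mem_coe, mem_product, mem_product]
      refine ⟨⟨quo_mem hP hq.1.1, quo_mem hP hq.1.2⟩, ?_⟩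
      rw [Finset.mem_pi]
      intro p hp
      unfold Z
      rw [mem_filter, mem_product]
      refine ⟨⟨red_mem (hS p hp).pos _, red_mem (hS p hp).pos _⟩, ?_⟩
      exact (Int.ModEq.dvd_iff (res_modEq (red_modEq p q.1) (red_modEq p q.2))).1 (hq.2 p hp)
    · intro q _ q' _ h
      simp only [Prod.mk.injEq] at h
      obtain ⟨⟨ha, hb⟩, hc⟩ := h
      have hc' : ∀ p ∈ S, red p q.1 = red p q'.1 ∧ red p q.2 = red p q'.2 := by
        intro p hp
        have := congrFun (congrFun hc p) hp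
        exact Prod.mk.inj this
      refine Prod.ext ?_ ?_
      · funext i
        exact eq_of_all hS (congrFun ha i) fun p hp => congrFun (hc' p hp).1 i
      · funext i
        exact eq_of_all hS (congrFun hb i) fun p hp => congrFun (hc' p hp).2 i
  have h2 : (((qbox P H ×ˢ qbox P H) ×ˢ S.pi fun p => Z p).card : ℝ) =
      ((qbox P H).card : ℝ) * (qbox P H).card * ∏ p ∈ S, ((Z p).card : ℝ) := by
    rw [card_product, card_product, Finset.card_pi]
    push_cast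
    ring
  have h3 := qbox_card hP hPH
  calc _ ≤ (((qbox P H ×ˢ qbox P H) ×ˢ S.pi fun p => Z p).card : ℝ) := by exact_mod_cast h1
    _ = ((qbox P H).card : ℝ) * (qbox P H).card * ∏ p ∈ S, ((Z p).card : ℝ) := h2
    _ ≤ (4 * (H : ℝ) / P) ^ 3 * (4 * (H : ℝ) / P) ^ 3 * ∏ p ∈ S, ((Z p).card : ℝ) := by
        refine mul_le_mul_of_nonneg_right ?_ (Finset.prod_nonneg fun _ _ => by positivity)
        exact mul_le_mul h3 h3 (by positivity) (by positivity)
    _ = (4 * (H : ℝ) / P) ^ 6 * ∏ p ∈ S, ((Z p).card : ℝ) := by ring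

theorem count' (hR : RESC) {S : Finset ℕ} {H : ℕ} (hS : ∀ p ∈ S, p.Prime ∧ 5 ≤ p)
    (hPH : ∏ p ∈ S, p ≤ H) :
    (((box H ×ˢ box H).filter fun q : (Fin 3 → ℤ) × (Fin 3 → ℤ) =>
      ∀ p ∈ S, ((p : ℕ) : ℤ) ∣ res q.1 q.2).card : ℝ) ≤
      (4 * (H : ℝ)) ^ 6 * ∏ p ∈ S, (1 / (p : ℝ) + 3 / (p : ℝ) ^ 2) := by
  refine (count (fun p hp => (hS p hp).1) hPH).trans ?_
  have h1 : ∏ p ∈ S, ((Z p).card : ℝ) ≤ ∏ p ∈ S, ((p : ℝ) ^ 5 + 3 * (p : ℝ) ^ 4) :=
    Finset.prod_le_prod (fun _ _ => by positivity) fun p hp => hR p (hS p hp).1 (hS p hp).2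
  have h2 : ∏ p ∈ S, ((p : ℝ) ^ 5 + 3 * (p : ℝ) ^ 4) =
      ((∏ p ∈ S, p : ℕ) : ℝ) ^ 6 * ∏ p ∈ S, (1 / (p : ℝ) + 3 / (p : ℝ) ^ 2) := by
    rw [Nat.cast_prod, ← Finset.prod_pow, ← Finset.prod_mul_distrib]
    refine Finset.prod_congr rfl fun p hp => ?_
    have : (p : ℝ) ≠ 0 := by exact_mod_cast (hS p hp).1.ne_zero
    field_simp
  have hP : (0 : ℝ) < ((∏ p ∈ S, p : ℕ) : ℝ) := by
    exact_mod_cast Finset.prod_pos fun p hp => (hS p hp).1.pos
  calc _ ≤ (4 * (H : ℝ) / (∏ p ∈ S, p : ℕ)) ^ 6 * ∏ p ∈ S, ((p : ℝ) ^ 5 + 3 * (p : ℝ) ^ 4) :=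
        mul_le_mul_of_nonneg_left h1 (by positivity)
    _ = _ := by
        rw [h2, div_pow]
        field_simp

/-- a choice of the subsets -/
theorem lower {T' T : Finset ℕ} (hT : T' ⊆ T) {A : ℕ} (hA : A ≤ T'.card) {Y : ℝ} (hY : 1 ≤ Y) :
    Y ^ A ≤ ∑ S ∈ (T.powerset.filter fun S => S.card ≤ A), (if S ⊆ T' then (Y - 1) ^ S.card else 0) := by
  obtain ⟨U, hU, hUA⟩ := Finset.exists_subset_card_eq hA
  have h1 : Y ^ A = ∑ S ∈ U.powerset, (Y - 1) ^ S.card := by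
    have h := Finset.prod_add (fun _ => Y - 1) (fun _ => (1 : ℝ)) U
    simp only [prod_const, one_pow, mul_one] at h
    rw [sub_add_cancel, hUA] at h
    exact h
  rw [h1, ← Finset.sum_filter]
  refine Finset.sum_le_sum_of_subset_of_nonneg ?_ fun S _ _ => pow_nonneg (by linarith) _
  intro S hS
  rw [mem_powerset] at hS
  rw [mem_filter, mem_filter, mem_powerset]
  exact ⟨⟨hS.trans (hU.trans hT), (card_le_card hS).trans hUA.le⟩, hS.trans hU⟩

theorem t : OMEGA := by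
  classical
  intro hR T z A H Y hT hz hzA hY _
  set B := (box H ×ˢ box H).filter fun q : (Fin 3 → ℤ) × (Fin 3 → ℤ) =>
    A ≤ (T.filter fun p => ((p : ℕ) : ℤ) ∣ res q.1 q.2).card with hB
  have hY0 : 0 < Y := by linarith
  set w : ℕ → ℝ := fun p => 1 / (p : ℝ) + 3 / (p : ℝ) ^ 2 with hw
  have hw0 : ∀ p, 0 ≤ w p := fun p => by rw [hw]; positivity
  have key : (B.card : ℝ) * Y ^ A ≤ (4 * (H : ℝ)) ^ 6 * ∏ p ∈ T, (1 + (Y - 1) * w p) := by
    calc (B.card : ℝ) * Y ^ A = ∑ q ∈ B, Y ^ A := by rw [sum_const, nsmul_eq_mul]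
      _ ≤ ∑ q ∈ B, ∑ S ∈ (T.powerset.filter fun S => S.card ≤ A),
            (if S ⊆ (T.filter fun p => ((p : ℕ) : ℤ) ∣ res q.1 q.2) then (Y - 1) ^ S.card else 0) := by
          refine Finset.sum_le_sum fun q hq => ?_
          exact lower (filter_subset _ _) (mem_filter.1 hq).2 hY
      _ = ∑ S ∈ (T.powerset.filter fun S => S.card ≤ A), ∑ q ∈ B,
            (if S ⊆ (T.filter fun p => ((p : ℕ) : ℤ) ∣ res q.1 q.2) then (Y - 1) ^ S.card else 0) :=
          Finset.sum_comm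
      _ ≤ ∑ S ∈ (T.powerset.filter fun S => S.card ≤ A),
            (4 * (H : ℝ)) ^ 6 * ∏ p ∈ S, ((Y - 1) * w p) := by
          refine Finset.sum_le_sum fun S hS => ?_
          rw [mem_filter, mem_powerset] at hS
          have hST := hS.1
          have hSp : ∀ p ∈ S, p.Prime ∧ 5 ≤ p := fun p hp => ⟨(hT p (hST hp)).1, (hT p (hST hp)).2.1⟩
          have hPH : ∏ p ∈ S, p ≤ H := by
            calc ∏ p ∈ S, p ≤ ∏ _p ∈ S, z := Finset.prod_le_prod' fun p hp => (hT p (hST hp)).2.2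
              _ = z ^ S.card := by rw [prod_const]
              _ ≤ z ^ A := Nat.pow_le_pow_right hz hS.2
              _ ≤ H := hzA
          have h1 := count' hR hSp hPH
          rw [← Finset.sum_filter, sum_const, nsmul_eq_mul]
          have h2 : ((B.filter fun q => S ⊆ (T.filter fun p => ((p : ℕ) : ℤ) ∣ res q.1 q.2)).card : ℝ) ≤
              (((box H ×ˢ box H).filter fun q : (Fin 3 → ℤ) × (Fin 3 → ℤ) =>
                ∀ p ∈ S, ((p : ℕ) : ℤ) ∣ res q.1 q.2).card : ℝ) := by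
            exact_mod_cast Finset.card_le_card fun q hq => by
              rw [mem_filter] at hq
              rw [mem_filter]
              exact ⟨(mem_filter.1 hq.1).1, fun p hp => (mem_filter.1 (hq.2 hp)).2⟩
          have h3 : (0 : ℝ) ≤ (Y - 1) ^ S.card := pow_nonneg (by linarith) _
          calc _ ≤ ((4 * (H : ℝ)) ^ 6 * ∏ p ∈ S, (1 / (p : ℝ) + 3 / (p : ℝ) ^ 2)) * (Y - 1) ^ S.card :=
                mul_le_mul_of_nonneg_right (h2.trans h1) h3
            _ = _ := by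
                rw [Finset.prod_mul_distrib, prod_const]
                ring
      _ ≤ ∑ S ∈ T.powerset, (4 * (H : ℝ)) ^ 6 * ∏ p ∈ S, ((Y - 1) * w p) := by
          refine Finset.sum_le_sum_of_subset_of_nonneg (filter_subset _ _) fun S _ _ => ?_
          exact mul_nonneg (by positivity)
            (Finset.prod_nonneg fun p _ => mul_nonneg (by linarith) (hw0 p))
      _ = (4 * (H : ℝ)) ^ 6 * ∏ p ∈ T, (1 + (Y - 1) * w p) := by
          rw [← Finset.mul_sum]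
          congr 1
          have h := Finset.prod_add (fun p => (Y - 1) * w p) (fun _ => (1 : ℝ)) T
          simp only [prod_const, one_pow, mul_one] at h
          rw [← h]
          exact Finset.prod_congr rfl fun p _ => add_comm _ _
  have h1 : (B.card : ℝ) = Y⁻¹ ^ A * ((B.card : ℝ) * Y ^ A) := by
    rw [inv_pow]
    field_simp
  rw [h1, mul_assoc]
  exact mul_le_mul_of_nonneg_left key (by positivity)

end Pool.Agent.H14F.OMEGA
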