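import Pool.Agent.H14F.Stm

/-!
# Stub PLANE of project F6: the points of a box on a plane
-/

set_option autoImplicit false

namespace Pool.Agent.H14F.PLANE

open Finset

/-- a set of integers in an interval, all congruent modulo `r` -/
lemma cong_card (s : Finset ℤ) (H r : ℕ) (hr : 0 < r) (hs : ∀ x ∈ s, -(H : ℤ) ≤ x ∧ x ≤ H)
    (hc : ∀ x ∈ s, ∀ y ∈ s, (r : ℤ) ∣ x - y) : s.card ≤ 2 * H / r + 1 := by
  have hr' : (0 : ℤ) < r := by exact_mod_cast hr
  rw [← Finset.card_range (2 * H / r + 1)]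
  refine Finset.card_le_card_of_injOn (fun x => ((x + H) / r).toNat) ?_ ?_
  · intro x hx
    obtain ⟨h1, h2⟩ := hs x hx
    have h3 : (x + H) / r ≤ (2 * H / r : ℕ) := by
      push_cast
      exact Int.ediv_le_ediv hr' (by linarith)
    have h4 : 0 ≤ (x + H) / r := Int.ediv_nonneg (by linarith) hr'.le
    simp only [Finset.coe_range, Set.mem_Iio]
    omega
  · intro x hx y hy hxy
    obtain ⟨h1, h2⟩ := hs x hx
    obtain ⟨h1', h2'⟩ := hs y hy
    have h4 : 0 ≤ (x + H) / r := Int.ediv_nonneg (by linarith) hr'.le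
    have h4' : 0 ≤ (y + H) / r := Int.ediv_nonneg (by linarith) hr'.le
    have h5 : (x + H) / r = (y + H) / r := by
      simp only at hxy
      omega
    have h6 : (x + H) % r = (y + H) % r := by
      have h61 : y + (H : ℤ) ≡ x + H [ZMOD r] := Int.modEq_iff_dvd.2 (by
        have := hc x hx y hy
        have e : x + (H : ℤ) - (y + H) = x - y := by ring
        rw [e]; exact this)
      exact h61.symm
    have h7 := Int.emod_add_mul_ediv (x + H) r
    have h8 := Int.emod_add_mul_ediv (y + H) r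
    rw [h5, h6, h8] at h7
    linarith

lemma main (H : ℕ) (n : Fin 3 → ℤ) (m : ℤ) (hH : 1 ≤ H)
    (hp : ∀ p : ℕ, p.Prime → ¬ ∀ i, (p : ℤ) ∣ n i) (i j k : Fin 3)
    (hd : ∀ f, dot n f = n i * f i + n j * f j + n k * f k) (hcov : ∀ l, l = i ∨ l = j ∨ l = k)
    (hi : (n i).natAbs = nrm n) :
    ((box H).filter fun f => dot n f = m).card * nrm n ≤ 5 * (H ^ 2 + H * nrm n) := by
  classical
  have hmem : ∀ f ∈ box H, ∀ l, -(H : ℤ) ≤ f l ∧ f l ≤ H := by
    intro f hf l
    unfold box rbox at hf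
    rw [Fintype.mem_piFinset] at hf
    exact Finset.mem_Icc.1 (hf l)
  have hle : ∀ l, (n l).natAbs ≤ nrm n := fun l => Finset.le_sup (f := fun i => (n i).natAbs) (mem_univ l)
  have ha : n i ≠ 0 := by
    intro h0
    rw [h0, Int.natAbs_zero] at hi
    apply hp 2 Nat.prime_two
    intro l
    have := hle l
    rw [← hi] at this
    have h1 : n l = 0 := by omega
    rw [h1]; exact dvd_zero _
  have haN : 0 < (n i).natAbs := Int.natAbs_pos.2 ha
  set g : ℕ := Int.gcd (n i) (n k) with hg
  have hgpos : 0 < g := Int.gcd_pos_of_ne_zero_left _ ha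
  have hg1 : (g : ℤ) ∣ n i := Int.gcd_dvd_left ..
  have hg2 : (g : ℤ) ∣ n k := Int.gcd_dvd_right ..
  obtain ⟨a', ha'⟩ := hg1
  obtain ⟨c', hc'⟩ := hg2
  have hgz : (g : ℤ) ≠ 0 := by exact_mod_cast hgpos.ne'
  have hcop : IsCoprime a' c' := by
    rw [Int.isCoprime_iff_gcd_eq_one]
    have h1 : Int.gcd (n i) (n k) = g * Int.gcd a' c' := by
      rw [ha', hc', Int.gcd_mul_left, Int.natAbs_natCast]
    rw [← hg] at h1
    have h2 : g * 1 = g * Int.gcd a' c' := by rw [mul_one]; exact h1
    exact (Nat.eq_of_mul_eq_mul_left hgpos h2).symm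
  have hgb : IsCoprime (g : ℤ) (n j) := by
    rw [Int.isCoprime_iff_gcd_eq_one]
    by_contra hne
    obtain ⟨p, hpp, hpd⟩ := Nat.exists_prime_and_dvd hne
    have h1 : (p : ℤ) ∣ g := (Int.natCast_dvd_natCast.2 hpd).trans (Int.gcd_dvd_left ..)
    have h2 : (p : ℤ) ∣ n j := (Int.natCast_dvd_natCast.2 hpd).trans (Int.gcd_dvd_right ..)
    apply hp p hpp
    intro l
    rcases hcov l with rfl | rfl | rfl
    · exact h1.trans (ha' ▸ Dvd.intro _ rfl)
    · exact h2
    · exact h1.trans (hc' ▸ Dvd.intro _ rfl)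
  have ha'0 : a' ≠ 0 := by
    rintro rfl
    exact ha (by rw [ha', mul_zero])
  have ha'N : 0 < a'.natAbs := Int.natAbs_pos.2 ha'0
  have hprod : nrm n = g * a'.natAbs := by
    rw [← hi, ha', Int.natAbs_mul, Int.natAbs_natCast]
  set T := (box H).filter fun f => dot n f = m with hT
  have hdiff : ∀ f ∈ T, ∀ f' ∈ T, n i * (f i - f' i) + n j * (f j - f' j) + n k * (f k - f' k) = 0 := by
    intro f hf f' hf'
    have h1 := (Finset.mem_filter.1 hf).2
    have h2 := (Finset.mem_filter.1 hf').2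
    rw [hd] at h1 h2
    linarith
  have hbox : ∀ f ∈ T, ∀ l, -(H : ℤ) ≤ f l ∧ f l ≤ H := fun f hf => hmem f (Finset.mem_filter.1 hf).1
  -- the values of `f j`
  have hY : (T.image fun f => f j).card ≤ 2 * H / g + 1 := by
    apply cong_card _ H g hgpos
    · intro x hx
      obtain ⟨f, hf, rfl⟩ := Finset.mem_image.1 hx
      exact hbox f hf j
    · intro x hx y hy
      obtain ⟨f, hf, rfl⟩ := Finset.mem_image.1 hx
      obtain ⟨f', hf', rfl⟩ := Finset.mem_image.1 hy
      have h := hdiff f hf f' hf'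
      refine hgb.dvd_of_dvd_mul_left (z := f j - f' j) ?_
      refine ⟨-(a' * (f i - f' i) + c' * (f k - f' k)), ?_⟩
      rw [ha', hc'] at h
      linear_combination h
  -- the fibres
  have hZ : ∀ y ∈ T.image (fun f => f j), (T.filter fun f => f j = y).card ≤ 2 * H / a'.natAbs + 1 := by
    intro y _
    have hinj : Set.InjOn (fun f : Fin 3 → ℤ => f k) (T.filter fun f => f j = y) := by
      intro f hf f' hf' hk
      simp only [Finset.coe_filter, Set.mem_ofPred_eq] at hf hf'
      have h := hdiff f hf.1 f' hf'.1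
      have hk' : f k = f' k := hk
      rw [hf.2, hf'.2, hk', sub_self, sub_self, mul_zero, mul_zero, add_zero, add_zero] at h
      have h1 : f i = f' i := by
        rcases mul_eq_zero.1 h with h | h
        · exact absurd h ha
        · linarith
      funext l
      rcases hcov l with rfl | rfl | rfl
      · exact h1
      · rw [hf.2, hf'.2]
      · exact hk'
    rw [← Finset.card_image_of_injOn hinj]
    apply cong_card _ H _ ha'N
    · intro x hx
      obtain ⟨f, hf, rfl⟩ := Finset.mem_image.1 hx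
      exact hbox f (Finset.mem_filter.1 hf).1 k
    · intro x hx z hz
      obtain ⟨f, hf, rfl⟩ := Finset.mem_image.1 hx
      obtain ⟨f', hf', rfl⟩ := Finset.mem_image.1 hz
      obtain ⟨hf1, hf2⟩ := Finset.mem_filter.1 hf
      obtain ⟨hf1', hf2'⟩ := Finset.mem_filter.1 hf'
      have h := hdiff f hf1 f' hf1'
      rw [hf2, hf2', sub_self, mul_zero, add_zero, ha', hc'] at h
      have h2 : (g : ℤ) * (a' * (f i - f' i) + c' * (f k - f' k)) = 0 := by linear_combination h
      have h3 : a' * (f i - f' i) + c' * (f k - f' k) = 0 := by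
        rcases mul_eq_zero.1 h2 with h | h
        · exact absurd h hgz
        · exact h
      rw [Int.natAbs_dvd]
      refine hcop.dvd_of_dvd_mul_left (z := f k - f' k) ?_
      exact ⟨-(f i - f' i), by linear_combination h3⟩
  have hcard := Finset.card_le_mul_card_image T _ hZ
  have hcard2 : T.card ≤ (2 * H / a'.natAbs + 1) * (2 * H / g + 1) :=
    hcard.trans (Nat.mul_le_mul_left _ hY)
  have e1 : (2 * H / a'.natAbs + 1) * a'.natAbs ≤ 2 * H + a'.natAbs := by
    have := Nat.div_mul_le_self (2 * H) a'.natAbs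
    linarith
  have e2 : (2 * H / g + 1) * g ≤ 2 * H + g := by
    have := Nat.div_mul_le_self (2 * H) g
    linarith
  rw [hprod]
  calc T.card * (g * a'.natAbs) ≤ (2 * H / a'.natAbs + 1) * (2 * H / g + 1) * (g * a'.natAbs) :=
        Nat.mul_le_mul_right _ hcard2
    _ = ((2 * H / a'.natAbs + 1) * a'.natAbs) * ((2 * H / g + 1) * g) := by ring
    _ ≤ (2 * H + a'.natAbs) * (2 * H + g) := Nat.mul_le_mul e1 e2
    _ ≤ 5 * (H ^ 2 + H * (g * a'.natAbs)) := by
        have f1 : g ≤ g * a'.natAbs := Nat.le_mul_of_pos_right _ ha'N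
        have f2 : a'.natAbs ≤ g * a'.natAbs := Nat.le_mul_of_pos_left _ hgpos
        have f3 : g * a'.natAbs ≤ H * (g * a'.natAbs) := Nat.le_mul_of_pos_left _ hH
        have f4 := Nat.mul_le_mul_left H f1
        have f5 := Nat.mul_le_mul_left H f2
        nlinarith [f3, f4, f5]

theorem t : PLANE := by
  refine ⟨5, fun H n m hH hp => ?_⟩
  obtain ⟨i, -, hi⟩ := Finset.exists_mem_eq_sup (univ : Finset (Fin 3)) ⟨0, mem_univ _⟩
    fun i => (n i).natAbs
  have hi' : (n i).natAbs = nrm n := hi.symm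
  fin_cases i
  · exact main H n m hH hp 0 1 2 (fun f => rfl) (by decide) hi'
  · exact main H n m hH hp 1 0 2 (fun f => by unfold dot; ring) (by decide) hi'
  · exact main H n m hH hp 2 0 1 (fun f => by unfold dot; ring) (by decide) hi'

end Pool.Agent.H14F.PLANE
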