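import Pool.Agent.H14F.Stm

/-!
# Project F6: stub RESC
-/

set_option autoImplicit false

namespace Pool.Agent.H14F.RESC

open Finset Pool.Agent.H14F

/-- the resultant over a commutative ring -/
def rs {K : Type} [CommRing K] (f g : Fin 3 → K) : K :=
  (f 0 * g 2 - g 0 * f 2) ^ 2 - (f 0 * g 1 - g 0 * f 1) * (f 1 * g 2 - g 1 * f 2)

/-- reduction modulo `p` -/
def rd (p : ℕ) (f : Fin 3 → ℤ) : Fin 3 → ZMod p := fun i => (f i : ZMod p)

theorem res_iff (p : ℕ) (f g : Fin 3 → ℤ) : (p : ℤ) ∣ res f g ↔ rs (rd p f) (rd p g) = 0 := by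
  rw [← ZMod.intCast_zmod_eq_zero_iff_dvd]
  unfold res rs rd
  push_cast
  rfl

theorem rd_inj (p : ℕ) (f g : Fin 3 → ℤ) (hf : f ∈ cls p) (hg : g ∈ cls p) (h : rd p f = rd p g) :
    f = g := by
  rw [cls, Fintype.mem_piFinset] at hf hg
  funext i
  have h1 := congrFun h i
  have h2 : (f i : ZMod p) = (g i : ZMod p) := h1
  rw [ZMod.intCast_eq_intCast_iff_dvd_sub] at h2
  have h3 := mem_Ico.1 (hf i)
  have h4 := mem_Ico.1 (hg i)
  have h5 : g i - f i = 0 := Int.eq_zero_of_abs_lt_dvd h2 (by rw [abs_lt]; constructor <;> linarith)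
  linarith

theorem card_le (p : ℕ) [NeZero p] (Q : (Fin 3 → ℤ) × (Fin 3 → ℤ) → Prop) [DecidablePred Q]
    (Q' : (Fin 3 → ZMod p) × (Fin 3 → ZMod p) → Prop) [DecidablePred Q']
    (h : ∀ f g, Q (f, g) → Q' (rd p f, rd p g)) :
    ((cls p ×ˢ cls p).filter Q).card ≤ (univ.filter Q').card := by
  refine card_le_card_of_injOn (fun q => (rd p q.1, rd p q.2)) ?_ ?_
  · rintro ⟨f, g⟩ hq
    have h1 := (mem_filter.1 (mem_coe.1 hq)).2
    have h2 : (rd p f, rd p g) ∈ univ.filter Q' := mem_filter.2 ⟨mem_univ _, h _ _ h1⟩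
    exact mem_coe.2 h2
  · rintro ⟨f, g⟩ hq ⟨f', g'⟩ hq' hqq
    have h1 := mem_product.1 (mem_filter.1 (mem_coe.1 hq)).1
    have h2 := mem_product.1 (mem_filter.1 (mem_coe.1 hq')).1
    have h3 : (rd p f, rd p g) = (rd p f', rd p g') := hqq
    rw [Prod.mk.injEq] at h3
    rw [rd_inj p f f' h1.1 h2.1 h3.1, rd_inj p g g' h1.2 h2.2 h3.2]

/-- the pairs with resultant zero over a field -/
theorem cases {K : Type} [Field K] (f g : Fin 3 → K) (h : rs f g = 0) :
    (∃ t, f 0 + f 1 * t + f 2 * t ^ 2 = 0 ∧ g 0 + g 1 * t + g 2 * t ^ 2 = 0) ∨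
      (f 2 = 0 ∧ g 2 = 0) ∨ (∃ c : K, g = fun i => c * f i) ∨ f = 0 := by
  set A := f 0 * g 1 - g 0 * f 1 with hA
  set B := f 0 * g 2 - g 0 * f 2 with hB
  set C := f 1 * g 2 - g 1 * f 2 with hC
  have hr : B ^ 2 = A * C := by
    have : rs f g = B ^ 2 - A * C := rfl
    rw [this] at h
    linear_combination h
  have k1 : f 0 * C - f 1 * B + f 2 * A = 0 := by rw [hA, hB, hC]; ring
  have k2 : g 0 * C - g 1 * B + g 2 * A = 0 := by rw [hA, hB, hC]; ring
  by_cases hC0 : C = 0
  · have hB0 : B = 0 := by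
      rw [hC0, mul_zero] at hr
      exact pow_eq_zero_iff two_ne_zero |>.1 hr
    by_cases hA0 : A = 0
    · -- proportional
      by_cases hf : f = 0
      · exact Or.inr (Or.inr (Or.inr hf))
      · right; right; left
        obtain ⟨i, hi⟩ : ∃ i, f i ≠ 0 := by
          by_contra hcon
          push Not at hcon
          exact hf (funext hcon)
        refine ⟨g i / f i, funext fun j => ?_⟩
        have hm : ∀ i j : Fin 3, f i * g j = g i * f j := by
          intro i j
          fin_cases i <;> fin_cases j <;> simp only [Fin.zero_eta, Fin.mk_one, Fin.reduceFinMk] <;>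
            first
            | ring1
            | (linear_combination hA0)
            | (linear_combination hB0)
            | (linear_combination hC0)
            | (linear_combination -hA0)
            | (linear_combination -hB0)
            | (linear_combination -hC0)
        have := hm i j
        field_simp
        linear_combination this
    · right; left
      rw [hC0, hB0, mul_zero, mul_zero, sub_zero, zero_add] at k1 k2
      exact ⟨(mul_eq_zero.1 k1).resolve_right hA0, (mul_eq_zero.1 k2).resolve_right hA0⟩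
  · left
    refine ⟨-B / C, ?_, ?_⟩
    · field_simp
      linear_combination C * k1 + f 2 * hr
    · field_simp
      linear_combination C * k2 + g 2 * hr

theorem count (p : ℕ) [Fact p.Prime] [DecidablePred fun q : (Fin 3 → ZMod p) × (Fin 3 → ZMod p) => rs q.1 q.2 = 0] :
    (univ.filter fun q : (Fin 3 → ZMod p) × (Fin 3 → ZMod p) => rs q.1 q.2 = 0).card ≤
      p ^ 5 + p ^ 4 + p ^ 4 + p ^ 3 := by
  classical
  let m1 : (Fin 5 → ZMod p) → (Fin 3 → ZMod p) × (Fin 3 → ZMod p) := fun v =>
    (![-(v 1 * v 0 + v 2 * v 0 ^ 2), v 1, v 2], ![-(v 3 * v 0 + v 4 * v 0 ^ 2), v 3, v 4])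
  let m2 : (Fin 4 → ZMod p) → (Fin 3 → ZMod p) × (Fin 3 → ZMod p) := fun v =>
    (![v 0, v 1, 0], ![v 2, v 3, 0])
  let m3 : (Fin 4 → ZMod p) → (Fin 3 → ZMod p) × (Fin 3 → ZMod p) := fun v =>
    (![v 0, v 1, v 2], ![v 3 * v 0, v 3 * v 1, v 3 * v 2])
  let m4 : (Fin 3 → ZMod p) → (Fin 3 → ZMod p) × (Fin 3 → ZMod p) := fun v => (0, v)
  have hsub : (univ.filter fun q : (Fin 3 → ZMod p) × (Fin 3 → ZMod p) => rs q.1 q.2 = 0) ⊆
      univ.image m1 ∪ univ.image m2 ∪ univ.image m3 ∪ univ.image m4 := by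
    rintro ⟨f, g⟩ hq
    have h := (mem_filter.1 hq).2
    rw [mem_union, mem_union, mem_union, mem_image, mem_image, mem_image, mem_image]
    rcases cases f g h with ⟨t, h1, h2⟩ | ⟨h1, h2⟩ | ⟨c, h1⟩ | h1
    · left; left; left
      refine ⟨![t, f 1, f 2, g 1, g 2], mem_univ _, ?_⟩
      rw [Prod.mk.injEq]
      constructor
      · funext i
        fin_cases i
        · simp
          linear_combination -h1
        · simp
        · simp
      · funext i
        fin_cases i
        · simp
          linear_combination -h2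
        · simp
        · simp
    · left; left; right
      refine ⟨![f 0, f 1, g 0, g 1], mem_univ _, ?_⟩
      rw [Prod.mk.injEq]
      constructor <;> funext i <;> fin_cases i <;> simp [h1, h2]
    · left; right
      refine ⟨![f 0, f 1, f 2, c], mem_univ _, ?_⟩
      rw [Prod.mk.injEq]
      subst h1
      constructor <;> funext i <;> fin_cases i <;> simp
    · right
      exact ⟨g, mem_univ _, by rw [h1]⟩
  refine (card_le_card hsub).trans ?_
  have c1 : (univ.image m1).card ≤ p ^ 5 := card_image_le.trans (by simp [ZMod.card])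
  have c2 : (univ.image m2).card ≤ p ^ 4 := card_image_le.trans (by simp [ZMod.card])
  have c3 : (univ.image m3).card ≤ p ^ 4 := card_image_le.trans (by simp [ZMod.card])
  have c4 : (univ.image m4).card ≤ p ^ 3 := card_image_le.trans (by simp [ZMod.card])
  calc _ ≤ (univ.image m1 ∪ univ.image m2 ∪ univ.image m3).card + (univ.image m4).card :=
        card_union_le _ _
    _ ≤ ((univ.image m1 ∪ univ.image m2).card + (univ.image m3).card) + (univ.image m4).card :=
        Nat.add_le_add_right (card_union_le _ _) _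
    _ ≤ (((univ.image m1).card + (univ.image m2).card) + (univ.image m3).card) +
        (univ.image m4).card :=
        Nat.add_le_add_right (Nat.add_le_add_right (card_union_le _ _) _) _
    _ ≤ _ := by omega

theorem t : RESC := by
  classical
  intro p hp h5
  have : Fact p.Prime := ⟨hp⟩
  have h1 := (card_le p (fun q => (p : ℤ) ∣ res q.1 q.2) (fun q => rs q.1 q.2 = 0)
    fun f g h => (res_iff p f g).1 h).trans (count p)
  have h2 : p ^ 3 ≤ p ^ 4 := Nat.pow_le_pow_right hp.pos (by norm_num)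
  have h3 : ((cls p ×ˢ cls p).filter fun q : (Fin 3 → ℤ) × (Fin 3 → ℤ) => (p : ℤ) ∣ res q.1 q.2).card ≤
      p ^ 5 + 3 * p ^ 4 := by omega
  exact_mod_cast h3

end Pool.Agent.H14F.RESC
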