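import Pool.Agent.H14F.Stm
import Pool.Agent.H14Q.Mert

set_option autoImplicit false

namespace Pool.Agent.H14F.SUM

open Finset

/-- the local factor -/
noncomputable def h (z p : ℕ) : ℝ := if p ∈ P z then 18 / 25 * (1 + 3 / (p : ℝ)) else 1

theorem h_nonneg (z p : ℕ) : 0 ≤ h z p := by
  unfold h
  split_ifs <;> positivity

theorem h_le_one (z p : ℕ) : h z p ≤ 1 := by
  unfold h
  split_ifs with hp
  · unfold P at hp
    rw [mem_filter, mem_Icc] at hp
    have : (24 : ℝ) ≤ p := by exact_mod_cast hp.1.1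
    have h3 : 3 / (p : ℝ) ≤ 3 / 24 := div_le_div_of_nonneg_left (by norm_num) (by norm_num) this
    linarith
  · exact le_rfl

/-- sums over squarefree numbers and Euler products -/
theorem euler (X : ℕ) (w : ℕ → ℝ) (hw : ∀ p, 0 ≤ w p) :
    ∑ δ ∈ (Icc 1 X).filter Squarefree, ∏ p ∈ δ.primeFactors, w p ≤
      ∏ p ∈ (Icc 1 X).filter Nat.Prime, (1 + w p) := by
  classical
  rw [Finset.prod_one_add]
  have hinj : Set.InjOn Nat.primeFactors ((Icc 1 X).filter Squarefree : Finset ℕ) := by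
    intro a ha b hb hab
    rw [mem_coe, mem_filter] at ha hb
    rw [← Nat.prod_primeFactors_of_squarefree ha.2, ← Nat.prod_primeFactors_of_squarefree hb.2]
    rw [hab]
  rw [← Finset.sum_image (f := fun t : Finset ℕ => ∏ p ∈ t, w p) hinj]
  refine Finset.sum_le_sum_of_subset_of_nonneg ?_ fun t _ _ => Finset.prod_nonneg fun p _ => hw p
  intro t ht
  rw [mem_image] at ht
  obtain ⟨δ, hδ, rfl⟩ := ht
  rw [mem_filter, mem_Icc] at hδ
  rw [mem_powerset]
  intro p hp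
  have hpp := Nat.prime_of_mem_primeFactors hp
  rw [mem_filter, mem_Icc]
  exact ⟨⟨hpp.one_le, (Nat.le_of_dvd (by omega) (Nat.dvd_of_mem_primeFactors hp)).trans hδ.1.2⟩, hpp⟩

theorem prod_le_exp (X : ℕ) (w : ℕ → ℝ) (hw : ∀ p, 0 ≤ w p) :
    ∏ p ∈ (Icc 1 X).filter Nat.Prime, (1 + w p) ≤
      Real.exp (∑ p ∈ (Icc 1 X).filter Nat.Prime, w p) := by
  rw [Real.exp_sum]
  refine Finset.prod_le_prod (fun p _ => by linarith [hw p]) fun p _ => ?_
  linarith [Real.add_one_le_exp (w p)]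

/-- the weight of a squarefree number -/
noncomputable def H (z δ : ℕ) : ℝ := ∏ p ∈ δ.primeFactors, h z p

theorem H_nonneg (z δ : ℕ) : 0 ≤ H z δ := Finset.prod_nonneg fun p _ => h_nonneg z p

theorem prod_P_eq (z δ : ℕ) (hδ : δ ≠ 0) :
    ∏ p ∈ (P z).filter (fun p => p ∣ δ), (18 / 25 * (1 + 3 / (p : ℝ))) = H z δ := by
  classical
  unfold H
  have h1 : (P z).filter (fun p => p ∣ δ) ⊆ δ.primeFactors := by
    intro p hp
    unfold P at hp
    rw [mem_filter, mem_filter] at hp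
    rw [Nat.mem_primeFactors]
    exact ⟨hp.1.2, hp.2, hδ⟩
  rw [← Finset.prod_subset h1 (f := fun p => h z p)]
  · refine Finset.prod_congr rfl fun p hp => ?_
    rw [mem_filter] at hp
    unfold h
    rw [if_pos hp.1]
  · intro p hp hn
    unfold h
    rw [if_neg]
    intro hP
    exact hn (mem_filter.2 ⟨hP, Nat.dvd_of_mem_primeFactors hp⟩)

theorem H_mul (z : ℕ) {a b : ℕ} (hab : Nat.Coprime a b) : H z (a * b) = H z a * H z b := by
  unfold H
  rw [Nat.Coprime.primeFactors_mul hab]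
  exact Finset.prod_union hab.disjoint_primeFactors

theorem H_div (z : ℕ) {δ : ℕ} (hδ : Squarefree δ) (k : ℕ) :
    H z δ / (δ : ℝ) ^ k = ∏ p ∈ δ.primeFactors, (h z p / (p : ℝ) ^ k) := by
  unfold H
  rw [Finset.prod_div_distrib, Finset.prod_pow]
  congr 2
  have := Nat.prod_primeFactors_of_squarefree hδ
  conv_lhs => rw [← this]
  push_cast
  rfl

theorem step (z X : ℕ) :
    ∑ δ ∈ Icc 1 X, ∑ δ' ∈ Icc 1 X, (if Squarefree δ ∧ Squarefree δ' ∧ Nat.Coprime δ δ' ∧ δ * δ' ≤ X then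
      (δ : ℝ) * (∏ p ∈ (P z).filter (fun p => p ∣ δ * δ'), (18 / 25 * (1 + 3 / (p : ℝ)))) /
        ((δ : ℝ) * δ') ^ 2 else 0) ≤
      (∑ δ ∈ (Icc 1 X).filter Squarefree, ∏ p ∈ δ.primeFactors, (h z p / (p : ℝ) ^ 1)) *
      (∑ δ ∈ (Icc 1 X).filter Squarefree, ∏ p ∈ δ.primeFactors, (h z p / (p : ℝ) ^ 2)) := by
  rw [Finset.sum_mul_sum, Finset.sum_filter]
  refine Finset.sum_le_sum fun δ hδ => ?_
  rw [mem_Icc] at hδ
  split_ifs with h1
  · rw [Finset.sum_filter]
    refine Finset.sum_le_sum fun δ' hδ' => ?_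
    rw [mem_Icc] at hδ'
    by_cases h2 : Squarefree δ'
    · rw [if_pos h2]
      by_cases h3 : Nat.Coprime δ δ' ∧ δ * δ' ≤ X
      · rw [if_pos ⟨h1, h2, h3⟩, prod_P_eq z _ (Nat.mul_ne_zero (by omega) (by omega)),
          H_mul z h3.1, ← H_div z h1, ← H_div z h2]
        have e1 : (0 : ℝ) < δ := by exact_mod_cast hδ.1
        have e2 : (0 : ℝ) < δ' := by exact_mod_cast hδ'.1
        apply le_of_eq
        field_simp
      · rw [if_neg (fun h => h3 h.2.2)]
        exact mul_nonneg (Finset.prod_nonneg fun p _ => div_nonneg (h_nonneg z p) (by positivity))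
          (Finset.prod_nonneg fun p _ => div_nonneg (h_nonneg z p) (by positivity))
    · rw [if_neg h2, if_neg (fun h => h2 h.2.1)]
  · apply le_of_eq
    refine Finset.sum_eq_zero fun δ' _ => ?_
    rw [if_neg (fun h => h1 h.1)]

theorem t : SUM := by
  obtain ⟨C, hC⟩ := Pool.Agent.Erdos456.Mert.mertens_inv
  obtain ⟨D, hD0, hD⟩ := Pool.Agent.H14Q.sum_sq_le
  have hC0 : 0 ≤ C := (abs_nonneg _).trans (hC 3 le_rfl)
  refine ⟨Real.exp (2 * C + 10 + 10 * D), Real.exp_pos _, ?_⟩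
  intro z X hz hX
  refine (step z X).trans ?_
  have hh1 : ∀ p, 0 ≤ h z p / (p : ℝ) ^ 1 := fun p => div_nonneg (h_nonneg z p) (by positivity)
  have hh2 : ∀ p, 0 ≤ h z p / (p : ℝ) ^ 2 := fun p => div_nonneg (h_nonneg z p) (by positivity)
  have a1 := (euler X (fun p => h z p / (p : ℝ) ^ 1) hh1).trans (prod_le_exp X _ hh1)
  have a2 := (euler X (fun p => h z p / (p : ℝ) ^ 2) hh2).trans (prod_le_exp X _ hh2)
  -- second factor
  have b2 : ∑ p ∈ (Icc 1 X).filter Nat.Prime, h z p / (p : ℝ) ^ 2 ≤ D := by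
    refine (Finset.sum_le_sum fun p _ => ?_).trans (hD ((Icc 1 X).filter Nat.Prime))
    exact div_le_div_of_nonneg_right (h_le_one z p) (by positivity)
  -- first factor
  have b1 : ∑ p ∈ (Icc 1 X).filter Nat.Prime, h z p / (p : ℝ) ^ 1 ≤
      ∑ p ∈ (Icc 1 X).filter Nat.Prime, (1 : ℝ) / p - 7 / 25 * ∑ p ∈ P z, (1 : ℝ) / p +
        54 / 25 * ∑ p ∈ P z, (1 : ℝ) / (p : ℝ) ^ 2 := by
    have hsub : P z ⊆ (Icc 1 X).filter Nat.Prime := by
      intro p hp
      unfold P at hp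
      rw [mem_filter, mem_Icc] at hp ⊢
      exact ⟨⟨by omega, by omega⟩, hp.2⟩
    rw [← Finset.sum_sdiff hsub, ← Finset.sum_sdiff hsub (f := fun p : ℕ => (1 : ℝ) / p)]
    have e1 : ∑ p ∈ (Icc 1 X).filter Nat.Prime \ P z, h z p / (p : ℝ) ^ 1 =
        ∑ p ∈ (Icc 1 X).filter Nat.Prime \ P z, (1 : ℝ) / p := by
      refine Finset.sum_congr rfl fun p hp => ?_
      rw [mem_sdiff] at hp
      unfold h
      rw [if_neg hp.2, pow_one]
    have e2 : ∑ p ∈ P z, h z p / (p : ℝ) ^ 1 =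
        ∑ p ∈ P z, (1 : ℝ) / p - 7 / 25 * ∑ p ∈ P z, (1 : ℝ) / p +
          54 / 25 * ∑ p ∈ P z, (1 : ℝ) / (p : ℝ) ^ 2 := by
      rw [Finset.mul_sum, Finset.mul_sum, ← Finset.sum_sub_distrib, ← Finset.sum_add_distrib]
      refine Finset.sum_congr rfl fun p hp => ?_
      have hp0 : (p : ℝ) ≠ 0 := by
        unfold P at hp
        rw [mem_filter, mem_Icc] at hp
        have : p ≠ 0 := by omega
        exact_mod_cast this
      unfold h
      rw [if_pos hp]
      field_simp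
      ring
    rw [e1, e2]
    linarith
  have b3 : ∑ p ∈ P z, (1 : ℝ) / (p : ℝ) ^ 2 ≤ D := hD _
  have b4 : ∑ p ∈ (Icc 1 z).filter Nat.Prime, (1 : ℝ) / p ≤ ∑ p ∈ P z, (1 : ℝ) / p + 24 := by
    have hsub : (Icc 1 z).filter Nat.Prime ⊆ P z ∪ Icc 1 23 := by
      intro p hp
      rw [mem_filter, mem_Icc] at hp
      rw [mem_union]
      by_cases h5 : 24 ≤ p
      · left
        unfold P
        rw [mem_filter, mem_Icc]
        exact ⟨⟨h5, hp.1.2⟩, hp.2⟩
      · right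
        rw [mem_Icc]
        omega
    refine (Finset.sum_le_sum_of_subset_of_nonneg hsub fun p _ _ => by positivity).trans ?_
    have e1 := Finset.sum_union_inter (f := fun t : ℕ => (1 : ℝ) / t) (s₁ := P z) (s₂ := Icc 1 23)
    have n1 : 0 ≤ ∑ t ∈ P z ∩ Icc 1 23, (1 : ℝ) / t := Finset.sum_nonneg fun t _ => by positivity
    have n2 : ∑ t ∈ Icc 1 23, (1 : ℝ) / ((t : ℕ) : ℝ) ≤ ∑ t ∈ Icc (1 : ℕ) 23, (1 : ℝ) := by
      refine Finset.sum_le_sum fun t ht => ?_
      rw [mem_Icc] at ht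
      have : (1 : ℝ) ≤ t := by exact_mod_cast ht.1
      rw [div_le_one (by linarith)]
      exact this
    have n3 : ∑ t ∈ Icc (1 : ℕ) 23, (1 : ℝ) = 23 := by simp
    linarith
  have c1 := (abs_le.1 (hC X (by omega))).2
  have c2 := (abs_le.1 (hC z (by omega))).1
  have hlz : 1 < Real.log z := by
    have : Real.exp 1 < z := by
      have h24 : (24 : ℝ) ≤ z := by exact_mod_cast hz
      linarith [Real.exp_one_lt_d9]
    rwa [← Real.log_exp 1, Real.log_lt_log_iff (Real.exp_pos _) (by positivity)]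
    
  have hlX : 0 < Real.log X := by
    apply Real.log_pos
    exact_mod_cast (by omega : 1 < X)
  have f1 : Real.log z ^ (-(7 : ℝ) / 25) * Real.log X =
      Real.exp (Real.log (Real.log X) - 7 / 25 * Real.log (Real.log z)) := by
    rw [Real.rpow_def_of_pos (by linarith), sub_eq_add_neg, Real.exp_add, Real.exp_log hlX, mul_comm]
    congr 2
    ring
  rw [mul_assoc, f1, ← Real.exp_add]
  refine (mul_le_mul a1 a2 (Finset.sum_nonneg fun δ _ => Finset.prod_nonneg fun p _ => hh2 p)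
    (Real.exp_pos _).le).trans ?_
  rw [← Real.exp_add, Real.exp_le_exp]
  linarith

end Pool.Agent.H14F.SUM
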