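import Pool.Agent.H14F.StmB
import Pool.Agent.H14F.OMEGA
import Pool.Agent.H14F.SUM
import Pool.Agent.H14F.MER
import Pool.Agent.H14F.RESC
import Pool.Agent.H14F.PLANE

/-!
# Project F6, stub ANA (helper20)
-/

set_option autoImplicit false

namespace Pool.Agent.H14F.ANA

open Finset

/-! ### numerical facts -/

theorem num1 : (13 : ℝ) / 25 ≤ 36 / 25 * Real.log (36 / 25) := by
  have h : (65 : ℝ) / 180 ≤ Real.log (36 / 25) := by
    rw [Real.le_log_iff_exp_le (by norm_num)]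
    have h1 := Real.exp_bound' (x := 65 / 180) (by norm_num) (by norm_num) (n := 5) (by norm_num)
    refine h1.trans ?_
    simp only [Finset.sum_range_succ, Finset.sum_range_zero, Nat.factorial]
    norm_num
  linarith

theorem num2 : 36 / 25 * Real.log (25 / 18) ≤ (477 : ℝ) / 1000 := by
  have h : Real.log (25 / 18) ≤ (33125 : ℝ) / 100000 := by
    rw [Real.log_le_iff_le_exp (by norm_num)]
    have h1 := Real.sum_le_exp_of_nonneg (x := 33125 / 100000) (by norm_num) 5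
    refine le_trans ?_ h1
    simp only [Finset.sum_range_succ, Finset.sum_range_zero, Nat.factorial]
    norm_num
  linarith

/-! ### eventual facts -/

/-- the facts about the parameters -/
structure Fct (H : ℕ) : Prop where
  H3 : 3 ≤ H
  l1 : 1 ≤ Real.log (Real.log H)
  l2 : 8000 * Real.log (Real.log H) ≤ Real.log H
  l3 : (4000 * Real.log (Real.log H)) ^ ((39 : ℝ) / 25) ≤ Real.log H ^ ((3 : ℝ) / 1000)
  l4 : Real.log H ^ ((2 : ℝ) / 25) ≤ (H : ℝ) ^ ((1 : ℝ) / 4)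

theorem fct : ∀ᶠ H : ℕ in Filter.atTop, Fct H := by
  have hH : Filter.Tendsto (fun H : ℕ => (H : ℝ)) Filter.atTop Filter.atTop := tendsto_natCast_atTop_atTop
  have hL : Filter.Tendsto (fun H : ℕ => Real.log (H : ℝ)) Filter.atTop Filter.atTop :=
    Real.tendsto_log_atTop.comp hH
  have hl : Filter.Tendsto (fun H : ℕ => Real.log (Real.log (H : ℝ))) Filter.atTop Filter.atTop :=
    Real.tendsto_log_atTop.comp hL
  have e1 := hl.eventually (Filter.eventually_ge_atTop 1)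
  have e2 : ∀ᶠ x : ℝ in Filter.atTop, 8000 * Real.log x ≤ x := by
    have h1 := (Real.isLittleO_log_id_atTop.const_mul_left 8000).bound one_pos
    filter_upwards [h1, Filter.eventually_ge_atTop 0] with x hx hx0
    simp only [id, one_mul, Real.norm_eq_abs, abs_of_nonneg hx0] at hx
    exact (le_abs_self _).trans hx
  have e3 : ∀ᶠ x : ℝ in Filter.atTop, (4000 * Real.log x) ^ ((39 : ℝ) / 25) ≤ x ^ ((3 : ℝ) / 1000) := by
    have h1 := ((isLittleO_log_rpow_rpow_atTop ((39 : ℝ) / 25) (by norm_num : (0 : ℝ) < 3 / 1000)).const_mul_left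
      ((4000 : ℝ) ^ ((39 : ℝ) / 25))).bound one_pos
    filter_upwards [h1, Filter.eventually_ge_atTop 1] with x hx hx0
    have hx1 : 0 ≤ x ^ ((3 : ℝ) / 1000) := Real.rpow_nonneg (by linarith) _
    rw [one_mul, Real.norm_eq_abs, Real.norm_eq_abs, abs_of_nonneg hx1] at hx
    rw [Real.mul_rpow (by norm_num) (Real.log_nonneg hx0)]
    exact (le_abs_self _).trans hx
  have e4 : ∀ᶠ x : ℝ in Filter.atTop, Real.log x ^ ((2 : ℝ) / 25) ≤ x ^ ((1 : ℝ) / 4) := by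
    have h1 := (isLittleO_log_rpow_rpow_atTop ((2 : ℝ) / 25) (by norm_num : (0 : ℝ) < 1 / 4)).bound one_pos
    filter_upwards [h1, Filter.eventually_ge_atTop 1] with x hx hx0
    have hx1 : 0 ≤ x ^ ((1 : ℝ) / 4) := Real.rpow_nonneg (by linarith) _
    rw [one_mul, Real.norm_eq_abs, Real.norm_eq_abs, abs_of_nonneg hx1] at hx
    exact (le_abs_self _).trans hx
  filter_upwards [e1, hL.eventually e2, hL.eventually e3, hH.eventually e4,
    Filter.eventually_ge_atTop 3] with H h1 h2 h3 h4 h5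
  exact ⟨h5, h1, h2, h3, h4⟩

section

variable {H : ℕ} (F : Fct H)

include F

theorem H0 : (0 : ℝ) < H := by
  have := F.H3
  exact_mod_cast (by omega : 0 < H)

theorem L8 : 8000 ≤ Real.log H := by
  have := F.l1
  have := F.l2
  linarith

theorem L0 : 0 < Real.log H := by linarith [L8 F]

theorem exp_l : Real.exp (Real.log (Real.log H)) = Real.log H := Real.exp_log (L0 F)

theorem w4 : 4 ≤ Real.log H / (2000 * Real.log (Real.log H)) := by
  have := F.l1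
  rw [le_div_iff₀ (by linarith)]
  linarith [F.l2]

omit F in
theorem z_le : ((zf H : ℕ) : ℝ) ≤ Real.exp (Real.log H / (2000 * Real.log (Real.log H))) :=
  Nat.floor_le (Real.exp_pos _).le

theorem e48 : (48 : ℝ) ≤ Real.exp (Real.log H / (2000 * Real.log (Real.log H))) := by
  have h1 : Real.exp 4 ≤ Real.exp (Real.log H / (2000 * Real.log (Real.log H))) :=
    Real.exp_le_exp.2 (w4 F)
  refine le_trans ?_ h1
  have h2 := Real.sum_le_exp_of_nonneg (x := 4) (by norm_num) 9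
  refine le_trans ?_ h2
  simp only [Finset.sum_range_succ, Finset.sum_range_zero, Nat.factorial]
  norm_num

theorem z24 : 24 ≤ zf H := by
  unfold zf
  refine Nat.le_floor ?_
  have := e48 F
  push_cast
  linarith

theorem logz_le : Real.log (zf H) ≤ Real.log H / (2000 * Real.log (Real.log H)) := by
  have h := z24 F
  have h0 : (0 : ℝ) < zf H := by exact_mod_cast (by omega : 0 < zf H)
  rw [Real.log_le_iff_le_exp h0]
  exact z_le

theorem logz_le' : Real.log (zf H) ≤ Real.log H := by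
  refine (logz_le F).trans ?_
  have := F.l1
  rw [div_le_iff₀ (by linarith)]
  nlinarith [L0 F]

theorem logz_pos : 0 < Real.log (zf H) := by
  have h := z24 F
  exact Real.log_pos (by exact_mod_cast (by omega : 1 < zf H))

theorem le_logz : Real.log H / (4000 * Real.log (Real.log H)) ≤ Real.log (zf H) := by
  have h := z24 F
  have h0 : (0 : ℝ) < zf H := by exact_mod_cast (by omega : 0 < zf H)
  rw [Real.le_log_iff_exp_le h0]
  have hl := F.l1
  have hw := w4 F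
  set w := Real.log H / (2000 * Real.log (Real.log H)) with hwd
  have e : Real.log H / (4000 * Real.log (Real.log H)) = w / 2 := by
    rw [hwd]
    field_simp
    ring
  rw [e]
  have h1 : Real.exp w - 1 < zf H := by
    have := Nat.lt_floor_add_one (Real.exp w)
    have e2 : ((zf H : ℕ) : ℝ) = (⌊Real.exp w⌋₊ : ℝ) := rfl
    rw [e2]
    linarith
  have h2 : Real.exp w = Real.exp (w / 2) * Real.exp (w / 2) := by
    rw [← Real.exp_add]
    congr 1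
    ring
  have h3 : 1 + w / 2 ≤ Real.exp (w / 2) := by
    have := Real.add_one_le_exp (w / 2)
    linarith
  nlinarith

theorem A_le : ((Af H : ℕ) : ℝ) ≤ 36 / 25 * Real.log (Real.log H) + 1 := by
  have h := F.l1
  have := Nat.ceil_lt_add_one (a := (36 : ℝ) / 25 * Real.log (Real.log H)) (by linarith)
  exact this.le

omit F in
theorem le_A : 36 / 25 * Real.log (Real.log H) ≤ ((Af H : ℕ) : ℝ) := Nat.le_ceil _

theorem zA : (zf H) ^ (Af H) ≤ H := by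
  have h := z24 F
  have h0 : (0 : ℝ) < zf H := by exact_mod_cast (by omega : 0 < zf H)
  have hl := F.l1
  have h1 : ((zf H ^ Af H : ℕ) : ℝ) ≤ H := by
    push_cast
    rw [← Real.rpow_natCast, ← Real.exp_log (H0 F), Real.rpow_def_of_pos h0]
    refine Real.exp_le_exp.2 ?_
    have h2 := logz_le F
    have h3 := A_le F
    have h4 : (0 : ℝ) ≤ Af H := Nat.cast_nonneg _
    calc Real.log (zf H) * (Af H : ℝ) ≤
        Real.log H / (2000 * Real.log (Real.log H)) * (36 / 25 * Real.log (Real.log H) + 1) := by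
          refine mul_le_mul h2 h3 h4 ?_
          exact div_nonneg (L0 F).le (by linarith)
      _ ≤ Real.log H := by
          rw [div_mul_eq_mul_div, div_le_iff₀ (by linarith)]
          nlinarith [L0 F]
  exact_mod_cast h1

theorem z_le_X : zf H ≤ 3 * H ^ 2 := by
  have h1 : ((zf H : ℕ) : ℝ) ≤ H := by
    have h0 : (0 : ℝ) < zf H := by exact_mod_cast (by have := z24 F; omega : 0 < zf H)
    exact (Real.log_le_log_iff h0 (H0 F)).1 (logz_le' F)
  have h2 : zf H ≤ H := by exact_mod_cast h1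
  have := F.H3
  nlinarith

theorem Z1 : 1 ≤ Zf H := by
  unfold Zf
  refine Nat.le_floor ?_
  have h1 : (1 : ℝ) ≤ H := by exact_mod_cast (by have := F.H3; omega : 1 ≤ H)
  simpa using Real.one_le_rpow h1 (by norm_num : (0 : ℝ) ≤ 1 / 10)

theorem Z_le : ((Zf H : ℕ) : ℝ) ≤ (H : ℝ) ^ ((1 : ℝ) / 10) :=
  Nat.floor_le (Real.rpow_nonneg (H0 F).le _)

theorem ZH : Zf H ≤ H := by
  have h1 : ((Zf H : ℕ) : ℝ) ≤ H := by
    refine (Z_le F).trans ?_
    have h1 : (1 : ℝ) ≤ H := by exact_mod_cast (by have := F.H3; omega : 1 ≤ H)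
    calc (H : ℝ) ^ ((1 : ℝ) / 10) ≤ (H : ℝ) ^ (1 : ℝ) :=
        Real.rpow_le_rpow_of_exponent_le h1 (by norm_num)
      _ = H := Real.rpow_one _
  exact_mod_cast h1

/-- the first part -/
theorem part1 {C : ℝ} (hC : 0 ≤ C) {x : ℝ} (hx : x ≤ C * (H : ℝ) ^ ((5 : ℝ) + 1 / 4) * ((Zf H : ℕ) : ℝ) ^ 5) :
    x ≤ C * (H : ℝ) ^ 6 * Real.log H ^ (-(2 : ℝ) / 25) := by
  have hH := H0 F
  have h1 : ((Zf H : ℕ) : ℝ) ^ 5 ≤ (H : ℝ) ^ ((1 : ℝ) / 2) := by
    have := pow_le_pow_left₀ (Nat.cast_nonneg _) (Z_le F) 5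
    refine this.trans (le_of_eq ?_)
    rw [← Real.rpow_natCast, ← Real.rpow_mul hH.le]
    norm_num
  have h2 : (H : ℝ) ^ ((5 : ℝ) + 1 / 4) * (H : ℝ) ^ ((1 : ℝ) / 2) * (H : ℝ) ^ ((1 : ℝ) / 4) = (H : ℝ) ^ 6 := by
    rw [← Real.rpow_add hH, ← Real.rpow_add hH, ← Real.rpow_natCast]
    norm_num
  have h3 : Real.log H ^ (-(2 : ℝ) / 25) * Real.log H ^ ((2 : ℝ) / 25) = 1 := by
    rw [← Real.rpow_add (L0 F)]
    norm_num
  have h4 : 0 < Real.log H ^ (-(2 : ℝ) / 25) := Real.rpow_pos_of_pos (L0 F) _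
  have h5 : (1 : ℝ) ≤ (H : ℝ) ^ ((1 : ℝ) / 4) * Real.log H ^ (-(2 : ℝ) / 25) := by
    calc (1 : ℝ) = Real.log H ^ ((2 : ℝ) / 25) * Real.log H ^ (-(2 : ℝ) / 25) := by
          rw [mul_comm]
          exact h3.symm
      _ ≤ _ := mul_le_mul_of_nonneg_right F.l4 h4.le
  calc x ≤ C * (H : ℝ) ^ ((5 : ℝ) + 1 / 4) * ((Zf H : ℕ) : ℝ) ^ 5 := hx
    _ ≤ C * (H : ℝ) ^ ((5 : ℝ) + 1 / 4) * (H : ℝ) ^ ((1 : ℝ) / 2) := by gcongr
    _ ≤ C * (H : ℝ) ^ ((5 : ℝ) + 1 / 4) * (H : ℝ) ^ ((1 : ℝ) / 2) *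
        ((H : ℝ) ^ ((1 : ℝ) / 4) * Real.log H ^ (-(2 : ℝ) / 25)) :=
        le_mul_of_one_le_right (by positivity) h5
    _ = C * ((H : ℝ) ^ ((5 : ℝ) + 1 / 4) * (H : ℝ) ^ ((1 : ℝ) / 2) * (H : ℝ) ^ ((1 : ℝ) / 4)) *
        Real.log H ^ (-(2 : ℝ) / 25) := by ring
    _ = _ := by rw [h2]

/-- powers of `Y` -/
theorem YA : ((36 : ℝ) / 25)⁻¹ ^ (Af H) ≤ Real.log H ^ (-(13 : ℝ) / 25) := by
  rw [← Real.rpow_natCast, Real.rpow_def_of_pos (by norm_num), Real.rpow_def_of_pos (L0 F)]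
  refine Real.exp_le_exp.2 ?_
  rw [Real.log_inv]
  have h1 := le_A (H := H)
  have h2 := num1
  have h3 := F.l1
  have h4 : 0 < Real.log (36 / 25) := Real.log_pos (by norm_num)
  nlinarith [mul_le_mul_of_nonneg_right h1 h4.le, mul_le_mul_of_nonneg_right h2 (by linarith : (0 : ℝ) ≤ Real.log (Real.log H))]

theorem WA : ((25 : ℝ) / 18) ^ (Af H) ≤ 2 * Real.log H ^ ((477 : ℝ) / 1000) := by
  rw [← Real.rpow_natCast]
  have h1 : ((25 : ℝ) / 18) ^ ((Af H : ℕ) : ℝ) ≤ (25 / 18) ^ (36 / 25 * Real.log (Real.log H) + 1) :=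
    Real.rpow_le_rpow_of_exponent_le (by norm_num) (A_le F)
  refine h1.trans ?_
  rw [Real.rpow_add (by norm_num), Real.rpow_one]
  have h2 : ((25 : ℝ) / 18) ^ (36 / 25 * Real.log (Real.log H)) ≤ Real.log H ^ ((477 : ℝ) / 1000) := by
    rw [Real.rpow_def_of_pos (by norm_num), Real.rpow_def_of_pos (L0 F)]
    refine Real.exp_le_exp.2 ?_
    have h2 := num2
    have h3 := F.l1
    nlinarith [mul_le_mul_of_nonneg_right h2 (by linarith : (0 : ℝ) ≤ Real.log (Real.log H))]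
  have h3 : 0 ≤ Real.log H ^ ((477 : ℝ) / 1000) := Real.rpow_nonneg (L0 F).le _
  nlinarith

/-- the second part -/
theorem part2 {C x : ℝ} (hC : 0 ≤ C)
    (hx : x ≤ ((36 : ℝ) / 25)⁻¹ ^ (Af H) * (4 * (H : ℝ)) ^ 6 * (C * Real.log (zf H) ^ ((11 : ℝ) / 25))) :
    x ≤ 4 ^ 6 * C * (H : ℝ) ^ 6 * Real.log H ^ (-(2 : ℝ) / 25) := by
  have h1 := YA F
  have h2 : Real.log (zf H) ^ ((11 : ℝ) / 25) ≤ Real.log H ^ ((11 : ℝ) / 25) :=
    Real.rpow_le_rpow (logz_pos F).le (logz_le' F) (by norm_num)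
  have h3 : Real.log H ^ (-(13 : ℝ) / 25) * Real.log H ^ ((11 : ℝ) / 25) = Real.log H ^ (-(2 : ℝ) / 25) := by
    rw [← Real.rpow_add (L0 F)]
    norm_num
  have h4 : 0 ≤ Real.log H ^ (-(13 : ℝ) / 25) := Real.rpow_nonneg (L0 F).le _
  have h5 : 0 ≤ Real.log (zf H) ^ ((11 : ℝ) / 25) := Real.rpow_nonneg (logz_pos F).le _
  calc x ≤ ((36 : ℝ) / 25)⁻¹ ^ (Af H) * (4 * (H : ℝ)) ^ 6 * (C * Real.log (zf H) ^ ((11 : ℝ) / 25)) := hx
    _ ≤ Real.log H ^ (-(13 : ℝ) / 25) * (4 * (H : ℝ)) ^ 6 * (C * Real.log H ^ ((11 : ℝ) / 25)) := by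
        gcongr
    _ = 4 ^ 6 * C * (H : ℝ) ^ 6 * (Real.log H ^ (-(13 : ℝ) / 25) * Real.log H ^ ((11 : ℝ) / 25)) := by ring
    _ = _ := by rw [h3]

theorem logX : Real.log ((3 * H ^ 2 : ℕ) : ℝ) ≤ 3 * Real.log H := by
  push_cast
  have hH := H0 F
  rw [Real.log_mul (by norm_num) (by positivity), Real.log_pow]
  have h3 : Real.log 3 ≤ Real.log H := Real.log_le_log (by norm_num) (by exact_mod_cast F.H3)
  push_cast
  linarith

/-- the third part -/
theorem part3 {C₁ C₂ C₃ x : ℝ} (h1 : 0 ≤ C₁) (h2 : 0 ≤ C₂) (h3 : 0 ≤ C₃)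
    (hx : x ≤ (25 / 18) ^ (Af H) * (2 * C₁ * (H : ℝ) ^ 6 *
      (C₂ * Real.log (zf H) ^ (-(32 : ℝ) / 25) * (C₃ * Real.log (zf H) ^ (-(7 : ℝ) / 25) *
        Real.log ((3 * H ^ 2 : ℕ) : ℝ)) + Real.log H ^ (-(2 : ℝ)) * (8 * Real.log H)))) :
    x ≤ 4 * C₁ * (3 * C₂ * C₃ + 8) * (H : ℝ) ^ 6 * Real.log H ^ (-(2 : ℝ) / 25) := by
  have hL := L0 F
  have hz := logz_pos F
  have hl := F.l1
  -- the powers of `log z`
  have e1 : Real.log (zf H) ^ (-(32 : ℝ) / 25) * Real.log (zf H) ^ (-(7 : ℝ) / 25) =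
      Real.log (zf H) ^ (-((39 : ℝ) / 25)) := by
    rw [← Real.rpow_add hz]
    norm_num
  have e2 : Real.log (zf H) ^ (-((39 : ℝ) / 25)) ≤
      Real.log H ^ (-((39 : ℝ) / 25)) * Real.log H ^ ((3 : ℝ) / 1000) := by
    have h0 : 0 < Real.log H / (4000 * Real.log (Real.log H)) := div_pos hL (by linarith)
    have a1 : Real.log (zf H) ^ (-((39 : ℝ) / 25)) ≤
        (Real.log H / (4000 * Real.log (Real.log H))) ^ (-((39 : ℝ) / 25)) :=
      Real.rpow_le_rpow_of_nonpos h0 (le_logz F) (by norm_num)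
    refine a1.trans ?_
    rw [Real.div_rpow hL.le (by linarith), Real.rpow_neg (by linarith : 0 ≤ 4000 * Real.log (Real.log H)),
      div_inv_eq_mul]
    exact mul_le_mul_of_nonneg_left F.l3 (Real.rpow_nonneg hL.le _)
  have e3 := logX F
  have e4 := WA F
  have hX0 : 0 ≤ Real.log ((3 * H ^ 2 : ℕ) : ℝ) := Real.log_natCast_nonneg _
  have n1 : 0 ≤ Real.log (zf H) ^ (-(32 : ℝ) / 25) := Real.rpow_nonneg hz.le _
  have n2 : 0 ≤ Real.log (zf H) ^ (-(7 : ℝ) / 25) := Real.rpow_nonneg hz.le _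
  have n3 : 0 ≤ Real.log H ^ (-(2 : ℝ)) := Real.rpow_nonneg hL.le _
  have n4 : 0 ≤ Real.log H ^ (-((39 : ℝ) / 25)) * Real.log H ^ ((3 : ℝ) / 1000) :=
    mul_nonneg (Real.rpow_nonneg hL.le _) (Real.rpow_nonneg hL.le _)
  have n5 : 0 ≤ Real.log H ^ ((477 : ℝ) / 1000) := Real.rpow_nonneg hL.le _
  have hin : C₂ * Real.log (zf H) ^ (-(32 : ℝ) / 25) * (C₃ * Real.log (zf H) ^ (-(7 : ℝ) / 25) *
        Real.log ((3 * H ^ 2 : ℕ) : ℝ)) ≤
      C₂ * C₃ * (Real.log H ^ (-((39 : ℝ) / 25)) * Real.log H ^ ((3 : ℝ) / 1000)) * (3 * Real.log H) := by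
    calc _ = C₂ * C₃ * (Real.log (zf H) ^ (-(32 : ℝ) / 25) * Real.log (zf H) ^ (-(7 : ℝ) / 25)) *
        Real.log ((3 * H ^ 2 : ℕ) : ℝ) := by ring
      _ ≤ _ := by
        rw [e1]
        gcongr
  -- exponents
  have p1 : Real.log H ^ ((477 : ℝ) / 1000) * (Real.log H ^ (-((39 : ℝ) / 25)) *
      Real.log H ^ ((3 : ℝ) / 1000)) * Real.log H = Real.log H ^ (-(2 : ℝ) / 25) := by
    nth_rewrite 4 [← Real.rpow_one (Real.log H)]
    rw [← Real.rpow_add hL, ← Real.rpow_add hL, ← Real.rpow_add hL]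
    norm_num
  have p2 : Real.log H ^ ((477 : ℝ) / 1000) * Real.log H ^ (-(2 : ℝ)) * Real.log H ≤
      Real.log H ^ (-(2 : ℝ) / 25) := by
    nth_rewrite 3 [← Real.rpow_one (Real.log H)]
    rw [← Real.rpow_add hL, ← Real.rpow_add hL]
    exact Real.rpow_le_rpow_of_exponent_le (by linarith [L8 F]) (by norm_num)
  have hH6 : (0 : ℝ) ≤ (H : ℝ) ^ 6 := by positivity
  calc x ≤ _ := hx
    _ ≤ (2 * Real.log H ^ ((477 : ℝ) / 1000)) * (2 * C₁ * (H : ℝ) ^ 6 *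
      (C₂ * C₃ * (Real.log H ^ (-((39 : ℝ) / 25)) * Real.log H ^ ((3 : ℝ) / 1000)) * (3 * Real.log H) +
        Real.log H ^ (-(2 : ℝ)) * (8 * Real.log H))) := by
        refine mul_le_mul e4 ?_ ?_ (by positivity)
        · refine mul_le_mul_of_nonneg_left ?_ (by positivity)
          linarith
        · positivity
    _ = 4 * C₁ * (H : ℝ) ^ 6 * (3 * C₂ * C₃ * (Real.log H ^ ((477 : ℝ) / 1000) * (Real.log H ^ (-((39 : ℝ) / 25)) *
      Real.log H ^ ((3 : ℝ) / 1000)) * Real.log H) + 8 * (Real.log H ^ ((477 : ℝ) / 1000) *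
        Real.log H ^ (-(2 : ℝ)) * Real.log H)) := by ring
    _ ≤ 4 * C₁ * (H : ℝ) ^ 6 * (3 * C₂ * C₃ * Real.log H ^ (-(2 : ℝ) / 25) +
        8 * Real.log H ^ (-(2 : ℝ) / 25)) := by
        rw [p1]
        gcongr
    _ = _ := by ring

end

/-! ### The sum over the lattices -/

theorem bp_lt {p : ℕ} (hp : 24 ≤ p) : 0 < 1 - bp p ∧ 1 ≤ (1 + 3 / (p : ℝ)) * (1 - bp p) := by
  have h : (24 : ℝ) ≤ p := by exact_mod_cast hp
  have h0 : (0 : ℝ) < p := by linarith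
  obtain ⟨x, hx⟩ : ∃ x : ℝ, x = 1 / (p : ℝ) := ⟨_, rfl⟩
  have hx0 : 0 < x := by rw [hx]; positivity
  have hx1 : x ≤ 1 / 24 := by
    rw [hx]
    exact one_div_le_one_div_of_le (by norm_num) h
  have e1 : bp p = 32 / 25 * x - 7 * x ^ 2 := by
    unfold bp
    rw [hx]
    field_simp
  have e2 : 3 / (p : ℝ) = 3 * x := by
    rw [hx]
    ring
  rw [e1, e2]
  constructor
  · nlinarith
  · nlinarith [pow_pos hx0 3, pow_pos hx0 2]

theorem mem_P {z p : ℕ} : p ∈ P z ↔ (24 ≤ p ∧ p ≤ z) ∧ p.Prime := by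
  unfold P
  rw [mem_filter, mem_Icc]

theorem prod_split (z d : ℕ) :
    (18 / 25 : ℝ) ^ ((P z).filter (fun p => p ∣ d)).card *
      ∏ p ∈ (P z).filter (fun p => ¬ p ∣ d), (1 - bp p) ≤
    (∏ p ∈ (P z).filter (fun p => p ∣ d), (18 / 25 * (1 + 3 / (p : ℝ)))) * ∏ p ∈ P z, (1 - bp p) := by
  have h1 : ∏ p ∈ P z, (1 - bp p) = (∏ p ∈ (P z).filter (fun p => p ∣ d), (1 - bp p)) *
      ∏ p ∈ (P z).filter (fun p => ¬ p ∣ d), (1 - bp p) :=
    (Finset.prod_filter_mul_prod_filter_not _ _ _).symm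
  have h0 : 0 ≤ ∏ p ∈ (P z).filter (fun p => ¬ p ∣ d), (1 - bp p) :=
    Finset.prod_nonneg fun p hp => (bp_lt (mem_P.1 (mem_filter.1 hp).1).1.1).1.le
  rw [h1, ← mul_assoc]
  refine mul_le_mul_of_nonneg_right ?_ h0
  rw [← Finset.prod_mul_distrib, ← Finset.prod_const]
  refine Finset.prod_le_prod (fun _ _ => by norm_num) fun p hp => ?_
  have := (bp_lt (mem_P.1 (mem_filter.1 hp).1).1.1).2
  nlinarith

theorem sum_inv_le (X : ℕ) (_hX : 1 ≤ X) : ∑ δ ∈ Icc 1 X, 1 / (δ : ℝ) ≤ 1 + Real.log X := by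
  have := harmonic_le_one_add_log X
  rw [harmonic_eq_sum_Icc] at this
  push_cast at this
  simpa using this

theorem sum_sq_le (X : ℕ) : ∑ δ ∈ Icc 1 X, 1 / (δ : ℝ) ^ 2 ≤ 2 := by
  have key : ∀ n : ℕ, ∑ δ ∈ Icc 1 (n + 1), 1 / (δ : ℝ) ^ 2 ≤ 2 - 1 / ((n + 1 : ℕ) : ℝ) := by
    intro n
    induction n with
    | zero => norm_num
    | succ n ih =>
      rw [Finset.sum_Icc_succ_top (by omega)]
      have hn : (0 : ℝ) < ((n + 1 : ℕ) : ℝ) := by positivity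
      have : (1 : ℝ) / ((n + 1 + 1 : ℕ) : ℝ) ^ 2 ≤ 1 / ((n + 1 : ℕ) : ℝ) - 1 / ((n + 1 + 1 : ℕ) : ℝ) := by
        push_cast
        rw [div_sub_div _ _ (by positivity) (by positivity), div_le_div_iff₀ (by positivity) (by positivity)]
        have : (0 : ℝ) ≤ n := Nat.cast_nonneg n
        nlinarith
      linarith
  cases X with
  | zero => norm_num
  | succ n =>
    refine (key n).trans ?_
    have : (0 : ℝ) ≤ 1 / ((n + 1 : ℕ) : ℝ) := by positivity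
    linarith

open Classical in
/-- the sum of `CNT` -/
theorem third {C₀ : ℕ} (hRd : ∀ δ δ' ρ : ℕ, 1 ≤ δ → 1 ≤ δ' → Rd C₀ δ δ' ρ (eb C₀ δ δ' ρ))
    {C₁ : ℝ} (hC₁ : 0 < C₁) {H : ℕ} (F : Fct H)
    (hG : ∀ (δ δ' ρ : ℕ) (t : ℤ) (e : Fin 3 → Fin 3 → ℤ), Squarefree t → δ * δ' = t.natAbs →
      Rd C₀ δ δ' ρ e → nrm (e 2) * Zf H ≤ H →
      LS H (zf H) δ δ' ρ t ≤ C₁ * (H : ℝ) ^ 6 / ((δ : ℝ) * δ') ^ 2 *
        (∏ p ∈ (P (zf H)).filter (fun p => ¬ p ∣ δ * δ'), (1 - bp p) + Real.log H ^ (-(2 : ℝ)))) :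
    ∑ δ ∈ Icc 1 (3 * H ^ 2), ∑ δ' ∈ Icc 1 (3 * H ^ 2),
      (if Squarefree (δ * δ') ∧ δ * δ' ≤ 3 * H ^ 2 then
        ∑ ρ ∈ range δ, ∑ σ ∈ ({1, -1} : Finset ℤ),
          (if nrm (eb C₀ δ δ' ρ 2) * Zf H ≤ H then
            (18 / 25) ^ ((P (zf H)).filter (fun p => p ∣ δ * δ')).card *
              LS H (zf H) δ δ' ρ (σ * (δ * δ' : ℕ))
          else 0) else 0) ≤
    2 * C₁ * (H : ℝ) ^ 6 * ((∏ p ∈ P (zf H), (1 - bp p)) *
      (∑ δ ∈ Icc 1 (3 * H ^ 2), ∑ δ' ∈ Icc 1 (3 * H ^ 2),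
        (if Squarefree δ ∧ Squarefree δ' ∧ Nat.Coprime δ δ' ∧ δ * δ' ≤ 3 * H ^ 2 then
        (δ : ℝ) * (∏ p ∈ (P (zf H)).filter (fun p => p ∣ δ * δ'), (18 / 25 * (1 + 3 / (p : ℝ)))) /
          ((δ : ℝ) * δ') ^ 2 else 0)) + Real.log H ^ (-(2 : ℝ)) * (8 * Real.log H)) := by
  have hL := L0 F
  have hlog2 : 0 ≤ Real.log H ^ (-(2 : ℝ)) := Real.rpow_nonneg hL.le _
  have hP0 : 0 ≤ ∏ p ∈ P (zf H), (1 - bp p) :=
    Finset.prod_nonneg fun p hp => (bp_lt (mem_P.1 hp).1.1).1.le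
  set X := 3 * H ^ 2 with hX
  have hX1 : 1 ≤ X := by
    have := F.H3
    rw [hX]
    nlinarith
  -- termwise
  have hterm : ∀ δ ∈ Icc 1 X, ∀ δ' ∈ Icc 1 X,
      (if Squarefree (δ * δ') ∧ δ * δ' ≤ X then
        ∑ ρ ∈ range δ, ∑ σ ∈ ({1, -1} : Finset ℤ),
          (if nrm (eb C₀ δ δ' ρ 2) * Zf H ≤ H then
            (18 / 25) ^ ((P (zf H)).filter (fun p => p ∣ δ * δ')).card *
              LS H (zf H) δ δ' ρ (σ * (δ * δ' : ℕ))
          else 0) else 0) ≤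
      2 * C₁ * (H : ℝ) ^ 6 * ((∏ p ∈ P (zf H), (1 - bp p)) *
        (if Squarefree δ ∧ Squarefree δ' ∧ Nat.Coprime δ δ' ∧ δ * δ' ≤ X then
        (δ : ℝ) * (∏ p ∈ (P (zf H)).filter (fun p => p ∣ δ * δ'), (18 / 25 * (1 + 3 / (p : ℝ)))) /
          ((δ : ℝ) * δ') ^ 2 else 0) + Real.log H ^ (-(2 : ℝ)) * (1 / (δ : ℝ) * (1 / (δ' : ℝ) ^ 2))) := by
    intro δ hδ δ' hδ'
    rw [mem_Icc] at hδ hδ'
    have hd0 : (0 : ℝ) < δ := by exact_mod_cast hδ.1
    have hd0' : (0 : ℝ) < δ' := by exact_mod_cast hδ'.1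
    by_cases hc : Squarefree (δ * δ') ∧ δ * δ' ≤ X
    · rw [if_pos hc]
      have hc' : Squarefree δ ∧ Squarefree δ' ∧ Nat.Coprime δ δ' ∧ δ * δ' ≤ X := by
        have h := Nat.squarefree_mul_iff.1 hc.1
        exact ⟨h.2.1, h.2.2, h.1, hc.2⟩
      rw [if_pos hc']
      obtain ⟨B, hB⟩ : ∃ B : ℝ, B = C₁ * (H : ℝ) ^ 6 / ((δ : ℝ) * δ') ^ 2 *
          ((∏ p ∈ (P (zf H)).filter (fun p => p ∣ δ * δ'), (18 / 25 * (1 + 3 / (p : ℝ)))) *
            (∏ p ∈ P (zf H), (1 - bp p)) + Real.log H ^ (-(2 : ℝ))) := ⟨_, rfl⟩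
      have hpr : 0 ≤ ∏ p ∈ (P (zf H)).filter (fun p => p ∣ δ * δ'), (18 / 25 * (1 + 3 / (p : ℝ))) :=
        Finset.prod_nonneg fun p _ => by positivity
      have hB0 : 0 ≤ B := by rw [hB]; positivity
      have hin : ∀ ρ ∈ range δ, ∀ σ ∈ ({1, -1} : Finset ℤ),
          (if nrm (eb C₀ δ δ' ρ 2) * Zf H ≤ H then
            (18 / 25) ^ ((P (zf H)).filter (fun p => p ∣ δ * δ')).card *
              LS H (zf H) δ δ' ρ (σ * (δ * δ' : ℕ))
          else 0) ≤ B := by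
        intro ρ _ σ hσ
        split_ifs with hn
        · have hσ' : σ = 1 ∨ σ = -1 := by
            simpa using hσ
          have hsq : Squarefree (σ * (δ * δ' : ℕ) : ℤ) := by
            have h1 : Squarefree (((δ * δ' : ℕ) : ℤ)) := Int.squarefree_natCast.2 hc.1
            rcases hσ' with rfl | rfl
            · rwa [one_mul]
            · rw [neg_one_mul]
              exact (Associated.refl _).neg_left.symm.squarefree_iff.1 h1
          have hna : δ * δ' = (σ * (δ * δ' : ℕ) : ℤ).natAbs := by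
            rcases hσ' with rfl | rfl
            · rw [one_mul, Int.natAbs_natCast]
            · rw [neg_one_mul, Int.natAbs_neg, Int.natAbs_natCast]
          have h1 := hG δ δ' ρ (σ * (δ * δ' : ℕ)) (eb C₀ δ δ' ρ) hsq hna (hRd δ δ' ρ hδ.1 hδ'.1) hn
          have h2 := prod_split (zf H) (δ * δ')
          have h3 : (18 / 25 : ℝ) ^ ((P (zf H)).filter (fun p => p ∣ δ * δ')).card ≤ 1 :=
            pow_le_one₀ (by norm_num) (by norm_num)
          have h4 : (0 : ℝ) < (18 / 25 : ℝ) ^ ((P (zf H)).filter (fun p => p ∣ δ * δ')).card := by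
            positivity
          rw [hB]
          calc (18 / 25 : ℝ) ^ ((P (zf H)).filter (fun p => p ∣ δ * δ')).card *
              LS H (zf H) δ δ' ρ (σ * (δ * δ' : ℕ)) ≤
              (18 / 25 : ℝ) ^ ((P (zf H)).filter (fun p => p ∣ δ * δ')).card *
              (C₁ * (H : ℝ) ^ 6 / ((δ : ℝ) * δ') ^ 2 *
                (∏ p ∈ (P (zf H)).filter (fun p => ¬ p ∣ δ * δ'), (1 - bp p) + Real.log H ^ (-(2 : ℝ)))) :=
                mul_le_mul_of_nonneg_left h1 h4.le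
            _ = C₁ * (H : ℝ) ^ 6 / ((δ : ℝ) * δ') ^ 2 *
                ((18 / 25 : ℝ) ^ ((P (zf H)).filter (fun p => p ∣ δ * δ')).card *
                  ∏ p ∈ (P (zf H)).filter (fun p => ¬ p ∣ δ * δ'), (1 - bp p) +
                (18 / 25 : ℝ) ^ ((P (zf H)).filter (fun p => p ∣ δ * δ')).card *
                  Real.log H ^ (-(2 : ℝ))) := by ring
            _ ≤ _ := by
                refine mul_le_mul_of_nonneg_left (add_le_add h2 ?_) (by positivity)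
                exact mul_le_of_le_one_left hlog2 h3
        · exact hB0
      have hsum : ∑ ρ ∈ range δ, ∑ σ ∈ ({1, -1} : Finset ℤ),
          (if nrm (eb C₀ δ δ' ρ 2) * Zf H ≤ H then
            (18 / 25) ^ ((P (zf H)).filter (fun p => p ∣ δ * δ')).card *
              LS H (zf H) δ δ' ρ (σ * (δ * δ' : ℕ))
          else 0) ≤ (δ : ℝ) * (2 * B) := by
        have h1 := Finset.sum_le_card_nsmul (range δ) (fun ρ => ∑ σ ∈ ({1, -1} : Finset ℤ),
          (if nrm (eb C₀ δ δ' ρ 2) * Zf H ≤ H then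
            (18 / 25 : ℝ) ^ ((P (zf H)).filter (fun p => p ∣ δ * δ')).card *
              LS H (zf H) δ δ' ρ (σ * (δ * δ' : ℕ))
          else 0)) (2 * B) (fun ρ hρ => by
            have h2 := Finset.sum_le_card_nsmul ({1, -1} : Finset ℤ) (fun σ =>
              (if nrm (eb C₀ δ δ' ρ 2) * Zf H ≤ H then
              (18 / 25 : ℝ) ^ ((P (zf H)).filter (fun p => p ∣ δ * δ')).card *
              LS H (zf H) δ δ' ρ (σ * (δ * δ' : ℕ))
              else 0)) B (fun σ hσ => hin ρ hρ σ hσ)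
            refine h2.trans (le_of_eq ?_)
            rw [Finset.card_pair (by norm_num), nsmul_eq_mul]
            norm_num)
        rwa [card_range, nsmul_eq_mul] at h1
      refine hsum.trans (le_of_eq ?_)
      rw [hB]
      field_simp
    · rw [if_neg hc]
      have : 0 ≤ (if Squarefree δ ∧ Squarefree δ' ∧ Nat.Coprime δ δ' ∧ δ * δ' ≤ X then
        (δ : ℝ) * (∏ p ∈ (P (zf H)).filter (fun p => p ∣ δ * δ'), (18 / 25 * (1 + 3 / (p : ℝ)))) /
          ((δ : ℝ) * δ') ^ 2 else 0) := by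
        split_ifs
        · have hpr : 0 ≤ ∏ p ∈ (P (zf H)).filter (fun p => p ∣ δ * δ'), (18 / 25 * (1 + 3 / (p : ℝ))) :=
            Finset.prod_nonneg fun p _ => by positivity
          positivity
        · exact le_rfl
      positivity
  refine (Finset.sum_le_sum fun δ hδ => Finset.sum_le_sum fun δ' hδ' => hterm δ hδ δ' hδ').trans ?_
  simp only [← Finset.mul_sum, Finset.sum_add_distrib]
  rw [← Finset.sum_mul]
  refine mul_le_mul_of_nonneg_left (add_le_add le_rfl (mul_le_mul_of_nonneg_left ?_ hlog2)) (by positivity)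
  have a1 := sum_inv_le X hX1
  have a2 := sum_sq_le X
  have a3 := logX F
  have a4 := L8 F
  rw [← hX] at a3
  have b1 : 0 ≤ ∑ δ ∈ Icc 1 X, 1 / (δ : ℝ) := Finset.sum_nonneg fun _ _ => by positivity
  calc (∑ δ ∈ Icc 1 X, 1 / (δ : ℝ)) * ∑ δ' ∈ Icc 1 X, 1 / (δ' : ℝ) ^ 2 ≤
      (1 + Real.log X) * 2 := mul_le_mul a1 a2 (Finset.sum_nonneg fun _ _ => by positivity)
        (by linarith)
    _ ≤ 8 * Real.log H := by linarith

theorem of (hG : GOODL) (hB : BAS) (hC : CNT) (hK : SKEW) : ANA := by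
  classical
  obtain ⟨C₀, hC₀, hRd⟩ := hB
  obtain ⟨C₁, H₁, hC₁, hG⟩ := hG C₀
  obtain ⟨C₂, hC₂, hM⟩ := MER.t
  obtain ⟨C₃, hC₃, hS⟩ := SUM.t
  obtain ⟨C₄, hK⟩ := hK PLANE.t (6 * C₀) (1 / 4) (by norm_num)
  obtain ⟨H₂, hF⟩ := Filter.eventually_atTop.1 fct
  have hbig : ∀ H : ℕ, max H₁ H₂ ≤ H → ((NC H).card : ℝ) ≤
      (|C₄| + 4 ^ 6 * C₂ + 4 * C₁ * (3 * C₂ * C₃ + 8)) * (H : ℝ) ^ 6 * Real.log H ^ (-(2 : ℝ) / 25) := by
    intro H hH
    have F := hF H ((le_max_right _ _).trans hH)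
    have h := hC C₀ hC₀ hRd H (Zf H) (zf H) (Af H) (by have := F.H3; omega) (Z1 F)
    have hz := z24 F
    obtain ⟨m1, m2, -⟩ := hM (zf H) hz
    -- part 1
    have p1 : ((SkS (6 * C₀) H (Zf H)).card : ℝ) ≤
        |C₄| * (H : ℝ) ^ 6 * Real.log H ^ (-(2 : ℝ) / 25) := by
      refine part1 F (abs_nonneg _) ?_
      have h1 := hK H (Zf H) (Z1 F) (ZH F)
      have h2 : ((SkS (6 * C₀) H (Zf H)).card : ℝ) ≤
          C₄ * (H : ℝ) ^ ((5 : ℝ) + 1 / 4) * ((Zf H : ℕ) : ℝ) ^ 5 := by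
        refine le_trans (le_of_eq ?_) h1
        unfold SkS Sk
        rfl
      refine h2.trans ?_
      have h3 : C₄ ≤ |C₄| := le_abs_self _
      gcongr
    -- part 2
    have p2 : ((OmS H (zf H) (Af H)).card : ℝ) ≤
        4 ^ 6 * C₂ * (H : ℝ) ^ 6 * Real.log H ^ (-(2 : ℝ) / 25) := by
      refine part2 F hC₂.le ?_
      have h1 := OMEGA.t RESC.t (P (zf H)) (zf H) (Af H) H (36 / 25)
        (fun p hp => ⟨(mem_P.1 hp).2, by have := (mem_P.1 hp).1.1; omega, (mem_P.1 hp).1.2⟩)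
        (by omega) (zA F) (by norm_num) (by norm_num)
      have h2 : ((OmS H (zf H) (Af H)).card : ℝ) ≤ _ := le_trans (le_of_eq (by unfold OmS; rfl)) h1
      refine h2.trans ?_
      have e : (36 : ℝ) / 25 - 1 = 11 / 25 := by norm_num
      rw [e]
      exact mul_le_mul_of_nonneg_left m2 (by positivity)
    -- part 3
    have h3 := third hRd hC₁ F (fun δ δ' ρ t e ht hd hr hn => hG H δ δ' ρ t e ((le_max_left _ _).trans hH) ht hd hr hn)
    have hs := hS (zf H) (3 * H ^ 2) hz (z_le_X F)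
    have hm1 : ∏ p ∈ P (zf H), (1 - bp p) ≤ C₂ * Real.log (zf H) ^ (-(32 : ℝ) / 25) := m1
    have hP0 : 0 ≤ ∏ p ∈ P (zf H), (1 - bp p) :=
      Finset.prod_nonneg fun p hp => (bp_lt (mem_P.1 hp).1.1).1.le
    have hL2 : 0 ≤ Real.log H ^ (-(2 : ℝ)) := Real.rpow_nonneg (L0 F).le _
    have p3 := part3 F hC₁.le hC₂.le hC₃.le (x := (25 / 18) ^ (Af H) *
      ∑ δ ∈ Icc 1 (3 * H ^ 2), ∑ δ' ∈ Icc 1 (3 * H ^ 2),
      (if Squarefree (δ * δ') ∧ δ * δ' ≤ 3 * H ^ 2 then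
        ∑ ρ ∈ range δ, ∑ σ ∈ ({1, -1} : Finset ℤ),
          (if nrm (eb C₀ δ δ' ρ 2) * Zf H ≤ H then
            (18 / 25) ^ ((P (zf H)).filter (fun p => p ∣ δ * δ')).card *
              LS H (zf H) δ δ' ρ (σ * (δ * δ' : ℕ))
          else 0) else 0)) (by
        refine mul_le_mul_of_nonneg_left (h3.trans ?_) (by positivity)
        refine mul_le_mul_of_nonneg_left (add_le_add ?_ le_rfl) (by positivity)
        refine mul_le_mul hm1 hs ?_ (hP0.trans hm1)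
        refine Finset.sum_nonneg fun δ hδ => Finset.sum_nonneg fun δ' _ => ?_
        split_ifs
        · have hpr : 0 ≤ ∏ p ∈ (P (zf H)).filter (fun p => p ∣ δ * δ'), (18 / 25 * (1 + 3 / (p : ℝ))) :=
            Finset.prod_nonneg fun p _ => by positivity
          positivity
        · exact le_rfl)
    calc ((NC H).card : ℝ) ≤ _ := h
      _ ≤ |C₄| * (H : ℝ) ^ 6 * Real.log H ^ (-(2 : ℝ) / 25) +
          4 ^ 6 * C₂ * (H : ℝ) ^ 6 * Real.log H ^ (-(2 : ℝ) / 25) +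
          4 * C₁ * (3 * C₂ * C₃ + 8) * (H : ℝ) ^ 6 * Real.log H ^ (-(2 : ℝ) / 25) :=
        add_le_add (add_le_add p1 p2) p3
      _ = _ := by ring
  -- small `H`
  obtain ⟨M, hM3, hMm⟩ : ∃ M : ℕ, 3 ≤ M ∧ max H₁ H₂ ≤ M := ⟨max 3 (max H₁ H₂), le_max_left _ _, le_max_right _ _⟩
  obtain ⟨K, hKd⟩ : ∃ K : ℝ, K = |C₄| + 4 ^ 6 * C₂ + 4 * C₁ * (3 * C₂ * C₃ + 8) := ⟨_, rfl⟩
  have hK0 : 0 < K := by rw [hKd]; positivity
  have hlogM : 0 < Real.log M := Real.log_pos (by exact_mod_cast (by omega : 1 < M))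
  refine ⟨K + 3 ^ 6 * Real.log M ^ ((2 : ℝ) / 25), by positivity, fun H hH => ?_⟩
  have hlogH : 0 < Real.log H := Real.log_pos (by exact_mod_cast (by omega : 1 < H))
  have hx0 : 0 < Real.log H ^ (-(2 : ℝ) / 25) := Real.rpow_pos_of_pos hlogH _
  have hy0 : 0 < Real.log M ^ ((2 : ℝ) / 25) := Real.rpow_pos_of_pos hlogM _
  have hH6 : (0 : ℝ) ≤ (H : ℝ) ^ 6 := by positivity
  by_cases hHM : max H₁ H₂ ≤ H
  · refine (hbig H hHM).trans ?_
    rw [← hKd]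
    refine mul_le_mul_of_nonneg_right (mul_le_mul_of_nonneg_right ?_ hH6) hx0.le
    linarith [mul_pos (show (0 : ℝ) < 3 ^ 6 by norm_num) hy0]
  · have hHM' : H ≤ M := by omega
    have h1 : ((NC H).card : ℝ) ≤ 3 ^ 6 * (H : ℝ) ^ 6 := by
      have hbox : (box H).card = (2 * H + 1) ^ 3 := by
        unfold box rbox
        rw [Fintype.card_piFinset_const, Int.card_Icc]
        congr 1
        omega
      have h2 : (NC H).card ≤ ((2 * H + 1) ^ 3) * ((2 * H + 1) ^ 3) := by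
        unfold NC
        refine (Finset.card_filter_le _ _).trans ?_
        rw [card_product, hbox]
      have h3 : ((2 * H + 1) ^ 3) * ((2 * H + 1) ^ 3) ≤ 3 ^ 6 * H ^ 6 := by
        calc ((2 * H + 1) ^ 3) * ((2 * H + 1) ^ 3) = (2 * H + 1) ^ 6 := by ring
          _ ≤ (3 * H) ^ 6 := Nat.pow_le_pow_left (by omega) 6
          _ = _ := by ring
      exact_mod_cast h2.trans h3
    have h2 : (1 : ℝ) ≤ Real.log M ^ ((2 : ℝ) / 25) * Real.log H ^ (-(2 : ℝ) / 25) := by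
      have h3 : Real.log H ≤ Real.log M := Real.log_le_log (by exact_mod_cast (by omega : 0 < H))
        (by exact_mod_cast hHM')
      have h4 : Real.log H ^ ((2 : ℝ) / 25) ≤ Real.log M ^ ((2 : ℝ) / 25) :=
        Real.rpow_le_rpow hlogH.le h3 (by norm_num)
      have h5 : Real.log H ^ ((2 : ℝ) / 25) * Real.log H ^ (-(2 : ℝ) / 25) = 1 := by
        rw [← Real.rpow_add hlogH]
        norm_num
      rw [← h5]
      exact mul_le_mul_of_nonneg_right h4 hx0.le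
    calc ((NC H).card : ℝ) ≤ 3 ^ 6 * (H : ℝ) ^ 6 := h1
      _ ≤ 3 ^ 6 * (H : ℝ) ^ 6 * (Real.log M ^ ((2 : ℝ) / 25) * Real.log H ^ (-(2 : ℝ) / 25)) :=
        le_mul_of_one_le_right (by positivity) h2
      _ = 3 ^ 6 * Real.log M ^ ((2 : ℝ) / 25) * (H : ℝ) ^ 6 * Real.log H ^ (-(2 : ℝ) / 25) := by ring
      _ ≤ _ := by
        refine mul_le_mul_of_nonneg_right (mul_le_mul_of_nonneg_right ?_ hH6) hx0.le
        linarith

end Pool.Agent.H14F.ANA
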