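import Pool.Agent.H14F.Frob
import Pool.Agent.N710.PF.Exs

/-!
# Sets of primes which split completely
-/

set_option autoImplicit false
set_option linter.all false

open Polynomial NumberField IsDedekindDomain
open scoped Pointwise

namespace Pool.Agent.H14F

open Pool.Agent.N783.PF
open Pool.Agent.W401.Cheb (HasFrob)

/-- A Galois number field which contains `K` and over which a given polynomial splits. -/
theorem exists_gal_split (K : Type) [Field K] [NumberField K] (P : K[X]) :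
    ∃ (N : Type) (_ : Field N) (_ : NumberField N) (_ : IsGalois ℚ N) (_ : Algebra K N),
      (P.map (algebraMap K N)).Splits := by
  let K' := P.SplittingField
  haveI : FiniteDimensional ℚ K' := FiniteDimensional.trans ℚ K K'
  haveI : CharZero K' := charZero_of_injective_algebraMap (algebraMap K K').injective
  haveI : NumberField K' := ⟨⟩
  obtain ⟨N, i1, i2, i3, i4, -⟩ := exists_gal K'
  letI : Algebra K N := ((algebraMap K' N).comp (algebraMap K K')).toAlgebra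
  refine ⟨N, i1, i2, i3, inferInstance, ?_⟩
  have h1 := (SplittingField.splits P).map (algebraMap K' N)
  rw [Polynomial.map_map] at h1
  exact h1

section

variable {N : Type} [Field N] [NumberField N] [IsGalois ℚ N] {p : ℕ} [Fact p.Prime]

theorem exists_hom_p (N : Type) [Field N] [NumberField N] (p : ℕ) [Fact p.Prime] :
    Nonempty (𝓞 N →+* AlgebraicClosure (ZMod p)) := by
  obtain ⟨φ, -⟩ := _root_.W54.ChTor.exists_ext (A := ℤ) (B := 𝓞 N) (RingHom.injective_int _) p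
    (Int.castRingHom (ZMod p))
  exact ⟨φ⟩

theorem sq_of_frob {φ : 𝓞 N →+* AlgebraicClosure (ZMod p)} {g : Gal(N/ℚ)} (hφ : HasFrob p φ g)
    {r : N} {n : ℤ} (hr : r ^ 2 = (n : N)) (hg : g r = r) : IsSquare ((n : ℤ) : ZMod p) := by
  have hri : IsIntegral ℤ r := by
    have h1 : IsIntegral ℤ (r ^ 2) := by
      rw [hr]
      have := isIntegral_algebraMap (R := ℤ) (A := N) (x := n)
      simpa using this
    exact h1.of_pow (by norm_num)
  let ρ : 𝓞 N := ⟨r, hri⟩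
  have h1 : ρ ^ 2 = (n : 𝓞 N) := by
    apply RingOfIntegers.ext
    push_cast
    exact hr
  have h2 : g • ρ = ρ := RingOfIntegers.ext hg
  have h3 : φ ρ ^ p = φ ρ := by rw [← hφ, h2]
  obtain ⟨m, hm⟩ := _root_.W54.ChTor.frob_fixed p (φ ρ) h3
  refine ⟨m, ?_⟩
  apply (algebraMap (ZMod p) (AlgebraicClosure (ZMod p))).injective
  rw [map_mul, hm, ← map_mul, ← pow_two, h1, map_intCast, map_intCast]

theorem mod_eight (h2 : p ≠ 2) (h3 : IsSquare ((2 : ℤ) : ZMod p))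
    (h4 : IsSquare ((-1 : ℤ) : ZMod p)) : p % 8 = 1 := by
  have h5 : IsSquare (2 : ZMod p) := by exact_mod_cast h3
  have h6 : IsSquare (-1 : ZMod p) := by exact_mod_cast h4
  rw [ZMod.exists_sq_eq_two_iff h2] at h5
  rw [ZMod.exists_sq_eq_neg_one_iff] at h6
  omega

end

/-- The roots of a product. -/
theorem splits_root {K N : Type} [Field K] [Field N] [Algebra K N] {P Q : K[X]} (hP : P ≠ 0)
    (h : (P.map (algebraMap K N)).Splits) (hQ : Q ∣ P) (hd : Q.degree ≠ 0) :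
    ∃ r : N, aeval r Q = 0 := by
  have hmap : P.map (algebraMap K N) ≠ 0 := by
    rw [Ne, Polynomial.map_eq_zero]; exact hP
  have h1 : (Q.map (algebraMap K N)).Splits := h.of_dvd hmap (Polynomial.map_dvd _ hQ)
  obtain ⟨r, hr⟩ := h1.exists_eval_eq_zero (by rw [degree_map]; exact hd)
  exact ⟨r, by rwa [eval_map_algebraMap] at hr⟩

/-- A number field with square roots of `-1` and of `2`. -/
theorem exists_N2 (K : Type) [Field K] [NumberField K] :
    ∃ (N : Type) (_ : Field N) (_ : NumberField N) (_ : IsGalois ℚ N) (_ : Algebra K N),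
      (∃ i : N, i ^ 2 = ((-1 : ℤ) : N)) ∧ ∃ r : N, r ^ 2 = ((2 : ℤ) : N) := by
  obtain ⟨N, i1, i2, i3, i4, h⟩ := exists_gal_split K ((X ^ 2 + 1) * (X ^ 2 - 2))
  have m1 : (X ^ 2 + 1 : K[X]).Monic := by monicity!
  have m2 : (X ^ 2 - C 2 : K[X]).Monic := by monicity!
  have e2 : (X ^ 2 - 2 : K[X]) = X ^ 2 - C 2 := rfl
  have d1 : (X ^ 2 + 1 : K[X]).degree = 2 := by compute_degree!
  have d2 : (X ^ 2 - C 2 : K[X]).degree = 2 := by compute_degree!
  have hP : ((X ^ 2 + 1) * (X ^ 2 - 2) : K[X]) ≠ 0 := by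
    rw [e2]
    exact (m1.mul m2).ne_zero
  obtain ⟨i, hi⟩ := splits_root hP h (dvd_mul_right _ _) (by rw [d1]; decide)
  obtain ⟨r, hr⟩ := splits_root hP h (dvd_mul_left _ _) (by rw [e2, d2]; decide)
  refine ⟨N, i1, i2, i3, i4, ⟨i, ?_⟩, ⟨r, ?_⟩⟩
  · have h1 : i ^ 2 + 1 = 0 := by simpa using hi
    push_cast
    linear_combination h1
  · have h1 : r ^ 2 - 2 = 0 := by
      rw [e2, map_sub, map_pow, aeval_X, aeval_C, map_ofNat] at hr
      exact hr
    push_cast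
    linear_combination h1

/-- Many primes which split completely in `M`. -/
theorem exists_S (F M : Type) [Field F] [NumberField F] [Field M] [NumberField M] [Algebra F M]
    [Normal F M] (B m : ℕ) : ∃ S : Finset ℕ, S.card = m ∧ ∀ q ∈ S, q.Prime ∧ B < q ∧ q % 8 = 1 ∧
      ∀ w : HeightOneSpectrum (𝓞 M), (q : 𝓞 M) ∈ w.asIdeal → Tot F w := by
  classical
  obtain ⟨N, _, _, _, _, ⟨i, hi⟩, ⟨r, hr⟩⟩ := exists_N2 M
  induction m with
  | zero => exact ⟨∅, rfl, by simp⟩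
  | succ m ih =>
    obtain ⟨S, hS, hS2⟩ := ih
    obtain ⟨p, hp, hpB, hs⟩ := exists_spl N (max (max B 2) (S.sup id))
    have hpS : p ∉ S := by
      intro h
      have h1 : p ≤ S.sup id := Finset.le_sup (f := id) h
      have h2 := le_max_right (max B 2) (S.sup id)
      omega
    refine ⟨insert p S, by rw [Finset.card_insert_of_notMem hpS, hS], ?_⟩
    intro q hq
    rcases Finset.mem_insert.1 hq with rfl | hq
    · have h1 : max B 2 < q := (le_max_left _ _).trans_lt hpB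
      have h2 : B < q := (le_max_left _ _).trans_lt h1
      have h3 : 2 < q := (le_max_right _ _).trans_lt h1
      obtain ⟨φ⟩ := exists_hom_p N q
      have hφ : HasFrob q φ (1 : Gal(N/ℚ)) := fun x => by
        rw [one_smul, hs.frob]
      refine ⟨hp.out, h2, mod_eight (by omega) (sq_of_frob hφ hr rfl) (sq_of_frob hφ hi rfl), ?_⟩
      intro w hw
      exact hs.tot hw
    · exact hS2 q hq

/-- The data `S`, `𝔮`, `h`, `P`, with splitting. -/
theorem exsM (F M : Type) [Field F] [NumberField F] [Field M] [NumberField M] [Algebra F M]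
    [Normal F M] (g W : ℕ) (hg : 1 ≤ g) (m : ℕ) :
    ∃ (S : Finset ℕ) (𝔮 : ℕ → Ideal (𝓞 F)) (h P : ℕ → (𝓞 F)[X]),
    GoodS g W S 𝔮 h P ∧ (∀ q ∈ S, ∀ w : HeightOneSpectrum (𝓞 M), (q : 𝓞 M) ∈ w.asIdeal →
      Tot F w) ∧ S.card = m := by
  classical
  obtain ⟨S, hS, hS2⟩ := exists_S F M (W + (2 * g + 1) + (discr F).natAbs) m
  have hdata : ∀ q : ℕ, ∃ (𝔮 : Ideal (𝓞 F)) (h A : (𝓞 F)[X]), q ∈ S →
    (∀ 𝔭 : Ideal (𝓞 F), 𝔭.IsPrime → (q : 𝓞 F) ∉ 𝔭 ^ 2) ∧
    𝔮.IsPrime ∧ (q : 𝓞 F) ∈ 𝔮 ∧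
    h.Monic ∧ h.natDegree = 2 * g ∧ Irreducible (rd 𝔮 h) ∧
    A.Monic ∧ A.natDegree = 2 * g + 1 ∧ A.coeff (2 * g) = 0 ∧
    Cg 𝔮 A (X * h) ∧
    ∀ 𝔭 : Ideal (𝓞 F), 𝔭.IsPrime → (q : 𝓞 F) ∈ 𝔭 → 𝔭 ≠ 𝔮 → Irreducible (rd 𝔭 A) := by
    intro q
    by_cases hq : q ∈ S
    · obtain ⟨h1, h2, -⟩ := hS2 q hq
      obtain ⟨𝔮, h, A, hh⟩ := Pool.Agent.N710.PF.exists_data F g q hg h1 (by omega) (by omega)
      exact ⟨𝔮, h, A, fun _ => hh⟩
    · exact ⟨⊥, 0, 0, fun h => absurd h hq⟩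
  choose 𝔮 h A hh using hdata
  refine ⟨S, 𝔮, h, A, fun q hq => ?_, fun q hq => (hS2 q hq).2.2.2, hS⟩
  obtain ⟨h1, h2, h3, -⟩ := hS2 q hq
  exact ⟨h1, by omega, by omega, h3, hh q hq⟩

end Pool.Agent.H14F
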