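import Pool.Agent.H14F.Sel
import Pool.Agent.H14F.MainW

/-!
# Admissible extensions
-/

set_option autoImplicit false
set_option linter.all false

open Polynomial NumberField IsDedekindDomain
open scoped Classical Pointwise

namespace Pool.Agent.H14F

open Pool.Agent.N783.PF
open Pool.Agent.N874.PP (sW)
open Pool.Agent.TH115.GD (Pt)

/-- The extension `M` of `F` is admissible for the curve `y ^ 2 = x ^ 3 + a x + b`, `p = (a, b)`. -/
structure Adm (F M : Type) [Field F] [NumberField F] [Field M] [NumberField M] [Algebra F M]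
    (p : 𝓞 F × 𝓞 F) : Prop where
  galois : IsGalois F M
  deg : ∃ n : ℕ, Module.finrank F M = 2 ^ n
  two : ∀ w : HeightOneSpectrum (𝓞 M), (2 : 𝓞 M) ∈ w.asIdeal → Tot F w
  bad : ∀ w : HeightOneSpectrum (𝓞 M), p.1 ∈ (w.under (𝓞 F)).asIdeal ^ 2 →
    p.2 ∈ (w.under (𝓞 F)).asIdeal ^ 3 → Tot F w
  real : ∀ σ : F →+* ℝ, ∃ ρ : M →+* ℝ, ρ.comp (algebraMap F M) = σ
  ram : ∀ w : HeightOneSpectrum (𝓞 M), ¬ Unr F w →
    ∀ z : 𝓞 F, z ^ 3 + p.1 * z + p.2 ∉ (w.under (𝓞 F)).asIdeal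

section cub

variable {F : Type} [Field F] [NumberField F]

/-- the coefficients -/
abbrev cf (f : (𝓞 F)[X]) : 𝓞 F × 𝓞 F := (f.coeff 1, f.coeff 0)

theorem eq_cub {R : Type} [CommRing R] {f : R[X]} (hm : f.Monic) (hd : f.natDegree = 2 * 1 + 1)
    (ht : f.coeff (2 * 1) = 0) : f = X ^ 3 + C (f.coeff 1) * X + C (f.coeff 0) := by
  have hd' : f.natDegree = 3 := hd
  have h3 : f.coeff 3 = 1 := by
    have := hm.coeff_natDegree
    rwa [hd'] at this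
  have h2 : f.coeff 2 = 0 := ht
  conv_lhs => rw [f.as_sum_range_C_mul_X_pow, hd']
  simp only [Finset.sum_range_succ, Finset.sum_range_zero, h3, h2, C_0, C_1, zero_add, pow_zero,
    mul_one, pow_one, zero_mul, add_zero, one_mul]
  ring

theorem eval_cub {R : Type} [CommRing R] {f : R[X]} (hm : f.Monic) (hd : f.natDegree = 2 * 1 + 1)
    (ht : f.coeff (2 * 1) = 0) (z : R) : f.eval z = z ^ 3 + f.coeff 1 * z + f.coeff 0 := by
  conv_lhs => rw [eq_cub hm hd ht]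
  simp

theorem cf_scale {f : (𝓞 F)[X]} (hd : f.natDegree = 2 * 1 + 1) (D : 𝓞 F) :
    cf (f.scaleRoots D) = (f.coeff 1 * D ^ 2, f.coeff 0 * D ^ 3) := by
  unfold cf
  rw [coeff_scaleRoots, coeff_scaleRoots, hd]

/-- no zeros modulo a prime ideal: irreducible -/
theorem irr_of_noroot {f : (𝓞 F)[X]} (hm : f.Monic) (hd : f.natDegree = 2 * 1 + 1)
    (ht : f.coeff (2 * 1) = 0) {w : HeightOneSpectrum (𝓞 F)}
    (h : ∀ z : 𝓞 F, z ^ 3 + f.coeff 1 * z + f.coeff 0 ∉ w.asIdeal) :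
    Irreducible (rd w.asIdeal f) := by
  haveI : w.asIdeal.IsMaximal := w.isMaximal
  letI : Field (𝓞 F ⧸ w.asIdeal) := Ideal.Quotient.field w.asIdeal
  have hm' : (rd w.asIdeal f).Monic := hm.map _
  have hd' : (rd w.asIdeal f).natDegree = 3 := by
    rw [hm.natDegree_map, hd]
  rw [hm'.irreducible_iff_roots_eq_zero_of_degree_le_three (by rw [hd']; norm_num) (by rw [hd'])]
  rw [Multiset.eq_zero_iff_forall_notMem]
  intro x hx
  obtain ⟨z, rfl⟩ := Ideal.Quotient.mk_surjective x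
  rw [mem_roots hm'.ne_zero, IsRoot.def, eval_map, eval₂_at_apply] at hx
  rw [Ideal.Quotient.eq_zero_iff_mem, eval_cub hm hd ht] at hx
  exact h z hx

end cub

/-- All properties of the curve over all admissible fields. -/
def AllGood (F : Type) [Field F] [NumberField F] (p : 𝓞 F × 𝓞 F) : Prop :=
  ∀ (M : Type) [Field M] [NumberField M] [Algebra F M], Adm F M p →
    Good (F := M) (algebraMap (𝓞 F) (𝓞 M) p.1, algebraMap (𝓞 F) (𝓞 M) p.2)

theorem good_of' (h2 : Pool.Agent.N874.QM.S_SELC) (h3 : Pool.Agent.N874.QM.S_GFC)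
    (h4 : Pool.Agent.N874.QM.S_FINC) {M : Type} [Field M] [NumberField M] {f : (𝓞 M)[X]}
    (hm : f.Monic) (hd : f.natDegree = 2 * 1 + 1) (ht : f.coeff (2 * 1) = 0)
    (hirr : Irreducible (fF f)) (hsel : SelZero f) : Good (f.coeff 1, f.coeff 0) := by
  have hfF : fF f = X ^ 3 + C ((f.coeff 1 : 𝓞 M) : M) * X + C ((f.coeff 0 : 𝓞 M) : M) := by
    conv_lhs => rw [eq_cub hm hd ht]
    simp [fF]
  have hirr' := hirr
  rw [hfF] at hirr'
  have hd := Pool.Agent.N61.PF.disc_ne hirr'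
  have hsel' : Pool.Agent.N874.QM.SelM M
      (X ^ 3 + C ((f.coeff 1 : 𝓞 M) : M) * X + C ((f.coeff 0 : 𝓞 M) : M)) := by
    rw [← hfF]
    exact hsel
  have hs := h2 M _ _ hd hirr' hsel'
  obtain ⟨hdiv, hsha⟩ := h3 M _ _ hd hs
  obtain ⟨hf, ho⟩ := h4 M _ _ hd hdiv
  exact ⟨hs, hsha, hf, ho⟩

/-- The curve has all properties over all admissible fields. -/
theorem allGood (h2 : Pool.Agent.N874.QM.S_SELC) (h3 : Pool.Agent.N874.QM.S_GFC)
    (h4 : Pool.Agent.N874.QM.S_FINC) {F L : Type} [Field F] [NumberField F] [Field L]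
    [NumberField L] [Algebra F L]
    {W : ℕ} {f f₁ : (𝓞 F)[X]} {θ : L} {S J : Finset ℕ} {𝔮 : ℕ → Ideal (𝓞 F)}
    {r P : ℕ → (𝓞 F)[X]} (D : Dat 1 W f f₁ θ S J 𝔮 r P) (ht : f.coeff (2 * 1) = 0)
    (hcore : CoreJ f θ J 𝔮) : AllGood F (cf (f.scaleRoots ((Dp J : ℕ) : 𝓞 F))) := by
  intro M _ _ _ hadm
  haveI := hadm.galois
  obtain ⟨n, hn⟩ := hadm.deg
  have hm := D.gen.mon
  have hd := D.gen.deg
  have hmD : (f.scaleRoots ((Dp J : ℕ) : 𝓞 F)).Monic := (monic_scaleRoots_iff _).2 hm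
  have hdD : (f.scaleRoots ((Dp J : ℕ) : 𝓞 F)).natDegree = 2 * 1 + 1 := by
    rw [natDegree_scaleRoots, hd]
  have htD : (f.scaleRoots ((Dp J : ℕ) : 𝓞 F)).coeff (2 * 1) = 0 := by
    rw [coeff_scaleRoots, ht, zero_mul]
  have hcf := cf_scale hd ((Dp J : ℕ) : 𝓞 F)
  have hq : ∀ q ∈ J, ∀ w : HeightOneSpectrum (𝓞 M), Ov (𝔮 q) w → Tot F w := by
    intro q hq w hw
    obtain ⟨a1, a2, a3, a4, a5, a6, a7, -⟩ := D.gs q (D.sub hq)
    have h5 : ((Dp J : ℕ) : 𝓞 F) ∈ (w.under (𝓞 F)).asIdeal := by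
      rw [Dp, Nat.cast_prod]
      exact Ideal.mem_of_dvd _ (Finset.dvd_prod_of_mem (fun q : ℕ => (q : 𝓞 F)) hq) (hw _ a7)
    refine hadm.bad w ?_ ?_
    · rw [hcf]
      exact Ideal.mul_mem_left _ _ (Ideal.pow_mem_pow h5 2)
    · rw [hcf]
      exact Ideal.mul_mem_left _ _ (Ideal.pow_mem_pow h5 3)
  have hram : ∀ w : HeightOneSpectrum (𝓞 M), ¬ Unr F w →
      Irreducible (rd (w.under (𝓞 F)).asIdeal f) := by
    intro w hw
    have h5 := hadm.ram w hw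
    rw [hcf] at h5
    apply irr_of_noroot hm hd ht
    intro z hz
    apply h5 (((Dp J : ℕ) : 𝓞 F) * z)
    have e : (((Dp J : ℕ) : 𝓞 F) * z) ^ 3 + (f.coeff 1 * ((Dp J : ℕ) : 𝓞 F) ^ 2) *
        (((Dp J : ℕ) : 𝓞 F) * z) + f.coeff 0 * ((Dp J : ℕ) : 𝓞 F) ^ 3 =
        ((Dp J : ℕ) : 𝓞 F) ^ 3 * (z ^ 3 + f.coeff 1 * z + f.coeff 0) := by ring
    show (((Dp J : ℕ) : 𝓞 F) * z) ^ 3 + (f.coeff 1 * ((Dp J : ℕ) : 𝓞 F) ^ 2) *
        (((Dp J : ℕ) : 𝓞 F) * z) + f.coeff 0 * ((Dp J : ℕ) : 𝓞 F) ^ 3 ∈ _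
    rw [e]
    exact Ideal.mul_mem_left _ _ hz
  obtain ⟨h6, h7⟩ := selM D hcore M hn hadm.two hadm.real hq hram
  have h8 := good_of' h2 h3 h4 (up_monic hmD) (by rw [up_deg hmD, hdD])
    (by rw [up, coeff_map, htD, map_zero]) h6 h7
  have e1 : ∀ j, (up M (f.scaleRoots ((Dp J : ℕ) : 𝓞 F))).coeff j =
      algebraMap (𝓞 F) (𝓞 M) ((f.scaleRoots ((Dp J : ℕ) : 𝓞 F)).coeff j) := by
    intro j
    rw [up, coeff_map]
  rw [e1, e1] at h8
  exact h8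

end Pool.Agent.H14F
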