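import Pool.Agent.H14F.Adm
import Pool.Agent.N547.PF.Min

/-!
# The given field is admissible
-/

set_option autoImplicit false
set_option linter.all false

open Polynomial NumberField IsDedekindDomain
open scoped Classical Pointwise

namespace Pool.Agent.H14F

open Pool.Agent.N783.PF
open Pool.Agent.N352.PF (rv)

section

variable {F : Type} [Field F] [NumberField F]

theorem noroot_scale {w : HeightOneSpectrum (𝓞 F)} {A B D : 𝓞 F} (hD : D ∉ w.asIdeal)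
    (h : ∀ z : 𝓞 F, z ^ 3 + A * z + B ∉ w.asIdeal) (z : 𝓞 F) :
    z ^ 3 + A * D ^ 2 * z + B * D ^ 3 ∉ w.asIdeal := by
  intro hz
  haveI : w.asIdeal.IsMaximal := w.isMaximal
  obtain ⟨u, v, hv, huv⟩ := (w.isMaximal).exists_inv hD
  apply h (z * u)
  have e : (z * u) ^ 3 + A * (z * u) + B = u ^ 3 * (z ^ 3 + A * D ^ 2 * z + B * D ^ 3) +
      v * (A * (z * u) * (1 + u * D) + B * (1 + u * D + (u * D) ^ 2)) := by
    have e1 : v = 1 - u * D := by linear_combination huv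
    rw [e1]
    ring
  rw [e]
  exact Ideal.add_mem _ (Ideal.mul_mem_left _ _ hz) (Ideal.mul_mem_right _ _ hv)

theorem noroot_of_irr {f : (𝓞 F)[X]} (hm : f.Monic) (hd : f.natDegree = 2 * 1 + 1)
    (ht : f.coeff (2 * 1) = 0) {w : HeightOneSpectrum (𝓞 F)} (h : Irreducible (rd w.asIdeal f))
    (z : 𝓞 F) : z ^ 3 + f.coeff 1 * z + f.coeff 0 ∉ w.asIdeal := by
  intro hz
  haveI : w.asIdeal.IsMaximal := w.isMaximal
  letI : Field (𝓞 F ⧸ w.asIdeal) := Ideal.Quotient.field w.asIdeal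
  have hd' : (rd w.asIdeal f).natDegree = 3 := by
    rw [hm.natDegree_map, hd]
  have hroot : (rd w.asIdeal f).IsRoot (Ideal.Quotient.mk w.asIdeal z) := by
    rw [IsRoot.def, eval_map, eval₂_at_apply, Ideal.Quotient.eq_zero_iff_mem, eval_cub hm hd ht]
    exact hz
  have h1 := natDegree_eq_of_degree_eq_some (degree_eq_one_of_irreducible_of_root h hroot)
  rw [hd'] at h1
  norm_num at h1

/-- `q` and `W` are not in the same prime ideal. -/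
theorem not_both {W q : ℕ} (hq : q.Prime) (hW0 : 0 < W) (hWq : W < q)
    {w : HeightOneSpectrum (𝓞 F)} (h1 : (W : 𝓞 F) ∈ w.asIdeal) : (q : 𝓞 F) ∉ w.asIdeal := by
  intro h2
  have hco : Nat.Coprime q W := (Nat.Prime.coprime_iff_not_dvd hq).2
    (Nat.not_dvd_of_pos_of_lt hW0 hWq)
  obtain ⟨a, b, hab⟩ := Nat.isCoprime_iff_coprime.2 hco
  apply w.isPrime.ne_top
  rw [Ideal.eq_top_iff_one]
  have h3 : ((a : 𝓞 F) * (q : 𝓞 F) + (b : 𝓞 F) * (W : 𝓞 F)) = 1 := by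
    exact_mod_cast congrArg (Int.cast : ℤ → 𝓞 F) hab
  rw [← h3]
  exact Ideal.add_mem _ (Ideal.mul_mem_left _ _ h2) (Ideal.mul_mem_left _ _ h1)

/-- The primes `𝔭` with `𝔭 ^ 2 ∣ A D ^ 2`, `𝔭 ^ 3 ∣ B D ^ 3` contain `D`. -/
theorem dp_mem_of {f : (𝓞 F)[X]} (hm : f.Monic) (hd : f.natDegree = 2 * 1 + 1)
    (ht : f.coeff (2 * 1) = 0) (hsq : SqF 1 f) {D : 𝓞 F} {w : HeightOneSpectrum (𝓞 F)}
    (h1 : f.coeff 1 * D ^ 2 ∈ w.asIdeal ^ 2) (h2 : f.coeff 0 * D ^ 3 ∈ w.asIdeal ^ 3) :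
    D ∈ w.asIdeal := by
  by_contra hD1
  haveI hp := w.isPrime
  have hco : ∀ j < 2 * 1 + 1, f.coeff j ∈ w.asIdeal ^ 2 := by
    intro j hj
    interval_cases j
    · have h3 : D ^ 3 ∉ w.asIdeal := fun h => hD1 (hp.mem_of_pow_mem _ h)
      rw [mul_comm] at h2
      rcases Ideal.IsPrime.mul_mem_pow w.asIdeal h2 with h' | h'
      · exact absurd h' h3
      · exact Ideal.pow_le_pow_right (by omega) h'
    · have h3 : D ^ 2 ∉ w.asIdeal := fun h => hD1 (hp.mem_of_pow_mem _ h)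
      rw [mul_comm] at h1
      rcases Ideal.IsPrime.mul_mem_pow w.asIdeal h1 with h' | h'
      · exact absurd h' h3
      · exact h'
    · have : f.coeff 2 = 0 := ht
      rw [this]
      exact Ideal.zero_mem _
  have hf : f.map (Ideal.Quotient.mk (w.asIdeal ^ 2)) = X ^ (2 * 1 + 1) :=
    Pool.Agent.N547.PF.map_eq_X_pow _ f _ hm hd
    fun j hj => Ideal.Quotient.eq_zero_iff_mem.2 (hco j hj)
  apply hsq w.asIdeal hp w.ne_bot
  rw [← Ideal.Quotient.eq_zero_iff_mem, dsc, ← resultant_map_map, ← derivative_map, hf,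
    resultant_X_pow_left]
  · rw [derivative_X_pow, coeff_C_mul, coeff_X_pow, if_neg (by omega), mul_zero,
      zero_pow (by omega)]
  · rw [derivative_X_pow]
    refine (natDegree_C_mul_le _ _).trans ?_
    refine (natDegree_X_pow_le _).trans (by omega)

theorem Dat.dp_notMem {L : Type} [Field L] [NumberField L] [Algebra F L] {g W : ℕ}
    {f f₁ : (𝓞 F)[X]} {θ : L} {S J : Finset ℕ} {𝔮 : ℕ → Ideal (𝓞 F)}
    {r P : ℕ → (𝓞 F)[X]} (D : Dat g W f f₁ θ S J 𝔮 r P) {w : HeightOneSpectrum (𝓞 F)}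
    (h : (W : 𝓞 F) ∈ w.asIdeal) : ((Dp J : ℕ) : 𝓞 F) ∉ w.asIdeal := by
  haveI := w.isPrime
  rw [Dp, Nat.cast_prod, Ideal.IsPrime.prod_mem_iff]
  rintro ⟨q, hq, hqw⟩
  obtain ⟨a1, a2, -⟩ := D.gs q (D.sub hq)
  exact not_both a1 D.gf.pos a2 h hqw

theorem Dat.exists_q {L : Type} [Field L] [NumberField L] [Algebra F L] {g W : ℕ}
    {f f₁ : (𝓞 F)[X]} {θ : L} {S J : Finset ℕ} {𝔮 : ℕ → Ideal (𝓞 F)}
    {r P : ℕ → (𝓞 F)[X]} (D : Dat g W f f₁ θ S J 𝔮 r P) {w : HeightOneSpectrum (𝓞 F)}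
    (h : ((Dp J : ℕ) : 𝓞 F) ∈ w.asIdeal) : ∃ q ∈ J, (q : 𝓞 F) ∈ w.asIdeal := by
  haveI := w.isPrime
  rwa [Dp, Nat.cast_prod, Ideal.IsPrime.prod_mem_iff] at h

/-- The field `M` is admissible. -/
theorem adm_base {M : Type} [Field M] [NumberField M] [Algebra F M] [IsGalois F M] {n : ℕ}
    (hn : Module.finrank F M = 2 ^ n)
    (h2 : ∀ w : HeightOneSpectrum (𝓞 M), (2 : 𝓞 M) ∈ w.asIdeal → Tot F w)
    (hr : ∀ σ : F →+* ℝ, ∃ ρ : M →+* ℝ, ρ.comp (algebraMap F M) = σ)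
    {L : Type} [Field L] [NumberField L] [Algebra F L] {W : ℕ}
    {f f₁ : (𝓞 F)[X]} {θ : L} {S J : Finset ℕ} {𝔮 : ℕ → Ideal (𝓞 F)}
    {r P : ℕ → (𝓞 F)[X]} (D : Dat 1 W f f₁ θ S J 𝔮 r P) (ht : f.coeff (2 * 1) = 0)
    (hS : ∀ q ∈ S, ∀ w : HeightOneSpectrum (𝓞 M), (q : 𝓞 M) ∈ w.asIdeal → Tot F w)
    (hW : ∀ w : HeightOneSpectrum (𝓞 M), ¬ Unr F w → (W : 𝓞 M) ∈ w.asIdeal)
    (hirr : ∀ v : HeightOneSpectrum (𝓞 F), (W : 𝓞 F) ∈ v.asIdeal → Irreducible (rv v f₁)) :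
    Adm F M (cf (f.scaleRoots ((Dp J : ℕ) : 𝓞 F))) := by
  have hm := D.gen.mon
  have hd := D.gen.deg
  have hcf := cf_scale hd ((Dp J : ℕ) : 𝓞 F)
  refine ⟨inferInstance, ⟨n, hn⟩, h2, ?_, hr, ?_⟩
  · intro w h3 h4
    rw [hcf] at h3 h4
    obtain ⟨q, hq, hqw⟩ := D.exists_q (dp_mem_of hm hd ht D.sqf h3 h4)
    rw [nat_mem_under] at hqw
    exact hS q (D.sub hq) w hqw
  · intro w hw
    have hWw : (W : 𝓞 F) ∈ (w.under (𝓞 F)).asIdeal := by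
      rw [nat_mem_under]
      exact hW w hw
    have e1 := Pool.Agent.N78.PF.rd_eq (Pool.Agent.N78.PF.sp_le hWw) D.one
    have h3 : Irreducible (rd (w.under (𝓞 F)).asIdeal f) := by
      rw [e1]
      exact hirr _ hWw
    rw [hcf]
    exact noroot_scale (D.dp_notMem hWw) (noroot_of_irr hm hd ht h3)

end

end Pool.Agent.H14F
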