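import Pool.Agent.H14F.Stm

/-!
# Stub RB of project F6: reduced bases in dimension three
-/

set_option autoImplicit false

namespace Pool.Agent.H14F.RB

open Finset Matrix

/-- the square of the Euclidean norm -/
def sq (f : Fin 3 → ℤ) : ℤ := f 0 ^ 2 + f 1 ^ 2 + f 2 ^ 2

/-- the sum of the squares of the norms -/
def S (e : Fin 3 → Fin 3 → ℤ) : ℤ := sq (e 0) + sq (e 1) + sq (e 2)

/-- equivalence of bases -/
def R (e e' : Fin 3 → Fin 3 → ℤ) : Prop :=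
  ∃ U V : Matrix (Fin 3) (Fin 3) ℤ, U * V = 1 ∧ V * U = 1 ∧ Matrix.of e' = U * Matrix.of e

lemma R_refl (e : Fin 3 → Fin 3 → ℤ) : R e e := ⟨1, 1, by simp, by simp, by simp⟩

lemma R_trans {e e' e'' : Fin 3 → Fin 3 → ℤ} (h : R e e') (h' : R e' e'') : R e e'' := by
  obtain ⟨U, V, h1, h2, h3⟩ := h
  obtain ⟨U', V', h1', h2', h3'⟩ := h'
  refine ⟨U' * U, V * V', ?_, ?_, ?_⟩
  · rw [Matrix.mul_assoc, ← Matrix.mul_assoc U V V', h1, Matrix.one_mul, h1']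
  · rw [Matrix.mul_assoc, ← Matrix.mul_assoc V' U' U, h2', Matrix.one_mul, h2]
  · rw [h3', h3, Matrix.mul_assoc]

lemma lin_eq (e : Fin 3 → Fin 3 → ℤ) (x : Fin 3 → ℤ) : lin e x = x ᵥ* Matrix.of e := rfl

lemma R_lin {e e' : Fin 3 → Fin 3 → ℤ} (h : R e e') :
    (∀ x, ∃ x', lin e x = lin e' x') ∧ (∀ x, ∃ x', lin e' x = lin e x') := by
  obtain ⟨U, V, h1, h2, h3⟩ := h
  constructor
  · intro x
    refine ⟨x ᵥ* V, ?_⟩
    rw [lin_eq, lin_eq, h3, ← Matrix.vecMul_vecMul, Matrix.vecMul_vecMul x V U, h2, Matrix.vecMul_one]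
  · intro x
    refine ⟨x ᵥ* U, ?_⟩
    rw [lin_eq, lin_eq, h3, Matrix.vecMul_vecMul]

lemma R_det {e e' : Fin 3 → Fin 3 → ℤ} (h : R e e') :
    (Matrix.of e').det.natAbs = (Matrix.of e).det.natAbs := by
  obtain ⟨U, V, h1, h2, h3⟩ := h
  have h4 : U.det * V.det = 1 := by rw [← Matrix.det_mul, h1, Matrix.det_one]
  have h5 : U.det.natAbs = 1 := Int.isUnit_iff_natAbs_eq.1 (IsUnit.of_mul_eq_one _ h4)
  rw [h3, Matrix.det_mul, Int.natAbs_mul, h5, one_mul]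

lemma R_perm (e : Fin 3 → Fin 3 → ℤ) (σ : Equiv.Perm (Fin 3)) : R e (e ∘ σ) := by
  refine ⟨(1 : Matrix (Fin 3) (Fin 3) ℤ).submatrix σ (Equiv.refl _),
    (1 : Matrix (Fin 3) (Fin 3) ℤ).submatrix (Equiv.refl _) σ, ?_, ?_, ?_⟩
  · rw [Matrix.submatrix_mul_equiv, Matrix.one_mul]
    exact Matrix.submatrix_one_equiv σ
  · have h : (1 : Matrix (Fin 3) (Fin 3) ℤ).submatrix (Equiv.refl _) σ *
        (1 : Matrix (Fin 3) (Fin 3) ℤ).submatrix σ (Equiv.refl _) =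
        ((1 : Matrix (Fin 3) (Fin 3) ℤ) * 1).submatrix (Equiv.refl _) (Equiv.refl _) :=
      Matrix.submatrix_mul_equiv _ _ _ _ _
    rw [h, Matrix.one_mul]
    exact Matrix.submatrix_one_equiv _
  · have h : (1 : Matrix (Fin 3) (Fin 3) ℤ).submatrix σ (Equiv.refl _) *
        (Matrix.of e).submatrix (Equiv.refl _) (Equiv.refl _) =
        ((1 : Matrix (Fin 3) (Fin 3) ℤ) * Matrix.of e).submatrix σ (Equiv.refl _) :=
      Matrix.submatrix_mul_equiv _ _ _ _ _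
    have h' : (Matrix.of e).submatrix (Equiv.refl _) (Equiv.refl _) = Matrix.of e := rfl
    rw [h'] at h
    rw [h, Matrix.one_mul]
    rfl

lemma sq_nonneg' (f : Fin 3 → ℤ) : 0 ≤ sq f := by unfold sq; positivity

lemma S_nonneg (e : Fin 3 → Fin 3 → ℤ) : 0 ≤ S e :=
  add_nonneg (add_nonneg (sq_nonneg' _) (sq_nonneg' _)) (sq_nonneg' _)

/-- the minimal basis -/
lemma exists_min (B : Fin 3 → Fin 3 → ℤ) :
    ∃ e, R B e ∧ ∀ e', R e e' → S e ≤ S e' := by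
  classical
  have hne : ∃ n : ℕ, ∃ e, R B e ∧ (S e).toNat = n := ⟨_, B, R_refl B, rfl⟩
  obtain ⟨e, he, hn⟩ := Nat.find_spec hne
  refine ⟨e, he, fun e' h' => ?_⟩
  have h1 : Nat.find hne ≤ (S e').toNat := Nat.find_min' hne ⟨e', R_trans he h', rfl⟩
  rw [← hn] at h1
  have h2 := S_nonneg e
  have h3 := S_nonneg e'
  omega

/-- the elementary moves -/
lemma R_move (e : Fin 3 → Fin 3 → ℤ) (s t : ℤ) :
    R e ![e 0, e 1, fun j => e 2 j + s * e 0 j + t * e 1 j] := by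
  refine ⟨!![1, 0, 0; 0, 1, 0; s, t, 1], !![1, 0, 0; 0, 1, 0; -s, -t, 1], ?_, ?_, ?_⟩
  · ext i j
    fin_cases i <;> fin_cases j <;> simp [Matrix.mul_apply, Fin.sum_univ_three]
  · ext i j
    fin_cases i <;> fin_cases j <;> simp [Matrix.mul_apply, Fin.sum_univ_three]
  · ext i j
    fin_cases i <;> simp [Matrix.mul_apply, Fin.sum_univ_three]
    ring

/-- the scalar product of rows -/
def ip (f g : Fin 3 → ℤ) : ℤ := f 0 * g 0 + f 1 * g 1 + f 2 * g 2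

lemma move_ineq (e : Fin 3 → Fin 3 → ℤ) (hmin : ∀ e', R e e' → S e ≤ S e') (s t : ℤ) :
    0 ≤ s ^ 2 * sq (e 0) + t ^ 2 * sq (e 1) + 2 * s * ip (e 0) (e 2) + 2 * t * ip (e 1) (e 2) +
      2 * s * t * ip (e 0) (e 1) := by
  have h := hmin _ (R_move e s t)
  simp only [S, sq, ip, Matrix.cons_val_zero, Matrix.cons_val_one, Matrix.cons_val] at h ⊢
  nlinarith [h]

lemma alg1 (a b c X Y Z : ℤ) (hX : 0 ≤ X) (hY : 0 ≤ Y) (hZ : 0 ≤ Z) (hXa : X ≤ a) (hYa : Y ≤ a)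
    (hZb : Z ≤ b) (hab : a ≤ b) (hbc : b ≤ c) (h : X + Y + Z ≤ a + b) :
    X * Y * Z + a * Z ^ 2 + b * Y ^ 2 + c * X ^ 2 ≤ 3 * (a * b * c) := by
  have ha : 0 ≤ a := hX.trans hXa
  have hb : 0 ≤ b := ha.trans hab
  have hc : 0 ≤ c := hb.trans hbc
  have h1 : X * Y + X ^ 2 + Y ^ 2 + a * Z ≤ 3 * (a * b) := by
    by_cases hs : X + Y ≤ a
    · nlinarith [mul_nonneg hX hY, mul_nonneg ha (sub_nonneg.2 hZb), mul_nonneg ha (sub_nonneg.2 hab),
        mul_nonneg ha hb, mul_nonneg (add_nonneg hX hY) (sub_nonneg.2 hs),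
        mul_nonneg ha (sub_nonneg.2 hs)]
    · push Not at hs
      have h2 : a * (X + Y - a) ≤ X * Y := by nlinarith [mul_nonneg (sub_nonneg.2 hXa) (sub_nonneg.2 hYa)]
      have h3 : (X + Y) * (X + Y - a) ≤ 2 * a * (X + Y - a) :=
        mul_le_mul_of_nonneg_right (by linarith) (by linarith)
      have h4 : a * Z ≤ a * (a + b - (X + Y)) := mul_le_mul_of_nonneg_left (by linarith) ha
      have h5 : a * (X + Y - a) ≤ a * a := mul_le_mul_of_nonneg_left (by linarith) ha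
      have h6 : a * a ≤ a * b := mul_le_mul_of_nonneg_left hab ha
      nlinarith [h2, h3, h4, h5, h6]
  have e1 : X * Y * Z ≤ X * Y * c := mul_le_mul_of_nonneg_left (hZb.trans hbc) (mul_nonneg hX hY)
  have e2 : a * Z ^ 2 ≤ a * Z * c := by
    have := mul_le_mul_of_nonneg_left (hZb.trans hbc) (mul_nonneg ha hZ)
    nlinarith [this]
  have e3 : b * Y ^ 2 ≤ c * Y ^ 2 := mul_le_mul_of_nonneg_right hbc (by positivity)
  have e4 := mul_le_mul_of_nonneg_left h1 hc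
  nlinarith [e1, e2, e3, e4]

lemma alg2 (a b c x y z : ℤ) (hx : |x| ≤ a) (hy : |y| ≤ a) (hz : |z| ≤ b) (hab : a ≤ b)
    (hbc : b ≤ c) (h : ∀ s t : ℤ, (s = 1 ∨ s = -1) → (t = 1 ∨ t = -1) →
      0 ≤ a + b + s * y + t * z + s * t * x) :
    a * b * c ≤ 4 * (a * b * c) + x * y * z - a * z ^ 2 - b * y ^ 2 - c * x ^ 2 := by
  have ha : 0 ≤ a := (abs_nonneg x).trans hx
  have hb : 0 ≤ b := ha.trans hab
  have hc : 0 ≤ c := hb.trans hbc
  have hx2 : x ^ 2 = |x| ^ 2 := (sq_abs x).symm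
  have hy2 : y ^ 2 = |y| ^ 2 := (sq_abs y).symm
  have hz2 : z ^ 2 = |z| ^ 2 := (sq_abs z).symm
  by_cases hp : 0 ≤ x * y * z
  · have e1 : a * z ^ 2 ≤ a * b * c := by
      rw [hz2]
      have h1 : |z| ^ 2 ≤ b * c := by nlinarith [abs_nonneg z]
      calc a * |z| ^ 2 ≤ a * (b * c) := mul_le_mul_of_nonneg_left h1 ha
        _ = a * b * c := by ring
    have e2 : b * y ^ 2 ≤ a * b * c := by
      rw [hy2]
      have h1 : |y| ^ 2 ≤ a * c := by nlinarith [abs_nonneg y, mul_nonneg ha (sub_nonneg.2 (hab.trans hbc))]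
      calc b * |y| ^ 2 ≤ b * (a * c) := mul_le_mul_of_nonneg_left h1 hb
        _ = a * b * c := by ring
    have e3 : c * x ^ 2 ≤ a * b * c := by
      rw [hx2]
      have h1 : |x| ^ 2 ≤ a * b := by nlinarith [abs_nonneg x]
      calc c * |x| ^ 2 ≤ c * (a * b) := mul_le_mul_of_nonneg_left h1 hc
        _ = a * b * c := by ring
    linarith
  · push Not at hp
    have hsum : |x| + |y| + |z| ≤ a + b := by
      rcases abs_cases x with ⟨h1, h1'⟩ | ⟨h1, h1'⟩ <;> rcases abs_cases y with ⟨h2, h2'⟩ | ⟨h2, h2'⟩ <;>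
        rcases abs_cases z with ⟨h3, h3'⟩ | ⟨h3, h3'⟩ <;> rw [h1, h2, h3]
      · exact absurd hp (not_lt.2 (by positivity))
      · have := h (-1) 1 (Or.inr rfl) (Or.inl rfl); linarith
      · have := h 1 (-1) (Or.inl rfl) (Or.inr rfl); linarith
      · exact absurd hp (not_lt.2 (by
          have := mul_nonneg (mul_nonneg h1' (neg_nonneg.2 h2'.le)) (neg_nonneg.2 h3'.le); nlinarith [this]))
      · have := h (-1) (-1) (Or.inr rfl) (Or.inr rfl); linarith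
      · exact absurd hp (not_lt.2 (by
          have := mul_nonneg (mul_nonneg (neg_nonneg.2 h1'.le) h2') (neg_nonneg.2 h3'.le); nlinarith [this]))
      · exact absurd hp (not_lt.2 (by
          have := mul_nonneg (mul_nonneg (neg_nonneg.2 h1'.le) (neg_nonneg.2 h2'.le)) h3'; nlinarith [this]))
      · have := h 1 1 (Or.inl rfl) (Or.inl rfl); linarith
    have h1 := alg1 a b c |x| |y| |z| (abs_nonneg _) (abs_nonneg _) (abs_nonneg _) hx hy hz hab hbc hsum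
    have h2 : |x| * |y| * |z| = -(x * y * z) := by
      rw [← abs_mul, ← abs_mul, abs_of_neg hp]
    rw [hx2, hy2, hz2]
    linarith

/-- Gram determinant -/
lemma gram (e : Fin 3 → Fin 3 → ℤ) : (Matrix.of e).det ^ 2 =
    sq (e 0) * sq (e 1) * sq (e 2) + 2 * ip (e 0) (e 1) * ip (e 0) (e 2) * ip (e 1) (e 2) -
      sq (e 0) * ip (e 1) (e 2) ^ 2 - sq (e 1) * ip (e 0) (e 2) ^ 2 - sq (e 2) * ip (e 0) (e 1) ^ 2 := by
  rw [Matrix.det_fin_three]
  simp only [Matrix.of_apply, sq, ip]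
  ring

lemma R_move2 (e : Fin 3 → Fin 3 → ℤ) (s : ℤ) :
    R e ![e 0, fun j => e 1 j + s * e 0 j, e 2] := by
  refine ⟨!![1, 0, 0; s, 1, 0; 0, 0, 1], !![1, 0, 0; -s, 1, 0; 0, 0, 1], ?_, ?_, ?_⟩
  · ext i j
    fin_cases i <;> fin_cases j <;> simp [Matrix.mul_apply, Fin.sum_univ_three]
  · ext i j
    fin_cases i <;> fin_cases j <;> simp [Matrix.mul_apply, Fin.sum_univ_three]
  · ext i j
    fin_cases i <;> simp [Matrix.mul_apply, Fin.sum_univ_three]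
    ring

lemma move2_ineq (e : Fin 3 → Fin 3 → ℤ) (hmin : ∀ e', R e e' → S e ≤ S e') (s : ℤ) :
    0 ≤ s ^ 2 * sq (e 0) + 2 * s * ip (e 0) (e 1) := by
  have h := hmin _ (R_move2 e s)
  simp only [S, sq, ip, Matrix.cons_val_zero, Matrix.cons_val_one, Matrix.cons_val] at h ⊢
  nlinarith [h]

lemma sorted_bound (e : Fin 3 → Fin 3 → ℤ) (hmin : ∀ e', R e e' → S e ≤ S e')
    (h01 : sq (e 0) ≤ sq (e 1)) (h12 : sq (e 1) ≤ sq (e 2)) :
    sq (e 0) * sq (e 1) * sq (e 2) ≤ 4 * (Matrix.of e).det ^ 2 := by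
  rw [gram]
  have hx : |2 * ip (e 0) (e 1)| ≤ sq (e 0) := by
    have h1 := move2_ineq e hmin 1
    have h2 := move2_ineq e hmin (-1)
    rw [abs_le]; constructor <;> linarith
  have hy : |2 * ip (e 0) (e 2)| ≤ sq (e 0) := by
    have h1 := move_ineq e hmin 1 0
    have h2 := move_ineq e hmin (-1) 0
    rw [abs_le]; constructor <;> linarith
  have hz : |2 * ip (e 1) (e 2)| ≤ sq (e 1) := by
    have h1 := move_ineq e hmin 0 1
    have h2 := move_ineq e hmin 0 (-1)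
    rw [abs_le]; constructor <;> linarith
  have h := alg2 (sq (e 0)) (sq (e 1)) (sq (e 2)) _ _ _ hx hy hz h01 h12 (by
    intro s t hs ht
    have h1 := move_ineq e hmin s t
    have hs2 : s ^ 2 = 1 := by rcases hs with rfl | rfl <;> norm_num
    have ht2 : t ^ 2 = 1 := by rcases ht with rfl | rfl <;> norm_num
    rw [hs2, ht2] at h1
    nlinarith [h1])
  nlinarith [h]

lemma minimal_perm (e : Fin 3 → Fin 3 → ℤ) (hmin : ∀ e', R e e' → S e ≤ S e')
    (σ : Equiv.Perm (Fin 3)) : ∀ e', R (e ∘ σ) e' → S (e ∘ σ) ≤ S e' := by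
  intro e' h'
  have h1 := hmin e' (R_trans (R_perm e σ) h')
  have h2 : S (e ∘ σ) = S e := by
    have h3 : ∀ d : Fin 3 → Fin 3 → ℤ, S d = ∑ i, sq (d i) := fun d => by
      rw [Fin.sum_univ_three]; rfl
    rw [h3, h3]
    exact Equiv.sum_comp σ fun i => sq (e i)
  rw [h2]; exact h1

lemma prod_perm (v : Fin 3 → ℤ) (σ : Equiv.Perm (Fin 3)) :
    v (σ 0) * v (σ 1) * v (σ 2) = v 0 * v 1 * v 2 := by
  rw [← Fin.prod_univ_three, ← Fin.prod_univ_three fun i => v (σ i)]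
  exact Equiv.prod_comp σ v

lemma prod_perm' (v : Fin 3 → ℕ) (σ : Equiv.Perm (Fin 3)) :
    v (σ 0) * v (σ 1) * v (σ 2) = v 0 * v 1 * v 2 := by
  rw [← Fin.prod_univ_three, ← Fin.prod_univ_three fun i => v (σ i)]
  exact Equiv.prod_comp σ v

lemma bound (e : Fin 3 → Fin 3 → ℤ) (hmin : ∀ e', R e e' → S e ≤ S e') :
    sq (e 0) * sq (e 1) * sq (e 2) ≤ 4 * (Matrix.of e).det ^ 2 := by
  have hm := Tuple.monotone_sort fun i => sq (e i)
  have h1 := sorted_bound (e ∘ Tuple.sort fun i => sq (e i)) (minimal_perm e hmin _)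
    (hm (by decide : (0 : Fin 3) ≤ 1)) (hm (by decide : (1 : Fin 3) ≤ 2))
  have h2 := prod_perm (fun i => sq (e i)) (Tuple.sort fun i => sq (e i))
  have h3 := R_det (R_perm e (Tuple.sort fun i => sq (e i)))
  have h4 : (Matrix.of (e ∘ Tuple.sort fun i => sq (e i))).det ^ 2 = (Matrix.of e).det ^ 2 := by
    rw [← Int.natAbs_sq, h3, Int.natAbs_sq]
  rw [h4] at h1
  exact h2 ▸ h1

lemma nrm_sq (f : Fin 3 → ℤ) : ((nrm f : ℕ) : ℤ) ^ 2 ≤ sq f := by
  obtain ⟨i, -, hi⟩ := Finset.exists_mem_eq_sup (univ : Finset (Fin 3)) ⟨0, mem_univ _⟩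
    fun i => (f i).natAbs
  have h : ((nrm f : ℕ) : ℤ) ^ 2 = f i ^ 2 := by
    unfold nrm
    rw [hi, Int.natAbs_sq]
  rw [h]
  have g0 := sq_nonneg (f 0)
  have g1 := sq_nonneg (f 1)
  have g2 := sq_nonneg (f 2)
  unfold sq
  fin_cases i
  · change f 0 ^ 2 ≤ _; linarith
  · change f 1 ^ 2 ≤ _; linarith
  · change f 2 ^ 2 ≤ _; linarith

lemma le_nrm (f : Fin 3 → ℤ) (i : Fin 3) : (f i).natAbs ≤ nrm f :=
  Finset.le_sup (f := fun i => (f i).natAbs) (mem_univ i)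

lemma prod_bound (e : Fin 3 → Fin 3 → ℤ) (hmin : ∀ e', R e e' → S e ≤ S e') :
    nrm (e 0) * nrm (e 1) * nrm (e 2) ≤ 2 * (Matrix.of e).det.natAbs := by
  have h := bound e hmin
  have h1 : ((nrm (e 0) * nrm (e 1) * nrm (e 2) : ℕ) : ℤ) ^ 2 ≤
      ((2 * (Matrix.of e).det.natAbs : ℕ) : ℤ) ^ 2 := by
    push_cast
    have h2 : (2 * |(Matrix.of e).det|) ^ 2 = 4 * (Matrix.of e).det ^ 2 := by
      rw [mul_pow, sq_abs]; norm_num
    rw [h2]
    refine le_trans ?_ h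
    rw [mul_pow, mul_pow]
    exact mul_le_mul (mul_le_mul (nrm_sq _) (nrm_sq _) (by positivity) (sq_nonneg' _)) (nrm_sq _)
      (by positivity) (mul_nonneg (sq_nonneg' _) (sq_nonneg' _))
  have h2 := (sq_le_sq₀ (by positivity) (by positivity)).1 h1
  exact_mod_cast h2

/-- bound for a determinant -/
lemma det_bound (u v w : Fin 3 → ℤ) :
    (Matrix.of ![u, v, w]).det.natAbs ≤ 6 * (nrm u * nrm v * nrm w) := by
  have hb : ∀ i j k : Fin 3, |u i * v j * w k| ≤ ((nrm u * nrm v * nrm w : ℕ) : ℤ) := by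
    intro i j k
    rw [abs_mul, abs_mul]
    have h1 := le_nrm u i
    have h2 := le_nrm v j
    have h3 := le_nrm w k
    have h := Nat.mul_le_mul (Nat.mul_le_mul h1 h2) h3
    calc |u i| * |v j| * |w k| = (((u i).natAbs * (v j).natAbs * (w k).natAbs : ℕ) : ℤ) := by push_cast; rfl
      _ ≤ _ := by exact_mod_cast h
  have h6 : |(Matrix.of ![u, v, w]).det| ≤ 6 * ((nrm u * nrm v * nrm w : ℕ) : ℤ) := by
    have e1 : (Matrix.of ![u, v, w]).det = u 0 * v 1 * w 2 - u 0 * v 2 * w 1 - u 1 * v 0 * w 2 +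
        u 1 * v 2 * w 0 + u 2 * v 0 * w 1 - u 2 * v 1 * w 0 := by
      rw [Matrix.det_fin_three]; rfl
    rw [e1]
    have a1 := abs_le.1 (hb 0 1 2)
    have a2 := abs_le.1 (hb 0 2 1)
    have a3 := abs_le.1 (hb 1 0 2)
    have a4 := abs_le.1 (hb 1 2 0)
    have a5 := abs_le.1 (hb 2 0 1)
    have a6 := abs_le.1 (hb 2 1 0)
    rw [abs_le]; constructor <;> linarith [a1.1, a1.2, a2.1, a2.2, a3.1, a3.2, a4.1, a4.2, a5.1, a5.2, a6.1, a6.2]
  have : (((Matrix.of ![u, v, w]).det.natAbs : ℕ) : ℤ) ≤ ((6 * (nrm u * nrm v * nrm w) : ℕ) : ℤ) := by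
    push_cast
    push_cast at h6
    exact h6
  exact_mod_cast this

lemma cramer (e : Fin 3 → Fin 3 → ℤ) (x : Fin 3 → ℤ) :
    x 0 * (Matrix.of e).det = (Matrix.of ![lin e x, e 1, e 2]).det ∧
    x 1 * (Matrix.of e).det = (Matrix.of ![e 0, lin e x, e 2]).det ∧
    x 2 * (Matrix.of e).det = (Matrix.of ![e 0, e 1, lin e x]).det := by
  have hl : ∀ j, lin e x j = x 0 * e 0 j + x 1 * e 1 j + x 2 * e 2 j := fun j => by
    unfold lin; rw [Fin.sum_univ_three]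
  refine ⟨?_, ?_, ?_⟩
  · rw [Matrix.det_fin_three, Matrix.det_fin_three]
    simp [hl]
    ring
  · rw [Matrix.det_fin_three, Matrix.det_fin_three]
    simp [hl]
    ring
  · rw [Matrix.det_fin_three, Matrix.det_fin_three]
    simp [hl]
    ring

lemma coord (e : Fin 3 → Fin 3 → ℤ) (hd : (Matrix.of e).det ≠ 0)
    (hp : nrm (e 0) * nrm (e 1) * nrm (e 2) ≤ 2 * (Matrix.of e).det.natAbs) (x : Fin 3 → ℤ) (i : Fin 3) :
    (x i).natAbs * nrm (e i) ≤ 12 * nrm (lin e x) := by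
  have hd' : 0 < (Matrix.of e).det.natAbs := Int.natAbs_pos.2 hd
  obtain ⟨h0, h1, h2⟩ := cramer e x
  have k0 := det_bound (lin e x) (e 1) (e 2)
  have k1 := det_bound (e 0) (lin e x) (e 2)
  have k2 := det_bound (e 0) (e 1) (lin e x)
  rw [← h0, Int.natAbs_mul] at k0
  rw [← h1, Int.natAbs_mul] at k1
  rw [← h2, Int.natAbs_mul] at k2
  set D := (Matrix.of e).det.natAbs
  set n := nrm (lin e x)
  have key : (x i).natAbs * nrm (e i) * D ≤ 6 * n * (nrm (e 0) * nrm (e 1) * nrm (e 2)) := by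
    fin_cases i
    · calc (x 0).natAbs * nrm (e 0) * D = (x 0).natAbs * D * nrm (e 0) := by ring
        _ ≤ 6 * (n * nrm (e 1) * nrm (e 2)) * nrm (e 0) := Nat.mul_le_mul_right _ k0
        _ = _ := by ring
    · calc (x 1).natAbs * nrm (e 1) * D = (x 1).natAbs * D * nrm (e 1) := by ring
        _ ≤ 6 * (nrm (e 0) * n * nrm (e 2)) * nrm (e 1) := Nat.mul_le_mul_right _ k1
        _ = _ := by ring
    · calc (x 2).natAbs * nrm (e 2) * D = (x 2).natAbs * D * nrm (e 2) := by ring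
        _ ≤ 6 * (nrm (e 0) * nrm (e 1) * n) * nrm (e 2) := Nat.mul_le_mul_right _ k2
        _ = _ := by ring
  refine Nat.le_of_mul_le_mul_right (key.trans ?_) hd'
  calc 6 * n * (nrm (e 0) * nrm (e 1) * nrm (e 2)) ≤ 6 * n * (2 * D) := Nat.mul_le_mul_left _ hp
    _ = 12 * n * D := by ring

theorem t : RB := by
  refine ⟨12, fun B hB => ?_⟩
  obtain ⟨e₀, hR₀, hmin₀⟩ := exists_min B
  have hm := Tuple.monotone_sort fun i => nrm (e₀ i)
  obtain ⟨e, he⟩ : ∃ e, e = e₀ ∘ Tuple.sort fun i => nrm (e₀ i) := ⟨_, rfl⟩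
  have hR : R B e := by rw [he]; exact R_trans hR₀ (R_perm e₀ _)
  have hmin : ∀ e', R e e' → S e ≤ S e' := by rw [he]; exact minimal_perm e₀ hmin₀ _
  have hdet := R_det hR
  have hd : (Matrix.of e).det ≠ 0 := by
    rw [← Int.natAbs_pos, hdet]; exact Int.natAbs_pos.2 hB
  have hp := prod_bound e hmin
  obtain ⟨l1, l2⟩ := R_lin hR
  refine ⟨e, l1, l2, hdet, ?_, ?_, ?_, ?_⟩
  · rw [he]; exact hm (by decide : (0 : Fin 3) ≤ 1)
  · rw [he]; exact hm (by decide : (1 : Fin 3) ≤ 2)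
  · rw [← hdet]; omega
  · exact fun x i => coord e hd hp x i

end Pool.Agent.H14F.RB
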