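import Pool.Agent.H14F.StmB
import Pool.Agent.H14F.RB

/-!
# Project F6: the stub BAS
-/

set_option autoImplicit false

namespace Pool.Agent.H14F.BAS

open Finset

/-- the basis of the lattice -/
def bas (δ δ' ρ : ℕ) : Fin 3 → Fin 3 → ℤ := ![![δ, 0, 0], ![-ρ, 1, 0], ![-(δ' * ρ ^ 2), 0, δ']]

theorem det_bas (δ δ' ρ : ℕ) : (Matrix.of (bas δ δ' ρ)).det = δ * δ' := by
  rw [Matrix.det_fin_three]
  simp [bas]

theorem lat_bas (δ δ' ρ : ℕ) (f : Fin 3 → ℤ) : Lat δ δ' ρ f ↔ ∃ x, f = lin (bas δ δ' ρ) x := by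
  constructor
  · rintro ⟨⟨a, ha⟩, b, hb⟩
    refine ⟨![a, f 1, b], ?_⟩
    funext j
    unfold lin
    rw [Fin.sum_univ_three]
    fin_cases j
    · simp [bas]
      rw [hb] at ha
      linarith
    · simp [bas]
    · simp [bas]
      linarith
  · rintro ⟨x, rfl⟩
    unfold Lat lin
    simp only [Fin.sum_univ_three]
    simp only [bas, Matrix.cons_val_zero, Matrix.cons_val_one, Matrix.cons_val]
    exact ⟨⟨x 0, by ring⟩, ⟨x 2, by ring⟩⟩

theorem t : Pool.Agent.H14F.BAS := by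
  obtain ⟨C, hC⟩ := Pool.Agent.H14F.RB.t
  refine ⟨C + 1, by omega, fun δ δ' ρ hδ hδ' => ?_⟩
  have hex : ∃ e, Rd (C + 1) δ δ' ρ e := by
    have hd : (Matrix.of (bas δ δ' ρ)).det.natAbs = δ * δ' := by
      rw [det_bas]
      rw [← Nat.cast_mul, Int.natAbs_natCast]
    have hne : (Matrix.of (bas δ δ' ρ)).det ≠ 0 := by
      rw [det_bas]
      positivity
    obtain ⟨e, h1, h2, h3, h4, h5, h6, h7⟩ := hC (bas δ δ' ρ) hne
    refine ⟨e, ?_, ?_, h4, h5, ?_, ?_⟩
    · intro f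
      rw [lat_bas]
      constructor
      · rintro ⟨x, rfl⟩
        exact h1 x
      · rintro ⟨x, rfl⟩
        exact h2 x
    · rw [h3, hd]
    · rw [hd] at h6
      nlinarith
    · intro x i
      have := h7 x i
      nlinarith
  unfold eb
  rw [dif_pos hex]
  exact hex.choose_spec

end Pool.Agent.H14F.BAS
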