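import Pool.Agent.H14F.Rt
import Pool.Agent.W313.BMX.Final

/-!
# F6 stub BM: the Brauer-Manin set of the curves with a certificate is empty
-/

set_option autoImplicit false

namespace Pool.Agent.H14F.BM

open Polynomial Pool.Agent.W313.BMX Pool.Agent.H14F

theorem facF_zero (F : ℤ[X]) (f g : Fin 3 → ℤ) :
    facF F f g 0 = C (f 0) * F ^ 2 + C (f 1) * F + C (f 2) := rfl

theorem facF_one (F : ℤ[X]) (f g : Fin 3 → ℤ) :
    facF F f g 1 = C (g 0) * F ^ 2 + C (g 1) * F + C (g 2) := rfl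

theorem deg_lc {F : ℤ[X]} (hF : 1 ≤ F.natDegree) {f : Fin 3 → ℤ} (hf : f 0 ≠ 0) :
    (C (f 0) * F ^ 2 + C (f 1) * F + C (f 2)).natDegree = F.natDegree * 2 ∧
    (C (f 0) * F ^ 2 + C (f 1) * F + C (f 2)).leadingCoeff = f 0 * F.leadingCoeff ^ 2 := by
  have hF0 : F ≠ 0 := by
    rintro rfl
    simp at hF
  have d1 : (C (f 0) * F ^ 2).natDegree = F.natDegree * 2 := by
    rw [natDegree_C_mul hf, natDegree_pow, mul_comm]
  have d2 : (C (f 1) * F + C (f 2)).natDegree ≤ F.natDegree := by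
    refine (natDegree_add_le _ _).trans (max_le ?_ (by simp))
    exact natDegree_C_mul_le _ _
  have d3 : (C (f 1) * F + C (f 2)).natDegree < (C (f 0) * F ^ 2).natDegree := by omega
  rw [add_assoc]
  refine ⟨by rw [natDegree_add_eq_left_of_natDegree_lt d3, d1], ?_⟩
  rw [leadingCoeff_add_of_degree_lt' (degree_lt_degree d3), leadingCoeff_mul, leadingCoeff_C,
    leadingCoeff_pow]

theorem homs {F : ℤ[X]} (hF : 1 ≤ F.natDegree) {f g : Fin 3 → ℤ} (hf : f 0 ≠ 0) (hg : g 0 ≠ 0)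
    {K : Type} [Field K] [CharZero K] {x w : K} (h : x ≠ 0 ∨ w ≠ 0) :
    ∃ ξ η : K, (ξ ≠ 0 ∨ η ≠ 0) ∧ homog (facF F f g 0) x w = ev f ξ η ∧
      homog (facF F f g 1) x w = ev g ξ η := by
  have hF0 : F ≠ 0 := by
    rintro rfl
    simp at hF
  obtain ⟨a1, a2⟩ := deg_lc hF hf
  obtain ⟨b1, b2⟩ := deg_lc hF hg
  by_cases hw : w = 0
  · subst hw
    have hx : x ≠ 0 := h.resolve_right (fun h => h rfl)
    refine ⟨(F.leadingCoeff : K) * x ^ F.natDegree, 0, Or.inl ?_, ?_, ?_⟩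
    · refine mul_ne_zero ?_ (pow_ne_zero _ hx)
      exact_mod_cast leadingCoeff_ne_zero.2 hF0
    · rw [facF_zero, Pool.Agent.W930.BMX.homog_zero, a1, a2]
      unfold ev
      push_cast
      ring
    · rw [facF_one, Pool.Agent.W930.BMX.homog_zero, b1, b2]
      unfold ev
      push_cast
      ring
  · refine ⟨w ^ F.natDegree * F.eval₂ (Int.castRingHom K) (x / w), w ^ F.natDegree,
      Or.inr (pow_ne_zero _ hw), ?_, ?_⟩
    · rw [facF_zero, Pool.Agent.W930.BMX.homog_div _ hw, a1, eval₂_add, eval₂_add, eval₂_mul,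
        eval₂_mul, eval₂_pow, eval₂_C, eval₂_C, eval₂_C, eq_intCast, eq_intCast, eq_intCast]
      unfold ev
      ring
    · rw [facF_one, Pool.Agent.W930.BMX.homog_div _ hw, b1, eval₂_add, eval₂_add, eval₂_mul,
        eval₂_mul, eval₂_pow, eval₂_C, eval₂_C, eval₂_C, eq_intCast, eq_intCast, eq_intCast]
      unfold ev
      ring

theorem val_spec {F : ℤ[X]} (hF : 1 ≤ F.natDegree) {f g : Fin 3 → ℤ} (hf : f 0 ≠ 0) (hg : g 0 ≠ 0)
    (hr : res f g ≠ 0) {K : Type} [Field K] [CharZero K] (P : Point (facF F f g) 1 K) :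
    ∃ ξ η A B : K, (ξ ≠ 0 ∨ η ≠ 0) ∧ value P 0 ≠ 0 ∧
      ev f ξ η = value P 0 * A ^ 2 ∧ ev g ξ η = value P 0 * B ^ 2 := by
  obtain ⟨ξ, η, h1, h2, h3⟩ := homs hF hf hg P.ne
  have heq := P.eq
  rw [Fin.prod_univ_two, Int.cast_one, one_mul] at heq
  by_cases hA : homog (facF F f g 0) P.x P.w = 0
  · have hv : value P 0 = homog (facF F f g 1) P.x P.w := by
      unfold value
      rw [if_neg (by simpa using hA)]
      have : (Finset.univ : Finset (Fin 2)).erase 0 = {1} := by decide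
      rw [this, Finset.prod_singleton, Int.cast_one, one_mul]
    have hB : homog (facF F f g 1) P.x P.w ≠ 0 := by
      intro hB
      rw [h2] at hA
      rw [h3] at hB
      exact not_both hr h1 hA hB
    refine ⟨ξ, η, 0, 1, h1, by rw [hv]; exact hB, ?_, ?_⟩
    · rw [← h2, hA]
      ring
    · rw [← h3, hv]
      ring
  · have hv : value P 0 = homog (facF F f g 0) P.x P.w := by
      unfold value
      rw [if_pos hA]
    refine ⟨ξ, η, 1, P.y / homog (facF F f g 0) P.x P.w, h1, by rw [hv]; exact hA, ?_, ?_⟩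
    · rw [← h2, hv]
      ring
    · rw [← h3, hv]
      field_simp
      linear_combination -heq

theorem val_even {p : ℕ} [hp : Fact p.Prime] {f g : Fin 3 → ℤ} (hpr : ¬ (p : ℤ) ∣ res f g)
    {ξ η A B α : ℚ_[p]} (hα : α ≠ 0) (h1 : ev f ξ η = α * A ^ 2) (h2 : ev g ξ η = α * B ^ 2)
    (h : ξ ≠ 0 ∨ η ≠ 0) : ∃ (m' : ℤ) (c : ℚ_[p]), ¬ (p : ℤ) ∣ m' ∧ α = m' * c ^ 2 := by
  obtain ⟨t, m', c, ht, hm', hc, hα'⟩ := Pool.Agent.W310.BMX.odd4 p α hα
  have hp1 : (1 : ℝ) < p := by exact_mod_cast hp.out.one_lt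
  rcases Nat.le_one_iff_eq_zero_or_eq_one.1 ht with rfl | rfl
  · exact ⟨m', c, hm', by rw [hα']; push_cast; ring⟩
  · exfalso
    have hmn : ‖(m' : ℚ_[p])‖ = 1 := by
      refine le_antisymm (Padic.norm_int_le_one m') (not_lt.1 fun hlt => hm' ?_)
      refine (PadicInt.norm_int_lt_one_iff_dvd (p := p) m').1 ?_
      rw [PadicInt.norm_def]
      exact_mod_cast hlt
    have hβ : (p : ℝ)⁻¹ ≤ ‖(((p : ℤ) * m' : ℤ) : ℚ_[p])‖ := by
      push_cast
      rw [norm_mul, hmn, Padic.norm_p, mul_one]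
    obtain ⟨x, w, u, v, h3, h4, h5⟩ := prim (f := f) (g := g) (A := c * A) (B := c * B) hβ h
      (by rw [h1, hα']; push_cast; ring) (by rw [h2, hα']; push_cast; ring)
    obtain ⟨-, h6⟩ := not_obs h3 h4 h5
    exact hpr (dvd_res hp.out (h6 (dvd_mul_right _ _)))

/-- every adelic point is obstructed -/
theorem bm_empty {F : ℤ[X]} (hF : 1 ≤ F.natDegree) {f g : Fin 3 → ℤ} (hf : f 0 ≠ 0) (hg : g 0 ≠ 0)
    (hc : Cert f g) (P : AdelicPoint (facF F f g) 1) :
    ∃ e : ℤ, IsTest e ∧ Odd (ram (values P 0) e).ncard := by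
  classical
  have hr := hc.1
  by_contra hcon
  push Not at hcon
  have hR := val_spec hF hf hg hr P.re
  have hQ := fun p : Nat.Primes => val_spec hF hf hg hr (P.pa p)
  obtain ⟨N, hN, -, hNp⟩ := hexact (values P 0) (by
      obtain ⟨_, _, _, _, _, h, _⟩ := hR
      exact h) (by
      intro p
      obtain ⟨_, _, _, _, _, h, _⟩ := hQ p
      exact h) (by
      have hfin : {p : Nat.Primes | ((p : ℕ) : ℤ) ∣ res f g}.Finite := by
        have h1 : ((res f g).natAbs.primeFactors : Set ℕ).Finite := Finset.finite_toSet _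
        refine (h1.preimage (Subtype.val_injective.injOn (s := Set.univ) |>.mono
          (Set.subset_univ _))).subset ?_
        intro p hp
        simp only [Set.mem_preimage, Finset.mem_coe, Nat.mem_primeFactors]
        exact ⟨p.2, Int.natCast_dvd.1 hp, Int.natAbs_ne_zero.2 hr⟩
      refine hfin.subset ?_
      intro p hp
      by_contra hpk
      obtain ⟨ξ, η, A1, B1, h1, h3, h4, h5⟩ := hQ p
      obtain ⟨m', c', h8, h9⟩ := val_even hpk h3 h4 h5 h1
      exact hp m' c' h8 h9) (by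
      intro e he _
      rw [← Nat.not_odd_iff_even]
      exact hcon e he)
  refine cert_local hc hN ?_
  intro p hpf
  obtain ⟨ξ, η, A1, B1, h1, h3, h4, h5⟩ := hQ ⟨p, hpf.out⟩
  obtain ⟨t, ht⟩ := hNp ⟨p, hpf.out⟩
  have hN0 : (N : ℚ_[p]) ≠ 0 := by exact_mod_cast hN.ne_zero
  have hval : value (P.pa ⟨p, hpf.out⟩) 0 = (N : ℚ_[p]) * (t / N) ^ 2 := by
    have : value (P.pa ⟨p, hpf.out⟩) 0 * (N : ℚ_[p]) = t * t := ht
    field_simp
    linear_combination this
  rw [hval] at h4 h5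
  exact ⟨ξ, η, t / (N : ℚ_[p]) * A1, t / (N : ℚ_[p]) * B1, h1, by rw [h4]; ring, by rw [h5]; ring⟩

theorem t : Pool.Agent.H14F.BM := by
  intro F f g hF hf hg hc
  refine ⟨bm_empty hF hf hg hc, ⟨fun P => ?_⟩⟩
  obtain ⟨ξ, η, A, B, h1, h2, h3, h4⟩ := val_spec hF hf hg hc.1 P
  exact no_val hc h2 h1 h3 h4

end Pool.Agent.H14F.BM
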