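import Pool.Agent.H14F.Stm
import Pool.Agent.Helper742.Brun

/-!
# Project F6: stub BRUN (Brun's pure sieve in dimension six, periods `p²`)
-/

set_option autoImplicit false

namespace Pool.Agent.H14F.BRUN

open Finset

/-- number of integers of a class modulo `q` in `[-N, N]` -/
lemma cnt (q : ℕ) (hq : 0 < q) (N : ℕ) (v : ℤ) :
    (2 * (N : ℝ) + 1) / q - 1 ≤ (((Icc (-(N : ℤ)) N).filter fun x => x % q = v % q).card : ℝ) ∧
    (((Icc (-(N : ℤ)) N).filter fun x => x % q = v % q).card : ℝ) ≤ (2 * (N : ℝ) + 1) / q + 1 := by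
  have hq' : (0 : ℤ) < q := by exact_mod_cast hq
  have hqQ : (0 : ℚ) < ((q : ℤ) : ℚ) := by exact_mod_cast hq
  have h1 : Icc (-(N : ℤ)) N = Ioc (-(N : ℤ) - 1) N := by
    ext x; simp only [mem_Icc, mem_Ioc]; omega
  have h2 := Int.Ioc_filter_modEq_card (-(N : ℤ) - 1) N hq' v
  have h3 : ((Icc (-(N : ℤ)) N).filter fun x => x % q = v % q) =
      ((Ioc (-(N : ℤ) - 1) N).filter fun x => x ≡ v [ZMOD (q : ℤ)]) := by
    rw [h1]; rfl
  rw [h3]
  set D := ⌊(((N : ℤ) : ℚ) - v) / ((q : ℤ) : ℚ)⌋ - ⌊(((-(N : ℤ) - 1 : ℤ) : ℚ) - v) / ((q : ℤ) : ℚ)⌋ with hD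
  have h4 : (((Ioc (-(N : ℤ) - 1) N).filter fun x => x ≡ v [ZMOD (q : ℤ)]).card : ℤ) = max D 0 := h2
  have a1 := Int.floor_le ((((N : ℤ) : ℚ) - v) / ((q : ℤ) : ℚ))
  have a2 := Int.lt_floor_add_one ((((N : ℤ) : ℚ) - v) / ((q : ℤ) : ℚ))
  have b1 := Int.floor_le ((((-(N : ℤ) - 1 : ℤ) : ℚ) - v) / ((q : ℤ) : ℚ))
  have b2 := Int.lt_floor_add_one ((((-(N : ℤ) - 1 : ℤ) : ℚ) - v) / ((q : ℤ) : ℚ))
  have e : (((N : ℤ) : ℚ) - v) / ((q : ℤ) : ℚ) - (((-(N : ℤ) - 1 : ℤ) : ℚ) - v) / ((q : ℤ) : ℚ) =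
      (2 * (N : ℚ) + 1) / q := by
    push_cast
    rw [← sub_div]
    congr 1
    ring
  have c1 : (D : ℚ) ≤ (2 * (N : ℚ) + 1) / q + 1 := by
    rw [hD]; push_cast; push_cast at a1 a2 b1 b2 e; linarith
  have c2 : (2 * (N : ℚ) + 1) / q - 1 ≤ (D : ℚ) := by
    rw [hD]; push_cast; push_cast at a1 a2 b1 b2 e; linarith
  have c3 : (0 : ℚ) ≤ (2 * (N : ℚ) + 1) / q + 1 := by positivity
  have h5 : ((((Ioc (-(N : ℤ) - 1) N).filter fun x => x ≡ v [ZMOD (q : ℤ)]).card : ℤ) : ℚ) = max (D : ℚ) 0 := by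
    rw [h4]; push_cast; rfl
  have h6 : (2 * (N : ℚ) + 1) / q - 1 ≤
      (((Ioc (-(N : ℤ) - 1) N).filter fun x => x ≡ v [ZMOD (q : ℤ)]).card : ℚ) := by
    have : (((Ioc (-(N : ℤ) - 1) N).filter fun x => x ≡ v [ZMOD (q : ℤ)]).card : ℚ) = max (D : ℚ) 0 := by
      rw [← h5]; norm_cast
    rw [this]
    exact c2.trans (le_max_left _ _)
  have h7 : (((Ioc (-(N : ℤ) - 1) N).filter fun x => x ≡ v [ZMOD (q : ℤ)]).card : ℚ) ≤
      (2 * (N : ℚ) + 1) / q + 1 := by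
    have : (((Ioc (-(N : ℤ) - 1) N).filter fun x => x ≡ v [ZMOD (q : ℤ)]).card : ℚ) = max (D : ℚ) 0 := by
      rw [← h5]; norm_cast
    rw [this]
    exact max_le c1 c3
  constructor
  · have := (Rat.cast_le (K := ℝ)).2 h6
    push_cast at this
    exact this
  · have := (Rat.cast_le (K := ℝ)).2 h7
    push_cast at this
    exact this

/-- fibres over the classes -/
lemma fib (q : ℕ) (hq : 0 < q) (N : Fin 3 → ℕ) (G : (Fin 3 → ℤ) → ℝ)
    (hG : ∀ f f' : Fin 3 → ℤ, (∀ i, (q : ℤ) ∣ f i - f' i) → G f = G f') :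
    ∑ f ∈ rbox N, G f = ∑ a ∈ cls q, G a *
      ∏ i, (((Icc (-(N i : ℤ)) (N i)).filter fun x => x % q = a i % q).card : ℝ) := by
  have hq' : (0 : ℤ) < q := by exact_mod_cast hq
  have hmap : ∀ f ∈ rbox N, (fun i => f i % (q : ℤ)) ∈ cls q := by
    intro f _
    rw [cls, Fintype.mem_piFinset]
    intro i
    rw [mem_Ico]
    exact ⟨Int.emod_nonneg _ hq'.ne', Int.emod_lt_of_pos _ hq'⟩
  rw [← Finset.sum_fiberwise_of_maps_to hmap]
  apply Finset.sum_congr rfl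
  intro a ha
  have ha' : ∀ i, a i % (q : ℤ) = a i := by
    intro i
    rw [cls, Fintype.mem_piFinset] at ha
    have := mem_Ico.1 (ha i)
    exact Int.emod_eq_of_lt this.1 this.2
  have h1 : ∀ f ∈ (rbox N).filter (fun f => (fun i => f i % (q : ℤ)) = a), G f = G a := by
    intro f hf
    rw [mem_filter] at hf
    apply hG
    intro i
    rw [← hf.2]
    exact Int.dvd_self_sub_emod
  rw [Finset.sum_congr rfl h1, Finset.sum_const, nsmul_eq_mul, mul_comm]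
  congr 1
  have h2 : (rbox N).filter (fun f => (fun i => f i % (q : ℤ)) = a) =
      Fintype.piFinset fun i => (Icc (-(N i : ℤ)) (N i)).filter fun x => x % q = a i % q := by
    ext f
    simp only [rbox, mem_filter, Fintype.mem_piFinset, funext_iff, ha']
    exact forall_and.symm
  rw [h2, Fintype.card_piFinset]
  push_cast
  rfl

lemma one_dim (q M : ℕ) (N : Fin 3 → ℕ) (hq : 0 < q) (hqM : q ≤ M) (hM : ∀ i, M ≤ N i)
    (G : (Fin 3 → ℤ) → ℝ) (h0 : ∀ f, 0 ≤ G f)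
    (hG : ∀ f f' : Fin 3 → ℤ, (∀ i, (q : ℤ) ∣ f i - f' i) → G f = G f') :
    (∑ a ∈ cls q, G a) * ((∏ i, (2 * (N i : ℝ) + 1)) / (q : ℝ) ^ 3 * (1 - (q : ℝ) / (2 * M)) ^ 3) ≤
      ∑ f ∈ rbox N, G f ∧
    ∑ f ∈ rbox N, G f ≤
      (∑ a ∈ cls q, G a) * ((∏ i, (2 * (N i : ℝ) + 1)) / (q : ℝ) ^ 3 * (1 + (q : ℝ) / (2 * M)) ^ 3) := by
  have hqR : (0 : ℝ) < q := by exact_mod_cast hq
  have hMR : (0 : ℝ) < M := by exact_mod_cast lt_of_lt_of_le hq hqM
  have hqM' : (q : ℝ) ≤ M := by exact_mod_cast hqM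
  have hd1 : (q : ℝ) / (2 * M) ≤ 1 := by
    rw [div_le_one (by positivity)]; linarith
  have key1 : ∀ i, (2 * (N i : ℝ) + 1) / q + 1 ≤ (2 * (N i : ℝ) + 1) / q * (1 + (q : ℝ) / (2 * M)) := by
    intro i
    have : (M : ℝ) ≤ N i := by exact_mod_cast hM i
    have h2 : (2 * (N i : ℝ) + 1) / q * ((q : ℝ) / (2 * M)) = (2 * (N i : ℝ) + 1) / (2 * M) := by
      field_simp
    have h3 : 1 ≤ (2 * (N i : ℝ) + 1) / (2 * M) := by
      rw [le_div_iff₀ (by positivity)]; linarith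
    rw [mul_add, mul_one, h2]
    linarith
  have key2 : ∀ i, (2 * (N i : ℝ) + 1) / q * (1 - (q : ℝ) / (2 * M)) ≤ (2 * (N i : ℝ) + 1) / q - 1 := by
    intro i
    have : (M : ℝ) ≤ N i := by exact_mod_cast hM i
    have h2 : (2 * (N i : ℝ) + 1) / q * ((q : ℝ) / (2 * M)) = (2 * (N i : ℝ) + 1) / (2 * M) := by
      field_simp
    have h3 : 1 ≤ (2 * (N i : ℝ) + 1) / (2 * M) := by
      rw [le_div_iff₀ (by positivity)]; linarith
    rw [mul_sub, mul_one, h2]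
    linarith
  have e1 : ∀ d : ℝ, ∏ i, ((2 * (N i : ℝ) + 1) / q * d) =
      (∏ i, (2 * (N i : ℝ) + 1)) / (q : ℝ) ^ 3 * d ^ 3 := by
    intro d
    rw [Finset.prod_mul_distrib, Finset.prod_div_distrib]
    simp
  rw [fib q hq N G hG, Finset.sum_mul, Finset.sum_mul]
  constructor
  · apply Finset.sum_le_sum
    intro a _
    apply mul_le_mul_of_nonneg_left _ (h0 a)
    rw [← e1]
    apply Finset.prod_le_prod
    · intro i _
      have : 0 ≤ 1 - (q : ℝ) / (2 * M) := by linarith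
      positivity
    · intro i _
      exact (key2 i).trans (cnt q hq (N i) (a i)).1
  · apply Finset.sum_le_sum
    intro a _
    apply mul_le_mul_of_nonneg_left _ (h0 a)
    rw [← e1]
    apply Finset.prod_le_prod
    · intro i _
      positivity
    · intro i _
      exact (cnt q hq (N i) (a i)).2.trans (key1 i)

lemma box_sum (q M : ℕ) (N : Fin 3 → ℕ) (hq : 0 < q) (hqM : q ≤ M) (hM : ∀ i, M ≤ N i)
    (F : (Fin 3 → ℤ) → (Fin 3 → ℤ) → ℝ) (h0 : ∀ f g, 0 ≤ F f g) (h1 : ∀ f g, F f g ≤ 1)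
    (hper : Per q F) :
    |∑ f ∈ rbox N, ∑ g ∈ rbox N, F f g - (∏ i, (2 * (N i : ℝ) + 1)) ^ 2 * mean q F| ≤
      (∏ i, (2 * (N i : ℝ) + 1)) ^ 2 * (21 * ((q : ℝ) / M)) := by
  have hqR : (0 : ℝ) < q := by exact_mod_cast hq
  have hMR : (0 : ℝ) < M := by exact_mod_cast lt_of_lt_of_le hq hqM
  have hqM' : (q : ℝ) ≤ M := by exact_mod_cast hqM
  have hcard : (cls q).card = q ^ 3 := by
    rw [cls, Fintype.card_piFinset]; simp
  have hm0 : 0 ≤ mean q F := by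
    unfold mean
    apply div_nonneg (Finset.sum_nonneg fun f _ => Finset.sum_nonneg fun g _ => h0 f g)
    positivity
  have hm1 : mean q F ≤ 1 := by
    unfold mean
    rw [div_le_one (by positivity)]
    calc ∑ f ∈ cls q, ∑ g ∈ cls q, F f g ≤ ∑ f ∈ cls q, ∑ g ∈ cls q, (1 : ℝ) :=
          Finset.sum_le_sum fun f _ => Finset.sum_le_sum fun g _ => h1 f g
      _ = (q : ℝ) ^ 6 := by
          simp [hcard]; ring
  have hsum : ∑ f ∈ cls q, ∑ g ∈ cls q, F f g = mean q F * (q : ℝ) ^ 6 := by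
    unfold mean
    field_simp
  set V := ∏ i, (2 * (N i : ℝ) + 1) with hV
  have hVpos : 0 < V := Finset.prod_pos fun i _ => by positivity
  set d := (q : ℝ) / (2 * M) with hd
  have hd0 : 0 ≤ d := by positivity
  have hd1 : d ≤ 1 / 2 := by
    rw [hd, div_le_iff₀ (by positivity)]; linarith
  have hdq : 21 * ((q : ℝ) / M) = 42 * d := by
    rw [hd]; field_simp; ring
  -- inner sums
  have hin : ∀ f, (∑ b ∈ cls q, F f b) * (V / (q : ℝ) ^ 3 * (1 - d) ^ 3) ≤ ∑ g ∈ rbox N, F f g ∧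
      ∑ g ∈ rbox N, F f g ≤ (∑ b ∈ cls q, F f b) * (V / (q : ℝ) ^ 3 * (1 + d) ^ 3) := by
    intro f
    exact one_dim q M N hq hqM hM (F f) (h0 f) (fun g g' h => hper f f g g' (by simp) h)
  have hout := one_dim q M N hq hqM hM (fun f => ∑ b ∈ cls q, F f b)
    (fun f => Finset.sum_nonneg fun g _ => h0 f g)
    (fun f f' h => Finset.sum_congr rfl fun b _ => hper f f' b b h (by simp))
  simp only at hout
  rw [← hV, ← hd, hsum] at hout
  have hu : ∑ f ∈ rbox N, ∑ g ∈ rbox N, F f g ≤ mean q F * (V ^ 2 * (1 + d) ^ 6) := by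
    calc ∑ f ∈ rbox N, ∑ g ∈ rbox N, F f g
        ≤ ∑ f ∈ rbox N, (∑ b ∈ cls q, F f b) * (V / (q : ℝ) ^ 3 * (1 + d) ^ 3) :=
          Finset.sum_le_sum fun f _ => (hin f).2
      _ = (∑ f ∈ rbox N, ∑ b ∈ cls q, F f b) * (V / (q : ℝ) ^ 3 * (1 + d) ^ 3) := by
          rw [Finset.sum_mul]
      _ ≤ (mean q F * (q : ℝ) ^ 6 * (V / (q : ℝ) ^ 3 * (1 + d) ^ 3)) * (V / (q : ℝ) ^ 3 * (1 + d) ^ 3) :=
          mul_le_mul_of_nonneg_right hout.2 (by positivity)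
      _ = _ := by field_simp
  have hd2 : 0 ≤ 1 - d := by linarith
  have hl : mean q F * (V ^ 2 * (1 - d) ^ 6) ≤ ∑ f ∈ rbox N, ∑ g ∈ rbox N, F f g := by
    calc mean q F * (V ^ 2 * (1 - d) ^ 6)
        = (mean q F * (q : ℝ) ^ 6 * (V / (q : ℝ) ^ 3 * (1 - d) ^ 3)) * (V / (q : ℝ) ^ 3 * (1 - d) ^ 3) := by
          field_simp
      _ ≤ (∑ f ∈ rbox N, ∑ b ∈ cls q, F f b) * (V / (q : ℝ) ^ 3 * (1 - d) ^ 3) :=
          mul_le_mul_of_nonneg_right hout.1 (by positivity)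
      _ = ∑ f ∈ rbox N, (∑ b ∈ cls q, F f b) * (V / (q : ℝ) ^ 3 * (1 - d) ^ 3) := by
          rw [Finset.sum_mul]
      _ ≤ _ := Finset.sum_le_sum fun f _ => (hin f).1
  have p1 : (1 + d) ^ 6 ≤ 1 + 42 * d := by
    have h2 : (1 + d) ^ 2 ≤ 1 + 5 / 2 * d := by nlinarith
    have h3 : (1 + d) ^ 3 ≤ 1 + 19 / 4 * d := by
      calc (1 + d) ^ 3 = (1 + d) ^ 2 * (1 + d) := by ring
        _ ≤ (1 + 5 / 2 * d) * (1 + d) := mul_le_mul_of_nonneg_right h2 (by positivity)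
        _ ≤ _ := by nlinarith
    calc (1 + d) ^ 6 = (1 + d) ^ 3 * (1 + d) ^ 3 := by ring
      _ ≤ (1 + 19 / 4 * d) * (1 + 19 / 4 * d) := by gcongr
      _ ≤ _ := by nlinarith
  have p2 : 1 - 42 * d ≤ (1 - d) ^ 6 := by
    have := one_add_mul_le_pow (a := -d) (by linarith) 6
    have h3 : (1 + -d) ^ 6 = (1 - d) ^ 6 := by ring
    rw [h3] at this
    push_cast at this
    linarith
  rw [hdq, abs_le]
  have hmV : mean q F * V ^ 2 ≤ V ^ 2 := by
    calc mean q F * V ^ 2 ≤ 1 * V ^ 2 := by gcongr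
      _ = _ := one_mul _
  constructor
  · have : mean q F * (V ^ 2 * (1 - 42 * d)) ≤ mean q F * (V ^ 2 * (1 - d) ^ 6) := by gcongr
    have h3 : mean q F * V ^ 2 * (42 * d) ≤ V ^ 2 * (42 * d) := by gcongr
    nlinarith
  · have : mean q F * (V ^ 2 * (1 + d) ^ 6) ≤ mean q F * (V ^ 2 * (1 + 42 * d)) := by gcongr
    have h3 : mean q F * V ^ 2 * (42 * d) ≤ V ^ 2 * (42 * d) := by gcongr
    nlinarith

/-- Chinese remainder theorem for the classes -/
lemma crt (q Q : ℕ) (hq : 0 < q) (hQ : 0 < Q) (hc : Nat.Coprime q Q) :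
    ∃ c : (Fin 3 → ℤ) → (Fin 3 → ℤ) → (Fin 3 → ℤ),
      (∀ a b i, (q : ℤ) ∣ c a b i - a i ∧ (Q : ℤ) ∣ c a b i - b i) ∧
      ∀ H : (Fin 3 → ℤ) → ℝ, ∑ f ∈ cls (q * Q), H f = ∑ a ∈ cls q, ∑ b ∈ cls Q, H (c a b) := by
  have hq' : (0 : ℤ) < q := by exact_mod_cast hq
  have hQ' : (0 : ℤ) < Q := by exact_mod_cast hQ
  have hqQ : (0 : ℤ) < ((q * Q : ℕ) : ℤ) := by push_cast; positivity
  have hcI : IsCoprime (q : ℤ) (Q : ℤ) := Nat.isCoprime_iff_coprime.2 hc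
  obtain ⟨s, t, hst⟩ := hcI
  set c : (Fin 3 → ℤ) → (Fin 3 → ℤ) → (Fin 3 → ℤ) :=
    fun a b i => (a i * (t * Q) + b i * (s * q)) % ((q * Q : ℕ) : ℤ) with hcdef
  have hc1 : ∀ a b i, (q : ℤ) ∣ c a b i - a i := by
    intro a b i
    have h1 : (q : ℤ) ∣ (a i * (t * Q) + b i * (s * q)) % ((q * Q : ℕ) : ℤ) - (a i * (t * Q) + b i * (s * q)) := by
      have : ((q * Q : ℕ) : ℤ) ∣ (a i * (t * Q) + b i * (s * q)) % ((q * Q : ℕ) : ℤ) - (a i * (t * Q) + b i * (s * q)) := by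
        have h := Int.dvd_self_sub_emod (x := a i * (t * Q) + b i * (s * q)) (m := ((q * Q : ℕ) : ℤ))
        rw [← neg_sub]
        exact (dvd_neg).2 h
      exact (Dvd.intro (Q : ℤ) (by push_cast; ring)).trans this
    have h2 : (a i * (t * Q) + b i * (s * q)) - a i = (q : ℤ) * (b i * s - a i * s) := by
      have : t * Q = 1 - s * q := by linarith
      rw [this]; ring
    have h3 : (q : ℤ) ∣ (a i * (t * Q) + b i * (s * q)) - a i := ⟨_, h2⟩
    have := dvd_add h1 h3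
    simpa [hcdef] using this
  have hc2 : ∀ a b i, (Q : ℤ) ∣ c a b i - b i := by
    intro a b i
    have h1 : (Q : ℤ) ∣ (a i * (t * Q) + b i * (s * q)) % ((q * Q : ℕ) : ℤ) - (a i * (t * Q) + b i * (s * q)) := by
      have : ((q * Q : ℕ) : ℤ) ∣ (a i * (t * Q) + b i * (s * q)) % ((q * Q : ℕ) : ℤ) - (a i * (t * Q) + b i * (s * q)) := by
        have h := Int.dvd_self_sub_emod (x := a i * (t * Q) + b i * (s * q)) (m := ((q * Q : ℕ) : ℤ))
        rw [← neg_sub]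
        exact (dvd_neg).2 h
      exact (Dvd.intro_left (q : ℤ) (by push_cast; ring)).trans this
    have h2 : (a i * (t * Q) + b i * (s * q)) - b i = (Q : ℤ) * (a i * t - b i * t) := by
      have : s * q = 1 - t * Q := by linarith
      rw [this]; ring
    have h3 : (Q : ℤ) ∣ (a i * (t * Q) + b i * (s * q)) - b i := ⟨_, h2⟩
    have := dvd_add h1 h3
    simpa [hcdef] using this
  refine ⟨c, fun a b i => ⟨hc1 a b i, hc2 a b i⟩, ?_⟩
  intro H
  rw [← Finset.sum_product' (f := fun a b => H (c a b))]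
  refine Finset.sum_nbij' (fun f => (fun i => f i % (q : ℤ), fun i => f i % (Q : ℤ)))
    (fun ab => c ab.1 ab.2) ?_ ?_ ?_ ?_ ?_
  · intro f _
    simp only [mem_product, cls, Fintype.mem_piFinset, mem_Ico]
    exact ⟨fun i => ⟨Int.emod_nonneg _ hq'.ne', Int.emod_lt_of_pos _ hq'⟩,
      fun i => ⟨Int.emod_nonneg _ hQ'.ne', Int.emod_lt_of_pos _ hQ'⟩⟩
  · intro ab _
    simp only [cls, Fintype.mem_piFinset, mem_Ico]
    exact fun i => ⟨Int.emod_nonneg _ hqQ.ne', Int.emod_lt_of_pos _ hqQ⟩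
  · intro f hf
    simp only [cls, Fintype.mem_piFinset, mem_Ico] at hf
    funext i
    have h1 := hc1 (fun i => f i % (q : ℤ)) (fun i => f i % (Q : ℤ)) i
    have h2 := hc2 (fun i => f i % (q : ℤ)) (fun i => f i % (Q : ℤ)) i
    have h3 : (q : ℤ) ∣ f i - f i % (q : ℤ) := Int.dvd_self_sub_emod
    have h4 : (Q : ℤ) ∣ f i - f i % (Q : ℤ) := Int.dvd_self_sub_emod
    have h5 : (q : ℤ) ∣ c (fun i => f i % (q : ℤ)) (fun i => f i % (Q : ℤ)) i - f i := by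
      have := dvd_sub h1 h3
      simpa using this
    have h6 : (Q : ℤ) ∣ c (fun i => f i % (q : ℤ)) (fun i => f i % (Q : ℤ)) i - f i := by
      have := dvd_sub h2 h4
      simpa using this
    have h7 : ((q * Q : ℕ) : ℤ) ∣ c (fun i => f i % (q : ℤ)) (fun i => f i % (Q : ℤ)) i - f i := by
      push_cast
      exact (Nat.isCoprime_iff_coprime.2 hc).mul_dvd h5 h6
    have h8 : c (fun i => f i % (q : ℤ)) (fun i => f i % (Q : ℤ)) i ∈ Set.Ico (0 : ℤ) ((q * Q : ℕ) : ℤ) :=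
      ⟨Int.emod_nonneg _ hqQ.ne', Int.emod_lt_of_pos _ hqQ⟩
    have h9 := Int.emod_emod_of_dvd (c (fun i => f i % (q : ℤ)) (fun i => f i % (Q : ℤ)) i) (dvd_refl ((q * Q : ℕ) : ℤ))
    have h10 : c (fun i => f i % (q : ℤ)) (fun i => f i % (Q : ℤ)) i % ((q * Q : ℕ) : ℤ) = f i % ((q * Q : ℕ) : ℤ) :=
      Int.ModEq.symm ((Int.modEq_iff_dvd).2 h7)
    rw [Int.emod_eq_of_lt h8.1 h8.2, Int.emod_eq_of_lt (hf i).1 (hf i).2] at h10
    exact h10
  · intro ab hab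
    simp only [mem_product, cls, Fintype.mem_piFinset, mem_Ico] at hab
    have h1 : (fun i => c ab.1 ab.2 i % (q : ℤ)) = ab.1 := by
      funext i
      have : c ab.1 ab.2 i % (q : ℤ) = ab.1 i % (q : ℤ) :=
        Int.ModEq.symm ((Int.modEq_iff_dvd).2 (hc1 ab.1 ab.2 i))
      rw [this, Int.emod_eq_of_lt (hab.1 i).1 (hab.1 i).2]
    have h2 : (fun i => c ab.1 ab.2 i % (Q : ℤ)) = ab.2 := by
      funext i
      have : c ab.1 ab.2 i % (Q : ℤ) = ab.2 i % (Q : ℤ) :=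
        Int.ModEq.symm ((Int.modEq_iff_dvd).2 (hc2 ab.1 ab.2 i))
      rw [this, Int.emod_eq_of_lt (hab.2 i).1 (hab.2 i).2]
    exact Prod.ext h1 h2
  · intro f hf
    congr 1
    -- the same as the third goal
    simp only [cls, Fintype.mem_piFinset, mem_Ico] at hf
    funext i
    have h1 := hc1 (fun i => f i % (q : ℤ)) (fun i => f i % (Q : ℤ)) i
    have h2 := hc2 (fun i => f i % (q : ℤ)) (fun i => f i % (Q : ℤ)) i
    have h3 : (q : ℤ) ∣ f i - f i % (q : ℤ) := Int.dvd_self_sub_emod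
    have h4 : (Q : ℤ) ∣ f i - f i % (Q : ℤ) := Int.dvd_self_sub_emod
    have h5 : (q : ℤ) ∣ c (fun i => f i % (q : ℤ)) (fun i => f i % (Q : ℤ)) i - f i := by
      have := dvd_sub h1 h3
      simpa using this
    have h6 : (Q : ℤ) ∣ c (fun i => f i % (q : ℤ)) (fun i => f i % (Q : ℤ)) i - f i := by
      have := dvd_sub h2 h4
      simpa using this
    have h7 : ((q * Q : ℕ) : ℤ) ∣ c (fun i => f i % (q : ℤ)) (fun i => f i % (Q : ℤ)) i - f i := by
      push_cast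
      exact (Nat.isCoprime_iff_coprime.2 hc).mul_dvd h5 h6
    have h8 : c (fun i => f i % (q : ℤ)) (fun i => f i % (Q : ℤ)) i ∈ Set.Ico (0 : ℤ) ((q * Q : ℕ) : ℤ) :=
      ⟨Int.emod_nonneg _ hqQ.ne', Int.emod_lt_of_pos _ hqQ⟩
    have h10 : c (fun i => f i % (q : ℤ)) (fun i => f i % (Q : ℤ)) i % ((q * Q : ℕ) : ℤ) = f i % ((q * Q : ℕ) : ℤ) :=
      Int.ModEq.symm ((Int.modEq_iff_dvd).2 h7)
    rw [Int.emod_eq_of_lt h8.1 h8.2, Int.emod_eq_of_lt (hf i).1 (hf i).2] at h10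
    exact h10.symm

lemma mean_mul (q Q : ℕ) (hq : 0 < q) (hQ : 0 < Q) (hc : Nat.Coprime q Q)
    (F G : (Fin 3 → ℤ) → (Fin 3 → ℤ) → ℝ) (hF : Per q F) (hG : Per Q G) :
    mean (q * Q) (fun f g => F f g * G f g) = mean q F * mean Q G := by
  obtain ⟨c, hc1, hc2⟩ := crt q Q hq hQ hc
  have hqR : (0 : ℝ) < q := by exact_mod_cast hq
  have hQR : (0 : ℝ) < Q := by exact_mod_cast hQ
  have key : ∑ f ∈ cls (q * Q), ∑ g ∈ cls (q * Q), F f g * G f g =
      (∑ f ∈ cls q, ∑ g ∈ cls q, F f g) * ∑ f ∈ cls Q, ∑ g ∈ cls Q, G f g := by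
    calc ∑ f ∈ cls (q * Q), ∑ g ∈ cls (q * Q), F f g * G f g
        = ∑ a ∈ cls q, ∑ b ∈ cls Q, ∑ a' ∈ cls q, ∑ b' ∈ cls Q,
            F (c a b) (c a' b') * G (c a b) (c a' b') := by
          rw [hc2]
          refine Finset.sum_congr rfl fun a _ => Finset.sum_congr rfl fun b _ => ?_
          rw [hc2]
      _ = ∑ a ∈ cls q, ∑ b ∈ cls Q, ∑ a' ∈ cls q, ∑ b' ∈ cls Q, F a a' * G b b' := by
          refine Finset.sum_congr rfl fun a _ => Finset.sum_congr rfl fun b _ =>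
            Finset.sum_congr rfl fun a' _ => Finset.sum_congr rfl fun b' _ => ?_
          rw [hF (c a b) a (c a' b') a' (fun i => (hc1 a b i).1) (fun i => (hc1 a' b' i).1),
            hG (c a b) b (c a' b') b' (fun i => (hc1 a b i).2) (fun i => (hc1 a' b' i).2)]
      _ = ∑ a ∈ cls q, ∑ a' ∈ cls q, ∑ b ∈ cls Q, ∑ b' ∈ cls Q, F a a' * G b b' := by
          refine Finset.sum_congr rfl fun a _ => Finset.sum_comm
      _ = _ := by
          rw [Finset.sum_mul]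
          refine Finset.sum_congr rfl fun a _ => ?_
          rw [Finset.sum_mul]
          refine Finset.sum_congr rfl fun a' _ => ?_
          rw [Finset.mul_sum]
          refine Finset.sum_congr rfl fun b _ => ?_
          rw [Finset.mul_sum]
  unfold mean
  rw [key]
  push_cast
  field_simp

lemma per_of_dvd (q Q : ℕ) (h : q ∣ Q) (F : (Fin 3 → ℤ) → (Fin 3 → ℤ) → ℝ) (hF : Per q F) : Per Q F := by
  intro f f' g g' h1 h2
  have hd : (q : ℤ) ∣ (Q : ℤ) := by exact_mod_cast h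
  exact hF f f' g g' (fun i => hd.trans (h1 i)) (fun i => hd.trans (h2 i))

lemma per_prod (A : Finset ℕ) (u : ℕ → (Fin 3 → ℤ) → (Fin 3 → ℤ) → ℝ)
    (hper : ∀ p ∈ A, Per (p ^ 2) (u p)) :
    Per (∏ p ∈ A, p ^ 2) (fun f g => ∏ p ∈ A, u p f g) := by
  intro f f' g g' h1 h2
  refine Finset.prod_congr rfl fun p hp => ?_
  exact per_of_dvd (p ^ 2) _ (Finset.dvd_prod_of_mem (fun p => p ^ 2) hp) (u p) (hper p hp) f f' g g' h1 h2

lemma mean_prod (A : Finset ℕ) (hA : ∀ p ∈ A, p.Prime) (u : ℕ → (Fin 3 → ℤ) → (Fin 3 → ℤ) → ℝ)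
    (hper : ∀ p ∈ A, Per (p ^ 2) (u p)) :
    mean (∏ p ∈ A, p ^ 2) (fun f g => ∏ p ∈ A, u p f g) = ∏ p ∈ A, mean (p ^ 2) (u p) := by
  induction A using Finset.induction with
  | empty => simp [mean, cls]
  | insert q A hq ih =>
    have hqp : q.Prime := hA q (Finset.mem_insert_self q A)
    have hA' : ∀ p ∈ A, p.Prime := fun p hp => hA p (Finset.mem_insert_of_mem hp)
    have hper' : ∀ p ∈ A, Per (p ^ 2) (u p) := fun p hp => hper p (Finset.mem_insert_of_mem hp)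
    have hc : Nat.Coprime (q ^ 2) (∏ p ∈ A, p ^ 2) := by
      apply Nat.Coprime.prod_right
      intro p hp
      apply Nat.Coprime.pow
      rw [Nat.coprime_primes hqp (hA' p hp)]
      rintro rfl
      exact hq hp
    have hQ : 0 < ∏ p ∈ A, p ^ 2 := Finset.prod_pos (fun p hp => pow_pos (hA' p hp).pos 2)
    rw [Finset.prod_insert hq, Finset.prod_insert hq, ← ih hA' hper',
      ← mean_mul (q ^ 2) (∏ p ∈ A, p ^ 2) (pow_pos hqp.pos 2) hQ hc (u q) _
        (hper q (Finset.mem_insert_self q A)) (per_prod A u hper')]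
    congr 1
    funext f g
    rw [Finset.prod_insert hq]

theorem t : BRUN := by
  intro T z r M N K u hz hr hK hT hper hu hMN hM hzM
  set V := ∏ i, (2 * (N i : ℝ) + 1) with hV
  have hVpos : 0 < V := Finset.prod_pos fun i _ => by positivity
  have hz' : (1 : ℝ) ≤ z := by exact_mod_cast (by omega : 1 ≤ z)
  have hMR : (0 : ℝ) < M := by exact_mod_cast hM
  set m : ℕ → ℝ := fun p => mean (p ^ 2) (u p) with hm
  have hm0 : ∀ p ∈ T, 0 ≤ m p := by
    intro p hp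
    simp only [hm]
    unfold mean
    apply div_nonneg (Finset.sum_nonneg fun f _ => Finset.sum_nonneg fun g _ => (hu p hp f g).1)
    positivity
  have hm1 : ∀ p ∈ T, m p ≤ 1 := by
    intro p hp
    have hpp : (0 : ℝ) < p := by exact_mod_cast (hT p hp).1.pos
    have hcard : (cls (p ^ 2)).card = (p ^ 2) ^ 3 := by
      rw [cls, Fintype.card_piFinset]
      simp only [Int.card_Ico, sub_zero, Int.toNat_natCast, Finset.prod_const, Finset.card_univ,
        Fintype.card_fin]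
    simp only [hm]
    unfold mean
    rw [div_le_one (by push_cast; positivity)]
    calc ∑ f ∈ cls (p ^ 2), ∑ g ∈ cls (p ^ 2), u p f g ≤ ∑ f ∈ cls (p ^ 2), ∑ g ∈ cls (p ^ 2), (1 : ℝ) :=
          Finset.sum_le_sum fun f _ => Finset.sum_le_sum fun g _ => (hu p hp f g).2
      _ = ((p ^ 2 : ℕ) : ℝ) ^ 6 := by
          simp [hcard]; ring
  -- step 1
  have h1 : ∑ f ∈ rbox N, ∑ g ∈ rbox N, ∏ p ∈ T, (1 - u p f g)
      ≤ ∑ f ∈ rbox N, ∑ g ∈ rbox N, Helper742.E' (fun p => u p f g) r T := by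
    apply Finset.sum_le_sum
    intro f _
    apply Finset.sum_le_sum
    intro g _
    exact Helper742.bonf_odd (fun p => u p f g) T (fun p hp => (hu p hp f g).1)
      (fun p hp => (hu p hp f g).2) r hr
  have h2 : ∑ f ∈ rbox N, ∑ g ∈ rbox N, Helper742.E' (fun p => u p f g) r T
      = ∑ A ∈ T.powerset with A.card < r,
          (-1 : ℝ) ^ A.card * ∑ f ∈ rbox N, ∑ g ∈ rbox N, ∏ p ∈ A, u p f g := by
    simp only [Helper742.E']
    have : ∀ f ∈ rbox N, ∑ g ∈ rbox N, ∑ A ∈ T.powerset with A.card < r,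
        (-1 : ℝ) ^ A.card * ∏ p ∈ A, u p f g = ∑ A ∈ T.powerset with A.card < r,
          (-1 : ℝ) ^ A.card * ∑ g ∈ rbox N, ∏ p ∈ A, u p f g := by
      intro f _
      rw [Finset.sum_comm]
      apply Finset.sum_congr rfl
      intro A _
      rw [Finset.mul_sum]
    rw [Finset.sum_congr rfl this, Finset.sum_comm]
    apply Finset.sum_congr rfl
    intro A _
    rw [Finset.mul_sum]
  have h3 : ∀ A ∈ T.powerset.filter (fun A => A.card < r),
      (-1 : ℝ) ^ A.card * ∑ f ∈ rbox N, ∑ g ∈ rbox N, ∏ p ∈ A, u p f g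
        ≤ V ^ 2 * ((-1 : ℝ) ^ A.card * ∏ p ∈ A, m p)
          + V ^ 2 * (21 * (z : ℝ) ^ (3 * r) / M) * ∏ p ∈ A, (z : ℝ)⁻¹ := by
    intro A hA
    rw [Finset.mem_filter, Finset.mem_powerset] at hA
    obtain ⟨hA, hcard⟩ := hA
    have hAp : ∀ p ∈ A, p.Prime := fun p hp => (hT p (hA hp)).1
    have hQ : 0 < ∏ p ∈ A, p ^ 2 := Finset.prod_pos (fun p hp => pow_pos (hAp p hp).pos 2)
    have h7 : ∏ p ∈ A, p ^ 2 ≤ z ^ (2 * A.card) := by
      calc ∏ p ∈ A, p ^ 2 ≤ ∏ p ∈ A, z ^ 2 := by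
            apply Finset.prod_le_prod
            · intro p _; positivity
            · intro p hp; exact Nat.pow_le_pow_left (hT p (hA hp)).2 2
        _ = _ := by rw [Finset.prod_const, ← pow_mul]
    have hQM : ∏ p ∈ A, p ^ 2 ≤ M :=
      (h7.trans (Nat.pow_le_pow_right (by omega) (by omega))).trans hzM
    have h4 := box_sum (∏ p ∈ A, p ^ 2) M N hQ hQM hMN (fun f g => ∏ p ∈ A, u p f g)
      (fun f g => Finset.prod_nonneg (fun p hp => (hu p (hA hp) f g).1))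
      (fun f g => Finset.prod_le_one (fun p hp => (hu p (hA hp) f g).1)
        (fun p hp => (hu p (hA hp) f g).2))
      (per_prod A u fun p hp => hper p (hA hp))
    rw [mean_prod A hAp u (fun p hp => hper p (hA hp)), ← hV] at h4
    have h6 : V ^ 2 * (21 * (((∏ p ∈ A, p ^ 2 : ℕ) : ℝ) / M)) ≤
        V ^ 2 * (21 * (z : ℝ) ^ (3 * r) / M) * ∏ p ∈ A, (z : ℝ)⁻¹ := by
      have h8 : ((∏ p ∈ A, p ^ 2 : ℕ) : ℝ) ≤ (z : ℝ) ^ (3 * r) * ∏ p ∈ A, (z : ℝ)⁻¹ := by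
        rw [Finset.prod_const, inv_pow, ← div_eq_mul_inv, le_div_iff₀ (by positivity)]
        calc ((∏ p ∈ A, p ^ 2 : ℕ) : ℝ) * (z : ℝ) ^ A.card
            ≤ (z : ℝ) ^ (2 * A.card) * (z : ℝ) ^ A.card := by
              gcongr
              exact_mod_cast h7
          _ = (z : ℝ) ^ (3 * A.card) := by rw [← pow_add]; congr 1; ring
          _ ≤ (z : ℝ) ^ (3 * r) := pow_le_pow_right₀ hz' (by omega)
      calc V ^ 2 * (21 * (((∏ p ∈ A, p ^ 2 : ℕ) : ℝ) / M))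
          ≤ V ^ 2 * (21 * (((z : ℝ) ^ (3 * r) * ∏ p ∈ A, (z : ℝ)⁻¹) / M)) := by gcongr
        _ = _ := by ring
    have h9 := abs_le.1 (h4.trans h6)
    rcases Nat.even_or_odd A.card with he | ho
    · rw [he.neg_one_pow]
      linarith [h9.2]
    · rw [ho.neg_one_pow]
      linarith [h9.1]
  have h10 : ∑ A ∈ T.powerset with A.card < r, V ^ 2 * (21 * (z : ℝ) ^ (3 * r) / M) * ∏ p ∈ A, (z : ℝ)⁻¹
      ≤ V ^ 2 * (64 * (z : ℝ) ^ (3 * r) / M) := by
    rw [← Finset.mul_sum]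
    have h11 : ∑ A ∈ T.powerset with A.card < r, ∏ p ∈ A, (z : ℝ)⁻¹ ≤ 3 := by
      calc ∑ A ∈ T.powerset with A.card < r, ∏ p ∈ A, (z : ℝ)⁻¹
          ≤ ∑ A ∈ T.powerset, ∏ p ∈ A, (z : ℝ)⁻¹ := by
            apply Finset.sum_le_sum_of_subset_of_nonneg (Finset.filter_subset _ _)
            intro A _ _
            exact Finset.prod_nonneg (fun p _ => by positivity)
        _ = ∏ p ∈ T, (1 + (z : ℝ)⁻¹) := by rw [Finset.prod_one_add]
        _ ≤ ∏ p ∈ T, Real.exp ((z : ℝ)⁻¹) := by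
            apply Finset.prod_le_prod
            · intro p _; positivity
            · intro p _
              have := Real.add_one_le_exp ((z : ℝ)⁻¹)
              linarith
        _ = Real.exp (T.card * (z : ℝ)⁻¹) := by
            rw [Finset.prod_const, ← Real.exp_nat_mul]
        _ ≤ Real.exp 1 := by
            apply Real.exp_le_exp.2
            have hc : T.card ≤ z := by
              calc T.card ≤ (Finset.Icc 1 z).card := by
                    apply Finset.card_le_card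
                    intro p hp
                    rw [Finset.mem_Icc]
                    exact ⟨(hT p hp).1.one_le, (hT p hp).2⟩
                _ = z := by simp
            have hc' : (T.card : ℝ) ≤ z := by exact_mod_cast hc
            rw [← div_eq_mul_inv, div_le_one (by linarith)]
            exact hc'
        _ ≤ 3 := by
            have := Real.exp_one_lt_d9
            linarith
    calc V ^ 2 * (21 * (z : ℝ) ^ (3 * r) / M) * ∑ A ∈ T.powerset with A.card < r, ∏ p ∈ A, (z : ℝ)⁻¹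
        ≤ V ^ 2 * (21 * (z : ℝ) ^ (3 * r) / M) * 3 := by gcongr
      _ = V ^ 2 * (63 * (z : ℝ) ^ (3 * r) / M) := by ring
      _ ≤ _ := by gcongr; norm_num
  have h11 : ∑ A ∈ T.powerset with A.card < r,
      (V ^ 2 * ((-1 : ℝ) ^ A.card * ∏ p ∈ A, m p) + V ^ 2 * (21 * (z : ℝ) ^ (3 * r) / M) * ∏ p ∈ A, (z : ℝ)⁻¹)
      = V ^ 2 * Helper742.E' m r T
        + ∑ A ∈ T.powerset with A.card < r, V ^ 2 * (21 * (z : ℝ) ^ (3 * r) / M) * ∏ p ∈ A, (z : ℝ)⁻¹ := by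
    rw [Finset.sum_add_distrib, Helper742.E', Finset.mul_sum]
  have h12 := Helper742.E'_odd_le m T hm0 hm1 r hr K hK
  have h13 := Finset.sum_le_sum h3
  rw [h11] at h13
  have h14 : V ^ 2 * Helper742.E' m r T
      ≤ V ^ 2 * (∏ p ∈ T, (1 - m p) + (K⁻¹) ^ r * Real.exp (K * ∑ p ∈ T, m p)) :=
    mul_le_mul_of_nonneg_left h12 (by positivity)
  have h15 : V ^ 2 * (∏ p ∈ T, (1 - m p) + K⁻¹ ^ r * Real.exp (K * ∑ p ∈ T, m p) +
      64 * (z : ℝ) ^ (3 * r) / M) = V ^ 2 * (∏ p ∈ T, (1 - m p) + (K⁻¹) ^ r * Real.exp (K * ∑ p ∈ T, m p)) +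
      V ^ 2 * (64 * (z : ℝ) ^ (3 * r) / M) := by ring
  show _ ≤ V ^ 2 * (∏ p ∈ T, (1 - m p) + K⁻¹ ^ r * Real.exp (K * ∑ p ∈ T, m p) +
      64 * (z : ℝ) ^ (3 * r) / M)
  rw [h15]
  linarith

end Pool.Agent.H14F.BRUN
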