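import Pool.Agent.H14F.Split
import Pool.Agent.N426.PF.Par
import Pool.Agent.N459.PF.Ram
import Pool.Agent.N73.PF.Exq
import Pool.Agent.N31.PF.Int
import Pool.Agent.N78.PF.Loc

/-!
# Elements of `L` which satisfy the conditions over the extension
-/

set_option autoImplicit false
set_option linter.all false

open Polynomial IsDedekindDomain NumberField
open scoped Classical Pointwise

namespace Pool.Agent.H14F

open Pool.Agent.N783.PF
open Pool.Agent.N874.PP (Ev Sq1 U0)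
open Pool.Agent.N692.PMTOW (im sup_top normal_of_top)

theorem int : S_INT := Pool.Agent.N31.PF.int
theorem exq : S_EXQ := Pool.Agent.N73.PF.exq int
theorem csq : S_CSQ := Pool.Agent.N73.PF.csq int
theorem pin : S_PIN := Pool.Agent.N426.PF.pin int
theorem par : S_PAR := Pool.Agent.N426.PF.par int
theorem parq : S_PARQ := Pool.Agent.N426.PF.parq int exq
theorem ram : S_RAM := Pool.Agent.N459.PF.ram int

section

variable {F L M Ω : Type} [Field F] [NumberField F] [Field L] [NumberField L] [Field M]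
  [NumberField M] [Field Ω] [NumberField Ω] [Algebra F L] [Algebra F M] [Algebra L Ω]
  [Algebra M Ω] [Algebra F Ω] [IsScalarTower F L Ω] [IsScalarTower F M Ω] [IsGalois F M]

/-- The data over `F` and `L`. -/
structure Dat (g W : ℕ) (f f₁ : (𝓞 F)[X]) (θ : L) (S J : Finset ℕ) (𝔮 : ℕ → Ideal (𝓞 F))
    (r P : ℕ → (𝓞 F)[X]) : Prop where
  hg : 1 ≤ g
  gen : IsGen g f θ
  sqf : SqF g f
  gf : GoodF g W f₁
  gs : GoodS g W S 𝔮 r P
  one : Cg (sp F W) f f₁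
  con : ∀ q ∈ S, Cg (sp F q) f (P q)
  sub : J ⊆ S

variable {g W : ℕ} {f f₁ : (𝓞 F)[X]} {θ : L} {S J : Finset ℕ} {𝔮 : ℕ → Ideal (𝓞 F)}
  {r P : ℕ → (𝓞 F)[X]}

theorem Dat.cq (D : Dat g W f f₁ θ S J 𝔮 r P) : ∀ q ∈ S, Cg (𝔮 q) f (X * r q) := by
  intro q hq j
  obtain ⟨-, -, -, -, -, -, a2, -, -, -, -, -, -, a3, -⟩ := D.gs q hq
  have b1 := Pool.Agent.N78.PF.sp_le (F := F) a2 (D.con q hq j)
  have b2 := a3 j
  have := Ideal.add_mem _ b1 b2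
  simpa using this

theorem Dat.ne_bot (D : Dat g W f f₁ θ S J 𝔮 r P) : ∀ q ∈ S, 𝔮 q ≠ ⊥ := by
  intro q hq h0
  obtain ⟨a1, -, -, -, -, -, a2, -⟩ := D.gs q hq
  rw [h0, Ideal.mem_bot] at a2
  exact a1.ne_zero (by exact_mod_cast a2)

/-- the prime over `2` -/
theorem Dat.ev2 (D : Dat g W f f₁ θ S J 𝔮 r P) {x : L} (hx : x ≠ 0)
    (hN : IsSquare (Algebra.norm F x)) {𝔓 : HeightOneSpectrum (𝓞 L)}
    (h : (2 : 𝓞 F) ∈ (𝔓.under (𝓞 F)).asIdeal) : Ev 𝔓 x := by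
  have hW : (W : 𝓞 F) ∈ (𝔓.under (𝓞 F)).asIdeal := by
    obtain ⟨k, hk⟩ := D.gf.two
    rw [hk]
    push_cast
    exact Ideal.mul_mem_right _ _ h
  have e1 := Pool.Agent.N78.PF.rd_eq (Pool.Agent.N78.PF.sp_le hW) D.one
  exact pin g F L f θ D.gen D.sqf _ (𝔓.under (𝓞 F)).isPrime (𝔓.under (𝓞 F)).ne_bot
    (by rw [e1]; exact D.gf.irr _ (𝔓.under (𝓞 F)).isPrime h) _ hx hN 𝔓 (fun a ha => ha)

/-- the primes over `q` in `J` -/
theorem Dat.evq (D : Dat g W f f₁ θ S J 𝔮 r P) {x : L} (hx : x ≠ 0)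
    (hN : IsSquare (Algebra.norm F x)) {𝔓 : HeightOneSpectrum (𝓞 L)} {q : ℕ} (hq : q ∈ J)
    (hqw : (q : 𝓞 F) ∈ (𝔓.under (𝓞 F)).asIdeal) (h𝔓 : Ov (𝔮 q) 𝔓 → 𝔓.valuation L θ ≠ 1) :
    Ev 𝔓 x := by
  have hqS := D.sub hq
  by_cases cw : (𝔓.under (𝓞 F)).asIdeal = 𝔮 q
  · have o1 : Ov (𝔮 q) 𝔓 := by
      rw [← cw]
      exact fun a ha => ha
    have v1 : 𝔓.valuation L θ < 1 :=
      lt_of_le_of_ne (Pool.Agent.N78.PF.val_theta D.gen 𝔓) (h𝔓 o1)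
    exact parq g W F L f θ S 𝔮 r P D.hg D.gen D.sqf D.gs q hqS (D.cq q hqS) _ hx hN 𝔓 o1 v1
  · have e1 := Pool.Agent.N78.PF.rd_eq (Pool.Agent.N78.PF.sp_le hqw) (D.con q hqS)
    obtain ⟨-, -, -, -, -, -, -, -, -, -, -, -, -, -, a1⟩ := D.gs q hqS
    exact pin g F L f θ D.gen D.sqf _ (𝔓.under (𝓞 F)).isPrime (𝔓.under (𝓞 F)).ne_bot
      (by rw [e1]; exact a1 _ (𝔓.under (𝓞 F)).isPrime hqw cw) _ hx hN 𝔓 (fun a ha => ha)

theorem base (D : Dat g W f f₁ θ S J 𝔮 r P) (htop : im F M Ω ⊔ im F L Ω = ⊤)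
    (hq : ∀ q ∈ J, ∀ w : HeightOneSpectrum (𝓞 M), Ov (𝔮 q) w → Tot F w)
    (hram : ∀ w : HeightOneSpectrum (𝓞 M), ¬ Unr F w →
      Irreducible (rd (w.under (𝓞 F)).asIdeal f)) {x : L} (hx : x ≠ 0)
    (hN : IsSquare (Algebra.norm F x))
    (hC : Cnd J 𝔮 (algebraMap L Ω θ) (algebraMap L Ω (aeval θ (derivative (fF f))))
      (algebraMap L Ω x)) :
    (∀ 𝔓 : HeightOneSpectrum (𝓞 L), (∀ q ∈ J, Ov (𝔮 q) 𝔓 → 𝔓.valuation L θ ≠ 1) → Ev 𝔓 x) ∧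
    ∀ q ∈ J, ∀ 𝔓 : HeightOneSpectrum (𝓞 L), Ov (𝔮 q) 𝔓 → 𝔓.valuation L θ = 1 →
      U0 𝔓 ((q : L) * θ) x := by
  haveI : Normal L Ω := normal_of_top (K := F) (L := L) (M := M) (Ω := Ω) htop
  haveI : IsGalois L Ω := {}
  refine ⟨fun 𝔓 h𝔓 => ?_, fun q hqJ 𝔓 h1 h2 => ?_⟩
  · by_cases c2 : (2 : 𝓞 F) ∈ (𝔓.under (𝓞 F)).asIdeal
    · exact D.ev2 hx hN c2
    by_cases cq : ∃ q ∈ J, (q : 𝓞 F) ∈ (𝔓.under (𝓞 F)).asIdeal
    · obtain ⟨q, hqJ, hqw⟩ := cq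
      exact D.evq hx hN hqJ hqw (h𝔓 q hqJ)
    push Not at cq
    by_cases cr : ∃ w : HeightOneSpectrum (𝓞 M), w.under (𝓞 F) = 𝔓.under (𝓞 F) ∧ ¬ Unr F w
    · obtain ⟨w, hw, hr⟩ := cr
      have h3 := hram w hr
      rw [hw] at h3
      exact pin g F L f θ D.gen D.sqf _ (𝔓.under (𝓞 F)).isPrime (𝔓.under (𝓞 F)).ne_bot h3
        _ hx hN 𝔓 (fun a ha => ha)
    push Not at cr
    have key : ∀ 𝔓₁ : HeightOneSpectrum (𝓞 L), 𝔓₁.under (𝓞 F) = 𝔓.under (𝓞 F) →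
        𝔓₁.valuation L (aeval θ (derivative (fF f))) = 1 → Ev 𝔓₁ x := by
      intro 𝔓₁ hu hv1
      obtain ⟨𝔓', h𝔓'⟩ := exists_above (Ω := Ω) 𝔓₁
      have hw : (𝔓'.under (𝓞 M)).under (𝓞 F) = 𝔓.under (𝓞 F) := by
        rw [← under_under (L := L), h𝔓', hu]
      have hun := unr_comp htop (cr _ hw)
      have hval := unr_val hun
      rw [h𝔓'] at hval
      rw [← ev_down hval]
      refine hC.ev 𝔓' ?_ ?_ (by rw [hval]; exact hv1)
      · intro h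
        apply c2
        rw [← hu, ← h𝔓']
        have e2 := nat_mem_under (L := L) 𝔓' 2
        have e3 := nat_mem_under (L := F) (𝔓'.under (𝓞 L)) 2
        rw [Nat.cast_ofNat, Nat.cast_ofNat] at e2 e3
        rw [e3, e2]
        exact h
      · intro q hqJ h
        apply cq q hqJ
        rw [← hu, ← h𝔓', nat_mem_under (L := F), nat_mem_under (L := L)]
        exact h
    by_cases cu : 𝔓.valuation L (aeval θ (derivative (fF f))) = 1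
    · exact key 𝔓 rfl cu
    · have v1 : 𝔓.valuation L (aeval θ (derivative (fF f))) < 1 :=
        lt_of_le_of_ne (Pool.Agent.N78.PF.val_der D.gen 𝔓) cu
      obtain ⟨⟨c, hc⟩, hother⟩ := ram g F L f θ D.gen D.sqf _ (𝔓.under (𝓞 F)).isPrime
        (𝔓.under (𝓞 F)).ne_bot 𝔓 (fun a ha => ha) v1
      refine par g F L f θ D.gen D.sqf _ (𝔓.under (𝓞 F)).isPrime (𝔓.under (𝓞 F)).ne_bot 𝔓 c
        (fun a ha => ha) hc _ hx hN ?_
      intro 𝔓₁ o1 n1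
      refine key 𝔓₁ ?_ (hother 𝔓₁ o1 n1)
      ext1
      exact (Pool.Agent.N78.PF.eq_of_ov (𝔓.under (𝓞 F)).isPrime (𝔓.under (𝓞 F)).ne_bot o1
        (w := 𝔓₁.under (𝓞 F)) (fun a => Iff.rfl)).symm
  · obtain ⟨𝔓', h𝔓'⟩ := exists_above (Ω := Ω) 𝔓
    have hw : Ov (𝔮 q) (𝔓'.under (𝓞 M)) := by
      intro a ha
      have h3 := h1 a ha
      have h4 : a ∈ (𝔓.under (𝓞 F)).asIdeal := h3
      rw [← h𝔓', under_under (M := M)] at h4
      exact h4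
    have htot := tot_comp htop (hq q hqJ _ hw)
    have hval := unr_val htot.unr
    rw [h𝔓'] at hval
    have hd := tot_dens htot
    have hQ' : Ov (𝔮 q) 𝔓' := by
      intro a ha
      have h3 := hw a ha
      have e : algebraMap (𝓞 F) (𝓞 Ω) a = algebraMap (𝓞 M) (𝓞 Ω) (algebraMap (𝓞 F) (𝓞 M) a) := by
        apply RingOfIntegers.ext
        show algebraMap F Ω (a : F) = algebraMap M Ω (algebraMap F M (a : F))
        rw [← IsScalarTower.algebraMap_apply F M Ω]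
      rw [e]
      exact h3
    have h3 := hC.u0 q hqJ 𝔓' hQ' (by rw [hval]; exact h2)
    refine ⟨fun h4 => sq_down hval hd (h3.1 ((ev_down hval x).2 h4)), fun h4 => ?_⟩
    have h5 := h3.2 fun h6 => h4 ((ev_down hval x).1 h6)
    have e : algebraMap L Ω x * ((q : Ω) * algebraMap L Ω θ) =
        algebraMap L Ω (x * ((q : L) * θ)) := by
      rw [map_mul, map_mul, map_natCast]
    rw [e] at h5
    exact sq_down hval hd h5

end

end Pool.Agent.H14F
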