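import Pool.Agent.H14F.StmB

/-!
# Project F6: stub DUAL
-/

set_option autoImplicit false

namespace Pool.Agent.H14F.DUAL

open Finset Pool.Agent.H14F

theorem res_symm (f g : Fin 3 → ℤ) : res f g = res g f := by
  unfold res
  ring

theorem four_res (f g : Fin 3 → ℤ) :
    4 * res f g = (2 * f 2 * g 0 - f 1 * g 1 + 2 * f 0 * g 2) ^ 2 - disc f * disc g := by
  unfold res disc
  ring

theorem gcd_one {p : ℕ} (hp : p.Prime) {a : ℤ} (h : ¬ (p : ℤ) ∣ a) : a.gcd p = 1 := by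
  have h1 : Nat.Coprime p a.natAbs := (Nat.Prime.coprime_iff_not_dvd hp).2 fun h2 =>
    h (Int.natCast_dvd.2 h2)
  rw [Int.gcd_eq_natAbs, Int.natAbs_natCast]
  exact h1.symm

/-- the resultant is a square modulo `p`, if the discriminant is divisible by `p` -/
theorem char {p : ℕ} (hp : p.Prime) (h3 : 3 ≤ p) (f g : Fin 3 → ℤ) (hd : (p : ℤ) ∣ disc f)
    (hr : ¬ (p : ℤ) ∣ res f g) : jacobiSym (res f g) p = 1 := by
  have hpp : Prime (p : ℤ) := Nat.prime_iff_prime_int.1 hp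
  have h2 : ¬ (p : ℤ) ∣ 2 := by
    intro h
    have : p ∣ 2 := by exact_mod_cast h
    have := Nat.le_of_dvd (by norm_num) this
    omega
  obtain ⟨m, hm⟩ : ∃ m, m = 2 * f 2 * g 0 - f 1 * g 1 + 2 * f 0 * g 2 := ⟨_, rfl⟩
  have e := four_res f g
  rw [← hm] at e
  have hm2 : ¬ (p : ℤ) ∣ m := by
    intro h
    have h4 : (p : ℤ) ∣ 4 * res f g := by
      rw [e]
      exact dvd_sub (h.pow two_ne_zero) (hd.mul_right _)
    rcases hpp.dvd_or_dvd h4 with h5 | h5
    · have : (4 : ℤ) = 2 * 2 := by norm_num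
      rw [this] at h5
      rcases hpp.dvd_or_dvd h5 with h6 | h6 <;> exact h2 h6
    · exact hr h5
  have h5 : jacobiSym (2 ^ 2 * res f g) p = jacobiSym (m ^ 2) p := by
    apply jacobiSym.mod_left'
    apply Int.emod_emod_of_dvd _ (dvd_refl _) |>.symm.trans
    rw [Int.emod_emod_of_dvd _ (dvd_refl _)]
    apply Int.ModEq.eq
    refine (Int.modEq_iff_dvd.2 ?_)
    have : m ^ 2 - 2 ^ 2 * res f g = disc f * disc g := by linear_combination -e
    rw [this]
    exact hd.mul_right _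
  rw [jacobiSym.mul_left, jacobiSym.sq_one' (gcd_one hp h2), jacobiSym.sq_one' (gcd_one hp hm2), one_mul] at h5
  exact h5

theorem bad_iff {p : ℕ} (hp : p.Prime) (h3 : 3 ≤ p) (f g : Fin 3 → ℤ) (t t' m : ℤ)
    (h : res f g = t * (t' * m ^ 2)) (hB : Bad p (jacobiSym t' p) f g) : Bad p (jacobiSym t p) f g := by
  obtain ⟨h1, h2, h4, h5⟩ := hB
  refine ⟨h1, h2, h4, ?_⟩
  have hc := char hp h3 f g h1 h4
  have hm : ¬ (p : ℤ) ∣ m := by
    intro hm
    apply h4
    rw [h]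
    exact ((hm.pow two_ne_zero).mul_left _).mul_left _
  rw [h, jacobiSym.mul_left, jacobiSym.mul_left, jacobiSym.sq_one' (gcd_one hp hm), mul_one] at hc
  rcases Int.mul_eq_one_iff_eq_one_or_neg_one.1 hc with ⟨h6, h7⟩ | ⟨h6, h7⟩
  · rw [h6]
    rw [h7] at h5
    exact h5
  · rw [h6]
    rw [h7] at h5
    exact h5

theorem exists_sqf (r : ℤ) (hr : r ≠ 0) : ∃ t' m : ℤ, r = t' * m ^ 2 ∧ Squarefree t' ∧ m ≠ 0 := by
  obtain ⟨a, b, ha, hb, hab, hs⟩ := Nat.sq_mul_squarefree_of_pos (Int.natAbs_pos.2 hr)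
  have hs' : Squarefree (a : ℤ) := Int.squarefree_natCast.2 hs
  have hb' : (b : ℤ) ≠ 0 := by exact_mod_cast hb.ne'
  rcases le_or_gt 0 r with h0 | h0
  · refine ⟨a, b, ?_, hs', hb'⟩
    rw [← Int.natAbs_of_nonneg h0, ← hab]
    push_cast
    ring
  · refine ⟨-a, b, ?_, ?_, hb'⟩
    · have : r = -(r.natAbs : ℤ) := by
        rw [Int.ofNat_natAbs_of_nonpos h0.le]
        ring
      rw [this, ← hab]
      push_cast
      ring
    · intro x hx
      exact hs' x (by
        have : x * x ∣ -(-(a : ℤ)) := hx.neg_right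
        simpa using this)

theorem dual (hodd : ODDV) (f g : Fin 3 → ℤ) (t : ℤ) (hr : res f g ≠ 0) (ht : t ∣ res f g) (hP : Ps t f g) :
    ∃ t' : ℤ, t'.natAbs ^ 2 ≤ (res f g).natAbs ∧ Ps t' f g := by
  by_cases hle : t.natAbs ^ 2 ≤ (res f g).natAbs
  · exact ⟨t, hle, hP⟩
  rw [not_le] at hle
  obtain ⟨r₁, hr₁⟩ := ht
  have hr0 : r₁ ≠ 0 := fun h => hr (by rw [hr₁, h, mul_zero])
  have ht0 : t ≠ 0 := fun h => hr (by rw [hr₁, h, zero_mul])
  obtain ⟨t', m, h1, h2, h3⟩ := exists_sqf r₁ hr0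
  have hlt : r₁.natAbs < t.natAbs := by
    rw [hr₁, Int.natAbs_mul, pow_two] at hle
    exact lt_of_mul_lt_mul_left hle (Nat.zero_le _)
  have ht' : t'.natAbs ≤ r₁.natAbs := by
    rw [h1, Int.natAbs_mul]
    exact Nat.le_mul_of_pos_right _ (Int.natAbs_pos.2 (pow_ne_zero 2 h3))
  have he : res f g = t * (t' * m ^ 2) := by rw [hr₁, h1]
  refine ⟨t', ?_, h2, ?_, ?_⟩
  · rw [hr₁, Int.natAbs_mul, pow_two]
    exact Nat.mul_le_mul (ht'.trans hlt.le) ht'
  · intro p hp hpt'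
    by_contra hcz
    by_cases hpt : (p : ℤ) ∣ t
    · exact hcz (hP.cz p hp hpt)
    have : Fact p.Prime := ⟨hp⟩
    have h4 := hodd p f g hp hr hcz
    have h5 : t' ≠ 0 := fun h => hr0 (by rw [h1, h, zero_mul])
    rw [he, padicValInt.mul ht0 (mul_ne_zero h5 (pow_ne_zero 2 h3)), padicValInt.mul h5 (pow_ne_zero 2 h3),
      pow_two, padicValInt.mul h3 h3, padicValInt.eq_zero_of_not_dvd hpt] at h4
    have h6 : padicValInt p t' = 1 := by
      have h7 : 1 ≤ padicValInt p t' := by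
        have := (padicValInt_dvd_iff 1 t').1 (by simpa using hpt')
        rcases this with h | h
        · exact absurd h h5
        · exact h
      have h8 : padicValInt p t' ≤ 1 := by
        by_contra hcon
        have h9 : (p : ℤ) ^ 2 ∣ t' := (padicValInt_dvd_iff 2 t').2 (Or.inr (by omega))
        rw [pow_two] at h9
        have h10 := Int.natAbs_of_isUnit (h2 _ h9)
        rw [Int.natAbs_natCast] at h10
        exact hp.one_lt.ne' h10
      omega
    rw [h6] at h4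
    obtain ⟨k, hk⟩ := h4
    omega
  · intro p hp hp3
    have h4 := hP.nb p hp hp3
    refine ⟨fun hB => h4.1 (bad_iff hp hp3 f g t t' m he hB), fun hB => h4.2 ?_⟩
    exact bad_iff hp hp3 g f t t' m (by rw [res_symm, he]) hB

theorem t : Pool.Agent.H14F.DUAL := fun hodd f g t hr ht hP => dual hodd f g t hr ht hP

end Pool.Agent.H14F.DUAL
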