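import Pool.Agent.H14F.StmB

/-!
# Project F6: stub LATC
-/

set_option autoImplicit false

namespace Pool.Agent.H14F.LATC

open Pool.Agent.H14F

theorem ev_int (f : Fin 3 → ℤ) (x w : ℤ) : ev f x w = f 0 * x ^ 2 + f 1 * x * w + f 2 * w ^ 2 := by
  simp [ev]

/-- the value of `f(1, ρ)` modulo `m` -/
theorem congr_rho {m : ℤ} {a b : ℤ} (h : m ∣ a - b) (f : Fin 3 → ℤ)
    (hb : m ∣ f 0 + f 1 * b + f 2 * b ^ 2) : m ∣ f 0 + f 1 * a + f 2 * a ^ 2 := by
  have e : f 0 + f 1 * a + f 2 * a ^ 2 =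
      (f 0 + f 1 * b + f 2 * b ^ 2) + (a - b) * (f 1 + f 2 * (a + b)) := by ring
  rw [e]
  exact dvd_add hb (Dvd.dvd.mul_right h _)

theorem t : LATC := by
  intro d
  induction d using induction_on_primes with
  | zero =>
    intro f g h
    exact absurd rfl h.ne_zero
  | one =>
    intro f g _ _
    exact ⟨1, 1, 0, rfl, one_pos, ⟨by simp, by simp⟩, ⟨by simp, by simp⟩⟩
  | prime_mul p a hp ih =>
    intro f g hsq hcz
    have hp' : Prime (p : ℤ) := Nat.prime_iff_prime_int.mp hp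
    have hcop : Nat.Coprime p a := Nat.coprime_of_squarefree_mul hsq
    obtain ⟨δ, δ', ρ, h1, h2, h3, h4⟩ := ih f g (hsq.of_mul_right)
      (fun q hq hqa => hcz q hq (Dvd.dvd.mul_left hqa p))
    have hc1 : Nat.Coprime p δ := hcop.coprime_dvd_right ⟨δ', h1.symm⟩
    have hc2 : Nat.Coprime p δ' := hcop.coprime_dvd_right ⟨δ, by rw [← h1, mul_comm]⟩
    obtain ⟨x, w, hxw, hf, hg⟩ := hcz p hp (dvd_mul_right p a)
    rw [ev_int] at hf hg
    by_cases hx : (p : ℤ) ∣ x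
    · have hw : ¬ (p : ℤ) ∣ w := fun h => hxw ⟨hx, h⟩
      have hk : ∀ k : Fin 3 → ℤ, (p : ℤ) ∣ k 0 * x ^ 2 + k 1 * x * w + k 2 * w ^ 2 →
          (δ' : ℤ) ∣ k 2 → ((p * δ' : ℕ) : ℤ) ∣ k 2 := by
        intro k hk hk'
        have e : k 2 * w ^ 2 = (k 0 * x ^ 2 + k 1 * x * w + k 2 * w ^ 2) - x * (k 0 * x + k 1 * w) := by
          ring
        have h5 : (p : ℤ) ∣ k 2 * w ^ 2 := by
          rw [e]
          exact dvd_sub hk (Dvd.dvd.mul_right hx _)
        have h6 : (p : ℤ) ∣ k 2 := by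
          rcases hp'.dvd_or_dvd h5 with h | h
          · exact h
          · exact absurd (hp'.dvd_of_dvd_pow h) hw
        push_cast
        exact IsCoprime.mul_dvd (Nat.isCoprime_iff_coprime.2 hc2) h6 hk'
      refine ⟨δ, p * δ', ρ, by rw [← h1]; ring, h2, ⟨h3.1, hk f hf h3.2⟩, ⟨h4.1, hk g hg h4.2⟩⟩
    · -- the inverse of `x`
      have hx1 : IsCoprime x (p : ℤ) := by
        have : IsCoprime (p : ℤ) x := by
          rw [hp'.coprime_iff_not_dvd]; exact hx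
        exact this.symm
      obtain ⟨y, z, hyz⟩ := hx1
      have hp0 : (p : ℤ) ≠ 0 := hp'.ne_zero
      have hr0 : 0 ≤ (w * y) % (p : ℤ) := Int.emod_nonneg _ hp0
      obtain ⟨r, hr⟩ := Int.eq_ofNat_of_zero_le hr0
      have hr1 : (p : ℤ) ∣ w * y - r := by
        rw [← hr]
        exact Int.dvd_self_sub_emod
      have hrx : (p : ℤ) ∣ w - x * r := by
        have e : w - x * r = x * (w * y - r) + w * z * p := by
          have e1 : w * (y * x + z * p) = w * 1 := by rw [hyz]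
          linear_combination (-1 : ℤ) * e1
        rw [e]
        exact dvd_add (Dvd.dvd.mul_left hr1 _) (dvd_mul_left _ _)
      have hval : ∀ k : Fin 3 → ℤ, (p : ℤ) ∣ k 0 * x ^ 2 + k 1 * x * w + k 2 * w ^ 2 →
          (p : ℤ) ∣ k 0 + k 1 * r + k 2 * (r : ℤ) ^ 2 := by
        intro k hk
        have e : (k 0 + k 1 * r + k 2 * (r : ℤ) ^ 2) * x ^ 2 =
            (k 0 * x ^ 2 + k 1 * x * w + k 2 * w ^ 2) -
              (w - x * r) * (k 1 * x + k 2 * (w + x * r)) := by ring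
        have h5 : (p : ℤ) ∣ (k 0 + k 1 * r + k 2 * (r : ℤ) ^ 2) * x ^ 2 := by
          rw [e]
          exact dvd_sub hk (Dvd.dvd.mul_right hrx _)
        rcases hp'.dvd_or_dvd h5 with h | h
        · exact h
        · exact absurd (hp'.dvd_of_dvd_pow h) hx
      obtain ⟨s, hs1, hs2⟩ := Nat.chineseRemainder hc1 r ρ
      have hδ0 : 0 < δ := by omega
      have hpδ : 0 < p * δ := Nat.mul_pos hp.pos hδ0
      set s' := s % (p * δ) with hs'
      have hs3 : s' ≡ r [MOD p] := by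
        have h5 : s' ≡ s [MOD p] := (Nat.mod_modEq s (p * δ)).of_mul_right δ
        exact h5.trans hs1
      have hs4 : s' ≡ ρ [MOD δ] := by
        have h5 : s' ≡ s [MOD δ] := (Nat.mod_modEq s (p * δ)).of_mul_left p
        exact h5.trans hs2
      have hd3 : (p : ℤ) ∣ (s' : ℤ) - r := by
        have := (Nat.modEq_iff_dvd.1 hs3.symm)
        exact this
      have hd4 : (δ : ℤ) ∣ (s' : ℤ) - ρ := by
        have := (Nat.modEq_iff_dvd.1 hs4.symm)
        exact this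
      have hk : ∀ k : Fin 3 → ℤ, (p : ℤ) ∣ k 0 * x ^ 2 + k 1 * x * w + k 2 * w ^ 2 →
          (δ : ℤ) ∣ k 0 + k 1 * ρ + k 2 * (ρ : ℤ) ^ 2 →
          ((p * δ : ℕ) : ℤ) ∣ k 0 + k 1 * s' + k 2 * (s' : ℤ) ^ 2 := by
        intro k hk hk'
        push_cast
        exact IsCoprime.mul_dvd (Nat.isCoprime_iff_coprime.2 hc1) (congr_rho hd3 k (hval k hk))
          (congr_rho hd4 k hk')
      refine ⟨p * δ, δ', s', by rw [← h1]; ring, Nat.mod_lt _ hpδ, ⟨hk f hf h3.1, h3.2⟩,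
        ⟨hk g hg h4.1, h4.2⟩⟩

end Pool.Agent.H14F.LATC
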