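import Pool.Agent.H14F.StmB
import Pool.Agent.H14F.RESC

/-!
# Project F6: stub ODDV
-/

set_option autoImplicit false

namespace Pool.Agent.H14F.ODDV

open Finset Pool.Agent.H14F

theorem res_symm (f g : Fin 3 → ℤ) : res f g = res g f := by
  unfold res
  ring

theorem cz_symm (p : ℕ) (f g : Fin 3 → ℤ) (h : CZ p f g) : CZ p g f := by
  obtain ⟨x, w, h1, h2, h3⟩ := h
  exact ⟨x, w, h1, h3, h2⟩

theorem res_shift (f g g' : Fin 3 → ℤ) (ν : ℤ) (p : ℕ) (h : ∀ i, g i = ν * f i + p * g' i) :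
    res f g = (p : ℤ) ^ 2 * res f g' := by
  unfold res
  rw [h 0, h 1, h 2]
  ring

theorem cz_shift (f g g' : Fin 3 → ℤ) (ν : ℤ) (p : ℕ) (h : ∀ i, g i = ν * f i + p * g' i)
    (hc : CZ p f g') : CZ p f g := by
  obtain ⟨x, w, h1, h2, h3⟩ := hc
  refine ⟨x, w, h1, h2, ?_⟩
  have e : ev g x w = ν * ev f x w + p * ev g' x w := by
    unfold ev
    rw [h 0, h 1, h 2]
    push_cast
    ring
  rw [e]
  exact dvd_add (h2.mul_left _) (dvd_mul_right _ _)

theorem cz_or (p : ℕ) [Fact p.Prime] (f g : Fin 3 → ℤ) (h : (p : ℤ) ∣ res f g) :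
    CZ p f g ∨ (∃ (ν : ℤ) (g' : Fin 3 → ℤ), ∀ i, g i = ν * f i + p * g' i) ∨
      ∃ (f' : Fin 3 → ℤ), ∀ i, f i = 0 * g i + p * f' i := by
  have hp : p.Prime := Fact.out
  have h1 := (RESC.res_iff p f g).1 h
  rcases RESC.cases _ _ h1 with ⟨t, h2, h3⟩ | ⟨h2, h3⟩ | ⟨c, hc⟩ | h0
  · left
    refine ⟨1, (t.val : ℤ), ?_, ?_, ?_⟩
    · rintro ⟨h4, -⟩
      have : (p : ℤ) ∣ ((1 : ℕ) : ℤ) := by simpa using h4
      exact hp.one_lt.ne' (Nat.dvd_one.1 (Int.natCast_dvd_natCast.1 this))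
    · rw [← ZMod.intCast_zmod_eq_zero_iff_dvd]
      unfold ev
      push_cast
      rw [ZMod.natCast_zmod_val]
      have : RESC.rd p f 0 + RESC.rd p f 1 * t + RESC.rd p f 2 * t ^ 2 = 0 := h2
      unfold RESC.rd at this
      linear_combination this
    · rw [← ZMod.intCast_zmod_eq_zero_iff_dvd]
      unfold ev
      push_cast
      rw [ZMod.natCast_zmod_val]
      have : RESC.rd p g 0 + RESC.rd p g 1 * t + RESC.rd p g 2 * t ^ 2 = 0 := h3
      unfold RESC.rd at this
      linear_combination this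
  · left
    refine ⟨0, 1, ?_, ?_, ?_⟩
    · rintro ⟨-, h4⟩
      have : (p : ℤ) ∣ ((1 : ℕ) : ℤ) := by simpa using h4
      exact hp.one_lt.ne' (Nat.dvd_one.1 (Int.natCast_dvd_natCast.1 this))
    · rw [← ZMod.intCast_zmod_eq_zero_iff_dvd]
      unfold ev
      push_cast
      have : RESC.rd p f 2 = 0 := h2
      unfold RESC.rd at this
      linear_combination this
    · rw [← ZMod.intCast_zmod_eq_zero_iff_dvd]
      unfold ev
      push_cast
      have : RESC.rd p g 2 = 0 := h3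
      unfold RESC.rd at this
      linear_combination this
  · right; left
    have h2 : ∀ i, ∃ k : ℤ, g i = (c.val : ℤ) * f i + p * k := by
      intro i
      have h3 : RESC.rd p g i = c * RESC.rd p f i := congrFun hc i
      unfold RESC.rd at h3
      have h4 : (p : ℤ) ∣ g i - (c.val : ℤ) * f i := by
        rw [← ZMod.intCast_zmod_eq_zero_iff_dvd]
        push_cast
        rw [ZMod.natCast_zmod_val, h3, sub_self]
      obtain ⟨k, hk⟩ := h4
      exact ⟨k, by linear_combination hk⟩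
    choose g' hg' using h2
    exact ⟨_, g', hg'⟩
  · right; right
    have h2 : ∀ i, ∃ k : ℤ, f i = 0 * g i + p * k := by
      intro i
      have h3 : RESC.rd p f i = 0 := congrFun h0 i
      unfold RESC.rd at h3
      obtain ⟨k, hk⟩ := (ZMod.intCast_zmod_eq_zero_iff_dvd _ _).1 h3
      exact ⟨k, by linear_combination hk⟩
    choose f' hf' using h2
    exact ⟨f', hf'⟩

theorem step (p : ℕ) (hp : p.Prime) (f g g' : Fin 3 → ℤ) (ν : ℤ) (h : ∀ i, g i = ν * f i + p * g' i)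
    (hr : res f g ≠ 0) (hcz : ¬ CZ p f g)
    (ih : ∀ f₁ g₁ : Fin 3 → ℤ, (res f₁ g₁).natAbs < (res f g).natAbs → res f₁ g₁ ≠ 0 → ¬ CZ p f₁ g₁ →
      Even (padicValInt p (res f₁ g₁))) : Even (padicValInt p (res f g)) := by
  have : Fact p.Prime := ⟨hp⟩
  have e := res_shift f g g' ν p h
  have hr' : res f g' ≠ 0 := fun h0 => hr (by rw [e, h0, mul_zero])
  have hp0 : (p : ℤ) ≠ 0 := by exact_mod_cast hp.ne_zero
  have h1 := ih f g' (by
    rw [e, Int.natAbs_mul, Int.natAbs_pow, Int.natAbs_natCast]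
    have h2 : 0 < (res f g').natAbs := Int.natAbs_pos.2 hr'
    have h3 : 1 < p ^ 2 := Nat.one_lt_pow (by norm_num) hp.one_lt
    exact lt_mul_left h2 h3) hr' (fun hc => hcz (cz_shift f g g' ν p h hc))
  rw [e, padicValInt.mul (pow_ne_zero 2 hp0) hr']
  have h4 : padicValInt p ((p : ℤ) ^ 2) = 2 := by
    rw [padicValInt, Int.natAbs_pow, Int.natAbs_natCast, padicValNat.prime_pow]
  rw [h4]
  exact (even_two).add h1

theorem main (p : ℕ) (hp : p.Prime) : ∀ (n : ℕ) (f g : Fin 3 → ℤ), (res f g).natAbs = n → res f g ≠ 0 →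
    ¬ CZ p f g → Even (padicValInt p (res f g)) := by
  have : Fact p.Prime := ⟨hp⟩
  intro n
  induction n using Nat.strong_induction_on with
  | _ n ih =>
    intro f g hn hr hcz
    by_cases hd : (p : ℤ) ∣ res f g
    · rcases cz_or p f g hd with h | ⟨ν, g', h⟩ | ⟨f', h⟩
      · exact absurd h hcz
      · exact step p hp f g g' ν h hr hcz fun f₁ g₁ h1 h2 h3 => ih _ (by rw [← hn]; exact h1) f₁ g₁ rfl h2 h3
      · rw [res_symm]
        refine step p hp g f f' 0 h (by rw [res_symm]; exact hr) (fun hc => hcz (cz_symm p g f hc))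
          fun f₁ g₁ h1 h2 h3 => ih _ (by rw [← hn, res_symm f g]; exact h1) f₁ g₁ rfl h2 h3
    · rw [padicValInt.eq_zero_of_not_dvd hd]
      exact Even.zero

theorem t : Pool.Agent.H14F.ODDV := fun p f g hp hr hcz => main p hp _ f g rfl hr hcz

end Pool.Agent.H14F.ODDV
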