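import Pool.Agent.H14F.StmB

/-!
# Project F6: stub PASS1
-/

set_option autoImplicit false

namespace Pool.Agent.H14F.PASS1

open Pool.Agent.H14F

theorem ev_int (f : Fin 3 → ℤ) (x w : ℤ) : ev f x w = f 0 * x ^ 2 + f 1 * x * w + f 2 * w ^ 2 := by
  simp [ev]

/-- a common zero modulo `p` -/
theorem res_of_zero {p : ℕ} (hp : p.Prime) {f g : Fin 3 → ℤ} {x w : ℤ}
    (hxw : ¬ ((p : ℤ) ∣ x ∧ (p : ℤ) ∣ w)) (h1 : (p : ℤ) ∣ ev f x w) (h2 : (p : ℤ) ∣ ev g x w) :
    (p : ℤ) ∣ res f g := by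
  have hp' : Prime (p : ℤ) := Nat.prime_iff_prime_int.mp hp
  rw [ev_int] at h1 h2
  by_cases hx : (p : ℤ) ∣ x
  · have hw : ¬ (p : ℤ) ∣ w := fun h => hxw ⟨hx, h⟩
    have hk : ∀ k : Fin 3 → ℤ, (p : ℤ) ∣ k 0 * x ^ 2 + k 1 * x * w + k 2 * w ^ 2 → (p : ℤ) ∣ k 2 := by
      intro k hk
      have e : k 2 * w ^ 2 = (k 0 * x ^ 2 + k 1 * x * w + k 2 * w ^ 2) - x * (k 0 * x + k 1 * w) := by
        ring
      have h3 : (p : ℤ) ∣ k 2 * w ^ 2 := by
        rw [e]
        exact dvd_sub hk (Dvd.dvd.mul_right hx _)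
      rcases hp'.dvd_or_dvd h3 with h | h
      · exact h
      · exact absurd (hp'.dvd_of_dvd_pow h) hw
    obtain ⟨a, ha⟩ := hk f h1
    obtain ⟨b, hb⟩ := hk g h2
    rw [res, ha, hb]
    exact ⟨p * (f 0 * b - g 0 * a) ^ 2 - (f 0 * g 1 - g 0 * f 1) * (f 1 * b - g 1 * a), by ring⟩
  · by_cases hw : (p : ℤ) ∣ w
    · have hk : ∀ k : Fin 3 → ℤ, (p : ℤ) ∣ k 0 * x ^ 2 + k 1 * x * w + k 2 * w ^ 2 →
          (p : ℤ) ∣ k 0 := by
        intro k hk
        have e : k 0 * x ^ 2 = (k 0 * x ^ 2 + k 1 * x * w + k 2 * w ^ 2) - w * (k 2 * w + k 1 * x) := by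
          ring
        have h3 : (p : ℤ) ∣ k 0 * x ^ 2 := by
          rw [e]
          exact dvd_sub hk (Dvd.dvd.mul_right hw _)
        rcases hp'.dvd_or_dvd h3 with h | h
        · exact h
        · exact absurd (hp'.dvd_of_dvd_pow h) hx
      obtain ⟨a, ha⟩ := hk f h1
      obtain ⟨b, hb⟩ := hk g h2
      rw [res, ha, hb]
      exact ⟨p * (a * g 2 - b * f 2) ^ 2 - (a * g 1 - b * f 1) * (f 1 * g 2 - g 1 * f 2), by ring⟩
    · have e : res f g * (x ^ 2 * w) =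
          (g 2 * f 1 - f 2 * g 1) * x * (g 0 * (f 0 * x ^ 2 + f 1 * x * w + f 2 * w ^ 2) -
            f 0 * (g 0 * x ^ 2 + g 1 * x * w + g 2 * w ^ 2)) -
          (g 0 * f 2 - f 0 * g 2) * w * (g 2 * (f 0 * x ^ 2 + f 1 * x * w + f 2 * w ^ 2) -
            f 2 * (g 0 * x ^ 2 + g 1 * x * w + g 2 * w ^ 2)) := by
        rw [res]; ring
      have h3 : (p : ℤ) ∣ res f g * (x ^ 2 * w) := by
        rw [e]
        exact dvd_sub (Dvd.dvd.mul_left (dvd_sub (Dvd.dvd.mul_left h1 _) (Dvd.dvd.mul_left h2 _)) _)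
          (Dvd.dvd.mul_left (dvd_sub (Dvd.dvd.mul_left h1 _) (Dvd.dvd.mul_left h2 _)) _)
      rcases hp'.dvd_or_dvd h3 with h | h
      · exact h
      · rcases hp'.dvd_or_dvd h with h | h
        · exact absurd (hp'.dvd_of_dvd_pow h) hx
        · exact absurd h hw

theorem jac_congr {p : ℕ} {a b : ℤ} (h : (p : ℤ) ∣ a - b) : jacobiSym a p = jacobiSym b p :=
  jacobiSym.mod_left' (Int.emod_emod_of_dvd _ (dvd_refl _) ▸ (Int.emod_emod_of_dvd a (dvd_refl (p : ℤ))).symm ▸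
    (Int.ModEq.symm ((Int.modEq_iff_dvd).2 h)))

theorem gcd_one {p : ℕ} (hp : p.Prime) {a : ℤ} (h : ¬ (p : ℤ) ∣ a) : a.gcd p = 1 := by
  have hp' : Prime (p : ℤ) := Nat.prime_iff_prime_int.mp hp
  have h1 : IsCoprime (p : ℤ) a := by
    rw [hp'.coprime_iff_not_dvd]
    exact h
  exact Int.isCoprime_iff_gcd_eq_one.1 h1.symm

theorem key {p : ℕ} (hp : p.Prime) (h3 : 3 ≤ p) {f g : Fin 3 → ℤ} {t x w u v : ℤ}
    (hf : (p : ℤ) ^ 2 ∣ ev f x w - t * u ^ 2) (hg : (p : ℤ) ^ 2 ∣ ev g x w - t * v ^ 2)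
    (hxw : ¬ ((p : ℤ) ∣ x ∧ (p : ℤ) ∣ w)) : ¬ Bad p (jacobiSym t p) f g := by
  rintro ⟨hd, hd2, hr, hgen⟩
  have hp' : Prime (p : ℤ) := Nat.prime_iff_prime_int.mp hp
  have hodd : Odd p := hp.odd_of_ne_two (by omega)
  have hpp2 : (p : ℤ) ∣ (p : ℤ) ^ 2 := dvd_pow_self _ two_ne_zero
  by_cases ht : (p : ℤ) ∣ t
  · apply hr
    have h1 : ∀ (k : Fin 3 → ℤ) (y : ℤ), (p : ℤ) ^ 2 ∣ ev k x w - t * y ^ 2 → (p : ℤ) ∣ ev k x w := by
      intro k y hk
      have h2 := dvd_add (hpp2.trans hk) (Dvd.dvd.mul_right ht (y ^ 2))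
      rwa [sub_add_cancel] at h2
    exact res_of_zero hp hxw (h1 f u hf) (h1 g v hg)
  · have i1 : 4 * f 0 * ev f x w = (2 * f 0 * x + f 1 * w) ^ 2 - disc f * w ^ 2 := by
      rw [ev_int, disc]; ring
    have i2 : 4 * f 2 * ev f x w = (2 * f 2 * w + f 1 * x) ^ 2 - disc f * x ^ 2 := by
      rw [ev_int, disc]; ring
    by_cases hA : (p : ℤ) ∣ ev f x w
    · have hu : (p : ℤ) ∣ u := by
        have h1 := dvd_sub hA (hpp2.trans hf)
        rw [sub_sub_cancel] at h1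
        rcases hp'.dvd_or_dvd h1 with h | h
        · exact absurd h ht
        · exact hp'.dvd_of_dvd_pow h
      have hA2 : (p : ℤ) ^ 2 ∣ ev f x w := by
        have h1 := dvd_add hf (Dvd.dvd.mul_left (pow_dvd_pow_of_dvd hu 2) t)
        rwa [sub_add_cancel] at h1
      have hsq : ∀ (y b z : ℤ), 4 * y * ev f x w = b ^ 2 - disc f * z ^ 2 → (p : ℤ) ^ 2 ∣ disc f * z ^ 2 := by
        intro y b z h
        have h1 : b ^ 2 = 4 * y * ev f x w + disc f * z ^ 2 := by linarith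
        have h2 : (p : ℤ) ∣ b ^ 2 := by
          rw [h1]
          exact dvd_add (Dvd.dvd.mul_left hA _) (Dvd.dvd.mul_right hd _)
        have h4 : (p : ℤ) ^ 2 ∣ b ^ 2 := pow_dvd_pow_of_dvd (hp'.dvd_of_dvd_pow h2) 2
        have h5 : disc f * z ^ 2 = b ^ 2 - 4 * y * ev f x w := by linarith
        rw [h5]
        exact dvd_sub h4 (Dvd.dvd.mul_left hA2 _)
      have hcop : ∀ z : ℤ, ¬ (p : ℤ) ∣ z → (p : ℤ) ^ 2 ∣ disc f * z ^ 2 → (p : ℤ) ^ 2 ∣ disc f := by
        intro z hz h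
        have h1 : IsCoprime (p : ℤ) z := by
          rw [hp'.coprime_iff_not_dvd]; exact hz
        exact (h1.pow (m := 2) (n := 2)).dvd_of_dvd_mul_right h
      by_cases hw : (p : ℤ) ∣ w
      · have hx : ¬ (p : ℤ) ∣ x := fun h => hxw ⟨h, hw⟩
        exact hd2 (hcop x hx (hsq _ _ _ i2))
      · exact hd2 (hcop w hw (hsq _ _ _ i1))
    · have hu : ¬ (p : ℤ) ∣ u := by
        intro h
        apply hA
        have h1 := dvd_add (hpp2.trans hf) (Dvd.dvd.mul_left (dvd_pow h two_ne_zero) t)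
        rwa [sub_add_cancel] at h1
      have jA : jacobiSym (ev f x w) p = jacobiSym t p := by
        rw [jac_congr (hpp2.trans hf), jacobiSym.mul_left, jacobiSym.sq_one' (gcd_one hp hu), mul_one]
      apply hgen
      rw [← jA, gen]
      split_ifs with h0
      · have h1 : (p : ℤ) ∣ f 1 := by
          apply hp'.dvd_of_dvd_pow (n := 2)
          have e : f 1 ^ 2 = disc f + f 0 * (4 * f 2) := by rw [disc]; ring
          rw [e]
          exact dvd_add hd (Dvd.dvd.mul_right h0 _)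
        have e : ev f x w - f 2 * w ^ 2 = f 0 * x ^ 2 + f 1 * (x * w) := by rw [ev_int]; ring
        have h2 : (p : ℤ) ∣ ev f x w - f 2 * w ^ 2 := by
          rw [e]
          exact dvd_add (Dvd.dvd.mul_right h0 _) (Dvd.dvd.mul_right h1 _)
        have hw : ¬ (p : ℤ) ∣ w := by
          intro h
          apply hA
          have h4 := dvd_add h2 (Dvd.dvd.mul_left (dvd_pow h two_ne_zero) (f 2))
          rwa [sub_add_cancel] at h4
        rw [jac_congr h2, jacobiSym.mul_left, jacobiSym.sq_one' (gcd_one hp hw), mul_one]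
      · have h4 : ¬ (p : ℤ) ∣ 4 := by
          intro h
          have h5 : (p : ℤ) ∣ 2 ^ 2 := by norm_num; exact h
          have h6 := Int.le_of_dvd (by norm_num) (hp'.dvd_of_dvd_pow h5)
          omega
        have hm : ¬ (p : ℤ) ∣ 4 * f 0 * ev f x w := by
          intro h
          rcases hp'.dvd_or_dvd h with h | h
          · rcases hp'.dvd_or_dvd h with h | h
            · exact h4 h
            · exact h0 h
          · exact hA h
        have h5 : (p : ℤ) ∣ 4 * f 0 * ev f x w - (2 * f 0 * x + f 1 * w) ^ 2 := by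
          rw [i1]
          exact ⟨-(disc f / p * w ^ 2), by
            obtain ⟨q, hq⟩ := hd
            have hp0 : (p : ℤ) ≠ 0 := hp'.ne_zero
            rw [hq, Int.mul_ediv_cancel_left _ hp0]; ring⟩
        have hs : ¬ (p : ℤ) ∣ 2 * f 0 * x + f 1 * w := by
          intro h
          apply hm
          have h6 := dvd_add h5 (dvd_pow h two_ne_zero)
          rwa [sub_add_cancel] at h6
        have h7 := jac_congr h5
        rw [jacobiSym.sq_one' (gcd_one hp hs), jacobiSym.mul_left, jacobiSym.mul_left,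
          jacobiSym.at_four hodd, one_mul] at h7
        rcases jacobiSym.eq_one_or_neg_one (gcd_one hp h0) with h8 | h8
        · rw [h8, one_mul] at h7
          rw [h8, h7]
        · rw [h8] at h7
          rw [h8]
          linarith

theorem t : PASS1 := by
  intro f g t p hp h3 hobs
  unfold ObsF at hobs
  push Not at hobs
  obtain ⟨x, w, u, v, hf, hg, hxw⟩ := hobs
  have hxw' : ¬ ((p : ℤ) ∣ x ∧ (p : ℤ) ∣ w) := by
    rintro ⟨h1, h2⟩
    exact hxw h1 h2
  exact ⟨key hp h3 hf hg hxw', key hp h3 hg hf hxw'⟩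

end Pool.Agent.H14F.PASS1
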