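import Pool.Agent.H14F.StmB

/-!
# Project F6: stub SKC
-/

set_option autoImplicit false

namespace Pool.Agent.H14F.SKC

open Finset Pool.Agent.H14F

/-- the vector product of the first two rows -/
def cr (e : Fin 3 → Fin 3 → ℤ) : Fin 3 → ℤ :=
  ![e 0 1 * e 1 2 - e 0 2 * e 1 1, e 0 2 * e 1 0 - e 0 0 * e 1 2, e 0 0 * e 1 1 - e 0 1 * e 1 0]

theorem cr_zero (e : Fin 3 → Fin 3 → ℤ) : cr e 0 = e 0 1 * e 1 2 - e 0 2 * e 1 1 := rfl
theorem cr_one (e : Fin 3 → Fin 3 → ℤ) : cr e 1 = e 0 2 * e 1 0 - e 0 0 * e 1 2 := rfl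
theorem cr_two (e : Fin 3 → Fin 3 → ℤ) : cr e 2 = e 0 0 * e 1 1 - e 0 1 * e 1 0 := rfl

theorem dot_lin (e : Fin 3 → Fin 3 → ℤ) (x : Fin 3 → ℤ) :
    dot (cr e) (lin e x) = x 2 * (Matrix.of e).det := by
  rw [Matrix.det_fin_three]
  unfold dot lin
  simp only [Fin.sum_univ_three, Matrix.of_apply, cr_zero, cr_one, cr_two]
  ring

theorem le_nrm (f : Fin 3 → ℤ) (i : Fin 3) : (f i).natAbs ≤ nrm f :=
  Finset.le_sup (f := fun i => (f i).natAbs) (mem_univ i)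

theorem nrm_le (f : Fin 3 → ℤ) (b : ℕ) (h : ∀ i, (f i).natAbs ≤ b) : nrm f ≤ b :=
  Finset.sup_le fun i _ => h i

theorem nrm_smul (j : ℕ) (m n : Fin 3 → ℤ) (h : ∀ i, m i = j * n i) : j * nrm n ≤ nrm m := by
  obtain ⟨i, _, hi⟩ := Finset.exists_mem_eq_sup (univ : Finset (Fin 3)) ⟨0, mem_univ _⟩ fun i => (n i).natAbs
  have : nrm n = (n i).natAbs := hi
  rw [this]
  have h2 := le_nrm m i
  rwa [h i, Int.natAbs_mul, Int.natAbs_natCast] at h2

theorem nrm_cr (e : Fin 3 → Fin 3 → ℤ) : nrm (cr e) ≤ 2 * nrm (e 0) * nrm (e 1) := by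
  have key : ∀ i j k l : Fin 3, (e 0 i * e 1 j - e 0 k * e 1 l).natAbs ≤ 2 * nrm (e 0) * nrm (e 1) := by
    intro i j k l
    have h1 : (e 0 i * e 1 j).natAbs ≤ nrm (e 0) * nrm (e 1) := by
      rw [Int.natAbs_mul]
      exact Nat.mul_le_mul (le_nrm _ _) (le_nrm _ _)
    have h2 : (e 0 k * e 1 l).natAbs ≤ nrm (e 0) * nrm (e 1) := by
      rw [Int.natAbs_mul]
      exact Nat.mul_le_mul (le_nrm _ _) (le_nrm _ _)
    have h3 := Int.natAbs_sub_le (e 0 i * e 1 j) (e 0 k * e 1 l)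
    calc (e 0 i * e 1 j - e 0 k * e 1 l).natAbs ≤ _ := h3
      _ ≤ nrm (e 0) * nrm (e 1) + nrm (e 0) * nrm (e 1) := Nat.add_le_add h1 h2
      _ = _ := by ring
  refine nrm_le _ _ fun i => ?_
  fin_cases i
  · exact key 1 2 2 1
  · exact key 2 0 0 2
  · exact key 0 1 1 0

theorem sqf_dvd (D : ℕ) (N : ℤ) (hD : Squarefree D) (h : ∀ p : ℕ, p.Prime → p ∣ D → (p : ℤ) ∣ N) :
    (D : ℤ) ∣ N := by
  rw [Int.natCast_dvd, ← Nat.prod_primeFactors_of_squarefree hD]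
  apply Finset.prod_primes_dvd
  · intro p hp
    exact (Nat.prime_of_mem_primeFactors hp).prime
  · intro p hp
    exact Int.natCast_dvd.1 (h p (Nat.prime_of_mem_primeFactors hp) (Nat.dvd_of_mem_primeFactors hp))

theorem row (e : Fin 3 → Fin 3 → ℤ) (i : Fin 3) : e i = lin e (Pi.single i 1) := by
  funext j
  unfold lin
  rw [Finset.sum_eq_single i]
  · simp
  · intro b _ hb
    simp [Pi.single_eq_of_ne hb]
  · intro h
    exact absurd (mem_univ i) h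

theorem box_nrm {H : ℕ} {f : Fin 3 → ℤ} (hf : f ∈ box H) : nrm f ≤ H := by
  unfold box rbox at hf
  rw [Fintype.mem_piFinset] at hf
  refine nrm_le _ _ fun i => ?_
  have h := mem_Icc.1 (hf i)
  beta_reduce at h
  omega

theorem main (C H Z δ δ' ρ : ℕ) (e : Fin 3 → Fin 3 → ℤ) (f g : Fin 3 → ℤ) (hC : 1 ≤ C) (hH : 1 ≤ H)
    (hZ : 1 ≤ Z) (hsq : Squarefree (δ * δ')) (hd : δ * δ' ≤ 3 * H ^ 2) (hR : Rd C δ δ' ρ e)
    (h2 : H < nrm (e 2) * Z) (hf : f ∈ box H) (hg : g ∈ box H) (hfL : Lat δ δ' ρ f) (hgL : Lat δ δ' ρ g) :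
    Sk (6 * C) H Z f g := by
  obtain ⟨d, hdd⟩ : ∃ d, d = δ * δ' := ⟨_, rfl⟩
  rw [← hdd] at hsq hd
  have hd0 : d ≠ 0 := hsq.ne_zero
  have hdet : (Matrix.of e).det.natAbs = d := by rw [hR.det, hdd]
  obtain ⟨m, hm⟩ : ∃ m, m = cr e := ⟨_, rfl⟩
  have hdm : dot m (e 2) = (Matrix.of e).det := by
    rw [hm]
    conv_lhs => rw [row e 2]
    rw [dot_lin, Pi.single_eq_same, one_mul]
  -- the common divisor
  obtain ⟨j, hj⟩ : ∃ j : ℕ, j = Nat.gcd (m 0).natAbs (Nat.gcd (m 1).natAbs (m 2).natAbs) := ⟨_, rfl⟩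
  have hjm : ∀ i, (j : ℤ) ∣ m i := by
    intro i
    rw [Int.natCast_dvd, hj]
    fin_cases i
    · exact Nat.gcd_dvd_left _ _
    · exact (Nat.gcd_dvd_right _ _).trans (Nat.gcd_dvd_left _ _)
    · exact (Nat.gcd_dvd_right _ _).trans (Nat.gcd_dvd_right _ _)
  choose n hn using hjm
  have hjd : (j : ℤ) * dot n (e 2) = (Matrix.of e).det := by
    rw [← hdm]
    unfold dot
    rw [hn 0, hn 1, hn 2]
    ring
  obtain ⟨D, hD⟩ : ∃ D, D = (dot n (e 2)).natAbs := ⟨_, rfl⟩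
  have hjD : d = j * D := by
    rw [← hdet, ← hjd, Int.natAbs_mul, Int.natAbs_natCast, hD]
  have hj0 : j ≠ 0 := by
    intro h
    rw [h, zero_mul] at hjD
    exact hd0 hjD
  have hD0 : D ≠ 0 := by
    intro h
    rw [h, mul_zero] at hjD
    exact hd0 hjD
  have hjpos : 0 < j := Nat.pos_of_ne_zero hj0
  have hj0' : (j : ℤ) ≠ 0 := by exact_mod_cast hj0
  have hDsq : Squarefree D := hsq.squarefree_of_dvd (by rw [hjD]; exact dvd_mul_left _ _)
  -- the values at the forms of the lattice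
  have hval : ∀ f : Fin 3 → ℤ, f ∈ box H → Lat δ δ' ρ f →
      (D : ℤ) ∣ dot n f ∧ (dot n f).natAbs ≤ 6 * C * Z * D := by
    intro f hf hfL
    obtain ⟨x, hx⟩ := (hR.lat f).1 hfL
    have h3 : dot n f = x 2 * dot n (e 2) := by
      have h4 := dot_lin e x
      rw [← hm, ← hx, ← hjd] at h4
      have h5 : (j : ℤ) * dot n f = dot m f := by
        unfold dot
        rw [hn 0, hn 1, hn 2]
        ring
      apply mul_left_cancel₀ hj0'
      rw [h5, h4]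
      ring
    refine ⟨?_, ?_⟩
    · rw [h3]
      exact Dvd.dvd.mul_left (Int.natCast_dvd.2 (by rw [hD])) _
    · rw [h3, Int.natAbs_mul, ← hD]
      apply Nat.mul_le_mul_right
      have h6 := hR.coord x 2
      rw [← hx] at h6
      have h7 : (x 2).natAbs * nrm (e 2) ≤ C * H := h6.trans (Nat.mul_le_mul_left _ (box_nrm hf))
      have h8 : (x 2).natAbs * nrm (e 2) ≤ (C * Z) * nrm (e 2) := by
        calc (x 2).natAbs * nrm (e 2) ≤ C * H := h7
          _ ≤ C * (nrm (e 2) * Z) := Nat.mul_le_mul_left _ h2.le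
          _ = _ := by ring
      have h9 : 0 < nrm (e 2) := by
        rcases Nat.eq_zero_or_pos (nrm (e 2)) with h | h
        · rw [h, zero_mul] at h2
          omega
        · exact h
      have h10 := Nat.le_of_mul_le_mul_right h8 h9
      calc (x 2).natAbs ≤ C * Z := h10
        _ ≤ 6 * C * Z := by nlinarith
  have hnm : H * nrm n ≤ 2 * C * Z * D := by
    have h3 := nrm_smul j m n hn
    have h4 := nrm_cr e
    rw [← hm] at h4
    have h5 := hR.prod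
    rw [← hdd] at h5
    have h6 : j * (H * nrm n) ≤ j * (2 * C * Z * D) := by
      calc j * (H * nrm n) = H * (j * nrm n) := by ring
        _ ≤ H * nrm m := Nat.mul_le_mul_left _ h3
        _ ≤ H * (2 * nrm (e 0) * nrm (e 1)) := Nat.mul_le_mul_left _ h4
        _ ≤ (nrm (e 2) * Z) * (2 * nrm (e 0) * nrm (e 1)) := Nat.mul_le_mul_right _ h2.le
        _ = 2 * Z * (nrm (e 0) * nrm (e 1) * nrm (e 2)) := by ring
        _ ≤ 2 * Z * (C * d) := Nat.mul_le_mul_left _ h5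
        _ = j * (2 * C * Z * D) := by rw [hjD]; ring
    exact Nat.le_of_mul_le_mul_left h6 hjpos
  refine ⟨n, D, Nat.one_le_iff_ne_zero.2 hD0, ?_, ?_, (hval f hf hfL).1, (hval g hg hgL).1,
    (hval f hf hfL).2, (hval g hg hgL).2, ?_, ?_⟩
  · intro p hp hall
    have h3 : p * j ∣ j := by
      have h4 : ∀ i, p * j ∣ (m i).natAbs := by
        intro i
        rw [hn i, Int.natAbs_mul, Int.natAbs_natCast, mul_comm p j]
        exact Nat.mul_dvd_mul_left _ (Int.natCast_dvd.1 (hall i))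
      conv_rhs => rw [hj]
      exact Nat.dvd_gcd (h4 0) (Nat.dvd_gcd (h4 1) (h4 2))
    have h4 := Nat.le_of_dvd hjpos h3
    have h5 := hp.two_le
    nlinarith
  · apply sqf_dvd D _ hDsq
    intro p hp hpD
    have hpp : Prime (p : ℤ) := Nat.prime_iff_prime_int.1 hp
    have hpj : ¬ (p : ℤ) ∣ j := by
      intro h
      have h3 : p ∣ j := by exact_mod_cast h
      have h4 : p * p ∣ d := by
        rw [hjD]
        exact mul_dvd_mul h3 hpD
      have h5 := Nat.isUnit_iff.1 (hsq p h4)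
      exact hp.one_lt.ne' h5
    have hlat : ∀ i, Lat δ δ' ρ (e i) := fun i => (hR.lat _).2 ⟨_, row e i⟩
    have hpd : p ∣ δ * δ' := by
      rw [← hdd, hjD]
      exact hpD.mul_left _
    have hmm : (p : ℤ) ∣ m 1 ^ 2 - m 0 * m 2 := by
      rw [hm, cr_zero, cr_one, cr_two]
      rcases (Nat.Prime.dvd_mul hp).1 hpd with h | h
      · obtain ⟨a, ha⟩ := (Int.natCast_dvd_natCast.2 h).trans (hlat 0).1
        obtain ⟨b, hb⟩ := (Int.natCast_dvd_natCast.2 h).trans (hlat 1).1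
        have ha' : e 0 0 = p * a - e 0 1 * ρ - e 0 2 * (ρ : ℤ) ^ 2 := by linear_combination ha
        have hb' : e 1 0 = p * b - e 1 1 * ρ - e 1 2 * (ρ : ℤ) ^ 2 := by linear_combination hb
        -- `m 1 - ρ m 0 ≡ 0` and `m 2 - ρ² m 0 ≡ 0`
        have h1 : (p : ℤ) ∣ (e 0 2 * e 1 0 - e 0 0 * e 1 2) - ρ * (e 0 1 * e 1 2 - e 0 2 * e 1 1) := by
          rw [ha', hb']
          exact ⟨e 0 2 * b - a * e 1 2, by ring⟩
        have h2 : (p : ℤ) ∣ (e 0 0 * e 1 1 - e 0 1 * e 1 0) - (ρ : ℤ) ^ 2 * (e 0 1 * e 1 2 - e 0 2 * e 1 1) := by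
          rw [ha', hb']
          exact ⟨a * e 1 1 - e 0 1 * b, by ring⟩
        obtain ⟨k, hk⟩ := h1
        obtain ⟨l, hl⟩ := h2
        obtain ⟨M0, hM0⟩ : ∃ M0, M0 = e 0 1 * e 1 2 - e 0 2 * e 1 1 := ⟨_, rfl⟩
        obtain ⟨M1, hM1⟩ : ∃ M1, M1 = e 0 2 * e 1 0 - e 0 0 * e 1 2 := ⟨_, rfl⟩
        obtain ⟨M2, hM2⟩ : ∃ M2, M2 = e 0 0 * e 1 1 - e 0 1 * e 1 0 := ⟨_, rfl⟩
        rw [← hM0, ← hM1] at hk
        rw [← hM0, ← hM2] at hl
        rw [← hM0, ← hM1, ← hM2]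
        have e1 : M1 = ρ * M0 + p * k := by linear_combination hk
        have e2 : M2 = (ρ : ℤ) ^ 2 * M0 + p * l := by linear_combination hl
        rw [e1, e2]
        exact ⟨2 * ρ * M0 * k + p * k ^ 2 - M0 * l, by ring⟩
      · obtain ⟨a, ha⟩ := (Int.natCast_dvd_natCast.2 h).trans (hlat 0).2
        obtain ⟨b, hb⟩ := (Int.natCast_dvd_natCast.2 h).trans (hlat 1).2
        rw [ha, hb]
        exact ⟨p * (a * e 1 0 - e 0 0 * b) ^ 2 - (e 0 1 * b - a * e 1 1) * (e 0 0 * e 1 1 - e 0 1 * e 1 0), by ring⟩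
    have h3 : (p : ℤ) ∣ (j : ℤ) ^ 2 * (n 1 ^ 2 - n 0 * n 2) := by
      have : (j : ℤ) ^ 2 * (n 1 ^ 2 - n 0 * n 2) = m 1 ^ 2 - m 0 * m 2 := by
        rw [hn 0, hn 1, hn 2]
        ring
      rw [this]
      exact hmm
    rcases hpp.dvd_or_dvd h3 with h4 | h4
    · exact absurd (hpp.dvd_of_dvd_pow h4) hpj
    · exact h4
  · calc H * nrm n ≤ 2 * C * Z * D := hnm
      _ ≤ 6 * C * Z * D := by
        apply Nat.mul_le_mul_right
        apply Nat.mul_le_mul_right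
        omega
  · have h3 : D ≤ 3 * H ^ 2 := by
      refine le_trans ?_ hd
      rw [hjD]
      exact Nat.le_mul_of_pos_left _ hjpos
    have h4 : H * nrm n ≤ H * (6 * C * H * Z) := by
      calc H * nrm n ≤ 2 * C * Z * D := hnm
        _ ≤ 2 * C * Z * (3 * H ^ 2) := Nat.mul_le_mul_left _ h3
        _ = H * (6 * C * H * Z) := by ring
    exact Nat.le_of_mul_le_mul_left h4 hH

theorem t : Pool.Agent.H14F.SKC := fun C H Z δ δ' ρ e f g hC hH hZ hsq hd hR h2 hf hg hfL hgL =>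
  main C H Z δ δ' ρ e f g hC hH hZ hsq hd hR h2 hf hg hfL hgL

end Pool.Agent.H14F.SKC
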