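import Pool.Agent.H14F.StmB
import Pool.Agent.H14F.PASS1
import Pool.Agent.H14F.ODDV
import Pool.Agent.H14F.DUAL
import Pool.Agent.H14F.LATC
import Pool.Agent.H14F.SKC

/-!
# Project F6, phase 2, stub CNT (helper7)
-/

set_option autoImplicit false

namespace Pool.Agent.H14F.CNT

open Finset Pool.Agent.H14F

/-- a common zero modulo `p` makes `p` divide the resultant -/
theorem cz_dvd_res {p : ℕ} (hp : p.Prime) {f g : Fin 3 → ℤ} (h : CZ p f g) : (p : ℤ) ∣ res f g := by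
  obtain ⟨x, w, hxw, hf, hg⟩ := h
  have hp' : Prime (p : ℤ) := Nat.prime_iff_prime_int.mp hp
  unfold ev at hf hg
  simp only [Int.cast_id] at hf hg
  have h1 : (p : ℤ) ∣ w * ((f 0 * g 1 - g 0 * f 1) * x + (f 0 * g 2 - g 0 * f 2) * w) := by
    have := (hg.mul_left (f 0)).sub (hf.mul_left (g 0))
    exact (by ring_nf at this ⊢; exact this)
  have h2 : (p : ℤ) ∣ x * ((f 0 * g 2 - g 0 * f 2) * x + (f 1 * g 2 - g 1 * f 2) * w) := by
    have := (hf.mul_left (g 2)).sub (hg.mul_left (f 2))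
    exact (by ring_nf at this ⊢; exact this)
  by_cases hx : (p : ℤ) ∣ x
  · have hw : ¬ (p : ℤ) ∣ w := fun hw => hxw ⟨hx, hw⟩
    have e1 : (p : ℤ) ∣ f 2 := by
      have : (p : ℤ) ∣ f 2 * w ^ 2 := by
        have := hf.sub (hx.mul_right (f 0 * x + f 1 * w))
        exact (by ring_nf at this ⊢; exact this)
      rcases hp'.dvd_or_dvd this with h | h
      · exact h
      · exact absurd (hp'.dvd_of_dvd_pow h) hw
    have e2 : (p : ℤ) ∣ g 2 := by
      have : (p : ℤ) ∣ g 2 * w ^ 2 := by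
        have := hg.sub (hx.mul_right (g 0 * x + g 1 * w))
        exact (by ring_nf at this ⊢; exact this)
      rcases hp'.dvd_or_dvd this with h | h
      · exact h
      · exact absurd (hp'.dvd_of_dvd_pow h) hw
    obtain ⟨a, ha⟩ := e1
    obtain ⟨b, hb⟩ := e2
    unfold res
    rw [ha, hb]
    exact ⟨(f 0 * b - g 0 * a) * (f 0 * (p * b) - g 0 * (p * a)) -
      (f 0 * g 1 - g 0 * f 1) * (f 1 * b - g 1 * a), by ring⟩
  · by_cases hw : (p : ℤ) ∣ w
    · have e1 : (p : ℤ) ∣ f 0 := by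
        have : (p : ℤ) ∣ f 0 * x ^ 2 := by
          have := hf.sub (hw.mul_right (f 1 * x + f 2 * w))
          exact (by ring_nf at this ⊢; exact this)
        rcases hp'.dvd_or_dvd this with h | h
        · exact h
        · exact absurd (hp'.dvd_of_dvd_pow h) hx
      have e2 : (p : ℤ) ∣ g 0 := by
        have : (p : ℤ) ∣ g 0 * x ^ 2 := by
          have := hg.sub (hw.mul_right (g 1 * x + g 2 * w))
          exact (by ring_nf at this ⊢; exact this)
        rcases hp'.dvd_or_dvd this with h | h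
        · exact h
        · exact absurd (hp'.dvd_of_dvd_pow h) hx
      obtain ⟨a, ha⟩ := e1
      obtain ⟨b, hb⟩ := e2
      unfold res
      rw [ha, hb]
      exact ⟨(a * g 2 - b * f 2) * (p * a * g 2 - p * b * f 2) -
        (a * g 1 - b * f 1) * (f 1 * g 2 - g 1 * f 2), by ring⟩
    · have h3 : (p : ℤ) ∣ x * w ^ 2 * res f g := by
        have := (h1.mul_left (x * (f 0 * g 2 - g 0 * f 2))).sub
          (h2.mul_left (w * (f 0 * g 1 - g 0 * f 1)))
        unfold res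
        exact (by ring_nf at this ⊢; exact this)
      rcases hp'.dvd_or_dvd h3 with h | h
      · rcases hp'.dvd_or_dvd h with h | h
        · exact absurd h hx
        · exact absurd (hp'.dvd_of_dvd_pow h) hw
      · exact h

theorem mem_box {H : ℕ} {f : Fin 3 → ℤ} : f ∈ box H ↔ ∀ i, |f i| ≤ H := by
  unfold box rbox
  simp only [Fintype.mem_piFinset, mem_Icc, abs_le]

theorem res_le {H : ℕ} {f g : Fin 3 → ℤ} (hf : f ∈ box H) (hg : g ∈ box H) :
    (res f g).natAbs ≤ 8 * H ^ 4 := by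
  rw [mem_box] at hf hg
  have key : ∀ i j, |f i * g j - g i * f j| ≤ 2 * (H : ℤ) ^ 2 := by
    intro i j
    have h1 : |f i * g j| ≤ (H : ℤ) ^ 2 := by
      rw [abs_mul]; nlinarith [hf i, hg j, abs_nonneg (f i), abs_nonneg (g j)]
    have h2 : |g i * f j| ≤ (H : ℤ) ^ 2 := by
      rw [abs_mul]; nlinarith [hg i, hf j, abs_nonneg (g i), abs_nonneg (f j)]
    calc |f i * g j - g i * f j| ≤ |f i * g j| + |g i * f j| := abs_sub _ _
      _ ≤ _ := by linarith
  have h1 := key 0 2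
  have h2 := key 0 1
  have h3 := key 1 2
  have : |res f g| ≤ 8 * (H : ℤ) ^ 4 := by
    unfold res
    calc |(f 0 * g 2 - g 0 * f 2) ^ 2 - (f 0 * g 1 - g 0 * f 1) * (f 1 * g 2 - g 1 * f 2)|
        ≤ |(f 0 * g 2 - g 0 * f 2) ^ 2| + |(f 0 * g 1 - g 0 * f 1) * (f 1 * g 2 - g 1 * f 2)| :=
          abs_sub _ _
      _ = |f 0 * g 2 - g 0 * f 2| ^ 2 + |f 0 * g 1 - g 0 * f 1| * |f 1 * g 2 - g 1 * f 2| := by
          rw [abs_mul, abs_pow]
      _ ≤ (2 * (H : ℤ) ^ 2) ^ 2 + (2 * (H : ℤ) ^ 2) * (2 * (H : ℤ) ^ 2) := by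
          gcongr
      _ = 8 * (H : ℤ) ^ 4 := by ring
  have h4 : ((res f g).natAbs : ℤ) ≤ ((8 * H ^ 4 : ℕ) : ℤ) := by
    rw [Int.natCast_natAbs]; push_cast; exact this
  exact_mod_cast h4

/-- what a pair without a certificate gives -/
theorem exists_data (h1 : PASS1) (h2 : ODDV) (h3 : DUAL) (h4 : LATC) {H : ℕ} {f g : Fin 3 → ℤ}
    (hf : f ∈ box H) (hg : g ∈ box H) (hr : res f g ≠ 0) (hc : ¬ Cert f g) :
    ∃ (t : ℤ) (δ δ' ρ : ℕ), Ps t f g ∧ δ * δ' = t.natAbs ∧ t.natAbs ≤ 3 * H ^ 2 ∧ ρ < δ ∧ 1 ≤ δ ∧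
      1 ≤ δ' ∧ Squarefree (δ * δ') ∧ Lat δ δ' ρ f ∧ Lat δ δ' ρ g := by
  unfold Cert at hc
  push Not at hc
  obtain ⟨t, ht, hsq, hob⟩ := hc hr
  have hps : Ps t f g := by
    refine ⟨hsq, fun p hp hpt => ?_, fun p hp hp3 => h1 f g t p hp hp3 (hob p hp)⟩
    have := hob p hp
    unfold ObsF at this
    push Not at this
    obtain ⟨x, w, u, v, a, b, c⟩ := this
    refine ⟨x, w, fun hh => c hh.1 hh.2, ?_, ?_⟩
    · have e : (p : ℤ) ∣ t * u ^ 2 := hpt.mul_right _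
      have e2 : (p : ℤ) ∣ ev f x w - t * u ^ 2 := (dvd_pow_self _ two_ne_zero).trans a
      simpa using e2.add e
    · have e : (p : ℤ) ∣ t * v ^ 2 := hpt.mul_right _
      have e2 : (p : ℤ) ∣ ev g x w - t * v ^ 2 := (dvd_pow_self _ two_ne_zero).trans b
      simpa using e2.add e
  obtain ⟨t', ht', hps'⟩ := h3 h2 f g t hr ht hps
  have hsq' : Squarefree t'.natAbs := Int.squarefree_natAbs.mpr hps'.sqf
  obtain ⟨δ, δ', ρ, hd, hρ, hLf, hLg⟩ := h4 t'.natAbs f g hsq' (fun p hp hpd =>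
    hps'.cz p hp (Int.natCast_dvd.mpr hpd))
  have hpos : 0 < t'.natAbs := Nat.pos_of_ne_zero hsq'.ne_zero
  have hδ : 1 ≤ δ := by
    rcases Nat.eq_zero_or_pos δ with h | h
    · rw [h] at hd; simp at hd; omega
    · exact h
  have hδ' : 1 ≤ δ' := by
    rcases Nat.eq_zero_or_pos δ' with h | h
    · rw [h] at hd; simp at hd; omega
    · exact h
  refine ⟨t', δ, δ', ρ, hps', hd, ?_, hρ, hδ, hδ', hd ▸ hsq', hLf, hLg⟩
  have hb := res_le hf hg
  by_contra hlt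
  push Not at hlt
  have : (3 * H ^ 2) ^ 2 < t'.natAbs ^ 2 := Nat.pow_lt_pow_left hlt two_ne_zero
  have h9 : (3 * H ^ 2) ^ 2 = 9 * H ^ 4 := by ring
  omega

open Classical in
/-- the weight of one pair -/
noncomputable def W (z δ δ' ρ : ℕ) (t : ℤ) (q : (Fin 3 → ℤ) × (Fin 3 → ℤ)) : ℝ :=
  if Lat δ δ' ρ q.1 ∧ Lat δ δ' ρ q.2 then
    ∏ p ∈ (P z).filter (fun p => ¬ p ∣ δ * δ'), wt (18 / 25) p (jacobiSym t p) q.1 q.2 else 0

theorem wt_nonneg (p : ℕ) (s : ℤ) (f g : Fin 3 → ℤ) : 0 ≤ wt (18 / 25) p s f g := by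
  unfold wt; split_ifs <;> norm_num

theorem W_nonneg (z δ δ' ρ : ℕ) (t : ℤ) (q : (Fin 3 → ℤ) × (Fin 3 → ℤ)) : 0 ≤ W z δ δ' ρ t q := by
  unfold W; split_ifs
  · exact prod_nonneg fun p _ => wt_nonneg _ _ _ _
  · exact le_rfl

theorem sum_W (H z δ δ' ρ : ℕ) (t : ℤ) :
    ∑ q ∈ box H ×ˢ box H, W z δ δ' ρ t q = LS H z δ δ' ρ t := by
  classical
  unfold LS W
  rw [sum_product, sum_filter]
  refine sum_congr rfl fun f _ => ?_
  by_cases h : Lat δ δ' ρ f
  · rw [if_pos h, sum_filter]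
    refine sum_congr rfl fun g _ => ?_
    simp [h]
  · rw [if_neg h]
    refine sum_eq_zero fun g _ => ?_
    simp [h]

open Classical in
/-- the weight of a good pair -/
theorem W_ge {z A δ δ' ρ : ℕ} {t : ℤ} {f g : Fin 3 → ℤ} (hps : Ps t f g) (hd : δ * δ' = t.natAbs)
    (hLf : Lat δ δ' ρ f) (hLg : Lat δ δ' ρ g)
    (hA : ((P z).filter fun p => ((p : ℕ) : ℤ) ∣ res f g).card < A) :
    (18 / 25 : ℝ) ^ A ≤ (18 / 25) ^ ((P z).filter (fun p => p ∣ δ * δ')).card *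
      W z δ δ' ρ t (f, g) := by
  unfold W
  rw [if_pos ⟨hLf, hLg⟩]
  have hPp : ∀ p ∈ P z, p.Prime ∧ 3 ≤ p := by
    intro p hp
    unfold P at hp
    simp only [mem_filter, mem_Icc] at hp
    exact ⟨hp.2, by omega⟩
  have hw : ∀ p ∈ (P z).filter (fun p => ¬ p ∣ δ * δ'), wt (18 / 25) p (jacobiSym t p) f g =
      if (p : ℤ) ∣ res f g then (18 / 25 : ℝ) else 1 := by
    intro p hp
    have hp' := hPp p (mem_filter.mp hp).1
    have hn := hps.nb p hp'.1 hp'.2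
    unfold wt
    rw [if_neg (by rintro (h | h); exacts [hn.1 h, hn.2 h])]
  show (18 / 25 : ℝ) ^ A ≤ (18 / 25) ^ ((P z).filter (fun p => p ∣ δ * δ')).card *
      ∏ p ∈ (P z).filter (fun p => ¬ p ∣ δ * δ'), wt (18 / 25) p (jacobiSym t p) f g
  rw [prod_congr rfl hw, prod_ite, prod_const, prod_const_one, mul_one, ← pow_add]
  have hcard : ((P z).filter (fun p => p ∣ δ * δ')).card +
      (((P z).filter (fun p => ¬ p ∣ δ * δ')).filter (fun p => ((p : ℕ) : ℤ) ∣ res f g)).card ≤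
      ((P z).filter fun p => ((p : ℕ) : ℤ) ∣ res f g).card := by
    rw [← card_union_of_disjoint]
    · apply card_le_card
      intro p hp
      rcases mem_union.mp hp with h | h
      · have h' := mem_filter.mp h
        refine mem_filter.mpr ⟨h'.1, ?_⟩
        have hpp := (hPp p h'.1).1
        refine cz_dvd_res hpp (hps.cz p hpp ?_)
        rw [Int.natCast_dvd, ← hd]
        exact h'.2
      · have h' := mem_filter.mp h
        exact mem_filter.mpr ⟨(mem_filter.mp h'.1).1, h'.2⟩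
    · rw [disjoint_left]
      intro p h1 h2
      exact (mem_filter.mp (mem_filter.mp h2).1).2 (mem_filter.mp h1).2
  exact pow_le_pow_of_le_one (by norm_num) (by norm_num) (by omega)

open Classical in
/-- the sum of the weights of a pair over all the lattices -/
noncomputable def F (C₀ H Z z : ℕ) (q : (Fin 3 → ℤ) × (Fin 3 → ℤ)) : ℝ :=
  ∑ δ ∈ Icc 1 (3 * H ^ 2), ∑ δ' ∈ Icc 1 (3 * H ^ 2),
      (if Squarefree (δ * δ') ∧ δ * δ' ≤ 3 * H ^ 2 then
        ∑ ρ ∈ range δ, ∑ σ ∈ ({1, -1} : Finset ℤ),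
          (if nrm (eb C₀ δ δ' ρ 2) * Z ≤ H then
            (18 / 25) ^ ((P z).filter (fun p => p ∣ δ * δ')).card *
              W z δ δ' ρ (σ * (δ * δ' : ℕ)) q
          else 0) else 0)

open Classical in
theorem sum_F (C₀ H Z z : ℕ) : ∑ q ∈ box H ×ˢ box H, F C₀ H Z z q =
    ∑ δ ∈ Icc 1 (3 * H ^ 2), ∑ δ' ∈ Icc 1 (3 * H ^ 2),
      (if Squarefree (δ * δ') ∧ δ * δ' ≤ 3 * H ^ 2 then
        ∑ ρ ∈ range δ, ∑ σ ∈ ({1, -1} : Finset ℤ),
          (if nrm (eb C₀ δ δ' ρ 2) * Z ≤ H then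
            (18 / 25) ^ ((P z).filter (fun p => p ∣ δ * δ')).card * LS H z δ δ' ρ (σ * (δ * δ' : ℕ))
          else 0) else 0) := by
  unfold F
  rw [sum_comm]
  refine sum_congr rfl fun δ _ => ?_
  rw [sum_comm]
  refine sum_congr rfl fun δ' _ => ?_
  by_cases h : Squarefree (δ * δ') ∧ δ * δ' ≤ 3 * H ^ 2
  · simp only [if_pos h]
    rw [sum_comm]
    refine sum_congr rfl fun ρ _ => ?_
    rw [sum_comm]
    refine sum_congr rfl fun σ _ => ?_
    by_cases h' : nrm (eb C₀ δ δ' ρ 2) * Z ≤ H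
    · simp only [if_pos h']
      rw [← mul_sum, sum_W]
    · simp only [if_neg h', sum_const_zero]
  · simp only [if_neg h, sum_const_zero]

open Classical in
theorem F_ge {C₀ H Z z δ δ' ρ : ℕ} {σ : ℤ} {q : (Fin 3 → ℤ) × (Fin 3 → ℤ)} (h1 : 1 ≤ δ)
    (h2 : 1 ≤ δ') (h3 : Squarefree (δ * δ')) (h4 : δ * δ' ≤ 3 * H ^ 2) (h5 : ρ < δ)
    (h6 : σ = 1 ∨ σ = -1) (h7 : nrm (eb C₀ δ δ' ρ 2) * Z ≤ H) :
    (18 / 25 : ℝ) ^ ((P z).filter (fun p => p ∣ δ * δ')).card *
      W z δ δ' ρ (σ * (δ * δ' : ℕ)) q ≤ F C₀ H Z z q := by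
  have nn : ∀ (a b c : ℕ) (s : ℤ), (0 : ℝ) ≤
      (if nrm (eb C₀ a b c 2) * Z ≤ H then
            (18 / 25) ^ ((P z).filter (fun p => p ∣ a * b)).card *
              W z a b c (s * (a * b : ℕ)) q
          else 0) := by
    intro a b c s
    split_ifs
    · exact mul_nonneg (by positivity) (W_nonneg _ _ _ _ _ _)
    · exact le_rfl
  have nn2 : ∀ (a b : ℕ), (0 : ℝ) ≤ (if Squarefree (a * b) ∧ a * b ≤ 3 * H ^ 2 then
        ∑ ρ ∈ range a, ∑ σ ∈ ({1, -1} : Finset ℤ),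
          (if nrm (eb C₀ a b ρ 2) * Z ≤ H then
            (18 / 25) ^ ((P z).filter (fun p => p ∣ a * b)).card *
              W z a b ρ (σ * (a * b : ℕ)) q
          else 0) else 0) := by
    intro a b
    split_ifs
    · exact sum_nonneg fun c _ => sum_nonneg fun s _ => nn a b c s
    · exact le_rfl
  have hδ : δ ∈ Icc 1 (3 * H ^ 2) := by
    rw [mem_Icc]; refine ⟨h1, ?_⟩; nlinarith
  have hδ' : δ' ∈ Icc 1 (3 * H ^ 2) := by
    rw [mem_Icc]; refine ⟨h2, ?_⟩; nlinarith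
  unfold F
  refine le_trans ?_ (single_le_sum (fun a _ => sum_nonneg fun b _ => nn2 a b) hδ)
  refine le_trans ?_ (single_le_sum (fun b _ => nn2 δ b) hδ')
  rw [if_pos ⟨h3, h4⟩]
  refine le_trans ?_ (single_le_sum (fun c _ => sum_nonneg fun s _ => nn δ δ' c s)
    (mem_range.mpr h5))
  refine le_trans ?_ (single_le_sum (fun s _ => nn δ δ' ρ s) (show σ ∈ ({1, -1} : Finset ℤ) by
    rcases h6 with h | h <;> simp [h]))
  rw [if_pos h7]

open Classical in
theorem tc (h1 : PASS1) (h2 : ODDV) (h3 : DUAL) (h4 : LATC) (h5 : SKC) :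
    Pool.Agent.H14F.CNT := by
  intro C₀ hC₀ hb H Z z A hH hZ
  rw [← sum_F]
  set R := (NC H).filter fun q => q ∉ SkS (6 * C₀) H Z ∧ q ∉ OmS H z A with hR
  have hsub : NC H ⊆ SkS (6 * C₀) H Z ∪ OmS H z A ∪ R := by
    intro q hq
    by_cases ha : q ∈ SkS (6 * C₀) H Z
    · exact mem_union_left _ (mem_union_left _ ha)
    · by_cases hb : q ∈ OmS H z A
      · exact mem_union_left _ (mem_union_right _ hb)
      · exact mem_union_right _ (mem_filter.mpr ⟨hq, ha, hb⟩)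
  have hcard : ((NC H).card : ℝ) ≤ (SkS (6 * C₀) H Z).card + (OmS H z A).card + R.card := by
    have := (card_le_card hsub).trans ((card_union_le _ _).trans
      (Nat.add_le_add_right (card_union_le _ _) _))
    exact_mod_cast this
  refine hcard.trans ?_
  gcongr
  have hpt : ∀ q ∈ R, (1 : ℝ) ≤ (25 / 18) ^ A * F C₀ H Z z q := by
    intro q hq
    obtain ⟨hq1, hq2, hq3⟩ := mem_filter.mp hq
    have hq1' : q.1 ∈ box H ∧ q.2 ∈ box H ∧ res q.1 q.2 ≠ 0 ∧ ¬ Cert q.1 q.2 := by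
      unfold NC at hq1
      have := mem_filter.mp hq1
      rw [mem_product] at this
      exact ⟨this.1.1, this.1.2, this.2.1, this.2.2⟩
    obtain ⟨hf, hg, hr, hc⟩ := hq1'
    obtain ⟨t, δ, δ', ρ, hps, hd, hle, hρ, hδ, hδ', hsq, hLf, hLg⟩ :=
      exists_data h1 h2 h3 h4 hf hg hr hc
    have hRd := hb δ δ' ρ hδ hδ'
    have hn : nrm (eb C₀ δ δ' ρ 2) * Z ≤ H := by
      by_contra hcon
      push Not at hcon
      have := h5 C₀ H Z δ δ' ρ _ q.1 q.2 hC₀ hH hZ hsq (hd ▸ hle) hRd hcon hf hg hLf hLg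
      apply hq2
      unfold SkS
      exact mem_filter.mpr ⟨mem_product.mpr ⟨hf, hg⟩, hr, this⟩
    have hA : ((P z).filter fun p => ((p : ℕ) : ℤ) ∣ res q.1 q.2).card < A := by
      by_contra hcon
      push Not at hcon
      apply hq3
      unfold OmS
      refine mem_filter.mpr ⟨mem_product.mpr ⟨hf, hg⟩, ?_⟩
      convert hcon using 1
    obtain ⟨σ, hσ, hσt⟩ : ∃ σ : ℤ, (σ = 1 ∨ σ = -1) ∧ σ * ((δ * δ' : ℕ) : ℤ) = t := by
      rw [hd]
      rcases Int.natAbs_eq t with h | h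
      · exact ⟨1, Or.inl rfl, by rw [one_mul]; exact h.symm⟩
      · exact ⟨-1, Or.inr rfl, by rw [neg_one_mul]; exact h.symm⟩
    have hF := F_ge (C₀ := C₀) (H := H) (Z := Z) (z := z) (σ := σ) (q := q) hδ hδ' hsq
      (hd ▸ hle) hρ hσ hn
    rw [hσt] at hF
    have hW := W_ge (z := z) (A := A) hps hd hLf hLg hA
    have h8 : (25 / 18 : ℝ) ^ A * (18 / 25) ^ A = 1 := by
      rw [← mul_pow]; norm_num
    calc (1 : ℝ) = (25 / 18 : ℝ) ^ A * (18 / 25) ^ A := h8.symm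
      _ ≤ (25 / 18 : ℝ) ^ A * F C₀ H Z z q := by
          gcongr
          exact hW.trans hF
  have hnn : ∀ q, 0 ≤ F C₀ H Z z q := by
    intro q
    unfold F
    refine sum_nonneg fun a _ => sum_nonneg fun b _ => ?_
    split_ifs
    · refine sum_nonneg fun c _ => sum_nonneg fun s _ => ?_
      split_ifs
      · exact mul_nonneg (by positivity) (W_nonneg _ _ _ _ _ _)
      · exact le_rfl
    · exact le_rfl
  calc (R.card : ℝ) = ∑ q ∈ R, (1 : ℝ) := by simp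
    _ ≤ ∑ q ∈ R, (25 / 18) ^ A * F C₀ H Z z q := sum_le_sum hpt
    _ = (25 / 18) ^ A * ∑ q ∈ R, F C₀ H Z z q := by rw [mul_sum]
    _ ≤ (25 / 18) ^ A * ∑ q ∈ box H ×ˢ box H, F C₀ H Z z q := by
        gcongr
        · exact fun q _ _ => hnn q
        · intro q hq
          have := (mem_filter.mp hq).1
          unfold NC at this
          exact (mem_filter.mp this).1

theorem t : Pool.Agent.H14F.CNT :=
  tc Pool.Agent.H14F.PASS1.t Pool.Agent.H14F.ODDV.t Pool.Agent.H14F.DUAL.t Pool.Agent.H14F.LATC.t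
    Pool.Agent.H14F.SKC.t

end Pool.Agent.H14F.CNT
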