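import Pool.Agent.H14F.StmB

/-!
# Local solutions of all twists contradict the certificate
-/

set_option autoImplicit false

namespace Pool.Agent.H14F

/-- the resultant is in the ideal -/
theorem res_x {R : Type} [CommRing R] (f g : Fin 3 → ℤ) (x w : R) :
    (res f g : R) * x ^ 3 = ev f x w * (-((f 1 : R) * g 2 - g 1 * f 2) * ((g 1 : R) * x + g 2 * w) +
      ((f 0 : R) * g 2 - g 0 * f 2) * (g 2 * x)) +
      ev g x w * (((f 1 : R) * g 2 - g 1 * f 2) * ((f 1 : R) * x + f 2 * w) -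
      ((f 0 : R) * g 2 - g 0 * f 2) * (f 2 * x)) := by
  unfold ev res
  push_cast
  ring

theorem res_w {R : Type} [CommRing R] (f g : Fin 3 → ℤ) (x w : R) :
    (res f g : R) * w ^ 3 = ev f x w * (((f 0 : R) * g 1 - g 0 * f 1) * ((g 0 : R) * x + g 1 * w) -
      ((f 0 : R) * g 2 - g 0 * f 2) * (g 0 * w)) +
      ev g x w * (-((f 0 : R) * g 1 - g 0 * f 1) * ((f 0 : R) * x + f 1 * w) +
      ((f 0 : R) * g 2 - g 0 * f 2) * (f 0 * w)) := by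
  unfold ev res
  push_cast
  ring

/-- a common zero modulo `p` -/
theorem dvd_res {p : ℕ} (hp : p.Prime) {f g : Fin 3 → ℤ} (h : CZ p f g) : (p : ℤ) ∣ res f g := by
  obtain ⟨x, w, h1, h2, h3⟩ := h
  have hpz : Prime (p : ℤ) := Nat.prime_iff_prime_int.1 hp
  have h4 : (p : ℤ) ∣ res f g * x ^ 3 := by
    have := res_x f g x w
    simp only [Int.cast_id] at this
    rw [this]
    exact dvd_add (h2.mul_right _) (h3.mul_right _)
  have h5 : (p : ℤ) ∣ res f g * w ^ 3 := by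
    have := res_w f g x w
    simp only [Int.cast_id] at this
    rw [this]
    exact dvd_add (h2.mul_right _) (h3.mul_right _)
  by_contra hr
  exact h1 ⟨hpz.dvd_of_dvd_pow ((hpz.dvd_or_dvd h4).resolve_left hr),
    hpz.dvd_of_dvd_pow ((hpz.dvd_or_dvd h5).resolve_left hr)⟩

section padic

variable {p : ℕ} [hp : Fact p.Prime]

theorem tau {α : ℚ_[p]} (hα : (p : ℝ)⁻¹ ≤ ‖α‖) {z : ℚ_[p]} (hz : ‖z‖ ≤ 1) {τ : ℚ_[p]}
    (h : z = α * τ ^ 2) : ‖τ‖ ≤ 1 := by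
  have hp1 : (1 : ℝ) < p := by exact_mod_cast hp.out.one_lt
  by_contra hcon
  push Not at hcon
  have h1 : (p : ℝ) ≤ ‖τ‖ := by
    by_contra h2
    push Not at h2
    have := (Padic.norm_le_pow_iff_norm_lt_pow_add_one τ 0).2 (by simpa using h2)
    simp only [zpow_zero] at this
    linarith
  rw [h, norm_mul, norm_pow] at hz
  have hp0 : (0 : ℝ) < p := by linarith
  have h4 : (p : ℝ)⁻¹ * p ^ 2 ≤ ‖α‖ * ‖τ‖ ^ 2 :=
    mul_le_mul hα (pow_le_pow_left₀ hp0.le h1 2) (by positivity) (norm_nonneg _)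
  have h5 : (p : ℝ)⁻¹ * p ^ 2 = p := by field_simp
  linarith

theorem coe_ev (f : Fin 3 → ℤ) (x w : ℤ_[p]) :
    ((ev f x w : ℤ_[p]) : ℚ_[p]) = ev f (x : ℚ_[p]) (w : ℚ_[p]) := by
  unfold ev
  push_cast
  ring

theorem ev_smul {K : Type} [Field K] (f : Fin 3 → ℤ) {c : K} (hc : c ≠ 0) (x w : K) :
    ev f (x / c) (w / c) = ev f x w / c ^ 2 := by
  unfold ev
  field_simp

/-- primitive solutions -/
theorem prim {f g : Fin 3 → ℤ} {α ξ η A B : ℚ_[p]} (hα : (p : ℝ)⁻¹ ≤ ‖α‖) (h : ξ ≠ 0 ∨ η ≠ 0)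
    (hf : ev f ξ η = α * A ^ 2) (hg : ev g ξ η = α * B ^ 2) :
    ∃ x w u v : ℤ_[p], ¬ ((p : ℤ_[p]) ∣ x ∧ (p : ℤ_[p]) ∣ w) ∧
      ev f (x : ℚ_[p]) (w : ℚ_[p]) = α * (u : ℚ_[p]) ^ 2 ∧
      ev g (x : ℚ_[p]) (w : ℚ_[p]) = α * (v : ℚ_[p]) ^ 2 := by
  obtain ⟨c, x, w, hc, hx, hw, hprim⟩ : ∃ (c : ℚ_[p]) (x w : ℤ_[p]), c ≠ 0 ∧ (x : ℚ_[p]) = ξ / c ∧
      (w : ℚ_[p]) = η / c ∧ ¬ ((p : ℤ_[p]) ∣ x ∧ (p : ℤ_[p]) ∣ w) := by
    rcases le_total ‖η‖ ‖ξ‖ with hle | hle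
    · have hξ : ξ ≠ 0 := by
        rintro rfl
        rw [norm_zero] at hle
        rcases h with h | h
        · exact h rfl
        · exact h (norm_eq_zero.1 (le_antisymm hle (norm_nonneg _)))
      have h1 : ‖η / ξ‖ ≤ 1 := by
        rw [norm_div]
        exact div_le_one_of_le₀ hle (norm_nonneg _)
      refine ⟨ξ, 1, ⟨η / ξ, h1⟩, hξ, ?_, rfl, ?_⟩
      · rw [div_self hξ]
        rfl
      · rintro ⟨h2, -⟩
        exact PadicInt.prime_p.not_isUnit (isUnit_of_dvd_one h2)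
    · have hη : η ≠ 0 := by
        rintro rfl
        rw [norm_zero] at hle
        rcases h with h | h
        · exact h (norm_eq_zero.1 (le_antisymm hle (norm_nonneg _)))
        · exact h rfl
      have h1 : ‖ξ / η‖ ≤ 1 := by
        rw [norm_div]
        exact div_le_one_of_le₀ hle (norm_nonneg _)
      refine ⟨η, ⟨ξ / η, h1⟩, 1, hη, rfl, ?_, ?_⟩
      · rw [div_self hη]
        rfl
      · rintro ⟨-, h2⟩
        exact PadicInt.prime_p.not_isUnit (isUnit_of_dvd_one h2)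
  have h1 : ev f (x : ℚ_[p]) (w : ℚ_[p]) = α * (A / c) ^ 2 := by
    rw [hx, hw, ev_smul f hc, hf]
    ring
  have h2 : ev g (x : ℚ_[p]) (w : ℚ_[p]) = α * (B / c) ^ 2 := by
    rw [hx, hw, ev_smul g hc, hg]
    ring
  have h3 : ‖A / c‖ ≤ 1 := tau hα (by rw [← coe_ev]; exact PadicInt.norm_le_one _) h1
  have h4 : ‖B / c‖ ≤ 1 := tau hα (by rw [← coe_ev]; exact PadicInt.norm_le_one _) h2
  exact ⟨x, w, ⟨A / c, h3⟩, ⟨B / c, h4⟩, hprim, h1, h2⟩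

theorem appr2 (x : ℤ_[p]) : ∃ n : ℤ, (p : ℤ_[p]) ^ 2 ∣ x - n := by
  refine ⟨(x.appr 2 : ℕ), ?_⟩
  have := PadicInt.appr_spec 2 x
  rw [Ideal.mem_span_singleton] at this
  exact_mod_cast this

theorem ev_congr {R : Type} [CommRing R] (f : Fin 3 → ℤ) {m x w x' w' : R} (hx : m ∣ x - x')
    (hw : m ∣ w - w') : m ∣ ev f x w - ev f x' w' := by
  obtain ⟨a, ha⟩ := hx
  obtain ⟨b, hb⟩ := hw
  have e1 : x = x' + m * a := by linear_combination ha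
  have e2 : w = w' + m * b := by linear_combination hb
  rw [e1, e2]
  unfold ev
  refine ⟨(f 0 : R) * a * (2 * x' + m * a) + (f 1 : R) * (a * w' + b * x' + m * a * b) +
    (f 2 : R) * b * (2 * w' + m * b), ?_⟩
  ring

theorem dvd_int {n : ℕ} {z : ℤ} : (p : ℤ_[p]) ^ n ∣ (z : ℤ_[p]) ↔ (p : ℤ) ^ n ∣ z := by
  exact_mod_cast PadicInt.pow_p_dvd_int_iff (p := p) n z

/-- from the `p`-adic solution to integers modulo `p²` -/
theorem not_obs {f g : Fin 3 → ℤ} {N : ℤ} {x w u v : ℤ_[p]}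
    (hprim : ¬ ((p : ℤ_[p]) ∣ x ∧ (p : ℤ_[p]) ∣ w))
    (hf : ev f (x : ℚ_[p]) (w : ℚ_[p]) = (N : ℚ_[p]) * (u : ℚ_[p]) ^ 2)
    (hg : ev g (x : ℚ_[p]) (w : ℚ_[p]) = (N : ℚ_[p]) * (v : ℚ_[p]) ^ 2) :
    ¬ ObsF f g N p ∧ ((p : ℤ) ∣ N → CZ p f g) := by
  obtain ⟨x', hx⟩ := appr2 x
  obtain ⟨w', hw⟩ := appr2 w
  obtain ⟨u', hu⟩ := appr2 u
  obtain ⟨v', hv⟩ := appr2 v
  have hf' : ev f x w = N * u ^ 2 := by
    refine PadicInt.ext ?_
    rw [coe_ev, hf]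
    push_cast
    ring
  have hg' : ev g x w = N * v ^ 2 := by
    refine PadicInt.ext ?_
    rw [coe_ev, hg]
    push_cast
    ring
  have hsq : ∀ {u : ℤ_[p]} {u' : ℤ}, (p : ℤ_[p]) ^ 2 ∣ u - u' →
      (p : ℤ_[p]) ^ 2 ∣ (N : ℤ_[p]) * u ^ 2 - N * (u' : ℤ_[p]) ^ 2 := by
    intro u u' h
    obtain ⟨a, ha⟩ := h
    have e : u = u' + (p : ℤ_[p]) ^ 2 * a := by linear_combination ha
    rw [e]
    exact ⟨N * a * (2 * u' + (p : ℤ_[p]) ^ 2 * a), by ring⟩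
  have hcast : ∀ (f : Fin 3 → ℤ) (x w : ℤ), ((ev f x w : ℤ) : ℤ_[p]) = ev f (x : ℤ_[p]) (w : ℤ_[p]) := by
    intro f x w
    unfold ev
    push_cast
    ring
  have key : ∀ {f : Fin 3 → ℤ} {u : ℤ_[p]} {u' : ℤ}, ev f x w = N * u ^ 2 →
      (p : ℤ_[p]) ^ 2 ∣ u - u' → (p : ℤ) ^ 2 ∣ ev f x' w' - N * u' ^ 2 := by
    intro f u u' h1 h2
    rw [← dvd_int]
    push_cast
    rw [hcast]
    have h3 := ev_congr f hx hw
    have h4 := hsq h2
    have e : ev f (x' : ℤ_[p]) (w' : ℤ_[p]) - N * (u' : ℤ_[p]) ^ 2 =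
        (N * u ^ 2 - N * (u' : ℤ_[p]) ^ 2) - (ev f x w - ev f (x' : ℤ_[p]) (w' : ℤ_[p])) := by
      rw [h1]
      ring
    rw [e]
    exact dvd_sub h4 h3
  have hpr : ¬ ((p : ℤ) ∣ x' ∧ (p : ℤ) ∣ w') := by
    rintro ⟨h1, h2⟩
    have h1' : (p : ℤ_[p]) ∣ (x' : ℤ_[p]) := by
      have := (dvd_int (p := p) (n := 1) (z := x')).2 (by rwa [pow_one])
      rwa [pow_one] at this
    have h2' : (p : ℤ_[p]) ∣ (w' : ℤ_[p]) := by
      have := (dvd_int (p := p) (n := 1) (z := w')).2 (by rwa [pow_one])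
      rwa [pow_one] at this
    refine hprim ⟨?_, ?_⟩
    · have := dvd_add ((dvd_pow_self _ two_ne_zero).trans hx) h1'
      rwa [sub_add_cancel] at this
    · have := dvd_add ((dvd_pow_self _ two_ne_zero).trans hw) h2'
      rwa [sub_add_cancel] at this
  refine ⟨fun ho => hpr (ho x' w' u' v' (key hf' hu) (key hg' hv)), fun hN => ?_⟩
  refine ⟨x', w', hpr, ?_, ?_⟩
  · have h1 := (dvd_pow_self (p : ℤ) two_ne_zero).trans (key hf' hu)
    have := dvd_add h1 (hN.mul_right (u' ^ 2))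
    rwa [sub_add_cancel] at this
  · have h1 := (dvd_pow_self (p : ℤ) two_ne_zero).trans (key hg' hv)
    have := dvd_add h1 (hN.mul_right (v' ^ 2))
    rwa [sub_add_cancel] at this

end padic

/-- the norm of a squarefree integer is at least `1/p` -/
theorem norm_sqf {p : ℕ} [hp : Fact p.Prime] {N : ℤ} (hN : Squarefree N) :
    (p : ℝ)⁻¹ ≤ ‖(N : ℚ_[p])‖ := by
  by_contra h
  push Not at h
  have hp1 : (1 : ℝ) < p := by exact_mod_cast hp.out.one_lt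
  have h1 : ‖(N : ℚ_[p])‖ ≤ (p : ℝ) ^ (-(2 : ℕ) : ℤ) := by
    have h2 : ‖(N : ℚ_[p])‖ < (p : ℝ) ^ (-(1 : ℕ) : ℤ) := by
      simpa using h
    have := (Padic.norm_le_pow_iff_norm_lt_pow_add_one (N : ℚ_[p]) (-2)).2 (by simpa using h2)
    simpa using this
  rw [Padic.norm_int_le_pow_iff_dvd] at h1
  have h2 : (p : ℤ) * p ∣ N := by
    have e : ((p ^ 2 : ℕ) : ℤ) = (p : ℤ) * p := by push_cast; ring
    rwa [← e]
    try exact h1
  have h3 := hN _ h2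
  rw [Int.isUnit_iff] at h3
  have := hp.out.one_lt
  omega

/-- local solutions at all primes of the twist by a squarefree integer -/
theorem cert_local {f g : Fin 3 → ℤ} (hc : Cert f g) {N : ℤ} (hN : Squarefree N)
    (hloc : ∀ (p : ℕ) [Fact p.Prime], ∃ ξ η A B : ℚ_[p], (ξ ≠ 0 ∨ η ≠ 0) ∧
      ev f ξ η = N * A ^ 2 ∧ ev g ξ η = N * B ^ 2) : False := by
  have key : ∀ p : ℕ, p.Prime → ¬ ObsF f g N p ∧ ((p : ℤ) ∣ N → CZ p f g) := by
    intro p hp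
    haveI : Fact p.Prime := ⟨hp⟩
    obtain ⟨ξ, η, A, B, h1, h2, h3⟩ := hloc p
    obtain ⟨x, w, u, v, h4, h5, h6⟩ := prim (norm_sqf hN) h1 h2 h3
    exact not_obs h4 h5 h6
  have hdvd : N ∣ res f g := by
    rw [← Int.natAbs_dvd_natAbs]
    have hs : Squarefree N.natAbs := Int.squarefree_natAbs.2 hN
    rw [← Nat.prod_primeFactors_of_squarefree hs]
    refine Finset.prod_primes_dvd _ (fun p hp => (Nat.prime_of_mem_primeFactors hp).prime)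
      fun p hp => ?_
    have hpp := Nat.prime_of_mem_primeFactors hp
    have h1 : (p : ℤ) ∣ N := Int.natCast_dvd.2 (Nat.dvd_of_mem_primeFactors hp)
    exact Int.natCast_dvd.1 (dvd_res hpp ((key p hpp).2 h1))
  obtain ⟨q, hq, ho⟩ := hc.2 N hdvd hN
  exact (key q hq).1 ho

end Pool.Agent.H14F
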