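import Pool.Agent.N783.PF.Loc
import Pool.Agent.N891.PQ.TwA
import Pool.Agent.N457.PQ.Sqt
import Pool.Agent.N301.JM.TOW
import Pool.Agent.H14U.Gal
import Pool.Agent.H14F.Compl
import Pool.Agent.N55.PM.SigLie

/-!
# Conditions over the extension

`F` is a number field, `M / F` a Galois extension, `L = F(θ)`, `Ω = M(θ)`.
-/

set_option autoImplicit false
set_option linter.all false

open Polynomial IsDedekindDomain NumberField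
open scoped Classical

namespace Pool.Agent.H14F

open Pool.Agent.N783.PF
open Pool.Agent.N874.PP (Ev Sq1 U0)
open Pool.Agent.N783.PQ (LocIm)
open Pool.Agent.N874.JM (LocF)
open Pool.Agent.N692.PMTOW (im)
open Pool.Agent.H14U (res res_apply)

/-! ### Valuations -/

section val

variable {F' : Type} [Field F'] [NumberField F']

theorem ev_sq (𝔓 : HeightOneSpectrum (𝓞 F')) (x : F') : Ev 𝔓 (x ^ 2) := ⟨x, map_pow _ _ _⟩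

theorem ev_mul {𝔓 : HeightOneSpectrum (𝓞 F')} {x y : F'} (h : Ev 𝔓 x) (h' : Ev 𝔓 y) :
    Ev 𝔓 (x * y) := by
  obtain ⟨u, hu⟩ := h
  obtain ⟨v, hv⟩ := h'
  exact ⟨u * v, by rw [map_mul, map_mul, hu, hv, mul_pow]⟩

/-- Automorphisms permute the primes. -/
theorem sig (σ : F' ≃+* F') (𝔓 : HeightOneSpectrum (𝓞 F')) : ∃ 𝔓' : HeightOneSpectrum (𝓞 F'),
    ∀ x : F', 𝔓'.valuation F' x = 𝔓.valuation F' (σ x) := by
  let φ : 𝓞 F' ≃+* 𝓞 F' := NumberField.RingOfIntegers.mapRingEquiv σ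
  have hφ : ∀ z : 𝓞 F', algebraMap (𝓞 F') F' (φ z) = σ (algebraMap (𝓞 F') F' z) := fun z => rfl
  refine ⟨Pool.Agent.N55.PM.cmp φ 𝔓, ?_⟩
  intro x
  obtain ⟨a, b, hb, rfl⟩ := IsFractionRing.div_surjective (A := 𝓞 F') x
  rw [map_div₀ σ, ← hφ, ← hφ, map_div₀, map_div₀, HeightOneSpectrum.valuation_of_algebraMap,
    HeightOneSpectrum.valuation_of_algebraMap, HeightOneSpectrum.valuation_of_algebraMap,
    HeightOneSpectrum.valuation_of_algebraMap, Pool.Agent.N55.PM.int_eq, Pool.Agent.N55.PM.int_eq]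

theorem mem_iff_val (𝔓 : HeightOneSpectrum (𝓞 F')) (a : 𝓞 F') :
    a ∈ 𝔓.asIdeal ↔ 𝔓.valuation F' (a : F') < 1 :=
  (HeightOneSpectrum.valuation_lt_one_iff_mem (K := F') 𝔓 a).symm

theorem nat_mem_iff_val (𝔓 : HeightOneSpectrum (𝓞 F')) (n : ℕ) :
    (n : 𝓞 F') ∈ 𝔓.asIdeal ↔ 𝔓.valuation F' (n : F') < 1 := by
  rw [mem_iff_val]
  simp

end val

section down

variable {L Ω : Type} [Field L] [Field Ω] [NumberField L] [NumberField Ω] [Algebra L Ω]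
  {𝔓 : HeightOneSpectrum (𝓞 L)} {𝔓' : HeightOneSpectrum (𝓞 Ω)}
  (hv : ∀ x : L, 𝔓'.valuation Ω (algebraMap L Ω x) = 𝔓.valuation L x)

include hv

theorem ev_down (x : L) : Ev 𝔓' (algebraMap L Ω x) ↔ Ev 𝔓 x := by
  constructor
  · rintro ⟨y, hy⟩
    by_cases hx : x = 0
    · exact ⟨0, by rw [hx]; simp⟩
    · obtain ⟨z, hz⟩ := 𝔓.valuation_surjective L (𝔓'.valuation Ω y)
      exact ⟨z, by rw [← hv, hy, hz]⟩
  · rintro ⟨y, hy⟩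
    exact ⟨algebraMap L Ω y, by rw [hv, hv, hy]⟩

theorem sq_down (hd : ∀ s : Ω, s ≠ 0 → ∃ s₀ : L,
      𝔓'.valuation Ω (s - algebraMap L Ω s₀) < 𝔓'.valuation Ω s) {x : L}
    (h : Sq1 𝔓' (algebraMap L Ω x)) : Sq1 𝔓 x := by
  obtain ⟨s, hs⟩ := h
  have hx0 : 𝔓'.valuation Ω (algebraMap L Ω x) ≠ 0 := by
    intro h0
    rw [h0] at hs
    exact absurd hs (by simp)
  have hs2 : 𝔓'.valuation Ω (s ^ 2) = 𝔓'.valuation Ω (algebraMap L Ω x) := by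
    have e : s ^ 2 = algebraMap L Ω x - (algebraMap L Ω x - s ^ 2) := by ring
    conv_lhs => rw [e]
    exact Valuation.map_sub_eq_of_lt_left _ hs
  have hs0 : s ≠ 0 := by
    rintro rfl
    rw [zero_pow two_ne_zero, map_zero] at hs2
    exact hx0 hs2.symm
  obtain ⟨s₀, h₀⟩ := hd s hs0
  refine ⟨s₀, ?_⟩
  rw [← hv, ← hv, map_sub, map_pow]
  have e : algebraMap L Ω x - algebraMap L Ω s₀ ^ 2 =
      (algebraMap L Ω x - s ^ 2) + (s - algebraMap L Ω s₀) * (s + algebraMap L Ω s₀) := by ring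
  rw [e]
  refine lt_of_le_of_lt (Valuation.map_add _ _ _) (max_lt hs ?_)
  have h1 : 𝔓'.valuation Ω (s + algebraMap L Ω s₀) ≤ 𝔓'.valuation Ω s := by
    have e2 : s + algebraMap L Ω s₀ = (2 : Ω) * s - (s - algebraMap L Ω s₀) := by ring
    rw [e2]
    refine (Valuation.map_sub _ _ _).trans (max_le ?_ h₀.le)
    rw [map_mul]
    have h2 : 𝔓'.valuation Ω (2 : Ω) ≤ 1 := by
      have e3 : algebraMap (𝓞 Ω) Ω (2 : 𝓞 Ω) = 2 := map_ofNat _ 2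
      rw [← e3]
      exact HeightOneSpectrum.valuation_le_one 𝔓' (2 : 𝓞 Ω)
    calc _ ≤ 1 * 𝔓'.valuation Ω s := mul_le_mul' h2 le_rfl
      _ = _ := one_mul _
  rw [map_mul, ← hs2, map_pow, pow_two]
  have hpos : 0 < 𝔓'.valuation Ω s := zero_lt_iff.2 ((Valuation.ne_zero_iff _).2 hs0)
  calc 𝔓'.valuation Ω (s - algebraMap L Ω s₀) * 𝔓'.valuation Ω (s + algebraMap L Ω s₀)
      ≤ 𝔓'.valuation Ω (s - algebraMap L Ω s₀) * 𝔓'.valuation Ω s := mul_le_mul' le_rfl h1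
    _ < 𝔓'.valuation Ω s * 𝔓'.valuation Ω s := mul_lt_mul_of_pos_right h₀ hpos

theorem sq_up {x : L} (h : Sq1 𝔓 x) : Sq1 𝔓' (algebraMap L Ω x) := by
  obtain ⟨s, hs⟩ := h
  refine ⟨algebraMap L Ω s, ?_⟩
  rw [← map_pow, ← map_sub, hv, hv]
  exact hs

end down

/-! ### The conditions at the odd primes -/

section cond

variable {F Ω : Type} [Field F] [NumberField F] [Field Ω] [NumberField Ω] [Algebra F Ω]

/-- The conditions. -/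
structure Cnd (J : Finset ℕ) (𝔮 : ℕ → Ideal (𝓞 F)) (θ η x : Ω) : Prop where
  ev : ∀ 𝔓 : HeightOneSpectrum (𝓞 Ω), (2 : 𝓞 Ω) ∉ 𝔓.asIdeal → (∀ q ∈ J, (q : 𝓞 Ω) ∉ 𝔓.asIdeal) →
    𝔓.valuation Ω η = 1 → Ev 𝔓 x
  u0 : ∀ q ∈ J, ∀ 𝔓 : HeightOneSpectrum (𝓞 Ω), Ov (𝔮 q) 𝔓 → 𝔓.valuation Ω θ = 1 →
    U0 𝔓 ((q : Ω) * θ) x

variable {J : Finset ℕ} {𝔮 : ℕ → Ideal (𝓞 F)} {θ η : Ω}

theorem cnd_sq {x : Ω} (hx : x ≠ 0) : Cnd J 𝔮 θ η (x ^ 2) where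
  ev 𝔓 _ _ _ := ev_sq 𝔓 x
  u0 Q _ 𝔓 _ _ := by
    refine ⟨fun _ => ⟨x, ?_⟩, fun h => absurd (ev_sq 𝔓 x) h⟩
    rw [sub_self, map_zero, zero_lt_iff]
    exact (Valuation.ne_zero_iff _).2 (pow_ne_zero _ hx)

theorem cnd_mul (hJ : ∀ q ∈ J, q.Prime ∧ q ≠ 2 ∧ (q : 𝓞 F) ∈ 𝔮 q)
    (hϖ : ∀ q ∈ J, ∀ 𝔓 : HeightOneSpectrum (𝓞 Ω), Ov (𝔮 q) 𝔓 → 𝔓.valuation Ω θ = 1 →
      ¬ Ev 𝔓 ((q : Ω) * θ)) {x y : Ω} (hx : x ≠ 0) (hy : y ≠ 0)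
    (h : Cnd J 𝔮 θ η x) (h' : Cnd J 𝔮 θ η y) : Cnd J 𝔮 θ η (x * y) where
  ev 𝔓 h1 h2 h3 := ev_mul (h.ev 𝔓 h1 h2 h3) (h'.ev 𝔓 h1 h2 h3)
  u0 q hq 𝔓 h1 h3 := by
    have h4 := hϖ q hq 𝔓 h1 h3
    have h5 : (q : Ω) * θ ≠ 0 := by
      intro h0
      apply h4
      rw [h0]
      exact ⟨0, by simp⟩
    obtain ⟨a1, a2, a3⟩ := hJ q hq
    have hov : Pool.Agent.N783.PQ.Ov q 𝔓 := by
      have := h1 _ a3
      rw [map_natCast] at this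
      exact this
    exact ((Pool.Agent.N457.PQ.cls Ω q 𝔓 _ a1 a2 hov h5 h4 x y hx hy).2).2
      ⟨fun _ => h'.u0 q hq 𝔓 h1 h3, fun _ => h.u0 q hq 𝔓 h1 h3⟩

theorem cnd_sig {L : Type} [Field L] [NumberField L] [Algebra F L] [Algebra L Ω]
    [IsScalarTower F L Ω] {θ₀ η₀ : L}
    (hθ : θ = algebraMap L Ω θ₀) (hη : η = algebraMap L Ω η₀)
    (σ : Ω ≃ₐ[L] Ω) {x : Ω} (h : Cnd J 𝔮 θ η x) : Cnd J 𝔮 θ η (σ x) := by
  have hf : ∀ y : L, σ (algebraMap L Ω y) = algebraMap L Ω y := fun y => σ.commutes y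
  have hF : ∀ y : F, σ (algebraMap F Ω y) = algebraMap F Ω y := fun y => by
    rw [IsScalarTower.algebraMap_apply F L Ω, hf]
  have hn : ∀ n : ℕ, σ (n : Ω) = (n : Ω) := fun n => map_natCast σ n
  have key := sig (σ : Ω ≃+* Ω)
  have hev : ∀ (𝔓 𝔓' : HeightOneSpectrum (𝓞 Ω)), (∀ y : Ω, 𝔓'.valuation Ω y = 𝔓.valuation Ω (σ y)) →
      ∀ y : Ω, Ev 𝔓' y ↔ Ev 𝔓 (σ y) := by
    intro 𝔓 𝔓' hv y
    constructor
    · rintro ⟨z, hz⟩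
      exact ⟨σ z, by rw [← hv, ← hv, hz]⟩
    · rintro ⟨z, hz⟩
      refine ⟨σ.symm z, ?_⟩
      rw [hv, hv, σ.apply_symm_apply, hz]
  have hsq : ∀ (𝔓 𝔓' : HeightOneSpectrum (𝓞 Ω)), (∀ y : Ω, 𝔓'.valuation Ω y = 𝔓.valuation Ω (σ y)) →
      ∀ y : Ω, Sq1 𝔓' y → Sq1 𝔓 (σ y) := by
    rintro 𝔓 𝔓' hv y ⟨z, hz⟩
    refine ⟨σ z, ?_⟩
    rw [hv, hv, map_sub, map_pow] at hz
    exact hz
  have hnat : ∀ (𝔓 𝔓' : HeightOneSpectrum (𝓞 Ω)), (∀ y : Ω, 𝔓'.valuation Ω y = 𝔓.valuation Ω (σ y)) →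
      ∀ n : ℕ, (n : 𝓞 Ω) ∈ 𝔓'.asIdeal ↔ (n : 𝓞 Ω) ∈ 𝔓.asIdeal := by
    intro 𝔓 𝔓' hv n
    rw [nat_mem_iff_val, nat_mem_iff_val, hv, hn]
  refine ⟨fun 𝔓 h1 h2 h3 => ?_, fun q hq 𝔓 h1 h2 => ?_⟩
  · obtain ⟨𝔓', hv⟩ := key 𝔓
    have hv' : ∀ y : Ω, 𝔓'.valuation Ω y = 𝔓.valuation Ω (σ y) := hv
    have h22 : (2 : 𝓞 Ω) ∉ 𝔓'.asIdeal := by
      have := hnat 𝔓 𝔓' hv' 2
      rw [Nat.cast_ofNat] at this
      rwa [this]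
    exact (hev 𝔓 𝔓' hv' x).1 (h.ev 𝔓' h22
      (fun q hq hc => h2 q hq ((hnat 𝔓 𝔓' hv' q).1 hc)) (by rw [hv', hη, hf, ← hη]; exact h3))
  · obtain ⟨𝔓', hv⟩ := key 𝔓
    have hv' : ∀ y : Ω, 𝔓'.valuation Ω y = 𝔓.valuation Ω (σ y) := hv
    have hO : Ov (𝔮 q) 𝔓' := by
      intro a ha
      have h4 := (mem_iff_val 𝔓 _).1 (h1 a ha)
      rw [mem_iff_val]
      have e : ((algebraMap (𝓞 F) (𝓞 Ω) a : 𝓞 Ω) : Ω) = algebraMap F Ω (a : F) := rfl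
      rw [e] at h4 ⊢
      rw [hv', hF]
      exact h4
    have h3 := h.u0 q hq 𝔓' hO (by rw [hv', hθ, hf, ← hθ]; exact h2)
    refine ⟨fun h4 => hsq 𝔓 𝔓' hv' x (h3.1 ((hev 𝔓 𝔓' hv' x).2 h4)), fun h4 => ?_⟩
    have h5 := hsq 𝔓 𝔓' hv' _ (h3.2 fun h6 => h4 ((hev 𝔓 𝔓' hv' x).1 h6))
    rw [map_mul, map_mul, hn, hθ, hf, ← hθ] at h5
    exact h5

end cond

end Pool.Agent.H14F
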