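import Pool.Agent.H14F.DISC

/-!
# Stub REDC of project F6: reducible pairs modulo `p`
-/

set_option autoImplicit false

namespace Pool.Agent.H14F.REDC

open Finset Pool.Agent.H14F.DISC

lemma card_cls (m : ℕ) : (cls m).card = m ^ 3 := by
  unfold cls
  rw [Fintype.card_piFinset_const, Int.card_Ico, sub_zero, Int.toNat_natCast]

open Classical in
/-- multiples of a nonzero vector -/
lemma mult_card (p : ℕ) (hp : p.Prime) (f : Fin 3 → ℤ) (hf : f ∈ cls p) (hf0 : f ≠ 0) :
    ((cls p).filter fun g => (p : ℤ) ∣ f 0 * g 1 - f 1 * g 0 ∧ (p : ℤ) ∣ f 0 * g 2 - f 2 * g 0 ∧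
      (p : ℤ) ∣ f 1 * g 2 - f 2 * g 1).card ≤ p := by
  have hp' : Prime (p : ℤ) := Nat.prime_iff_prime_int.1 hp
  rw [mem_cls] at hf
  obtain ⟨i, hi⟩ : ∃ i, f i ≠ 0 := by
    by_contra h
    push Not at h
    exact hf0 (funext h)
  have hpi : ¬ (p : ℤ) ∣ f i := fun h => hi (eq_zero_of_dvd (hf i) h)
  have hcard : p = (Ico (0 : ℤ) p).card := by rw [Int.card_Ico, sub_zero, Int.toNat_natCast]
  conv_rhs => rw [hcard]
  refine Finset.card_le_card_of_injOn (fun g => g i) ?_ ?_
  · intro g hg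
    have h := (Finset.mem_filter.1 hg).1
    rw [mem_cls] at h
    exact Finset.mem_coe.2 (Finset.mem_Ico.2 (h i))
  · intro g hg g' hg' h
    obtain ⟨h1, a1, a2, a3⟩ := Finset.mem_filter.1 hg
    obtain ⟨h1', b1, b2, b3⟩ := Finset.mem_filter.1 hg'
    rw [mem_cls] at h1 h1'
    have h : g i = g' i := h
    have key : ∀ j, (p : ℤ) ∣ f i * (g j - g' j) := by
      have c1 := dvd_sub a1 b1
      have c2 := dvd_sub a2 b2
      have c3 := dvd_sub a3 b3
      intro j
      fin_cases i <;> fin_cases j <;> simp only [Fin.zero_eta, Fin.mk_one, Fin.reduceFinMk] at h ⊢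
      · rw [h, sub_self, mul_zero]; exact dvd_zero _
      · rw [h] at c1; refine c1.trans (dvd_of_eq ?_); ring
      · rw [h] at c2; refine c2.trans (dvd_of_eq ?_); ring
      · rw [h] at c1; rw [← dvd_neg] at c1; refine c1.trans (dvd_of_eq ?_); ring
      · rw [h, sub_self, mul_zero]; exact dvd_zero _
      · rw [h] at c3; refine c3.trans (dvd_of_eq ?_); ring
      · rw [h] at c2; rw [← dvd_neg] at c2; refine c2.trans (dvd_of_eq ?_); ring
      · rw [h] at c3; rw [← dvd_neg] at c3; refine c3.trans (dvd_of_eq ?_); ring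
      · rw [h, sub_self, mul_zero]; exact dvd_zero _
    funext j
    rcases hp'.dvd_or_dvd (key j) with h2 | h2
    · exact absurd h2 hpi
    · exact eq_of_dvd (h1 j) (h1' j) h2

open Classical in
theorem t : REDC := by
  intro p hp h3
  set A := (cls p ×ˢ cls p).filter fun q : (Fin 3 → ℤ) × (Fin 3 → ℤ) => q.1 = 0 with hA
  set B := (cls p ×ˢ cls p).filter fun q : (Fin 3 → ℤ) × (Fin 3 → ℤ) => q.1 ≠ 0 ∧
    ((p : ℤ) ∣ q.1 0 * q.2 1 - q.1 1 * q.2 0 ∧ (p : ℤ) ∣ q.1 0 * q.2 2 - q.1 2 * q.2 0 ∧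
      (p : ℤ) ∣ q.1 1 * q.2 2 - q.1 2 * q.2 1) with hB
  set D := (cls p ×ˢ cls p).filter fun q : (Fin 3 → ℤ) × (Fin 3 → ℤ) =>
    (p : ℤ) ∣ disc q.1 ∧ (p : ℤ) ∣ disc q.2 with hD
  have hsub : (cls p ×ˢ cls p).filter (fun q : (Fin 3 → ℤ) × (Fin 3 → ℤ) => Red p q.1 q.2) ⊆
      A ∪ B ∪ D := by
    intro q hq
    obtain ⟨h1, h2⟩ := Finset.mem_filter.1 hq
    rw [Finset.mem_union, Finset.mem_union]
    rcases h2 with h2 | h2
    · left
      by_cases hz : q.1 = 0
      · left; exact Finset.mem_filter.2 ⟨h1, hz⟩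
      · right; exact Finset.mem_filter.2 ⟨h1, hz, h2⟩
    · right; exact Finset.mem_filter.2 ⟨h1, h2⟩
  have hAc : A.card ≤ p ^ 3 := by
    have : A ⊆ ({0} : Finset (Fin 3 → ℤ)) ×ˢ cls p := by
      intro q hq
      obtain ⟨h1, h2⟩ := Finset.mem_filter.1 hq
      rw [Finset.mem_product] at h1 ⊢
      exact ⟨Finset.mem_singleton.2 h2, h1.2⟩
    refine (Finset.card_le_card this).trans ?_
    rw [Finset.card_product, Finset.card_singleton, one_mul, card_cls]
  have hBc : B.card ≤ p ^ 3 * p := by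
    have h := Finset.card_le_mul_card_image_of_maps_to (s := B) (t := cls p) (f := Prod.fst)
      (fun q hq => (Finset.mem_product.1 (Finset.mem_filter.1 hq).1).1) p (by
        intro f hf
        by_cases hz : f = 0
        · have : (B.filter fun q => q.1 = f) = ∅ := by
            rw [Finset.filter_eq_empty_iff]
            intro q hq h
            exact (Finset.mem_filter.1 hq).2.1 (h.trans hz)
          rw [this, Finset.card_empty]; exact Nat.zero_le _
        · refine le_trans ?_ (mult_card p hp f hf hz)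
          refine Finset.card_le_card_of_injOn Prod.snd ?_ ?_
          · intro q hq
            obtain ⟨h1, h2⟩ := Finset.mem_filter.1 hq
            obtain ⟨h3, h4⟩ := Finset.mem_filter.1 h1
            rw [h2] at h4
            exact Finset.mem_coe.2 (Finset.mem_filter.2 ⟨(Finset.mem_product.1 h3).2, h4.2⟩)
          · intro q hq q' hq' h
            have h2 := (Finset.mem_filter.1 hq).2
            have h2' := (Finset.mem_filter.1 hq').2
            exact Prod.ext (h2.trans h2'.symm) h)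
    rw [card_cls] at h
    linarith
  have hDc : D.card ≤ p ^ 2 * p ^ 2 := by
    have h := Pool.Agent.H14F.DISC.t p hp h3
    have : D ⊆ ((cls p).filter fun f => (p : ℤ) ∣ disc f) ×ˢ
        ((cls p).filter fun f => (p : ℤ) ∣ disc f) := by
      intro q hq
      obtain ⟨h1, h2, h3⟩ := Finset.mem_filter.1 hq
      rw [Finset.mem_product] at h1 ⊢
      exact ⟨Finset.mem_filter.2 ⟨h1.1, h2⟩, Finset.mem_filter.2 ⟨h1.2, h3⟩⟩
    refine (Finset.card_le_card this).trans ?_
    rw [Finset.card_product, h]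
  have h1 := Finset.card_le_card hsub
  have h2 := Finset.card_union_le (A ∪ B) D
  have h3 := Finset.card_union_le A B
  have h4 : p ^ 3 ≤ p ^ 4 := Nat.pow_le_pow_right hp.pos (by norm_num)
  have h5 : p ^ 3 * p = p ^ 4 := by ring
  have h6 : p ^ 2 * p ^ 2 = p ^ 4 := by ring
  rw [h5] at hBc
  rw [h6] at hDc
  linarith

end Pool.Agent.H14F.REDC
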