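import Pool.Agent.H14F.StmB
import Pool.Agent.H14F.RESC
import Pool.Agent.H14F.REDC

/-!
# Project F6, stub DEG (helper20)
-/

set_option autoImplicit false

namespace Pool.Agent.H14F.DEG

open Finset

/-- reduction -/
def rd (p : ℕ) (x : Fin 3 → ℤ) : Fin 3 → ℤ := fun i => x i % (p : ℤ)

theorem rd_mem {p : ℕ} (hp : 0 < p) (x : Fin 3 → ℤ) : rd p x ∈ cls p := by
  unfold cls
  rw [Fintype.mem_piFinset]
  intro i
  have : (0 : ℤ) < p := by exact_mod_cast hp
  rw [mem_Ico]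
  exact ⟨Int.emod_nonneg _ this.ne', Int.emod_lt_of_pos _ this⟩

theorem mem_box {H : ℕ} {x : Fin 3 → ℤ} : x ∈ box H ↔ ∀ i, -(H : ℤ) ≤ x i ∧ x i ≤ H := by
  unfold box rbox
  simp [Fintype.mem_piFinset]

theorem rd_inj {p H : ℕ} (hp : 2 * H < p) {x y : Fin 3 → ℤ} (hx : x ∈ box H) (hy : y ∈ box H)
    (h : rd p x = rd p y) : x = y := by
  rw [mem_box] at hx hy
  funext i
  have h1 : x i % (p : ℤ) = y i % (p : ℤ) := congrFun h i
  have h2 : (p : ℤ) ∣ x i - y i := Int.dvd_of_emod_eq_zero (Int.emod_eq_emod_iff_emod_sub_eq_zero.1 h1)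
  obtain ⟨a1, a2⟩ := hx i
  obtain ⟨b1, b2⟩ := hy i
  have h3 : x i - y i = 0 := by
    refine Int.eq_zero_of_abs_lt_dvd h2 ?_
    rw [abs_lt]
    constructor <;> omega
  omega

theorem dvd_sub_rd (p : ℕ) (x : Fin 3 → ℤ) (i : Fin 3) : (p : ℤ) ∣ x i - rd p x i :=
  Int.dvd_self_sub_emod

theorem dvd_sub_sub {p a b : ℤ} (h : p ∣ a - b) (h0 : a = 0) : p ∣ b := by
  rw [h0, zero_sub] at h
  exact (dvd_neg).1 h

theorem disc_congr (p : ℕ) (f : Fin 3 → ℤ) : (p : ℤ) ∣ disc f - disc (rd p f) := by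
  have e : disc f - disc (rd p f) = (f 1 - rd p f 1) * (f 1 + rd p f 1) -
      4 * ((f 0 - rd p f 0) * f 2) - 4 * ((f 2 - rd p f 2) * rd p f 0) := by
    simp only [disc]
    ring
  rw [e]
  exact dvd_sub (dvd_sub ((dvd_sub_rd p f 1).mul_right _) (((dvd_sub_rd p f 0).mul_right _).mul_left _))
    (((dvd_sub_rd p f 2).mul_right _).mul_left _)

theorem minor_congr (p : ℕ) (f g : Fin 3 → ℤ) (i j : Fin 3) :
    (p : ℤ) ∣ (f i * g j - g i * f j) - (rd p f i * rd p g j - rd p g i * rd p f j) := by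
  have e : (f i * g j - g i * f j) - (rd p f i * rd p g j - rd p g i * rd p f j) =
      (f i - rd p f i) * g j + (g j - rd p g j) * rd p f i - (g i - rd p g i) * f j -
        (f j - rd p f j) * rd p g i := by ring
  rw [e]
  exact dvd_sub (dvd_sub (dvd_add ((dvd_sub_rd p f i).mul_right _) ((dvd_sub_rd p g j).mul_right _))
    ((dvd_sub_rd p g i).mul_right _)) ((dvd_sub_rd p f j).mul_right _)

theorem mul_congr' {p a b c d : ℤ} (h1 : p ∣ a - b) (h2 : p ∣ c - d) : p ∣ a * c - b * d := by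
  have e : a * c - b * d = (a - b) * c + (c - d) * b := by ring
  rw [e]
  exact dvd_add (h1.mul_right _) (h2.mul_right _)

theorem res_congr (p : ℕ) (f g : Fin 3 → ℤ) : (p : ℤ) ∣ res f g - res (rd p f) (rd p g) := by
  have h1 := mul_congr' (minor_congr p f g 0 2) (minor_congr p f g 0 2)
  have h2 := mul_congr' (minor_congr p f g 0 1) (minor_congr p f g 1 2)
  have e : res f g - res (rd p f) (rd p g) =
      ((f 0 * g 2 - g 0 * f 2) * (f 0 * g 2 - g 0 * f 2) -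
        (rd p f 0 * rd p g 2 - rd p g 0 * rd p f 2) * (rd p f 0 * rd p g 2 - rd p g 0 * rd p f 2)) -
      ((f 0 * g 1 - g 0 * f 1) * (f 1 * g 2 - g 1 * f 2) -
        (rd p f 0 * rd p g 1 - rd p g 0 * rd p f 1) * (rd p f 1 * rd p g 2 - rd p g 1 * rd p f 2)) := by
    simp only [res]
    ring
  rw [e]
  exact dvd_sub h1 h2

/-- the filter with the classical decidability -/
noncomputable def fil {α : Type} (s : Finset α) (A : α → Prop) : Finset α :=
  @Finset.filter α A (fun _ => Classical.propDecidable _) s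

theorem mem_fil {α : Type} {s : Finset α} {A : α → Prop} {x : α} : x ∈ fil s A ↔ x ∈ s ∧ A x := by
  unfold fil
  exact @Finset.mem_filter α A (fun _ => Classical.propDecidable _) s x

theorem filter_eq {α : Type} (s : Finset α) (A : α → Prop) [DecidablePred A] : s.filter A = fil s A := by
  ext x
  rw [mem_fil, mem_filter]

/-- counting through the reduction -/
theorem count {p H : ℕ} (hp0 : 0 < p) (hp : 2 * H < p) (A : (Fin 3 → ℤ) × (Fin 3 → ℤ) → Prop)
    (B : (Fin 3 → ℤ) × (Fin 3 → ℤ) → Prop) (hAB : ∀ q, A q → B (rd p q.1, rd p q.2)) :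
    (fil (box H ×ˢ box H) A).card ≤ (fil (cls p ×ˢ cls p) B).card := by
  refine Finset.card_le_card_of_injOn (fun q => (rd p q.1, rd p q.2)) ?_ ?_
  · intro q hq
    rw [Finset.mem_coe, mem_fil] at hq ⊢
    rw [mem_product]
    exact ⟨⟨rd_mem hp0 _, rd_mem hp0 _⟩, hAB q hq.2⟩
  · intro q hq q' hq' h
    rw [Finset.mem_coe, mem_fil, mem_product] at hq hq'
    simp only [Prod.mk.injEq] at h
    exact Prod.ext (rd_inj hp hq.1.1 hq'.1.1 h.1) (rd_inj hp hq.1.2 hq'.1.2 h.2)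

theorem count_zero (p : ℕ) : (fil (cls p) (fun f => (p : ℤ) ∣ f 0)).card ≤ p ^ 2 := by
  have h : (fil (cls p) (fun f => (p : ℤ) ∣ f 0)).card ≤ (Ico (0 : ℤ) p ×ˢ Ico (0 : ℤ) p).card := by
    refine Finset.card_le_card_of_injOn (fun f => (f 1, f 2)) ?_ ?_
    · intro f hf
      rw [Finset.mem_coe, mem_fil] at hf
      unfold cls at hf
      rw [Fintype.mem_piFinset] at hf
      rw [Finset.mem_coe, mem_product]
      exact ⟨hf.1 1, hf.1 2⟩
    · intro f hf g hg h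
      rw [Finset.mem_coe, mem_fil] at hf hg
      unfold cls at hf hg
      rw [Fintype.mem_piFinset] at hf hg
      simp only [Prod.mk.injEq] at h
      have h0 : ∀ f : Fin 3 → ℤ, f 0 ∈ Ico (0 : ℤ) p → (p : ℤ) ∣ f 0 → f 0 = 0 := by
        intro f hf hd
        rw [mem_Ico] at hf
        refine Int.eq_zero_of_abs_lt_dvd hd ?_
        rw [abs_lt]
        constructor <;> omega
      funext i
      fin_cases i
      · change f 0 = g 0
        rw [h0 f (hf.1 0) hf.2, h0 g (hg.1 0) hg.2]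
      · exact h.1
      · exact h.2
  refine h.trans ?_
  rw [card_product, Int.card_Ico, sub_zero, Int.toNat_natCast]
  exact (sq p).ge

theorem fl {p : ℕ} (A : (Fin 3 → ℤ) → Prop) (hA : (fil (cls p) A).card ≤ p ^ 2) :
    (fil (cls p ×ˢ cls p) fun q : (Fin 3 → ℤ) × (Fin 3 → ℤ) => A q.1).card ≤ p ^ 5 := by
  have : (fil (cls p ×ˢ cls p) fun q : (Fin 3 → ℤ) × (Fin 3 → ℤ) => A q.1) ⊆
      fil (cls p) A ×ˢ cls p := by
    intro q hq
    simp only [mem_fil, mem_product] at hq ⊢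
    tauto
  refine (Finset.card_le_card this).trans ?_
  rw [card_product, REDC.card_cls]
  calc _ ≤ p ^ 2 * p ^ 3 := Nat.mul_le_mul_right _ hA
    _ = p ^ 5 := by ring

theorem fr {p : ℕ} (A : (Fin 3 → ℤ) → Prop) (hA : (fil (cls p) A).card ≤ p ^ 2) :
    (fil (cls p ×ˢ cls p) fun q : (Fin 3 → ℤ) × (Fin 3 → ℤ) => A q.2).card ≤ p ^ 5 := by
  have : (fil (cls p ×ˢ cls p) fun q : (Fin 3 → ℤ) × (Fin 3 → ℤ) => A q.2) ⊆
      cls p ×ˢ fil (cls p) A := by
    intro q hq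
    simp only [mem_fil, mem_product] at hq ⊢
    tauto
  refine (Finset.card_le_card this).trans ?_
  rw [card_product, REDC.card_cls]
  calc _ ≤ p ^ 3 * p ^ 2 := Nat.mul_le_mul_left _ hA
    _ = p ^ 5 := by ring

theorem t : DEG := by
  refine ⟨8 * 4 ^ 5, by norm_num, fun H hH => ?_⟩
  obtain ⟨p, hp, hp1, hp2⟩ := Nat.exists_prime_lt_and_le_two_mul (2 * H) (by omega)
  have h5 : 5 ≤ p := by omega
  rw [filter_eq]
  have hsub : (fil (box H ×ˢ box H) fun q : (Fin 3 → ℤ) × (Fin 3 → ℤ) => res q.1 q.2 = 0 ∨ disc q.1 = 0 ∨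
    disc q.2 = 0 ∨ q.1 0 = 0 ∨ q.2 0 = 0) ⊆
    fil (box H ×ˢ box H) (fun q : (Fin 3 → ℤ) × (Fin 3 → ℤ) => res q.1 q.2 = 0) ∪
    (fil (box H ×ˢ box H) (fun q : (Fin 3 → ℤ) × (Fin 3 → ℤ) => disc q.1 = 0) ∪
    (fil (box H ×ˢ box H) (fun q : (Fin 3 → ℤ) × (Fin 3 → ℤ) => disc q.2 = 0) ∪
    (fil (box H ×ˢ box H) (fun q : (Fin 3 → ℤ) × (Fin 3 → ℤ) => q.1 0 = 0) ∪
    fil (box H ×ˢ box H) (fun q : (Fin 3 → ℤ) × (Fin 3 → ℤ) => q.2 0 = 0)))) := by
    intro q hq
    rw [mem_fil] at hq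
    simp only [mem_union, mem_fil]
    tauto
  have e1 := count (H := H) hp.pos hp1 (fun q => res q.1 q.2 = 0) (fun q => (p : ℤ) ∣ res q.1 q.2)
    (fun q hq => dvd_sub_sub (res_congr p q.1 q.2) hq)
  have e2 := count (H := H) hp.pos hp1 (fun q => disc q.1 = 0) (fun q => (p : ℤ) ∣ disc q.1)
    (fun q hq => dvd_sub_sub (disc_congr p q.1) hq)
  have e3 := count (H := H) hp.pos hp1 (fun q => disc q.2 = 0) (fun q => (p : ℤ) ∣ disc q.2)
    (fun q hq => dvd_sub_sub (disc_congr p q.2) hq)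
  have e4 := count (H := H) hp.pos hp1 (fun q => q.1 0 = 0) (fun q => (p : ℤ) ∣ q.1 0)
    (fun q hq => dvd_sub_sub (dvd_sub_rd p q.1 0) hq)
  have e5 := count (H := H) hp.pos hp1 (fun q => q.2 0 = 0) (fun q => (p : ℤ) ∣ q.2 0)
    (fun q hq => dvd_sub_sub (dvd_sub_rd p q.2 0) hq)
  have f1 := RESC.t p hp h5
  rw [filter_eq] at f1
  have hdisc := (DISC.t p hp (by omega)).le
  rw [filter_eq] at hdisc
  have g2 := e2.trans (fl _ hdisc)
  have g3 := e3.trans (fr _ hdisc)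
  have g4 := e4.trans (fl _ (count_zero p))
  have g5 := e5.trans (fr _ (count_zero p))
  have hu := (Finset.card_le_card hsub).trans ((Finset.card_union_le _ _).trans (Nat.add_le_add_left
    ((Finset.card_union_le _ _).trans (Nat.add_le_add_left ((Finset.card_union_le _ _).trans
      (Nat.add_le_add_left (Finset.card_union_le _ _) _)) _)) _))
  have hR := le_trans ((Nat.cast_le (α := ℝ)).2 e1) f1
  have hp0 : (1 : ℝ) ≤ p := by exact_mod_cast hp.one_lt.le
  have hp4 : (p : ℝ) ≤ 4 * H := by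
    have : p ≤ 4 * H := by omega
    exact_mod_cast this
  have h2 := hu.trans (Nat.add_le_add_left (Nat.add_le_add g2 (Nat.add_le_add g3 (Nat.add_le_add g4 g5))) _)
  have h1 := (Nat.cast_le (α := ℝ)).2 h2
  push_cast at h1
  have h3 : (p : ℝ) ^ 4 ≤ (p : ℝ) ^ 5 := pow_le_pow_right₀ hp0 (by norm_num)
  refine h1.trans ?_
  calc _ ≤ 8 * (p : ℝ) ^ 5 := by linarith
    _ ≤ 8 * (4 * (H : ℝ)) ^ 5 := by
        have := pow_le_pow_left₀ (by linarith : (0 : ℝ) ≤ p) hp4 5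
        linarith
    _ = _ := by ring

end Pool.Agent.H14F.DEG
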