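import Pool.Agent.H14F.Stm

/-!
# Stub DISC of project F6: forms with vanishing discriminant modulo `p`
-/

set_option autoImplicit false

namespace Pool.Agent.H14F.DISC

open Finset

lemma mem_cls {m : ℕ} {f : Fin 3 → ℤ} : f ∈ cls m ↔ ∀ i, 0 ≤ f i ∧ f i < m := by
  unfold cls
  rw [Fintype.mem_piFinset]
  exact forall_congr' fun i => Finset.mem_Ico

lemma eq_of_dvd {p : ℕ} {x y : ℤ} (hx : 0 ≤ x ∧ x < p) (hy : 0 ≤ y ∧ y < p) (h : (p : ℤ) ∣ x - y) :
    x = y := by
  have h1 : x - y = 0 := by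
    apply Int.eq_zero_of_abs_lt_dvd h
    rw [abs_lt]; constructor <;> linarith [hx.1, hx.2, hy.1, hy.2]
  linarith

lemma eq_zero_of_dvd {p : ℕ} {x : ℤ} (hx : 0 ≤ x ∧ x < p) (h : (p : ℤ) ∣ x) : x = 0 := by
  apply Int.eq_zero_of_abs_lt_dvd h
  rw [abs_lt]; constructor <;> linarith [hx.1, hx.2]

/-- solving a linear congruence -/
lemma solve {p : ℕ} (hp : p.Prime) (a b : ℤ) (ha : ¬ (p : ℤ) ∣ a) :
    ∃ c : ℤ, (0 ≤ c ∧ c < p) ∧ (p : ℤ) ∣ b - a * c := by
  haveI := Fact.mk hp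
  have ha' : (a : ZMod p) ≠ 0 := fun h => ha ((ZMod.intCast_zmod_eq_zero_iff_dvd a p).1 h)
  refine ⟨(((b : ZMod p) * (a : ZMod p)⁻¹).val : ℤ), ⟨by positivity, ?_⟩, ?_⟩
  · exact_mod_cast ZMod.val_lt _
  · rw [← ZMod.intCast_zmod_eq_zero_iff_dvd]
    push_cast
    rw [ZMod.natCast_val, ZMod.cast_id', id_eq]
    field_simp
    ring

lemma not_dvd_four {p : ℕ} (hp : p.Prime) (h3 : 3 ≤ p) {a : ℤ} (ha : 0 ≤ a ∧ a < p) (ha0 : a ≠ 0) :
    ¬ (p : ℤ) ∣ 4 * a := by
  intro h
  have hp' : Prime (p : ℤ) := Nat.prime_iff_prime_int.1 hp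
  rcases hp'.dvd_or_dvd h with h | h
  · have h1 : (p : ℤ) ∣ (2 : ℤ) ^ 2 := by norm_num; exact h
    have h2 := hp'.dvd_of_dvd_pow h1
    have h3' := Int.le_of_dvd (by norm_num) h2
    have : p ≤ 2 := by exact_mod_cast h3'
    omega
  · exact ha0 (eq_zero_of_dvd ha h)

theorem t : DISC := by
  intro p hp h3
  have hpp : (0 : ℤ) < p := by exact_mod_cast hp.pos
  have hcard : p ^ 2 = ((Ico (0 : ℤ) p) ×ˢ (Ico (0 : ℤ) p)).card := by
    rw [Finset.card_product, Int.card_Ico, sub_zero, Int.toNat_natCast, sq]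
  rw [hcard]
  refine Finset.card_bij (fun f _ => (f 0, if f 0 = 0 then f 2 else f 1)) ?_ ?_ ?_
  · intro f hf
    obtain ⟨hf1, -⟩ := Finset.mem_filter.1 hf
    rw [mem_cls] at hf1
    rw [Finset.mem_product]
    refine ⟨Finset.mem_Ico.2 (hf1 0), ?_⟩
    simp only
    split_ifs
    · exact Finset.mem_Ico.2 (hf1 2)
    · exact Finset.mem_Ico.2 (hf1 1)
  · intro f hf f' hf' h
    obtain ⟨hf1, hf2⟩ := Finset.mem_filter.1 hf
    obtain ⟨hf1', hf2'⟩ := Finset.mem_filter.1 hf'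
    rw [mem_cls] at hf1 hf1'
    rw [Prod.mk.injEq] at h
    obtain ⟨h0, h1⟩ := h
    have hp' : Prime (p : ℤ) := Nat.prime_iff_prime_int.1 hp
    unfold disc at hf2 hf2'
    by_cases hz : f 0 = 0
    · have hz' : f' 0 = 0 := h0 ▸ hz
      rw [if_pos hz, if_pos hz'] at h1
      rw [hz, mul_zero, zero_mul, sub_zero] at hf2
      rw [hz', mul_zero, zero_mul, sub_zero] at hf2'
      have e1 := eq_zero_of_dvd (hf1 1) (hp'.dvd_of_dvd_pow hf2)
      have e2 := eq_zero_of_dvd (hf1' 1) (hp'.dvd_of_dvd_pow hf2')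
      funext i
      fin_cases i
      · exact h0
      · exact e1.trans e2.symm
      · exact h1
    · have hz' : f' 0 ≠ 0 := h0 ▸ hz
      rw [if_neg hz, if_neg hz'] at h1
      have e : (p : ℤ) ∣ (4 * f 0) * (f 2 - f' 2) := by
        have := dvd_sub hf2' hf2
        rw [← h0, ← h1] at this
        refine this.trans (dvd_of_eq ?_)
        ring
      have e2 : (p : ℤ) ∣ f 2 - f' 2 := by
        rcases hp'.dvd_or_dvd e with e | e
        · exact absurd e (not_dvd_four hp h3 (hf1 0) hz)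
        · exact e
      funext i
      fin_cases i
      · exact h0
      · exact h1
      · exact eq_of_dvd (hf1 2) (hf1' 2) e2
  · rintro ⟨a, b⟩ hab
    rw [Finset.mem_product] at hab
    obtain ⟨ha, hb⟩ := hab
    have ha' := Finset.mem_Ico.1 ha
    have hb' := Finset.mem_Ico.1 hb
    simp only at ha' hb'
    by_cases hz : a = 0
    · refine ⟨![0, 0, b], ?_, ?_⟩
      · rw [Finset.mem_filter, mem_cls]
        refine ⟨?_, ?_⟩
        · intro i
          fin_cases i
          · exact ⟨le_rfl, hpp⟩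
          · exact ⟨le_rfl, hpp⟩
          · exact hb'
        · simp [disc]
      · simp [hz]
    · obtain ⟨c, hc, hd⟩ := solve hp (4 * a) (b ^ 2) (not_dvd_four hp h3 ha' hz)
      refine ⟨![a, b, c], ?_, ?_⟩
      · rw [Finset.mem_filter, mem_cls]
        refine ⟨?_, ?_⟩
        · intro i
          fin_cases i
          · exact ha'
          · exact hb'
          · exact hc
        · simpa [disc] using hd
      · simp [hz]

end Pool.Agent.H14F.DISC
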