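import Pool.Agent.H14F.Stm

/-!
# Project F6: stub DRC
-/

set_option autoImplicit false

namespace Pool.Agent.H14F.DRC

open Finset Pool.Agent.H14F

theorem mem_cls {p : ℕ} {f : Fin 3 → ℤ} (h : f ∈ cls p) (i : Fin 3) : 0 ≤ f i ∧ f i < p := by
  rw [cls, Fintype.mem_piFinset] at h
  have := h i
  rwa [mem_Ico] at this

theorem eq_of_dvd {p : ℕ} {x y : ℤ} (hx : 0 ≤ x ∧ x < p) (hy : 0 ≤ y ∧ y < p)
    (h : (p : ℤ) ∣ x - y) : x = y := by
  have h1 : x - y = 0 := Int.eq_zero_of_abs_lt_dvd h (by rw [abs_lt]; constructor <;> linarith)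
  linarith

/-- the parameters of the pair -/
def Φ (q : (Fin 3 → ℤ) × (Fin 3 → ℤ)) : ℤ × ℤ × ℤ × ℤ :=
  if q.1 0 = 0 then (0, q.1 2, q.2 1, q.2 2) else (q.1 0, q.1 1, q.2 0, q.2 1)

theorem t : DRC := by
  classical
  intro p hp h5
  have hpp : (0 : ℤ) < p := by exact_mod_cast hp.pos
  have hp' : Prime (p : ℤ) := Nat.prime_iff_prime_int.mp hp
  have h4 : ¬ (p : ℤ) ∣ 4 := by
    intro h
    have := Int.le_of_dvd (by norm_num) h
    omega
  set S := (cls p ×ˢ cls p).filter fun q : (Fin 3 → ℤ) × (Fin 3 → ℤ) =>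
    (p : ℤ) ∣ disc q.1 ∧ (p : ℤ) ∣ res q.1 q.2 with hS
  have hmem : ∀ q ∈ S, q.1 ∈ cls p ∧ q.2 ∈ cls p ∧ (p : ℤ) ∣ disc q.1 ∧ (p : ℤ) ∣ res q.1 q.2 := by
    intro q hq
    rw [hS, mem_filter, mem_product] at hq
    exact ⟨hq.1.1, hq.1.2, hq.2.1, hq.2.2⟩
  have hI : (Ico (0 : ℤ) p).card = p := by rw [Int.card_Ico]; simp
  have c0 : (S.filter fun q => q.1 = 0).card ≤ p ^ 3 := by
    have h : (S.filter fun q => q.1 = 0).card ≤ (cls p).card := by
      refine card_le_card_of_injOn (fun q => q.2) ?_ ?_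
      · intro q hq
        have hq' := mem_filter.1 (mem_coe.1 hq)
        exact (hmem q hq'.1).2.1
      · intro q hq q' hq' h
        have e1 := (mem_filter.1 (mem_coe.1 hq)).2
        have e2 := (mem_filter.1 (mem_coe.1 hq')).2
        exact Prod.ext (e1.trans e2.symm) h
    refine h.trans (le_of_eq ?_)
    rw [cls, Fintype.card_piFinset]
    simp
  have c1 : (S.filter fun q => ¬ q.1 = 0).card ≤ p ^ 4 := by
    have h : (S.filter fun q => ¬ q.1 = 0).card ≤
        ((Ico (0 : ℤ) p) ×ˢ (Ico (0 : ℤ) p) ×ˢ (Ico (0 : ℤ) p) ×ˢ (Ico (0 : ℤ) p)).card := by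
      refine card_le_card_of_injOn Φ ?_ ?_
      · intro q hq
        have hq' := hmem q (mem_filter.1 (mem_coe.1 hq)).1
        have f0 := mem_cls hq'.1
        have g0 := mem_cls hq'.2.1
        rw [mem_coe, Φ]
        split_ifs
        · simp only [mem_product, mem_Ico]
          exact ⟨⟨le_refl _, hpp⟩, f0 2, g0 1, g0 2⟩
        · simp only [mem_product, mem_Ico]
          exact ⟨f0 0, f0 1, g0 0, g0 1⟩
      · rintro ⟨f, g⟩ hq ⟨f', g'⟩ hq' h
        have hq1 := mem_filter.1 (mem_coe.1 hq)
        have hq2 := mem_filter.1 (mem_coe.1 hq')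
        obtain ⟨hf, hg, hd, hr⟩ := hmem _ hq1.1
        obtain ⟨hf', hg', hd', hr'⟩ := hmem _ hq2.1
        simp only at hf hg hd hr hf' hg' hd' hr'
        have a1 := mem_cls hf
        have a2 := mem_cls hg
        have b1 := mem_cls hf'
        have b2 := mem_cls hg'
        have ext3 : ∀ u v : Fin 3 → ℤ, u 0 = v 0 → u 1 = v 1 → u 2 = v 2 → u = v := by
          intro u v h0 h1 h2
          funext i
          fin_cases i
          · exact h0
          · exact h1
          · exact h2
        -- the case `f 0 = 0`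
        have hz : ∀ (u v : Fin 3 → ℤ), u ∈ cls p → v ∈ cls p → (p : ℤ) ∣ disc u → (p : ℤ) ∣ res u v →
            u ≠ 0 → u 0 = 0 → u 1 = 0 ∧ v 0 = 0 := by
          intro u v hu hv hdu hru hu0 h0
          have d1 := mem_cls hu
          have d2 := mem_cls hv
          have e1 : disc u = u 1 ^ 2 := by rw [disc, h0]; ring
          rw [e1] at hdu
          have e2 : u 1 = 0 := eq_of_dvd (d1 1) ⟨le_refl _, hpp⟩ (by
            rw [sub_zero]; exact hp'.dvd_of_dvd_pow hdu)
          have e3 : u 2 ≠ 0 := fun h => hu0 (ext3 u 0 h0 e2 h)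
          have e4 : res u v = (v 0 * u 2) ^ 2 := by rw [res, h0, e2]; ring
          rw [e4] at hru
          have e5 := hp'.dvd_of_dvd_pow hru
          rcases hp'.dvd_or_dvd e5 with h | h
          · exact ⟨e2, eq_of_dvd (d2 0) ⟨le_refl _, hpp⟩ (by rw [sub_zero]; exact h)⟩
          · exact absurd (eq_of_dvd (d1 2) ⟨le_refl _, hpp⟩ (by rw [sub_zero]; exact h)) e3
        by_cases h0 : f 0 = 0
        · by_cases h0' : f' 0 = 0
          · rw [Φ, Φ, if_pos h0, if_pos h0'] at h
            obtain ⟨k1, k2⟩ := hz f g hf hg hd hr hq1.2 h0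
            obtain ⟨k1', k2'⟩ := hz f' g' hf' hg' hd' hr' hq2.2 h0'
            simp only [Prod.mk.injEq, true_and] at h
            obtain ⟨e1, e2, e3⟩ := h
            rw [ext3 f f' (h0.trans h0'.symm) (k1.trans k1'.symm) e1,
              ext3 g g' (k2.trans k2'.symm) e2 e3]
          · rw [Φ, Φ, if_pos h0, if_neg h0'] at h
            simp only [Prod.mk.injEq] at h
            exact absurd h.1.symm h0'
        · by_cases h0' : f' 0 = 0
          · rw [Φ, Φ, if_neg h0, if_pos h0'] at h
            simp only [Prod.mk.injEq] at h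
            exact absurd h.1 h0
          · rw [Φ, Φ, if_neg h0, if_neg h0'] at h
            simp only [Prod.mk.injEq] at h
            obtain ⟨e0, e1, e2, e3⟩ := h
            have hnd : ¬ (p : ℤ) ∣ f 0 := by
              intro h
              exact h0 (eq_of_dvd (a1 0) ⟨le_refl _, hpp⟩ (by rw [sub_zero]; exact h))
            have e4 : f 2 = f' 2 := by
              refine eq_of_dvd (a1 2) (b1 2) ?_
              have h1 : (p : ℤ) ∣ disc f' - disc f := dvd_sub hd' hd
              have h2 : disc f' - disc f = (4 * f 0) * (f 2 - f' 2) := by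
                rw [disc, disc, ← e0, ← e1]; ring
              rw [h2] at h1
              rcases hp'.dvd_or_dvd h1 with h3 | h3
              · rcases hp'.dvd_or_dvd h3 with h6 | h6
                · exact absurd h6 h4
                · exact absurd h6 hnd
              · exact h3
            have hff : f = f' := ext3 f f' e0 e1 e4
            subst hff
            have hG : ∀ v : Fin 3 → ℤ, (p : ℤ) ∣ res f v →
                (p : ℤ) ∣ 4 * f 0 ^ 2 * v 2 - 2 * f 0 * f 1 * v 1 + f 1 ^ 2 * v 0 := by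
              intro v hv
              apply hp'.dvd_of_dvd_pow (n := 2)
              have h1 : (4 * f 0 ^ 2 * v 2 - 2 * f 0 * f 1 * v 1 + f 1 ^ 2 * v 0) ^ 2 =
                  res f v * (16 * f 0 ^ 2) + disc f * (4 * f 0 ^ 2 * v 1 ^ 2 +
                    (f 1 ^ 2 + 4 * f 0 * f 2) * v 0 ^ 2 - 8 * f 0 ^ 2 * v 0 * v 2 -
                    4 * f 0 * f 1 * v 0 * v 1) := by
                rw [res, disc]; ring
              rw [h1]
              exact dvd_add (Dvd.dvd.mul_right hv _) (Dvd.dvd.mul_right hd _)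
            have e5 : g 2 = g' 2 := by
              refine eq_of_dvd (a2 2) (b2 2) ?_
              have h1 := dvd_sub (hG g hr) (hG g' hr')
              have h2 : 4 * f 0 ^ 2 * g 2 - 2 * f 0 * f 1 * g 1 + f 1 ^ 2 * g 0 -
                  (4 * f 0 ^ 2 * g' 2 - 2 * f 0 * f 1 * g' 1 + f 1 ^ 2 * g' 0) =
                  (4 * f 0 ^ 2) * (g 2 - g' 2) := by
                rw [← e2, ← e3]; ring
              rw [h2] at h1
              rcases hp'.dvd_or_dvd h1 with h3 | h3
              · rcases hp'.dvd_or_dvd h3 with h6 | h6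
                · exact absurd h6 h4
                · exact absurd (hp'.dvd_of_dvd_pow h6) hnd
              · exact h3
            rw [ext3 g g' e2 e3 e5]
    refine h.trans (le_of_eq ?_)
    rw [card_product, card_product, card_product, hI]
    ring
  have h := card_filter_add_card_filter_not (s := S) (fun q : (Fin 3 → ℤ) × (Fin 3 → ℤ) => q.1 = 0)
  omega

end Pool.Agent.H14F.DRC
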