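import Pool.Agent.H14F.Stm

/-!
# Project F6, phase 2 (helper14): definitions
-/

set_option autoImplicit false

namespace Pool.Agent.H14F

open Finset

/-- the obstruction at the prime `q` to `f(x, w) = t u²`, `g(x, w) = t v²`, modulo `q²` -/
def ObsF (f g : Fin 3 → ℤ) (t : ℤ) (q : ℕ) : Prop :=
  ∀ x w u v : ℤ, (q : ℤ) ^ 2 ∣ ev f x w - t * u ^ 2 → (q : ℤ) ^ 2 ∣ ev g x w - t * v ^ 2 →
    (q : ℤ) ∣ x ∧ (q : ℤ) ∣ w

/-- the certificate -/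
def Cert (f g : Fin 3 → ℤ) : Prop :=
  res f g ≠ 0 ∧ ∀ t : ℤ, t ∣ res f g → Squarefree t → ∃ q : ℕ, q.Prime ∧ ObsF f g t q

/-- a common zero modulo `p` in the projective line -/
def CZ (p : ℕ) (f g : Fin 3 → ℤ) : Prop :=
  ∃ x w : ℤ, ¬ ((p : ℤ) ∣ x ∧ (p : ℤ) ∣ w) ∧ (p : ℤ) ∣ ev f x w ∧ (p : ℤ) ∣ ev g x w

/-- no bad character at `p` -/
def NB (p : ℕ) (t : ℤ) (f g : Fin 3 → ℤ) : Prop :=
  ¬ Bad p (jacobiSym t p) f g ∧ ¬ Bad p (jacobiSym t p) g f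

/-- `t` passes all the tests -/
structure Ps (t : ℤ) (f g : Fin 3 → ℤ) : Prop where
  sqf : Squarefree t
  cz : ∀ p : ℕ, p.Prime → (p : ℤ) ∣ t → CZ p f g
  nb : ∀ p : ℕ, p.Prime → 3 ≤ p → NB p t f g

/-- the lattice of the forms with `f(1, ρ) ≡ 0` modulo `δ` and `f(0, 1) ≡ 0` modulo `δ'` -/
def Lat (δ δ' ρ : ℕ) (f : Fin 3 → ℤ) : Prop :=
  (δ : ℤ) ∣ f 0 + f 1 * ρ + f 2 * (ρ : ℤ) ^ 2 ∧ (δ' : ℤ) ∣ f 2

/-- a reduced basis of the lattice -/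
structure Rd (C δ δ' ρ : ℕ) (e : Fin 3 → Fin 3 → ℤ) : Prop where
  lat : ∀ f, Lat δ δ' ρ f ↔ ∃ x, f = lin e x
  det : (Matrix.of e).det.natAbs = δ * δ'
  le₁ : nrm (e 0) ≤ nrm (e 1)
  le₂ : nrm (e 1) ≤ nrm (e 2)
  prod : nrm (e 0) * nrm (e 1) * nrm (e 2) ≤ C * (δ * δ')
  coord : ∀ x i, (x i).natAbs * nrm (e i) ≤ C * nrm (lin e x)

/-- the condition of `SKEW` -/
def Sk (K H Z : ℕ) (f g : Fin 3 → ℤ) : Prop :=
  ∃ (n : Fin 3 → ℤ) (D : ℕ), 1 ≤ D ∧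
    (∀ p : ℕ, p.Prime → ¬ ∀ i, (p : ℤ) ∣ n i) ∧ (D : ℤ) ∣ n 1 ^ 2 - n 0 * n 2 ∧
    (D : ℤ) ∣ dot n f ∧ (D : ℤ) ∣ dot n g ∧ (dot n f).natAbs ≤ K * Z * D ∧
    (dot n g).natAbs ≤ K * Z * D ∧ H * nrm n ≤ K * Z * D ∧ nrm n ≤ K * H * Z

/-- the sieving limit `exp (log H / (2000 log log H))` -/
noncomputable def zf (H : ℕ) : ℕ := ⌊Real.exp (Real.log H / (2000 * Real.log (Real.log H)))⌋₊

/-- `H ^ (1/10)` -/
noncomputable def Zf (H : ℕ) : ℕ := ⌊(H : ℝ) ^ ((1 : ℝ) / 10)⌋₊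

/-- the bound for the number of the prime factors -/
noncomputable def Af (H : ℕ) : ℕ := ⌈(36 : ℝ) / 25 * Real.log (Real.log H)⌉₊

/-- `b p` -/
noncomputable def bp (p : ℕ) : ℝ := 32 / 25 / (p : ℝ) - 7 / (p : ℝ) ^ 2

open Classical in
/-- the weighted number of the pairs in a lattice -/
noncomputable def LS (H z δ δ' ρ : ℕ) (t : ℤ) : ℝ :=
  ∑ f ∈ (box H).filter (Lat δ δ' ρ), ∑ g ∈ (box H).filter (Lat δ δ' ρ),
    ∏ p ∈ (P z).filter (fun p => ¬ p ∣ δ * δ'), wt (18 / 25) p (jacobiSym t p) f g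

/-- the pairs in the box with nonzero resultant and no certificate -/
noncomputable def NC (H : ℕ) : Finset ((Fin 3 → ℤ) × (Fin 3 → ℤ)) := by
  classical exact (box H ×ˢ box H).filter fun q => res q.1 q.2 ≠ 0 ∧ ¬ Cert q.1 q.2

/-- the pairs in the box with nonzero resultant and the condition of `SKEW` -/
noncomputable def SkS (K H Z : ℕ) : Finset ((Fin 3 → ℤ) × (Fin 3 → ℤ)) := by
  classical exact (box H ×ˢ box H).filter fun q => res q.1 q.2 ≠ 0 ∧ Sk K H Z q.1 q.2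

/-- the pairs in the box for which many primes divide the resultant -/
noncomputable def OmS (H z A : ℕ) : Finset ((Fin 3 → ℤ) × (Fin 3 → ℤ)) := by
  classical exact (box H ×ˢ box H).filter fun q =>
    A ≤ ((P z).filter fun p => ((p : ℕ) : ℤ) ∣ res q.1 q.2).card

/-- a common basis: the chosen reduced basis of the lattice, if there is one -/
noncomputable def eb (C δ δ' ρ : ℕ) : Fin 3 → Fin 3 → ℤ := by
  classical exact if h : ∃ e, Rd C δ δ' ρ e then h.choose else 0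

open Polynomial in
/-- the factors `f(F)` and `g(F)` -/
noncomputable def facF (F : ℤ[X]) (f g : Fin 3 → ℤ) : Fin 2 → ℤ[X] :=
  ![C (f 0) * F ^ 2 + C (f 1) * F + C (f 2), C (g 0) * F ^ 2 + C (g 1) * F + C (g 2)]

end Pool.Agent.H14F
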