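import Mathlib

/-!
# Project F6: pairs of binary quadratic forms, definitions

`f : Fin 3 → ℤ` is the form `f 0 x² + f 1 x y + f 2 y²`.
-/

set_option autoImplicit false

namespace Pool.Agent.H14F

open Finset

/-- the value `f(x, y)` -/
def ev {R : Type} [CommRing R] (f : Fin 3 → ℤ) (x y : R) : R :=
  (f 0 : R) * x ^ 2 + (f 1 : R) * x * y + (f 2 : R) * y ^ 2

/-- the discriminant -/
def disc (f : Fin 3 → ℤ) : ℤ := f 1 ^ 2 - 4 * f 0 * f 2

/-- the resultant -/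
def res (f g : Fin 3 → ℤ) : ℤ :=
  (f 0 * g 2 - g 0 * f 2) ^ 2 - (f 0 * g 1 - g 0 * f 1) * (f 1 * g 2 - g 1 * f 2)

/-- the genus character of `f` at a prime `p` which divides `disc f` and not `f` -/
def gen (p : ℕ) (f : Fin 3 → ℤ) : ℤ :=
  if (p : ℤ) ∣ f 0 then jacobiSym (f 2) p else jacobiSym (f 0) p

/-- `p` divides `disc f` exactly once, does not divide `res f g`, and the genus character is not `s` -/
def Bad (p : ℕ) (s : ℤ) (f g : Fin 3 → ℤ) : Prop :=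
  (p : ℤ) ∣ disc f ∧ ¬ (p : ℤ) ^ 2 ∣ disc f ∧ ¬ (p : ℤ) ∣ res f g ∧ gen p f ≠ s

open Classical in
/-- the local weight at `p` -/
noncomputable def wt (y : ℝ) (p : ℕ) (s : ℤ) (f g : Fin 3 → ℤ) : ℝ :=
  if Bad p s f g ∨ Bad p s g f then 0 else if (p : ℤ) ∣ res f g then y else 1

/-- the box `|f i| ≤ N i` -/
noncomputable def rbox (N : Fin 3 → ℕ) : Finset (Fin 3 → ℤ) :=
  Fintype.piFinset fun i => Icc (-(N i : ℤ)) (N i)

/-- the box `|f i| ≤ H` -/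
noncomputable def box (H : ℕ) : Finset (Fin 3 → ℤ) := rbox fun _ => H

/-- representatives of the residue classes modulo `m` -/
noncomputable def cls (m : ℕ) : Finset (Fin 3 → ℤ) := Fintype.piFinset fun _ => Ico (0 : ℤ) m

/-- the mean value over the residue classes modulo `m` -/
noncomputable def mean (m : ℕ) (u : (Fin 3 → ℤ) → (Fin 3 → ℤ) → ℝ) : ℝ :=
  (∑ f ∈ cls m, ∑ g ∈ cls m, u f g) / (m : ℝ) ^ 6

/-- `u` has the period `m` in all the variables -/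
def Per (m : ℕ) (u : (Fin 3 → ℤ) → (Fin 3 → ℤ) → ℝ) : Prop :=
  ∀ f f' g g' : Fin 3 → ℤ, (∀ i, (m : ℤ) ∣ f i - f' i) → (∀ i, (m : ℤ) ∣ g i - g' i) →
    u f g = u f' g'

/-- the maximum norm -/
def nrm (f : Fin 3 → ℤ) : ℕ := univ.sup fun i => (f i).natAbs

/-- the linear combination `∑ x i • e i` -/
def lin (e : Fin 3 → Fin 3 → ℤ) (x : Fin 3 → ℤ) : Fin 3 → ℤ := fun j => ∑ i, x i * e i j

/-- the primes `23 < p ≤ z` -/
noncomputable def P (z : ℕ) : Finset ℕ := (Icc 24 z).filter Nat.Prime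

/-- the scalar product -/
def dot (n f : Fin 3 → ℤ) : ℤ := n 0 * f 0 + n 1 * f 1 + n 2 * f 2

/-- the product of the forms is zero or a constant times a square modulo `p` -/
def Red (p : ℕ) (f g : Fin 3 → ℤ) : Prop :=
  ((p : ℤ) ∣ f 0 * g 1 - f 1 * g 0 ∧ (p : ℤ) ∣ f 0 * g 2 - f 2 * g 0 ∧
    (p : ℤ) ∣ f 1 * g 2 - f 2 * g 1) ∨ ((p : ℤ) ∣ disc f ∧ (p : ℤ) ∣ disc g)

/-- the curve `y² = f(x, w) g(x, w)` has a point over `K` -/
def Sol (f g : Fin 3 → ℤ) (K : Type) [Field K] : Prop :=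
  ∃ x w y : K, (x ≠ 0 ∨ w ≠ 0) ∧ y ^ 2 = ev f x w * ev g x w

end Pool.Agent.H14F
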