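import Pool.Agent.H14F.Stm

/-!
# Project F6: stub E1C
-/

set_option autoImplicit false

namespace Pool.Agent.H14F.E1C

open Finset Pool.Agent.H14F

theorem card_char (p : ℕ) [Fact p.Prime] (hp : p ≠ 2) (ε : ℤ) (hε : ε = 1 ∨ ε = -1) :
    (2 * (univ.filter fun x : ZMod p => quadraticChar (ZMod p) x = ε).card : ℤ) = (p : ℤ) - 1 := by
  have h0 : ∑ x : ZMod p, quadraticChar (ZMod p) x = 0 :=
    quadraticChar_sum_zero (by rw [ZMod.ringChar_zmod_n]; exact hp)
  have h1 : ∀ x : ZMod p, quadraticChar (ZMod p) x * ε + (quadraticChar (ZMod p) x) ^ 2 =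
      if quadraticChar (ZMod p) x = ε then 2 else 0 := by
    intro x
    by_cases hx : x = 0
    · subst hx
      rcases hε with rfl | rfl <;> simp
    · rcases quadraticChar_dichotomy hx with h | h <;> rcases hε with rfl | rfl <;> rw [h] <;> norm_num
  have h2 : ∑ x : ZMod p, (quadraticChar (ZMod p) x) ^ 2 = (p : ℤ) - 1 := by
    have h3 : ∀ x : ZMod p, (quadraticChar (ZMod p) x) ^ 2 = 1 - if x = 0 then 1 else 0 := by
      intro x
      by_cases hx : x = 0
      · simp [hx]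
      · rw [if_neg hx, quadraticChar_sq_one hx, sub_zero]
    rw [sum_congr rfl fun x _ => h3 x, sum_sub_distrib]
    simp [ZMod.card]
  have h4 : ∑ x : ZMod p, (quadraticChar (ZMod p) x * ε + (quadraticChar (ZMod p) x) ^ 2) =
      (p : ℤ) - 1 := by
    rw [sum_add_distrib, ← sum_mul, h0, h2]
    ring
  rw [← h4, sum_congr rfl fun x _ => h1 x, ← sum_filter, sum_const, nsmul_eq_mul]
  ring


theorem exists_c (p : ℕ) (hp : p.Prime) (h5 : 5 ≤ p) (a b t : ℤ) (ha : ¬ (p : ℤ) ∣ a) :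
    ∃ c ∈ Ico (0 : ℤ) ((p ^ 2 : ℕ) : ℤ), (p : ℤ) ^ 2 ∣ b ^ 2 - 4 * a * c - p * t := by
  have hp' : Prime (p : ℤ) := Nat.prime_iff_prime_int.mp hp
  have h4 : ¬ (p : ℤ) ∣ 4 := by
    intro h
    have := Int.le_of_dvd (by norm_num) h
    omega
  have h1 : IsCoprime (p : ℤ) (4 * a) := by
    rw [hp'.coprime_iff_not_dvd]
    intro h
    rcases hp'.dvd_or_dvd h with h | h
    · exact h4 h
    · exact ha h
  have h2 : IsCoprime ((p : ℤ) ^ 2) (4 * a) := h1.pow_left
  obtain ⟨u, w, huw⟩ := h2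
  have hpos : (0 : ℤ) < (p : ℤ) ^ 2 := by
    have : 0 < p := hp.pos
    positivity
  refine ⟨((b ^ 2 - p * t) * w) % ((p : ℤ) ^ 2), ?_, ?_⟩
  · rw [mem_Ico]
    push_cast
    exact ⟨Int.emod_nonneg _ hpos.ne', Int.emod_lt_of_pos _ hpos⟩
  · have h3 : ((b ^ 2 - p * t) * w) % ((p : ℤ) ^ 2) =
        (b ^ 2 - p * t) * w - (p : ℤ) ^ 2 * (((b ^ 2 - p * t) * w) / ((p : ℤ) ^ 2)) := by
      have := Int.emod_add_mul_ediv ((b ^ 2 - p * t) * w) ((p : ℤ) ^ 2)
      linarith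
    rw [h3]
    refine ⟨(b ^ 2 - p * t) * u + 4 * a * (((b ^ 2 - p * t) * w) / ((p : ℤ) ^ 2)), ?_⟩
    have h4 : (b ^ 2 - p * t) * (u * (p : ℤ) ^ 2 + w * (4 * a)) = (b ^ 2 - p * t) * 1 := by
      rw [huw]
    linear_combination (-1 : ℤ) * h4

/-- residues with given Jacobi symbol -/
noncomputable def A (p : ℕ) (ε : ℤ) : Finset ℤ := (Ico (0 : ℤ) p).filter fun r => jacobiSym r p = ε

theorem card_A (p : ℕ) (hp : p.Prime) (h5 : 5 ≤ p) (ε : ℤ) (hε : ε = 1 ∨ ε = -1) :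
    (p : ℤ) - 1 ≤ 2 * ((A p ε).card : ℤ) := by
  have : Fact p.Prime := ⟨hp⟩
  rw [← card_char p (by omega) ε hε]
  have h : (univ.filter fun x : ZMod p => quadraticChar (ZMod p) x = ε).card ≤ (A p ε).card := by
    refine card_le_card_of_injOn (fun x => ((x.val : ℕ) : ℤ)) ?_ ?_
    · intro x hx
      have hx' : quadraticChar (ZMod p) x = ε := by
        simpa using hx
      have hm : ((x.val : ℕ) : ℤ) ∈ A p ε := by
        rw [A, mem_filter, mem_Ico]
        refine ⟨⟨by positivity, by exact_mod_cast ZMod.val_lt x⟩, ?_⟩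
        rw [← jacobiSym.legendreSym.to_jacobiSym]
        unfold legendreSym
        rw [← hx']
        congr 1
        push_cast
        exact ZMod.natCast_zmod_val x
      exact_mod_cast hm
    · intro x _ y _ hxy
      have h' : ((x.val : ℕ) : ℤ) = ((y.val : ℕ) : ℤ) := hxy
      exact ZMod.val_injective p (by exact_mod_cast h')
  exact_mod_cast Nat.mul_le_mul_left 2 h

open Classical in
/-- the last coefficient -/
noncomputable def cc (p : ℕ) (a b t : ℤ) : ℤ :=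
  if h : ∃ c ∈ Ico (0 : ℤ) ((p ^ 2 : ℕ) : ℤ), (p : ℤ) ^ 2 ∣ b ^ 2 - 4 * a * c - p * t then h.choose else 0

theorem cc_spec (p : ℕ) (hp : p.Prime) (h5 : 5 ≤ p) (a b t : ℤ) (ha : ¬ (p : ℤ) ∣ a) :
    cc p a b t ∈ Ico (0 : ℤ) ((p ^ 2 : ℕ) : ℤ) ∧
      (p : ℤ) ^ 2 ∣ b ^ 2 - 4 * a * cc p a b t - p * t := by
  have h := exists_c p hp h5 a b t ha
  rw [cc, dif_pos h]
  exact h.choose_spec

/-- the form with the parameters `r, k, b, t` -/
noncomputable def Φ (p : ℕ) (x : ℤ × ℤ × ℤ × ℤ) : Fin 3 → ℤ :=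
  ![x.1 + p * x.2.1, x.2.2.1, cc p (x.1 + p * x.2.1) x.2.2.1 x.2.2.2]

theorem A_ndvd {p : ℕ} (hp : p.Prime) {ε r : ℤ} (hε : ε = 1 ∨ ε = -1) (hr : r ∈ A p ε) (k : ℤ) :
    ¬ (p : ℤ) ∣ r + p * k := by
  have : Fact p.Prime := ⟨hp⟩
  intro h
  have h1 : (p : ℤ) ∣ r := (dvd_add_left (dvd_mul_right _ _)).1 h
  rw [A, mem_filter] at hr
  have h2 := hr.2
  rw [← jacobiSym.legendreSym.to_jacobiSym, (legendreSym.eq_zero_iff p r).2
    ((ZMod.intCast_zmod_eq_zero_iff_dvd r p).2 h1)] at h2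
  rcases hε with rfl | rfl <;> norm_num at h2

theorem t : E1C := by
  classical
  intro p s hp h5 hs
  have hs' : -s = 1 ∨ -s = -1 := by rcases hs with rfl | rfl <;> simp
  have hpp : (0 : ℤ) < p := by exact_mod_cast hp.pos
  have hp' : Prime (p : ℤ) := Nat.prime_iff_prime_int.mp hp
  have key : ((A p (-s)) ×ˢ (Ico (0 : ℤ) p) ×ˢ (Ico (0 : ℤ) ((p : ℤ) ^ 2)) ×ˢ (Ico (1 : ℤ) p)).card ≤
      ((cls (p ^ 2)).filter fun f => (p : ℤ) ∣ disc f ∧ ¬ (p : ℤ) ^ 2 ∣ disc f ∧ gen p f ≠ s).card := by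
    refine card_le_card_of_injOn (Φ p) ?_ ?_
    · rintro ⟨r, k, b, t⟩ hx
      have hx' : r ∈ A p (-s) ∧ k ∈ Ico (0 : ℤ) p ∧ b ∈ Ico (0 : ℤ) ((p : ℤ) ^ 2) ∧ t ∈ Ico (1 : ℤ) p := by
        simpa [mem_product] using hx
      obtain ⟨hr, hk, hb, ht⟩ := hx'
      have hnd := A_ndvd hp hs' hr k
      obtain ⟨hc1, hc2⟩ := cc_spec p hp h5 (r + p * k) b t hnd
      rw [mem_Ico] at hk hb ht
      have hr0 := (mem_filter.1 (show r ∈ (Ico (0 : ℤ) p).filter _ from hr))
      have hr1 := mem_Ico.1 hr0.1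
      have hdisc : disc (Φ p (r, k, b, t)) = b ^ 2 - 4 * (r + p * k) * cc p (r + p * k) b t := by
        simp [disc, Φ]
      suffices hm : Φ p (r, k, b, t) ∈ (cls (p ^ 2)).filter fun f =>
          (p : ℤ) ∣ disc f ∧ ¬ (p : ℤ) ^ 2 ∣ disc f ∧ gen p f ≠ s by exact_mod_cast hm
      rw [mem_filter]
      refine ⟨?_, ?_, ?_, ?_⟩
      · rw [cls, Fintype.mem_piFinset]
        intro i
        fin_cases i
        · simp only [Φ, Fin.zero_eta, Matrix.cons_val_zero, mem_Ico]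
          push_cast
          constructor
          · nlinarith
          · nlinarith
        · simp only [Φ, Fin.mk_one, Matrix.cons_val_one, Matrix.cons_val_zero, mem_Ico]
          push_cast
          exact hb
        · exact hc1
      · rw [hdisc]
        have h1 : (p : ℤ) ∣ b ^ 2 - 4 * (r + p * k) * cc p (r + p * k) b t - p * t :=
          (dvd_pow_self _ two_ne_zero).trans hc2
        exact (dvd_sub_left (dvd_mul_right _ _)).1 h1
      · rw [hdisc]
        intro h1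
        have h2 : (p : ℤ) ^ 2 ∣ p * t := by
          have := dvd_sub h1 hc2
          have e : b ^ 2 - 4 * (r + p * k) * cc p (r + p * k) b t -
            (b ^ 2 - 4 * (r + p * k) * cc p (r + p * k) b t - p * t) = p * t := by ring
          rwa [e] at this
        rw [pow_two] at h2
        have h3 : (p : ℤ) ∣ t := Int.dvd_of_mul_dvd_mul_left hpp.ne' h2
        have := Int.le_of_dvd (by linarith) h3
        linarith
      · have h0 : (Φ p (r, k, b, t)) 0 = r + p * k := by simp [Φ]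
        rw [gen, h0, if_neg hnd]
        have h1 : jacobiSym (r + p * k) p = jacobiSym r p := by
          rw [jacobiSym.mod_left (r + p * k) p, Int.add_mul_emod_self_left, ← jacobiSym.mod_left]
        rw [h1, hr0.2]
        rcases hs with rfl | rfl <;> norm_num
    · rintro ⟨r, k, b, t⟩ hx ⟨r', k', b', t'⟩ hx' hxy
      have hx1 : r ∈ A p (-s) ∧ k ∈ Ico (0 : ℤ) p ∧ b ∈ Ico (0 : ℤ) ((p : ℤ) ^ 2) ∧ t ∈ Ico (1 : ℤ) p := by
        simpa [mem_product] using hx
      have hx2 : r' ∈ A p (-s) ∧ k' ∈ Ico (0 : ℤ) p ∧ b' ∈ Ico (0 : ℤ) ((p : ℤ) ^ 2) ∧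
          t' ∈ Ico (1 : ℤ) p := by
        simpa [mem_product] using hx'
      obtain ⟨hr, hk, hb, ht⟩ := hx1
      obtain ⟨hr', hk', hb', ht'⟩ := hx2
      have h0 := congrFun hxy 0
      have h1 := congrFun hxy 1
      have h2 := congrFun hxy 2
      simp only [Φ, Matrix.cons_val_zero, Matrix.cons_val_one, Matrix.cons_val] at h0 h1 h2
      have hr0 := mem_Ico.1 (mem_filter.1 (show r ∈ (Ico (0 : ℤ) p).filter _ from hr)).1
      have hr1 := mem_Ico.1 (mem_filter.1 (show r' ∈ (Ico (0 : ℤ) p).filter _ from hr')).1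
      rw [mem_Ico] at ht ht'
      have e1 : r = r' := by
        have h3 : (r + p * k) % p = (r' + p * k') % p := by rw [h0]
        rw [Int.add_mul_emod_self_left, Int.add_mul_emod_self_left,
          Int.emod_eq_of_lt hr0.1 hr0.2, Int.emod_eq_of_lt hr1.1 hr1.2] at h3
        exact h3
      subst e1
      have e2 : k = k' := by
        have h3 : (p : ℤ) * k = p * k' := by linarith
        exact mul_left_cancel₀ hpp.ne' h3
      subst e2
      subst h1
      have c1 := (cc_spec p hp h5 (r + p * k) b t (A_ndvd hp hs' hr k)).2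
      have c2 := (cc_spec p hp h5 (r + p * k) b t' (A_ndvd hp hs' hr k)).2
      rw [← h2] at c2
      have c3 : (p : ℤ) ^ 2 ∣ p * (t' - t) := by
        have := dvd_sub c1 c2
        have e : b ^ 2 - 4 * (r + p * k) * cc p (r + p * k) b t - p * t -
          (b ^ 2 - 4 * (r + p * k) * cc p (r + p * k) b t - p * t') = p * (t' - t) := by ring
        rwa [e] at this
      rw [pow_two] at c3
      have c4 : (p : ℤ) ∣ t' - t := Int.dvd_of_mul_dvd_mul_left hpp.ne' c3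
      have c5 : t' - t = 0 := Int.eq_zero_of_abs_lt_dvd c4 (by rw [abs_lt]; constructor <;> linarith)
      have c6 : t = t' := by linarith
      rw [c6]
  have hA := card_A p hp h5 (-s) hs'
  rw [card_product, card_product, card_product, Int.card_Ico, Int.card_Ico, Int.card_Ico] at key
  have e1 : ((p : ℤ) - 0).toNat = p := by simp
  have e2 : ((p : ℤ) ^ 2 - 0).toNat = p ^ 2 := by
    rw [sub_zero]
    exact_mod_cast Int.toNat_natCast (p ^ 2)
  have e3 : ((p : ℤ) - 1).toNat = p - 1 := by omega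
  rw [e1, e2, e3] at key
  have key' : ((A p (-s)).card : ℝ) * ((p : ℝ) * ((p : ℝ) ^ 2 * ((p : ℝ) - 1))) ≤
      (((cls (p ^ 2)).filter fun f => (p : ℤ) ∣ disc f ∧ ¬ (p : ℤ) ^ 2 ∣ disc f ∧ gen p f ≠ s).card : ℝ) := by
    have := (Nat.cast_le (α := ℝ)).2 key
    rw [Nat.cast_mul, Nat.cast_mul, Nat.cast_mul, Nat.cast_pow, Nat.cast_sub (by omega : 1 ≤ p),
      Nat.cast_one] at this
    exact this
  refine le_trans ?_ key'
  have hA' : ((p : ℝ) - 1) / 2 ≤ ((A p (-s)).card : ℝ) := by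
    have : (((p : ℤ) - 1 : ℤ) : ℝ) ≤ ((2 * ((A p (-s)).card : ℤ) : ℤ) : ℝ) := by exact_mod_cast hA
    push_cast at this
    linarith
  have hp5 : (5 : ℝ) ≤ p := by exact_mod_cast h5
  have h6 : (1 / (2 * (p : ℝ)) - 1 / (p : ℝ) ^ 2) * (p : ℝ) ^ 6 = (p : ℝ) ^ 5 / 2 - (p : ℝ) ^ 4 := by
    field_simp
  rw [h6]
  have h7 : ((p : ℝ) - 1) / 2 * ((p : ℝ) * ((p : ℝ) ^ 2 * ((p : ℝ) - 1))) ≤
      ((A p (-s)).card : ℝ) * ((p : ℝ) * ((p : ℝ) ^ 2 * ((p : ℝ) - 1))) := by
    apply mul_le_mul_of_nonneg_right hA'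
    have : 0 ≤ (p : ℝ) - 1 := by linarith
    positivity
  refine le_trans ?_ h7
  have h8 : 0 ≤ (p : ℝ) ^ 3 := by positivity
  nlinarith

end Pool.Agent.H14F.E1C
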