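import Pool.Agent.H14F.Stm

/-!
# Project F6, stub LARGE (helper58)
-/

set_option autoImplicit false

namespace Pool.Agent.H14F.LARGE

open Finset

/-- the interval `[-H, H]` -/
noncomputable def I (H : ℕ) : Finset ℤ := Icc (-(H : ℤ)) H

theorem card_I (H : ℕ) : (I H).card = 2 * H + 1 := by
  rw [I, Int.card_Icc]; omega

theorem mem_I {H : ℕ} {x : ℤ} : x ∈ I H ↔ -(H : ℤ) ≤ x ∧ x ≤ H := mem_Icc

theorem mem_box {H : ℕ} {f : Fin 3 → ℤ} : f ∈ box H ↔ ∀ i, f i ∈ I H := by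
  simp only [box, rbox, Fintype.mem_piFinset, I]

theorem card_box (H : ℕ) : (box H).card = (2 * H + 1) ^ 3 := by
  have h1 : (Icc (-(H : ℤ)) H).card = 2 * H + 1 := card_I H
  simp only [box, rbox, Fintype.card_piFinset, h1, prod_const, card_univ, Fintype.card_fin]

/-- a class modulo `p` in the interval -/
theorem cls1 {Q H p : ℕ} (hp : 0 < p) (hQ : H ≤ Q * p) (S : Finset ℤ) (hS : S ⊆ I H)
    (h : ∀ x ∈ S, ∀ y ∈ S, (p : ℤ) ∣ x - y) : S.card ≤ 2 * Q + 1 := by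
  have hp' : (0 : ℤ) < p := by exact_mod_cast hp
  have hQ' : (H : ℤ) ≤ Q * p := by exact_mod_cast hQ
  have h0 : S.card ≤ (Icc (-(Q : ℤ)) Q).card := by
    refine Finset.card_le_card_of_injOn (fun y => y / (p : ℤ)) ?_ ?_
    · intro y hy
      have h1 := mem_I.mp (hS hy)
      have h2 : -(Q : ℤ) ≤ y / (p : ℤ) := by
        rw [Int.le_ediv_iff_mul_le hp']
        nlinarith
      have h3 : y / (p : ℤ) ≤ Q := by
        have : y ≤ Q * p := by linarith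
        exact Int.ediv_le_of_le_mul hp' this
      exact Finset.mem_coe.mpr (mem_Icc.mpr ⟨h2, h3⟩)
    · intro x hx y hy hxy
      have h1 : x % (p : ℤ) = y % (p : ℤ) := (Int.modEq_iff_dvd).mpr (h y hy x hx)
      have h2 : x / (p : ℤ) = y / (p : ℤ) := hxy
      rw [← Int.mul_ediv_add_emod x p, ← Int.mul_ediv_add_emod y p, h1, h2]
  refine h0.trans ?_
  rw [Int.card_Icc]
  omega

/-- a general bound by fibres -/
theorem fib {α β γ : Type} (S : Finset γ) (A : Finset α) (B : α → Finset β) (u : γ → α) (v : γ → β)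
    (h : ∀ s ∈ S, u s ∈ A ∧ v s ∈ B (u s))
    (hi : ∀ s ∈ S, ∀ t ∈ S, u s = u t → v s = v t → s = t) : S.card ≤ ∑ a ∈ A, (B a).card := by
  classical
  rw [← Finset.card_sigma]
  refine Finset.card_le_card_of_injOn (fun s => (⟨u s, v s⟩ : (_ : α) × β)) ?_ ?_
  · intro s hs
    exact Finset.mem_coe.mpr (mem_sigma.mpr (h s hs))
  · intro s hs t ht hst
    simp only [Sigma.mk.injEq, heq_eq_eq] at hst
    exact hi s hs t ht hst.1 hst.2

theorem fib_le {α β γ : Type} (S : Finset γ) (A : Finset α) (B : α → Finset β) (u : γ → α) (v : γ → β)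
    (K : ℕ) (hK : ∀ a ∈ A, (B a).card ≤ K) (h : ∀ s ∈ S, u s ∈ A ∧ v s ∈ B (u s))
    (hi : ∀ s ∈ S, ∀ t ∈ S, u s = u t → v s = v t → s = t) : S.card ≤ A.card * K := by
  refine (fib S A B u v h hi).trans ?_
  rw [← smul_eq_mul]
  exact Finset.sum_le_card_nsmul _ _ _ hK

/-- the roots of a linear congruence -/
theorem lin1 {Q H p : ℕ} (hp : p.Prime) (hQ : H ≤ Q * p) {a : ℤ} (ha : ¬ (p : ℤ) ∣ a) (c : ℤ) :
    ((I H).filter fun y => (p : ℤ) ∣ a * y - c).card ≤ 2 * Q + 1 := by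
  refine cls1 hp.pos hQ _ (filter_subset _ _) ?_
  intro x hx y hy
  have h1 := (mem_filter.mp hx).2
  have h2 := (mem_filter.mp hy).2
  have h3 : (p : ℤ) ∣ a * (x - y) := by
    have := dvd_sub h1 h2
    have e : a * x - c - (a * y - c) = a * (x - y) := by ring
    rwa [e] at this
  exact (((Nat.prime_iff_prime_int.mp hp).dvd_mul).mp h3).resolve_left ha

/-- the roots of a quadratic congruence -/
theorem sq1 {Q H p : ℕ} (hp : p.Prime) (hQ : H ≤ Q * p) (c : ℤ) :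
    ((I H).filter fun y => (p : ℤ) ∣ y ^ 2 - c).card ≤ 2 * (2 * Q + 1) := by
  classical
  rcases ((I H).filter fun y => (p : ℤ) ∣ y ^ 2 - c).eq_empty_or_nonempty with h0 | ⟨y₀, hy₀⟩
  · rw [h0]; simp
  have h1 := (mem_filter.mp hy₀).2
  have hsub : ((I H).filter fun y => (p : ℤ) ∣ y ^ 2 - c) ⊆
      ((I H).filter fun y => (p : ℤ) ∣ y - y₀) ∪ (I H).filter fun y => (p : ℤ) ∣ y + y₀ := by
    intro y hy
    obtain ⟨hy1, hy2⟩ := mem_filter.mp hy
    have h3 : (p : ℤ) ∣ (y - y₀) * (y + y₀) := by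
      have := dvd_sub hy2 h1
      have e : y ^ 2 - c - (y₀ ^ 2 - c) = (y - y₀) * (y + y₀) := by ring
      rwa [e] at this
    rcases ((Nat.prime_iff_prime_int.mp hp).dvd_mul).mp h3 with h4 | h4
    · exact mem_union_left _ (mem_filter.mpr ⟨hy1, h4⟩)
    · exact mem_union_right _ (mem_filter.mpr ⟨hy1, h4⟩)
  have hA : ((I H).filter fun y => (p : ℤ) ∣ y - y₀).card ≤ 2 * Q + 1 := by
    refine cls1 hp.pos hQ _ (filter_subset _ _) ?_
    intro x hx y hy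
    have := dvd_sub (mem_filter.mp hx).2 (mem_filter.mp hy).2
    have e : x - y₀ - (y - y₀) = x - y := by ring
    rwa [e] at this
  have hB : ((I H).filter fun y => (p : ℤ) ∣ y + y₀).card ≤ 2 * Q + 1 := by
    refine cls1 hp.pos hQ _ (filter_subset _ _) ?_
    intro x hx y hy
    have := dvd_sub (mem_filter.mp hx).2 (mem_filter.mp hy).2
    have e : x + y₀ - (y + y₀) = x - y := by ring
    rwa [e] at this
  have := (card_le_card hsub).trans (card_union_le _ _)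
  omega

/-- the square roots of an integer -/
theorem sq0 (H : ℕ) (c : ℤ) : ((I H).filter fun y => y ^ 2 = c).card ≤ 2 := by
  classical
  rcases ((I H).filter fun y => y ^ 2 = c).eq_empty_or_nonempty with h0 | ⟨y₀, hy₀⟩
  · rw [h0]; simp
  have h1 := (mem_filter.mp hy₀).2
  have hsub : ((I H).filter fun y => y ^ 2 = c) ⊆ {y₀, -y₀} := by
    intro y hy
    have h2 := (mem_filter.mp hy).2
    rcases sq_eq_sq_iff_eq_or_eq_neg.mp (h2.trans h1.symm) with h | h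
    · simp [h]
    · simp [h]
  exact (card_le_card hsub).trans (card_le_two)

/-- few prime factors -/
theorem omega_le {m : ℕ} (hm : m ≠ 0) : 2 ^ m.primeFactors.card ≤ m := by
  calc 2 ^ m.primeFactors.card ≤ ∏ p ∈ m.primeFactors, p := by
        rw [← Finset.prod_const]
        exact Finset.prod_le_prod' fun p hp => (Nat.prime_of_mem_primeFactors hp).two_le
    _ ≤ m := Nat.le_of_dvd (Nat.pos_of_ne_zero hm) (Nat.prod_primeFactors_dvd m)

theorem omega_log {m M : ℕ} (hm : m ≠ 0) (hM : m ≤ M) : m.primeFactors.card ≤ Nat.log 2 M := by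
  have h1 := (omega_le hm).trans hM
  exact Nat.le_log_of_pow_le (by norm_num) h1


/-- the primes for which all the four entries vanish -/
noncomputable def R (Q H : ℕ) (u : ℤ × ℤ × ℤ × ℤ) : Finset ℕ :=
  (Icc 1 H).filter fun p => p.Prime ∧ H ≤ Q * p ∧ (p : ℤ) ∣ u.1 ∧ (p : ℤ) ∣ u.2.1 ∧ (p : ℤ) ∣ u.2.2.1 ∧
    (p : ℤ) ∣ u.2.2.2

theorem sum_R (Q H : ℕ) : ∑ u ∈ I H ×ˢ I H ×ˢ I H ×ˢ I H, (R Q H u).card ≤ H * (2 * Q + 1) ^ 4 := by
  classical
  have h1 := Finset.sum_card_bipartiteAbove_eq_sum_card_bipartiteBelow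
    (s := I H ×ˢ I H ×ˢ I H ×ˢ I H) (t := Icc 1 H)
    (fun (u : ℤ × ℤ × ℤ × ℤ) (p : ℕ) => p.Prime ∧ H ≤ Q * p ∧ (p : ℤ) ∣ u.1 ∧ (p : ℤ) ∣ u.2.1 ∧
      (p : ℤ) ∣ u.2.2.1 ∧ (p : ℤ) ∣ u.2.2.2)
  have h2 : ∑ u ∈ I H ×ˢ I H ×ˢ I H ×ˢ I H, (R Q H u).card =
      ∑ u ∈ I H ×ˢ I H ×ˢ I H ×ˢ I H, (Finset.bipartiteAbove
        (fun (u : ℤ × ℤ × ℤ × ℤ) (p : ℕ) => p.Prime ∧ H ≤ Q * p ∧ (p : ℤ) ∣ u.1 ∧ (p : ℤ) ∣ u.2.1 ∧
      (p : ℤ) ∣ u.2.2.1 ∧ (p : ℤ) ∣ u.2.2.2) (Icc 1 H) u).card := rfl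
  rw [h2, h1]
  have h3 : ∀ p ∈ Icc 1 H, (Finset.bipartiteBelow
        (fun (u : ℤ × ℤ × ℤ × ℤ) (p : ℕ) => p.Prime ∧ H ≤ Q * p ∧ (p : ℤ) ∣ u.1 ∧ (p : ℤ) ∣ u.2.1 ∧
      (p : ℤ) ∣ u.2.2.1 ∧ (p : ℤ) ∣ u.2.2.2) (I H ×ˢ I H ×ˢ I H ×ˢ I H) p).card ≤ (2 * Q + 1) ^ 4 := by
    intro p _
    by_cases hp : p.Prime ∧ H ≤ Q * p
    · have hZ : ((I H).filter fun y => (p : ℤ) ∣ y).card ≤ 2 * Q + 1 := by
        refine cls1 hp.1.pos hp.2 _ (filter_subset _ _) ?_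
        intro x hx y hy
        exact dvd_sub (mem_filter.mp hx).2 (mem_filter.mp hy).2
      set Z := (I H).filter fun y => (p : ℤ) ∣ y with hZd
      have hsub : (Finset.bipartiteBelow
        (fun (u : ℤ × ℤ × ℤ × ℤ) (p : ℕ) => p.Prime ∧ H ≤ Q * p ∧ (p : ℤ) ∣ u.1 ∧ (p : ℤ) ∣ u.2.1 ∧
      (p : ℤ) ∣ u.2.2.1 ∧ (p : ℤ) ∣ u.2.2.2) (I H ×ˢ I H ×ˢ I H ×ˢ I H) p) ⊆ Z ×ˢ Z ×ˢ Z ×ˢ Z := by
        intro u hu
        simp only [Finset.bipartiteBelow, mem_filter, mem_product] at hu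
        obtain ⟨⟨h4, h5, h6, h7⟩, _, _, h8, h9, h10, h11⟩ := hu
        simp only [mem_product, hZd, mem_filter]
        exact ⟨⟨h4, h8⟩, ⟨h5, h9⟩, ⟨h6, h10⟩, ⟨h7, h11⟩⟩
      refine (card_le_card hsub).trans ?_
      simp only [card_product]
      calc Z.card * (Z.card * (Z.card * Z.card)) = Z.card ^ 4 := by ring
        _ ≤ (2 * Q + 1) ^ 4 := Nat.pow_le_pow_left hZ 4
    · have h0 : (Finset.bipartiteBelow
        (fun (u : ℤ × ℤ × ℤ × ℤ) (p : ℕ) => p.Prime ∧ H ≤ Q * p ∧ (p : ℤ) ∣ u.1 ∧ (p : ℤ) ∣ u.2.1 ∧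
      (p : ℤ) ∣ u.2.2.1 ∧ (p : ℤ) ∣ u.2.2.2) (I H ×ˢ I H ×ˢ I H ×ˢ I H) p) = ∅ := by
        refine Finset.filter_false_of_mem ?_
        intro u _ h
        exact hp ⟨h.1, h.2.1⟩
      rw [h0]; simp
  calc _ ≤ (Icc 1 H).card • (2 * Q + 1) ^ 4 := Finset.sum_le_card_nsmul _ _ _ h3
    _ = H * (2 * Q + 1) ^ 4 := by simp

/-- pairs on a line modulo `p` -/
theorem line_p {Q H p : ℕ} (hp : p.Prime) (hQ : H ≤ Q * p) (a b c d : ℤ)
    (h : ¬ ((p : ℤ) ∣ a ∧ (p : ℤ) ∣ b ∧ (p : ℤ) ∣ c ∧ (p : ℤ) ∣ d)) :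
    ((I H ×ˢ I H).filter fun q : ℤ × ℤ => (p : ℤ) ∣ a * q.2 - q.1 * c ∧ (p : ℤ) ∣ b * q.2 - q.1 * d).card ≤
      (2 * H + 1) * (2 * Q + 1) := by
  classical
  have h1 : ∀ s t : ℤ, ¬ (p : ℤ) ∣ s → ((I H ×ˢ I H).filter fun q : ℤ × ℤ => (p : ℤ) ∣ s * q.2 - q.1 * t).card ≤
      (2 * H + 1) * (2 * Q + 1) := by
    intro s t hs
    rw [← card_I H]
    refine fib_le _ (I H) (fun x => (I H).filter fun y => (p : ℤ) ∣ s * y - x * t) (fun q => q.1)
      (fun q => q.2) _ (fun x _ => lin1 hp hQ hs _) ?_ ?_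
    · intro q hq
      obtain ⟨hq1, hq2⟩ := mem_filter.mp hq
      obtain ⟨hq3, hq4⟩ := mem_product.mp hq1
      exact ⟨hq3, mem_filter.mpr ⟨hq4, hq2⟩⟩
    · intro q _ r _ h1 h2
      exact Prod.ext h1 h2
  have h2 : ∀ s t : ℤ, ¬ (p : ℤ) ∣ t → ((I H ×ˢ I H).filter fun q : ℤ × ℤ => (p : ℤ) ∣ s * q.2 - q.1 * t).card ≤
      (2 * H + 1) * (2 * Q + 1) := by
    intro s t hs
    rw [← card_I H]
    refine fib_le _ (I H) (fun y => (I H).filter fun x => (p : ℤ) ∣ t * x - s * y) (fun q => q.2)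
      (fun q => q.1) _ (fun x _ => lin1 hp hQ hs _) ?_ ?_
    · intro q hq
      obtain ⟨hq1, hq2⟩ := mem_filter.mp hq
      obtain ⟨hq3, hq4⟩ := mem_product.mp hq1
      refine ⟨hq4, mem_filter.mpr ⟨hq3, ?_⟩⟩
      have e : t * q.1 - s * q.2 = -(s * q.2 - q.1 * t) := by ring
      rw [e, dvd_neg]
      exact hq2
    · intro q _ r _ h1 h2
      exact Prod.ext h2 h1
  by_cases ha : (p : ℤ) ∣ a
  · by_cases hb : (p : ℤ) ∣ b
    · by_cases hc : (p : ℤ) ∣ c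
      · have hd : ¬ (p : ℤ) ∣ d := fun hd => h ⟨ha, hb, hc, hd⟩
        refine (card_le_card ?_).trans (h2 b d hd)
        intro q hq
        obtain ⟨hq1, hq2⟩ := mem_filter.mp hq
        exact mem_filter.mpr ⟨hq1, hq2.2⟩
      · refine (card_le_card ?_).trans (h2 a c hc)
        intro q hq
        obtain ⟨hq1, hq2⟩ := mem_filter.mp hq
        exact mem_filter.mpr ⟨hq1, hq2.1⟩
    · refine (card_le_card ?_).trans (h1 b d hb)
      intro q hq
      obtain ⟨hq1, hq2⟩ := mem_filter.mp hq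
      exact mem_filter.mpr ⟨hq1, hq2.2⟩
  · refine (card_le_card ?_).trans (h1 a c ha)
    intro q hq
    obtain ⟨hq1, hq2⟩ := mem_filter.mp hq
    exact mem_filter.mpr ⟨hq1, hq2.1⟩

/-- the bound of a determinant -/
theorem det_le {H : ℕ} {a b c d : ℤ} (ha : a ∈ I H) (hb : b ∈ I H) (hc : c ∈ I H) (hd : d ∈ I H) :
    (a * d - b * c).natAbs ≤ 5 * H ^ 2 := by
  rw [mem_I] at ha hb hc hd
  have h1 : |a| ≤ H := abs_le.mpr ha
  have h2 : |b| ≤ H := abs_le.mpr hb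
  have h3 : |c| ≤ H := abs_le.mpr hc
  have h4 : |d| ≤ H := abs_le.mpr hd
  have h5 : |a * d - b * c| ≤ 2 * (H : ℤ) ^ 2 := by
    have := abs_sub (a * d) (b * c)
    rw [abs_mul, abs_mul] at this
    have h6 : |a| * |d| ≤ (H : ℤ) * H := mul_le_mul h1 h4 (abs_nonneg _) (by positivity)
    have h7 : |b| * |c| ≤ (H : ℤ) * H := mul_le_mul h2 h3 (abs_nonneg _) (by positivity)
    nlinarith
  have h6 : ((a * d - b * c).natAbs : ℤ) ≤ 5 * (H : ℤ) ^ 2 := by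
    rw [Int.natCast_natAbs]
    nlinarith [sq_nonneg (H : ℤ)]
  exact_mod_cast h6

/-- the fibre for a quadruple with non-zero determinant -/
theorem fibC {Q H : ℕ} (a b c d : ℤ) (ha : a ∈ I H) (hb : b ∈ I H) (hc : c ∈ I H) (hd : d ∈ I H)
    (hm : a * d - b * c ≠ 0) :
    open Classical in ((I H ×ˢ I H).filter fun q : ℤ × ℤ => ∃ p : ℕ, p.Prime ∧ H ≤ Q * p ∧
      (p : ℤ) ∣ a * d - b * c ∧ (p : ℤ) ∣ a * q.2 - q.1 * c ∧ (p : ℤ) ∣ b * q.2 - q.1 * d).card ≤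
    Nat.log 2 (5 * H ^ 2) * ((2 * H + 1) * (2 * Q + 1)) + (2 * H + 1) ^ 2 * (R Q H (a, b, c, d)).card := by
  classical
  set W := (a * d - b * c).natAbs.primeFactors with hW
  have hm' : (a * d - b * c).natAbs ≠ 0 := Int.natAbs_ne_zero.mpr hm
  have hWc : W.card ≤ Nat.log 2 (5 * H ^ 2) := omega_log hm' (det_le ha hb hc hd)
  set F : ℕ → Finset (ℤ × ℤ) := fun p => (I H ×ˢ I H).filter fun q : ℤ × ℤ =>
    (p : ℤ) ∣ a * q.2 - q.1 * c ∧ (p : ℤ) ∣ b * q.2 - q.1 * d with hF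
  have hsub : ((I H ×ˢ I H).filter fun q : ℤ × ℤ => ∃ p : ℕ, p.Prime ∧ H ≤ Q * p ∧
      (p : ℤ) ∣ a * d - b * c ∧ (p : ℤ) ∣ a * q.2 - q.1 * c ∧ (p : ℤ) ∣ b * q.2 - q.1 * d) ⊆
      ((W.filter fun p => H ≤ Q * p ∧ ¬ ((p : ℤ) ∣ a ∧ (p : ℤ) ∣ b ∧ (p : ℤ) ∣ c ∧ (p : ℤ) ∣ d)).biUnion F) ∪
      (R Q H (a, b, c, d)).biUnion fun _ => I H ×ˢ I H := by
    intro q hq
    obtain ⟨hq1, p, hp, h1, h2, h3, h4⟩ := mem_filter.mp hq
    have hpW : p ∈ W := by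
      rw [hW, Nat.mem_primeFactors]
      exact ⟨hp, Int.natCast_dvd.mp h2, hm'⟩
    by_cases h5 : (p : ℤ) ∣ a ∧ (p : ℤ) ∣ b ∧ (p : ℤ) ∣ c ∧ (p : ℤ) ∣ d
    · apply mem_union_right
      rw [mem_biUnion]
      refine ⟨p, ?_, hq1⟩
      rw [R, mem_filter, mem_Icc]
      refine ⟨⟨hp.one_le, ?_⟩, hp, h1, h5⟩
      have h6 : ∀ x : ℤ, x ∈ I H → (p : ℤ) ∣ x → x ≠ 0 → p ≤ H := by
        intro x hx hpx hx0
        have h7 := Int.le_of_dvd (abs_pos.mpr hx0) ((dvd_abs _ _).mpr hpx)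
        have h8 : |x| ≤ H := abs_le.mpr (mem_I.mp hx)
        exact_mod_cast h7.trans h8
      by_cases ha0 : a = 0
      · by_cases hb0 : b = 0
        · exact absurd (by rw [ha0, hb0]; ring) hm
        · exact h6 b hb h5.2.1 hb0
      · exact h6 a ha h5.1 ha0
    · apply mem_union_left
      rw [mem_biUnion]
      exact ⟨p, mem_filter.mpr ⟨hpW, h1, h5⟩, mem_filter.mpr ⟨hq1, h3, h4⟩⟩
  refine (card_le_card hsub).trans ((card_union_le _ _).trans (Nat.add_le_add ?_ ?_))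
  · refine (card_biUnion_le).trans ?_
    refine (Finset.sum_le_card_nsmul _ _ ((2 * H + 1) * (2 * Q + 1)) ?_).trans ?_
    · intro p hp
      obtain ⟨hp1, hp2, hp3⟩ := mem_filter.mp hp
      exact line_p (Nat.prime_of_mem_primeFactors hp1) hp2 a b c d hp3
    · rw [smul_eq_mul]
      exact Nat.mul_le_mul_right _ ((card_le_card (filter_subset _ _)).trans hWc)
  · refine (card_biUnion_le).trans ?_
    rw [Finset.sum_const, smul_eq_mul, card_product, card_I]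
    exact le_of_eq (by ring)


/-- pairs with a non-zero minor and rank one modulo a large prime -/
theorem caseC (Q H : ℕ) (i j k : Fin 3) (hijk : ∀ l : Fin 3, l = i ∨ l = j ∨ l = k) :
    open Classical in ((box H ×ˢ box H).filter fun q : (Fin 3 → ℤ) × (Fin 3 → ℤ) =>
      q.1 i * q.2 j - q.1 j * q.2 i ≠ 0 ∧ ∃ p : ℕ, p.Prime ∧ H ≤ Q * p ∧
      (p : ℤ) ∣ q.1 i * q.2 j - q.1 j * q.2 i ∧ (p : ℤ) ∣ q.1 i * q.2 k - q.1 k * q.2 i ∧
      (p : ℤ) ∣ q.1 j * q.2 k - q.1 k * q.2 j).card ≤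
    (2 * H + 1) ^ 4 * (Nat.log 2 (5 * H ^ 2) * ((2 * H + 1) * (2 * Q + 1))) +
      (2 * H + 1) ^ 2 * (H * (2 * Q + 1) ^ 4) := by
  classical
  set S := (box H ×ˢ box H).filter fun q : (Fin 3 → ℤ) × (Fin 3 → ℤ) =>
      q.1 i * q.2 j - q.1 j * q.2 i ≠ 0 ∧ ∃ p : ℕ, p.Prime ∧ H ≤ Q * p ∧
      (p : ℤ) ∣ q.1 i * q.2 j - q.1 j * q.2 i ∧ (p : ℤ) ∣ q.1 i * q.2 k - q.1 k * q.2 i ∧
      (p : ℤ) ∣ q.1 j * q.2 k - q.1 k * q.2 j with hS
  set B : ℤ × ℤ × ℤ × ℤ → Finset (ℤ × ℤ) := fun u =>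
    if u.1 * u.2.2.2 - u.2.1 * u.2.2.1 ≠ 0 then
      (I H ×ˢ I H).filter fun q : ℤ × ℤ => ∃ p : ℕ, p.Prime ∧ H ≤ Q * p ∧
      (p : ℤ) ∣ u.1 * u.2.2.2 - u.2.1 * u.2.2.1 ∧ (p : ℤ) ∣ u.1 * q.2 - q.1 * u.2.2.1 ∧
      (p : ℤ) ∣ u.2.1 * q.2 - q.1 * u.2.2.2 else ∅ with hB
  have h1 : S.card ≤ ∑ u ∈ I H ×ˢ I H ×ˢ I H ×ˢ I H, (B u).card := by
    refine fib S _ B (fun q => (q.1 i, q.1 j, q.2 i, q.2 j)) (fun q => (q.1 k, q.2 k)) ?_ ?_
    · intro q hq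
      obtain ⟨hq1, hq2, p, hp, h3, h4, h5, h6⟩ := mem_filter.mp hq
      obtain ⟨hf, hg⟩ := mem_product.mp hq1
      rw [mem_box] at hf hg
      refine ⟨?_, ?_⟩
      · simp only [mem_product]
        exact ⟨hf i, hf j, hg i, hg j⟩
      · simp only [hB]
        rw [if_pos hq2]
        exact mem_filter.mpr ⟨mem_product.mpr ⟨hf k, hg k⟩, p, hp, h3, h4, h5, h6⟩
    · intro q _ r _ h2 h3
      simp only [Prod.mk.injEq] at h2 h3
      obtain ⟨e1, e2, e3, e4⟩ := h2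
      obtain ⟨e5, e6⟩ := h3
      refine Prod.ext (funext fun l => ?_) (funext fun l => ?_)
      · rcases hijk l with h | h | h <;> subst h <;> assumption
      · rcases hijk l with h | h | h <;> subst h <;> assumption
  refine h1.trans ?_
  have h2 : ∀ u ∈ I H ×ˢ I H ×ˢ I H ×ˢ I H, (B u).card ≤
      Nat.log 2 (5 * H ^ 2) * ((2 * H + 1) * (2 * Q + 1)) + (2 * H + 1) ^ 2 * (R Q H u).card := by
    intro u hu
    obtain ⟨a, b, c, d⟩ := u
    simp only [mem_product] at hu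
    obtain ⟨ha, hb, hc, hd⟩ := hu
    by_cases hm : a * d - b * c ≠ 0
    · simp only [hB]
      rw [if_pos hm]
      exact fibC a b c d ha hb hc hd hm
    · simp only [hB]
      rw [if_neg hm]
      simp
  refine (Finset.sum_le_sum h2).trans ?_
  rw [Finset.sum_add_distrib, Finset.sum_const, smul_eq_mul, ← Finset.mul_sum]
  simp only [card_product, card_I]
  refine Nat.add_le_add (le_of_eq (by ring)) (Nat.mul_le_mul_left _ (sum_R Q H))

/-- singular forms -/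
theorem caseA (H : ℕ) : ((box H ×ˢ box H).filter fun q : (Fin 3 → ℤ) × (Fin 3 → ℤ) =>
    disc q.1 = 0).card ≤ (2 * H + 1) ^ 5 * 2 := by
  classical
  have h0 : (2 * H + 1) ^ 5 = ((I H ×ˢ I H) ×ˢ box H).card := by
    rw [card_product, card_product, card_I, card_box]; ring
  rw [h0]
  refine fib_le _ ((I H ×ˢ I H) ×ˢ box H) (fun u => (I H).filter fun y => y ^ 2 = 4 * u.1.1 * u.1.2)
    (fun q => ((q.1 0, q.1 2), q.2)) (fun q => q.1 1) _ (fun u _ => sq0 H _) ?_ ?_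
  · intro q hq
    obtain ⟨hq1, hq2⟩ := mem_filter.mp hq
    obtain ⟨hf, hg⟩ := mem_product.mp hq1
    have hf' := mem_box.mp hf
    refine ⟨?_, mem_filter.mpr ⟨hf' 1, ?_⟩⟩
    · simp only [mem_product]
      exact ⟨⟨hf' 0, hf' 2⟩, hg⟩
    · rw [disc] at hq2
      show q.1 1 ^ 2 = 4 * q.1 0 * q.1 2
      linarith
  · intro q _ r _ h2 h3
    simp only [Prod.mk.injEq] at h2
    obtain ⟨⟨e1, e2⟩, e3⟩ := h2
    refine Prod.ext (funext fun l => ?_) e3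
    fin_cases l
    · exact e1
    · exact h3
    · exact e2

/-- proportional forms with a non-zero coefficient -/
theorem caseB (H : ℕ) (i : Fin 3) : ((box H ×ˢ box H).filter fun q : (Fin 3 → ℤ) × (Fin 3 → ℤ) =>
    q.1 i ≠ 0 ∧ ∀ j, q.1 i * q.2 j = q.1 j * q.2 i).card ≤ (2 * H + 1) ^ 4 * 1 := by
  classical
  have h0 : (2 * H + 1) ^ 4 = (box H ×ˢ I H).card := by
    rw [card_product, card_I, card_box]; ring
  rw [h0]
  refine fib_le _ (box H ×ˢ I H) (fun _ => ({()} : Finset Unit))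
    (fun q => (q.1, q.2 i)) (fun _ => ()) _ (fun u _ => by simp) ?_ ?_
  · intro q hq
    obtain ⟨hq1, hq2⟩ := mem_filter.mp hq
    obtain ⟨hf, hg⟩ := mem_product.mp hq1
    have hg' := mem_box.mp hg
    exact ⟨mem_product.mpr ⟨hf, hg' i⟩, by simp⟩
  · intro q hq r hr h2 _
    simp only [Prod.mk.injEq] at h2
    obtain ⟨e1, e2⟩ := h2
    obtain ⟨_, hq0, hq2⟩ := mem_filter.mp hq
    obtain ⟨_, hr0, hr2⟩ := mem_filter.mp hr
    refine Prod.ext e1 (funext fun l => ?_)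
    have h3 := hq2 l
    have h4 := hr2 l
    rw [← e1, ← e2] at h4
    exact mul_left_cancel₀ hq0 (h3.trans h4.symm)

/-- the zero form -/
theorem caseZ (H : ℕ) : ((box H ×ˢ box H).filter fun q : (Fin 3 → ℤ) × (Fin 3 → ℤ) =>
    q.1 = 0).card ≤ (2 * H + 1) ^ 3 * 1 := by
  classical
  rw [← card_box]
  refine fib_le _ (box H) (fun _ => ({()} : Finset Unit))
    (fun q => q.2) (fun _ => ()) _ (fun u _ => by simp) ?_ ?_
  · intro q hq
    obtain ⟨hq1, hq2⟩ := mem_filter.mp hq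
    obtain ⟨hf, hg⟩ := mem_product.mp hq1
    exact ⟨hg, by simp⟩
  · intro q hq r hr h2 _
    exact Prod.ext ((mem_filter.mp hq).2.trans (mem_filter.mp hr).2.symm) h2

/-- both discriminants vanish modulo a large prime -/
theorem caseD (Q H : ℕ) :
    open Classical in ((box H ×ˢ box H).filter fun q : (Fin 3 → ℤ) × (Fin 3 → ℤ) =>
      disc q.1 ≠ 0 ∧ ∃ p : ℕ, p.Prime ∧ H ≤ Q * p ∧ (p : ℤ) ∣ disc q.1 ∧ (p : ℤ) ∣ disc q.2).card ≤
    (2 * H + 1) ^ 5 * (Nat.log 2 (5 * H ^ 2) * (2 * (2 * Q + 1))) := by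
  classical
  have h0 : (2 * H + 1) ^ 5 = (box H ×ˢ I H ×ˢ I H).card := by
    rw [card_product, card_product, card_I, card_box]; ring
  rw [h0]
  refine fib_le _ (box H ×ˢ I H ×ˢ I H) (fun u =>
      ((disc u.1).natAbs.primeFactors.filter fun p => H ≤ Q * p).biUnion fun p =>
        (I H).filter fun y => (p : ℤ) ∣ y ^ 2 - 4 * u.2.1 * u.2.2)
    (fun q => (q.1, q.2 0, q.2 2)) (fun q => q.2 1) _ ?_ ?_ ?_
  · intro u hu
    obtain ⟨f, a, b⟩ := u
    simp only [mem_product] at hu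
    have hf := mem_box.mp hu.1
    refine (card_biUnion_le).trans ?_
    refine (Finset.sum_le_card_nsmul _ _ (2 * (2 * Q + 1)) ?_).trans ?_
    · intro p hp
      obtain ⟨hp1, hp2⟩ := mem_filter.mp hp
      exact sq1 (Nat.prime_of_mem_primeFactors hp1) hp2 _
    · rw [smul_eq_mul]
      refine Nat.mul_le_mul_right _ ((card_le_card (filter_subset _ _)).trans ?_)
      by_cases hd : disc f = 0
      · simp [hd]
      · refine omega_log (Int.natAbs_ne_zero.mpr hd) ?_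
        have h1 : |f 0| ≤ H := abs_le.mpr (mem_I.mp (hf 0))
        have h2 : |f 1| ≤ H := abs_le.mpr (mem_I.mp (hf 1))
        have h3 : |f 2| ≤ H := abs_le.mpr (mem_I.mp (hf 2))
        have h4 : |disc f| ≤ 5 * (H : ℤ) ^ 2 := by
          have := abs_sub (f 1 ^ 2) (4 * f 0 * f 2)
          rw [abs_mul, abs_mul, abs_pow] at this
          have h6 : |f 0| * |f 2| ≤ (H : ℤ) * H := mul_le_mul h1 h3 (abs_nonneg _) (by positivity)
          have h7 : |f 1| ^ 2 ≤ (H : ℤ) ^ 2 := pow_le_pow_left₀ (abs_nonneg _) h2 2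
          have h8 : |(4 : ℤ)| = 4 := by norm_num
          rw [h8] at this
          rw [disc]
          nlinarith
        have h6 : ((disc f).natAbs : ℤ) ≤ 5 * (H : ℤ) ^ 2 := by
          rw [Int.natCast_natAbs]
          exact h4
        exact_mod_cast h6
  · intro q hq
    obtain ⟨hq1, hq2, p, hp, h3, h4, h5⟩ := mem_filter.mp hq
    obtain ⟨hf, hg⟩ := mem_product.mp hq1
    have hg' := mem_box.mp hg
    refine ⟨?_, ?_⟩
    · simp only [mem_product]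
      exact ⟨hf, hg' 0, hg' 2⟩
    · rw [mem_biUnion]
      refine ⟨p, mem_filter.mpr ⟨?_, h3⟩, mem_filter.mpr ⟨hg' 1, ?_⟩⟩
      · rw [Nat.mem_primeFactors]
        exact ⟨hp, Int.natCast_dvd.mp h4, Int.natAbs_ne_zero.mpr hq2⟩
      · exact h5
  · intro q _ r _ h2 h3
    simp only [Prod.mk.injEq] at h2
    obtain ⟨e1, e2, e3⟩ := h2
    refine Prod.ext e1 (funext fun l => ?_)
    fin_cases l
    · exact e2
    · exact h3
    · exact e3

theorem K0_le {H : ℕ} (hH : 3 ≤ H) : (Nat.log 2 (5 * H ^ 2) : ℝ) ≤ 6 * Real.log H := by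
  have hH' : (3 : ℝ) ≤ H := by exact_mod_cast hH
  have h1 : 2 ^ Nat.log 2 (5 * H ^ 2) ≤ 5 * H ^ 2 := Nat.pow_log_le_self 2 (by positivity)
  have h2 : (2 : ℝ) ^ Nat.log 2 (5 * H ^ 2) ≤ (H : ℝ) ^ 4 := by
    have h9 : (9 : ℝ) ≤ (H : ℝ) ^ 2 := by nlinarith
    have : (5 : ℝ) * H ^ 2 ≤ (H : ℝ) ^ 4 := by
      have e : (H : ℝ) ^ 4 = (H : ℝ) ^ 2 * (H : ℝ) ^ 2 := by ring
      rw [e]
      nlinarith
    refine le_trans ?_ this
    exact_mod_cast h1
  have h3 := Real.log_le_log (by positivity) h2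
  rw [Real.log_pow, Real.log_pow] at h3
  have h4 := Real.log_two_gt_d9
  have h5 : 0 ≤ (Nat.log 2 (5 * H ^ 2) : ℝ) := Nat.cast_nonneg _
  have h6 : 0 ≤ Real.log H := Real.log_nonneg (by linarith)
  push_cast at h3
  nlinarith

theorem t : LARGE := by
  classical
  intro Q
  refine ⟨3 ^ 5 * 1000 * ((2 * (Q : ℝ) + 1) ^ 4), ?_⟩
  intro H hH
  have hH' : (3 : ℝ) ≤ H := by exact_mod_cast hH
  set S := (box H ×ˢ box H).filter fun q : (Fin 3 → ℤ) × (Fin 3 → ℤ) =>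
    ∃ p : ℕ, p.Prime ∧ H ≤ Q * p ∧ 3 ≤ p ∧ Red p q.1 q.2 with hS
  set SA := (box H ×ˢ box H).filter fun q : (Fin 3 → ℤ) × (Fin 3 → ℤ) => disc q.1 = 0 with hSA
  set SZ := (box H ×ˢ box H).filter fun q : (Fin 3 → ℤ) × (Fin 3 → ℤ) => q.1 = 0 with hSZ
  set SB : Fin 3 → Finset ((Fin 3 → ℤ) × (Fin 3 → ℤ)) := fun i =>
    (box H ×ˢ box H).filter fun q : (Fin 3 → ℤ) × (Fin 3 → ℤ) =>
    q.1 i ≠ 0 ∧ ∀ j, q.1 i * q.2 j = q.1 j * q.2 i with hSB
  set SC : Fin 3 → Fin 3 → Fin 3 → Finset ((Fin 3 → ℤ) × (Fin 3 → ℤ)) := fun i j k =>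
    (box H ×ˢ box H).filter fun q : (Fin 3 → ℤ) × (Fin 3 → ℤ) =>
      q.1 i * q.2 j - q.1 j * q.2 i ≠ 0 ∧ ∃ p : ℕ, p.Prime ∧ H ≤ Q * p ∧
      (p : ℤ) ∣ q.1 i * q.2 j - q.1 j * q.2 i ∧ (p : ℤ) ∣ q.1 i * q.2 k - q.1 k * q.2 i ∧
      (p : ℤ) ∣ q.1 j * q.2 k - q.1 k * q.2 j with hSC
  set SD := (box H ×ˢ box H).filter fun q : (Fin 3 → ℤ) × (Fin 3 → ℤ) =>
      disc q.1 ≠ 0 ∧ ∃ p : ℕ, p.Prime ∧ H ≤ Q * p ∧ (p : ℤ) ∣ disc q.1 ∧ (p : ℤ) ∣ disc q.2 with hSD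
  have hsub : S ⊆ ((SA ∪ SZ) ∪ ((SB 0 ∪ SB 1) ∪ SB 2)) ∪ (((SC 0 1 2 ∪ SC 0 2 1) ∪ SC 1 2 0) ∪ SD) := by
    intro q hq
    obtain ⟨hq1, p, hp, h1, h2, h3⟩ := mem_filter.mp hq
    by_cases hA : disc q.1 = 0
    · exact mem_union_left _ (mem_union_left _ (mem_union_left _ (mem_filter.mpr ⟨hq1, hA⟩)))
    by_cases hZ : q.1 = 0
    · exact mem_union_left _ (mem_union_left _ (mem_union_right _ (mem_filter.mpr ⟨hq1, hZ⟩)))
    rcases h3 with ⟨m1, m2, m3⟩ | ⟨d1, d2⟩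
    · by_cases e1 : q.1 0 * q.2 1 - q.1 1 * q.2 0 = 0
      · by_cases e2 : q.1 0 * q.2 2 - q.1 2 * q.2 0 = 0
        · by_cases e3 : q.1 1 * q.2 2 - q.1 2 * q.2 1 = 0
          · -- proportional
            apply mem_union_left
            apply mem_union_right
            by_cases f0 : q.1 0 = 0
            · by_cases f1 : q.1 1 = 0
              · by_cases f2 : q.1 2 = 0
                · exfalso
                  apply hZ
                  funext l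
                  fin_cases l
                  · exact f0
                  · exact f1
                  · exact f2
                · apply mem_union_right
                  refine mem_filter.mpr ⟨hq1, f2, fun j => ?_⟩
                  fin_cases j
                  · show q.1 2 * q.2 0 = q.1 0 * q.2 2
                    linarith
                  · show q.1 2 * q.2 1 = q.1 1 * q.2 2
                    linarith
                  · rfl
              · apply mem_union_left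
                apply mem_union_right
                refine mem_filter.mpr ⟨hq1, f1, fun j => ?_⟩
                fin_cases j
                · show q.1 1 * q.2 0 = q.1 0 * q.2 1
                  linarith
                · rfl
                · show q.1 1 * q.2 2 = q.1 2 * q.2 1
                  linarith
            · apply mem_union_left
              apply mem_union_left
              refine mem_filter.mpr ⟨hq1, f0, fun j => ?_⟩
              fin_cases j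
              · rfl
              · show q.1 0 * q.2 1 = q.1 1 * q.2 0
                linarith
              · show q.1 0 * q.2 2 = q.1 2 * q.2 0
                linarith
          · apply mem_union_right
            apply mem_union_left
            apply mem_union_right
            refine mem_filter.mpr ⟨hq1, e3, p, hp, h1, m3, ?_, ?_⟩
            · have e : q.1 1 * q.2 0 - q.1 0 * q.2 1 = -(q.1 0 * q.2 1 - q.1 1 * q.2 0) := by ring
              rw [e, dvd_neg]; exact m1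
            · have e : q.1 2 * q.2 0 - q.1 0 * q.2 2 = -(q.1 0 * q.2 2 - q.1 2 * q.2 0) := by ring
              rw [e, dvd_neg]; exact m2
        · apply mem_union_right
          apply mem_union_left
          apply mem_union_left
          apply mem_union_right
          refine mem_filter.mpr ⟨hq1, e2, p, hp, h1, m2, m1, ?_⟩
          have e : q.1 2 * q.2 1 - q.1 1 * q.2 2 = -(q.1 1 * q.2 2 - q.1 2 * q.2 1) := by ring
          rw [e, dvd_neg]; exact m3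
      · apply mem_union_right
        apply mem_union_left
        apply mem_union_left
        apply mem_union_left
        exact mem_filter.mpr ⟨hq1, e1, p, hp, h1, m1, m2, m3⟩
    · apply mem_union_right
      apply mem_union_right
      exact mem_filter.mpr ⟨hq1, hA, p, hp, h1, d1, d2⟩
  have b1 : SA.card ≤ (2 * H + 1) ^ 5 * 2 := caseA H
  have b2 : SZ.card ≤ (2 * H + 1) ^ 3 * 1 := caseZ H
  have b3 : ∀ i, (SB i).card ≤ (2 * H + 1) ^ 4 * 1 := fun i => caseB H i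
  have b4 : ∀ i j k : Fin 3, (∀ l : Fin 3, l = i ∨ l = j ∨ l = k) → (SC i j k).card ≤ _ :=
    fun i j k h => caseC Q H i j k h
  have b5 : SD.card ≤ _ := caseD Q H
  have c1 := b4 0 1 2 (by decide)
  have c2 := b4 0 2 1 (by decide)
  have c3 := b4 1 2 0 (by decide)
  have hcard : S.card ≤ ((2 * H + 1) ^ 5 * 2 + (2 * H + 1) ^ 3 * 1 + 3 * ((2 * H + 1) ^ 4 * 1)) +
      (3 * ((2 * H + 1) ^ 4 * (Nat.log 2 (5 * H ^ 2) * ((2 * H + 1) * (2 * Q + 1))) +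
      (2 * H + 1) ^ 2 * (H * (2 * Q + 1) ^ 4)) +
      (2 * H + 1) ^ 5 * (Nat.log 2 (5 * H ^ 2) * (2 * (2 * Q + 1)))) := by
    refine (card_le_card hsub).trans ?_
    have u1 := card_union_le ((SA ∪ SZ) ∪ ((SB 0 ∪ SB 1) ∪ SB 2)) (((SC 0 1 2 ∪ SC 0 2 1) ∪ SC 1 2 0) ∪ SD)
    have u2 := card_union_le (SA ∪ SZ) ((SB 0 ∪ SB 1) ∪ SB 2)
    have u3 := card_union_le SA SZ
    have u4 := card_union_le (SB 0 ∪ SB 1) (SB 2)
    have u5 := card_union_le (SB 0) (SB 1)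
    have u6 := card_union_le ((SC 0 1 2 ∪ SC 0 2 1) ∪ SC 1 2 0) SD
    have u7 := card_union_le (SC 0 1 2 ∪ SC 0 2 1) (SC 1 2 0)
    have u8 := card_union_le (SC 0 1 2) (SC 0 2 1)
    have v0 := b3 0
    have v1 := b3 1
    have v2 := b3 2
    omega
  have hreal : (S.card : ℝ) ≤ ((2 * (H : ℝ) + 1) ^ 5 * 2 + (2 * (H : ℝ) + 1) ^ 3 * 1 + 3 * ((2 * (H : ℝ) + 1) ^ 4 * 1)) +
      (3 * ((2 * (H : ℝ) + 1) ^ 4 * ((Nat.log 2 (5 * H ^ 2) : ℝ) * ((2 * (H : ℝ) + 1) * (2 * (Q : ℝ) + 1))) +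
      (2 * (H : ℝ) + 1) ^ 2 * ((H : ℝ) * (2 * (Q : ℝ) + 1) ^ 4)) +
      (2 * (H : ℝ) + 1) ^ 5 * ((Nat.log 2 (5 * H ^ 2) : ℝ) * (2 * (2 * (Q : ℝ) + 1)))) := by
    exact_mod_cast hcard
  have hL : 2 * (H : ℝ) + 1 ≤ 3 * H := by linarith
  have hlog : 1 ≤ Real.log H := by
    rw [Real.le_log_iff_exp_le (by linarith)]
    have := Real.exp_one_lt_d9
    linarith
  have hK := K0_le hH
  set K : ℝ := (Nat.log 2 (5 * H ^ 2) : ℝ) with hKd
  set L : ℝ := 2 * (H : ℝ) + 1 with hLd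
  set q : ℝ := 2 * (Q : ℝ) + 1 with hqd
  have hq1 : 1 ≤ q := by
    have : (0 : ℝ) ≤ Q := Nat.cast_nonneg _
    linarith
  have hK0 : 0 ≤ K := Nat.cast_nonneg _
  have hL1 : 1 ≤ L := by linarith
  have hq4 : q ≤ q ^ 4 := le_self_pow₀ hq1 (by norm_num)
  have hq41 : 1 ≤ q ^ 4 := one_le_pow₀ hq1
  -- every term is at most a constant times L^5 q^4 log H
  have t1 : L ^ 5 * 2 ≤ 2 * (L ^ 5 * q ^ 4 * Real.log H) := by
    have : L ^ 5 * 1 * 1 ≤ L ^ 5 * q ^ 4 * Real.log H := by gcongr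
    linarith
  have t2 : L ^ 3 * 1 ≤ L ^ 5 * q ^ 4 * Real.log H := by
    have h1 : L ^ 3 ≤ L ^ 5 := pow_le_pow_right₀ hL1 (by norm_num)
    have : L ^ 5 * 1 * 1 ≤ L ^ 5 * q ^ 4 * Real.log H := by gcongr
    linarith
  have t3 : L ^ 4 * 1 ≤ L ^ 5 * q ^ 4 * Real.log H := by
    have h1 : L ^ 4 ≤ L ^ 5 := pow_le_pow_right₀ hL1 (by norm_num)
    have : L ^ 5 * 1 * 1 ≤ L ^ 5 * q ^ 4 * Real.log H := by gcongr
    linarith
  have t4 : L ^ 4 * (K * (L * q)) ≤ 6 * (L ^ 5 * q ^ 4 * Real.log H) := by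
    calc L ^ 4 * (K * (L * q)) = L ^ 5 * q * K := by ring
      _ ≤ L ^ 5 * q ^ 4 * (6 * Real.log H) := by gcongr
      _ = _ := by ring
  have t5 : L ^ 2 * ((H : ℝ) * q ^ 4) ≤ L ^ 5 * q ^ 4 * Real.log H := by
    have hHL : (H : ℝ) ≤ L := by linarith
    calc L ^ 2 * ((H : ℝ) * q ^ 4) ≤ L ^ 2 * (L * q ^ 4) := by gcongr
      _ = L ^ 3 * q ^ 4 * 1 := by ring
      _ ≤ L ^ 5 * q ^ 4 * Real.log H := by
        gcongr
        norm_num
  have t6 : L ^ 5 * (K * (2 * q)) ≤ 12 * (L ^ 5 * q ^ 4 * Real.log H) := by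
    calc L ^ 5 * (K * (2 * q)) = 2 * (L ^ 5 * q * K) := by ring
      _ ≤ 2 * (L ^ 5 * q ^ 4 * (6 * Real.log H)) := by gcongr
      _ = _ := by ring
  have t7 : L ^ 5 * q ^ 4 * Real.log H ≤ (3 * (H : ℝ)) ^ 5 * q ^ 4 * Real.log H := by gcongr
  have t8 : 0 ≤ (3 * (H : ℝ)) ^ 5 * q ^ 4 * Real.log H := by positivity
  calc (S.card : ℝ) ≤ _ := hreal
    _ ≤ 1000 * ((3 * (H : ℝ)) ^ 5 * q ^ 4 * Real.log H) := by nlinarith
    _ = 3 ^ 5 * 1000 * (q ^ 4) * (H : ℝ) ^ 5 * Real.log H := by ring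

end Pool.Agent.H14F.LARGE
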