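import Pool.Agent.H14F.Stm
import Pool.Agent.H341R2.WeilSharp
import Pool.Agent.H14Q.Loc

/-!
# Stub LOCS of project F6: local solubility at the primes `p ≥ 23` where the product is not a constant times a square
-/

set_option autoImplicit false

namespace Pool.Agent.H14F.LOCS

open Polynomial Pool.Agent.H14F

section field

variable {K : Type} [Field K]

/-- the quadratic polynomial -/
noncomputable def pol (a b c : K) : K[X] := C a * X ^ 2 + C b * X + C c

theorem coeff2 (a b c : K) : (pol a b c).coeff 2 = a := by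
  simp [pol, coeff_X, coeff_C]

theorem coeff1 (a b c : K) : (pol a b c).coeff 1 = b := by
  simp [pol, coeff_X, coeff_C]

theorem coeff0 (a b c : K) : (pol a b c).coeff 0 = c := by
  simp [pol, coeff_X, coeff_C]

theorem natDegree_pol_le (a b c : K) : (pol a b c).natDegree ≤ 2 := natDegree_quadratic_le

theorem disc_of_sq {a b c k : K} {d : K[X]} (h : pol a b c = C k * d ^ 2) :
    b ^ 2 - 4 * a * c = 0 := by
  by_cases hF : pol a b c = 0
  · have ha : a = 0 := by rw [← coeff2 a b c, hF, coeff_zero]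
    have hb : b = 0 := by rw [← coeff1 a b c, hF, coeff_zero]
    rw [ha, hb]
    ring
  · have hk : k ≠ 0 := by
      rintro rfl
      exact hF (by rw [h, C_0, zero_mul])
    have hd : d ≠ 0 := by
      rintro rfl
      exact hF (by rw [h]; ring)
    have h1 : (pol a b c).natDegree = 2 * d.natDegree := by
      rw [h, natDegree_C_mul hk, natDegree_pow]
    have h2 := natDegree_pol_le a b c
    obtain ⟨α, β, rfl⟩ := exists_eq_X_add_C_of_natDegree_le_one (p := d) (by omega)
    have h3 : pol a b c = pol (k * α ^ 2) (k * (2 * α * β)) (k * β ^ 2) := by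
      rw [h]
      unfold pol
      simp only [C_mul, C_pow, map_ofNat]
      ring
    have ha : a = k * α ^ 2 := by rw [← coeff2 a b c, h3, coeff2]
    have hb : b = k * (2 * α * β) := by rw [← coeff1 a b c, h3, coeff1]
    have hc : c = k * β ^ 2 := by rw [← coeff0 a b c, h3, coeff0]
    rw [ha, hb, hc]
    ring

theorem red_of_sq {a b c a' b' c' e : K} {h : K[X]}
    (heq : pol a b c * pol a' b' c' = C e * h ^ 2) :
    (a * b' - b * a' = 0 ∧ a * c' - c * a' = 0 ∧ b * c' - c * b' = 0) ∨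
      (b ^ 2 - 4 * a * c = 0 ∧ b' ^ 2 - 4 * a' * c' = 0) := by
  classical
  obtain ⟨F, hF⟩ : ∃ F, F = pol a b c := ⟨_, rfl⟩
  obtain ⟨G, hG⟩ : ∃ G, G = pol a' b' c' := ⟨_, rfl⟩
  have ca : a = F.coeff 2 := by rw [hF, coeff2]
  have cb : b = F.coeff 1 := by rw [hF, coeff1]
  have cc : c = F.coeff 0 := by rw [hF, coeff0]
  have ca' : a' = G.coeff 2 := by rw [hG, coeff2]
  have cb' : b' = G.coeff 1 := by rw [hG, coeff1]
  have cc' : c' = G.coeff 0 := by rw [hG, coeff0]
  have dF : F.natDegree ≤ 2 := by rw [hF]; exact natDegree_pol_le _ _ _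
  have dG : G.natDegree ≤ 2 := by rw [hG]; exact natDegree_pol_le _ _ _
  rw [← hF, ← hG] at heq
  by_cases hF0 : F = 0
  · left
    rw [ca, cb, cc, hF0]
    simp
  by_cases hG0 : G = 0
  · left
    rw [ca', cb', cc', hG0]
    simp
  have he : e ≠ 0 := by
    rintro rfl
    rw [C_0, zero_mul] at heq
    rcases mul_eq_zero.1 heq with h3 | h3
    · exact hF0 h3
    · exact hG0 h3
  have hee : (C e⁻¹ : K[X]) * C e = 1 := by
    rw [← C_mul, inv_mul_cancel₀ he, C_1]
  obtain ⟨D, hD⟩ : ∃ D, D = EuclideanDomain.gcd F G := ⟨_, rfl⟩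
  obtain ⟨F1, hF1⟩ : ∃ F1, F1 = F / D := ⟨_, rfl⟩
  obtain ⟨G1, hG1⟩ : ∃ G1, G1 = G / D := ⟨_, rfl⟩
  have hcop : IsCoprime F1 G1 := by
    rw [hF1, hG1, hD]
    let _ : GCDMonoid K[X] := EuclideanDomain.gcdMonoid K[X]
    exact isCoprime_div_gcd_div_gcd (p := F) (q := G) hG0
  have hFD : F = D * F1 := by
    rw [hF1, hD]
    exact (EuclideanDomain.mul_div_cancel' (by
      intro h0
      exact hG0 ((EuclideanDomain.gcd_eq_zero_iff.1 h0).2)) (EuclideanDomain.gcd_dvd_left F G)).symm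
  have hGD : G = D * G1 := by
    rw [hG1, hD]
    exact (EuclideanDomain.mul_div_cancel' (by
      intro h0
      exact hG0 ((EuclideanDomain.gcd_eq_zero_iff.1 h0).2)) (EuclideanDomain.gcd_dvd_right F G)).symm
  have hD0 : D ≠ 0 := by
    rintro h0
    rw [h0, zero_mul] at hGD
    exact hG0 hGD
  have hF10 : F1 ≠ 0 := by
    rintro h0
    rw [h0, mul_zero] at hFD
    exact hF0 hFD
  have hG10 : G1 ≠ 0 := by
    rintro h0
    rw [h0, mul_zero] at hGD
    exact hG0 hGD
  have hdvd : D ^ 2 ∣ h ^ 2 := by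
    refine ⟨C e⁻¹ * (F1 * G1), ?_⟩
    have : C e⁻¹ * (F * G) = h ^ 2 := by
      rw [heq, ← mul_assoc, hee, one_mul]
    rw [← this, hFD, hGD]
    ring
  obtain ⟨h1, rfl⟩ := (IsIntegrallyClosed.pow_dvd_pow_iff (R := K[X]) two_ne_zero).1 hdvd
  have h3 : F1 * (G1 * C e⁻¹) = h1 ^ 2 := by
    have h4 : D ^ 2 * (F1 * (G1 * C e⁻¹)) = D ^ 2 * h1 ^ 2 := by
      have : C e⁻¹ * (F * G) = (D * h1) ^ 2 := by
        rw [heq, ← mul_assoc, hee, one_mul]
      rw [hFD, hGD] at this
      linear_combination this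
    exact mul_left_cancel₀ (pow_ne_zero 2 hD0) h4
  have hcop' : IsCoprime F1 (G1 * C e⁻¹) := by
    refine hcop.mul_right ?_
    exact ⟨0, C e, by linear_combination hee⟩
  obtain ⟨d, u, hu⟩ := exists_associated_pow_of_mul_eq_pow' hcop' h3
  obtain ⟨w, hw, hwu⟩ := Polynomial.isUnit_iff.1 u.isUnit
  rw [← hwu] at hu
  obtain ⟨d', u', hu'⟩ := exists_associated_pow_of_mul_eq_pow' hcop'.symm
    (by rw [mul_comm]; exact h3)
  obtain ⟨w', hw', hwu'⟩ := Polynomial.isUnit_iff.1 u'.isUnit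
  rw [← hwu'] at hu'
  have hFs : F1 = C w * d ^ 2 := by rw [← hu]; ring
  have hGs : G1 = C (w' * e) * d' ^ 2 := by
    have : G1 = C e * (G1 * C e⁻¹) := by linear_combination (-G1) * hee
    rw [this, ← hu', C_mul]
    ring
  have hw0 : w ≠ 0 := hw.ne_zero
  have hwe0 : w' * e ≠ 0 := mul_ne_zero hw'.ne_zero he
  by_cases hDd : D.natDegree = 0
  · right
    obtain ⟨k, hk⟩ := natDegree_eq_zero.1 hDd
    refine ⟨disc_of_sq (k := k * w) (d := d) ?_, disc_of_sq (k := k * (w' * e)) (d := d') ?_⟩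
    · rw [← hF, hFD, ← hk, hFs]
      simp only [C_mul]
      ring
    · rw [← hG, hGD, ← hk, hGs]
      simp only [C_mul]
      ring
  · left
    have e1 : F.natDegree = D.natDegree + F1.natDegree := by
      rw [hFD, natDegree_mul hD0 hF10]
    have e2 : G.natDegree = D.natDegree + G1.natDegree := by
      rw [hGD, natDegree_mul hD0 hG10]
    have e3 : F1.natDegree = 2 * d.natDegree := by
      rw [hFs, natDegree_C_mul hw0, natDegree_pow]
    have e4 : G1.natDegree = 2 * d'.natDegree := by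
      rw [hGs, natDegree_C_mul hwe0, natDegree_pow]
    obtain ⟨s, hs⟩ := natDegree_eq_zero.1 (show F1.natDegree = 0 by omega)
    obtain ⟨t, ht⟩ := natDegree_eq_zero.1 (show G1.natDegree = 0 by omega)
    rw [ca, cb, cc, ca', cb', cc', hFD, hGD, ← hs, ← ht]
    simp only [coeff_mul_C]
    refine ⟨?_, ?_, ?_⟩ <;> ring

end field

section padic

variable {p : ℕ} [hp : Fact p.Prime]

/-- a nonzero square value modulo `p` -/
theorem exists_value {a b c a' b' c' : ZMod p} (hp23 : 23 ≤ p)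
    (hr : ¬ ((a * b' - b * a' = 0 ∧ a * c' - c * a' = 0 ∧ b * c' - c * b' = 0) ∨
      (b ^ 2 - 4 * a * c = 0 ∧ b' ^ 2 - 4 * a' * c' = 0))) :
    ∃ x : ZMod p, (a * x ^ 2 + b * x + c) * (a' * x ^ 2 + b' * x + c') ≠ 0 ∧
      IsSquare ((a * x ^ 2 + b * x + c) * (a' * x ^ 2 + b' * x + c')) := by
  classical
  have hcard : Fintype.card (ZMod p) = p := ZMod.card p
  have hchar : ringChar (ZMod p) ≠ 2 := by
    rw [ZMod.ringChar_zmod_n]
    omega
  obtain ⟨f, hf⟩ : ∃ f, f = pol a b c * pol a' b' c' := ⟨_, rfl⟩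
  have hev : ∀ x, f.eval x = (a * x ^ 2 + b * x + c) * (a' * x ^ 2 + b' * x + c') := by
    intro x
    rw [hf]
    simp [pol]
  have hns : ∀ (e : ZMod p) (h : (ZMod p)[X]), f ≠ C e * h ^ 2 := by
    intro e h heq
    rw [hf] at heq
    exact hr (red_of_sq heq)
  have hfd1 : 1 ≤ f.natDegree := by
    by_contra hcon
    have h0 : f.natDegree = 0 := by omega
    rw [natDegree_eq_zero] at h0
    obtain ⟨c, hc⟩ := h0
    exact hns c 1 (by rw [← hc]; ring)
  have hf0 : f ≠ 0 := by
    intro h0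
    exact hns 0 1 (by rw [h0, C_0, zero_mul])
  have hfd : f.natDegree ≤ 4 := by
    rw [hf]
    exact natDegree_mul_le.trans (by
      have := natDegree_pol_le a b c
      have := natDegree_pol_le a' b' c'
      omega)
  by_contra hcon
  push Not at hcon
  have hW := Pool.Agent.H341R2.Sharp.weil_sharp hchar f hfd1 hns
  rw [hcard] at hW
  have hle : ∑ x : ZMod p, (quadraticChar (ZMod p) (f.eval x) : ℝ) ≤ -(p : ℝ) + 4 := by
    have h1 : ∀ x : ZMod p, (quadraticChar (ZMod p) (f.eval x) : ℝ) ≤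
        -1 + (if x ∈ f.roots.toFinset then 1 else 0) := by
      intro x
      by_cases hx : f.eval x = 0
      · rw [if_pos (by rw [Multiset.mem_toFinset, mem_roots hf0]; exact hx), hx]
        simp
      · rw [if_neg (by rw [Multiset.mem_toFinset, mem_roots hf0]; exact hx)]
        have h3 := hcon x (by rw [← hev]; exact hx)
        rw [← hev] at h3
        rw [quadraticChar_neg_one_iff_not_isSquare.2 h3]
        norm_num
    have h2 := Finset.sum_le_sum fun x (_ : x ∈ (Finset.univ : Finset (ZMod p))) => h1 x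
    rw [Finset.sum_add_distrib, Finset.sum_const, Finset.card_univ, hcard, ← Finset.sum_filter] at h2
    simp only [nsmul_eq_mul, mul_neg, mul_one, Finset.filter_univ_mem, Finset.sum_const] at h2
    have h3 : (f.roots.toFinset.card : ℝ) ≤ 4 := by
      have h4 : f.roots.toFinset.card ≤ 4 :=
        (Multiset.toFinset_card_le _).trans ((card_roots' f).trans hfd)
      exact_mod_cast h4
    linarith
  have habs := (abs_le.1 hW).1
  have hpr : (23 : ℝ) ≤ p := by exact_mod_cast hp23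
  have hs0 : 0 ≤ Real.sqrt p := Real.sqrt_nonneg _
  have hss : Real.sqrt p * Real.sqrt p = p := Real.mul_self_sqrt (Nat.cast_nonneg _)
  have hs4 : 4 < Real.sqrt p := by
    refine Real.lt_sqrt_of_sq_lt ?_
    nlinarith
  have hfr : (f.natDegree : ℝ) ≤ 4 := by exact_mod_cast hfd
  have h5 : ((f.natDegree : ℝ) - 1) * Real.sqrt p ≤ 3 * Real.sqrt p :=
    mul_le_mul_of_nonneg_right (by linarith) hs0
  nlinarith

end padic

theorem t : Pool.Agent.H14F.LOCS := by
  intro p hpp f g hp23 hred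
  have key : ∀ z : ℤ, ((z : ℤ) : ZMod p) = 0 ↔ (p : ℤ) ∣ z := fun z =>
    ZMod.intCast_zmod_eq_zero_iff_dvd z p
  obtain ⟨x, hx0, hx⟩ := exists_value (p := p) (a := (f 0 : ZMod p)) (b := (f 1 : ZMod p))
    (c := (f 2 : ZMod p)) (a' := (g 0 : ZMod p)) (b' := (g 1 : ZMod p)) (c' := (g 2 : ZMod p))
    hp23 (by
      intro h
      apply hred
      unfold Red disc
      rcases h with ⟨h1, h2, h3⟩ | ⟨h1, h2⟩
      · left
        refine ⟨(key _).1 ?_, (key _).1 ?_, (key _).1 ?_⟩
        · push_cast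
          exact h1
        · push_cast
          exact h2
        · push_cast
          exact h3
      · right
        refine ⟨(key _).1 ?_, (key _).1 ?_⟩
        · push_cast
          exact h1
        · push_cast
          exact h2)
  obtain ⟨z, rfl⟩ := ZMod.intCast_surjective x
  obtain ⟨v, hv⟩ : ∃ v : ℤ, v = (f 0 * z ^ 2 + f 1 * z + f 2) * (g 0 * z ^ 2 + g 1 * z + g 2) :=
    ⟨_, rfl⟩
  have hvm : ((v : ℤ) : ZMod p) = ((f 0 : ZMod p) * (z : ZMod p) ^ 2 + (f 1 : ZMod p) * z +
      (f 2 : ZMod p)) * ((g 0 : ZMod p) * (z : ZMod p) ^ 2 + (g 1 : ZMod p) * z + (g 2 : ZMod p)) := by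
    rw [hv]
    push_cast
    ring
  rw [← hvm] at hx0 hx
  have hpv : ¬ (p : ℤ) ∣ v := by
    rw [← key]
    exact hx0
  obtain ⟨y, hy⟩ := Pool.Agent.H14Q.isSquare_odd (by omega) hpv hx
  refine ⟨(z : ℚ_[p]), 1, y, Or.inr one_ne_zero, ?_⟩
  rw [pow_two, ← hy, hv]
  unfold ev
  push_cast
  ring

end Pool.Agent.H14F.LOCS
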