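import Pool.Agent.H14F.StmB
import Pool.Agent.H14F.LOCS
import Pool.Agent.H14F.REDC
import Pool.Agent.H14F.LARGE
import Pool.Agent.H14F.DEG

/-!
# Project F6, stub ELS (helper20)
-/

set_option autoImplicit false

namespace Pool.Agent.H14F.ELS

open Finset

/-- `8 · 3 · 5 · 7 · 11 · 13 · 17 · 19` -/
def Q : ℕ := 38798760

/-- the forms congruent to `w²` modulo `Q` -/
def T (x : Fin 3 → ℤ) : Fin 3 → ℤ := fun i => (Q : ℤ) * x i + (if i = 2 then 1 else 0)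

/-- reduction -/
def rd (p : ℕ) (x : Fin 3 → ℤ) : Fin 3 → ℤ := fun i => x i % (p : ℤ)

/-- quotient -/
def qu (p : ℕ) (x : Fin 3 → ℤ) : Fin 3 → ℤ := fun i => x i / (p : ℤ)

theorem mem_cls {m : ℕ} {x : Fin 3 → ℤ} : x ∈ cls m ↔ ∀ i, 0 ≤ x i ∧ x i < m := by
  unfold cls
  simp [Fintype.mem_piFinset]

theorem rd_mem {p : ℕ} (hp : 0 < p) (x : Fin 3 → ℤ) : rd p x ∈ cls p := by
  rw [mem_cls]
  intro i
  have : (0 : ℤ) < p := by exact_mod_cast hp
  exact ⟨Int.emod_nonneg _ this.ne', Int.emod_lt_of_pos _ this⟩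

theorem qu_mem {p N : ℕ} (hp : 0 < p) {x : Fin 3 → ℤ} (hx : x ∈ cls N) : qu p x ∈ cls (N / p + 1) := by
  rw [mem_cls] at hx ⊢
  intro i
  have hp' : (0 : ℤ) < p := by exact_mod_cast hp
  refine ⟨Int.ediv_nonneg (hx i).1 hp'.le, ?_⟩
  have h1 : x i / (p : ℤ) ≤ (N : ℤ) / p := Int.ediv_le_ediv hp' (hx i).2.le
  simp only [qu]
  push_cast
  omega

theorem red_congr {p : ℕ} {f f' g g' : Fin 3 → ℤ} (hf : ∀ i, (p : ℤ) ∣ f i - f' i)
    (hg : ∀ i, (p : ℤ) ∣ g i - g' i) (h : Red p f g) : Red p f' g' := by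
  have key : ∀ i j, (p : ℤ) ∣ f i * g j - f j * g i → (p : ℤ) ∣ f' i * g' j - f' j * g' i := by
    intro i j h
    have e : f' i * g' j - f' j * g' i = (f i * g j - f j * g i) - (f i - f' i) * g j -
        (g j - g' j) * f' i + (f j - f' j) * g i + (g i - g' i) * f' j := by ring
    rw [e]
    exact dvd_add (dvd_add (dvd_sub (dvd_sub h ((hf i).mul_right _)) ((hg j).mul_right _))
      ((hf j).mul_right _)) ((hg i).mul_right _)
  have kd : ∀ f f' : Fin 3 → ℤ, (∀ i, (p : ℤ) ∣ f i - f' i) → (p : ℤ) ∣ disc f → (p : ℤ) ∣ disc f' := by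
    intro f f' hf h
    have e : disc f' = disc f - (f 1 - f' 1) * (f 1 + f' 1) + 4 * ((f 0 - f' 0) * f 2) +
        4 * ((f 2 - f' 2) * f' 0) := by
      simp only [disc]
      ring
    rw [e]
    exact dvd_add (dvd_add (dvd_sub h ((hf 1).mul_right _)) (((hf 0).mul_right _).mul_left _))
      (((hf 2).mul_right _).mul_left _)
  rcases h with ⟨h1, h2, h3⟩ | ⟨h1, h2⟩
  · exact Or.inl ⟨key 0 1 h1, key 0 2 h2, key 1 2 h3⟩
  · exact Or.inr ⟨kd f f' hf h1, kd g g' hg h2⟩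

theorem dvd_sub_rd (p : ℕ) (x : Fin 3 → ℤ) (i : Fin 3) : (p : ℤ) ∣ x i - rd p x i :=
  Int.dvd_self_sub_emod

theorem T_inj_mod {p : ℕ} (hp : p.Prime) (hQ : ¬ p ∣ Q) {x y : Fin 3 → ℤ} (h : rd p (T x) = rd p (T y))
    (h' : qu p x = qu p y) : x = y := by
  funext i
  have h1 : (p : ℤ) ∣ T x i - T y i := by
    have a := dvd_sub_rd p (T x) i
    have b := dvd_sub_rd p (T y) i
    rw [h] at a
    have := dvd_sub a b
    have e : T x i - rd p (T y) i - (T y i - rd p (T y) i) = T x i - T y i := by ring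
    rwa [e] at this
  have h2 : (p : ℤ) ∣ (Q : ℤ) * (x i - y i) := by
    have e : T x i - T y i = (Q : ℤ) * (x i - y i) := by
      simp only [T]
      ring
    rwa [e] at h1
  have hpz : Prime (p : ℤ) := Nat.prime_iff_prime_int.1 hp
  have h3 : (p : ℤ) ∣ x i - y i := by
    refine (hpz.dvd_or_dvd h2).resolve_left ?_
    intro h
    exact hQ (by exact_mod_cast h)
  have h4 : x i / (p : ℤ) = y i / (p : ℤ) := congrFun h' i
  have h5 : x i % (p : ℤ) = y i % (p : ℤ) :=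
    Int.emod_eq_emod_iff_emod_sub_eq_zero.2 (Int.emod_eq_zero_of_dvd h3)
  rw [← Int.mul_ediv_add_emod (x i) p, ← Int.mul_ediv_add_emod (y i) p, h4, h5]

theorem T_inj {x y : Fin 3 → ℤ} (h : T x = T y) : x = y := by
  funext i
  have h1 := congrFun h i
  simp only [T] at h1
  have h2 : (Q : ℤ) * x i = Q * y i := by linarith
  exact mul_left_cancel₀ (by unfold Q; norm_num) h2

open Classical in
/-- the pairs which are reducible modulo `p` -/
theorem count_red {p N : ℕ} (hp : p.Prime) (h3 : 3 ≤ p) (hQ : ¬ p ∣ Q) :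
    ((cls N ×ˢ cls N).filter fun q : (Fin 3 → ℤ) × (Fin 3 → ℤ) => Red p (T q.1) (T q.2)).card ≤
      3 * p ^ 4 * (N / p + 1) ^ 6 := by
  have h1 := REDC.t p hp h3
  have hinj : ((cls N ×ˢ cls N).filter fun q : (Fin 3 → ℤ) × (Fin 3 → ℤ) => Red p (T q.1) (T q.2)).card ≤
      (((cls p ×ˢ cls p).filter fun q : (Fin 3 → ℤ) × (Fin 3 → ℤ) => Red p q.1 q.2) ×ˢ
        (cls (N / p + 1) ×ˢ cls (N / p + 1))).card := by
    refine Finset.card_le_card_of_injOn
      (fun q => ((rd p (T q.1), rd p (T q.2)), (qu p q.1, qu p q.2))) ?_ ?_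
    · intro q hq
      rw [Finset.mem_coe, mem_filter, mem_product] at hq
      rw [Finset.mem_coe, mem_product, mem_filter, mem_product, mem_product]
      refine ⟨⟨⟨rd_mem hp.pos _, rd_mem hp.pos _⟩, ?_⟩, qu_mem hp.pos hq.1.1, qu_mem hp.pos hq.1.2⟩
      exact red_congr (dvd_sub_rd p _) (dvd_sub_rd p _) hq.2
    · intro q _ q' _ h
      simp only [Prod.mk.injEq] at h
      obtain ⟨⟨a1, a2⟩, a3, a4⟩ := h
      exact Prod.ext (T_inj_mod hp hQ a1 a3) (T_inj_mod hp hQ a2 a4)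
  refine hinj.trans ?_
  rw [card_product, card_product, REDC.card_cls]
  calc _ ≤ 3 * p ^ 4 * ((N / p + 1) ^ 3 * (N / p + 1) ^ 3) := Nat.mul_le_mul_right _ h1
    _ = _ := by ring

theorem sum_sq_le (N : ℕ) : ∑ p ∈ (Icc 23 N).filter Nat.Prime, (1 : ℝ) / (p : ℝ) ^ 2 ≤ 1 / 22 := by
  have key : ∀ N : ℕ, 22 ≤ N → ∑ n ∈ Icc 23 N, (1 : ℝ) / (n : ℝ) ^ 2 ≤ 1 / 22 - 1 / N := by
    intro N hN
    induction N, hN using Nat.le_induction with
    | base => norm_num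
    | succ n hn ih =>
      rw [Finset.sum_Icc_succ_top (by omega)]
      have hn0 : (0 : ℝ) < n := by
        have : (22 : ℝ) ≤ n := by exact_mod_cast hn
        linarith
      have : (1 : ℝ) / ((n + 1 : ℕ) : ℝ) ^ 2 ≤ 1 / n - 1 / ((n + 1 : ℕ) : ℝ) := by
        push_cast
        rw [div_sub_div _ _ hn0.ne' (by positivity), div_le_div_iff₀ (by positivity) (by positivity)]
        nlinarith
      linarith
  refine le_trans (Finset.sum_le_sum_of_subset_of_nonneg (Finset.filter_subset _ _) fun i _ _ => by positivity) ?_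
  by_cases hN : 22 ≤ N
  · refine (key N hN).trans ?_
    have : (0 : ℝ) ≤ 1 / N := by positivity
    linarith
  · rw [Finset.Icc_eq_empty (by omega)]
    norm_num

theorem not_dvd_Q {p : ℕ} (hp : p.Prime) (h : 23 ≤ p) : ¬ p ∣ Q := by
  intro hd
  have e : Q = 8 * (3 * (5 * (7 * (11 * (13 * (17 * 19)))))) := by norm_num [Q]
  rw [e] at hd
  have hle : ∀ m : ℕ, 0 < m → p ∣ m → 23 ≤ m := fun m hm hd => h.trans (Nat.le_of_dvd hm hd)
  rcases (Nat.Prime.dvd_mul hp).1 hd with h1 | hd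
  · exact absurd (hle 8 (by norm_num) h1) (by norm_num)
  rcases (Nat.Prime.dvd_mul hp).1 hd with h1 | hd
  · exact absurd (hle 3 (by norm_num) h1) (by norm_num)
  rcases (Nat.Prime.dvd_mul hp).1 hd with h1 | hd
  · exact absurd (hle 5 (by norm_num) h1) (by norm_num)
  rcases (Nat.Prime.dvd_mul hp).1 hd with h1 | hd
  · exact absurd (hle 7 (by norm_num) h1) (by norm_num)
  rcases (Nat.Prime.dvd_mul hp).1 hd with h1 | hd
  · exact absurd (hle 11 (by norm_num) h1) (by norm_num)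
  rcases (Nat.Prime.dvd_mul hp).1 hd with h1 | hd
  · exact absurd (hle 13 (by norm_num) h1) (by norm_num)
  rcases (Nat.Prime.dvd_mul hp).1 hd with h1 | hd
  · exact absurd (hle 17 (by norm_num) h1) (by norm_num)
  · exact absurd (hle 19 (by norm_num) hd) (by norm_num)

open Classical in
/-- the pairs with a small bad prime -/
theorem count_small (N : ℕ) :
    (((cls N ×ˢ cls N).filter fun q : (Fin 3 → ℤ) × (Fin 3 → ℤ) => ∃ p : ℕ, p.Prime ∧ 23 ≤ p ∧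
      100 * p ≤ N ∧ Red p (T q.1) (T q.2)).card : ℝ) ≤ 1 / 2 * (N : ℝ) ^ 6 := by
  set S := (Icc 23 N).filter Nat.Prime with hS
  have hsub : ((cls N ×ˢ cls N).filter fun q : (Fin 3 → ℤ) × (Fin 3 → ℤ) => ∃ p : ℕ, p.Prime ∧ 23 ≤ p ∧
      100 * p ≤ N ∧ Red p (T q.1) (T q.2)) ⊆
      (S.filter fun p => 100 * p ≤ N).biUnion fun p =>
        (cls N ×ˢ cls N).filter fun q : (Fin 3 → ℤ) × (Fin 3 → ℤ) => Red p (T q.1) (T q.2) := by
    intro q hq
    rw [mem_filter] at hq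
    obtain ⟨hq1, p, hp, h23, hpN, hr⟩ := hq
    rw [mem_biUnion]
    refine ⟨p, ?_, mem_filter.2 ⟨hq1, hr⟩⟩
    rw [mem_filter, hS, mem_filter, mem_Icc]
    exact ⟨⟨⟨h23, by omega⟩, hp⟩, hpN⟩
  have h1 := (Finset.card_le_card hsub).trans Finset.card_biUnion_le
  have h2 : (((cls N ×ˢ cls N).filter fun q : (Fin 3 → ℤ) × (Fin 3 → ℤ) => ∃ p : ℕ, p.Prime ∧ 23 ≤ p ∧
      100 * p ≤ N ∧ Red p (T q.1) (T q.2)).card : ℝ) ≤
      ∑ p ∈ S.filter fun p => 100 * p ≤ N, 4 * (N : ℝ) ^ 6 * (1 / (p : ℝ) ^ 2) := by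
    have h1' := (Nat.cast_le (α := ℝ)).2 h1
    refine h1'.trans ?_
    rw [Nat.cast_sum]
    refine Finset.sum_le_sum fun p hp => ?_
    rw [mem_filter, hS, mem_filter, mem_Icc] at hp
    obtain ⟨⟨⟨h23, _⟩, hpp⟩, hpN⟩ := hp
    have h3 := count_red (N := N) hpp (by omega) (not_dvd_Q hpp h23)
    refine le_trans (by exact_mod_cast h3 : _ ≤ ((3 * p ^ 4 * (N / p + 1) ^ 6 : ℕ) : ℝ)) ?_
    push_cast
    have hp0 : (0 : ℝ) < p := by exact_mod_cast hpp.pos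
    have h4 : ((N / p : ℕ) : ℝ) ≤ (N : ℝ) / p := Nat.cast_div_le
    have h5 : (p : ℝ) ≤ N / 100 := by
      have : (100 : ℝ) * p ≤ N := by exact_mod_cast hpN
      linarith
    have h6 : ((N / p : ℕ) : ℝ) + 1 ≤ 101 / 100 * N / p := by
      rw [le_div_iff₀ hp0]
      have : ((N / p : ℕ) : ℝ) * p ≤ N := by
        have := mul_le_mul_of_nonneg_right h4 hp0.le
        rwa [div_mul_cancel₀ _ hp0.ne'] at this
      nlinarith
    calc 3 * (p : ℝ) ^ 4 * (((N / p : ℕ) : ℝ) + 1) ^ 6 ≤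
        3 * (p : ℝ) ^ 4 * (101 / 100 * N / p) ^ 6 := by
          gcongr
      _ = 3 * (101 / 100) ^ 6 * (N : ℝ) ^ 6 * (1 / (p : ℝ) ^ 2) := by
          field_simp
      _ ≤ 4 * (N : ℝ) ^ 6 * (1 / (p : ℝ) ^ 2) := by
          have : (3 : ℝ) * (101 / 100) ^ 6 ≤ 4 := by norm_num
          have h0 : (0 : ℝ) ≤ (N : ℝ) ^ 6 * (1 / (p : ℝ) ^ 2) := by positivity
          nlinarith
  refine h2.trans ?_
  rw [← Finset.mul_sum]
  have h3 : ∑ p ∈ S.filter fun p => 100 * p ≤ N, (1 : ℝ) / (p : ℝ) ^ 2 ≤ 1 / 22 :=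
    le_trans (Finset.sum_le_sum_of_subset_of_nonneg (Finset.filter_subset _ _)
      fun i _ _ => by positivity) (sum_sq_le N)
  have h0 : (0 : ℝ) ≤ (N : ℝ) ^ 6 := by positivity
  nlinarith

/-! ### Local solubility in the family -/

theorem T_two (x : Fin 3 → ℤ) : T x 2 = (Q : ℤ) * x 2 + 1 := by simp [T]

theorem sol_of_square {f g : Fin 3 → ℤ} {K : Type} [Field K] (h : IsSquare (((f 2 * g 2 : ℤ)) : K)) :
    Sol f g K := by
  obtain ⟨y, hy⟩ := h
  refine ⟨0, 1, y, Or.inr one_ne_zero, ?_⟩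
  push_cast at hy
  simp only [ev]
  linear_combination -hy

theorem sol_small {p : ℕ} [hp : Fact p.Prime] (h : p < 23) (x y : Fin 3 → ℤ) :
    Sol (T x) (T y) ℚ_[p] := by
  apply sol_of_square
  rw [T_two, T_two]
  have e : ((Q : ℤ) * x 2 + 1) * ((Q : ℤ) * y 2 + 1) =
      (Q : ℤ) * (Q * x 2 * y 2 + x 2 + y 2) + 1 := by ring
  rw [e]
  obtain ⟨w, hw⟩ : ∃ w, w = (Q : ℤ) * x 2 * y 2 + x 2 + y 2 := ⟨_, rfl⟩
  rw [← hw]
  by_cases h2 : p = 2
  · subst h2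
    refine Pool.Agent.H14Q.isSquare_two ?_
    have : (Q : ℤ) = 8 * 4849845 := by norm_num [Q]
    rw [this]
    omega
  · have hpQ : (p : ℤ) ∣ (Q : ℤ) := by
      have hpp := hp.out
      have : p ∣ Q := by
        interval_cases p <;> first | (exfalso; revert hpp; norm_num; done) | (unfold Q; norm_num; done)
      exact_mod_cast this
    have h1 : (p : ℤ) ∣ (Q : ℤ) * w := hpQ.mul_right _
    refine Pool.Agent.H14Q.isSquare_odd h2 ?_ ?_
    · intro hd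
      have := (Int.dvd_add_right h1).1 hd
      have h3 : (p : ℤ) ≤ 1 := Int.le_of_dvd one_pos this
      have := hp.out.one_lt
      omega
    · refine ⟨1, ?_⟩
      push_cast
      have : ((Q : ℕ) : ZMod p) * (w : ZMod p) = 0 := by
        have := (ZMod.intCast_zmod_eq_zero_iff_dvd ((Q : ℤ) * w) p).2 h1
        push_cast at this
        exact this
      rw [this]
      ring

theorem sol_real {x y : Fin 3 → ℤ} (hx : 0 ≤ x 2) (hy : 0 ≤ y 2) : Sol (T x) (T y) ℝ := by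
  apply sol_of_square
  rw [T_two, T_two]
  have hQ : (0 : ℤ) ≤ Q := by positivity
  have h : (0 : ℝ) ≤ ((((Q : ℤ) * x 2 + 1) * ((Q : ℤ) * y 2 + 1) : ℤ) : ℝ) := by
    have : (0 : ℤ) ≤ ((Q : ℤ) * x 2 + 1) * ((Q : ℤ) * y 2 + 1) := by positivity
    exact_mod_cast this
  exact ⟨Real.sqrt _, (Real.mul_self_sqrt h).symm⟩

theorem T_mem_box {H N : ℕ} (hN : Q * N ≤ H) {x : Fin 3 → ℤ} (hx : x ∈ cls N) : T x ∈ box H := by
  rw [mem_cls] at hx
  unfold box rbox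
  rw [Fintype.mem_piFinset]
  intro i
  rw [mem_Icc]
  obtain ⟨h1, h2⟩ := hx i
  have hQ : (1 : ℤ) ≤ Q := by norm_num [Q]
  have h3 : (Q : ℤ) * N ≤ H := by exact_mod_cast hN
  have h4 : (Q : ℤ) * x i ≤ (Q : ℤ) * (N - 1) := mul_le_mul_of_nonneg_left (by omega) (by linarith)
  have h5 : (0 : ℤ) ≤ (Q : ℤ) * x i := by positivity
  have h6 : (0 : ℤ) ≤ (if i = 2 then (1 : ℤ) else 0) ∧ (if i = 2 then (1 : ℤ) else 0) ≤ 1 := by
    split_ifs <;> norm_num
  simp only [T]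
  constructor
  · linarith [h6.1, (by positivity : (0 : ℤ) ≤ (H : ℤ))]
  · nlinarith [h6.2]

open Classical in
/-- the set of the stub -/
noncomputable def G (H : ℕ) : Finset ((Fin 3 → ℤ) × (Fin 3 → ℤ)) :=
  (box H ×ˢ box H).filter fun q : (Fin 3 → ℤ) × (Fin 3 → ℤ) =>
    (res q.1 q.2 ≠ 0 ∧ disc q.1 ≠ 0 ∧ disc q.2 ≠ 0 ∧ q.1 0 ≠ 0 ∧ q.2 0 ≠ 0) ∧ Sol q.1 q.2 ℝ ∧
      ∀ (p : ℕ) [Fact p.Prime], Sol q.1 q.2 ℚ_[p]

open Classical in
/-- the set of `DEG` -/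
noncomputable def D (H : ℕ) : Finset ((Fin 3 → ℤ) × (Fin 3 → ℤ)) :=
  (box H ×ˢ box H).filter fun q : (Fin 3 → ℤ) × (Fin 3 → ℤ) => res q.1 q.2 = 0 ∨ disc q.1 = 0 ∨
    disc q.2 = 0 ∨ q.1 0 = 0 ∨ q.2 0 = 0

open Classical in
/-- the set of `LARGE` -/
noncomputable def L (Q H : ℕ) : Finset ((Fin 3 → ℤ) × (Fin 3 → ℤ)) :=
  (box H ×ˢ box H).filter fun q : (Fin 3 → ℤ) × (Fin 3 → ℤ) => ∃ p : ℕ, p.Prime ∧ H ≤ Q * p ∧ 3 ≤ p ∧
    Red p q.1 q.2

open Classical in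
theorem lower (H N : ℕ) (hN : Q * N ≤ H) (hN2 : H ≤ 2 * Q * N) :
    (N : ℝ) ^ 6 ≤ (G H).card + (D H).card + (L (200 * Q) H).card + 1 / 2 * (N : ℝ) ^ 6 := by
  set S := (cls N ×ˢ cls N).filter fun q : (Fin 3 → ℤ) × (Fin 3 → ℤ) => ∃ p : ℕ, p.Prime ∧ 23 ≤ p ∧
      100 * p ≤ N ∧ Red p (T q.1) (T q.2) with hS
  have h1 : (((cls N ×ˢ cls N) \ S).image fun q => (T q.1, T q.2)) ⊆ G H ∪ (D H ∪ L (200 * Q) H) := by
    intro q hq
    rw [mem_image] at hq
    obtain ⟨⟨x, y⟩, hxy, rfl⟩ := hq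
    rw [mem_sdiff, mem_product] at hxy
    obtain ⟨⟨hx, hy⟩, hns⟩ := hxy
    dsimp only at hx hy
    have hbx := T_mem_box hN hx
    have hby := T_mem_box hN hy
    rw [mem_union, mem_union]
    by_cases hd : res (T x) (T y) = 0 ∨ disc (T x) = 0 ∨ disc (T y) = 0 ∨ T x 0 = 0 ∨ T y 0 = 0
    · right; left
      unfold D
      rw [mem_filter, mem_product]
      exact ⟨⟨hbx, hby⟩, hd⟩
    by_cases hl : ∃ p : ℕ, p.Prime ∧ H ≤ 200 * Q * p ∧ 3 ≤ p ∧ Red p (T x) (T y)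
    · right; right
      unfold L
      rw [mem_filter, mem_product]
      exact ⟨⟨hbx, hby⟩, hl⟩
    left
    unfold G
    rw [mem_filter, mem_product]
    push Not at hd
    refine ⟨⟨hbx, hby⟩, hd, sol_real ((mem_cls.1 hx) 2).1 ((mem_cls.1 hy) 2).1, ?_⟩
    intro p hp
    by_cases h23 : p < 23
    · exact sol_small h23 x y
    · push Not at h23
      refine LOCS.t p (T x) (T y) h23 ?_
      intro hr
      by_cases hpN : 100 * p ≤ N
      · apply hns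
        rw [hS, mem_filter, mem_product]
        exact ⟨⟨hx, hy⟩, p, hp.out, h23, hpN, hr⟩
      · apply hl
        refine ⟨p, hp.out, ?_, by omega, hr⟩
        push Not at hpN
        calc H ≤ 2 * Q * N := hN2
          _ ≤ 2 * Q * (100 * p) := Nat.mul_le_mul_left _ hpN.le
          _ = 200 * Q * p := by ring
  have h2 := Finset.card_le_card h1
  rw [Finset.card_image_of_injective _ (by
    intro q q' h
    simp only [Prod.mk.injEq] at h
    exact Prod.ext (T_inj h.1) (T_inj h.2))] at h2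
  have h3 : (cls N ×ˢ cls N).card = N ^ 6 := by
    rw [card_product, REDC.card_cls]
    ring
  have h4 : (cls N ×ˢ cls N).card ≤ ((cls N ×ˢ cls N) \ S).card + S.card := by
    have := Finset.le_card_sdiff S (cls N ×ˢ cls N)
    omega
  have h5 : (G H ∪ (D H ∪ L (200 * Q) H)).card ≤ (G H).card + ((D H).card + (L (200 * Q) H).card) :=
    (Finset.card_union_le _ _).trans (Nat.add_le_add_left (Finset.card_union_le _ _) _)
  have h6 : N ^ 6 ≤ (G H).card + ((D H).card + (L (200 * Q) H).card) + S.card := by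
    rw [← h3]
    omega
  have h7 : ((N ^ 6 : ℕ) : ℝ) ≤ (((G H).card + ((D H).card + (L (200 * Q) H).card) + S.card : ℕ) : ℝ) := by
    exact_mod_cast h6
  push_cast at h7
  have h8 := count_small N
  rw [← hS] at h8
  linarith

theorem of_deg (hD : DEG) : ELS := by
  classical
  obtain ⟨C₁, hC₁, hD⟩ := hD
  obtain ⟨C₂, hL⟩ := LARGE.t (200 * Q)
  obtain ⟨K, hK⟩ : ∃ K : ℝ, K = 1 / (2 * (Q : ℝ)) ^ 6 := ⟨_, rfl⟩
  have hQ0 : (0 : ℝ) < Q := by norm_num [Q]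
  have hK0 : 0 < K := by rw [hK]; positivity
  -- the error terms
  have hlim : ∀ᶠ x : ℝ in Filter.atTop, (C₁ + |C₂| * Real.log x) ≤ K / 4 * x := by
    have h1 : (fun x : ℝ => C₁ + |C₂| * Real.log x) =o[Filter.atTop] (fun x : ℝ => x) := by
      refine Asymptotics.IsLittleO.add ?_ ?_
      · exact Asymptotics.isLittleO_const_id_atTop C₁
      · exact Real.isLittleO_log_id_atTop.const_mul_left _
    have h2 := h1.bound (show 0 < K / 4 by positivity)
    filter_upwards [h2, Filter.eventually_ge_atTop 0] with x hx hx0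
    rw [Real.norm_eq_abs, Real.norm_eq_abs, abs_of_nonneg hx0] at hx
    exact (le_abs_self _).trans hx
  obtain ⟨x₀, hx₀⟩ := Filter.eventually_atTop.1 hlim
  refine ⟨K / 4, max (2 * Q) (⌈x₀⌉₊ + 3), by positivity, fun H hH => ?_⟩
  have hH1 : 2 * Q ≤ H := (le_max_left _ _).trans hH
  have hH2 : ⌈x₀⌉₊ + 3 ≤ H := (le_max_right _ _).trans hH
  have hx : x₀ ≤ H := by
    refine (Nat.le_ceil x₀).trans ?_
    exact_mod_cast (by omega : ⌈x₀⌉₊ ≤ H)
  have hlog := hx₀ H hx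
  have hQpos : 0 < Q := by norm_num [Q]
  set N := H / Q with hN
  have hN1 : Q * N ≤ H := Nat.mul_div_le H Q
  have hN2 : H ≤ 2 * Q * N := by
    have h1 : H < Q * N + Q := by
      have := Nat.lt_div_mul_add (a := H) hQpos
      rw [mul_comm] at this
      exact this
    have h2 : 1 ≤ N := (Nat.one_le_div_iff hQpos).2 (by omega)
    nlinarith
  have hlow := lower H N hN1 hN2
  have hd := hD H (by omega)
  have hl := hL H (by omega)
  have hH0 : (0 : ℝ) < H := by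
    have : 0 < H := by omega
    exact_mod_cast this
  have hN3 : K * (H : ℝ) ^ 6 ≤ (N : ℝ) ^ 6 := by
    have h1 : (H : ℝ) ≤ 2 * Q * N := by exact_mod_cast hN2
    have h2 : (H : ℝ) ^ 6 ≤ (2 * Q * N) ^ 6 := pow_le_pow_left₀ hH0.le h1 6
    rw [hK, one_div, inv_mul_le_iff₀ (by positivity)]
    calc (H : ℝ) ^ 6 ≤ (2 * Q * N) ^ 6 := h2
      _ = _ := by ring
  have hGd : ((D H).card : ℝ) ≤ C₁ * (H : ℝ) ^ 5 := by
    unfold D
    exact hd
  have hGl : ((L (200 * Q) H).card : ℝ) ≤ C₂ * (H : ℝ) ^ 5 * Real.log H := by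
    unfold L
    exact hl
  have hlog0 : 0 ≤ Real.log H := Real.log_nonneg (by exact_mod_cast (by omega : 1 ≤ H))
  have hGl2 : C₂ * (H : ℝ) ^ 5 * Real.log H ≤ |C₂| * Real.log H * (H : ℝ) ^ 5 := by
    have h1 : C₂ ≤ |C₂| := le_abs_self _
    have h2 : 0 ≤ (H : ℝ) ^ 5 * Real.log H := by positivity
    nlinarith
  have hfin : (C₁ + |C₂| * Real.log H) * (H : ℝ) ^ 5 ≤ K / 4 * H * (H : ℝ) ^ 5 :=
    mul_le_mul_of_nonneg_right hlog (by positivity)
  have hG : K / 4 * (H : ℝ) ^ 6 ≤ ((G H).card : ℝ) := by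
    have e : K / 4 * (H : ℝ) ^ 6 = K / 4 * H * (H : ℝ) ^ 5 := by ring
    nlinarith
  unfold G at hG
  exact hG

theorem t : ELS := of_deg DEG.t

end Pool.Agent.H14F.ELS
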