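import Pool.Agent.H14F.Stm

/-!
# The stub MEANL of the project F6
-/

set_option autoImplicit false

namespace Pool.Agent.H14F.MEANL

open Finset Pool.Agent.H14F

theorem card_cls (m : ℕ) : (cls m).card = m ^ 3 := by
  unfold cls
  rw [Fintype.card_piFinset]
  simp

/-- sums over the classes modulo `p ^ 2` -/
theorem sum_lift {p : ℕ} (hp : 0 < p) (h : (Fin 3 → ℤ) → ℝ)
    (hper : ∀ f t : Fin 3 → ℤ, h (fun i => f i + p * t i) = h f) :
    ∑ f ∈ cls (p ^ 2), h f = (p : ℝ) ^ 3 * ∑ f ∈ cls p, h f := by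
  have hp' : (0 : ℤ) < p := by exact_mod_cast hp
  have h1 : ∑ f ∈ cls (p ^ 2), h f = ∑ x ∈ cls p ×ˢ cls p, h (fun i => x.1 i + p * x.2 i) := by
    refine Finset.sum_nbij' (fun f => (fun i => f i % p, fun i => f i / p))
      (fun x i => x.1 i + p * x.2 i) ?_ ?_ ?_ ?_ ?_
    · intro f hf
      unfold cls at hf ⊢
      rw [Fintype.mem_piFinset] at hf
      rw [mem_product, Fintype.mem_piFinset, Fintype.mem_piFinset]
      refine ⟨fun i => ?_, fun i => ?_⟩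
      · rw [mem_Ico]
        exact ⟨Int.emod_nonneg _ hp'.ne', Int.emod_lt_of_pos _ hp'⟩
      · have := hf i
        rw [mem_Ico] at this ⊢
        push_cast at this
        refine ⟨Int.ediv_nonneg this.1 hp'.le, Int.ediv_lt_of_lt_mul hp' ?_⟩
        nlinarith [this.2]
    · intro x hx
      unfold cls at hx ⊢
      rw [mem_product, Fintype.mem_piFinset, Fintype.mem_piFinset] at hx
      rw [Fintype.mem_piFinset]
      intro i
      have h1 := hx.1 i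
      have h2 := hx.2 i
      rw [mem_Ico] at h1 h2 ⊢
      push_cast
      constructor
      · nlinarith [h1.1, h2.1]
      · nlinarith [h1.2, h2.2]
    · intro f _
      funext i
      exact Int.emod_add_mul_ediv _ _
    · intro x hx
      unfold cls at hx
      rw [mem_product, Fintype.mem_piFinset, Fintype.mem_piFinset] at hx
      ext i
      · have h1 := hx.1 i
        rw [mem_Ico] at h1
        simp only
        rw [Int.add_mul_emod_self_left, Int.emod_eq_of_lt h1.1 h1.2]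
      · have h1 := hx.1 i
        rw [mem_Ico] at h1
        simp only
        rw [Int.add_mul_ediv_left _ _ hp'.ne', Int.ediv_eq_zero_of_lt h1.1 h1.2, zero_add]
    · intro f _
      congr 1
      funext i
      exact (Int.emod_add_mul_ediv _ _).symm
  rw [h1, sum_product]
  simp only [hper, sum_const, nsmul_eq_mul, card_cls]
  rw [← mul_sum]
  push_cast
  ring

open Classical in
/-- an indicator -/
noncomputable def ind (P : Prop) : ℝ := if P then 1 else 0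

theorem ind_nonneg (P : Prop) : 0 ≤ ind P := by unfold ind; split_ifs <;> norm_num
theorem ind_true {P : Prop} (h : P) : ind P = 1 := if_pos h
theorem ind_false {P : Prop} (h : ¬ P) : ind P = 0 := if_neg h
theorem ind_mono {P Q : Prop} (h : P → Q) : ind P ≤ ind Q := by
  by_cases h1 : P
  · rw [ind_true h1, ind_true (h h1)]
  · rw [ind_false h1]; exact ind_nonneg _

theorem res_symm (f g : Fin 3 → ℤ) : res g f = res f g := by
  unfold res; ring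

theorem res_per (p : ℕ) (f g t : Fin 3 → ℤ) :
    (p : ℤ) ∣ res (fun i => f i + p * t i) g ↔ (p : ℤ) ∣ res f g := by
  have h : ((res (fun i => f i + p * t i) g : ℤ) : ZMod p) = ((res f g : ℤ) : ZMod p) := by
    unfold res
    push_cast
    simp
  rw [← ZMod.intCast_zmod_eq_zero_iff_dvd, ← ZMod.intCast_zmod_eq_zero_iff_dvd, h]

theorem disc_per (p : ℕ) (f t : Fin 3 → ℤ) :
    (p : ℤ) ∣ disc (fun i => f i + p * t i) ↔ (p : ℤ) ∣ disc f := by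
  have h : ((disc (fun i => f i + p * t i) : ℤ) : ZMod p) = ((disc f : ℤ) : ZMod p) := by
    unfold disc
    push_cast
    simp
  rw [← ZMod.intCast_zmod_eq_zero_iff_dvd, ← ZMod.intCast_zmod_eq_zero_iff_dvd, h]

theorem res_per' (p : ℕ) (f g t : Fin 3 → ℤ) :
    (p : ℤ) ∣ res f (fun i => g i + p * t i) ↔ (p : ℤ) ∣ res f g := by
  rw [← res_symm, res_per, res_symm]

/-- sums over pairs -/
theorem sum_lift2 {p : ℕ} (hp : 0 < p) (h : (Fin 3 → ℤ) → (Fin 3 → ℤ) → ℝ)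
    (h1 : ∀ f t g : Fin 3 → ℤ, h (fun i => f i + p * t i) g = h f g)
    (h2 : ∀ f t g : Fin 3 → ℤ, h g (fun i => f i + p * t i) = h g f) :
    ∑ f ∈ cls (p ^ 2), ∑ g ∈ cls (p ^ 2), h f g = (p : ℝ) ^ 6 * ∑ f ∈ cls p, ∑ g ∈ cls p, h f g := by
  have h3 : ∀ f, ∑ g ∈ cls (p ^ 2), h f g = (p : ℝ) ^ 3 * ∑ g ∈ cls p, h f g := fun f =>
    sum_lift hp (h f) fun g t => h2 g t f
  simp only [h3]
  rw [← mul_sum, sum_lift hp (fun f => ∑ g ∈ cls p, h f g) (fun f t => by simp only [h1])]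
  ring

theorem sum_pair_card {p : ℕ} (Q : (Fin 3 → ℤ) → (Fin 3 → ℤ) → Prop)
    [DecidablePred fun q : (Fin 3 → ℤ) × (Fin 3 → ℤ) => Q q.1 q.2] :
    ∑ f ∈ cls p, ∑ g ∈ cls p, ind (Q f g) =
      (((cls p ×ˢ cls p).filter fun q : (Fin 3 → ℤ) × (Fin 3 → ℤ) => Q q.1 q.2).card : ℝ) := by
  rw [← sum_product', Finset.card_filter]
  push_cast
  refine sum_congr rfl fun q _ => ?_
  unfold ind
  by_cases h : Q q.1 q.2
  · rw [if_pos h, if_pos h]
  · rw [if_neg h, if_neg h]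

theorem pointwise {p : ℕ} {s : ℤ} {y : ℝ} (f g : Fin 3 → ℤ) :
    ind ((p : ℤ) ∣ disc f ∧ ¬ (p : ℤ) ^ 2 ∣ disc f ∧ gen p f ≠ s) +
      ind ((p : ℤ) ∣ disc g ∧ ¬ (p : ℤ) ^ 2 ∣ disc g ∧ gen p g ≠ s) -
      ind ((p : ℤ) ∣ disc f ∧ (p : ℤ) ∣ res f g) - ind ((p : ℤ) ∣ disc g ∧ (p : ℤ) ∣ res g f) -
      ind ((p : ℤ) ∣ disc f) * ind ((p : ℤ) ∣ disc g) + (1 - y) * ind ((p : ℤ) ∣ res f g) ≤
      1 - wt y p s f g := by
  set E1 : Prop := (p : ℤ) ∣ disc f ∧ ¬ (p : ℤ) ^ 2 ∣ disc f ∧ gen p f ≠ s with hE1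
  set E2 : Prop := (p : ℤ) ∣ disc g ∧ ¬ (p : ℤ) ^ 2 ∣ disc g ∧ gen p g ≠ s with hE2
  by_cases hR : (p : ℤ) ∣ res f g
  · have hR' : (p : ℤ) ∣ res g f := by rw [res_symm]; exact hR
    have hw : wt y p s f g = y := by
      unfold wt
      rw [if_neg, if_pos hR]
      rintro (h | h)
      · exact h.2.2.1 hR
      · exact h.2.2.1 hR'
    have h1 : ind E1 ≤ ind ((p : ℤ) ∣ disc f ∧ (p : ℤ) ∣ res f g) :=
      ind_mono fun h => ⟨h.1, hR⟩
    have h2 : ind E2 ≤ ind ((p : ℤ) ∣ disc g ∧ (p : ℤ) ∣ res g f) :=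
      ind_mono fun h => ⟨h.1, hR'⟩
    have h3 := mul_nonneg (ind_nonneg ((p : ℤ) ∣ disc f)) (ind_nonneg ((p : ℤ) ∣ disc g))
    rw [hw, ind_true hR]
    linarith
  · have hR' : ¬ (p : ℤ) ∣ res g f := by rw [res_symm]; exact hR
    have i1 : ind ((p : ℤ) ∣ disc f ∧ (p : ℤ) ∣ res f g) = 0 := ind_false fun h => hR h.2
    have i2 : ind ((p : ℤ) ∣ disc g ∧ (p : ℤ) ∣ res g f) = 0 := ind_false fun h => hR' h.2
    rw [ind_false hR, mul_zero, add_zero, i1, i2, sub_zero, sub_zero]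
    have hB1 : Bad p s f g ↔ E1 := ⟨fun h => ⟨h.1, h.2.1, h.2.2.2⟩, fun h => ⟨h.1, h.2.1, hR, h.2.2⟩⟩
    have hB2 : Bad p s g f ↔ E2 := ⟨fun h => ⟨h.1, h.2.1, h.2.2.2⟩, fun h => ⟨h.1, h.2.1, hR', h.2.2⟩⟩
    have h3 := mul_nonneg (ind_nonneg ((p : ℤ) ∣ disc f)) (ind_nonneg ((p : ℤ) ∣ disc g))
    by_cases h1 : E1
    · have hw : wt y p s f g = 0 := by
        unfold wt
        rw [if_pos (Or.inl (hB1.2 h1))]
      rw [hw, ind_true h1, ind_true h1.1]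
      have h2 : ind E2 ≤ ind ((p : ℤ) ∣ disc g) := ind_mono fun h => h.1
      linarith
    · by_cases h2 : E2
      · have hw : wt y p s f g = 0 := by
          unfold wt
          rw [if_pos (Or.inr (hB2.2 h2))]
        rw [hw, ind_false h1, ind_true h2]
        linarith
      · have hw : wt y p s f g = 1 := by
          unfold wt
          rw [if_neg, if_neg hR]
          rintro (h | h)
          · exact h1 (hB1.1 h)
          · exact h2 (hB2.1 h)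
        rw [hw, ind_false h1, ind_false h2]
        linarith

theorem t : MEANL := by
  intro hD hE hDR hRL p s y hp hp5 hs hy0 hy1
  have hp0 : 0 < p := by omega
  have hp' : (0 : ℝ) < p := by exact_mod_cast hp0
  -- the sums
  have e1 : ∑ f ∈ cls (p ^ 2), ind ((p : ℤ) ∣ disc f ∧ ¬ (p : ℤ) ^ 2 ∣ disc f ∧ gen p f ≠ s) ≥
      (1 / (2 * (p : ℝ)) - 1 / (p : ℝ) ^ 2) * (p : ℝ) ^ 6 := by
    refine (hE p s hp hp5 hs).trans (le_of_eq ?_)
    rw [Finset.card_filter]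
    push_cast
    refine sum_congr rfl fun f _ => ?_
    unfold ind
    by_cases h : (p : ℤ) ∣ disc f ∧ ¬ (p : ℤ) ^ 2 ∣ disc f ∧ gen p f ≠ s
    · rw [if_pos h, if_pos h]
    · rw [if_neg h, if_neg h]
  have e2 : ∑ f ∈ cls (p ^ 2), ∑ g ∈ cls (p ^ 2), ind ((p : ℤ) ∣ disc f ∧ (p : ℤ) ∣ res f g) ≤
      (p : ℝ) ^ 6 * ((p : ℝ) ^ 4 + (p : ℝ) ^ 3) := by
    rw [sum_lift2 hp0 _ (fun f t g => by rw [disc_per, res_per]) (fun f t g => by rw [res_per'])]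
    rw [sum_pair_card (fun f g => (p : ℤ) ∣ disc f ∧ (p : ℤ) ∣ res f g)]
    have := hDR p hp hp5
    gcongr
    exact_mod_cast this
  have e3 : ∑ f ∈ cls (p ^ 2), ∑ g ∈ cls (p ^ 2), ind ((p : ℤ) ∣ disc g ∧ (p : ℤ) ∣ res g f) ≤
      (p : ℝ) ^ 6 * ((p : ℝ) ^ 4 + (p : ℝ) ^ 3) := by
    rw [sum_comm]
    exact e2
  have e4 : ∑ f ∈ cls (p ^ 2), ind ((p : ℤ) ∣ disc f) = (p : ℝ) ^ 5 := by
    rw [sum_lift hp0 _ (fun f t => by rw [disc_per])]
    have := hD p hp (by omega)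
    have h1 : ∑ f ∈ cls p, ind ((p : ℤ) ∣ disc f) = (((cls p).filter fun f => (p : ℤ) ∣ disc f).card : ℝ) := by
      rw [Finset.card_filter]
      push_cast
      refine sum_congr rfl fun f _ => ?_
      unfold ind
      by_cases h : (p : ℤ) ∣ disc f
      · rw [if_pos h, if_pos h]
      · rw [if_neg h, if_neg h]
    rw [h1, this]
    push_cast
    ring
  have e5 : (p : ℝ) ^ 11 ≤ ∑ f ∈ cls (p ^ 2), ∑ g ∈ cls (p ^ 2), ind ((p : ℤ) ∣ res f g) := by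
    rw [sum_lift2 hp0 _ (fun f t g => by rw [res_per]) (fun f t g => by rw [res_per'])]
    rw [sum_pair_card (fun f g => (p : ℤ) ∣ res f g)]
    have h1 := hRL p hp hp5
    have h2 : (p : ℝ) ^ 5 ≤ (((cls p ×ˢ cls p).filter fun q : (Fin 3 → ℤ) × (Fin 3 → ℤ) =>
        (p : ℤ) ∣ res q.1 q.2).card : ℝ) := by exact_mod_cast h1
    calc (p : ℝ) ^ 11 = (p : ℝ) ^ 6 * (p : ℝ) ^ 5 := by ring
      _ ≤ _ := by gcongr
  have hc : ((cls (p ^ 2)).card : ℝ) = (p : ℝ) ^ 6 := by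
    rw [card_cls]
    push_cast
    ring
  -- the total
  have hsum : ∑ f ∈ cls (p ^ 2), ∑ g ∈ cls (p ^ 2),
      (ind ((p : ℤ) ∣ disc f ∧ ¬ (p : ℤ) ^ 2 ∣ disc f ∧ gen p f ≠ s) +
      ind ((p : ℤ) ∣ disc g ∧ ¬ (p : ℤ) ^ 2 ∣ disc g ∧ gen p g ≠ s) -
      ind ((p : ℤ) ∣ disc f ∧ (p : ℤ) ∣ res f g) - ind ((p : ℤ) ∣ disc g ∧ (p : ℤ) ∣ res g f) -
      ind ((p : ℤ) ∣ disc f) * ind ((p : ℤ) ∣ disc g) + (1 - y) * ind ((p : ℤ) ∣ res f g)) ≤
      ∑ f ∈ cls (p ^ 2), ∑ g ∈ cls (p ^ 2), (1 - wt y p s f g) :=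
    sum_le_sum fun f _ => sum_le_sum fun g _ => pointwise f g
  simp only [sum_add_distrib, sum_sub_distrib, ← mul_sum, ← sum_mul, sum_const, nsmul_eq_mul, hc,
    e4] at hsum
  have e6 : (1 - y) * (p : ℝ) ^ 11 ≤
      (1 - y) * ∑ f ∈ cls (p ^ 2), ∑ g ∈ cls (p ^ 2), ind ((p : ℤ) ∣ res f g) :=
    mul_le_mul_of_nonneg_left e5 (by linarith)
  have e7 : (p : ℝ) ^ 6 * ((1 / (2 * (p : ℝ)) - 1 / (p : ℝ) ^ 2) * (p : ℝ) ^ 6) ≤
      (p : ℝ) ^ 6 * ∑ f ∈ cls (p ^ 2), ind ((p : ℤ) ∣ disc f ∧ ¬ (p : ℤ) ^ 2 ∣ disc f ∧ gen p f ≠ s) :=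
    mul_le_mul_of_nonneg_left e1 (by positivity)
  unfold mean
  rw [le_div_iff₀ (by positivity)]
  have h1 : ((p ^ 2 : ℕ) : ℝ) ^ 6 = (p : ℝ) ^ 12 := by push_cast; ring
  rw [h1]
  have h2 : ((2 - y) / p - 7 / (p : ℝ) ^ 2) * (p : ℝ) ^ 12 = (2 - y) * (p : ℝ) ^ 11 - 7 * (p : ℝ) ^ 10 := by
    field_simp
  have h3 : (p : ℝ) ^ 6 * ((1 / (2 * (p : ℝ)) - 1 / (p : ℝ) ^ 2) * (p : ℝ) ^ 6) =
      (p : ℝ) ^ 11 / 2 - (p : ℝ) ^ 10 := by
    field_simp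
  rw [h2]
  rw [h3] at e7
  have h4 : (p : ℝ) ^ 9 ≤ (p : ℝ) ^ 10 := by
    have : (1 : ℝ) ≤ p := by exact_mod_cast hp0
    exact pow_le_pow_right₀ this (by norm_num)
  simp only [sum_sub_distrib, sum_const, nsmul_eq_mul, hc]
  have h5 : (p : ℝ) ^ 5 * (p : ℝ) ^ 5 = (p : ℝ) ^ 10 := by ring
  have h6 : (p : ℝ) ^ 6 * ((p : ℝ) ^ 4 + (p : ℝ) ^ 3) = (p : ℝ) ^ 10 + (p : ℝ) ^ 9 := by ring
  rw [h5] at hsum
  rw [h6] at e2 e3
  linarith

end Pool.Agent.H14F.MEANL
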