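import Pool.Agent.H14F.MEANL

/-!
# The stub MEANU of the project F6
-/

set_option autoImplicit false

namespace Pool.Agent.H14F.MEANU

open Finset Pool.Agent.H14F Pool.Agent.H14F.MEANL

theorem pointwise {p : ℕ} {s : ℤ} {y : ℝ} (hy0 : 0 ≤ y) (f g : Fin 3 → ℤ) :
    1 - wt y p s f g ≤ ind ((p : ℤ) ∣ disc f) + ind ((p : ℤ) ∣ disc g) +
      ind ((p : ℤ) ∣ res f g) := by
  have n1 := ind_nonneg ((p : ℤ) ∣ disc f)
  have n2 := ind_nonneg ((p : ℤ) ∣ disc g)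
  have n3 := ind_nonneg ((p : ℤ) ∣ res f g)
  unfold wt
  split_ifs with h1 h2
  · rcases h1 with h | h
    · rw [ind_true h.1]
      linarith
    · rw [ind_true h.1]
      linarith
  · rw [ind_true h2]
    linarith
  · linarith

theorem t : MEANU := by
  intro hD hR p s y hp hp5 _ hy0 _
  have hp0 : 0 < p := by omega
  have hp' : (0 : ℝ) < p := by exact_mod_cast hp0
  have hp5' : (5 : ℝ) ≤ p := by exact_mod_cast hp5
  have e4 : ∑ f ∈ cls (p ^ 2), ind ((p : ℤ) ∣ disc f) = (p : ℝ) ^ 5 := by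
    rw [sum_lift hp0 _ (fun f t => by rw [disc_per])]
    have := hD p hp (by omega)
    have h1 : ∑ f ∈ cls p, ind ((p : ℤ) ∣ disc f) = (((cls p).filter fun f => (p : ℤ) ∣ disc f).card : ℝ) := by
      rw [Finset.card_filter]
      push_cast
      refine sum_congr rfl fun f _ => ?_
      unfold ind
      by_cases h : (p : ℤ) ∣ disc f
      · rw [if_pos h, if_pos h]
      · rw [if_neg h, if_neg h]
    rw [h1, this]
    push_cast
    ring
  have e5 : ∑ f ∈ cls (p ^ 2), ∑ g ∈ cls (p ^ 2), ind ((p : ℤ) ∣ res f g) ≤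
      (p : ℝ) ^ 6 * ((p : ℝ) ^ 5 + 3 * (p : ℝ) ^ 4) := by
    rw [sum_lift2 hp0 _ (fun f t g => by rw [res_per]) (fun f t g => by rw [res_per'])]
    rw [sum_pair_card (fun f g => (p : ℤ) ∣ res f g)]
    exact mul_le_mul_of_nonneg_left (hR p hp hp5) (by positivity)
  have hc : ((cls (p ^ 2)).card : ℝ) = (p : ℝ) ^ 6 := by
    rw [card_cls]
    push_cast
    ring
  have hsum : ∑ f ∈ cls (p ^ 2), ∑ g ∈ cls (p ^ 2), (1 - wt y p s f g) ≤
      ∑ f ∈ cls (p ^ 2), ∑ g ∈ cls (p ^ 2), (ind ((p : ℤ) ∣ disc f) + ind ((p : ℤ) ∣ disc g) +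
      ind ((p : ℤ) ∣ res f g)) :=
    sum_le_sum fun f _ => sum_le_sum fun g _ => pointwise hy0 f g
  simp only [sum_add_distrib, ← mul_sum, sum_const, nsmul_eq_mul, hc, e4] at hsum
  have hm : ∑ f ∈ cls (p ^ 2), ∑ g ∈ cls (p ^ 2), (1 - wt y p s f g) ≤ 4 * (p : ℝ) ^ 11 := by
    have h1 : ∑ f ∈ cls (p ^ 2), ∑ g ∈ cls (p ^ 2), (1 - wt y p s f g) ≤
        (p : ℝ) ^ 6 * (p : ℝ) ^ 5 + (p : ℝ) ^ 6 * (p : ℝ) ^ 5 +
          (p : ℝ) ^ 6 * ((p : ℝ) ^ 5 + 3 * (p : ℝ) ^ 4) := by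
      refine le_trans ?_ (add_le_add_right e5 _)
      simpa [sum_sub_distrib, sum_add_distrib, hc, add_comm, add_left_comm, add_assoc, mul_comm]
        using hsum
    have h2 : 3 * (p : ℝ) ^ 10 ≤ (p : ℝ) ^ 11 := by
      rw [pow_succ (p : ℝ) 10, mul_comm]
      exact mul_le_mul_of_nonneg_left (by linarith) (by positivity)
    nlinarith
  unfold mean
  rw [div_le_div_iff₀ (by positivity) hp']
  push_cast
  have h3 : 4 * (((p : ℝ) ^ 2) ^ 6) = 4 * (p : ℝ) ^ 11 * p := by ring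
  rw [h3]
  exact mul_le_mul_of_nonneg_right hm hp'.le

end Pool.Agent.H14F.MEANU
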