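import Pool.Agent.H14F.Stm

/-!
# Project F6: stub MI (helper91)

The mean value modulo `p²` is invariant under a linear map whose determinant is prime to `p`.
-/

set_option autoImplicit false

namespace Pool.Agent.H14F.MI

open Finset Pool.Agent.H14F

/-- reduction of `lin e x` modulo `m` -/
def phi (m : ℕ) (e : Fin 3 → Fin 3 → ℤ) (x : Fin 3 → ℤ) : Fin 3 → ℤ := fun j => lin e x j % m

theorem mem_cls {m : ℕ} {x : Fin 3 → ℤ} : x ∈ cls m ↔ ∀ i, 0 ≤ x i ∧ x i < m := by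
  unfold cls
  rw [Fintype.mem_piFinset]
  simp only [mem_Ico]

theorem phi_mem {m : ℕ} (hm : 0 < m) (e : Fin 3 → Fin 3 → ℤ) (x : Fin 3 → ℤ) : phi m e x ∈ cls m := by
  rw [mem_cls]
  intro i
  have h : (0 : ℤ) < m := by exact_mod_cast hm
  exact ⟨Int.emod_nonneg _ h.ne', Int.emod_lt_of_pos _ h⟩

theorem lin_eq (e : Fin 3 → Fin 3 → ℤ) (x : Fin 3 → ℤ) : lin e x = Matrix.vecMul x (Matrix.of e) := by
  funext j
  simp [lin, Matrix.vecMul, dotProduct]

theorem phi_inj {p : ℕ} (hp : p.Prime) {e : Fin 3 → Fin 3 → ℤ} (he : ¬ (p : ℤ) ∣ (Matrix.of e).det) :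
    Set.InjOn (phi (p ^ 2) e) (cls (p ^ 2) : Set (Fin 3 → ℤ)) := by
  intro x hx y hy hxy
  rw [Finset.mem_coe, mem_cls] at hx hy
  have h1 : ∀ j, ((p ^ 2 : ℕ) : ℤ) ∣ lin e x j - lin e y j := by
    intro j
    have h2 := congrFun hxy j
    simp only [phi] at h2
    exact Int.ModEq.dvd (Int.ModEq.symm h2)
  have h2 : ∀ i, ((p ^ 2 : ℕ) : ℤ) ∣ (Matrix.of e).det * (x i - y i) := by
    intro i
    have h3 : Matrix.vecMul (lin e x - lin e y) (Matrix.of e).adjugate = (Matrix.of e).det • (x - y) := by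
      rw [lin_eq, lin_eq, ← Matrix.sub_vecMul, Matrix.vecMul_vecMul, Matrix.mul_adjugate,
        Matrix.vecMul_smul, Matrix.vecMul_one]
    have h4 := congrFun h3 i
    rw [Pi.smul_apply, Pi.sub_apply, smul_eq_mul] at h4
    rw [← h4]
    unfold Matrix.vecMul dotProduct
    exact Finset.dvd_sum fun j _ => Dvd.dvd.mul_right (h1 j) _
  have hcop : IsCoprime ((p ^ 2 : ℕ) : ℤ) (Matrix.of e).det := by
    push_cast
    apply IsCoprime.pow_left
    exact (Prime.coprime_iff_not_dvd (Nat.prime_iff_prime_int.1 hp)).2 he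
  funext i
  have h3 : ((p ^ 2 : ℕ) : ℤ) ∣ x i - y i := hcop.dvd_of_dvd_mul_left (h2 i)
  have hxi := hx i
  have hyi := hy i
  have h4 : |x i - y i| < ((p ^ 2 : ℕ) : ℤ) := by
    rw [abs_lt]
    constructor <;> linarith [hxi.1, hxi.2, hyi.1, hyi.2]
  have h5 := Int.eq_zero_of_abs_lt_dvd h3 h4
  linarith

theorem phi_image {p : ℕ} (hp : p.Prime) {e : Fin 3 → Fin 3 → ℤ} (he : ¬ (p : ℤ) ∣ (Matrix.of e).det) :
    (cls (p ^ 2)).image (phi (p ^ 2) e) = cls (p ^ 2) := by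
  have hm : 0 < p ^ 2 := pow_pos hp.pos 2
  apply Finset.eq_of_subset_of_card_le
  · intro y hy
    obtain ⟨x, _, rfl⟩ := Finset.mem_image.1 hy
    exact phi_mem hm e x
  · rw [Finset.card_image_of_injOn (phi_inj hp he)]

theorem t : MI := by
  intro p e u hp he hu
  unfold mean
  congr 1
  have hsum : ∀ v : (Fin 3 → ℤ) → ℝ, ∑ x ∈ cls (p ^ 2), v (phi (p ^ 2) e x) = ∑ f ∈ cls (p ^ 2), v f := by
    intro v
    conv_rhs => rw [← phi_image hp he]
    rw [Finset.sum_image (phi_inj hp he)]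
  rw [← hsum fun f => ∑ g ∈ cls (p ^ 2), u f g]
  refine Finset.sum_congr rfl fun x _ => ?_
  rw [← hsum fun g => u (phi (p ^ 2) e x) g]
  refine Finset.sum_congr rfl fun y _ => ?_
  have key : ∀ (z : Fin 3 → ℤ) (i : Fin 3), ((p ^ 2 : ℕ) : ℤ) ∣ lin e z i - phi (p ^ 2) e z i := by
    intro z i
    unfold phi
    exact Int.dvd_self_sub_emod
  exact hu _ _ _ _ (key x) (key y)

end Pool.Agent.H14F.MI
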