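import Pool.Agent.H14F.ResCount

set_option autoImplicit false

namespace Pool.Agent.H14F.RESL

theorem t : RESL := by
  intro p hp h5
  haveI := Fact.mk hp
  rw [RC.count p]
  have h1 : p ^ 3 ≤ p ^ 4 := Nat.pow_le_pow_right hp.pos (by norm_num)
  omega

end Pool.Agent.H14F.RESL
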