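import Pool.Agent.H14F.DefB
import Pool.Agent.H14F.BRUN
import Pool.Agent.H14F.MI
import Pool.Agent.H14F.MEANL
import Pool.Agent.H14F.MEANU
import Pool.Agent.H14F.MER
import Pool.Agent.H14F.DISC
import Pool.Agent.H14F.E1C
import Pool.Agent.H14F.DRC
import Pool.Agent.H14F.RESL
import Pool.Agent.H14F.RESC
import Pool.Agent.H14F.RB

/-!
# Stub GOODL of project F6, part 1: the sieve in a lattice
-/

set_option autoImplicit false

namespace Pool.Agent.H14F.GoodlA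

open Finset

/-! ### Periodicity -/

lemma dvd_iff {m : ℤ} {a b : ℤ} (h : m ∣ a - b) : m ∣ a ↔ m ∣ b := (dvd_iff_dvd_of_dvd_sub h)

lemma disc_sub {m : ℤ} {f f' : Fin 3 → ℤ} (h : ∀ i, m ∣ f i - f' i) : m ∣ disc f - disc f' := by
  obtain ⟨a, ha⟩ := h 0
  obtain ⟨b, hb⟩ := h 1
  obtain ⟨c, hc⟩ := h 2
  have e0 : f 0 = f' 0 + m * a := by linarith
  have e1 : f 1 = f' 1 + m * b := by linarith
  have e2 : f 2 = f' 2 + m * c := by linarith
  unfold disc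
  rw [e0, e1, e2]
  exact ⟨b * (2 * f' 1 + m * b) - 4 * (a * (f' 2 + m * c) + f' 0 * c), by ring⟩

lemma res_sub {m : ℤ} {f f' g g' : Fin 3 → ℤ} (h : ∀ i, m ∣ f i - f' i) (hg : ∀ i, m ∣ g i - g' i) :
    m ∣ res f g - res f' g' := by
  have hE : ∀ i, (f i : ZMod m.natAbs) = f' i := fun i => by
    rw [ZMod.intCast_eq_intCast_iff_dvd_sub, Int.natAbs_dvd, ← dvd_neg, neg_sub]; exact h i
  have hG : ∀ i, (g i : ZMod m.natAbs) = g' i := fun i => by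
    rw [ZMod.intCast_eq_intCast_iff_dvd_sub, Int.natAbs_dvd, ← dvd_neg, neg_sub]; exact hg i
  rw [← Int.natAbs_dvd, ← ZMod.intCast_eq_intCast_iff_dvd_sub]
  unfold res
  push_cast
  rw [hE 0, hE 1, hE 2, hG 0, hG 1, hG 2]

lemma gen_eq {p : ℕ} {f f' : Fin 3 → ℤ} (s : ∀ i, (p : ℤ) ∣ f i - f' i) : gen p f = gen p f' := by
  have h1 : ∀ i, jacobiSym (f i) p = jacobiSym (f' i) p := fun i =>
    jacobiSym.mod_left' (Int.ModEq.symm ((Int.modEq_iff_dvd).2 (s i)))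
  unfold gen
  rw [h1 0, h1 2]
  have h2 := dvd_iff (s 0)
  by_cases h : (p : ℤ) ∣ f 0
  · rw [if_pos h, if_pos (h2.1 h)]
  · rw [if_neg h, if_neg (fun h' => h (h2.2 h'))]

lemma bad_iff {p : ℕ} (s : ℤ) {f f' g g' : Fin 3 → ℤ} (h : ∀ i, (p : ℤ) ^ 2 ∣ f i - f' i)
    (hg : ∀ i, (p : ℤ) ^ 2 ∣ g i - g' i) : Bad p s f g ↔ Bad p s f' g' := by
  have hp : (p : ℤ) ∣ (p : ℤ) ^ 2 := Dvd.intro _ (sq (p : ℤ)).symm
  have h1 : ∀ i, (p : ℤ) ∣ f i - f' i := fun i => hp.trans (h i)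
  have hg1 : ∀ i, (p : ℤ) ∣ g i - g' i := fun i => hp.trans (hg i)
  unfold Bad
  rw [dvd_iff (disc_sub h), dvd_iff (disc_sub h1), dvd_iff (res_sub h1 hg1), gen_eq h1]

lemma wt_eq {p : ℕ} (y : ℝ) (s : ℤ) {f f' g g' : Fin 3 → ℤ} (h : ∀ i, (p : ℤ) ^ 2 ∣ f i - f' i)
    (hg : ∀ i, (p : ℤ) ^ 2 ∣ g i - g' i) : wt y p s f g = wt y p s f' g' := by
  have hp : (p : ℤ) ∣ (p : ℤ) ^ 2 := Dvd.intro _ (sq (p : ℤ)).symm
  have h3 : ((p : ℤ) ∣ res f g) = ((p : ℤ) ∣ res f' g') :=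
    propext (dvd_iff (res_sub (fun i => hp.trans (h i)) fun i => hp.trans (hg i)))
  unfold wt
  rw [bad_iff s h hg, bad_iff s hg h]
  simp only [h3]

lemma wt_nonneg {p : ℕ} {y : ℝ} (hy : 0 ≤ y) (s : ℤ) (f g : Fin 3 → ℤ) : 0 ≤ wt y p s f g := by
  unfold wt
  split_ifs
  · exact le_rfl
  · exact hy
  · exact zero_le_one

lemma wt_le_one {p : ℕ} {y : ℝ} (hy : y ≤ 1) (s : ℤ) (f g : Fin 3 → ℤ) : wt y p s f g ≤ 1 := by
  unfold wt
  split_ifs
  · exact zero_le_one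
  · exact hy
  · exact le_rfl

lemma lin_sub (e : Fin 3 → Fin 3 → ℤ) {m : ℤ} {x x' : Fin 3 → ℤ} (h : ∀ i, m ∣ x i - x' i) (j : Fin 3) :
    m ∣ lin e x j - lin e x' j := by
  unfold lin
  rw [← Finset.sum_sub_distrib]
  refine Finset.dvd_sum fun i _ => ?_
  rw [← sub_mul]
  exact (h i).mul_right _

lemma wt_per (y : ℝ) (p : ℕ) (s : ℤ) : Per (p ^ 2) (fun f g => 1 - wt y p s f g) := by
  intro f f' g g' h hg
  push_cast at h hg
  change 1 - wt y p s f g = 1 - wt y p s f' g'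
  rw [wt_eq y s h hg]

lemma wtlin_per (y : ℝ) (p : ℕ) (s : ℤ) (e : Fin 3 → Fin 3 → ℤ) :
    Per (p ^ 2) (fun x x' => 1 - wt y p s (lin e x) (lin e x')) := by
  intro f f' g g' h hg
  push_cast at h hg
  change 1 - wt y p s (lin e f) (lin e g) = 1 - wt y p s (lin e f') (lin e g')
  rw [wt_eq y s (fun i => lin_sub e h i) (fun i => lin_sub e hg i)]

/-! ### The mean values -/

lemma mean_lin {p : ℕ} (hp : p.Prime) (y : ℝ) (s : ℤ) (e : Fin 3 → Fin 3 → ℤ)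
    (he : ¬ (p : ℤ) ∣ (Matrix.of e).det) :
    mean (p ^ 2) (fun x x' => 1 - wt y p s (lin e x) (lin e x')) =
      mean (p ^ 2) (fun f g => 1 - wt y p s f g) :=
  MI.t p e (fun f g => 1 - wt y p s f g) hp he (wt_per y p s)

/-! ### The reduction to the box of the coordinates -/

lemma lin_inj {e : Fin 3 → Fin 3 → ℤ} (he : (Matrix.of e).det ≠ 0) : Function.Injective (lin e) := by
  intro x x' h
  have h1 : Matrix.vecMul (x - x') (Matrix.of e) = 0 := by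
    rw [Matrix.sub_vecMul]
    exact sub_eq_zero.2 h
  exact sub_eq_zero.1 (Matrix.eq_zero_of_vecMul_eq_zero he h1)

lemma nrm_le {f : Fin 3 → ℤ} {H : ℕ} (hf : f ∈ box H) : nrm f ≤ H := by
  unfold box rbox at hf
  rw [Fintype.mem_piFinset] at hf
  unfold nrm
  refine Finset.sup_le fun i _ => ?_
  have : -(H : ℤ) ≤ f i ∧ f i ≤ H := Finset.mem_Icc.1 (hf i)
  omega

/-- sums over the lattice points of the box -/
lemma sum_le {C₀ δ δ' ρ H : ℕ} {e : Fin 3 → Fin 3 → ℤ} (hR : Rd C₀ δ δ' ρ e) (he : (Matrix.of e).det ≠ 0)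
    (hpos : ∀ i, 1 ≤ nrm (e i)) (F : (Fin 3 → ℤ) → ℝ) (hF : ∀ f, 0 ≤ F f) :
    (by classical exact ∑ f ∈ (box H).filter (Lat δ δ' ρ), F f) ≤
      ∑ x ∈ rbox (fun i => C₀ * H / nrm (e i)), F (lin e x) := by
  classical
  have h1 : (box H).filter (Lat δ δ' ρ) ⊆ (rbox (fun i => C₀ * H / nrm (e i))).image (lin e) := by
    intro f hf
    obtain ⟨hb, hl⟩ := Finset.mem_filter.1 hf
    obtain ⟨x, hx⟩ := (hR.lat f).1 hl
    refine Finset.mem_image.2 ⟨x, ?_, hx.symm⟩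
    unfold rbox
    rw [Fintype.mem_piFinset]
    intro i
    have h2 := hR.coord x i
    rw [← hx] at h2
    have h3 : (x i).natAbs * nrm (e i) ≤ C₀ * H := h2.trans (Nat.mul_le_mul_left _ (nrm_le hb))
    have h4 : (x i).natAbs ≤ C₀ * H / nrm (e i) := (Nat.le_div_iff_mul_le (hpos i)).2 h3
    rw [Finset.mem_Icc]
    change -((C₀ * H / nrm (e i) : ℕ) : ℤ) ≤ x i ∧ x i ≤ ((C₀ * H / nrm (e i) : ℕ) : ℤ)
    generalize C₀ * H / nrm (e i) = N at h4 ⊢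
    omega
  calc ∑ f ∈ (box H).filter (Lat δ δ' ρ), F f
      ≤ ∑ f ∈ (rbox (fun i => C₀ * H / nrm (e i))).image (lin e), F f :=
        Finset.sum_le_sum_of_subset_of_nonneg h1 fun f _ _ => hF f
    _ = _ := Finset.sum_image fun x _ x' _ h => lin_inj he h

lemma det_le (e : Fin 3 → Fin 3 → ℤ) :
    (Matrix.of e).det.natAbs ≤ 6 * (nrm (e 0) * nrm (e 1) * nrm (e 2)) := by
  have h : e = ![e 0, e 1, e 2] := by
    funext i
    fin_cases i <;> rfl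
  have h2 := RB.det_bound (e 0) (e 1) (e 2)
  rw [← h] at h2
  exact h2

open Classical in
theorem core {C₀ δ δ' ρ H z r M : ℕ} {t : ℤ} {e : Fin 3 → Fin 3 → ℤ} (hz : 24 ≤ z) (hr : Odd r)
    (hM : 1 ≤ M) (hzM : z ^ (2 * r) ≤ M) (ht : Squarefree t) (hd : δ * δ' = t.natAbs)
    (hR : Rd C₀ δ δ' ρ e) (heM : nrm (e 2) * M ≤ H) {B : ℝ} (hB : ∑ p ∈ P z, 4 / (p : ℝ) ≤ B) :
    0 ≤ ∏ p ∈ (P z).filter (fun p => ¬ p ∣ δ * δ'), (1 - bp p) ∧
    LS H z δ δ' ρ t ≤ ((162 * (C₀ : ℝ) ^ 3) * (H : ℝ) ^ 3 / ((δ : ℝ) * δ')) ^ 2 *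
      (∏ p ∈ (P z).filter (fun p => ¬ p ∣ δ * δ'), (1 - bp p) +
        Real.exp (-(r : ℝ)) * Real.exp (3 * B) + 64 * (z : ℝ) ^ (3 * r) / M) := by
  have ht0 : t ≠ 0 := ht.ne_zero
  have hd0 : 0 < δ * δ' := by rw [hd]; exact Int.natAbs_pos.2 ht0
  have hdet := hR.det
  have hdet0 : (Matrix.of e).det ≠ 0 := by
    rw [← Int.natAbs_pos, hdet]; exact hd0
  have hdl := det_le e
  rw [hdet] at hdl
  have hprod0 : 0 < nrm (e 0) * nrm (e 1) * nrm (e 2) := by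
    rcases Nat.eq_zero_or_pos (nrm (e 0) * nrm (e 1) * nrm (e 2)) with h | h
    · rw [h] at hdl; omega
    · exact h
  have h00 : 0 < nrm (e 0) := Nat.pos_of_mul_pos_right (Nat.pos_of_mul_pos_right hprod0)
  have h01 : 0 < nrm (e 1) := Nat.pos_of_mul_pos_left (Nat.pos_of_mul_pos_right hprod0)
  have h02 : 0 < nrm (e 2) := Nat.pos_of_mul_pos_left hprod0
  have hpos : ∀ i, 1 ≤ nrm (e i) := by
    intro i
    fin_cases i
    · exact h00
    · exact h01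
    · exact h02
  have hle2 : ∀ i, nrm (e i) ≤ nrm (e 2) := by
    intro i
    fin_cases i
    · exact hR.le₁.trans hR.le₂
    · exact hR.le₂
    · exact le_rfl
  have hC₀ : 1 ≤ C₀ := by
    have h1 := hR.prod
    rcases Nat.eq_zero_or_pos C₀ with h | h
    · rw [h, zero_mul] at h1; omega
    · exact h
  set T := (P z).filter (fun p => ¬ p ∣ δ * δ') with hT
  set N : Fin 3 → ℕ := fun i => C₀ * H / nrm (e i) with hN
  set u : ℕ → (Fin 3 → ℤ) → (Fin 3 → ℤ) → ℝ := fun p x x' =>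
    1 - wt (18 / 25) p (jacobiSym t p) (lin e x) (lin e x') with hu
  have hTp : ∀ p ∈ T, p.Prime ∧ 24 ≤ p ∧ p ≤ z ∧ ¬ (p : ℤ) ∣ t := by
    intro p hp
    obtain ⟨h1, h2⟩ := Finset.mem_filter.1 hp
    obtain ⟨h3, h4, h5⟩ := MER.mem_P h1
    refine ⟨h5, h3, h4, fun h => h2 ?_⟩
    rw [hd]
    exact Int.natCast_dvd.1 h
  have hJ : ∀ p ∈ T, jacobiSym t p = 1 ∨ jacobiSym t p = -1 := by
    intro p hp
    obtain ⟨h1, -, -, h4⟩ := hTp p hp
    apply jacobiSym.eq_one_or_neg_one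
    have h5 : IsCoprime (p : ℤ) t := (Int.prime_iff_natAbs_prime.2 (by simpa using h1)).coprime_iff_not_dvd.2 h4
    rw [Int.gcd_comm]
    exact Int.isCoprime_iff_gcd_eq_one.1 h5
  have hmean : ∀ p ∈ T, mean (p ^ 2) (u p) =
      mean (p ^ 2) (fun f g => 1 - wt (18 / 25) p (jacobiSym t p) f g) := by
    intro p hp
    obtain ⟨h1, -, -, h4⟩ := hTp p hp
    refine mean_lin h1 _ _ e fun h => h4 ?_
    have h5 : (p : ℤ) ∣ ((Matrix.of e).det.natAbs : ℤ) := Int.dvd_natAbs.2 h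
    rw [hdet, hd] at h5
    exact Int.dvd_natAbs.1 h5
  have hmL : ∀ p ∈ T, bp p ≤ mean (p ^ 2) (u p) := by
    intro p hp
    obtain ⟨h1, h2, -, -⟩ := hTp p hp
    rw [hmean p hp]
    have := MEANL.t DISC.t E1C.t DRC.t RESL.t p (jacobiSym t p) (18 / 25) h1 (by omega) (hJ p hp)
      (by norm_num) (by norm_num)
    refine le_trans (le_of_eq ?_) this
    unfold bp
    norm_num
  have hmU : ∀ p ∈ T, mean (p ^ 2) (u p) ≤ 4 / (p : ℝ) := by
    intro p hp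
    obtain ⟨h1, h2, -, -⟩ := hTp p hp
    rw [hmean p hp]
    exact MEANU.t DISC.t RESC.t p (jacobiSym t p) (18 / 25) h1 (by omega) (hJ p hp)
      (by norm_num) (by norm_num)
  have hm1 : ∀ p ∈ T, 0 ≤ 1 - mean (p ^ 2) (u p) := by
    intro p hp
    have h1 := hmU p hp
    obtain ⟨-, h2, -, -⟩ := hTp p hp
    have h3 : (24 : ℝ) ≤ p := by exact_mod_cast h2
    have h4 : 4 / (p : ℝ) ≤ 1 := by rw [div_le_one (by linarith)]; linarith
    linarith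
  have hprodle : ∏ p ∈ T, (1 - mean (p ^ 2) (u p)) ≤ ∏ p ∈ T, (1 - bp p) :=
    Finset.prod_le_prod hm1 fun p hp => by linarith [hmL p hp]
  have hprodnn : 0 ≤ ∏ p ∈ T, (1 - bp p) :=
    Finset.prod_nonneg fun p hp => by linarith [hmL p hp, hm1 p hp]
  have hw : ∀ (p : ℕ) (f g : Fin 3 → ℤ), 0 ≤ wt (18 / 25) p (jacobiSym t p) f g := fun p f g =>
    wt_nonneg (by norm_num) _ f g
  have hw1 : ∀ (p : ℕ) (f g : Fin 3 → ℤ), wt (18 / 25) p (jacobiSym t p) f g ≤ 1 := fun p f g =>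
    wt_le_one (by norm_num) _ f g
  have h1 : LS H z δ δ' ρ t ≤ ∑ x ∈ rbox N, ∑ x' ∈ rbox N, ∏ p ∈ T, (1 - u p x x') := by
    have e1 : ∀ x x', ∏ p ∈ T, (1 - u p x x') =
        ∏ p ∈ T, wt (18 / 25) p (jacobiSym t p) (lin e x) (lin e x') := by
      intro x x'
      refine Finset.prod_congr rfl fun p _ => ?_
      rw [hu]
      ring
    simp only [e1]
    unfold LS
    refine (sum_le hR hdet0 hpos (fun f => ∑ g ∈ (box H).filter (Lat δ δ' ρ),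
      ∏ p ∈ T, wt (18 / 25) p (jacobiSym t p) f g)
      (fun f => Finset.sum_nonneg fun g _ => Finset.prod_nonneg fun p _ => hw p f g)).trans ?_
    refine Finset.sum_le_sum fun x _ => ?_
    exact sum_le hR hdet0 hpos (fun g => ∏ p ∈ T, wt (18 / 25) p (jacobiSym t p) (lin e x) g)
      (fun g => Finset.prod_nonneg fun p _ => hw p _ g)
  have hHM : ∀ i, M ≤ N i := by
    intro i
    rw [hN]
    refine (Nat.le_div_iff_mul_le (hpos i)).2 ?_
    calc M * nrm (e i) ≤ M * nrm (e 2) := Nat.mul_le_mul_left _ (hle2 i)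
      _ = nrm (e 2) * M := Nat.mul_comm _ _
      _ ≤ H := heM
      _ ≤ C₀ * H := Nat.le_mul_of_pos_left _ hC₀
  have hbrun := BRUN.t T z r M N (Real.exp 1) u (by omega) hr (Real.exp_pos 1)
    (fun p hp => ⟨(hTp p hp).1, (hTp p hp).2.2.1⟩)
    (fun p hp => wtlin_per _ p _ e)
    (fun p hp f g => ⟨by rw [hu]; linarith [hw1 p (lin e f) (lin e g)],
      by rw [hu]; linarith [hw p (lin e f) (lin e g)]⟩) hHM hM hzM
  have hexp : (Real.exp 1)⁻¹ ^ r = Real.exp (-(r : ℝ)) := by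
    rw [← Real.exp_neg, ← Real.exp_nat_mul]
    congr 1
    ring
  have hsum : Real.exp (Real.exp 1 * ∑ p ∈ T, mean (p ^ 2) (u p)) ≤ Real.exp (3 * B) := by
    apply Real.exp_le_exp.2
    have h2 : ∑ p ∈ T, mean (p ^ 2) (u p) ≤ ∑ p ∈ P z, 4 / (p : ℝ) := by
      refine (Finset.sum_le_sum hmU).trans ?_
      exact Finset.sum_le_sum_of_subset_of_nonneg (Finset.filter_subset _ _) fun p _ _ => by positivity
    have h3 : (0 : ℝ) ≤ ∑ p ∈ P z, 4 / (p : ℝ) := Finset.sum_nonneg fun p _ => by positivity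
    have h4 := Real.exp_one_lt_d9
    have h5 : Real.exp 1 * ∑ p ∈ T, mean (p ^ 2) (u p) ≤ Real.exp 1 * ∑ p ∈ P z, 4 / (p : ℝ) :=
      mul_le_mul_of_nonneg_left h2 (Real.exp_pos 1).le
    have h6 : Real.exp 1 * ∑ p ∈ P z, 4 / (p : ℝ) ≤ 3 * ∑ p ∈ P z, 4 / (p : ℝ) :=
      mul_le_mul_of_nonneg_right (by linarith) h3
    linarith
  have hNi : ∀ i, 2 * (N i : ℝ) + 1 ≤ 3 * (C₀ * H / nrm (e i)) := by
    intro i
    have h2 : (N i : ℝ) ≤ C₀ * H / nrm (e i) := by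
      have := @Nat.cast_div_le ℝ _ _ _ (C₀ * H) (nrm (e i))
      push_cast at this
      exact this
    have hn : (0 : ℝ) < nrm (e i) := by exact_mod_cast hpos i
    have h3 : (1 : ℝ) ≤ C₀ * H / nrm (e i) := by
      rw [le_div_iff₀ hn, one_mul]
      have h4 : nrm (e i) ≤ C₀ * H := by
        calc nrm (e i) ≤ nrm (e 2) := hle2 i
          _ ≤ nrm (e 2) * M := Nat.le_mul_of_pos_right _ hM
          _ ≤ H := heM
          _ ≤ C₀ * H := Nat.le_mul_of_pos_left _ hC₀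
      exact_mod_cast h4
    linarith
  have hbox : ∏ i, (2 * (N i : ℝ) + 1) ≤ (162 * (C₀ : ℝ) ^ 3) * (H : ℝ) ^ 3 / ((δ : ℝ) * δ') := by
    rw [Fin.prod_univ_three]
    have a0 : (0 : ℝ) < nrm (e 0) := by exact_mod_cast hpos 0
    have a1 : (0 : ℝ) < nrm (e 1) := by exact_mod_cast hpos 1
    have a2 : (0 : ℝ) < nrm (e 2) := by exact_mod_cast hpos 2
    have hdr : (0 : ℝ) < (δ : ℝ) * δ' := by exact_mod_cast hd0
    calc (2 * (N 0 : ℝ) + 1) * (2 * (N 1 : ℝ) + 1) * (2 * (N 2 : ℝ) + 1)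
        ≤ (3 * (C₀ * H / nrm (e 0))) * (3 * (C₀ * H / nrm (e 1))) * (3 * (C₀ * H / nrm (e 2))) := by
          gcongr
          · exact hNi 0
          · exact hNi 1
          · exact hNi 2
      _ = 27 * (C₀ : ℝ) ^ 3 * (H : ℝ) ^ 3 / ((nrm (e 0) : ℝ) * nrm (e 1) * nrm (e 2)) := by
          field_simp
          ring
      _ ≤ _ := by
          rw [div_le_div_iff₀ (by positivity) hdr]
          have h5 : ((δ : ℝ) * δ') ≤ 6 * ((nrm (e 0) : ℝ) * nrm (e 1) * nrm (e 2)) := by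
            exact_mod_cast hdl
          have h6 : (0 : ℝ) ≤ 27 * (C₀ : ℝ) ^ 3 * (H : ℝ) ^ 3 := by positivity
          nlinarith [mul_le_mul_of_nonneg_left h5 h6]
  refine ⟨hprodnn, (h1.trans hbrun).trans ?_⟩
  rw [hexp]
  have hbn : 0 ≤ ∏ i, (2 * (N i : ℝ) + 1) := Finset.prod_nonneg fun i _ => by positivity
  have hE : 0 ≤ Real.exp (-(r : ℝ)) := (Real.exp_pos _).le
  refine mul_le_mul (pow_le_pow_left₀ hbn hbox 2) ?_
    (add_nonneg (add_nonneg (Finset.prod_nonneg hm1) (by positivity)) (by positivity)) (by positivity)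
  have h7 := mul_le_mul_of_nonneg_left hsum hE
  linarith

end Pool.Agent.H14F.GoodlA
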