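import Pool.Agent.H14F.StmB
import Pool.Agent.H14F.GoodlA

/-!
# Stub GOODL of project F6: the sieve in a lattice
-/

set_option autoImplicit false

namespace Pool.Agent.H14F.GOODL

open Finset Filter Topology

lemma ev_conditions : ∃ H₀ : ℕ, ∀ H : ℕ, H₀ ≤ H → 10 ≤ Real.log H ∧ 1 ≤ Real.log (Real.log H) ∧
    8000 * Real.log (Real.log H) ≤ Real.log H ∧
    128 * Real.log H ^ 2 ≤ Real.exp (149 / 2000 * Real.log H) := by
  have ht : Tendsto (fun H : ℕ => Real.log (H : ℝ)) atTop atTop :=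
    Real.tendsto_log_atTop.comp tendsto_natCast_atTop_atTop
  have h0 : ∀ᶠ L : ℝ in atTop, 10 ≤ L := eventually_ge_atTop 10
  have h1 : ∀ᶠ L : ℝ in atTop, 1 ≤ Real.log L := Real.tendsto_log_atTop.eventually_ge_atTop 1
  have h2 := Real.isLittleO_log_id_atTop.bound (by norm_num : (0 : ℝ) < 1 / 8000)
  have h3 := (isLittleO_pow_exp_pos_mul_atTop (k := 2) (by norm_num : (0 : ℝ) < 149 / 2000)).bound
    (by norm_num : (0 : ℝ) < 1 / 128)
  have h4 := ht.eventually (h0.and (h1.and (h2.and h3)))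
  obtain ⟨H₀, hH⟩ := eventually_atTop.1 h4
  refine ⟨H₀, fun H h => ?_⟩
  obtain ⟨a, b, c, d⟩ := hH H h
  refine ⟨a, b, ?_, ?_⟩
  · rw [Real.norm_of_nonneg (by linarith), id_eq, Real.norm_of_nonneg (by linarith)] at c
    linarith
  · rw [Real.norm_of_nonneg (by positivity), Real.norm_of_nonneg (by positivity)] at d
    linarith

open Classical in
theorem t : Pool.Agent.H14F.GOODL := by
  intro C₀
  obtain ⟨Cm, hCm, hmer⟩ := MER.t
  obtain ⟨H₀, hH₀⟩ := ev_conditions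
  refine ⟨(162 * (C₀ : ℝ) ^ 3) ^ 2 * (Real.exp (3 * Cm) + 1) + 1, H₀, by positivity, ?_⟩
  intro H δ δ' ρ t e hH ht hd hR heH
  obtain ⟨c1, c2, c3, c4⟩ := hH₀ H hH
  set L := Real.log H with hL
  set ℓ := Real.log L with hℓ
  have hL0 : 0 < L := by linarith
  have hℓ0 : 0 < ℓ := by linarith
  have hH0 : (0 : ℝ) < H := by
    rcases Nat.eq_zero_or_pos H with h | h
    · rw [hL, h, Nat.cast_zero, Real.log_zero] at c1; linarith
    · exact_mod_cast h
  have hrp : (H : ℝ) ^ ((1 : ℝ) / 10) = Real.exp (L / 10) := by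
    rw [Real.rpow_def_of_pos hH0, ← hL]
    congr 1; ring
  -- the sieving limit
  have hq : 4 ≤ L / (2000 * ℓ) := by
    rw [le_div_iff₀ (by positivity)]; linarith
  have he4 : (24 : ℝ) ≤ Real.exp (L / (2000 * ℓ)) := by
    have h1 : Real.exp 4 ≤ Real.exp (L / (2000 * ℓ)) := Real.exp_le_exp.2 hq
    have h2 : Real.exp 4 = Real.exp 1 ^ 4 := by rw [← Real.exp_nat_mul]; norm_num
    have h3 := Real.exp_one_gt_d9
    have h4 : (2.7 : ℝ) ^ 4 ≤ Real.exp 1 ^ 4 := pow_le_pow_left₀ (by norm_num) (by linarith) 4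
    norm_num at h4
    linarith
  have hz : 24 ≤ zf H := Nat.le_floor (by exact_mod_cast he4)
  have hzle : (zf H : ℝ) ≤ Real.exp (L / (2000 * ℓ)) := Nat.floor_le (Real.exp_pos _).le
  have hz0 : (24 : ℝ) ≤ zf H := by exact_mod_cast hz
  have hlogz : Real.log (zf H) ≤ L / (2000 * ℓ) := by
    rw [Real.log_le_iff_le_exp (by linarith)]; exact hzle
  have hlogz0 : 0 < Real.log (zf H) := Real.log_pos (by linarith)
  have hll : Real.log (Real.log (zf H)) ≤ ℓ := by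
    apply Real.log_le_log hlogz0
    refine hlogz.trans ?_
    rw [div_le_iff₀ (by positivity)]
    nlinarith
  -- the number r
  set r := 2 * ⌈7 * ℓ⌉₊ + 1 with hr
  have hr1 : 14 * ℓ ≤ r := by
    have := Nat.le_ceil (7 * ℓ)
    rw [hr]; push_cast; linarith
  have hr2 : (r : ℝ) ≤ 17 * ℓ := by
    have := (Nat.ceil_lt_add_one (by positivity : (0 : ℝ) ≤ 7 * ℓ)).le
    rw [hr]; push_cast; linarith
  have hpow : ∀ k : ℕ, ((zf H : ℝ)) ^ (k * r) ≤ Real.exp (k * 17 / 2000 * L) := by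
    intro k
    calc ((zf H : ℝ)) ^ (k * r) ≤ Real.exp (L / (2000 * ℓ)) ^ (k * r) :=
          pow_le_pow_left₀ (by positivity) hzle _
      _ = Real.exp ((k * r : ℕ) * (L / (2000 * ℓ))) := by rw [← Real.exp_nat_mul]
      _ ≤ _ := by
          apply Real.exp_le_exp.2
          push_cast
          have h1 : (k : ℝ) * r * (L / (2000 * ℓ)) ≤ (k : ℝ) * (17 * ℓ) * (L / (2000 * ℓ)) := by
            gcongr
          refine h1.trans (le_of_eq ?_)
          field_simp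
  -- M
  have hexp2 : (2 : ℝ) ≤ Real.exp (L / 10) := by
    have h1 : Real.exp 1 ≤ Real.exp (L / 10) := Real.exp_le_exp.2 (by linarith)
    have h3 := Real.exp_one_gt_d9
    linarith
  have hM : 1 ≤ Zf H := by
    unfold Zf
    rw [hrp]
    exact Nat.le_floor (by push_cast; linarith)
  have hMhalf : Real.exp (L / 10) / 2 ≤ Zf H := by
    unfold Zf
    rw [hrp]
    have := Nat.sub_one_lt_floor (Real.exp (L / 10))
    linarith
  have hzM : zf H ^ (2 * r) ≤ Zf H := by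
    have h1 : zf H ^ (2 * r) ≤ ⌊Real.exp (L / 10)⌋₊ := by
      refine Nat.le_floor ?_
      push_cast
      refine (hpow 2).trans (Real.exp_le_exp.2 ?_)
      push_cast
      linarith
    unfold Zf
    rw [hrp]
    exact h1
  have hB : ∑ p ∈ P (zf H), 4 / (p : ℝ) ≤ 4 * ℓ + Cm := by
    have := (hmer (zf H) hz).2.2
    linarith
  obtain ⟨k1, k2⟩ := GoodlA.core hz (⟨⌈7 * ℓ⌉₊, rfl⟩ : Odd r) hM hzM ht hd hR heH hB
  have hL2 : L ^ (-(2 : ℝ)) = Real.exp (-(2 * ℓ)) := by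
    rw [Real.rpow_def_of_pos hL0, ← hℓ]
    congr 1; ring
  have hE1 : Real.exp (-(r : ℝ)) * Real.exp (3 * (4 * ℓ + Cm)) ≤ Real.exp (3 * Cm) * L ^ (-(2 : ℝ)) := by
    rw [hL2, ← Real.exp_add, ← Real.exp_add]
    apply Real.exp_le_exp.2
    linarith
  have hE2 : 64 * (zf H : ℝ) ^ (3 * r) / Zf H ≤ L ^ (-(2 : ℝ)) := by
    have hM0 : (0 : ℝ) < Zf H := by exact_mod_cast hM
    rw [div_le_iff₀ hM0]
    have h1 := hpow 3
    have hLL : L ^ (-(2 : ℝ)) = 1 / L ^ 2 := by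
      rw [Real.rpow_neg hL0.le, one_div]
      norm_num
    rw [hLL]
    have h2 : 64 * Real.exp (3 * 17 / 2000 * L) ≤ 1 / L ^ 2 * (Real.exp (L / 10) / 2) := by
      have h3 : Real.exp (L / 10) = Real.exp (149 / 2000 * L) * Real.exp (3 * 17 / 2000 * L) := by
        rw [← Real.exp_add]; congr 1; ring
      rw [h3, one_div, ← div_eq_inv_mul, le_div_iff₀ (by positivity)]
      have h4 := mul_le_mul_of_nonneg_right c4 (Real.exp_pos (3 * 17 / 2000 * L)).le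
      nlinarith
    have h5 : 1 / L ^ 2 * (Real.exp (L / 10) / 2) ≤ 1 / L ^ 2 * Zf H :=
      mul_le_mul_of_nonneg_left hMhalf (by positivity)
    push_cast at h1
    linarith
  have hLnn : 0 ≤ L ^ (-(2 : ℝ)) := Real.rpow_nonneg hL0.le _
  set Q := ∏ p ∈ (P (zf H)).filter (fun p => ¬ p ∣ δ * δ'), (1 - bp p) with hQ
  have hD : (0 : ℝ) ≤ (H : ℝ) ^ 6 / ((δ : ℝ) * δ') ^ 2 := by positivity
  calc LS H (zf H) δ δ' ρ t ≤ _ := k2
    _ ≤ ((162 * (C₀ : ℝ) ^ 3) * (H : ℝ) ^ 3 / ((δ : ℝ) * δ')) ^ 2 *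
        ((Real.exp (3 * Cm) + 1) * (Q + L ^ (-(2 : ℝ)))) := by
        apply mul_le_mul_of_nonneg_left _ (by positivity)
        have h6 : 0 ≤ Real.exp (3 * Cm) * Q := mul_nonneg (Real.exp_pos _).le k1
        nlinarith
    _ = (162 * (C₀ : ℝ) ^ 3) ^ 2 * (Real.exp (3 * Cm) + 1) * ((H : ℝ) ^ 6 / ((δ : ℝ) * δ') ^ 2 *
        (Q + L ^ (-(2 : ℝ)))) := by ring
    _ ≤ ((162 * (C₀ : ℝ) ^ 3) ^ 2 * (Real.exp (3 * Cm) + 1) + 1) * ((H : ℝ) ^ 6 / ((δ : ℝ) * δ') ^ 2 *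
        (Q + L ^ (-(2 : ℝ)))) := by
        apply mul_le_mul_of_nonneg_right _ (mul_nonneg hD (add_nonneg k1 hLnn))
        linarith
    _ = _ := by ring

end Pool.Agent.H14F.GOODL
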