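import Pool.Agent.H14F.Stm

/-!
# Project F6: the stub SKEW
-/

set_option autoImplicit false

namespace Pool.Agent.H14F.SKEW

open Finset

/-- The divisor bound `d(n) ≤ C n^δ`. -/
lemma divisor_bound (δ : ℝ) (hδ : 0 < δ) :
    ∃ C : ℝ, 0 < C ∧ ∀ n : ℕ, n ≠ 0 → ((n.divisors.card : ℕ) : ℝ) ≤ C * (n : ℝ) ^ δ := by
  have hlog : 0 < Real.log 2 := Real.log_pos (by norm_num)
  have hδl : 0 < δ * Real.log 2 := mul_pos hδ hlog
  set M : ℝ := max 1 (1 / (δ * Real.log 2)) with hM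
  have hM1 : 1 ≤ M := le_max_left _ _
  have hM2 : 1 ≤ M * (δ * Real.log 2) := by
    have : 1 / (δ * Real.log 2) ≤ M := le_max_right _ _
    calc (1 : ℝ) = 1 / (δ * Real.log 2) * (δ * Real.log 2) := by
          field_simp
      _ ≤ M * (δ * Real.log 2) := mul_le_mul_of_nonneg_right this hδl.le
  set K : ℕ := ⌈(2 : ℝ) ^ (1 / δ)⌉₊ with hK
  have hKle : (2 : ℝ) ^ (1 / δ) ≤ (K : ℝ) := Nat.le_ceil _
  refine ⟨M ^ K, by positivity, ?_⟩
  intro n hn
  have hbase : ∀ p ∈ n.primeFactors, (((n.factorization p + 1 : ℕ)) : ℝ) ≤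
      (if p < K then M else 1) * (((p : ℝ) ^ (n.factorization p)) ^ δ) := by
    intro p hp
    have hpp : p.Prime := Nat.prime_of_mem_primeFactors hp
    set a := n.factorization p with ha
    have hp2 : (2 : ℝ) ≤ (p : ℝ) := by exact_mod_cast hpp.two_le
    have hp0 : (0 : ℝ) ≤ (p : ℝ) := by positivity
    have hpow : (((p : ℝ) ^ a) ^ δ) = ((p : ℝ) ^ δ) ^ a := by
      rw [← Real.rpow_natCast (p : ℝ) a, ← Real.rpow_mul hp0, ← Real.rpow_natCast ((p : ℝ) ^ δ) a,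
        ← Real.rpow_mul hp0, mul_comm]
    rw [hpow]
    split_ifs with hlt
    · have h1 : (2 : ℝ) ^ δ ≤ (p : ℝ) ^ δ := Real.rpow_le_rpow (by norm_num) hp2 hδ.le
      have h2 : ((2 : ℝ) ^ δ) ^ a ≤ ((p : ℝ) ^ δ) ^ a :=
        pow_le_pow_left₀ (by positivity) h1 a
      have h3 : 1 + (a : ℝ) * (δ * Real.log 2) ≤ ((2 : ℝ) ^ δ) ^ a := by
        have : ((2 : ℝ) ^ δ) ^ a = Real.exp ((a : ℝ) * (δ * Real.log 2)) := by
          rw [← Real.rpow_natCast, ← Real.rpow_mul (by norm_num), Real.rpow_def_of_pos (by norm_num)]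
          congr 1; ring
        rw [this]
        have := Real.add_one_le_exp ((a : ℝ) * (δ * Real.log 2))
        linarith
      have h4 : (((a + 1 : ℕ)) : ℝ) ≤ M * (1 + (a : ℝ) * (δ * Real.log 2)) := by
        push_cast
        have ha0 : (0 : ℝ) ≤ (a : ℝ) := by positivity
        nlinarith [mul_le_mul_of_nonneg_left hM2 ha0]
      calc (((a + 1 : ℕ)) : ℝ) ≤ M * (1 + (a : ℝ) * (δ * Real.log 2)) := h4
        _ ≤ M * (((p : ℝ) ^ δ) ^ a) :=
          mul_le_mul_of_nonneg_left (h3.trans h2) (by linarith)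
    · have hKp : (K : ℝ) ≤ (p : ℝ) := by exact_mod_cast not_lt.mp hlt
      have h1 : (2 : ℝ) ≤ (p : ℝ) ^ δ := by
        have h5 : ((2 : ℝ) ^ (1 / δ)) ^ δ ≤ (p : ℝ) ^ δ :=
          Real.rpow_le_rpow (by positivity) (hKle.trans hKp) hδ.le
        have h6 : ((2 : ℝ) ^ (1 / δ)) ^ δ = 2 := by
          rw [← Real.rpow_mul (by norm_num)]
          rw [one_div, inv_mul_cancel₀ hδ.ne', Real.rpow_one]
        rwa [h6] at h5
      have h2 : (2 : ℝ) ^ a ≤ ((p : ℝ) ^ δ) ^ a := pow_le_pow_left₀ (by norm_num) h1 a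
      have h3 : (((a + 1 : ℕ)) : ℝ) ≤ (2 : ℝ) ^ a := by
        have : a + 1 ≤ 2 ^ a := Nat.lt_two_pow_self
        exact_mod_cast this
      rw [one_mul]
      exact h3.trans h2
  have hn' : (n : ℝ) ^ δ = ∏ p ∈ n.primeFactors, (((p : ℝ) ^ (n.factorization p)) ^ δ) := by
    rw [Real.finsetProd_rpow _ _ (fun i _ => by positivity)]
    congr 1
    have := Nat.prod_factorization_pow_eq_self hn
    conv_lhs => rw [← this]
    rw [Finsupp.prod]
    push_cast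
    rfl
  rw [Nat.card_divisors hn]
  push_cast
  calc (∏ p ∈ n.primeFactors, ((n.factorization p : ℝ) + 1))
      ≤ ∏ p ∈ n.primeFactors, ((if p < K then M else 1) * (((p : ℝ) ^ (n.factorization p)) ^ δ)) := by
        apply Finset.prod_le_prod
        · intro i _; positivity
        · intro i hi
          have := hbase i hi
          push_cast at this
          exact this
    _ = (∏ p ∈ n.primeFactors, (if p < K then M else 1)) * (n : ℝ) ^ δ := by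
        rw [Finset.prod_mul_distrib, hn']
    _ ≤ M ^ K * (n : ℝ) ^ δ := by
        apply mul_le_mul_of_nonneg_right _ (by positivity)
        rw [Finset.prod_ite, Finset.prod_const, Finset.prod_const_one, mul_one]
        apply pow_le_pow_right₀ hM1
        calc (n.primeFactors.filter (fun p => p < K)).card ≤ (Finset.range K).card := by
              apply Finset.card_le_card
              intro x hx
              simp only [Finset.mem_filter] at hx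
              exact Finset.mem_range.mpr hx.2
          _ = K := Finset.card_range K

theorem mem_box {M : ℕ} {n : Fin 3 → ℤ} : n ∈ box M ↔ ∀ i, (n i).natAbs ≤ M := by
  unfold box rbox
  rw [Fintype.mem_piFinset]
  refine forall_congr' fun i => ?_
  rw [Finset.mem_Icc]
  show -(M : ℤ) ≤ n i ∧ n i ≤ (M : ℤ) ↔ _
  omega

theorem nrm_le {M : ℕ} {n : Fin 3 → ℤ} : nrm n ≤ M ↔ n ∈ box M := by
  rw [mem_box]
  unfold nrm
  rw [Finset.sup_le_iff]
  simp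

theorem le_nrm (n : Fin 3 → ℤ) (i : Fin 3) : (n i).natAbs ≤ nrm n := by
  unfold nrm
  exact Finset.le_sup (f := fun i => (n i).natAbs) (Finset.mem_univ i)

theorem card_box (M : ℕ) : (box M).card = (2 * M + 1) ^ 3 := by
  unfold box rbox
  rw [Fintype.card_piFinset]
  simp only [Int.card_Icc, Finset.prod_const, Finset.card_univ, Fintype.card_fin]
  congr 1
  omega

/-- shells in dimension three -/
theorem shell3 (k : ℕ) (hk : 1 ≤ k) (M : ℕ) :
    ((box M).filter fun n => nrm n = k).card ≤ 26 * k ^ 2 := by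
  obtain ⟨j, rfl⟩ : ∃ j, k = j + 1 := ⟨k - 1, by omega⟩
  have h1 : ((box M).filter fun n => nrm n = j + 1) ⊆ box (j + 1) \ box j := by
    intro n hn
    rw [Finset.mem_filter] at hn
    rw [Finset.mem_sdiff, ← nrm_le, ← nrm_le]
    omega
  have h2 : box j ⊆ box (j + 1) := by
    intro n hn
    rw [← nrm_le] at hn ⊢
    omega
  refine (Finset.card_le_card h1).trans ?_
  rw [Finset.card_sdiff_of_subset h2, card_box, card_box]
  rw [Nat.sub_le_iff_le_add]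
  have h3 : 26 * (j + 1) ^ 2 + (2 * j + 1) ^ 3 = (2 * (j + 1) + 1) ^ 3 + 2 * j ^ 2 + 4 * j := by ring
  omega

theorem sum3 (M : ℕ) : ∑ n ∈ (box M).filter (fun n => 1 ≤ nrm n), 1 / (nrm n : ℝ) ^ 2 ≤ 26 * (M : ℝ) := by
  have h0 : ∀ n ∈ (box M).filter (fun n => 1 ≤ nrm n), nrm n ∈ Icc 1 M := by
    intro n hn
    rw [Finset.mem_filter, ← nrm_le] at hn
    rw [Finset.mem_Icc]
    exact ⟨hn.2, hn.1⟩
  rw [← Finset.sum_fiberwise_of_maps_to h0]
  calc ∑ k ∈ Icc 1 M, ∑ n ∈ ((box M).filter (fun n => 1 ≤ nrm n)).filter (fun n => nrm n = k),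
        1 / (nrm n : ℝ) ^ 2
      ≤ ∑ k ∈ Icc 1 M, (26 : ℝ) := by
        refine Finset.sum_le_sum fun k hk => ?_
        rw [Finset.mem_Icc] at hk
        have h1 : ∑ n ∈ ((box M).filter (fun n => 1 ≤ nrm n)).filter (fun n => nrm n = k),
            1 / (nrm n : ℝ) ^ 2 = ∑ n ∈ ((box M).filter (fun n => 1 ≤ nrm n)).filter (fun n => nrm n = k),
            1 / (k : ℝ) ^ 2 := by
          refine Finset.sum_congr rfl fun n hn => ?_
          rw [(Finset.mem_filter.1 hn).2]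
        rw [h1, Finset.sum_const, nsmul_eq_mul]
        have h2 : ((((box M).filter (fun n => 1 ≤ nrm n)).filter (fun n => nrm n = k)).card : ℝ)
            ≤ 26 * (k : ℝ) ^ 2 := by
          have h3 : (((box M).filter (fun n => 1 ≤ nrm n)).filter (fun n => nrm n = k)).card ≤
              ((box M).filter fun n => nrm n = k).card := by
            apply Finset.card_le_card
            intro n hn
            rw [Finset.mem_filter, Finset.mem_filter] at hn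
            exact Finset.mem_filter.2 ⟨hn.1.1, hn.2⟩
          exact_mod_cast h3.trans (shell3 k hk.1 M)
        have hk0 : (0 : ℝ) < (k : ℝ) ^ 2 := by
          have : (0 : ℝ) < (k : ℝ) := by exact_mod_cast hk.1
          positivity
        calc _ ≤ 26 * (k : ℝ) ^ 2 * (1 / (k : ℝ) ^ 2) := by gcongr
          _ = 26 := by
            rw [mul_one_div, mul_div_assoc, div_self hk0.ne', mul_one]
    _ = 26 * (M : ℝ) := by
        rw [Finset.sum_const, nsmul_eq_mul, Nat.card_Icc]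
        simp [mul_comm]

/-- shells in dimension two -/
theorem shell2 (k : ℕ) (hk : 1 ≤ k) (S : Finset (ℤ × ℤ)) (hS : ∀ x ∈ S, max x.1.natAbs x.2.natAbs = k) :
    S.card ≤ 8 * k := by
  obtain ⟨j, rfl⟩ : ∃ j, k = j + 1 := ⟨k - 1, by omega⟩
  have h1 : S ⊆ (Icc (-((j + 1 : ℕ) : ℤ)) ((j + 1 : ℕ) : ℤ) ×ˢ Icc (-((j + 1 : ℕ) : ℤ)) ((j + 1 : ℕ) : ℤ)) \
      (Icc (-((j : ℕ) : ℤ)) ((j : ℕ) : ℤ) ×ˢ Icc (-((j : ℕ) : ℤ)) ((j : ℕ) : ℤ)) := by
    intro x hx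
    have := hS x hx
    simp only [Finset.mem_sdiff, Finset.mem_product, Finset.mem_Icc]
    omega
  have h2 : (Icc (-((j : ℕ) : ℤ)) ((j : ℕ) : ℤ) ×ˢ Icc (-((j : ℕ) : ℤ)) ((j : ℕ) : ℤ)) ⊆
      (Icc (-((j + 1 : ℕ) : ℤ)) ((j + 1 : ℕ) : ℤ) ×ˢ Icc (-((j + 1 : ℕ) : ℤ)) ((j + 1 : ℕ) : ℤ)) := by
    intro x hx
    simp only [Finset.mem_product, Finset.mem_Icc] at hx ⊢
    omega
  refine (Finset.card_le_card h1).trans ?_
  rw [Finset.card_sdiff_of_subset h2, Finset.card_product, Finset.card_product, Int.card_Icc, Int.card_Icc]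
  have e1 : ((((j + 1 : ℕ) : ℤ)) + 1 - -((j + 1 : ℕ) : ℤ)).toNat = 2 * j + 3 := by omega
  have e2 : ((((j : ℕ) : ℤ)) + 1 - -((j : ℕ) : ℤ)).toNat = 2 * j + 1 := by omega
  rw [e1, e2, Nat.sub_le_iff_le_add]
  have h3 : (2 * j + 3) * (2 * j + 3) = 8 * (j + 1) + (2 * j + 1) * (2 * j + 1) := by ring
  omega

theorem sum2 (M : ℕ) : ∑ x ∈ ((Icc (-(M : ℤ)) M) ×ˢ (Icc (-(M : ℤ)) M)).filter
      (fun x => 1 ≤ max x.1.natAbs x.2.natAbs), 1 / ((max x.1.natAbs x.2.natAbs : ℕ) : ℝ) ^ 2 ≤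
      8 * (1 + Real.log M) := by
  set T := ((Icc (-(M : ℤ)) M) ×ˢ (Icc (-(M : ℤ)) M)).filter
      (fun x => 1 ≤ max x.1.natAbs x.2.natAbs) with hT
  have h0 : ∀ x ∈ T, max x.1.natAbs x.2.natAbs ∈ Icc 1 M := by
    intro x hx
    rw [hT, Finset.mem_filter, Finset.mem_product, Finset.mem_Icc, Finset.mem_Icc] at hx
    rw [Finset.mem_Icc]
    omega
  rw [← Finset.sum_fiberwise_of_maps_to h0]
  calc ∑ k ∈ Icc 1 M, ∑ x ∈ T.filter (fun x => max x.1.natAbs x.2.natAbs = k),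
        1 / ((max x.1.natAbs x.2.natAbs : ℕ) : ℝ) ^ 2
      ≤ ∑ k ∈ Icc 1 M, 8 * ((k : ℝ))⁻¹ := by
        refine Finset.sum_le_sum fun k hk => ?_
        rw [Finset.mem_Icc] at hk
        have h1 : ∑ x ∈ T.filter (fun x => max x.1.natAbs x.2.natAbs = k),
            1 / ((max x.1.natAbs x.2.natAbs : ℕ) : ℝ) ^ 2 =
            ∑ x ∈ T.filter (fun x => max x.1.natAbs x.2.natAbs = k), 1 / (k : ℝ) ^ 2 := by
          refine Finset.sum_congr rfl fun n hn => ?_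
          rw [(Finset.mem_filter.1 hn).2]
        rw [h1, Finset.sum_const, nsmul_eq_mul]
        have h2 : ((T.filter (fun x => max x.1.natAbs x.2.natAbs = k)).card : ℝ) ≤ 8 * (k : ℝ) := by
          exact_mod_cast shell2 k hk.1 _ fun x hx => (Finset.mem_filter.1 hx).2
        have hk0 : (0 : ℝ) < (k : ℝ) := by exact_mod_cast hk.1
        calc _ ≤ 8 * (k : ℝ) * (1 / (k : ℝ) ^ 2) := by gcongr
          _ = 8 * ((k : ℝ))⁻¹ := by field_simp
    _ ≤ 8 * (1 + Real.log M) := by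
        rw [← Finset.mul_sum]
        have h3 := harmonic_le_one_add_log M
        rw [harmonic_eq_sum_Icc] at h3
        push_cast at h3
        linarith

/-- the primitive vectors with `n 1 ^ 2 = n 0 * n 2` -/
def phi (x : ℤ × ℤ × ℤ) : Fin 3 → ℤ := ![x.1 * x.2.1 ^ 2, x.1 * x.2.1 * x.2.2, x.1 * x.2.2 ^ 2]

theorem param {n : Fin 3 → ℤ} (hp : ∀ p : ℕ, p.Prime → ¬ ∀ i, (p : ℤ) ∣ n i)
    (h : n 1 ^ 2 = n 0 * n 2) :
    ∃ s a b : ℤ, (s = 1 ∨ s = -1) ∧ n 0 = s * a ^ 2 ∧ n 1 = s * a * b ∧ n 2 = s * b ^ 2 := by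
  have hg : Int.gcd (n 0) (n 2) = 1 := by
    by_contra hne
    obtain ⟨p, hpp, hpd⟩ := Nat.exists_prime_and_dvd hne
    have h0 : (p : ℤ) ∣ n 0 := (Int.natCast_dvd_natCast.2 hpd).trans (Int.gcd_dvd_left ..)
    have h2 : (p : ℤ) ∣ n 2 := (Int.natCast_dvd_natCast.2 hpd).trans (Int.gcd_dvd_right ..)
    have h1 : (p : ℤ) ∣ n 1 := by
      have : (p : ℤ) ∣ n 1 ^ 2 := by rw [h]; exact Dvd.dvd.mul_right h0 _
      exact Int.Prime.dvd_pow' hpp this
    exact hp p hpp (by intro i; fin_cases i <;> assumption)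
  obtain ⟨a, ha⟩ := Int.sq_of_gcd_eq_one hg h.symm
  obtain ⟨b, hb⟩ := Int.sq_of_gcd_eq_one (a := n 2) (b := n 0) (c := n 1)
    (by rw [Int.gcd_comm]; exact hg) (by rw [mul_comm]; exact h.symm)
  rcases ha with ha | ha <;> rcases hb with hb | hb
  · have h1 : n 1 ^ 2 = (a * b) ^ 2 := by rw [h, ha, hb]; ring
    rcases sq_eq_sq_iff_eq_or_eq_neg.1 h1 with h2 | h2
    · exact ⟨1, a, b, Or.inl rfl, by rw [ha]; ring, by rw [h2]; ring, by rw [hb]; ring⟩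
    · exact ⟨1, a, -b, Or.inl rfl, by rw [ha]; ring, by rw [h2]; ring, by rw [hb]; ring⟩
  · have h1 : n 1 ^ 2 + (a * b) ^ 2 = 0 := by rw [h, ha, hb]; ring
    have h2 : n 1 = 0 := by nlinarith [sq_nonneg (n 1), sq_nonneg (a * b), pow_eq_zero_iff (two_ne_zero) (a := n 1)]
    have h3 : a * b = 0 := by
      rw [h2] at h1
      have : (a * b) ^ 2 = 0 := by linarith
      exact pow_eq_zero_iff (two_ne_zero) |>.1 this
    rcases mul_eq_zero.1 h3 with h4 | h4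
    · exact ⟨-1, 0, b, Or.inr rfl, by rw [ha, h4]; ring, by rw [h2]; ring, by rw [hb]; ring⟩
    · exact ⟨1, a, 0, Or.inl rfl, by rw [ha]; ring, by rw [h2]; ring, by rw [hb, h4]; ring⟩
  · have h1 : n 1 ^ 2 + (a * b) ^ 2 = 0 := by rw [h, ha, hb]; ring
    have h2 : n 1 = 0 := by
      have : n 1 ^ 2 = 0 := by nlinarith [sq_nonneg (n 1), sq_nonneg (a * b)]
      exact pow_eq_zero_iff (two_ne_zero) |>.1 this
    have h3 : a * b = 0 := by
      rw [h2] at h1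
      have : (a * b) ^ 2 = 0 := by linarith
      exact pow_eq_zero_iff (two_ne_zero) |>.1 this
    rcases mul_eq_zero.1 h3 with h4 | h4
    · exact ⟨1, 0, b, Or.inl rfl, by rw [ha, h4]; ring, by rw [h2]; ring, by rw [hb]; ring⟩
    · exact ⟨-1, a, 0, Or.inr rfl, by rw [ha]; ring, by rw [h2]; ring, by rw [hb, h4]; ring⟩
  · have h1 : n 1 ^ 2 = (a * b) ^ 2 := by rw [h, ha, hb]; ring
    rcases sq_eq_sq_iff_eq_or_eq_neg.1 h1 with h2 | h2
    · exact ⟨-1, a, -b, Or.inr rfl, by rw [ha]; ring, by rw [h2]; ring, by rw [hb]; ring⟩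
    · exact ⟨-1, a, b, Or.inr rfl, by rw [ha]; ring, by rw [h2]; ring, by rw [hb]; ring⟩

theorem nrm_pos {n : Fin 3 → ℤ} (hp : ∀ p : ℕ, p.Prime → ¬ ∀ i, (p : ℤ) ∣ n i) : 1 ≤ nrm n := by
  by_contra hc
  have h0 : nrm n ≤ 0 := by omega
  rw [nrm_le, mem_box] at h0
  refine hp 2 Nat.prime_two fun i => ?_
  have := h0 i
  have h1 : n i = 0 := by omega
  rw [h1]
  exact dvd_zero _

open Classical in
theorem sumB (M : ℕ) : ∑ n ∈ (box M).filter (fun n => (∀ p : ℕ, p.Prime → ¬ ∀ i, (p : ℤ) ∣ n i) ∧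
      n 1 ^ 2 = n 0 * n 2), 1 / (nrm n : ℝ) ≤ 16 * (1 + Real.log M) := by
  set T := ((Icc (-(M : ℤ)) M) ×ˢ (Icc (-(M : ℤ)) M)).filter
      (fun x => 1 ≤ max x.1.natAbs x.2.natAbs) with hT
  have h1 : (box M).filter (fun n => (∀ p : ℕ, p.Prime → ¬ ∀ i, (p : ℤ) ∣ n i) ∧
      n 1 ^ 2 = n 0 * n 2) ⊆ (({1, -1} : Finset ℤ) ×ˢ T).image phi := by
    intro n hn
    rw [Finset.mem_filter, mem_box] at hn
    obtain ⟨hb, hp, h⟩ := hn
    obtain ⟨s, a, b, hs, h0, h1, h2⟩ := param hp h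
    have ea : a.natAbs ^ 2 = (n 0).natAbs := by
      rw [h0]
      rcases hs with rfl | rfl
      · rw [one_mul, Int.natAbs_pow]
      · rw [neg_one_mul, Int.natAbs_neg, Int.natAbs_pow]
    have eb : b.natAbs ^ 2 = (n 2).natAbs := by
      rw [h2]
      rcases hs with rfl | rfl
      · rw [one_mul, Int.natAbs_pow]
      · rw [neg_one_mul, Int.natAbs_neg, Int.natAbs_pow]
    have la : a.natAbs ≤ M := (Nat.le_self_pow two_ne_zero _).trans (ea.le.trans (hb 0))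
    have lb : b.natAbs ≤ M := (Nat.le_self_pow two_ne_zero _).trans (eb.le.trans (hb 2))
    refine Finset.mem_image.2 ⟨(s, a, b), ?_, ?_⟩
    · rw [Finset.mem_product, hT, Finset.mem_filter, Finset.mem_product, Finset.mem_Icc, Finset.mem_Icc]
      refine ⟨?_, ⟨?_, ?_⟩, ?_⟩
      · simp only [Finset.mem_insert, Finset.mem_singleton]
        exact hs
      · show -(M : ℤ) ≤ a ∧ a ≤ (M : ℤ)
        omega
      · show -(M : ℤ) ≤ b ∧ b ≤ (M : ℤ)
        omega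
      · show 1 ≤ max a.natAbs b.natAbs
        by_contra hc
        have ha0 : a = 0 := by omega
        have hb0 : b = 0 := by omega
        refine hp 2 Nat.prime_two fun i => ?_
        fin_cases i
        · show (2 : ℤ) ∣ n 0
          rw [h0, ha0]; simp
        · show (2 : ℤ) ∣ n 1
          rw [h1, ha0]; simp
        · show (2 : ℤ) ∣ n 2
          rw [h2, hb0]; simp
    · funext i
      fin_cases i
      · exact h0.symm
      · exact h1.symm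
      · exact h2.symm
  calc _ ≤ ∑ n ∈ (({1, -1} : Finset ℤ) ×ˢ T).image phi, 1 / (nrm n : ℝ) :=
        Finset.sum_le_sum_of_subset_of_nonneg h1 fun n _ _ => by positivity
    _ ≤ ∑ x ∈ ({1, -1} : Finset ℤ) ×ˢ T, 1 / (nrm (phi x) : ℝ) :=
        Finset.sum_image_le_of_nonneg fun n _ => by positivity
    _ ≤ ∑ x ∈ ({1, -1} : Finset ℤ) ×ˢ T, 1 / ((max x.2.1.natAbs x.2.2.natAbs : ℕ) : ℝ) ^ 2 := by
        refine Finset.sum_le_sum fun x hx => ?_
        rw [Finset.mem_product, hT, Finset.mem_filter] at hx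
        have h3 := hx.2.2
        have hs : x.1 = 1 ∨ x.1 = -1 := by
          have := hx.1
          simp only [Finset.mem_insert, Finset.mem_singleton] at this
          exact this
        have e0 : ((phi x) 0).natAbs = x.2.1.natAbs ^ 2 := by
          show (x.1 * x.2.1 ^ 2).natAbs = _
          rcases hs with hs | hs <;> rw [hs]
          · rw [one_mul, Int.natAbs_pow]
          · rw [neg_one_mul, Int.natAbs_neg, Int.natAbs_pow]
        have e2 : ((phi x) 2).natAbs = x.2.2.natAbs ^ 2 := by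
          show (x.1 * x.2.2 ^ 2).natAbs = _
          rcases hs with hs | hs <;> rw [hs]
          · rw [one_mul, Int.natAbs_pow]
          · rw [neg_one_mul, Int.natAbs_neg, Int.natAbs_pow]
        have h4 : (max x.2.1.natAbs x.2.2.natAbs) ^ 2 ≤ nrm (phi x) := by
          rcases max_choice x.2.1.natAbs x.2.2.natAbs with h5 | h5 <;> rw [h5]
          · rw [← e0]; exact le_nrm _ _
          · rw [← e2]; exact le_nrm _ _
        have h5 : (0 : ℝ) < ((max x.2.1.natAbs x.2.2.natAbs : ℕ) : ℝ) ^ 2 := by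
          have : (0 : ℝ) < ((max x.2.1.natAbs x.2.2.natAbs : ℕ) : ℝ) := by exact_mod_cast h3
          positivity
        exact one_div_le_one_div_of_le h5 (by exact_mod_cast h4)
    _ = ∑ s ∈ ({1, -1} : Finset ℤ), ∑ x ∈ T, 1 / ((max x.1.natAbs x.2.natAbs : ℕ) : ℝ) ^ 2 := by
        rw [Finset.sum_product]
    _ ≤ ∑ s ∈ ({1, -1} : Finset ℤ), 8 * (1 + Real.log M) :=
        Finset.sum_le_sum fun s _ => sum2 M
    _ = 16 * (1 + Real.log M) := by
        rw [Finset.sum_const]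
        have : ({1, -1} : Finset ℤ).card = 2 := by decide
        rw [this, nsmul_eq_mul]
        push_cast
        ring

theorem res_zero {n f g : Fin 3 → ℤ} (hn : 1 ≤ nrm n) (h : n 1 ^ 2 = n 0 * n 2) (hf : dot n f = 0)
    (hg : dot n g = 0) : res f g = 0 := by
  unfold dot at hf hg
  unfold res
  have e0 : n 0 ^ 2 * ((f 0 * g 2 - g 0 * f 2) ^ 2 - (f 0 * g 1 - g 0 * f 1) * (f 1 * g 2 - g 1 * f 2)) = 0 := by
    have a1 : n 0 * (f 0 * g 2 - g 0 * f 2) = - (n 1 * (f 1 * g 2 - g 1 * f 2)) := by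
      linear_combination g 2 * hf - f 2 * hg
    have a2 : n 0 * (f 0 * g 1 - g 0 * f 1) = n 2 * (f 1 * g 2 - g 1 * f 2) := by
      linear_combination g 1 * hf - f 1 * hg
    calc _ = (n 0 * (f 0 * g 2 - g 0 * f 2)) ^ 2 -
          n 0 * (n 0 * (f 0 * g 1 - g 0 * f 1)) * (f 1 * g 2 - g 1 * f 2) := by ring
      _ = (f 1 * g 2 - g 1 * f 2) ^ 2 * (n 1 ^ 2 - n 0 * n 2) := by rw [a1, a2]; ring
      _ = 0 := by rw [h]; ring
  have e2 : n 2 ^ 2 * ((f 0 * g 2 - g 0 * f 2) ^ 2 - (f 0 * g 1 - g 0 * f 1) * (f 1 * g 2 - g 1 * f 2)) = 0 := by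
    have a1 : n 2 * (f 0 * g 2 - g 0 * f 2) = - (n 1 * (f 0 * g 1 - g 0 * f 1)) := by
      linear_combination f 0 * hg - g 0 * hf
    have a2 : n 2 * (f 1 * g 2 - g 1 * f 2) = n 0 * (f 0 * g 1 - g 0 * f 1) := by
      linear_combination f 1 * hg - g 1 * hf
    calc _ = (n 2 * (f 0 * g 2 - g 0 * f 2)) ^ 2 -
          n 2 * (n 2 * (f 1 * g 2 - g 1 * f 2)) * (f 0 * g 1 - g 0 * f 1) := by ring
      _ = (f 0 * g 1 - g 0 * f 1) ^ 2 * (n 1 ^ 2 - n 0 * n 2) := by rw [a1, a2]; ring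
      _ = 0 := by rw [h]; ring
  rcases mul_eq_zero.1 e0 with h0 | h0
  · rcases mul_eq_zero.1 e2 with h2 | h2
    · exfalso
      have b0 : n 0 = 0 := pow_eq_zero_iff (two_ne_zero) |>.1 h0
      have b2 : n 2 = 0 := pow_eq_zero_iff (two_ne_zero) |>.1 h2
      have b1 : n 1 = 0 := by
        rw [b0, zero_mul] at h
        exact pow_eq_zero_iff (two_ne_zero) |>.1 h
      have : nrm n ≤ 0 := by
        rw [nrm_le, mem_box]
        intro i
        fin_cases i <;> simp [b0, b1, b2]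
      omega
    · exact h2
  · exact h0

theorem dot_le {H : ℕ} {n f : Fin 3 → ℤ} (hf : f ∈ box H) : (dot n f).natAbs ≤ 3 * H * nrm n := by
  rw [mem_box] at hf
  unfold dot
  have h : ∀ i, (n i * f i).natAbs ≤ nrm n * H := fun i => by
    rw [Int.natAbs_mul]
    exact Nat.mul_le_mul (le_nrm n i) (hf i)
  have h0 := h 0
  have h1 := h 1
  have h2 := h 2
  have e : 3 * H * nrm n = nrm n * H + nrm n * H + nrm n * H := by ring
  rw [e]
  refine (Int.natAbs_add_le _ _).trans ?_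
  have := Int.natAbs_add_le (n 0 * f 0) (n 1 * f 1)
  omega

/-- `n` is primitive -/
def Prim (n : Fin 3 → ℤ) : Prop := ∀ p : ℕ, p.Prime → ¬ ∀ i, (p : ℤ) ∣ n i

open Classical in
/-- the possible `D` for a vector `n` -/
noncomputable def Ds (H : ℕ) (n : Fin 3 → ℤ) : Finset ℕ :=
  if n 1 ^ 2 = n 0 * n 2 then Icc 1 (3 * H * nrm n) else (n 1 ^ 2 - n 0 * n 2).natAbs.divisors

open Classical in
/-- the covering family -/
noncomputable def cov (H M A : ℕ) : Finset ((Fin 3 → ℤ) × (Fin 3 → ℤ)) :=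
  ((box M).filter Prim).biUnion fun n => (Ds H n).biUnion fun D =>
    ((Icc (-(A : ℤ)) A) ×ˢ (Icc (-(A : ℤ)) A)).biUnion fun ab =>
      ((box H).filter fun f => dot n f = D * ab.1) ×ˢ ((box H).filter fun g => dot n g = D * ab.2)

theorem abs_quot {A D : ℕ} {x a : ℤ} (hD : 1 ≤ D) (hx : x = D * a) (h : x.natAbs ≤ A * D) :
    a ∈ Icc (-(A : ℤ)) A := by
  rw [Finset.mem_Icc]
  rw [hx, Int.natAbs_mul, Int.natAbs_natCast, mul_comm] at h
  have := Nat.le_of_mul_le_mul_right h (by omega)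
  omega

open Classical in
theorem cover (K H Z : ℕ) :
    ((box H ×ˢ box H).filter fun q : (Fin 3 → ℤ) × (Fin 3 → ℤ) => res q.1 q.2 ≠ 0 ∧ ∃ (n : Fin 3 → ℤ) (D : ℕ), 1 ≤ D ∧
    (∀ p : ℕ, p.Prime → ¬ ∀ i, (p : ℤ) ∣ n i) ∧ (D : ℤ) ∣ n 1 ^ 2 - n 0 * n 2 ∧
    (D : ℤ) ∣ dot n q.1 ∧ (D : ℤ) ∣ dot n q.2 ∧ (dot n q.1).natAbs ≤ K * Z * D ∧
    (dot n q.2).natAbs ≤ K * Z * D ∧ H * nrm n ≤ K * Z * D ∧ nrm n ≤ K * H * Z) ⊆
    cov H (K * H * Z) (K * Z) := by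
  intro q hq
  rw [Finset.mem_filter, Finset.mem_product] at hq
  obtain ⟨⟨hf, hg⟩, hres, n, D, hD, hp, hD1, hD2, hD3, hl1, hl2, -, hM⟩ := hq
  obtain ⟨a, ha⟩ := hD2
  obtain ⟨b, hb⟩ := hD3
  unfold cov
  rw [Finset.mem_biUnion]
  refine ⟨n, Finset.mem_filter.2 ⟨nrm_le.1 hM, hp⟩, ?_⟩
  rw [Finset.mem_biUnion]
  refine ⟨D, ?_, ?_⟩
  · unfold Ds
    split_ifs with h
    · rw [Finset.mem_Icc]
      refine ⟨hD, ?_⟩
      have h1 : dot n q.1 ≠ 0 ∨ dot n q.2 ≠ 0 := by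
        by_contra hc
        push Not at hc
        exact hres (res_zero (nrm_pos hp) h hc.1 hc.2)
      rcases h1 with h1 | h1
      · refine le_trans ?_ (dot_le hf)
        refine Nat.le_of_dvd (by omega) ?_
        rw [← Int.natCast_dvd]
        exact ⟨a, ha⟩
      · refine le_trans ?_ (dot_le hg)
        refine Nat.le_of_dvd (by omega) ?_
        rw [← Int.natCast_dvd]
        exact ⟨b, hb⟩
    · rw [Nat.mem_divisors]
      refine ⟨Int.natCast_dvd.1 hD1, ?_⟩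
      intro h0
      apply h
      omega
  · rw [Finset.mem_biUnion]
    refine ⟨(a, b), Finset.mem_product.2 ⟨abs_quot hD ha hl1, abs_quot hD hb hl2⟩, ?_⟩
    rw [Finset.mem_product]
    exact ⟨Finset.mem_filter.2 ⟨hf, ha⟩, Finset.mem_filter.2 ⟨hg, hb⟩⟩

open Classical in
theorem card_cov {H M A : ℕ} {G : ℝ}
    (hG : ∀ n ∈ box M, Prim n → ∀ m : ℤ, (((box H).filter fun f => dot n f = m).card : ℝ) ≤ G / nrm n) :
    ((cov H M A).card : ℝ) ≤ (2 * (A : ℝ) + 1) ^ 2 * G ^ 2 *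
      ∑ n ∈ (box M).filter Prim, ((Ds H n).card : ℝ) / (nrm n : ℝ) ^ 2 := by
  classical
  have h1 : (cov H M A).card ≤ ∑ n ∈ (box M).filter Prim, ∑ D ∈ Ds H n,
      ∑ ab ∈ (Icc (-(A : ℤ)) A) ×ˢ (Icc (-(A : ℤ)) A),
        ((box H).filter fun f => dot n f = D * ab.1).card *
          ((box H).filter fun g => dot n g = D * ab.2).card := by
    unfold cov
    refine Finset.card_biUnion_le.trans (Finset.sum_le_sum fun n _ => ?_)
    refine Finset.card_biUnion_le.trans (Finset.sum_le_sum fun D _ => ?_)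
    refine Finset.card_biUnion_le.trans (Finset.sum_le_sum fun ab _ => ?_)
    rw [Finset.card_product]
  have h2 : ((cov H M A).card : ℝ) ≤ ∑ n ∈ (box M).filter Prim, ∑ D ∈ Ds H n,
      ∑ ab ∈ (Icc (-(A : ℤ)) A) ×ˢ (Icc (-(A : ℤ)) A),
        (((box H).filter fun f => dot n f = D * ab.1).card : ℝ) *
          (((box H).filter fun g => dot n g = D * ab.2).card : ℝ) := by
    exact_mod_cast h1
  refine h2.trans ?_
  rw [Finset.mul_sum]
  refine Finset.sum_le_sum fun n hn => ?_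
  rw [Finset.mem_filter] at hn
  have h3 := hG n hn.1 hn.2
  calc _ ≤ ∑ D ∈ Ds H n, ∑ ab ∈ (Icc (-(A : ℤ)) A) ×ˢ (Icc (-(A : ℤ)) A), (G / nrm n) * (G / nrm n) := by
        refine Finset.sum_le_sum fun D _ => Finset.sum_le_sum fun ab _ => ?_
        have h4 := h3 (D * ab.1)
        have h5 := h3 (D * ab.2)
        exact mul_le_mul h4 h5 (by positivity) (le_trans (by positivity) h4)
    _ = _ := by
        rw [Finset.sum_const, Finset.sum_const, Finset.card_product, Int.card_Icc]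
        have e1 : ((A : ℤ) + 1 - -(A : ℤ)).toNat = 2 * A + 1 := by omega
        rw [e1, nsmul_eq_mul, nsmul_eq_mul]
        push_cast
        ring

theorem card_divs {M : ℕ} {δ C₂ : ℝ} (hδ : 0 < δ) (hC₂0 : 0 < C₂)
    (hC₂ : ∀ n : ℕ, n ≠ 0 → ((n.divisors.card : ℕ) : ℝ) ≤ C₂ * (n : ℝ) ^ δ)
    (H : ℕ) (n : Fin 3 → ℤ) (hn : n ∈ box M) (h : ¬ n 1 ^ 2 = n 0 * n 2) :
    ((Ds H n).card : ℝ) ≤ C₂ * (2 * (M : ℝ) ^ 2) ^ δ := by
  unfold Ds
  rw [if_neg h]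
  have h0 : (n 1 ^ 2 - n 0 * n 2).natAbs ≠ 0 := by
    intro h1
    apply h
    omega
  refine (hC₂ _ h0).trans ?_
  rw [mem_box] at hn
  have h1 : (n 1 ^ 2 - n 0 * n 2).natAbs ≤ 2 * M ^ 2 := by
    have a1 : (n 1 ^ 2 - n 0 * n 2).natAbs ≤ (n 1 ^ 2).natAbs + (n 0 * n 2).natAbs := Int.natAbs_sub_le _ _
    have a2 : (n 1 ^ 2).natAbs ≤ M ^ 2 := by
      rw [Int.natAbs_pow]
      exact Nat.pow_le_pow_left (hn 1) 2
    have a3 : (n 0 * n 2).natAbs ≤ M ^ 2 := by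
      rw [Int.natAbs_mul, sq]
      exact Nat.mul_le_mul (hn 0) (hn 2)
    omega
  have h2 : (((n 1 ^ 2 - n 0 * n 2).natAbs : ℕ) : ℝ) ≤ 2 * (M : ℝ) ^ 2 := by exact_mod_cast h1
  gcongr

open Classical in
theorem sumN {H M : ℕ} {δ C₂ : ℝ} (hδ : 0 < δ) (hC₂0 : 0 < C₂)
    (hC₂ : ∀ n : ℕ, n ≠ 0 → ((n.divisors.card : ℕ) : ℝ) ≤ C₂ * (n : ℝ) ^ δ) :
    ∑ n ∈ (box M).filter Prim, ((Ds H n).card : ℝ) / (nrm n : ℝ) ^ 2 ≤
      C₂ * (2 * (M : ℝ) ^ 2) ^ δ * (26 * M) + 3 * H * (16 * (1 + Real.log M)) := by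
  classical
  rw [← Finset.sum_filter_add_sum_filter_not _ (fun n : Fin 3 → ℤ => n 1 ^ 2 = n 0 * n 2), add_comm]
  refine add_le_add ?_ ?_
  · calc _ ≤ ∑ n ∈ ((box M).filter Prim).filter (fun n : Fin 3 → ℤ => ¬ n 1 ^ 2 = n 0 * n 2),
          C₂ * (2 * (M : ℝ) ^ 2) ^ δ * (1 / (nrm n : ℝ) ^ 2) := by
          refine Finset.sum_le_sum fun n hn => ?_
          rw [Finset.mem_filter, Finset.mem_filter] at hn
          rw [mul_one_div]
          have := card_divs hδ hC₂0 hC₂ H n hn.1.1 hn.2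
          gcongr
      _ ≤ ∑ n ∈ (box M).filter (fun n => 1 ≤ nrm n),
          C₂ * (2 * (M : ℝ) ^ 2) ^ δ * (1 / (nrm n : ℝ) ^ 2) := by
          refine Finset.sum_le_sum_of_subset_of_nonneg ?_ fun n _ _ => by positivity
          intro n hn
          rw [Finset.mem_filter, Finset.mem_filter] at hn
          exact Finset.mem_filter.2 ⟨hn.1.1, nrm_pos hn.1.2⟩
      _ ≤ _ := by
          rw [← Finset.mul_sum]
          exact mul_le_mul_of_nonneg_left (sum3 M) (by positivity)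
  · calc _ = ∑ n ∈ (box M).filter (fun n => (∀ p : ℕ, p.Prime → ¬ ∀ i, (p : ℤ) ∣ n i) ∧
          n 1 ^ 2 = n 0 * n 2), 3 * (H : ℝ) * (1 / (nrm n : ℝ)) := by
          rw [Finset.filter_filter]
          refine Finset.sum_congr rfl fun n hn => ?_
          rw [Finset.mem_filter] at hn
          have h1 : (0 : ℝ) < (nrm n : ℝ) := by exact_mod_cast nrm_pos hn.2.1
          unfold Ds
          rw [if_pos hn.2.2, Nat.card_Icc]
          rw [show 3 * H * nrm n + 1 - 1 = 3 * H * nrm n by omega]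
          push_cast
          field_simp
      _ ≤ _ := by
          rw [← Finset.mul_sum]
          exact mul_le_mul_of_nonneg_left (sumB M) (by positivity)

theorem final {K H Z M : ℕ} {ε C₁ C₂ S X : ℝ} (hε : 0 < ε) (hZ : 1 ≤ Z) (hZH : Z ≤ H) (hM : M = K * H * Z)
    (hC₂0 : 0 < C₂) (h0 : 0 ≤ X)
    (hN : X ≤ C₂ * (2 * (M : ℝ) ^ 2) ^ (ε / 4) * (26 * M) + 3 * H * (16 * (1 + Real.log M)))
    (hS : S ≤ (2 * ((K * Z : ℕ) : ℝ) + 1) ^ 2 * (C₁ * (1 + K) * Z * (H : ℝ) ^ 2) ^ 2 * X) :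
    S ≤ (2 * (K : ℝ) + 1) ^ 2 * (C₁ * (1 + K)) ^ 2 *
    (C₂ * (2 * (K : ℝ) ^ 2) ^ (ε / 4) * (26 * K) + 48 * (1 + (K : ℝ) ^ (ε / 2) / (ε / 2))) *
      (H : ℝ) ^ (5 + ε) * (Z : ℝ) ^ 5 := by
  have hH1 : 1 ≤ H := hZ.trans hZH
  have hHr : (1 : ℝ) ≤ H := by exact_mod_cast hH1
  have hZr : (1 : ℝ) ≤ Z := by exact_mod_cast hZ
  have hZHr : (Z : ℝ) ≤ H := by exact_mod_cast hZH
  have hMr : (M : ℝ) = K * H * Z := by rw [hM]; push_cast; ring
  have hMle : (M : ℝ) ≤ K * (H : ℝ) ^ 2 := by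
    rw [hMr, sq, ← mul_assoc]
    gcongr
  have hA : C₂ * (2 * (M : ℝ) ^ 2) ^ (ε / 4) * (26 * M) ≤
      C₂ * (2 * (K : ℝ) ^ 2) ^ (ε / 4) * (26 * K) * ((H : ℝ) ^ ε * H * Z) := by
    have h1 : (2 * (M : ℝ) ^ 2) ^ (ε / 4) ≤ (2 * (K : ℝ) ^ 2) ^ (ε / 4) * (H : ℝ) ^ ε := by
      have h2 : 2 * (M : ℝ) ^ 2 ≤ 2 * (K : ℝ) ^ 2 * (H : ℝ) ^ 4 := by
        calc 2 * (M : ℝ) ^ 2 ≤ 2 * (K * (H : ℝ) ^ 2) ^ 2 := by gcongr
          _ = 2 * (K : ℝ) ^ 2 * (H : ℝ) ^ 4 := by ring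
      calc (2 * (M : ℝ) ^ 2) ^ (ε / 4) ≤ (2 * (K : ℝ) ^ 2 * (H : ℝ) ^ 4) ^ (ε / 4) :=
            Real.rpow_le_rpow (by positivity) h2 (by positivity)
        _ = (2 * (K : ℝ) ^ 2) ^ (ε / 4) * ((H : ℝ) ^ 4) ^ (ε / 4) := by
            rw [Real.mul_rpow (by positivity) (by positivity)]
        _ = (2 * (K : ℝ) ^ 2) ^ (ε / 4) * (H : ℝ) ^ ε := by
            congr 1
            rw [← Real.rpow_natCast, ← Real.rpow_mul (by positivity)]
            congr 1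
            push_cast
            ring
    rw [hMr] at h1 ⊢
    calc C₂ * (2 * (K * H * Z : ℝ) ^ 2) ^ (ε / 4) * (26 * (K * H * Z)) ≤
        C₂ * ((2 * (K : ℝ) ^ 2) ^ (ε / 4) * (H : ℝ) ^ ε) * (26 * (K * H * Z)) :=
          mul_le_mul_of_nonneg_right (mul_le_mul_of_nonneg_left h1 hC₂0.le) (by positivity)
      _ = C₂ * (2 * (K : ℝ) ^ 2) ^ (ε / 4) * (26 * K) * ((H : ℝ) ^ ε * H * Z) := by ring
  have hB : 1 + Real.log M ≤ (1 + (K : ℝ) ^ (ε / 2) / (ε / 2)) * (H : ℝ) ^ ε := by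
    have h1 : Real.log M ≤ (M : ℝ) ^ (ε / 2) / (ε / 2) := Real.log_natCast_le_rpow_div M (by positivity)
    have h2 : (M : ℝ) ^ (ε / 2) ≤ (K : ℝ) ^ (ε / 2) * (H : ℝ) ^ ε := by
      calc (M : ℝ) ^ (ε / 2) ≤ (K * (H : ℝ) ^ 2) ^ (ε / 2) :=
            Real.rpow_le_rpow (by positivity) hMle (by positivity)
        _ = (K : ℝ) ^ (ε / 2) * ((H : ℝ) ^ 2) ^ (ε / 2) := by
            rw [Real.mul_rpow (by positivity) (by positivity)]
        _ = (K : ℝ) ^ (ε / 2) * (H : ℝ) ^ ε := by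
            congr 1
            rw [← Real.rpow_natCast, ← Real.rpow_mul (by positivity)]
            congr 1
            push_cast
            ring
    have h3 : (1 : ℝ) ≤ (H : ℝ) ^ ε := Real.one_le_rpow hHr hε.le
    calc 1 + Real.log M ≤ (H : ℝ) ^ ε + ((K : ℝ) ^ (ε / 2) * (H : ℝ) ^ ε) / (ε / 2) := by
          refine add_le_add h3 (h1.trans ?_)
          gcongr
      _ = (1 + (K : ℝ) ^ (ε / 2) / (ε / 2)) * (H : ℝ) ^ ε := by ring
  have hX : X ≤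
      (C₂ * (2 * (K : ℝ) ^ 2) ^ (ε / 4) * (26 * K) + 48 * (1 + (K : ℝ) ^ (ε / 2) / (ε / 2))) *
        ((H : ℝ) ^ ε * H * Z) := by
    refine hN.trans ?_
    have h1 : 3 * (H : ℝ) * (16 * (1 + Real.log M)) ≤
        48 * (1 + (K : ℝ) ^ (ε / 2) / (ε / 2)) * ((H : ℝ) ^ ε * H * Z) := by
      calc 3 * (H : ℝ) * (16 * (1 + Real.log M)) = 48 * H * (1 + Real.log M) * 1 := by ring
        _ ≤ 48 * H * ((1 + (K : ℝ) ^ (ε / 2) / (ε / 2)) * (H : ℝ) ^ ε) * Z := by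
            have h0 : 0 ≤ (1 + (K : ℝ) ^ (ε / 2) / (ε / 2)) * (H : ℝ) ^ ε := by positivity
            have h00 : 48 * (H : ℝ) * (1 + Real.log M) ≤
              48 * (H : ℝ) * ((1 + (K : ℝ) ^ (ε / 2) / (ε / 2)) * (H : ℝ) ^ ε) :=
              mul_le_mul_of_nonneg_left hB (by positivity)
            exact mul_le_mul h00 hZr (by norm_num) (by positivity)
        _ = 48 * (1 + (K : ℝ) ^ (ε / 2) / (ε / 2)) * ((H : ℝ) ^ ε * H * Z) := by ring
    calc _ ≤ C₂ * (2 * (K : ℝ) ^ 2) ^ (ε / 4) * (26 * K) * ((H : ℝ) ^ ε * H * Z) +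
          48 * (1 + (K : ℝ) ^ (ε / 2) / (ε / 2)) * ((H : ℝ) ^ ε * H * Z) := add_le_add hA h1
      _ = _ := by ring
  have hZ2 : (2 * ((K * Z : ℕ) : ℝ) + 1) ^ 2 ≤ (2 * (K : ℝ) + 1) ^ 2 * (Z : ℝ) ^ 2 := by
    rw [← mul_pow]
    push_cast
    have : 2 * ((K : ℝ) * Z) + 1 ≤ (2 * K + 1) * Z := by nlinarith
    exact pow_le_pow_left₀ (by positivity) this 2
  have h1 : (H : ℝ) ^ (5 + ε) = (H : ℝ) ^ 5 * (H : ℝ) ^ ε := by
    rw [Real.rpow_add (by positivity)]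
    congr 1
    exact_mod_cast Real.rpow_natCast (H : ℝ) 5
  have hW : 0 ≤ (H : ℝ) ^ ε := by positivity
  have hU : 0 ≤ C₂ * (2 * (K : ℝ) ^ 2) ^ (ε / 4) * (26 * K) + 48 * (1 + (K : ℝ) ^ (ε / 2) / (ε / 2)) := by
    positivity
  rw [h1]
  generalize C₂ * (2 * (K : ℝ) ^ 2) ^ (ε / 4) * (26 * K) + 48 * (1 + (K : ℝ) ^ (ε / 2) / (ε / 2)) = U at hX hU ⊢
  generalize (H : ℝ) ^ ε = W at hX hW ⊢
  calc S ≤ (2 * ((K * Z : ℕ) : ℝ) + 1) ^ 2 * (C₁ * (1 + K) * Z * (H : ℝ) ^ 2) ^ 2 * X := hS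
    _ ≤ ((2 * (K : ℝ) + 1) ^ 2 * (Z : ℝ) ^ 2) * (C₁ * (1 + K) * Z * (H : ℝ) ^ 2) ^ 2 * X :=
        mul_le_mul_of_nonneg_right (mul_le_mul_of_nonneg_right hZ2 (sq_nonneg _)) h0
    _ ≤ ((2 * (K : ℝ) + 1) ^ 2 * (Z : ℝ) ^ 2) * (C₁ * (1 + K) * Z * (H : ℝ) ^ 2) ^ 2 *
        (U * (W * H * Z)) := mul_le_mul_of_nonneg_left hX (by positivity)
    _ = _ := by ring

open Classical in
theorem main (hPLANE : PLANE) (K : ℕ) (ε : ℝ) (hε : 0 < ε) : ∃ C : ℝ, ∀ H Z : ℕ, 1 ≤ Z → Z ≤ H →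
    ((cov H (K * H * Z) (K * Z)).card : ℝ) ≤ C * (H : ℝ) ^ (5 + ε) * (Z : ℝ) ^ 5 := by
  obtain ⟨C₁, hC₁⟩ := hPLANE
  obtain ⟨C₂, hC₂0, hC₂⟩ := divisor_bound (ε / 4) (by positivity)
  refine ⟨(2 * (K : ℝ) + 1) ^ 2 * (C₁ * (1 + K)) ^ 2 *
    (C₂ * (2 * (K : ℝ) ^ 2) ^ (ε / 4) * (26 * K) + 48 * (1 + (K : ℝ) ^ (ε / 2) / (ε / 2))), ?_⟩
  intro H Z hZ hZH
  have hH1 : 1 ≤ H := hZ.trans hZH
  have hHr : (1 : ℝ) ≤ H := by exact_mod_cast hH1
  have hZr : (1 : ℝ) ≤ Z := by exact_mod_cast hZ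
  have hMr : ((K * H * Z : ℕ) : ℝ) = K * H * Z := by push_cast; ring
  have hG : ∀ n ∈ box (K * H * Z), Prim n → ∀ m : ℤ, (((box H).filter fun f => dot n f = m).card : ℝ) ≤
      ((C₁ : ℝ) * (1 + K) * Z * (H : ℝ) ^ 2) / nrm n := by
    intro n hn hp m
    have h1 := hC₁ H n m hH1 hp
    have h2 : (0 : ℝ) < nrm n := by exact_mod_cast nrm_pos hp
    have h3 : (nrm n : ℝ) ≤ K * H * Z := by
      rw [← hMr]
      exact_mod_cast nrm_le.2 hn
    rw [le_div_iff₀ h2]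
    have h4 : (((box H).filter fun f => dot n f = m).card : ℝ) * nrm n ≤ C₁ * ((H : ℝ) ^ 2 + H * nrm n) := by
      exact_mod_cast h1
    refine h4.trans ?_
    have h5 : (H : ℝ) ^ 2 + H * nrm n ≤ (1 + K) * Z * (H : ℝ) ^ 2 := by
      have a1 : (H : ℝ) ^ 2 ≤ Z * (H : ℝ) ^ 2 := by nlinarith [sq_nonneg (H : ℝ)]
      have a2 : (H : ℝ) * nrm n ≤ H * (K * H * Z) := mul_le_mul_of_nonneg_left h3 (by positivity)
      calc (H : ℝ) ^ 2 + H * nrm n ≤ Z * (H : ℝ) ^ 2 + H * (K * H * Z) := add_le_add a1 a2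
        _ = _ := by ring
    calc (C₁ : ℝ) * ((H : ℝ) ^ 2 + H * nrm n) ≤ C₁ * ((1 + K) * Z * (H : ℝ) ^ 2) :=
          mul_le_mul_of_nonneg_left h5 (by positivity)
      _ = _ := by ring
  exact final hε hZ hZH rfl hC₂0 (Finset.sum_nonneg fun n _ => by positivity)
    (sumN (H := H) (M := K * H * Z) (δ := ε / 4) (by positivity) hC₂0 hC₂) (card_cov hG)

theorem t : Pool.Agent.H14F.SKEW := by
  intro hPLANE K ε hε
  obtain ⟨C, hC⟩ := main hPLANE K ε hε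
  refine ⟨C, fun H Z hZ hZH => le_trans ?_ (hC H Z hZ hZH)⟩
  exact Nat.cast_le.2 (Finset.card_le_card (cover K H Z))

end Pool.Agent.H14F.SKEW
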