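import Pool.Agent.H14F.ANA
import Pool.Agent.H14F.GOODL
import Pool.Agent.H14F.BAS
import Pool.Agent.H14F.CNT
import Pool.Agent.H14F.SKEW

/-!
# Project F6: assembly of the upper bound
-/

set_option autoImplicit false

namespace Pool.Agent.H14F

theorem anaT : Pool.Agent.H14F.ANA :=
  ANA.of GOODL.t BAS.t CNT.t SKEW.t

end Pool.Agent.H14F
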