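import Pool.Agent.H14F.Lam3
import Pool.Agent.N783.PF.Final

/-!
# Assembly
-/

set_option autoImplicit false
set_option linter.all false

open Polynomial IsDedekindDomain NumberField
open scoped Classical IntermediateField Pointwise

namespace Pool.Agent.H14F

open Pool.Agent.N783.PF
open Pool.Agent.N352.PF (rv)
open Pool.Agent.N170.PF (LBad.mono)

/-- The ramified primes. -/
theorem exists_R (F M : Type) [Field F] [NumberField F] [Field M] [NumberField M] [Algebra F M]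
    [IsGalois F M] : ∃ R : ℕ, 0 < R ∧ ∀ w : HeightOneSpectrum (𝓞 M), ¬ Unr F w →
      (R : 𝓞 M) ∈ w.asIdeal := by
  haveI : FiniteDimensional F M := FiniteDimensional.right ℚ F M
  have hex : ∀ σ : Gal(M/F), ∃ x : 𝓞 M, σ ≠ 1 → σ • x ≠ x := by
    intro σ
    by_cases h : ∃ x : 𝓞 M, σ • x ≠ x
    · obtain ⟨x, hx⟩ := h
      exact ⟨x, fun _ => hx⟩
    · push Not at h
      refine ⟨0, fun h1 => absurd ?_ h1⟩
      ext y
      obtain ⟨a, b, hb, rfl⟩ := IsFractionRing.div_surjective (A := 𝓞 M) y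
      rw [map_div₀, AlgEquiv.one_apply]
      have ha := congrArg (algebraMap (𝓞 M) M) (h a)
      have hb' := congrArg (algebraMap (𝓞 M) M) (h b)
      have e1 : σ (algebraMap (𝓞 M) M a) = algebraMap (𝓞 M) M a := ha
      have e2 : σ (algebraMap (𝓞 M) M b) = algebraMap (𝓞 M) M b := hb'
      rw [e1, e2]
  choose x hx using hex
  have : Fintype Gal(M/F) := Fintype.ofFinite _
  refine ⟨∏ σ ∈ Finset.univ.erase (1 : Gal(M/F)), (Algebra.norm ℤ (σ • x σ - x σ)).natAbs, ?_, ?_⟩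
  · refine Finset.prod_pos fun σ hσ => ?_
    rw [Int.natAbs_pos, ne_eq, Algebra.norm_eq_zero_iff, sub_eq_zero]
    exact hx σ (Finset.ne_of_mem_erase hσ)
  · intro w hw
    have h1 : ∃ σ ∈ w.asIdeal.inertia Gal(M/F), σ ≠ 1 := by
      by_contra h
      push Not at h
      apply hw
      unfold Unr
      rw [eq_bot_iff]
      intro σ hσ
      rw [Subgroup.mem_bot]
      exact h σ hσ
    obtain ⟨σ, hσ, hσ1⟩ := h1
    have h2 : σ • x σ - x σ ∈ w.asIdeal := hσ (x σ)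
    have h3 : (((Algebra.norm ℤ (σ • x σ - x σ)).natAbs : ℕ) : 𝓞 M) ∈ w.asIdeal := by
      have h4 := Ideal.absNorm_mem (Ideal.span {σ • x σ - x σ})
      rw [Ideal.absNorm_span_singleton] at h4
      exact (Ideal.span_singleton_le_iff_mem _).2 h2 h4
    rw [Nat.cast_prod]
    exact Ideal.mem_of_dvd _ (Finset.dvd_prod_of_mem
      (fun σ : Gal(M/F) => (((Algebra.norm ℤ (σ • x σ - x σ)).natAbs : ℕ) : 𝓞 M))
      (Finset.mem_erase.2 ⟨hσ1, Finset.mem_univ σ⟩)) h3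

/-- The conditions on `W` and `f₁`. -/
def EW (F M : Type) [Field F] [NumberField F] [Field M] [NumberField M] [Algebra F M] (W : ℕ)
    (f₁ : (𝓞 F)[X]) : Prop :=
  (∀ v : HeightOneSpectrum (𝓞 F), (W : 𝓞 F) ∈ v.asIdeal → Irreducible (rv v f₁)) ∧
  (∀ w : HeightOneSpectrum (𝓞 M), ¬ Unr F w → (W : 𝓞 M) ∈ w.asIdeal) ∧ ∃ p, p ∣ W ∧ SplP F p

/-- The condition on `S`. -/
def PS (F M : Type) [Field F] [NumberField F] [Field M] [NumberField M] [Algebra F M]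
    (S : Finset ℕ) : Prop :=
  ∀ q ∈ S, ∀ w : HeightOneSpectrum (𝓞 M), (q : 𝓞 M) ∈ w.asIdeal → Tot F w

/-- The properties of the curve. -/
structure GoodP (F M : Type) [Field F] [NumberField F] [Field M] [NumberField M] [Algebra F M]
    (p : 𝓞 F × 𝓞 F) : Prop where
  all : AllGood F p
  adm : Adm F M p
  inf : (Lam F p).Infinite

theorem twW (F M : Type) [Field F] [NumberField F] [Field M] [NumberField M] [Algebra F M]
    [IsGalois F M] {n : ℕ} (hn : Module.finrank F M = 2 ^ n)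
    (h2 : ∀ w : HeightOneSpectrum (𝓞 M), (2 : 𝓞 M) ∈ w.asIdeal → Tot F w)
    (hr : ∀ σ : F →+* ℝ, ∃ ρ : M →+* ℝ, ρ.comp (algebraMap F M) = σ) :
    ∃ κ : ℕ, ∀ (B N W : ℕ) (f₁ : (𝓞 F)[X]) (S : Finset ℕ) (𝔮 : ℕ → Ideal (𝓞 F))
      (r P : ℕ → (𝓞 F)[X]) (f : (𝓞 F)[X]), κ ≤ W → GoodF 1 W f₁ → EW F M W f₁ →
      GoodS 1 W S 𝔮 r P →
      PS F M S → Fam 1 B W f₁ S P f → 2 ^ κ * B ≤ 4 ^ N → 1 ≤ B → ¬ LBad 1 N κ S 𝔮 P f →
      ∃ J ⊆ S, Irreducible (fF (f.scaleRoots ((Dp J : ℕ) : 𝓞 F))) ∧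
        GoodP F M (cf (f.scaleRoots ((Dp J : ℕ) : 𝓞 F))) ∧
        Min 1 (f.scaleRoots ((Dp J : ℕ) : 𝓞 F)) := by
  obtain ⟨κ₁, hκ₁⟩ := core 1 F le_rfl
  obtain ⟨κ₂, hκ₂⟩ := sqf 1 F le_rfl
  refine ⟨max κ₁ κ₂, fun B N W f₁ S 𝔮 r P f hW hf₁ hE hS hΦ hF hBN hB hnb => ?_⟩
  have hBN1 : 2 ^ κ₁ * B ≤ 4 ^ N :=
    (Nat.mul_le_mul_right _ (Nat.pow_le_pow_right (by norm_num) (le_max_left _ _))).trans hBN
  have hBN2 : 2 ^ κ₂ * B ≤ 4 ^ N :=
    (Nat.mul_le_mul_right _ (Nat.pow_le_pow_right (by norm_num) (le_max_right _ _))).trans hBN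
  have hnb1 : ¬ LBad 1 N κ₁ S 𝔮 P f := fun h => hnb (LBad.mono (le_max_left _ _) h)
  have hnb2 : ¬ LBad 1 N κ₂ S 𝔮 P f := fun h => hnb (LBad.mono (le_max_right _ _) h)
  have hm := hF.ht.mon
  have hd := hF.ht.deg
  have ht := hF.ht.tr
  have hirr : Irreducible (fF f) := Pool.Agent.N667.PF.irr F 1 W f₁ f hf₁ hF.one hm hd
  have hsq : SqF 1 f := hκ₂ B N W f₁ S 𝔮 r P f ((le_max_right _ _).trans hW) hf₁ hS hF hirr hBN2
    hB hnb2
  obtain ⟨L, _, _, _, θ, hc⟩ := Pool.Agent.N667.PF.gen F 1 f hm hd hirr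
  obtain ⟨J, hJ, hcore⟩ := hκ₁ L f f₁ θ B N W S 𝔮 r P ((le_max_left _ _).trans hW) hc hsq hf₁ hS
    hF hBN1 hB hnb1
  have D : Dat 1 W f f₁ θ S J 𝔮 r P := ⟨le_rfl, hc, hsq, hf₁, hS, hF.one, hF.con, hJ⟩
  refine ⟨J, hJ, ?_, ⟨?_, ?_, ?_⟩, ?_⟩
  · rw [Pool.Agent.N170.PF.fF_scale hm]
    exact Pool.Agent.N170.PF.irr_scale (Nat.cast_ne_zero.2 D.dp_ne) hirr
  · exact allGood selc Pool.Agent.N713.QM.gfc Pool.Agent.N459.QM.finc D ht hcore
  · exact adm_base hn h2 hr D ht hΦ hE.2.1 hE.1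
  · exact lam_infinite D ht hE.1 hE.2.2
  · exact Pool.Agent.N547.PF.min 1 W F S J 𝔮 r P f le_rfl hS hsq hm hd hF.con hJ

theorem final (F M : Type) [Field F] [NumberField F] [Field M] [NumberField M] [Algebra F M]
    [IsGalois F M] {n : ℕ} (hn : Module.finrank F M = 2 ^ n)
    (h2 : ∀ w : HeightOneSpectrum (𝓞 M), (2 : 𝓞 M) ∈ w.asIdeal → Tot F w)
    (hr : ∀ σ : F →+* ℝ, ∃ ρ : M →+* ℝ, ρ.comp (algebraMap F M) = σ) :
    ∃ c : ℝ, 0 < c ∧ ∃ Y₀ : ℝ,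
    ∀ Y : ℝ, {p : 𝓞 F × 𝓞 F | Crv Y p}.Finite ∧ (Y₀ ≤ Y → 0 < {p : 𝓞 F × 𝓞 F | Crv Y p}.ncard ∧
    c * ({p : 𝓞 F × 𝓞 F | Crv Y p}.ncard : ℝ) ≤
      ({p : 𝓞 F × 𝓞 F | Crv Y p ∧ GoodP F M p}.ncard : ℝ)) := by
  refine finW Pool.Agent.N490.PF.pts F (fun f => GoodP F M (cf f)) (GoodP F M) ?_
    (fun B f _ _ h _ => h)
  refine mainW Pool.Agent.N490.PF.pts bad F 1 le_rfl (EW F M) (PS F M)
    (fun f => GoodP F M (cf f)) ?_ ?_ (twW F M hn h2 hr)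
  · intro K
    obtain ⟨K₀, hK₀⟩ := famT F 1 le_rfl
    obtain ⟨R, hR0, hR⟩ := exists_R F M
    obtain ⟨p, hp1, hp⟩ := exists_splP F 1
    have hW0 : 0 < (K + K₀ + 2).factorial * (p * R) :=
      Nat.mul_pos (Nat.factorial_pos _) (Nat.mul_pos (by omega) hR0)
    have hfW : (K + K₀ + 2).factorial ∣ (K + K₀ + 2).factorial * (p * R) := dvd_mul_right _ _
    have hKW : K ≤ (K + K₀ + 2).factorial * (p * R) := by
      have h1 : K + K₀ + 2 ≤ (K + K₀ + 2).factorial := Nat.self_le_factorial _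
      have h2 := Nat.le_of_dvd hW0 hfW
      omega
    have h2W : 2 ∣ (K + K₀ + 2).factorial * (p * R) :=
      ((Nat.dvd_factorial (by norm_num) (by omega))).trans hfW
    obtain ⟨f₁, g1, g2, g3, g4⟩ := gfW F ((K + K₀ + 2).factorial * (p * R)) hW0
    have hgood := goodF_of hW0 h2W g1 g2 g3 g4
    refine ⟨(K + K₀ + 2).factorial * (p * R), f₁, hKW, hgood, ⟨g4, ?_, p, ?_, hp⟩, ?_⟩
    · intro w hw
      rw [Nat.cast_mul, Nat.cast_mul]
      exact Ideal.mul_mem_left _ _ (Ideal.mul_mem_left _ _ (hR w hw))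
    · exact Dvd.dvd.mul_left (dvd_mul_right _ _) _
    · refine hK₀ _ f₁ hgood fun q hq hqK => ?_
      exact (Nat.dvd_factorial hq.pos (by omega)).trans hfW
  · intro W m
    exact exsM F M 1 W le_rfl m

end Pool.Agent.H14F
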