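import Pool.Agent.H14F.Two

/-!
# Primes which split completely, unramified primes
-/

set_option autoImplicit false
set_option linter.all false

open Polynomial IsDedekindDomain NumberField
open scoped Classical Pointwise

namespace Pool.Agent.H14F

open Pool.Agent.N783.PF
open Pool.Agent.N874.PP (Ev Sq1 U0)
open Pool.Agent.N692.PMTOW (im sup_top normal_of_top)
open Pool.Agent.H14U (res res_apply inertia_bot stab_bot val_eq res_eq)

/-- The prime `w` of `M` is split over `F`: its decomposition group is trivial. -/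
def Tot (F : Type) {M : Type} [Field F] [Field M] [Algebra F M] (w : HeightOneSpectrum (𝓞 M)) :
    Prop := MulAction.stabilizer Gal(M/F) w.asIdeal = ⊥

/-- The prime `w` of `M` is unramified over `F`: its inertia group is trivial. -/
def Unr (F : Type) {M : Type} [Field F] [Field M] [Algebra F M] (w : HeightOneSpectrum (𝓞 M)) :
    Prop := w.asIdeal.inertia Gal(M/F) = ⊥

theorem Tot.unr {F M : Type} [Field F] [Field M] [Algebra F M] {w : HeightOneSpectrum (𝓞 M)}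
    (h : Tot F w) : Unr F w := by
  unfold Tot at h
  unfold Unr
  rw [eq_bot_iff, ← h]
  exact Ideal.inertia_le_stabilizer _

section gen

variable {L Ω : Type} [Field L] [Field Ω] [NumberField L] [NumberField Ω] [Algebra L Ω]

theorem dens {𝔭 : HeightOneSpectrum (𝓞 L)} {𝔓 : HeightOneSpectrum (𝓞 Ω)}
    (hv : ∀ x : L, 𝔓.valuation Ω (algebraMap L Ω x) = 𝔭.valuation L x)
    (hr : ∀ z : 𝓞 Ω, ∃ y : 𝓞 L, z - algebraMap (𝓞 L) (𝓞 Ω) y ∈ 𝔓.asIdeal) (s : Ω) (hs : s ≠ 0) :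
    ∃ s₀ : L, 𝔓.valuation Ω (s - algebraMap L Ω s₀) < 𝔓.valuation Ω s := by
  obtain ⟨t, ht⟩ := 𝔭.valuation_surjective L (𝔓.valuation Ω s)
  have hs0 : 𝔓.valuation Ω s ≠ 0 := (Valuation.ne_zero_iff _).2 hs
  have ht0 : t ≠ 0 := by
    rintro rfl
    rw [map_zero] at ht
    exact hs0 ht.symm
  have ht' : 𝔓.valuation Ω (algebraMap L Ω t) = 𝔓.valuation Ω s := by rw [hv, ht]
  have hq : 𝔓.valuation Ω (s / algebraMap L Ω t) = 1 := by
    rw [map_div₀, ht', div_self hs0]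
  obtain ⟨r, hr'⟩ := 𝔓.exists_valuation_sub_lt_of_integer hq.le 1
  rw [Units.val_one] at hr'
  obtain ⟨y, hy⟩ := hr r
  have h5 : 𝔓.valuation Ω (s / algebraMap L Ω t - algebraMap L Ω (y : L)) < 1 := by
    have e : s / algebraMap L Ω t - algebraMap L Ω (y : L) =
        algebraMap (𝓞 Ω) Ω (r - algebraMap (𝓞 L) (𝓞 Ω) y) -
          (algebraMap (𝓞 Ω) Ω r - s / algebraMap L Ω t) := by
      rw [map_sub]
      have e2 : algebraMap (𝓞 Ω) Ω (algebraMap (𝓞 L) (𝓞 Ω) y) = algebraMap L Ω (y : L) := rfl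
      rw [e2]
      ring
    rw [e]
    refine lt_of_le_of_lt (Valuation.map_sub _ _ _) (max_lt ?_ hr')
    rw [HeightOneSpectrum.valuation_lt_one_iff_mem]
    exact hy
  refine ⟨t * (y : L), ?_⟩
  have e : s - algebraMap L Ω (t * (y : L)) =
      algebraMap L Ω t * (s / algebraMap L Ω t - algebraMap L Ω (y : L)) := by
    have : algebraMap L Ω t ≠ 0 := by
      simpa using ht0
    rw [map_mul]
    field_simp
  rw [e, map_mul, ht']
  have hpos : 0 < 𝔓.valuation Ω s := zero_lt_iff.2 hs0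
  calc 𝔓.valuation Ω s * 𝔓.valuation Ω (s / algebraMap L Ω t - algebraMap L Ω (y : L))
      < 𝔓.valuation Ω s * 1 := mul_lt_mul_of_pos_left h5 hpos
    _ = 𝔓.valuation Ω s := mul_one _

/-- There is a prime over a given prime. -/
theorem exists_above (𝔭 : HeightOneSpectrum (𝓞 L)) :
    ∃ 𝔓 : HeightOneSpectrum (𝓞 Ω), 𝔓.under (𝓞 L) = 𝔭 := by
  obtain ⟨P, hPm, hP⟩ := Ideal.exists_maximal_ideal_liesOver_of_isIntegral (S := 𝓞 Ω) 𝔭.asIdeal
  have hne : P ≠ ⊥ := by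
    rintro rfl
    apply 𝔭.ne_bot
    rw [hP.over, Ideal.under_bot]
  exact ⟨⟨P, hPm.isPrime, hne⟩, HeightOneSpectrum.ext hP.over.symm⟩

theorem mem_under (𝔓 : HeightOneSpectrum (𝓞 Ω)) (a : 𝓞 L) :
    a ∈ (𝔓.under (𝓞 L)).asIdeal ↔ algebraMap (𝓞 L) (𝓞 Ω) a ∈ 𝔓.asIdeal := Iff.rfl

theorem nat_mem_under (𝔓 : HeightOneSpectrum (𝓞 Ω)) (n : ℕ) :
    (n : 𝓞 L) ∈ (𝔓.under (𝓞 L)).asIdeal ↔ (n : 𝓞 Ω) ∈ 𝔓.asIdeal := by
  rw [mem_under, map_natCast]

theorem lies_under (𝔓 : HeightOneSpectrum (𝓞 Ω)) :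
    Pool.Agent.N874.PM.Lies (M := L) (Ω := Ω) (𝔓.under (𝓞 L)) 𝔓 := by
  haveI : 𝔓.asIdeal.LiesOver (𝔓.under (𝓞 L)).asIdeal := ⟨rfl⟩
  have hv := HeightOneSpectrum.valuation_liesOver (K := L) Ω (𝔓.under (𝓞 L)) 𝔓
  have he : (𝔓.under (𝓞 L)).asIdeal.ramificationIdx' 𝔓.asIdeal ≠ 0 :=
    Ideal.IsDedekindDomain.ramificationIdx'_ne_zero_of_liesOver 𝔓.asIdeal (𝔓.under (𝓞 L)).ne_bot
  refine ⟨fun x h => ?_, fun x h => ?_⟩
  · rw [← hv x]
    exact pow_le_one' h _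
  · rw [← hv x]
    exact pow_lt_one' h he

theorem unr_val [IsGalois L Ω] {𝔓 : HeightOneSpectrum (𝓞 Ω)} (h : Unr L 𝔓) (x : L) :
    𝔓.valuation Ω (algebraMap L Ω x) = (𝔓.under (𝓞 L)).valuation L x :=
  val_eq (𝔓.under (𝓞 L)) 𝔓 ⟨rfl⟩ h x

theorem tot_res [IsGalois L Ω] {𝔓 : HeightOneSpectrum (𝓞 Ω)} (h : Tot L 𝔓) (z : 𝓞 Ω) :
    ∃ y : 𝓞 L, z - algebraMap (𝓞 L) (𝓞 Ω) y ∈ 𝔓.asIdeal :=
  res_eq (𝔓.under (𝓞 L)) 𝔓 ⟨rfl⟩ h z

theorem tot_dens [IsGalois L Ω] {𝔓 : HeightOneSpectrum (𝓞 Ω)} (h : Tot L 𝔓) (s : Ω)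
    (hs : s ≠ 0) : ∃ s₀ : L, 𝔓.valuation Ω (s - algebraMap L Ω s₀) < 𝔓.valuation Ω s :=
  dens (unr_val h.unr) (tot_res h) s hs

/-- Irreducibility modulo a split prime. -/
theorem irr_mod {w : HeightOneSpectrum (𝓞 Ω)}
    (hs : ∀ z : 𝓞 Ω, ∃ y : 𝓞 L, z - algebraMap (𝓞 L) (𝓞 Ω) y ∈ w.asIdeal) {h : (𝓞 L)[X]}
    (hirr : Irreducible (h.map (Ideal.Quotient.mk (w.under (𝓞 L)).asIdeal))) :
    Irreducible ((h.map (algebraMap (𝓞 L) (𝓞 Ω))).map (Ideal.Quotient.mk w.asIdeal)) := by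
  have hsur : Function.Surjective ((Ideal.Quotient.mk w.asIdeal).comp
      (algebraMap (𝓞 L) (𝓞 Ω))) := by
    intro y
    obtain ⟨y, rfl⟩ := Ideal.Quotient.mk_surjective y
    obtain ⟨z, hz⟩ := hs y
    refine ⟨z, ?_⟩
    rw [RingHom.comp_apply, eq_comm, Ideal.Quotient.eq]
    exact hz
  have hker : (w.under (𝓞 L)).asIdeal = RingHom.ker ((Ideal.Quotient.mk w.asIdeal).comp
      (algebraMap (𝓞 L) (𝓞 Ω))) := by
    ext a
    rw [RingHom.mem_ker, RingHom.comp_apply, Ideal.Quotient.eq_zero_iff_mem]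
    exact mem_under w a
  let φ : (𝓞 L ⧸ (w.under (𝓞 L)).asIdeal) ≃+* (𝓞 Ω ⧸ w.asIdeal) :=
    (Ideal.quotEquivOfEq hker).trans (RingHom.quotientKerEquivOfSurjective hsur)
  have e : (h.map (algebraMap (𝓞 L) (𝓞 Ω))).map (Ideal.Quotient.mk w.asIdeal) =
      Polynomial.mapEquiv φ (h.map (Ideal.Quotient.mk (w.under (𝓞 L)).asIdeal)) := by
    rw [Polynomial.mapEquiv_apply, Polynomial.map_map, Polynomial.map_map]
    congr 1
  rw [e]
  exact (MulEquiv.irreducible_iff (Polynomial.mapEquiv φ)).2 hirr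

end gen

section comp

variable {F L M Ω : Type} [Field F] [NumberField F] [Field L] [NumberField L] [Field M]
  [NumberField M] [Field Ω] [NumberField Ω] [Algebra F L] [Algebra F M] [Algebra L Ω]
  [Algebra M Ω] [Algebra F Ω] [IsScalarTower F L Ω] [IsScalarTower F M Ω] [IsGalois F M]

theorem unr_comp (htop : im F M Ω ⊔ im F L Ω = ⊤) {𝔓 : HeightOneSpectrum (𝓞 Ω)}
    (h : Unr F (𝔓.under (𝓞 M))) : Unr L 𝔓 := inertia_bot (K := F) htop 𝔓.asIdeal h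

theorem tot_comp (htop : im F M Ω ⊔ im F L Ω = ⊤) {𝔓 : HeightOneSpectrum (𝓞 Ω)}
    (h : Tot F (𝔓.under (𝓞 M))) : Tot L 𝔓 := stab_bot (K := F) htop 𝔓.asIdeal h

theorem under_under (𝔓 : HeightOneSpectrum (𝓞 Ω)) :
    (𝔓.under (𝓞 L)).under (𝓞 F) = (𝔓.under (𝓞 M)).under (𝓞 F) := by
  ext a
  rw [mem_under, mem_under, mem_under, mem_under]
  have e : algebraMap (𝓞 L) (𝓞 Ω) (algebraMap (𝓞 F) (𝓞 L) a) =
      algebraMap (𝓞 M) (𝓞 Ω) (algebraMap (𝓞 F) (𝓞 M) a) := by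
    apply RingOfIntegers.ext
    show algebraMap L Ω (algebraMap F L (a : F)) = algebraMap M Ω (algebraMap F M (a : F))
    rw [← IsScalarTower.algebraMap_apply F L Ω, ← IsScalarTower.algebraMap_apply F M Ω]
  rw [e]

end comp

end Pool.Agent.H14F
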