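import Pool.Agent.W401.Cheb.Main
import Pool.Agent.H14F.Split

/-!
# Frobenius elements
-/

set_option autoImplicit false
set_option linter.all false

open Polynomial NumberField IsDedekindDomain
open scoped Pointwise

namespace Pool.Agent.H14F

open Pool.Agent.W401.Cheb (xp HasFrob TorAt infinite_frob torsor)

/-- Every number field is contained in one which is Galois over `ℚ`. -/
theorem exists_gal (K : Type) [Field K] [NumberField K] : ∃ (N : Type) (_ : Field N)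
    (_ : NumberField N) (_ : IsGalois ℚ N) (_ : Algebra K N), True := by
  let A := AlgebraicClosure K
  haveI : Normal ℚ A := by
    haveI : IsAlgClosure ℚ A := ⟨inferInstance, Algebra.IsAlgebraic.trans ℚ K A⟩
    exact IsAlgClosure.normal ℚ A
  let N := IntermediateField.normalClosure ℚ K A
  haveI : FiniteDimensional ℚ N := normalClosure.is_finiteDimensional ℚ K A
  haveI : Normal ℚ N := normalClosure.normal ℚ K A
  haveI : NumberField N := ⟨⟩
  haveI : IsGalois ℚ N := {}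
  exact ⟨N, inferInstance, inferInstance, inferInstance, normalClosure.algebra ℚ K A, trivial⟩

section hom

variable {N : Type} [Field N] [NumberField N]

/-- A homomorphism with given kernel. -/
theorem hom_above {p : ℕ} [Fact p.Prime] (Q : HeightOneSpectrum (𝓞 N)) (h : (p : 𝓞 N) ∈ Q.asIdeal) :
    ∃ φ : 𝓞 N →+* AlgebraicClosure (ZMod p), ∀ x, φ x = 0 ↔ x ∈ Q.asIdeal := by
  haveI := Q.isMaximal
  letI : Field (𝓞 N ⧸ Q.asIdeal) := Ideal.Quotient.field Q.asIdeal
  haveI : Finite (𝓞 N ⧸ Q.asIdeal) := Ideal.finiteQuotientOfFreeOfNeBot _ Q.ne_bot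
  have hp0 : ((p : ℕ) : 𝓞 N ⧸ Q.asIdeal) = 0 := by
    have h1 := Ideal.Quotient.eq_zero_iff_mem.2 h
    rwa [map_natCast] at h1
  haveI : CharP (𝓞 N ⧸ Q.asIdeal) p := by
    refine (CharP.charP_iff_prime_eq_zero (Fact.out : p.Prime)).2 hp0
  letI : Algebra (ZMod p) (𝓞 N ⧸ Q.asIdeal) := ZMod.algebra _ p
  haveI : Module.Finite (ZMod p) (𝓞 N ⧸ Q.asIdeal) := Module.Finite.of_finite
  let j : (𝓞 N ⧸ Q.asIdeal) →ₐ[ZMod p] AlgebraicClosure (ZMod p) := IsAlgClosed.lift
  refine ⟨(j : (𝓞 N ⧸ Q.asIdeal) →+* AlgebraicClosure (ZMod p)).comp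
    (Ideal.Quotient.mk Q.asIdeal), fun x => ?_⟩
  rw [RingHom.comp_apply]
  constructor
  · intro h1
    have h2 : (Ideal.Quotient.mk Q.asIdeal) x = 0 := by
      apply (j : (𝓞 N ⧸ Q.asIdeal) →+* AlgebraicClosure (ZMod p)).injective
      rw [h1, map_zero]
    exact Ideal.Quotient.eq_zero_iff_mem.1 h2
  · intro h1
    rw [Ideal.Quotient.eq_zero_iff_mem.2 h1, map_zero]

variable {K : Type} [Field K] [NumberField K] [Algebra K N] {p : ℕ} [Fact p.Prime]

/-- restriction of a homomorphism -/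
noncomputable abbrev rs (K : Type) [Field K] [Algebra K N] (φ : 𝓞 N →+* AlgebraicClosure (ZMod p)) :
    𝓞 K →+* AlgebraicClosure (ZMod p) := φ.comp (algebraMap (𝓞 K) (𝓞 N))

end hom

section gal

variable {N : Type} [Field N] [NumberField N] [IsGalois ℚ N] {p : ℕ} [Fact p.Prime]

theorem inv_int (b : 𝓞 N) (hb : ∀ σ : Gal(N/ℚ), σ • b = b) : ∃ n : ℤ, (n : 𝓞 N) = b := by
  have hb1 : ∀ σ : Gal(N/ℚ), σ (b : N) = (b : N) := fun σ =>
    congrArg (algebraMap (𝓞 N) N) (hb σ)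
  have hb2 : (b : N) ∈ (⊥ : IntermediateField ℚ N) :=
    (IsGalois.mem_bot_iff_fixed (F := ℚ) (E := N) (b : N)).mpr hb1
  obtain ⟨q, hq⟩ := IntermediateField.mem_bot.mp hb2
  have hint : IsIntegral ℤ q := by
    rw [← isIntegral_algebraMap_iff (algebraMap ℚ N).injective, hq]
    exact b.2
  obtain ⟨n, hn⟩ := IsIntegrallyClosed.isIntegral_iff.mp hint
  refine ⟨n, ?_⟩
  apply RingOfIntegers.ext
  rw [← hq, ← hn]
  simp

theorem frob_int (n : ℤ) : ((n : ℤ) : AlgebraicClosure (ZMod p)) ^ p = n := by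
  have e : ((n : ℤ) : AlgebraicClosure (ZMod p)) =
      algebraMap (ZMod p) (AlgebraicClosure (ZMod p)) (n : ZMod p) := by
    rw [map_intCast]
  rw [e, ← map_pow, ZMod.pow_card]

/-- transitivity -/
theorem hom_trans (φ φ' : 𝓞 N →+* AlgebraicClosure (ZMod p)) :
    ∃ σ : Gal(N/ℚ), ∀ y, φ' y = φ (σ • y) := by
  refine _root_.W54.ChTor.trans φ φ' fun b hb => ?_
  obtain ⟨n, rfl⟩ := inv_int b hb
  rw [map_intCast, map_intCast]

/-- There are Frobenius elements. -/
theorem exists_frob (φ : 𝓞 N →+* AlgebraicClosure (ZMod p)) : ∃ g : Gal(N/ℚ), HasFrob p φ g := by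
  haveI : CharP (AlgebraicClosure (ZMod p)) p := inferInstance
  obtain ⟨g, hg⟩ := hom_trans φ ((frobenius (AlgebraicClosure (ZMod p)) p).comp φ)
  refine ⟨g, fun x => ?_⟩
  rw [← hg, RingHom.comp_apply, frobenius_def]

end gal

/-- The prime `p` splits completely in the Galois extension `N` of `ℚ`. -/
structure Spl (N : Type) [Field N] [NumberField N] [IsGalois ℚ N] (p : ℕ) [Fact p.Prime] : Prop where
  free : ∀ (φ : 𝓞 N →+* AlgebraicClosure (ZMod p)) (σ : Gal(N/ℚ)), (∀ y, φ (σ • y) = φ y) → σ = 1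
  frob : ∀ (φ : 𝓞 N →+* AlgebraicClosure (ZMod p)) (x : 𝓞 N), φ x ^ p = φ x

/-- There are infinitely many primes which have the Frobenius element `g` and are unramified. -/
theorem inf_frob (N : Type) [Field N] [NumberField N] [IsGalois ℚ N] (g : Gal(N/ℚ)) (B : ℕ) :
    ∃ (p : ℕ) (_ : Fact p.Prime), B < p ∧ (∃ φ : 𝓞 N →+* AlgebraicClosure (ZMod p),
      HasFrob p φ g) ∧ ∀ (φ : 𝓞 N →+* AlgebraicClosure (ZMod p)) (σ : Gal(N/ℚ)),
      (∀ y, φ (σ • y) = φ y) → σ = 1 := by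
  classical
  obtain ⟨D, hD0, hD⟩ := torsor N
  have h1 := infinite_frob N g
  obtain ⟨p, ⟨hp, hx⟩, hpB⟩ := h1.exists_gt (max B D)
  haveI : Fact p.Prime := ⟨hp⟩
  have hpD : ¬ p ∣ D := fun h => absurd (Nat.le_of_dvd hD0 h)
    (not_le.2 ((le_max_right _ _).trans_lt hpB))
  obtain ⟨-, t2, -⟩ := hD p hpD
  unfold xp at hx
  rw [dif_pos hp] at hx
  obtain ⟨⟨φ, hφ⟩⟩ : Nonempty {φ : 𝓞 N →+* AlgebraicClosure (ZMod p) // HasFrob p φ g} := by
    by_contra hcon
    rw [not_nonempty_iff] at hcon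
    exact hx (@Nat.card_of_isEmpty _ hcon)
  refine ⟨p, inferInstance, (le_max_left _ _).trans_lt hpB, ⟨φ, hφ⟩, fun φ' σ h => ?_⟩
  obtain ⟨τ, -, hτ⟩ := t2 φ' φ'
  rw [hτ σ fun x => (h x).symm, hτ 1 fun x => by rw [one_smul]]

theorem exists_spl (N : Type) [Field N] [NumberField N] [IsGalois ℚ N] (B : ℕ) :
    ∃ (p : ℕ) (_ : Fact p.Prime), B < p ∧ Spl N p := by
  obtain ⟨p, hp, hpB, ⟨φ, hφ⟩, hfree⟩ := inf_frob N 1 B
  refine ⟨p, hp, hpB, hfree, fun φ' x => ?_⟩
  obtain ⟨σ, hσ⟩ := hom_trans φ φ'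
  rw [hσ, ← hφ, one_smul]

section split

variable {N : Type} [Field N] [NumberField N] [IsGalois ℚ N] {p : ℕ} [Fact p.Prime]

/-- Frobenius elements of a larger field. -/
theorem Spl.fix (h : Spl N p) {N' : Type} [Field N'] [NumberField N'] [IsGalois ℚ N'] [Algebra N N']
    {φ : 𝓞 N' →+* AlgebraicClosure (ZMod p)} {g : Gal(N'/ℚ)} (hg : HasFrob p φ g) (a : N) :
    g (algebraMap N N' a) = algebraMap N N' a := by
  haveI : IsScalarTower ℚ N N' := inferInstance
  have h1 : g.restrictNormal N = 1 := by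
    apply h.free (φ.comp (algebraMap (𝓞 N) (𝓞 N')))
    intro y
    rw [RingHom.comp_apply, RingHom.comp_apply]
    have e : algebraMap (𝓞 N) (𝓞 N') (g.restrictNormal N • y) = g • (algebraMap (𝓞 N) (𝓞 N') y) := by
      apply RingOfIntegers.ext
      exact g.restrictNormal_commutes N (y : N)
    rw [e, hg]
    exact h.frob (φ.comp (algebraMap (𝓞 N) (𝓞 N'))) y
  have h2 := g.restrictNormal_commutes N a
  rw [h1] at h2
  exact h2.symm

/-- Split primes in a subfield. -/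
theorem Spl.tot (h : Spl N p) {F M : Type} [Field F] [NumberField F] [Field M] [NumberField M] [Algebra F M]
    [Algebra M N] [Normal F M] {w : HeightOneSpectrum (𝓞 M)} (hw : (p : 𝓞 M) ∈ w.asIdeal) :
    Tot F w := by
  obtain ⟨Q, hQ⟩ := exists_above (Ω := N) w
  have hQp : (p : 𝓞 N) ∈ Q.asIdeal := by
    rw [← nat_mem_under (L := M), hQ]
    exact hw
  obtain ⟨φ, hφ⟩ := hom_above Q hQp
  haveI : IsScalarTower ℚ M N := inferInstance
  haveI : IsGalois M N := IsGalois.tower_top_of_isGalois ℚ M N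
  haveI : FiniteDimensional M N := FiniteDimensional.right ℚ M N
  unfold Tot
  rw [eq_bot_iff]
  intro σ hσ
  rw [Subgroup.mem_bot]
  rw [MulAction.mem_stabilizer_iff] at hσ
  have hσw : ∀ y : 𝓞 M, y ∈ w.asIdeal → σ • y ∈ w.asIdeal := by
    intro y hy
    rw [← hσ]
    exact Ideal.smul_mem_pointwise_smul _ _ _ hy
  let σ' : Gal(N/ℚ) := (σ.restrictScalars ℚ).liftNormal N
  have hσ' : ∀ x : M, σ' (algebraMap M N x) = algebraMap M N (σ x) := fun x =>
    AlgEquiv.liftNormal_commutes _ N x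
  have hσO : ∀ x : 𝓞 M, σ' • (algebraMap (𝓞 M) (𝓞 N) x) = algebraMap (𝓞 M) (𝓞 N) (σ • x) := by
    intro x
    apply RingOfIntegers.ext
    exact hσ' (x : M)
  have mem : ∀ y : 𝓞 M, φ (algebraMap (𝓞 M) (𝓞 N) y) = 0 ↔ y ∈ w.asIdeal := by
    intro y
    rw [hφ, ← mem_under, hQ]
  have hag : ∀ y : 𝓞 M, φ (σ' • algebraMap (𝓞 M) (𝓞 N) y) = φ (algebraMap (𝓞 M) (𝓞 N) y) := by
    intro y
    obtain ⟨m, hm⟩ := _root_.W54.ChTor.frob_fixed p _ (h.frob φ (algebraMap (𝓞 M) (𝓞 N) y))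
    obtain ⟨m, rfl⟩ := ZMod.intCast_surjective m
    rw [map_intCast] at hm
    have h1 : y - (m : 𝓞 M) ∈ w.asIdeal := by
      rw [← mem, map_sub, map_sub, map_intCast, map_intCast, hm, sub_self]
    have h2 := hσw _ h1
    rw [smul_sub, ← mem, map_sub, map_sub] at h2
    have h3 : σ • (m : 𝓞 M) = (m : 𝓞 M) := by
      apply RingOfIntegers.ext
      exact map_intCast σ m
    rw [h3, map_intCast, map_intCast, sub_eq_zero] at h2
    rw [hσO, h2, hm]
  obtain ⟨η, hη⟩ := _root_.W54.ChTor.trans (H := Gal(N/M)) φ (φ.comp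
    (MulSemiringAction.toRingHom Gal(N/ℚ) (𝓞 N) σ')) (by
      intro b hb
      have hb1 : ∀ τ : Gal(N/M), τ (b : N) = (b : N) := fun τ =>
        congrArg (algebraMap (𝓞 N) N) (hb τ)
      have hb2 : (b : N) ∈ (⊥ : IntermediateField M N) :=
        (IsGalois.mem_bot_iff_fixed (F := M) (E := N) (b : N)).mpr hb1
      obtain ⟨q, hq⟩ := IntermediateField.mem_bot.mp hb2
      have hint : IsIntegral ℤ q := by
        rw [← isIntegral_algebraMap_iff (algebraMap M N).injective, hq]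
        exact b.2
      have e : b = algebraMap (𝓞 M) (𝓞 N) ⟨q, hint⟩ := RingOfIntegers.ext hq.symm
      rw [e]
      exact (hag _).symm)
  have hη' : ∀ y : 𝓞 N, φ (σ' • y) = φ (η.restrictScalars ℚ • y) := fun y => hη y
  have h4 : σ' * (η.restrictScalars ℚ)⁻¹ = 1 := by
    apply h.free φ
    intro y
    rw [mul_smul, hη', smul_inv_smul]
  have h5 : σ' = η.restrictScalars ℚ := mul_inv_eq_one.1 h4
  apply AlgEquiv.ext
  intro x
  apply (algebraMap M N).injective
  rw [← hσ', h5]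
  exact η.commutes x

end split

end Pool.Agent.H14F
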