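import Pool.Agent.H14F.Quad

/-!
# Rational primes modulo which the cubic has no roots, with quadratic conditions
-/

set_option autoImplicit false
set_option linter.all false

open Polynomial IsDedekindDomain NumberField
open scoped Classical IntermediateField Pointwise

namespace Pool.Agent.H14F

open Pool.Agent.W401.Cheb (HasFrob)

theorem splits_of_dvd {K N : Type} [Field K] [Field N] [Algebra K N] {P Q : K[X]} (hP : P ≠ 0)
    (h : (P.map (algebraMap K N)).Splits) (hQ : Q ∣ P) : (Q.map (algebraMap K N)).Splits :=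
  h.of_dvd (by rw [Ne, Polynomial.map_eq_zero]; exact hP) (Polynomial.map_dvd _ hQ)

/-- the roots of a cubic polynomial -/
theorem cubic_roots {K N : Type} [Field K] [CharZero K] [Field N] [Algebra K N] {a b : K}
    (hirr : Irreducible (X ^ 3 + C a * X + C b : K[X]))
    (h : ((X ^ 3 + C a * X + C b : K[X]).map (algebraMap K N)).Splits) :
    ∃ x y z : N, x ≠ y ∧ y ≠ z ∧ z ≠ x ∧
      ∀ t : N, t ^ 3 + algebraMap K N a * t + algebraMap K N b = (t - x) * (t - y) * (t - z) := by
  have hm : (X ^ 3 + C a * X + C b : K[X]).Monic := by monicity!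
  have hd : (X ^ 3 + C a * X + C b : K[X]).natDegree = 3 := by compute_degree!
  set Q := (X ^ 3 + C a * X + C b : K[X]).map (algebraMap K N) with hQ
  have hmQ : Q.Monic := hm.map _
  have hcard : Q.roots.card = 3 := by
    rw [(splits_iff_card_roots.1 h), hm.natDegree_map, hd]
  obtain ⟨x, y, z, hxyz⟩ := Multiset.card_eq_three.1 hcard
  have hprod : Q = (X - C x) * (X - C y) * (X - C z) := by
    have h4 := (h.eq_prod_roots_of_monic hmQ)
    rw [hxyz] at h4
    simpa [mul_assoc] using h4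
  have hsepr : (X ^ 3 + C a * X + C b : K[X]).Separable := hirr.separable
  have hnd : Q.roots.Nodup := nodup_roots (hsepr.map)
  rw [hxyz] at hnd
  have hn : x ≠ y ∧ x ≠ z ∧ y ≠ z := by
    simpa [Multiset.insert_eq_cons, not_or, and_assoc] using hnd
  refine ⟨x, y, z, hn.1, hn.2.2, hn.2.1.symm, fun t => ?_⟩
  have h5 := congrArg (eval t) hprod
  rw [hQ] at h5
  simpa using h5

/-- a permutation of three elements without fixed elements -/
theorem cyc3 {N : Type} {G : N → N} (hG : Function.Injective G) {a b c : N} (hab : a ≠ b)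
    (hbc : b ≠ c) (hca : c ≠ a) (h : ∀ u, u = a ∨ u = b ∨ u = c → (G u = a ∨ G u = b ∨ G u = c) ∧
      G u ≠ u) : (G a = b ∧ G b = c ∧ G c = a) ∨ (G a = c ∧ G c = b ∧ G b = a) := by
  obtain ⟨a1, a2⟩ := h a (Or.inl rfl)
  obtain ⟨b1, b2⟩ := h b (Or.inr (Or.inl rfl))
  obtain ⟨c1, c2⟩ := h c (Or.inr (Or.inr rfl))
  rcases a1 with a1 | a1 | a1
  · exact absurd a1 a2
  · rcases b1 with b1 | b1 | b1
    · rcases c1 with c1 | c1 | c1
      · exact absurd (hG (c1.trans b1.symm)) hbc.symm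
      · exact absurd (hG (c1.trans a1.symm)) hca
      · exact absurd c1 c2
    · exact absurd b1 b2
    · rcases c1 with c1 | c1 | c1
      · exact Or.inl ⟨a1, b1, c1⟩
      · exact absurd (hG (c1.trans a1.symm)) hca
      · exact absurd c1 c2
  · rcases b1 with b1 | b1 | b1
    · rcases c1 with c1 | c1 | c1
      · exact absurd (hG (c1.trans b1.symm)) hbc.symm
      · exact Or.inr ⟨a1, c1, b1⟩
      · exact absurd c1 c2
    · exact absurd b1 b2
    · exact absurd (hG (b1.trans a1.symm)) hab.symm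

section

variable {F : Type} [Field F] [NumberField F]

theorem int_root {N : Type} [Field N] [NumberField N] [Algebra F N] {A B : 𝓞 F} {u : N}
    (hu : u ^ 3 + algebraMap F N (A : F) * u + algebraMap F N (B : F) = 0) :
    ∃ υ : 𝓞 N, (υ : N) = u ∧
      υ ^ 3 + algebraMap (𝓞 F) (𝓞 N) A * υ + algebraMap (𝓞 F) (𝓞 N) B = 0 := by
  have h1 : IsIntegral (𝓞 F) u := by
    refine ⟨X ^ 3 + C A * X + C B, by monicity!, ?_⟩
    rw [eval₂_add, eval₂_add, eval₂_mul, eval₂_pow, eval₂_X, eval₂_C, eval₂_C]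
    exact hu
  have h2 : IsIntegral ℤ u := isIntegral_trans (R := ℤ) (A := 𝓞 F) u h1
  refine ⟨⟨u, h2⟩, rfl, ?_⟩
  apply RingOfIntegers.ext
  exact hu

/-- no roots, in terms of homomorphisms -/
theorem noroot_hom {p : ℕ} [Fact p.Prime] {A B : 𝓞 F}
    (h : ∀ v : HeightOneSpectrum (𝓞 F), (p : 𝓞 F) ∈ v.asIdeal →
      ∀ z : 𝓞 F, z ^ 3 + A * z + B ∉ v.asIdeal)
    (ψ : 𝓞 F →+* AlgebraicClosure (ZMod p)) (z : 𝓞 F) : ψ (z ^ 3 + A * z + B) ≠ 0 := by
  intro h0
  have hk : (p : 𝓞 F) ∈ RingHom.ker ψ := by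
    rw [RingHom.mem_ker, map_natCast]
    exact CharP.cast_eq_zero _ p
  have hne : RingHom.ker ψ ≠ ⊥ := by
    intro h1
    rw [h1, Ideal.mem_bot, Nat.cast_eq_zero] at hk
    exact (Fact.out : p.Prime).ne_zero hk
  exact h ⟨RingHom.ker ψ, RingHom.ker_isPrime ψ, hne⟩ hk z ((RingHom.mem_ker).2 h0)

end

end Pool.Agent.H14F
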