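import Pool.Agent.H14F.Lam

/-!
# The automorphism and its Frobenius primes
-/

set_option autoImplicit false
set_option linter.all false

open Polynomial IsDedekindDomain NumberField
open scoped Classical IntermediateField Pointwise

namespace Pool.Agent.H14F

open Pool.Agent.W401.Cheb (HasFrob)

section

variable {F N : Type} [Field F] [NumberField F] [Field N] [NumberField N] [IsGalois ℚ N]
  [Algebra F N]

/-- `g` fixes all conjugates of `F` and permutes the conjugates of `x`, `y`, `z` cyclically. -/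
structure Cyc (F : Type) [Field F] [Algebra F N] (g : Gal(N/ℚ)) (x y z : N) : Prop where
  fix : ∀ (σ : Gal(N/ℚ)) (a : F), g (σ (algebraMap F N a)) = σ (algebraMap F N a)
  cyc : ∀ (σ : Gal(N/ℚ)) (u : N), u = x ∨ u = y ∨ u = z →
    (g (σ u) = σ x ∨ g (σ u) = σ y ∨ g (σ u) = σ z) ∧ g (σ u) ≠ σ u

theorem smulc (σ : Gal(N/ℚ)) (x : 𝓞 N) : ((σ • x : 𝓞 N) : N) = σ (x : N) := rfl

theorem exists_cyc {p : ℕ} [Fact p.Prime] {N₀ : Type} [Field N₀] [NumberField N₀] [IsGalois ℚ N₀]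
    [Algebra N₀ N] [Algebra F N₀] [IsScalarTower F N₀ N] (hs : Spl N₀ p) {A B : 𝓞 F}
    (hnr : ∀ v : HeightOneSpectrum (𝓞 F), (p : 𝓞 F) ∈ v.asIdeal →
      ∀ z : 𝓞 F, z ^ 3 + A * z + B ∉ v.asIdeal)
    {x y z : N} (hxy : x ≠ y) (hyz : y ≠ z) (hzx : z ≠ x)
    (hf : ∀ t : N, t ^ 3 + algebraMap F N (A : F) * t + algebraMap F N (B : F) =
      (t - x) * (t - y) * (t - z)) :
    ∃ g : Gal(N/ℚ), Cyc F g x y z ∧ ∀ (r : N) (n : ℤ), r ^ 2 = (n : N) → g r = r := by
  obtain ⟨φ⟩ := exists_hom_p N p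
  obtain ⟨g, hg⟩ := exists_frob φ
  -- `g` fixes the conjugates of `F`
  have hfix : ∀ (σ : Gal(N/ℚ)) (a : F), g (σ (algebraMap F N a)) = σ (algebraMap F N a) := by
    intro σ a
    have h1 : σ (algebraMap F N a) = algebraMap N₀ N (σ.restrictNormal N₀ (algebraMap F N₀ a)) := by
      rw [σ.restrictNormal_commutes, ← IsScalarTower.algebraMap_apply F N₀ N]
    rw [h1]
    exact hs.fix hg _
  have hu0 : ∀ u : N, u = x ∨ u = y ∨ u = z →
      u ^ 3 + algebraMap F N (A : F) * u + algebraMap F N (B : F) = 0 := by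
    intro u hu
    rw [hf]
    rcases hu with rfl | rfl | rfl <;> ring
  have hcyc : ∀ (σ : Gal(N/ℚ)) (u : N), u = x ∨ u = y ∨ u = z →
      (g (σ u) = σ x ∨ g (σ u) = σ y ∨ g (σ u) = σ z) ∧ g (σ u) ≠ σ u := by
    intro σ u hu
    have h1 := hu0 u hu
    constructor
    · have h2 : (σ⁻¹ (g (σ u))) ^ 3 + algebraMap F N (A : F) * (σ⁻¹ (g (σ u))) +
          algebraMap F N (B : F) = 0 := by
        apply σ.injective
        rw [map_zero, map_add, map_add, map_mul, map_pow]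
        have e : σ (σ⁻¹ (g (σ u))) = g (σ u) := by
          rw [← AlgEquiv.mul_apply, mul_inv_cancel, AlgEquiv.one_apply]
        rw [e, ← hfix σ (A : F), ← hfix σ (B : F), ← map_pow, ← map_mul, ← map_add, ← map_add,
          ← map_pow, ← map_mul, ← map_add, ← map_add, h1, map_zero, map_zero]
      rw [hf] at h2
      have e0 : ∀ t : N, σ (σ⁻¹ t) = t := fun t => by
        rw [← AlgEquiv.mul_apply, mul_inv_cancel, AlgEquiv.one_apply]
      have e : ∀ v : N, σ⁻¹ (g (σ u)) = v → g (σ u) = σ v := by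
        intro v hv
        rw [← hv, e0]
      rcases mul_eq_zero.1 h2 with h3 | h3
      · rcases mul_eq_zero.1 h3 with h3 | h3
        · exact Or.inl (e x (sub_eq_zero.1 h3))
        · exact Or.inr (Or.inl (e y (sub_eq_zero.1 h3)))
      · exact Or.inr (Or.inr (e z (sub_eq_zero.1 h3)))
    · intro h2
      obtain ⟨υ, hυ, hυ0⟩ := int_root h1
      let ψ : 𝓞 N →+* AlgebraicClosure (ZMod p) :=
        φ.comp (MulSemiringAction.toRingHom Gal(N/ℚ) (𝓞 N) σ)
      have hψ : ∀ t, ψ t = φ (σ • t) := fun t => rfl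
      have h3 : g • (σ • υ) = σ • υ := by
        apply RingOfIntegers.ext
        rw [smulc, smulc, hυ, h2]
      have h4 : ψ υ ^ p = ψ υ := by
        rw [hψ, ← hg, h3]
      obtain ⟨m, hm⟩ := _root_.W54.ChTor.frob_fixed p (ψ υ) h4
      obtain ⟨m, rfl⟩ := ZMod.intCast_surjective m
      rw [map_intCast] at hm
      apply noroot_hom hnr (ψ.comp (algebraMap (𝓞 F) (𝓞 N))) (m : 𝓞 F)
      have h5 := congrArg ψ hυ0
      simp only [map_add, map_mul, map_pow, map_zero] at h5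
      simp only [map_add, map_mul, map_pow, RingHom.comp_apply, map_intCast]
      rw [hm]
      exact h5
  refine ⟨g * g, ⟨?_, ?_⟩, ?_⟩
  · intro σ a
    rw [AlgEquiv.mul_apply, hfix, hfix]
  · intro σ u hu
    have h1 := cyc3 (G := g) (a := σ x) (b := σ y) (c := σ z) g.injective
      (fun h => hxy (σ.injective h)) (fun h => hyz (σ.injective h))
      (fun h => hzx (σ.injective h)) (by
        rintro v (rfl | rfl | rfl)
        · exact hcyc σ x (Or.inl rfl)
        · exact hcyc σ y (Or.inr (Or.inl rfl))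
        · exact hcyc σ z (Or.inr (Or.inr rfl)))
    have nxy : σ x ≠ σ y := fun h => hxy (σ.injective h)
    have nyz : σ y ≠ σ z := fun h => hyz (σ.injective h)
    have nzx : σ z ≠ σ x := fun h => hzx (σ.injective h)
    rcases h1 with ⟨e1, e2, e3⟩ | ⟨e1, e2, e3⟩
    · rcases hu with rfl | rfl | rfl
      · rw [AlgEquiv.mul_apply, e1, e2]
        exact ⟨Or.inr (Or.inr rfl), nzx⟩
      · rw [AlgEquiv.mul_apply, e2, e3]
        exact ⟨Or.inl rfl, nxy⟩
      · rw [AlgEquiv.mul_apply, e3, e1]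
        exact ⟨Or.inr (Or.inl rfl), nyz⟩
    · rcases hu with rfl | rfl | rfl
      · rw [AlgEquiv.mul_apply, e1, e2]
        exact ⟨Or.inr (Or.inl rfl), nxy.symm⟩
      · rw [AlgEquiv.mul_apply, e3, e1]
        exact ⟨Or.inr (Or.inr rfl), nyz.symm⟩
      · rw [AlgEquiv.mul_apply, e2, e3]
        exact ⟨Or.inl rfl, nzx.symm⟩
  · intro r n hr
    have h1 : (g r - r) * (g r + r) = 0 := by
      have h2 : g r ^ 2 = r ^ 2 := by
        rw [← map_pow, hr, map_intCast]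
      linear_combination h2
    rw [AlgEquiv.mul_apply]
    rcases mul_eq_zero.1 h1 with h | h
    · rw [sub_eq_zero.1 h, sub_eq_zero.1 h]
    · rw [eq_neg_of_add_eq_zero_left h, map_neg, eq_neg_of_add_eq_zero_left h, neg_neg]

theorem dvd_disc {R : Type} [CommRing R] {x y z u v : R} (hu : u = x ∨ u = y ∨ u = z)
    (hv : v = x ∨ v = y ∨ v = z) (huv : u ≠ v) :
    (u - v) ∣ ((x - y) * (y - z) * (z - x)) ^ 2 := by
  rcases hu with hu | hu | hu <;> rcases hv with hv | hv | hv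
  · exact absurd (hu.trans hv.symm) huv
  · rw [hu, hv]; exact ⟨(x - y) * ((y - z) * (z - x)) ^ 2, by ring⟩
  · rw [hu, hv]; exact ⟨(x - z) * ((x - y) * (y - z)) ^ 2, by ring⟩
  · rw [hu, hv]; exact ⟨(y - x) * ((y - z) * (z - x)) ^ 2, by ring⟩
  · exact absurd (hu.trans hv.symm) huv
  · rw [hu, hv]; exact ⟨(y - z) * ((x - y) * (z - x)) ^ 2, by ring⟩
  · rw [hu, hv]; exact ⟨(z - x) * ((x - y) * (y - z)) ^ 2, by ring⟩
  · rw [hu, hv]; exact ⟨(z - y) * ((x - y) * (z - x)) ^ 2, by ring⟩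
  · exact absurd (hu.trans hv.symm) huv

/-- The primes with Frobenius element `g`. -/
theorem frob_noroot {A B : 𝓞 F} {x y z : N}
    (hf : ∀ t : N, t ^ 3 + algebraMap F N (A : F) * t + algebraMap F N (B : F) =
      (t - x) * (t - y) * (t - z)) {g : Gal(N/ℚ)} (hg : Cyc F g x y z) {l : ℕ} [Fact l.Prime]
    {φ : 𝓞 N →+* AlgebraicClosure (ZMod l)} (hφ : HasFrob l φ g)
    (hd : ¬ l ∣ (Algebra.norm ℤ (4 * A ^ 3 + 27 * B ^ 2)).natAbs) (v : HeightOneSpectrum (𝓞 F))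
    (hv : (l : 𝓞 F) ∈ v.asIdeal) (z₀ : 𝓞 F) : z₀ ^ 3 + A * z₀ + B ∉ v.asIdeal := by
  intro h0
  obtain ⟨Q, hQ⟩ := exists_above (Ω := N) v
  have hQl : (l : 𝓞 N) ∈ Q.asIdeal := by
    rw [← nat_mem_under (L := F), hQ]
    exact hv
  obtain ⟨ψ, hψ⟩ := hom_above Q hQl
  obtain ⟨σ, hσ⟩ := hom_trans φ ψ
  have hu0 : ∀ u : N, u = x ∨ u = y ∨ u = z →
      u ^ 3 + algebraMap F N (A : F) * u + algebraMap F N (B : F) = 0 := by
    intro u hu
    rw [hf]
    rcases hu with rfl | rfl | rfl <;> ring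
  obtain ⟨x', hx', -⟩ := int_root (hu0 x (Or.inl rfl))
  obtain ⟨y', hy', -⟩ := int_root (hu0 y (Or.inr (Or.inl rfl)))
  obtain ⟨z', hz', -⟩ := int_root (hu0 z (Or.inr (Or.inr rfl)))
  have hf' : ∀ t : 𝓞 N, t ^ 3 + algebraMap (𝓞 F) (𝓞 N) A * t + algebraMap (𝓞 F) (𝓞 N) B =
      (t - x') * (t - y') * (t - z') := by
    intro t
    apply RingOfIntegers.ext
    have h1 := hf (t : N)
    rw [← hx', ← hy', ← hz'] at h1
    have e1 : (((t - x') * (t - y') * (t - z') : 𝓞 N) : N) =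
        ((t : N) - (x' : N)) * ((t : N) - (y' : N)) * ((t : N) - (z' : N)) := by
      simp
    rw [e1, ← h1]
    rfl
  -- the discriminant
  have hdisc : ((x' - y') * (y' - z') * (z' - x')) ^ 2 =
      -(algebraMap (𝓞 F) (𝓞 N) (4 * A ^ 3 + 27 * B ^ 2)) := by
    have h0 := hf' 0
    have h1 := hf' 1
    have h2 := hf' (-1)
    have e1 : 2 * (x' + y' + z') = 0 := by linear_combination h1 + h2 - 2 * h0
    have e1' : x' + y' + z' = 0 := by
      rcases mul_eq_zero.1 e1 with h | h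
      · exact absurd h two_ne_zero
      · exact h
    have eb : algebraMap (𝓞 F) (𝓞 N) B = - (x' * y' * z') := by linear_combination h0
    have ea : algebraMap (𝓞 F) (𝓞 N) A = x' * y' + y' * z' + z' * x' := by
      linear_combination h1 - h0 - e1'
    have ez : z' = - x' - y' := by linear_combination e1'
    rw [map_add, map_mul, map_mul, map_pow, map_pow, map_ofNat, map_ofNat, ea, eb, ez]
    ring
  have hdne : ψ (algebraMap (𝓞 F) (𝓞 N) (4 * A ^ 3 + 27 * B ^ 2)) ≠ 0 := by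
    intro h1
    have h2 := _root_.W54.ChTor.norm_mem (L := F) (4 * A ^ 3 + 27 * B ^ 2)
      (ψ.comp (algebraMap (𝓞 F) (𝓞 N))) h1
    rw [CharP.cast_eq_zero_iff _ l] at h2
    exact hd h2
  have hne : ∀ u v : 𝓞 N, (u = x' ∨ u = y' ∨ u = z') → (v = x' ∨ v = y' ∨ v = z') →
      u ≠ v → ψ u ≠ ψ v := by
    intro u v hu hv huv he
    have h3 : ψ (u - v) = 0 := by rw [map_sub, he, sub_self]
    have h4 : ψ (((x' - y') * (y' - z') * (z' - x')) ^ 2) = 0 := by
      have h5 := dvd_disc hu hv huv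
      obtain ⟨w, hw⟩ := h5
      rw [hw, map_mul, h3, zero_mul]
    rw [hdisc, map_neg, neg_eq_zero] at h4
    exact hdne h4
  -- the root
  have h3 : ψ (algebraMap (𝓞 F) (𝓞 N) (z₀ ^ 3 + A * z₀ + B)) = 0 := by
    rw [hψ, ← mem_under, hQ]
    exact h0
  have h4 : algebraMap (𝓞 F) (𝓞 N) (z₀ ^ 3 + A * z₀ + B) =
      (algebraMap (𝓞 F) (𝓞 N) z₀ - x') * (algebraMap (𝓞 F) (𝓞 N) z₀ - y') *
        (algebraMap (𝓞 F) (𝓞 N) z₀ - z') := by
    rw [← hf']
    rw [map_add, map_add, map_mul, map_pow]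
  rw [h4, map_mul, map_mul] at h3
  have hcycO : ∀ u : 𝓞 N, (u = x' ∨ u = y' ∨ u = z') → ∃ u' : 𝓞 N, (u' = x' ∨ u' = y' ∨ u' = z') ∧
      u' ≠ u ∧ g • (σ • u) = σ • u' := by
    intro u hu
    have huc : (u : N) = x ∨ (u : N) = y ∨ (u : N) = z := by
      rcases hu with rfl | rfl | rfl
      · exact Or.inl hx'
      · exact Or.inr (Or.inl hy')
      · exact Or.inr (Or.inr hz')
    obtain ⟨h5, h6⟩ := hg.cyc σ (u : N) huc
    have key : ∀ u' : 𝓞 N, (u' = x' ∨ u' = y' ∨ u' = z') → g (σ (u : N)) = σ (u' : N) →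
        ∃ u' : 𝓞 N, (u' = x' ∨ u' = y' ∨ u' = z') ∧ u' ≠ u ∧ g • (σ • u) = σ • u' := by
      intro u' hu' h7
      refine ⟨u', hu', ?_, ?_⟩
      · rintro rfl
        exact h6 h7
      · apply RingOfIntegers.ext
        rw [smulc, smulc, smulc]
        exact h7
    rcases h5 with h5 | h5 | h5
    · exact key x' (Or.inl rfl) (by rw [hx']; exact h5)
    · exact key y' (Or.inr (Or.inl rfl)) (by rw [hy']; exact h5)
    · exact key z' (Or.inr (Or.inr rfl)) (by rw [hz']; exact h5)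
  have key : ∀ u : 𝓞 N, (u = x' ∨ u = y' ∨ u = z') →
      ψ (algebraMap (𝓞 F) (𝓞 N) z₀) - ψ u = 0 → False := by
    intro u hu h5
    obtain ⟨u', hu', hne', hgu⟩ := hcycO u hu
    have h6 : φ (σ • algebraMap (𝓞 F) (𝓞 N) z₀) = φ (σ • u) := by
      rw [← hσ, ← hσ]
      exact sub_eq_zero.1 h5
    have h7 : φ (σ • algebraMap (𝓞 F) (𝓞 N) z₀) ^ l = φ (σ • u) ^ l := by rw [h6]
    rw [← hφ, ← hφ, hgu] at h7
    have h8 : g • (σ • algebraMap (𝓞 F) (𝓞 N) z₀) = σ • algebraMap (𝓞 F) (𝓞 N) z₀ := by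
      apply RingOfIntegers.ext
      rw [smulc, smulc]
      exact hg.fix σ (z₀ : F)
    rw [h8, h6, ← hσ, ← hσ] at h7
    exact hne u' u hu' hu hne' h7.symm
  rcases mul_eq_zero.1 h3 with h3 | h3
  · rcases mul_eq_zero.1 h3 with h3 | h3
    · exact key x' (Or.inl rfl) (by rw [map_sub] at h3; exact h3)
    · exact key y' (Or.inr (Or.inl rfl)) (by rw [map_sub] at h3; exact h3)
  · exact key z' (Or.inr (Or.inr rfl)) (by rw [map_sub] at h3; exact h3)

end

end Pool.Agent.H14F
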