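import Pool.Agent.H14F.Lam2

/-!
# Infinitely many primes `l` such that adjoining `√l` preserves admissibility
-/

set_option autoImplicit false
set_option linter.all false

open Polynomial IsDedekindDomain NumberField
open scoped Classical IntermediateField Pointwise

namespace Pool.Agent.H14F

open Pool.Agent.N783.PF
open Pool.Agent.W401.Cheb (HasFrob)

section

variable {F : Type} [Field F] [NumberField F]

/-- `p` splits completely in a Galois field containing `F`. -/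
def SplP (F : Type) [Field F] [NumberField F] (p : ℕ) : Prop :=
  ∃ (_ : Fact p.Prime) (N : Type) (_ : Field N) (_ : NumberField N) (_ : IsGalois ℚ N)
    (_ : Algebra F N), Spl N p

theorem exists_splP (F : Type) [Field F] [NumberField F] (B : ℕ) : ∃ p, B < p ∧ SplP F p := by
  obtain ⟨N, i1, i2, i3, i4, -⟩ := exists_gal F
  obtain ⟨p, hp, hpB, hs⟩ := exists_spl N B
  exact ⟨p, hpB, hp, N, i1, i2, i3, i4, hs⟩

/-- Infinitely many primes. -/
theorem infinite_l {p : ℕ} (hp : SplP F p) {A B : 𝓞 F}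
    (hnr : ∀ v : HeightOneSpectrum (𝓞 F), (p : 𝓞 F) ∈ v.asIdeal →
      ∀ z : 𝓞 F, z ^ 3 + A * z + B ∉ v.asIdeal)
    (hirr : Irreducible (X ^ 3 + C (A : F) * X + C (B : F) : F[X]))
    (hd0 : 4 * A ^ 3 + 27 * B ^ 2 ≠ 0) (T : Finset ℕ) (hT : ∀ q ∈ T, q.Prime ∧ q ≠ 2) :
    {l : ℕ | l.Prime ∧ l % 8 = 1 ∧ (∀ v : HeightOneSpectrum (𝓞 F), (l : 𝓞 F) ∈ v.asIdeal →
      ∀ z : 𝓞 F, z ^ 3 + A * z + B ∉ v.asIdeal) ∧
      ∀ q ∈ T, ∃ m : ℤ, (q : ℤ) ∣ m ^ 2 - (l : ℤ)}.Infinite := by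
  obtain ⟨ip, N₀, _, _, _, _, hs⟩ := hp
  -- the big field
  let P : N₀[X] := (X ^ 3 + C (algebraMap F N₀ (A : F)) * X + C (algebraMap F N₀ (B : F))) *
    ((X ^ 2 - C (-1)) * ((X ^ 2 - C 2) * ∏ q ∈ T, (X ^ 2 - C (q : N₀))))
  have m2 : ∀ c : N₀, (X ^ 2 - C c : N₀[X]).Monic := fun c => by monicity!
  have d2 : ∀ c : N₀, (X ^ 2 - C c : N₀[X]).degree = 2 := fun c => by compute_degree!
  have m3 : (X ^ 3 + C (algebraMap F N₀ (A : F)) * X + C (algebraMap F N₀ (B : F)) :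
      N₀[X]).Monic := by monicity!
  have hP : P ≠ 0 := mul_ne_zero m3.ne_zero (mul_ne_zero (m2 _).ne_zero
    (mul_ne_zero (m2 _).ne_zero (Finset.prod_ne_zero_iff.2 fun q _ => (m2 _).ne_zero)))
  obtain ⟨N, _, _, _, _, hsp⟩ := exists_gal_split N₀ P
  letI : Algebra F N := ((algebraMap N₀ N).comp (algebraMap F N₀)).toAlgebra
  haveI : IsScalarTower F N₀ N := IsScalarTower.of_algebraMap_eq fun _ => rfl
  have sq : ∀ c : N₀, (X ^ 2 - C c : N₀[X]) ∣ P → ∃ r : N, r ^ 2 = algebraMap N₀ N c := by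
    intro c hc
    obtain ⟨r, hr⟩ := splits_root hP hsp hc (by rw [d2]; decide)
    refine ⟨r, ?_⟩
    rw [map_sub, map_pow, aeval_X, aeval_C] at hr
    exact sub_eq_zero.1 hr
  obtain ⟨i, hi⟩ := sq (-1) (dvd_mul_of_dvd_right (dvd_mul_right _ _) _)
  obtain ⟨s, hs2⟩ := sq 2 (dvd_mul_of_dvd_right (dvd_mul_of_dvd_right (dvd_mul_right _ _) _) _)
  have hr : ∀ q ∈ T, ∃ r : N, r ^ 2 = ((q : ℤ) : N) := by
    intro q hq
    obtain ⟨r, hr⟩ := sq (q : N₀) (dvd_mul_of_dvd_right (dvd_mul_of_dvd_right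
      (dvd_mul_of_dvd_right (Finset.dvd_prod_of_mem (fun q : ℕ => (X ^ 2 - C (q : N₀) : N₀[X])) hq)
        _) _) _)
    exact ⟨r, by rw [hr, map_natCast]; simp⟩
  -- the roots
  have hcub : ((X ^ 3 + C (A : F) * X + C (B : F) : F[X]).map (algebraMap F N)).Splits := by
    have h1 := splits_of_dvd hP hsp (dvd_mul_right (X ^ 3 + C (algebraMap F N₀ (A : F)) * X +
      C (algebraMap F N₀ (B : F))) _)
    have e : (X ^ 3 + C (A : F) * X + C (B : F) : F[X]).map (algebraMap F N) =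
        (X ^ 3 + C (algebraMap F N₀ (A : F)) * X + C (algebraMap F N₀ (B : F)) : N₀[X]).map
          (algebraMap N₀ N) := by
      simp only [Polynomial.map_add, Polynomial.map_mul, Polynomial.map_pow, map_X, map_C]
      rfl
    rw [e]
    exact h1
  obtain ⟨x, y, z, hxy, hyz, hzx, hf⟩ := cubic_roots hirr hcub
  obtain ⟨g, hg, hgr⟩ := exists_cyc (N := N) hs hnr hxy hyz hzx hf
  rw [Set.infinite_iff_exists_gt]
  intro B₁
  obtain ⟨l, hl, hlB, ⟨φ, hφ⟩, -⟩ := inf_frob N g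
    (max (max B₁ 2) (Algebra.norm ℤ (4 * A ^ 3 + 27 * B ^ 2)).natAbs)
  have h1 : max B₁ 2 < l := (le_max_left _ _).trans_lt hlB
  have h2 : B₁ < l := (le_max_left _ _).trans_lt h1
  have h3 : 2 < l := (le_max_right _ _).trans_lt h1
  have h4 : (Algebra.norm ℤ (4 * A ^ 3 + 27 * B ^ 2)).natAbs < l := (le_max_right _ _).trans_lt hlB
  have hd : ¬ l ∣ (Algebra.norm ℤ (4 * A ^ 3 + 27 * B ^ 2)).natAbs := by
    intro h5
    have h6 : 0 < (Algebra.norm ℤ (4 * A ^ 3 + 27 * B ^ 2)).natAbs := by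
      rw [Int.natAbs_pos, ne_eq, Algebra.norm_eq_zero_iff]
      exact hd0
    exact absurd (Nat.le_of_dvd h6 h5) (not_le.2 h4)
  have hi' : i ^ 2 = ((-1 : ℤ) : N) := by
    rw [hi, map_neg, map_one]
    push_cast
    ring
  have hs2' : s ^ 2 = ((2 : ℤ) : N) := by
    rw [hs2, map_ofNat]
    push_cast
    ring
  refine ⟨l, ⟨hl.out, mod_eight (by omega) (sq_of_frob hφ hs2' (hgr _ _ hs2'))
    (sq_of_frob hφ hi' (hgr _ _ hi')), fun v hv z₀ => frob_noroot hf hg hφ hd v hv z₀, ?_⟩, h2⟩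
  intro q hq
  obtain ⟨r, hr⟩ := hr q hq
  have h5 := sq_of_frob hφ hr (hgr _ _ hr)
  have hl4 : l % 4 = 1 := by
    have := mod_eight (by omega) (sq_of_frob hφ hs2' (hgr _ _ hs2'))
      (sq_of_frob hφ hi' (hgr _ _ hi'))
    omega
  haveI : Fact q.Prime := ⟨(hT q hq).1⟩
  have h6 : IsSquare ((q : ℕ) : ZMod l) := by exact_mod_cast h5
  rw [ZMod.exists_sq_eq_prime_iff_of_mod_four_eq_one hl4 (hT q hq).2] at h6
  obtain ⟨n, hn⟩ := h6
  obtain ⟨n, rfl⟩ := ZMod.intCast_surjective n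
  refine ⟨n, (ZMod.intCast_zmod_eq_zero_iff_dvd _ q).1 ?_⟩
  push_cast
  rw [hn]
  ring

/-- The prime numbers `l` such that adjoining `√l` preserves admissibility. -/
def Lam (F : Type) [Field F] [NumberField F] (p : 𝓞 F × 𝓞 F) : Set ℕ := {l : ℕ | l.Prime ∧
  ∀ (M M' : Type) [Field M] [NumberField M] [Field M'] [NumberField M'] [Algebra F M]
    [Algebra M M'] [Algebra F M'] [IsScalarTower F M M'] (x : M'),
    x ^ 2 = (l : M') → M⟮x⟯ = ⊤ → Adm F M p → Adm F M' p}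

theorem lam_infinite {L : Type} [Field L] [NumberField L] [Algebra F L] {W : ℕ}
    {f f₁ : (𝓞 F)[X]} {θ : L} {S J : Finset ℕ} {𝔮 : ℕ → Ideal (𝓞 F)}
    {r P : ℕ → (𝓞 F)[X]} (D : Dat 1 W f f₁ θ S J 𝔮 r P) (ht : f.coeff (2 * 1) = 0)
    (hirr : ∀ v : HeightOneSpectrum (𝓞 F), (W : 𝓞 F) ∈ v.asIdeal →
      Irreducible (Pool.Agent.N352.PF.rv v f₁))
    (hp : ∃ p, p ∣ W ∧ SplP F p) :
    (Lam F (cf (f.scaleRoots ((Dp J : ℕ) : 𝓞 F)))).Infinite := by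
  have hm := D.gen.mon
  have hd := D.gen.deg
  have hcf := cf_scale hd ((Dp J : ℕ) : 𝓞 F)
  obtain ⟨p, ⟨k, hk⟩, hp⟩ := hp
  have hirrF : Irreducible (fF f) := Pool.Agent.N667.PF.irr F 1 W f₁ f D.gf D.one hm hd
  have hfF : fF f = X ^ 3 + C ((f.coeff 1 : 𝓞 F) : F) * X + C ((f.coeff 0 : 𝓞 F) : F) := by
    conv_lhs => rw [eq_cub hm hd ht]
    simp [fF]
  rw [hfF] at hirrF
  have hd0 : 4 * (f.coeff 1) ^ 3 + 27 * (f.coeff 0) ^ 2 ≠ 0 := by
    intro h0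
    apply Pool.Agent.N61.PF.disc_ne hirrF
    have h1 := congrArg (algebraMap (𝓞 F) F) h0
    simp only [map_add, map_mul, map_pow, map_zero, map_ofNat] at h1
    exact h1
  have hnr : ∀ v : HeightOneSpectrum (𝓞 F), (W : 𝓞 F) ∈ v.asIdeal →
      ∀ z : 𝓞 F, z ^ 3 + f.coeff 1 * z + f.coeff 0 ∉ v.asIdeal := by
    intro v hv
    have e1 := Pool.Agent.N78.PF.rd_eq (Pool.Agent.N78.PF.sp_le hv) D.one
    have h3 : Irreducible (rd v.asIdeal f) := by
      rw [e1]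
      exact hirr _ hv
    exact noroot_of_irr hm hd ht h3
  have hinf := infinite_l hp (fun v hv => hnr v (by
      rw [hk, Nat.cast_mul]
      exact Ideal.mul_mem_right _ _ hv)) hirrF hd0 J (fun q hq => by
    obtain ⟨a1, a2, a3, a4, -⟩ := D.gs q (D.sub hq)
    exact ⟨a1, by omega⟩)
  have hfin : {l : ℕ | l ∈ J}.Finite := J.finite_toSet
  refine (hinf.diff hfin).mono ?_
  rintro l ⟨⟨hl, hl8, hlnr, hlJ⟩, hlJ'⟩
  have hlJ'' : l ∉ J := hlJ'
  -- `l` and the elements of `J`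
  have hcop : ∀ q ∈ J, ∀ v : HeightOneSpectrum (𝓞 F), (q : 𝓞 F) ∈ v.asIdeal →
      (l : 𝓞 F) ∉ v.asIdeal := by
    intro q hq v h1 h2
    obtain ⟨a1, -⟩ := D.gs q (D.sub hq)
    have hne : l ≠ q := fun h => hlJ'' (h ▸ hq)
    obtain ⟨a, b, hab⟩ := Nat.isCoprime_iff_coprime.2 ((Nat.coprime_primes hl a1).2 hne)
    apply v.isPrime.ne_top
    rw [Ideal.eq_top_iff_one]
    have h3 : ((a : 𝓞 F) * (l : 𝓞 F) + (b : 𝓞 F) * (q : 𝓞 F)) = 1 := by
      exact_mod_cast congrArg (Int.cast : ℤ → 𝓞 F) hab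
    rw [← h3]
    exact Ideal.add_mem _ (Ideal.mul_mem_left _ _ h2) (Ideal.mul_mem_left _ _ h1)
  refine ⟨hl, ?_⟩
  intro M M' _ _ _ _ _ _ _ _ x hx htop hadm
  refine adm_quad hl8 ?_ ?_ hx htop hadm
  · intro v hv
    rw [hcf]
    refine noroot_scale ?_ (hlnr v hv)
    intro h1
    obtain ⟨q, hq, hqv⟩ := D.exists_q h1
    exact hcop q hq v hqv hv
  · intro v h1 h2
    rw [hcf] at h1 h2
    obtain ⟨q, hq, hqv⟩ := D.exists_q (dp_mem_of hm hd ht D.sqf h1 h2)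
    obtain ⟨a1, a2, -⟩ := D.gs q (D.sub hq)
    constructor
    · intro h3
      refine not_both a1 D.gf.pos a2 ?_ hqv
      obtain ⟨k', hk'⟩ := D.gf.two
      rw [hk']
      push_cast
      exact Ideal.mul_mem_right _ _ h3
    · obtain ⟨m, n, hn⟩ := hlJ q hq
      refine ⟨m, ?_⟩
      have e : (m : 𝓞 F) ^ 2 - (l : 𝓞 F) = (q : 𝓞 F) * (n : 𝓞 F) := by
        exact_mod_cast congrArg (Int.cast : ℤ → 𝓞 F) hn
      rw [e]
      exact Ideal.mul_mem_right _ _ hqv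

end

end Pool.Agent.H14F
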