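import Pool.Agent.H14F.Rt

/-!
# F6 stub NORAT: no rational points
-/

set_option autoImplicit false

namespace Pool.Agent.H14F.NORAT

open Pool.Agent.H14F

theorem t : Pool.Agent.H14F.NORAT := by
  rintro f g hc ⟨x, w, y, h, hy⟩
  by_cases hf : ev f x w = 0
  · have hg : ev g x w ≠ 0 := fun hg => not_both hc.1 h hf hg
    exact no_val hc (A := 0) (B := 1) hg h (by rw [hf]; ring) (by ring)
  · refine no_val hc (A := 1) (B := y / ev f x w) hf h (by ring) ?_
    field_simp
    linear_combination -hy

end Pool.Agent.H14F.NORAT
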