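import Pool.Agent.H14F.Base

/-!
# The local conditions over the extension
-/

set_option autoImplicit false
set_option linter.all false

open Polynomial IsDedekindDomain NumberField
open scoped Classical Pointwise

namespace Pool.Agent.H14F

open Pool.Agent.N783.PF
open Pool.Agent.N783.PQ (LocIm)
open Pool.Agent.N874.JM (LocF)
open Pool.Agent.N874.PP (Ev Sq1 U0)
open Pool.Agent.N692.PMTOW (im sup_top normal_of_top)

section up

variable {F M : Type} [Field F] [Field M] [Algebra F M]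

/-- The polynomial over `𝓞 M`. -/
noncomputable def up (M : Type) [Field M] [Algebra F M] (f : (𝓞 F)[X]) : (𝓞 M)[X] :=
  f.map (algebraMap (𝓞 F) (𝓞 M))

theorem fF_up [NumberField F] [NumberField M] (f : (𝓞 F)[X]) :
    fF (up M f) = (fF f).map (algebraMap F M) := by
  unfold fF up
  rw [Polynomial.map_map, Polynomial.map_map]
  congr 1

theorem up_monic {f : (𝓞 F)[X]} (hf : f.Monic) : (up M f).Monic := hf.map _

theorem up_deg {f : (𝓞 F)[X]} (hf : f.Monic) : (up M f).natDegree = f.natDegree :=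
  hf.natDegree_map _

theorem up_scale {f : (𝓞 F)[X]} (hf : f.Monic) (D : ℕ) :
    up M (f.scaleRoots (D : 𝓞 F)) = (up M f).scaleRoots (D : 𝓞 M) := by
  unfold up
  rw [map_scaleRoots]
  · rw [map_natCast]
  · rw [hf.leadingCoeff, map_one]
    exact one_ne_zero

end up

section top

variable {F L M Ω : Type} [Field F] [NumberField F] [Field L] [NumberField L] [Field M]
  [NumberField M] [Field Ω] [NumberField Ω] [Algebra F L] [Algebra F M] [Algebra L Ω]
  [Algebra M Ω] [Algebra F Ω] [IsScalarTower F L Ω] [IsScalarTower F M Ω] [IsGalois F M]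
  {g W : ℕ} {f f₁ : (𝓞 F)[X]} {θ : L} {S J : Finset ℕ} {𝔮 : ℕ → Ideal (𝓞 F)}
  {r P : ℕ → (𝓞 F)[X]}

theorem Dat.eight (D : Dat g W f f₁ θ S J 𝔮 r P) : Dp J % 8 = 1 := by
  have : ∀ T : Finset ℕ, T ⊆ S → (∏ q ∈ T, q) % 8 = 1 := by
    intro T
    induction T using Finset.induction_on with
    | empty => intro _; rfl
    | insert a T ha ih =>
      intro hT
      rw [Finset.prod_insert ha, Nat.mul_mod, ih fun x hx => hT (Finset.mem_insert_of_mem hx),
        (D.gs a (hT (Finset.mem_insert_self _ _))).2.2.2.1]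
  exact this J D.sub

theorem Dat.dp_ne (D : Dat g W f f₁ θ S J 𝔮 r P) : Dp J ≠ 0 := by
  rw [Dp, Finset.prod_ne_zero_iff]
  exact fun q hq => ((D.gs q (D.sub hq)).1).ne_zero

theorem ov_under {I : Ideal (𝓞 F)} {𝔓 : HeightOneSpectrum (𝓞 Ω)} (h : Ov I 𝔓) :
    Ov I (𝔓.under (𝓞 M)) ∧ Ov I (𝔓.under (𝓞 L)) := by
  refine ⟨fun a ha => ?_, fun a ha => ?_⟩
  · rw [mem_under]
    have h1 := h a ha
    have e : algebraMap (𝓞 F) (𝓞 Ω) a = algebraMap (𝓞 M) (𝓞 Ω) (algebraMap (𝓞 F) (𝓞 M) a) := by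
      apply RingOfIntegers.ext
      show algebraMap F Ω (a : F) = algebraMap M Ω (algebraMap F M (a : F))
      rw [← IsScalarTower.algebraMap_apply F M Ω]
    rw [← e]
    exact h1
  · rw [mem_under]
    have h1 := h a ha
    have e : algebraMap (𝓞 F) (𝓞 Ω) a = algebraMap (𝓞 L) (𝓞 Ω) (algebraMap (𝓞 F) (𝓞 L) a) := by
      apply RingOfIntegers.ext
      show algebraMap F Ω (a : F) = algebraMap L Ω (algebraMap F L (a : F))
      rw [← IsScalarTower.algebraMap_apply F L Ω]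
    rw [← e]
    exact h1

theorem eq_of_ov' {𝔭 : Ideal (𝓞 F)} (hp : 𝔭.IsPrime) (h0 : 𝔭 ≠ ⊥)
    {w : HeightOneSpectrum (𝓞 M)} (hov : Ov 𝔭 w) : 𝔭 = (w.under (𝓞 F)).asIdeal :=
  (hp.isMaximal h0).eq_of_le (w.under (𝓞 F)).isPrime.ne_top fun a ha => hov a ha

theorem top_cnd (D : Dat g W f f₁ θ S J 𝔮 r P) (htop : im F M Ω ⊔ im F L Ω = ⊤)
    (hq : ∀ q ∈ J, ∀ w : HeightOneSpectrum (𝓞 M), Ov (𝔮 q) w → Tot F w)
    (hG : IsGen g (up M f) (algebraMap L Ω θ)) {h : M[X]}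
    (hne : aeval ((Dp J : Ω) * algebraMap L Ω θ) h ≠ 0)
    (hloc : ∀ w : HeightOneSpectrum (𝓞 M),
      LocF (w.adicCompletion M) (fF ((up M f).scaleRoots ((Dp J : ℕ) : 𝓞 M))) h) :
    Cnd J 𝔮 (algebraMap L Ω θ) (algebraMap L Ω (aeval θ (derivative (fF f))))
      (aeval ((Dp J : Ω) * algebraMap L Ω θ) h) := by
  haveI : Normal L Ω := normal_of_top (K := F) (L := L) (M := M) (Ω := Ω) htop
  haveI : IsGalois L Ω := {}
  obtain ⟨E, hE⟩ : ∃ E : ℕ, E = Dp J := ⟨_, rfl⟩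
  rw [← hE] at hne hloc ⊢
  have hder : algebraMap L Ω (aeval θ (derivative (fF f))) =
      aeval (algebraMap L Ω θ) (derivative (fF (up M f))) := by
    have e1 : derivative (fF (up M f)) = (derivative (fF f)).map (algebraMap F M) := by
      rw [fF_up, derivative_map]
    rw [e1, aeval_map_algebraMap, aeval_algebraMap_apply]
  refine ⟨fun 𝔓 h2 hJ h3 => ?_, fun q hqJ 𝔓 o1 v1 => ?_⟩
  · have hL := lies_under (L := M) 𝔓
    have h2' : (2 : 𝓞 M) ∉ (𝔓.under (𝓞 M)).asIdeal := by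
      have e2 := nat_mem_under (L := M) 𝔓 2
      rw [Nat.cast_ofNat, Nat.cast_ofNat] at e2
      rw [e2]
      exact h2
    have hE' : (E : 𝓞 M) ∉ (𝔓.under (𝓞 M)).asIdeal := by
      rw [nat_mem_under, hE, Dp, Nat.cast_prod]
      intro hd
      haveI := 𝔓.isPrime
      obtain ⟨q, hq, hqw⟩ := (Ideal.IsPrime.prod_mem_iff).1 hd
      exact hJ q hq hqw
    rw [hder] at h3
    exact Pool.Agent.N78.PF.ev_unit hG hL h2' hE' h h3 (hloc _) hne
  · have hqS := D.sub hqJ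
    obtain ⟨o2, o3⟩ := ov_under (L := L) (M := M) o1
    have htot := hq q hqJ _ o2
    have htot' := tot_comp htop htot
    have hval := unr_val htot'.unr
    obtain ⟨a1, a2, a3, a4, a5, a6, a7, a8, a9, a10, a11, a12, a13, a14, a15⟩ := D.gs q hqS
    have hL := lies_under (L := M) 𝔓
    haveI : Finite (𝓞 M ⧸ (𝔓.under (𝓞 M)).asIdeal) :=
      Ideal.finiteQuotientOfFreeOfNeBot _ (𝔓.under (𝓞 M)).ne_bot
    haveI : Finite (𝓞 Ω ⧸ 𝔓.asIdeal) := Ideal.finiteQuotientOfFreeOfNeBot _ 𝔓.ne_bot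
    have eq1 : 𝔮 q = ((𝔓.under (𝓞 M)).under (𝓞 F)).asIdeal := eq_of_ov' a6 (D.ne_bot q hqS) o2
    -- natural numbers
    have nat_mem : ∀ p : ℕ, p.Prime → p ≠ q → (p : 𝓞 M) ∉ (𝔓.under (𝓞 M)).asIdeal := by
      intro p hp hpq hpm
      have hpm' : (p : 𝓞 F) ∈ 𝔮 q := by
        rw [eq1, nat_mem_under]
        exact hpm
      have hco : Nat.Coprime p q := (Nat.coprime_primes hp a1).2 hpq
      obtain ⟨u, v, huv⟩ := (Nat.isCoprime_iff_coprime.2 hco)
      apply a6.ne_top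
      rw [Ideal.eq_top_iff_one]
      have h9 : (1 : 𝓞 F) = (u : 𝓞 F) * (p : 𝓞 F) + (v : 𝓞 F) * (q : 𝓞 F) := by
        have := congrArg (Int.cast (R := 𝓞 F)) huv
        push_cast at this
        exact this.symm
      rw [h9]
      exact Ideal.add_mem _ (Ideal.mul_mem_left _ _ hpm') (Ideal.mul_mem_left _ _ a7)
    obtain ⟨E', hE'⟩ : ∃ E' : ℕ, E' = ∏ p ∈ J.erase q, p := ⟨_, rfl⟩
    have hDD : E = q * E' := by
      rw [hE, hE']
      exact (Finset.mul_prod_erase J (fun P => P) hqJ).symm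
    have hE'm : (E' : 𝓞 M) ∉ (𝔓.under (𝓞 M)).asIdeal := by
      intro hd
      rw [hE', Nat.cast_prod] at hd
      haveI := (𝔓.under (𝓞 M)).isPrime
      obtain ⟨p, hp, hpm⟩ := (Ideal.IsPrime.prod_mem_iff).1 hd
      have hp' := Finset.mem_erase.1 hp
      exact nat_mem p ((D.gs p (D.sub hp'.2)).1) hp'.1 hpm
    have v2 : (𝔓.under (𝓞 M)).valuation M 2 = 1 := by
      have h2w := nat_mem 2 Nat.prime_two (by omega)
      rw [Nat.cast_ofNat] at h2w
      have := Pool.Agent.N78.PF.val_one h2w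
      rwa [Pool.Agent.N78.PF.two_cast] at this
    have vE' : (𝔓.under (𝓞 M)).valuation M (E' : M) = 1 := by
      have := Pool.Agent.N78.PF.val_one hE'm
      simpa using this
    -- the prime of `L`
    have v1' : (𝔓.under (𝓞 L)).valuation L θ = 1 := by rw [← hval]; exact v1
    obtain ⟨𝔓₁, 𝔓₂, e1, e2, e3, e4, e5, e6, e7⟩ :=
      exq g W F L f θ S 𝔮 r P D.hg D.gen D.sqf D.gs q hqS (D.cq q hqS)
    have vq : 𝔓.valuation Ω (algebraMap M Ω (q : M)) = WithZero.exp (-1 : ℤ) := by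
      rw [map_natCast, ← map_natCast (algebraMap L Ω) q, hval]
      rcases e7 (𝔓.under (𝓞 L)) o3 with h | h
      · rw [h]; exact e5
      · rw [h]; exact e6
    obtain ⟨c1, -, -, -⟩ :=
      csq g W F L f θ S 𝔮 r P D.hg D.gen D.sqf D.gs q hqS (D.cq q hqS) (𝔓.under (𝓞 L)) o3 v1'
    have s1 : Sq1 𝔓 (-1 : Ω) := by
      have := c1 (-1) (by
        intro hm
        apply a6.ne_top
        rw [Ideal.eq_top_iff_one]
        have := Ideal.neg_mem_iff _ |>.2 hm
        simpa using this)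
      have h5 := sq_up hval this
      simpa using h5
    have s2 : Sq1 𝔓 (algebraMap M Ω (E' : M)) := by
      have hE'm' : (E' : 𝓞 F) ∉ 𝔮 q := by
        rw [eq1, nat_mem_under]
        exact hE'm
      have h5 := sq_up hval (c1 (E' : 𝓞 F) hE'm')
      rw [map_natCast]
      simpa using h5
    have hirr : Irreducible (((r q).map (algebraMap (𝓞 F) (𝓞 M))).map
        (Ideal.Quotient.mk (𝔓.under (𝓞 M)).asIdeal)) := by
      refine irr_mod (tot_res htot) ?_
      rw [← eq1]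
      exact a10
    have hl := hloc (𝔓.under (𝓞 M))
    have hmon := up_monic (M := M) D.gen.mon
    rw [Pool.Agent.N78.PF.fF_scale hmon, hDD, Nat.cast_mul] at hl
    have e8 : (E : Ω) = algebraMap M Ω ((q : M) * (E' : M)) := by
      rw [hDD]
      simp
    have e9 : (q : Ω) = algebraMap M Ω (q : M) := by simp
    rw [e8] at hne ⊢
    rw [e9]
    refine Pool.Agent.N78.PF.LOC2 M Ω (𝓞 M) (𝓞 Ω) (𝔓.under (𝓞 M)) 𝔓 hL v2 g (fF (up M f)) h
      ((r q).map (algebraMap (𝓞 F) (𝓞 M))) (q : M) (E' : M) (algebraMap L Ω θ) D.hg (hmon.map _)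
      ?_ (a8.map _) ?_ hirr ?_ hG.root v1 vq vE' s1 s2 hl hne
    · rw [hmon.natDegree_map, up_deg D.gen.mon, D.gen.deg]
    · rw [a8.natDegree_map, a9]
    · intro j
      rw [coeff_map, ← map_sub]
      refine (HeightOneSpectrum.valuation_lt_one_iff_mem (K := M) (𝔓.under (𝓞 M)) _).2 ?_
      have e10 : (up M f).coeff j - (X * (r q).map (algebraMap (𝓞 F) (𝓞 M))).coeff j =
          algebraMap (𝓞 F) (𝓞 M) (f.coeff j - (X * r q).coeff j) := by
        rw [map_sub, up, coeff_map, ← coeff_map (algebraMap (𝓞 F) (𝓞 M)) (p := X * r q),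
          Polynomial.map_mul, map_X]
      rw [e10, ← mem_under, ← eq1]
      exact D.cq q hqS j

theorem top_c2 (D : Dat g W f f₁ θ S J 𝔮 r P)
    (hG : IsGen g (up M f) (algebraMap L Ω θ)) {h : M[X]}
    (hloc : ∀ w : HeightOneSpectrum (𝓞 M),
      LocF (w.adicCompletion M) (fF ((up M f).scaleRoots ((Dp J : ℕ) : 𝓞 M))) h)
    (hreal : ∀ σ : M →+* ℝ,
      LocIm ℝ ((fF ((up M f).scaleRoots ((Dp J : ℕ) : 𝓞 M))).map σ) (h.map σ)) :
    C2 (fF (up M f)) (algebraMap L Ω θ) (aeval ((Dp J : Ω) * algebraMap L Ω θ) h) := by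
  refine ⟨h.comp (C ((Dp J : ℕ) : M) * X), ?_, ?_, ?_⟩
  · rw [aeval_comp]
    congr 1
    rw [map_mul, aeval_C, aeval_X, map_natCast]
  · intro w hw
    haveI : Fact (Nat.Prime 2) := ⟨Nat.prime_two⟩
    obtain ⟨δ, hδ⟩ := Pool.Agent.N891.PQ.sq_two (Dp J) D.eight
    obtain ⟨ι, hι, -, -⟩ := Pool.Agent.N498.PQ.cpl M 2 w (by
      change ((2 : ℕ) : 𝓞 M) ∈ w.asIdeal
      exact_mod_cast hw)
    haveI : CharZero (w.adicCompletion M) :=
      charZero_of_injective_algebraMap (algebraMap M (w.adicCompletion M)).injective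
    exact Pool.Agent.N78.PF.map_locF hG.mon hG.deg D.dp_ne (ι δ)
      (by rw [← map_pow, hδ, map_natCast]) h (hloc w)
  · intro σ
    letI : Algebra M ℝ := σ.toAlgebra
    exact Pool.Agent.N78.PF.map_locF (E := ℝ) hG.mon hG.deg D.dp_ne (Real.sqrt (Dp J : ℕ))
      (Real.sq_sqrt (Nat.cast_nonneg _)) h (hreal σ)

end top

end Pool.Agent.H14F
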