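import Pool.Agent.N170.PF.Tw
import Pool.Agent.H14F.Top

/-!
# The Selmer group and elements of the field
-/

set_option autoImplicit false
set_option linter.all false

open Polynomial IsDedekindDomain NumberField
open scoped Classical Pointwise

namespace Pool.Agent.H14F

open Pool.Agent.N783.PF
open Pool.Agent.N783.PQ (LocIm)
open Pool.Agent.N874.JM (LocF)
open Pool.Agent.N170.PF (fF_scale irr_scale)

theorem pass {F L : Type} [Field F] [NumberField F] [Field L] [NumberField L] [Algebra F L]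
    {g : ℕ} {f : (𝓞 F)[X]} {θ : L} (hc : IsGen g f θ) (hirr : Irreducible (fF f)) {D : ℕ}
    (hD0 : D ≠ 0)
    (H : ∀ h : F[X], aeval ((D : L) * θ) h ≠ 0 → IsSquare (Algebra.norm F (aeval ((D : L) * θ) h)) →
      (∀ w : HeightOneSpectrum (𝓞 F),
        LocF (w.adicCompletion F) (fF (f.scaleRoots ((D : ℕ) : 𝓞 F))) h) →
      (∀ σ : F →+* ℝ, LocIm ℝ ((fF (f.scaleRoots ((D : ℕ) : 𝓞 F))).map σ) (h.map σ)) →
      IsSquare (aeval ((D : L) * θ) h)) :
    Irreducible (fF (f.scaleRoots (D : 𝓞 F))) ∧ SelZero (f.scaleRoots (D : 𝓞 F)) := by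
  have hm := hc.mon
  have hd := hc.deg
  have hD0F : (D : F) ≠ 0 := Nat.cast_ne_zero.2 hD0
  have hmD : (f.scaleRoots (D : 𝓞 F)).Monic := (monic_scaleRoots_iff (D : 𝓞 F)).2 hm
  have hirrD : Irreducible (fF (f.scaleRoots (D : 𝓞 F))) := by
    rw [fF_scale hm]
    exact irr_scale hD0F hirr
  refine ⟨hirrD, ?_⟩
  intro h hcop hnorm hloc hlocR
  obtain ⟨F', hF'⟩ : ∃ F' : F[X], F' = fF (f.scaleRoots (D : 𝓞 F)) := ⟨_, rfl⟩
  obtain ⟨Θ, hΘ⟩ : ∃ Θ : L, Θ = (D : L) * θ := ⟨_, rfl⟩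
  have hroot : aeval Θ F' = 0 := by
    have e1 := scaleRoots_eval₂_mul (p := fF f) (algebraMap F L) θ (D : F)
    have e2 : eval₂ (algebraMap F L) θ (fF f) = 0 := by
      rw [← aeval_def]
      exact hc.root
    rw [e2, mul_zero, map_natCast] at e1
    rw [hF', fF_scale hm, aeval_def, hΘ]
    exact e1
  have hmF' : F'.Monic := by
    rw [hF']
    exact hmD.map _
  have hdF' : F'.natDegree = 2 * g + 1 := by
    rw [hF', fF, hmD.natDegree_map, natDegree_scaleRoots, hd]
  have hH := H h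
  rw [← hΘ] at hH
  rw [← hF'] at hirrD hcop hnorm ⊢
  haveI hfact' : Fact (Irreducible F') := ⟨hirrD⟩
  obtain ⟨φ, hφ⟩ : ∃ φ : AdjoinRoot F' →ₐ[F] L, φ = AdjoinRoot.liftAlgHom F' (Algebra.ofId F _) Θ hroot :=
    ⟨_, rfl⟩
  have hφmk : ∀ p : F[X], φ (AdjoinRoot.mk F' p) = aeval Θ p := by
    intro p
    have h1 := AdjoinRoot.liftAlgHom_mk F' (Algebra.ofId F L) Θ hroot p
    rw [Algebra.toRingHom_ofId, ← Polynomial.aeval_def] at h1
    rw [hφ]
    exact h1
  have hφinj : Function.Injective φ := φ.toRingHom.injective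
  haveI : FiniteDimensional F (AdjoinRoot F') := hmF'.finite_adjoinRoot
  haveI : FiniteDimensional F L := Module.finite_of_finrank_pos (by rw [hc.rank]; omega)
  have hrk : Module.finrank F (AdjoinRoot F') = Module.finrank F L := by
    rw [hc.rank, (AdjoinRoot.powerBasis hmF'.ne_zero).finrank, AdjoinRoot.powerBasis_dim, hdF']
  have hφsurj : Function.Surjective φ :=
    (LinearMap.injective_iff_surjective_of_finrank_eq_finrank (f := φ.toLinearMap) hrk).1 hφinj
  obtain ⟨e, he⟩ : ∃ e : AdjoinRoot F' ≃ₐ[F] L, ∀ x, e x = φ x :=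
    ⟨AlgEquiv.ofBijective φ ⟨hφinj, hφsurj⟩, fun _ => rfl⟩
  have hemk : ∀ p : F[X], e (AdjoinRoot.mk F' p) = aeval Θ p := fun p => (he _).trans (hφmk p)
  have hne : aeval Θ h ≠ 0 := by
    intro h0
    obtain ⟨u, v, huv⟩ := hcop
    have := congrArg (aeval Θ) huv
    rw [map_add, map_mul, map_mul, hroot, h0, mul_zero, mul_zero, add_zero, map_one] at this
    exact zero_ne_one this
  have hnorm' : IsSquare (Algebra.norm F (aeval Θ h)) := by
    rw [← hemk, Algebra.norm_eq_of_algEquiv]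
    exact hnorm
  obtain ⟨y, hy⟩ := hH hne hnorm' hloc hlocR
  obtain ⟨z, rfl⟩ := hφsurj y
  obtain ⟨s, rfl⟩ := AdjoinRoot.mk_surjective z
  refine ⟨s, ?_⟩
  rw [← AdjoinRoot.mk_eq_zero]
  apply hφinj
  rw [map_zero, hφmk, map_sub, map_pow, sub_eq_zero]
  rw [hφmk] at hy
  rw [pow_two]
  exact hy

/-- `θ` generates a primitive extension: the homomorphism to a field with a root. -/
theorem exists_hom {F L E : Type} [Field F] [NumberField F] [Field L] [NumberField L] [Algebra F L]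
    [Field E] [Algebra F E] {g : ℕ} {f : (𝓞 F)[X]} {θ : L} (hc : IsGen g f θ)
    (hirr : Irreducible (fF f)) {t : E} (ht : aeval t (fF f) = 0) :
    ∃ φ : L →ₐ[F] E, φ θ = t := by
  let pb : PowerBasis F L :=
    { gen := θ, dim := 2 * g + 1, basis := hc.basis, basis_eq_pow := hc.basis_apply }
  have hmin : minpoly F θ = fF f :=
    (minpoly.eq_of_irreducible_of_monic hirr hc.root (hc.mon.map _)).symm
  have h1 : aeval t (minpoly F pb.gen) = 0 := by
    show aeval t (minpoly F θ) = 0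
    rw [hmin]
    exact ht
  exact ⟨pb.lift t h1, pb.lift_gen t h1⟩

/-- Irreducibility from a prime. -/
theorem irr_of_mod {M : Type} [Field M] [NumberField M] {f : (𝓞 M)[X]} (hm : f.Monic)
    {w : HeightOneSpectrum (𝓞 M)} (h : Irreducible (f.map (Ideal.Quotient.mk w.asIdeal))) :
    Irreducible (fF f) := by
  haveI := w.isPrime
  have h1 : Irreducible f := hm.irreducible_of_irreducible_map _ _ h
  exact (hm.irreducible_iff_irreducible_map_fraction_map (K := M)).1 h1

theorem exists_two (M : Type) [Field M] [NumberField M] :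
    ∃ w : HeightOneSpectrum (𝓞 M), (2 : 𝓞 M) ∈ w.asIdeal := by
  haveI : (Ideal.span {(2 : ℤ)}).IsMaximal :=
    PrincipalIdealRing.isMaximal_of_irreducible Int.prime_two.irreducible
  have hker : RingHom.ker (algebraMap ℤ (𝓞 M)) ≤ Ideal.span {(2 : ℤ)} := by
    have hinj : Function.Injective (algebraMap ℤ (𝓞 M)) := by
      intro m n h
      simpa using h
    rw [(RingHom.injective_iff_ker_eq_bot _).1 hinj]
    exact bot_le
  obtain ⟨Q, hQ, hQ'⟩ := Ideal.exists_ideal_over_maximal_of_isIntegral (S := 𝓞 M)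
    (Ideal.span {(2 : ℤ)}) hker
  have h2 : (2 : 𝓞 M) ∈ Q := by
    have h3 : (2 : ℤ) ∈ Q.comap (algebraMap ℤ (𝓞 M)) := by
      rw [hQ']
      exact Ideal.mem_span_singleton_self _
    simpa using h3
  refine ⟨⟨Q, hQ.isPrime, ?_⟩, h2⟩
  rintro rfl
  rw [Ideal.mem_bot] at h2
  exact two_ne_zero h2

end Pool.Agent.H14F
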