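import Pool.Agent.H14F.AdmBase

/-!
# Quadratic extensions of admissible fields
-/

set_option autoImplicit false
set_option linter.all false

open Polynomial IsDedekindDomain NumberField
open scoped Classical IntermediateField Pointwise

namespace Pool.Agent.H14F

open Pool.Agent.H14U (res res_apply map_smul_res)

section quad

variable {F M M' : Type} [Field F] [NumberField F] [Field M] [NumberField M] [Field M']
  [NumberField M'] [Algebra F M] [Algebra M M'] [Algebra F M'] [IsScalarTower F M M']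

theorem normal_quad [IsGalois F M] {n : ℕ} {x : M'} (hx : x ^ 2 = (n : M'))
    (htop : M⟮x⟯ = ⊤) : IsGalois F M' := by
  have hn : Normal F M' := by
    rw [normal_iff]
    intro y
    refine ⟨IsIntegral.of_finite F y, ?_⟩
    have hy : y ∈ IntermediateField.adjoin F (Set.range (algebraMap M M') ∪ {x}) := by
      have h1 : y ∈ M⟮x⟯ := by rw [htop]; trivial
      induction h1 using IntermediateField.adjoin_induction with
      | mem z hz =>
        rw [Set.mem_singleton_iff] at hz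
        exact IntermediateField.subset_adjoin _ _ (Or.inr hz)
      | algebraMap z => exact IntermediateField.subset_adjoin _ _ (Or.inl ⟨z, rfl⟩)
      | add a b _ _ h1 h2 => exact add_mem h1 h2
      | inv a _ h1 => exact inv_mem h1
      | mul a b _ _ h1 h2 => exact mul_mem h1 h2
    refine IntermediateField.splits_of_mem_adjoin F M' ?_ hy
    rintro z (⟨m, rfl⟩ | hz)
    · refine ⟨IsIntegral.of_finite F _, ?_⟩
      have h3 : minpoly F (algebraMap M M' m) = minpoly F m :=
        minpoly.algebraMap_eq (algebraMap M M').injective m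
      rw [h3]
      have h4 := (Normal.splits (inferInstance : Normal F M) m).map (algebraMap M M')
      rw [Polynomial.map_map, ← IsScalarTower.algebraMap_eq F M M'] at h4
      exact h4
    · rw [Set.mem_singleton_iff] at hz
      subst hz
      refine ⟨IsIntegral.of_finite F _, ?_⟩
      have h3 : minpoly F z ∣ (X ^ 2 - C (n : F)) := by
        apply minpoly.dvd
        simp [hx]
      have h6 : ((X ^ 2 - C (n : F) : F[X]).map (algebraMap F M')) = (X - C z) * (X + C z) := by
        simp only [Polynomial.map_sub, Polynomial.map_pow, map_X, map_C]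
        have e : algebraMap F M' (n : F) = z ^ 2 := by
          rw [hx, map_natCast]
        rw [e, C_pow]
        ring
      have h7 : ((X ^ 2 - C (n : F) : F[X]).map (algebraMap F M')).Splits := by
        rw [h6]
        refine (Splits.X_sub_C z).mul ?_
        have := Splits.X_sub_C (-z)
        simpa using this
      exact h7.of_dvd (by rw [h6]; exact mul_ne_zero (X_sub_C_ne_zero z) (X_add_C_ne_zero z))
        (Polynomial.map_dvd _ h3)
  exact {}

theorem deg_quad {n : ℕ} {x : M'} (hx : x ^ 2 = (n : M'))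
    (htop : M⟮x⟯ = ⊤) {m : ℕ} (hK : Module.finrank F M = 2 ^ m) :
    ∃ m' : ℕ, Module.finrank F M' = 2 ^ m' := by
  haveI : FiniteDimensional F M := FiniteDimensional.right ℚ F M
  haveI : FiniteDimensional M M' := FiniteDimensional.right ℚ M M'
  have h1 := Module.finrank_mul_finrank F M M'
  have hint : IsIntegral M x := IsIntegral.of_finite M x
  have h2 : Module.finrank M M' = (minpoly M x).natDegree :=
    ((Field.primitive_element_iff_minpoly_natDegree_eq M x).1 htop).symm
  have h3 : minpoly M x ∣ (X ^ 2 - C (n : M)) := by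
    apply minpoly.dvd
    simp [hx]
  have h4 : (X ^ 2 - C (n : M) : M[X]).natDegree = 2 := by compute_degree!
  have h5 : (minpoly M x).natDegree ≤ 2 := by
    rw [← h4]
    refine natDegree_le_of_dvd h3 ?_
    intro h
    rw [h] at h4
    simp at h4
  have h6 : 0 < (minpoly M x).natDegree := minpoly.natDegree_pos hint
  rw [h2, hK] at h1
  rcases (by omega : (minpoly M x).natDegree = 1 ∨ (minpoly M x).natDegree = 2) with h | h
  · exact ⟨m, by rw [← h1, h, mul_one]⟩
  · exact ⟨m + 1, by rw [← h1, h, pow_succ]⟩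

theorem real_quad {n : ℕ} {x : M'} (hx : x ^ 2 = (n : M')) (htop : M⟮x⟯ = ⊤) (ρ : M →+* ℝ) :
    ∃ ρ' : M' →+* ℝ, ρ'.comp (algebraMap M M') = ρ := by
  letI : Algebra M ℝ := ρ.toAlgebra
  haveI : FiniteDimensional M M' := FiniteDimensional.right ℚ M M'
  have hne : Nonempty (M' →ₐ[M] ℝ) := by
    refine IntermediateField.nonempty_algHom_of_adjoin_splits (S := {x}) ?_ htop
    intro z hz
    rw [Set.mem_singleton_iff] at hz
    subst hz
    refine ⟨IsIntegral.of_finite M _, ?_⟩
    have h3 : minpoly M z ∣ (X ^ 2 - C (n : M)) := by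
      apply minpoly.dvd
      simp [hx]
    obtain ⟨s, hs⟩ : ∃ s : ℝ, s ^ 2 = (n : ℝ) := ⟨Real.sqrt n, Real.sq_sqrt (Nat.cast_nonneg n)⟩
    have h6 : ((X ^ 2 - C (n : M) : M[X]).map (algebraMap M ℝ)) = (X - C s) * (X + C s) := by
      simp only [Polynomial.map_sub, Polynomial.map_pow, map_X, map_C]
      have e : algebraMap M ℝ (n : M) = s ^ 2 := by
        rw [hs, map_natCast]
      rw [e, C_pow]
      ring
    have h7 : ((X ^ 2 - C (n : M) : M[X]).map (algebraMap M ℝ)).Splits := by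
      rw [h6]
      refine (Splits.X_sub_C s).mul ?_
      have := Splits.X_sub_C (-s)
      simpa using this
    exact h7.of_dvd (by rw [h6]; exact mul_ne_zero (X_sub_C_ne_zero s) (X_add_C_ne_zero s))
      (Polynomial.map_dvd _ h3)
  obtain ⟨φ⟩ := hne
  refine ⟨φ.toRingHom, RingHom.ext fun y => ?_⟩
  exact φ.commutes y

/-- An automorphism which fixes `M`. -/
theorem eq_one_of {x : M'} (htop : M⟮x⟯ = ⊤) {σ : Gal(M'/F)}
    (h1 : ∀ y : M, σ (algebraMap M M' y) = algebraMap M M' y) (h2 : σ x = x) : σ = 1 := by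
  ext y
  have hy : y ∈ M⟮x⟯ := by rw [htop]; trivial
  rw [AlgEquiv.one_apply]
  induction hy using IntermediateField.adjoin_induction with
  | mem z hz =>
    rw [Set.mem_singleton_iff] at hz
    rw [hz, h2]
  | algebraMap z => exact h1 z
  | add a b _ _ h1 h2 => rw [map_add, h1, h2]
  | inv a _ h1 => rw [map_inv₀, h1]
  | mul a b _ _ h1 h2 => rw [map_mul, h1, h2]

/-- Restriction to `M`, decomposition group. -/
theorem fix_of_stab [IsGalois F M] {w' : HeightOneSpectrum (𝓞 M')} (h : Tot F (w'.under (𝓞 M)))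
    {σ : Gal(M'/F)} (hσ : σ • w'.asIdeal = w'.asIdeal) (y : M) :
    σ (algebraMap M M' y) = algebraMap M M' y := by
  have h1 : res F M (L := F) σ ∈ MulAction.stabilizer Gal(M/F) (w'.under (𝓞 M)).asIdeal := by
    rw [MulAction.mem_stabilizer_iff]
    ext z
    rw [Ideal.mem_pointwise_smul_iff_inv_smul_mem, mem_under, mem_under]
    have e : algebraMap (𝓞 M) (𝓞 M') ((res F M (L := F) σ)⁻¹ • z) =
        σ⁻¹ • algebraMap (𝓞 M) (𝓞 M') z := by
      rw [eq_inv_smul_iff, ← map_smul_res (K := F) (L := F), smul_inv_smul]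
    rw [e, ← Ideal.mem_pointwise_smul_iff_inv_smul_mem, hσ]
  unfold Tot at h
  rw [h] at h1
  have h2 := res_apply (K := F) (L := F) (M := M) σ y
  rw [Subgroup.mem_bot.1 h1] at h2
  exact h2.symm

/-- Restriction to `M`, inertia group. -/
theorem fix_of_inertia [IsGalois F M] {w' : HeightOneSpectrum (𝓞 M')}
    (h : Unr F (w'.under (𝓞 M))) {σ : Gal(M'/F)} (hσ : σ ∈ w'.asIdeal.inertia Gal(M'/F)) (y : M) :
    σ (algebraMap M M' y) = algebraMap M M' y := by
  have h1 : res F M (L := F) σ ∈ (w'.under (𝓞 M)).asIdeal.inertia Gal(M/F) := by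
    intro z
    have h2 := hσ (algebraMap (𝓞 M) (𝓞 M') z)
    change algebraMap (𝓞 M) (𝓞 M') (res F M (L := F) σ • z - z) ∈ w'.asIdeal
    rw [map_sub, map_smul_res]
    exact h2
  unfold Unr at h
  rw [h] at h1
  have h2 := res_apply (K := F) (L := F) (M := M) σ y
  rw [Subgroup.mem_bot.1 h1] at h2
  exact h2.symm

theorem pm {n : ℕ} {x : M'} (hx : x ^ 2 = (n : M')) (σ : Gal(M'/F)) : σ x = x ∨ σ x = -x := by
  have h1 : (σ x - x) * (σ x + x) = 0 := by
    have h2 : σ x ^ 2 = x ^ 2 := by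
      rw [← map_pow, hx, map_natCast]
    linear_combination h2
  rcases mul_eq_zero.1 h1 with h | h
  · exact Or.inl (sub_eq_zero.1 h)
  · exact Or.inr (eq_neg_of_add_eq_zero_left h)

/-- Decomposition groups, given a congruence. -/
theorem tot_quad [IsGalois F M] {l : ℕ} {x : M'} (hx : x ^ 2 = (l : M')) (htop : M⟮x⟯ = ⊤)
    {w' : HeightOneSpectrum (𝓞 M')} (h : Tot F (w'.under (𝓞 M)))
    (h2 : (2 : 𝓞 M') ∉ w'.asIdeal) (hl : (l : 𝓞 M') ∉ w'.asIdeal)
    (hm : ∃ m : ℤ, ((m : 𝓞 M') ^ 2 - (l : 𝓞 M')) ∈ w'.asIdeal) : Tot F w' := by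
  unfold Tot
  rw [eq_bot_iff]
  intro σ hσ
  rw [MulAction.mem_stabilizer_iff] at hσ
  rw [Subgroup.mem_bot]
  have hfix := fix_of_stab h hσ
  rcases pm hx σ with h3 | h3
  · exact eq_one_of htop hfix h3
  · exfalso
    have hxi : IsIntegral ℤ x := by
      have h1 : IsIntegral ℤ (x ^ 2) := by
        rw [hx]
        exact isIntegral_natCast _
      exact h1.of_pow (by norm_num)
    obtain ⟨ξ, hξ⟩ : ∃ ξ : 𝓞 M', (ξ : M') = x := ⟨⟨x, hxi⟩, rfl⟩
    have hξ2 : ξ ^ 2 = (l : 𝓞 M') := by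
      apply RingOfIntegers.ext
      exact (map_pow (algebraMap (𝓞 M') M') ξ 2).trans ((congrArg (· ^ 2) hξ).trans
        (hx.trans (map_natCast (algebraMap (𝓞 M') M') l).symm))
    have hσξ : σ • ξ = -ξ := by
      apply RingOfIntegers.ext
      rw [Pool.Agent.H14U.smul_coe, hξ, h3, ← hξ]
      simp
    obtain ⟨m, hm⟩ := hm
    have hσm : σ • (m : 𝓞 M') = (m : 𝓞 M') := by
      apply RingOfIntegers.ext
      exact map_intCast σ m
    have hstab : ∀ y : 𝓞 M', y ∈ w'.asIdeal → σ • y ∈ w'.asIdeal := by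
      intro y hy
      rw [← hσ]
      exact Ideal.smul_mem_pointwise_smul _ _ _ hy
    have hmw : (m : 𝓞 M') ∉ w'.asIdeal := by
      intro h4
      apply hl
      have e : (l : 𝓞 M') = (m : 𝓞 M') * m - ((m : 𝓞 M') ^ 2 - (l : 𝓞 M')) := by ring
      rw [e]
      exact Ideal.sub_mem _ (Ideal.mul_mem_left _ _ h4) hm
    have h2m : (2 : 𝓞 M') * m ∉ w'.asIdeal := fun h4 =>
      (w'.isPrime.mem_or_mem h4).elim h2 hmw
    have h5 : ((m : 𝓞 M') - ξ) * ((m : 𝓞 M') + ξ) ∈ w'.asIdeal := by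
      have e : ((m : 𝓞 M') - ξ) * ((m : 𝓞 M') + ξ) = (m : 𝓞 M') ^ 2 - (l : 𝓞 M') := by
        rw [← hξ2]; ring
      rw [e]
      exact hm
    rcases w'.isPrime.mem_or_mem h5 with h6 | h6
    · have h7 := hstab _ h6
      rw [smul_sub, hσm, hσξ] at h7
      apply h2m
      have e : (2 : 𝓞 M') * m = (m - ξ) + (m - -ξ) := by ring
      rw [e]
      exact Ideal.add_mem _ h6 h7
    · have h7 := hstab _ h6
      rw [smul_add, hσm, hσξ] at h7
      apply h2m
      have e : (2 : 𝓞 M') * m = (m + ξ) + (m + -ξ) := by ring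
      rw [e]
      exact Ideal.add_mem _ h6 h7

/-- Decomposition groups over two. -/
theorem tot_quad2 [IsGalois F M] {l : ℕ} (hl8 : l % 8 = 1) {x : M'} (hx : x ^ 2 = (l : M'))
    (htop : M⟮x⟯ = ⊤) {w' : HeightOneSpectrum (𝓞 M')} (h : Tot F (w'.under (𝓞 M)))
    (h2 : (2 : 𝓞 M') ∈ w'.asIdeal) : Tot F w' := by
  unfold Tot
  rw [eq_bot_iff]
  intro σ hσ
  rw [MulAction.mem_stabilizer_iff] at hσ
  rw [Subgroup.mem_bot]
  have hfix := fix_of_stab h hσ
  rcases pm hx σ with h3 | h3
  · exact eq_one_of htop hfix h3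
  · exfalso
    obtain ⟨k, hk⟩ : ∃ k : ℕ, l = 8 * k + 1 := ⟨l / 8, by omega⟩
    have hα : ((1 + x) / 2) * ((1 + x) / 2 - 1) = ((2 * k : ℕ) : M') := by
      have h4 : x ^ 2 = 8 * (k : M') + 1 := by
        rw [hx, hk]; push_cast; ring
      push_cast
      field_simp
      linear_combination h4
    have hαi : IsIntegral ℤ ((1 + x) / 2) := by
      refine ⟨X ^ 2 - X - C ((2 * k : ℕ) : ℤ), by monicity!, ?_⟩
      rw [eval₂_sub, eval₂_sub, eval₂_pow, eval₂_X, eval₂_C]
      simp only [algebraMap_int_eq, Int.coe_castRingHom, Int.cast_natCast]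
      rw [← hα]
      ring
    obtain ⟨α, hαc⟩ : ∃ α : 𝓞 M', (α : M') = (1 + x) / 2 := ⟨⟨_, hαi⟩, rfl⟩
    have hσα : σ • α = 1 - α := by
      apply RingOfIntegers.ext
      rw [Pool.Agent.H14U.smul_coe, hαc, map_div₀, map_add, map_one, h3, map_ofNat]
      have e : ((1 - α : 𝓞 M') : M') = 1 - (α : M') := by
        simp
      rw [e, hαc]
      field_simp
      ring
    have hstab : ∀ y : 𝓞 M', y ∈ w'.asIdeal → σ • y ∈ w'.asIdeal := by
      intro y hy
      rw [← hσ]
      exact Ideal.smul_mem_pointwise_smul _ _ _ hy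
    have h5 : α * (α - 1) ∈ w'.asIdeal := by
      have e : α * (α - 1) = 2 * (k : 𝓞 M') := by
        apply RingOfIntegers.ext
        have e1 : ((α * (α - 1) : 𝓞 M') : M') = (α : M') * ((α : M') - 1) := by simp
        rw [e1, hαc, hα]
        push_cast
        rfl
      rw [e]
      exact Ideal.mul_mem_right _ _ h2
    apply w'.isPrime.ne_top
    rw [Ideal.eq_top_iff_one]
    rcases w'.isPrime.mem_or_mem h5 with h6 | h6
    · have h7 := hstab _ h6
      rw [hσα] at h7
      have e : (1 : 𝓞 M') = α + (1 - α) := by ring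
      rw [e]
      exact Ideal.add_mem _ h6 h7
    · have h7 := hstab _ h6
      rw [smul_sub, hσα, smul_one] at h7
      have e : (1 : 𝓞 M') = -((α - 1) + (1 - α - 1)) := by ring
      rw [e]
      exact Ideal.neg_mem_iff _ |>.2 (Ideal.add_mem _ h6 h7)

/-- Quadratic extensions of admissible fields. -/
theorem adm_quad {p : 𝓞 F × 𝓞 F} {l : ℕ} (hl8 : l % 8 = 1)
    (hnr : ∀ v : HeightOneSpectrum (𝓞 F), (l : 𝓞 F) ∈ v.asIdeal →
      ∀ z : 𝓞 F, z ^ 3 + p.1 * z + p.2 ∉ v.asIdeal)
    (hq : ∀ v : HeightOneSpectrum (𝓞 F), p.1 ∈ v.asIdeal ^ 2 → p.2 ∈ v.asIdeal ^ 3 →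
      (2 : 𝓞 F) ∉ v.asIdeal ∧ ∃ m : ℤ, ((m : 𝓞 F) ^ 2 - (l : 𝓞 F)) ∈ v.asIdeal)
    {x : M'} (hx : x ^ 2 = (l : M')) (htop : M⟮x⟯ = ⊤) (h : Adm F M p) : Adm F M' p := by
  haveI := h.galois
  obtain ⟨n, hn⟩ := h.deg
  have uu : ∀ w' : HeightOneSpectrum (𝓞 M'),
      (w'.under (𝓞 M)).under (𝓞 F) = w'.under (𝓞 F) := by
    intro w'
    ext a
    rw [mem_under, mem_under, mem_under]
    have e : algebraMap (𝓞 M) (𝓞 M') (algebraMap (𝓞 F) (𝓞 M) a) = algebraMap (𝓞 F) (𝓞 M') a := by
      apply RingOfIntegers.ext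
      show algebraMap M M' (algebraMap F M (a : F)) = algebraMap F M' (a : F)
      rw [← IsScalarTower.algebraMap_apply F M M']
    rw [e]
  have htwo : ∀ w' : HeightOneSpectrum (𝓞 M'), (2 : 𝓞 M') ∈ w'.asIdeal → Tot F w' := by
    intro w' hw'
    refine tot_quad2 hl8 hx htop (h.two _ ?_) hw'
    have e2 := nat_mem_under (L := M) w' 2
    rw [Nat.cast_ofNat, Nat.cast_ofNat] at e2
    rw [e2]
    exact hw'
  refine ⟨normal_quad hx htop, deg_quad hx htop hn, htwo, ?_, ?_, ?_⟩
  · intro w' h1 h2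
    have h3 : Tot F (w'.under (𝓞 M)) := by
      refine h.bad _ ?_ ?_
      · rw [uu]; exact h1
      · rw [uu]; exact h2
    obtain ⟨h4, m, hm⟩ := hq _ h1 h2
    refine tot_quad hx htop h3 ?_ ?_ ⟨m, ?_⟩
    · have e2 := nat_mem_under (L := F) w' 2
      rw [Nat.cast_ofNat, Nat.cast_ofNat] at e2
      rw [← e2]
      exact h4
    · intro h5
      rw [← nat_mem_under (L := F)] at h5
      apply hnr _ h5 0
      have e : (0 : 𝓞 F) ^ 3 + p.1 * 0 + p.2 = p.2 := by ring
      rw [e]
      exact Ideal.pow_le_self (by norm_num) h2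
    · rw [mem_under, map_sub, map_pow, map_intCast, map_natCast] at hm
      exact hm
  · intro σ
    obtain ⟨ρ, rfl⟩ := h.real σ
    obtain ⟨ρ', hρ'⟩ := real_quad hx htop ρ
    refine ⟨ρ', ?_⟩
    rw [← hρ', RingHom.comp_assoc, ← IsScalarTower.algebraMap_eq F M M']
  · intro w' hw' z
    by_cases hl : (l : 𝓞 M') ∈ w'.asIdeal
    · rw [← nat_mem_under (L := F)] at hl
      exact hnr _ hl z
    have h2 : (2 : 𝓞 M') ∉ w'.asIdeal := fun h2 => hw' (htwo w' h2).unr
    have h3 : ¬ Unr F (w'.under (𝓞 M)) := by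
      intro h3
      apply hw'
      unfold Unr
      rw [eq_bot_iff]
      intro σ hσ
      rw [Subgroup.mem_bot]
      have hfix := fix_of_inertia h3 hσ
      rcases pm hx σ with h4 | h4
      · exact eq_one_of htop hfix h4
      · exfalso
        have hxi : IsIntegral ℤ x := by
          have h1 : IsIntegral ℤ (x ^ 2) := by
            rw [hx]
            exact isIntegral_natCast _
          exact h1.of_pow (by norm_num)
        obtain ⟨ξ, hξ⟩ : ∃ ξ : 𝓞 M', (ξ : M') = x := ⟨⟨x, hxi⟩, rfl⟩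
        have hξ2 : ξ ^ 2 = (l : 𝓞 M') := by
          apply RingOfIntegers.ext
          exact (map_pow (algebraMap (𝓞 M') M') ξ 2).trans ((congrArg (· ^ 2) hξ).trans
            (hx.trans (map_natCast (algebraMap (𝓞 M') M') l).symm))
        have hσξ : σ • ξ = -ξ := by
          apply RingOfIntegers.ext
          rw [Pool.Agent.H14U.smul_coe, hξ, h4, ← hξ]
          simp
        have h5 : σ • ξ - ξ ∈ w'.asIdeal := hσ ξ
        rw [hσξ] at h5
        have h6 : (2 : 𝓞 M') * ξ ∈ w'.asIdeal := by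
          have e : (2 : 𝓞 M') * ξ = -(-ξ - ξ) := by ring
          rw [e]
          exact Ideal.neg_mem_iff _ |>.2 h5
        apply hl
        rw [← hξ2, pow_two]
        exact Ideal.mul_mem_left _ _ ((w'.isPrime.mem_or_mem h6).resolve_left h2)
    have h4 := h.ram _ h3 z
    rw [uu] at h4
    exact h4

end quad

end Pool.Agent.H14F
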