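import Pool.Agent.H14F.Stm

set_option autoImplicit false

/-!
# The number of pairs of forms modulo `p` whose resultant vanishes: `p⁵ + p⁴ - p³`
-/

namespace Pool.Agent.H14F.RC

open Finset

variable (p : ℕ) [Fact p.Prime]

/-- reduction modulo `p` -/
def T (f : Fin 3 → ℤ) : ZMod p × ZMod p × ZMod p := (f 0, f 1, f 2)

theorem inj {f g : Fin 3 → ℤ} (hf : f ∈ cls p) (hg : g ∈ cls p) (h : T p f = T p g) : f = g := by
  unfold cls at hf hg
  rw [Fintype.mem_piFinset] at hf hg
  have key : ∀ i, ((f i : ℤ) : ZMod p) = (g i : ZMod p) := by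
    unfold T at h
    rw [Prod.mk.injEq, Prod.mk.injEq] at h
    intro i
    fin_cases i
    · exact h.1
    · exact h.2.1
    · exact h.2.2
  funext i
  have h1 := hf i
  have h2 := hg i
  rw [mem_Ico] at h1 h2
  have h3 := (ZMod.intCast_eq_intCast_iff' _ _ _).1 (key i)
  rwa [Int.emod_eq_of_lt h1.1 h1.2, Int.emod_eq_of_lt h2.1 h2.2] at h3

theorem surj (x : ZMod p × ZMod p × ZMod p) : ∃ f ∈ cls p, T p f = x := by
  obtain ⟨a, b, c⟩ := x
  have hv : ∀ a : ZMod p, (0 : ℤ) ≤ a.val ∧ (a.val : ℤ) < p := fun a =>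
    ⟨by positivity, by exact_mod_cast ZMod.val_lt a⟩
  refine ⟨![(a.val : ℤ), b.val, c.val], ?_, ?_⟩
  · unfold cls
    rw [Fintype.mem_piFinset]
    intro i
    rw [mem_Ico]
    fin_cases i
    · exact hv a
    · exact hv b
    · exact hv c
  · unfold T
    simp

open Classical in
theorem card_pairs (Q : ZMod p × ZMod p × ZMod p → ZMod p × ZMod p × ZMod p → Prop) :
    ((cls p ×ˢ cls p).filter fun q : (Fin 3 → ℤ) × (Fin 3 → ℤ) => Q (T p q.1) (T p q.2)).card =
      (univ.filter fun q : (ZMod p × ZMod p × ZMod p) × (ZMod p × ZMod p × ZMod p) => Q q.1 q.2).card := by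
  refine Finset.card_bij (fun q _ => (T p q.1, T p q.2)) ?_ ?_ ?_
  · intro q hq
    rw [mem_filter] at hq ⊢
    exact ⟨mem_univ _, hq.2⟩
  · intro q hq r hr h
    rw [mem_filter, mem_product] at hq hr
    rw [Prod.mk.injEq] at h
    exact Prod.ext (inj p hq.1.1 hr.1.1 h.1) (inj p hq.1.2 hr.1.2 h.2)
  · intro q hq
    rw [mem_filter] at hq
    obtain ⟨f, hf, hf2⟩ := surj p q.1
    obtain ⟨g, hg, hg2⟩ := surj p q.2
    refine ⟨(f, g), ?_, ?_⟩
    · rw [mem_filter, mem_product]
      refine ⟨⟨hf, hg⟩, ?_⟩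
      simp only [hf2, hg2]
      exact hq.2
    · simp only [hf2, hg2]

/-- the resultant -/
def R {K : Type} [CommRing K] (a b c a' b' c' : K) : K :=
  (a * c' - a' * c) ^ 2 - (a * b' - a' * b) * (b * c' - b' * c)

theorem cast_res (f g : Fin 3 → ℤ) : ((res f g : ℤ) : ZMod p) = R (f 0 : ZMod p) (f 1) (f 2) (g 0) (g 1) (g 2) := by
  unfold res R
  push_cast
  rfl

open Classical in
/-- the number of the `(b, c, b', c')` -/
noncomputable def N (a a' : ZMod p) : ℕ :=
  ∑ b : ZMod p, ∑ c : ZMod p, ∑ b' : ZMod p, ∑ c' : ZMod p, if R a b c a' b' c' = 0 then 1 else 0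

theorem N_zero : N p 0 0 = p ^ 4 := by
  unfold N R
  simp only [zero_mul, sub_self, ne_eq, OfNat.ofNat_ne_zero, not_false_eq_true, zero_pow, if_true,
    Finset.sum_const, Finset.card_univ, ZMod.card, smul_eq_mul, mul_one]
  ring

theorem N_a0 {a : ZMod p} (ha : a ≠ 0) : N p a 0 = p ^ 3 := by
  classical
  unfold N
  have h1 : ∀ b : ZMod p, ∑ c : ZMod p, ∑ b' : ZMod p, ∑ c' : ZMod p,
      (if R a b c 0 b' c' = 0 then 1 else 0) = p * p := by
    intro b
    rw [Finset.sum_comm]
    have h2 : ∀ b' : ZMod p, ∑ c : ZMod p, ∑ c' : ZMod p, (if R a b c 0 b' c' = 0 then 1 else 0) = p := by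
      intro b'
      rw [Finset.sum_comm]
      by_cases hb : b' = 0
      · subst hb
        have h3 : ∀ c c' : ZMod p, R a b c 0 0 c' = 0 ↔ c' = 0 := by
          intro c c'
          unfold R
          constructor
          · intro h
            have : (a * c') ^ 2 = 0 := by linear_combination h
            exact (mul_eq_zero.1 (pow_eq_zero_iff two_ne_zero |>.1 this)).resolve_left ha
          · rintro rfl
            ring
        simp only [h3]
        rw [Finset.sum_comm]
        simp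
      · have h3 : ∀ c c' : ZMod p, R a b c 0 b' c' = 0 ↔ c = (b * b' * c' - a * c' ^ 2) / b' ^ 2 := by
          intro c c'
          rw [eq_div_iff (pow_ne_zero 2 hb)]
          unfold R
          constructor
          · intro h
            have : a * (c * b' ^ 2 - (b * b' * c' - a * c' ^ 2)) = 0 := by linear_combination h
            exact sub_eq_zero.1 ((mul_eq_zero.1 this).resolve_left ha)
          · intro h
            linear_combination a * h
        simp only [h3]
        simp
    simp only [h2]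
    simp
  simp only [h1]
  simp
  ring

theorem N_a {a : ZMod p} (ha : a ≠ 0) (a' : ZMod p) : N p a a' = p ^ 3 := by
  classical
  rw [← N_a0 p ha]
  unfold N
  refine Finset.sum_congr rfl fun b _ => Finset.sum_congr rfl fun c _ => ?_
  refine Fintype.sum_equiv (Equiv.subRight (a' / a * b)) _ _ fun b' => ?_
  refine Fintype.sum_equiv (Equiv.subRight (a' / a * c)) _ _ fun c' => ?_
  simp only [Equiv.subRight_apply]
  have : R a b c a' b' c' = R a b c 0 (b' - a' / a * b) (c' - a' / a * c) := by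
    unfold R
    field_simp
    ring
  rw [this]

theorem N_symm (a a' : ZMod p) : N p a a' = N p a' a := by
  classical
  unfold N
  have h1 : ∀ b c b' c' : ZMod p, R a b c a' b' c' = R a' b' c' a b c := by
    intro b c b' c'
    unfold R
    ring
  simp only [h1]
  have e1 : ∀ F : ZMod p → ZMod p → ZMod p → ZMod p → ℕ,
      ∑ b, ∑ c, ∑ b', ∑ c', F b c b' c' = ∑ b', ∑ c', ∑ b, ∑ c, F b c b' c' := by
    intro F
    calc ∑ b, ∑ c, ∑ b', ∑ c', F b c b' c' = ∑ b, ∑ b', ∑ c, ∑ c', F b c b' c' :=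
          Finset.sum_congr rfl fun b _ => Finset.sum_comm
      _ = ∑ b', ∑ b, ∑ c, ∑ c', F b c b' c' := Finset.sum_comm
      _ = ∑ b', ∑ b, ∑ c', ∑ c, F b c b' c' :=
          Finset.sum_congr rfl fun b _ => Finset.sum_congr rfl fun b' _ => Finset.sum_comm
      _ = ∑ b', ∑ c', ∑ b, ∑ c, F b c b' c' := Finset.sum_congr rfl fun b _ => Finset.sum_comm
  rw [e1]

theorem N_eq (a a' : ZMod p) : N p a a' = p ^ 3 + if a = 0 ∧ a' = 0 then p ^ 4 - p ^ 3 else 0 := by
  have hp : 0 < p := (Fact.out : p.Prime).pos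
  by_cases ha : a = 0
  · by_cases ha' : a' = 0
    · subst ha ha'
      rw [N_zero, if_pos ⟨rfl, rfl⟩]
      have : p ^ 3 ≤ p ^ 4 := Nat.pow_le_pow_right hp (by norm_num)
      omega
    · rw [N_symm, N_a p ha', if_neg (fun h => ha' h.2)]
      rfl
  · rw [N_a p ha, if_neg (fun h => ha h.1)]
    rfl

theorem count : ((cls p ×ˢ cls p).filter fun q : (Fin 3 → ℤ) × (Fin 3 → ℤ) => (p : ℤ) ∣ res q.1 q.2).card =
    p ^ 5 + p ^ 4 - p ^ 3 := by
  classical
  have h1 : ((cls p ×ˢ cls p).filter fun q : (Fin 3 → ℤ) × (Fin 3 → ℤ) => (p : ℤ) ∣ res q.1 q.2).card =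
      (univ.filter fun q : (ZMod p × ZMod p × ZMod p) × (ZMod p × ZMod p × ZMod p) =>
        R q.1.1 q.1.2.1 q.1.2.2 q.2.1 q.2.2.1 q.2.2.2 = 0).card := by
    have h5 := card_pairs p (fun x y => R x.1 x.2.1 x.2.2 y.1 y.2.1 y.2.2 = 0)
    refine Eq.trans ?_ (h5.trans ?_)
    · congr 1
      ext q
      simp only [mem_filter]
      rw [← ZMod.intCast_zmod_eq_zero_iff_dvd, cast_res]
      rfl
    · congr 1
      ext q
      simp only [mem_filter]
  rw [h1, Finset.card_filter, Fintype.sum_prod_type, Fintype.sum_prod_type]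
  have h2 : ∀ a : ZMod p, ∑ x : ZMod p × ZMod p, ∑ y : ZMod p × ZMod p × ZMod p,
      (if R a x.1 x.2 y.1 y.2.1 y.2.2 = 0 then 1 else 0) = ∑ a' : ZMod p, N p a a' := by
    intro a
    rw [Finset.sum_comm, Fintype.sum_prod_type]
    refine Finset.sum_congr rfl fun a' _ => ?_
    unfold N
    rw [Finset.sum_comm, Fintype.sum_prod_type]
    refine Finset.sum_congr rfl fun b _ => Finset.sum_congr rfl fun c _ => ?_
    rw [Fintype.sum_prod_type]
  have h3 : ∑ a : ZMod p, ∑ a' : ZMod p, N p a a' = p ^ 5 + p ^ 4 - p ^ 3 := by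
    simp only [N_eq, Finset.sum_add_distrib]
    have h4 : ∑ a : ZMod p, ∑ a' : ZMod p, (if a = 0 ∧ a' = 0 then p ^ 4 - p ^ 3 else 0) = p ^ 4 - p ^ 3 := by
      rw [Finset.sum_eq_single 0, Finset.sum_eq_single 0]
      · simp
      · intro b _ hb
        rw [if_neg (fun h => hb h.2)]
      · intro h
        exact absurd (mem_univ _) h
      · intro b _ hb
        refine Finset.sum_eq_zero fun c _ => ?_
        rw [if_neg (fun h => hb h.1)]
      · intro h
        exact absurd (mem_univ _) h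
    rw [h4]
    simp only [Finset.sum_const, Finset.card_univ, ZMod.card, smul_eq_mul]
    have hp : 0 < p := (Fact.out : p.Prime).pos
    have : p ^ 3 ≤ p ^ 4 := Nat.pow_le_pow_right hp (by norm_num)
    rw [Nat.add_sub_assoc this]
    ring
  rw [← h3]
  exact Finset.sum_congr rfl fun a _ => h2 a

end Pool.Agent.H14F.RC
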