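import Pool.Agent.H14F.CertL

/-!
# Squarefree parts of rational numbers
-/

set_option autoImplicit false

namespace Pool.Agent.H14F

theorem sqf_rat {ν : ℚ} (hν : ν ≠ 0) : ∃ (N : ℤ) (t : ℚ), Squarefree N ∧ t ≠ 0 ∧ ν = N * t ^ 2 := by
  obtain ⟨δ, hδ⟩ : ∃ δ : ℕ, δ = ν.den := ⟨_, rfl⟩
  obtain ⟨z, hz⟩ : ∃ z : ℤ, z = ν.num * δ := ⟨_, rfl⟩
  have hδ0 : δ ≠ 0 := by rw [hδ]; exact ν.den_nz
  have hd : (δ : ℚ) ≠ 0 := by exact_mod_cast hδ0
  have hz0 : z ≠ 0 := by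
    rw [hz]
    exact mul_ne_zero (Rat.num_ne_zero.2 hν) (by exact_mod_cast hδ0)
  have hν1 : ν = z / (δ : ℚ) ^ 2 := by
    have h1 : ν * (δ : ℚ) = ν.num := by rw [hδ]; exact Rat.mul_den_eq_num ν
    have h2 : (z : ℚ) = ν.num * δ := by rw [hz]; push_cast; ring
    rw [h2, ← h1]
    field_simp
  obtain ⟨w, hw⟩ : ∃ w : ℕ, w = z.natAbs := ⟨_, rfl⟩
  obtain ⟨s, b, hb, hs⟩ := Nat.sq_mul_squarefree w
  have hb0 : b ≠ 0 := by
    rintro rfl
    rw [zero_pow two_ne_zero, zero_mul] at hb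
    rw [← hb] at hw
    exact hz0 (Int.natAbs_eq_zero.1 hw.symm)
  have hb' : (b : ℚ) ≠ 0 := by exact_mod_cast hb0
  have hsi : Squarefree (s : ℤ) := Int.squarefree_natCast.2 hs
  have hbz : (w : ℚ) = (b : ℚ) ^ 2 * s := by
    rw [← hb]
    push_cast
    ring
  rcases Int.natAbs_eq z with h | h
  · rw [← hw] at h
    refine ⟨s, b / δ, hsi, div_ne_zero hb' hd, ?_⟩
    have h3 : (z : ℚ) = (b : ℚ) ^ 2 * s := by
      rw [← hbz, h]
      push_cast
      rfl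
    rw [hν1, h3]
    push_cast
    field_simp
  · rw [← hw] at h
    have hsn : Squarefree (-(s : ℤ)) := Int.squarefree_natAbs.1 (by simpa using hs)
    refine ⟨-s, b / δ, hsn, div_ne_zero hb' hd, ?_⟩
    have h3 : (z : ℚ) = -((b : ℚ) ^ 2 * s) := by
      rw [← hbz, h]
      push_cast
      rfl
    rw [hν1, h3]
    push_cast
    field_simp

theorem ev_rat {p : ℕ} [Fact p.Prime] (f : Fin 3 → ℤ) (x w : ℚ) :
    ev f (x : ℚ_[p]) (w : ℚ_[p]) = ((ev f x w : ℚ) : ℚ_[p]) := by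
  unfold ev
  push_cast
  ring

/-- both values cannot vanish -/
theorem not_both {K : Type} [Field K] [CharZero K] {f g : Fin 3 → ℤ} (hr : res f g ≠ 0) {x w : K}
    (h : x ≠ 0 ∨ w ≠ 0) (h1 : ev f x w = 0) (h2 : ev g x w = 0) : False := by
  have hr' : (res f g : K) ≠ 0 := by exact_mod_cast hr
  rcases h with h | h
  · have h3 := res_x f g x w
    rw [h1, h2, zero_mul, zero_mul, add_zero] at h3
    rcases mul_eq_zero.1 h3 with h4 | h4
    · exact hr' h4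
    · exact h ((pow_eq_zero_iff three_ne_zero).1 h4)
  · have h3 := res_w f g x w
    rw [h1, h2, zero_mul, zero_mul, add_zero] at h3
    rcases mul_eq_zero.1 h3 with h4 | h4
    · exact hr' h4
    · exact h ((pow_eq_zero_iff three_ne_zero).1 h4)

/-- a rational value -/
theorem no_val {f g : Fin 3 → ℤ} (hc : Cert f g) {ν x w A B : ℚ} (hν : ν ≠ 0)
    (h : x ≠ 0 ∨ w ≠ 0) (h1 : ev f x w = ν * A ^ 2) (h2 : ev g x w = ν * B ^ 2) : False := by
  obtain ⟨N, t, hN, ht, hν⟩ := sqf_rat hν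
  refine cert_local hc hN ?_
  intro p hp
  refine ⟨x, w, ((t * A : ℚ) : ℚ_[p]), ((t * B : ℚ) : ℚ_[p]), ?_, ?_, ?_⟩
  · rcases h with h | h
    · exact Or.inl (by exact_mod_cast h)
    · exact Or.inr (by exact_mod_cast h)
  · rw [ev_rat, h1, hν]
    push_cast
    ring
  · rw [ev_rat, h2, hν]
    push_cast
    ring

end Pool.Agent.H14F
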