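import Pool.Agent.H14F.Pass
import Pool.Agent.N667.PF.Sqf

/-!
# The Selmer group over the extension
-/

set_option autoImplicit false
set_option linter.all false

open Polynomial IsDedekindDomain NumberField
open scoped Classical Pointwise

namespace Pool.Agent.H14F

open Pool.Agent.N783.PF
open Pool.Agent.N783.PQ (LocIm)
open Pool.Agent.N874.JM (LocF)
open Pool.Agent.N874.PP (Ev Sq1 U0)
open Pool.Agent.N692.PMTOW (im sup_top normal_of_top)

/-- The property of `J`. -/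
def CoreJ {F L : Type} [Field F] [NumberField F] [Field L] [NumberField L] [Algebra F L]
    (f : (𝓞 F)[X]) (θ : L) (J : Finset ℕ) (𝔮 : ℕ → Ideal (𝓞 F)) : Prop :=
  ∀ h : F[X], aeval θ h ≠ 0 → IsSquare (Algebra.norm F (aeval θ h)) →
    (∀ 𝔓 : HeightOneSpectrum (𝓞 L), (∀ q ∈ J, Ov (𝔮 q) 𝔓 → 𝔓.valuation L θ ≠ 1) →
      Ev 𝔓 (aeval θ h)) →
    (∀ q ∈ J, ∀ 𝔓 : HeightOneSpectrum (𝓞 L), Ov (𝔮 q) 𝔓 → 𝔓.valuation L θ = 1 →
      U0 𝔓 ((q : L) * θ) (aeval θ h)) →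
    (∀ w : HeightOneSpectrum (𝓞 F), (2 : 𝓞 F) ∈ w.asIdeal →
      LocF (w.adicCompletion F) (fF f) h) →
    (∀ σ : F →+* ℝ, LocIm ℝ ((fF f).map σ) (h.map σ)) → IsSquare (aeval θ h)

theorem selM {F L : Type} [Field F] [NumberField F] [Field L] [NumberField L] [Algebra F L]
    {g W : ℕ} {f f₁ : (𝓞 F)[X]} {θ : L} {S J : Finset ℕ} {𝔮 : ℕ → Ideal (𝓞 F)}
    {r P : ℕ → (𝓞 F)[X]} (D : Dat g W f f₁ θ S J 𝔮 r P) (hcore : CoreJ f θ J 𝔮)
    (M : Type) [Field M] [NumberField M] [Algebra F M] [IsGalois F M] {n : ℕ}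
    (hM : Module.finrank F M = 2 ^ n)
    (h2 : ∀ w : HeightOneSpectrum (𝓞 M), (2 : 𝓞 M) ∈ w.asIdeal → Tot F w)
    (hr : ∀ σ : F →+* ℝ, ∃ ρ : M →+* ℝ, ρ.comp (algebraMap F M) = σ)
    (hq : ∀ q ∈ J, ∀ w : HeightOneSpectrum (𝓞 M), Ov (𝔮 q) w → Tot F w)
    (hram : ∀ w : HeightOneSpectrum (𝓞 M), ¬ Unr F w →
      Irreducible (rd (w.under (𝓞 F)).asIdeal f)) :
    Irreducible (fF (up M (f.scaleRoots ((Dp J : ℕ) : 𝓞 F)))) ∧
      SelZero (up M (f.scaleRoots ((Dp J : ℕ) : 𝓞 F))) := by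
  have two_under : ∀ w : HeightOneSpectrum (𝓞 M), (2 : 𝓞 M) ∈ w.asIdeal →
      (2 : 𝓞 F) ∈ (w.under (𝓞 F)).asIdeal := by
    intro w hw
    have e2 := nat_mem_under (L := F) w 2
    rw [Nat.cast_ofNat, Nat.cast_ofNat] at e2
    rw [e2]
    exact hw
  have hm := D.gen.mon
  -- irreducibility
  have hirrF : Irreducible (fF f) :=
    Pool.Agent.N667.PF.irr F g W f₁ f D.gf D.one hm D.gen.deg
  have hirrM : Irreducible (fF (up M f)) := by
    obtain ⟨w, hw⟩ := exists_two M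
    refine irr_of_mod (up_monic hm) (w := w) ?_
    refine irr_mod (tot_res (h2 w hw)) ?_
    have hw' := two_under w hw
    have hW : (W : 𝓞 F) ∈ (w.under (𝓞 F)).asIdeal := by
      obtain ⟨k, hk⟩ := D.gf.two
      rw [hk]
      push_cast
      exact Ideal.mul_mem_right _ _ hw'
    have e1 := Pool.Agent.N78.PF.rd_eq (Pool.Agent.N78.PF.sp_le hW) D.one
    have e2 := D.gf.irr _ (w.under (𝓞 F)).isPrime hw'
    rw [← e1] at e2
    exact e2
  obtain ⟨Ω, _, _, _, t, hG⟩ := Pool.Agent.N667.PF.gen M g (up M f) (up_monic hm)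
    (by rw [up_deg hm, D.gen.deg]) hirrM
  letI : Algebra F Ω := ((algebraMap M Ω).comp (algebraMap F M)).toAlgebra
  haveI : IsScalarTower F M Ω := IsScalarTower.of_algebraMap_eq fun x => rfl
  have ht : aeval t (fF f) = 0 := by
    have h3 := hG.root
    rw [fF_up, aeval_map_algebraMap] at h3
    exact h3
  obtain ⟨φ, hφ⟩ := exists_hom D.gen hirrF ht
  letI : Algebra L Ω := φ.toRingHom.toAlgebra
  haveI : IsScalarTower F L Ω := IsScalarTower.of_algebraMap_eq fun x => (φ.commutes x).symm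
  have hφ' : algebraMap L Ω θ = t := hφ
  rw [← hφ'] at hG
  have hodd : Odd (Module.finrank F L) := by
    rw [D.gen.rank]
    exact ⟨g, rfl⟩
  have hrk : Module.finrank M Ω = Module.finrank F L := by
    rw [D.gen.rank, hG.rank]
  have htop : im F M Ω ⊔ im F L Ω = ⊤ := Pool.Agent.N301.JM.sup_top hM hodd hrk
  haveI : Normal L Ω := normal_of_top (K := F) (L := L) (M := M) (Ω := Ω) htop
  -- generation
  have hgenΩ : ∀ x : Ω, ∃ h : M[X], aeval (algebraMap L Ω θ) h = x := by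
    intro x
    obtain ⟨c, rfl⟩ := hG.gen x
    refine ⟨∑ i, C (c i) * X ^ (i : ℕ), ?_⟩
    rw [map_sum]
    refine Finset.sum_congr rfl fun i _ => ?_
    rw [map_mul, map_pow, aeval_C, aeval_X]
  have hgenL : ∀ x : L, ∃ h : F[X], aeval θ h = x := by
    intro x
    obtain ⟨c, rfl⟩ := D.gen.gen x
    refine ⟨∑ i, C (c i) * X ^ (i : ℕ), ?_⟩
    rw [map_sum]
    refine Finset.sum_congr rfl fun i _ => ?_
    rw [map_mul, map_pow, aeval_C, aeval_X]
  have hqθ : ∀ q ∈ J, ∀ 𝔓 : HeightOneSpectrum (𝓞 Ω), Ov (𝔮 q) 𝔓 →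
      𝔓.valuation Ω (algebraMap L Ω θ) = 1 → ¬ Ev 𝔓 ((q : Ω) * algebraMap L Ω θ) := by
    intro q hqJ 𝔓 o1 v1
    have hqS := D.sub hqJ
    obtain ⟨o2, o3⟩ := ov_under (L := L) (M := M) o1
    have htot' := tot_comp htop (hq q hqJ _ o2)
    haveI : IsGalois L Ω := {}
    have hval := unr_val htot'.unr
    obtain ⟨𝔓₁, 𝔓₂, e1, e2, e3, e4, e5, e6, e7⟩ :=
      exq g W F L f θ S 𝔮 r P D.hg D.gen D.sqf D.gs q hqS (D.cq q hqS)
    have vq : 𝔓.valuation Ω (q : Ω) = WithZero.exp (-1 : ℤ) := by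
      rw [← map_natCast (algebraMap L Ω) q, hval]
      rcases e7 (𝔓.under (𝓞 L)) o3 with h | h
      · rw [h]; exact e5
      · rw [h]; exact e6
    rintro ⟨z, hz⟩
    rw [map_mul, v1, mul_one, vq] at hz
    have hz0 : 𝔓.valuation Ω z ≠ 0 := by
      intro h0
      rw [h0] at hz
      simp at hz
    have h3 := congrArg WithZero.log hz
    rw [WithZero.log_exp, WithZero.log_pow] at h3
    simp only [nsmul_eq_mul, Nat.cast_ofNat] at h3
    omega
  have hs : ∀ v : HeightOneSpectrum (𝓞 F), (2 : 𝓞 F) ∈ v.asIdeal →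
      ∃ w : HeightOneSpectrum (𝓞 M), (2 : 𝓞 M) ∈ w.asIdeal ∧
      (∀ x : F, w.valuation M (algebraMap F M x) = v.valuation F x) ∧
      ∀ s : M, s ≠ 0 → ∃ s₀ : F, w.valuation M (s - algebraMap F M s₀) < w.valuation M s := by
    intro v hv
    obtain ⟨w, rfl⟩ := exists_above (Ω := M) v
    have hw : (2 : 𝓞 M) ∈ w.asIdeal := by
      have e2 := nat_mem_under (L := F) w 2
      rw [Nat.cast_ofNat, Nat.cast_ofNat] at e2
      rw [← e2]
      exact hv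
    exact ⟨w, hw, unr_val (h2 w hw).unr, tot_dens (h2 w hw)⟩
  rw [up_scale hm]
  refine pass hG hirrM D.dp_ne ?_
  intro h hne hnorm hloc hreal
  -- the descent
  refine Pool.Agent.N301.JM.tow' n F L M Ω two_ne_zero hM hodd hrk
    (fun x => Cnd J 𝔮 (algebraMap L Ω θ) (algebraMap L Ω (aeval θ (derivative (fF f)))) x ∧
      C2 (fF (up M f)) (algebraMap L Ω θ) x) ?_ ?_ ?_ ?_ _ hne ?_ hnorm
  · intro x hx
    exact ⟨cnd_sq hx, c2_sq hgenΩ x⟩
  · intro x y hx hy h3 h4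
    refine ⟨cnd_mul ?_ hqθ hx hy h3.1 h4.1, c2_mul h3.2 h4.2⟩
    intro q hqJ
    obtain ⟨a1, a2, a3, a4, a5, a6, a7, -⟩ := D.gs q (D.sub hqJ)
    exact ⟨a1, by omega, a7⟩
  · intro σ x h3
    refine ⟨cnd_sig rfl rfl σ h3.1, ?_⟩
    have h4 := h3.2
    rw [fF_up] at h4 ⊢
    exact c2_sig σ h4
  · intro x hx h3 hN
    obtain ⟨h₁, rfl⟩ := hgenL x
    have h4 := h3.2
    rw [fF_up] at h4
    obtain ⟨b1, b2⟩ := base D htop hq hram hx hN h3.1
    obtain ⟨b3, b4⟩ := c2_base (by rw [← fF_up]; exact hirrM) (by rw [← fF_up]; exact hG.root)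
      hs hr h4
    exact hcore h₁ hx hN b1 b2 b3 b4
  · exact ⟨top_cnd D htop hq hG hne hloc, top_c2 D hG hloc hreal⟩

end Pool.Agent.H14F
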