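import Pool.Agent.H14F.Defs

/-!
# Project F6 (helper14): independent stubs, with proofs in the docstrings

Prove `theorem t : STUB := ...` in `Pool/Agent/H14F/<Stub>.lean` (import `Pool.Agent.H14F.Stm`), namespace
`Pool.Agent.H14F.<Stub>`.
-/

set_option autoImplicit false

namespace Pool.Agent.H14F

open Finset

/-- **RB** (reduction theory of lattices in dimension three). Take among all the bases of the lattice spanned by
the rows of `B` one (`e 0, e 1, e 2`) for which `(|e 0|², |e 1|², |e 2|²)` (Euclidean norms) is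
lexicographically minimal. Then `|e 0| ≤ |e 1| ≤ |e 2|`, `|⟨e 0, e 1⟩| ≤ |e 0|² / 2`, and the projection `u` of
`e 2` to the plane of `e 0, e 1` has length at most the covering radius of the lattice of `e 0, e 1`, so
`|u|² ≤ (|e 0|² + |e 1|²) / 3` (or use the cruder bound: `u` can be reduced by integer multiples of `e 1`, `e 0`
to length `≤ (|e 0| + |e 1|) / 2`, if necessary with another constant: one may also use a basis reduced in the
sense of LLL). Hence the distance of `e 2` to the plane is at least `c |e 2|`, the distance of `e 1` to the line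
is at least `c |e 1|`; this gives both last claims (`C = 100` is more than enough). Finally sort by the maximum
norm. -/
def RB : Prop := ∃ C : ℕ, ∀ B : Fin 3 → Fin 3 → ℤ, (Matrix.of B).det ≠ 0 →
  ∃ e : Fin 3 → Fin 3 → ℤ, (∀ x, ∃ x', lin B x = lin e x') ∧ (∀ x, ∃ x', lin e x = lin B x') ∧
    (Matrix.of e).det.natAbs = (Matrix.of B).det.natAbs ∧
    nrm (e 0) ≤ nrm (e 1) ∧ nrm (e 1) ≤ nrm (e 2) ∧
    nrm (e 0) * nrm (e 1) * nrm (e 2) ≤ C * (Matrix.of B).det.natAbs ∧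
    ∀ x i, (x i).natAbs * nrm (e i) ≤ C * nrm (lin e x)

/-- **BRUN** (Brun's pure sieve in dimension six, periods `p²`). Follow `Pool.Agent.Helper742.brun`
(file `Pool/Agent/Helper742/Brun.lean`, one variable, period `p`), using its lemmas `bonf_odd`, `E'_odd_le`
verbatim. For `A ⊆ T`, `|A| < r`, `q = ∏_{p ∈ A} p² ≤ z^(2r)`, each class modulo `q` contains
`∏ ((2 N i + 1)/q + θ)²` pairs of `rbox N`, so the sum of `∏_{p ∈ A} u p` over `rbox N × rbox N` is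
`∏ (2 N i + 1)²` times the mean value (which is multiplicative by the Chinese remainder theorem) up to
`∏ (2 N i + 1)² * 64 q / M`; the number of these `A` is at most `z ^ r`. -/
def BRUN : Prop := ∀ (T : Finset ℕ) (z r M : ℕ) (N : Fin 3 → ℕ) (K : ℝ)
  (u : ℕ → (Fin 3 → ℤ) → (Fin 3 → ℤ) → ℝ), 2 ≤ z → Odd r → 0 < K →
  (∀ p ∈ T, p.Prime ∧ p ≤ z) → (∀ p ∈ T, Per (p ^ 2) (u p)) →
  (∀ p ∈ T, ∀ f g, 0 ≤ u p f g ∧ u p f g ≤ 1) → (∀ i, M ≤ N i) → 1 ≤ M → z ^ (2 * r) ≤ M →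
  ∑ f ∈ rbox N, ∑ g ∈ rbox N, ∏ p ∈ T, (1 - u p f g) ≤
    (∏ i, (2 * (N i : ℝ) + 1)) ^ 2 * (∏ p ∈ T, (1 - mean (p ^ 2) (u p)) +
      K⁻¹ ^ r * Real.exp (K * ∑ p ∈ T, mean (p ^ 2) (u p)) + 64 * (z : ℝ) ^ (3 * r) / M)

/-- **RESC**. Modulo `p` the resultant vanishes iff the forms have a common zero in the projective line
(at most `(p + 1) p⁴` pairs), or one is a multiple of the other (at most `2 p⁴` pairs). -/
def RESC : Prop := ∀ p : ℕ, p.Prime → 5 ≤ p →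
  (((cls p ×ˢ cls p).filter fun q : (Fin 3 → ℤ) × (Fin 3 → ℤ) => (p : ℤ) ∣ res q.1 q.2).card : ℝ) ≤ (p : ℝ) ^ 5 + 3 * (p : ℝ) ^ 4

/-- **DISC**. `b² = 4 a c` has exactly `p²` solutions modulo `p`. -/
def DISC : Prop := ∀ p : ℕ, p.Prime → 3 ≤ p →
  ((cls p).filter fun f => (p : ℤ) ∣ disc f).card = p ^ 2

/-- **E1C**. Modulo `p` there are `p² - 1` nonzero forms with `p ∣ disc`, namely the `c L²`; for half of them
the character `gen p` is not `s` (multiply `c` by a fixed non-residue: a bijection between the two halves);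
of the `p³` lifts of such a form modulo `p²` exactly `p³ - p²` have `p² ∤ disc`. So the number is
`(p² - 1)/2 · (p³ - p²)`. -/
def E1C : Prop := ∀ (p : ℕ) (s : ℤ), p.Prime → 5 ≤ p → (s = 1 ∨ s = -1) →
  (1 / (2 * (p : ℝ)) - 1 / (p : ℝ) ^ 2) * (p : ℝ) ^ 6 ≤
    (((cls (p ^ 2)).filter fun f => (p : ℤ) ∣ disc f ∧ ¬ (p : ℤ) ^ 2 ∣ disc f ∧ gen p f ≠ s).card : ℝ)

/-- **DRC**. If `f = c L²` is not zero modulo `p`, then `p ∣ res f g` iff `g` vanishes at the zero of `L`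
modulo `p`: `p²` forms `g`; there are `p² - 1` such `f`; and `f = 0` gives `p³` pairs. -/
def DRC : Prop := ∀ p : ℕ, p.Prime → 5 ≤ p →
  ((cls p ×ˢ cls p).filter fun q : (Fin 3 → ℤ) × (Fin 3 → ℤ) => (p : ℤ) ∣ disc q.1 ∧ (p : ℤ) ∣ res q.1 q.2).card ≤ p ^ 4 + p ^ 3

/-- **RESL**. The pairs with a common zero in the projective line modulo `p`: at least
`(p + 1) p⁴ - (p (p + 1) / 2) p²` by inclusion-exclusion. -/
def RESL : Prop := ∀ p : ℕ, p.Prime → 5 ≤ p →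
  p ^ 5 ≤ ((cls p ×ˢ cls p).filter fun q : (Fin 3 → ℤ) × (Fin 3 → ℤ) => (p : ℤ) ∣ res q.1 q.2).card

/-- **MEANL** (from DISC, E1C, DRC, RESL). Densities modulo `p²` of pairs `(f, g)`: let `E1`: `p ∣ disc f`, `p² ∤ disc f`, `gen p f ≠ s`.
Modulo `p` there are `p² - 1` nonzero forms with `p ∣ disc`, namely `c L²`, and for half of them the character is
not `s`; `disc` modulo `p²` is equidistributed over the multiples of `p` when such a form is lifted. So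
`P(E1) = (1/(2p)) (1 - 1/p²) (1 - 1/p) ≥ 1/(2p) - 1/p²`. `P(p ∣ disc f, p ∣ res f g) ≤ 1/p² + 1/p³`
(if `f = c L² ≠ 0` modulo `p`, then `p ∣ res f g` iff `g` vanishes at the zero of `L`),
`P(p ∣ disc f, p ∣ disc g) = 1/p²`, `P(p ∣ res f g) ≥ 1/p` (common zeros in the projective line, inclusion-
exclusion: `(p+1) p⁴ - (p+1) p/2 · p²` pairs at least). Since
`1 - wt = 1` on `(E1 ∧ p ∤ res) ∨ (E1' ∧ p ∤ res)` and `= 1 - y` where `p ∣ res`, the mean is at least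
`2 (1/(2p) - 1/p² - 2/p²) - 1/p² + (1 - y)/p = (2 - y)/p - 7/p²`. -/
def MEANL : Prop := DISC → E1C → DRC → RESL → ∀ (p : ℕ) (s : ℤ) (y : ℝ), p.Prime → 5 ≤ p → (s = 1 ∨ s = -1) → 0 ≤ y → y ≤ 1 →
  (2 - y) / p - 7 / (p : ℝ) ^ 2 ≤ mean (p ^ 2) (fun f g => 1 - wt y p s f g)

/-- **MEANU** (from DISC, RESC). `1 - wt ≤ [p ∣ disc f] + [p ∣ disc g] + [p ∣ res f g]`, with densities `1/p`, `1/p` and
at most `1/p + 3/p²` (see `RESC`). -/
def MEANU : Prop := DISC → RESC → ∀ (p : ℕ) (s : ℤ) (y : ℝ), p.Prime → 5 ≤ p → (s = 1 ∨ s = -1) → 0 ≤ y → y ≤ 1 →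
  mean (p ^ 2) (fun f g => 1 - wt y p s f g) ≤ 4 / p

/-- **MI**. Invariance of the mean value under a linear map whose determinant is prime to `p`
(a bijection of the classes modulo `p²`). -/
def MI : Prop := ∀ (p : ℕ) (e : Fin 3 → Fin 3 → ℤ) (u : (Fin 3 → ℤ) → (Fin 3 → ℤ) → ℝ), p.Prime →
  ¬ (p : ℤ) ∣ (Matrix.of e).det → Per (p ^ 2) u →
  mean (p ^ 2) (fun x y => u (lin e x) (lin e y)) = mean (p ^ 2) u

/-- **PLANE**. `n` primitive; let `|n i| = nrm n`, `g = gcd(n_k, n_i)` (`j, k` the other two indices). Modulo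
`n i` the coordinates `(x, y)` of indices `j, k` satisfy `n_j x + n_k y ≡ m`; so `x` lies in one class modulo `g`
(`gcd(n_j, g) = 1`; no solution or `≤ 2H/g + 1` values in the box), then `y` in one class modulo `|n i|/g`
(`≤ 2 H g/|n i| + 1` values), and `f i` is determined. The product is `≤ 4H²/|n i| + 2H/g + 2Hg/|n i| + 1`. -/
def PLANE : Prop := ∃ C : ℕ, ∀ (H : ℕ) (n : Fin 3 → ℤ) (m : ℤ), 1 ≤ H →
  (∀ p : ℕ, p.Prime → ¬ ∀ i, (p : ℤ) ∣ n i) →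
  ((box H).filter fun f => dot n f = m).card * nrm n ≤ C * (H ^ 2 + H * nrm n)

open Classical in
/-- **SKEW** (from PLANE). Case A: `n 1 ^ 2 ≠ n 0 * n 2`. Given `n` there are `O((H Z)^ε)` numbers `D` (divisors), and given
`n, D` there are `(2 K Z + 1)²` values of `(dot n f / D, dot n g / D)`; the number of `f` in the box with
`dot n f = m` is at most `C (H² / |n| + H) ≤ C' Z H² / |n|` (`n` primitive: choose `i` with `|n i| = nrm n`; the
other two coordinates `(x, y)` satisfy `n_j x + n_k y ≡ m` modulo `n_i`: at most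
`(2H/g + 1)(2 H g/|n i| + 1)`, `g = gcd(n_k, n_i)`, and then `f i` is determined). The sum over `n` of
`Z² (Z H² / nrm n)²` is at most `C H⁵ Z⁵`. Case B: `n 1 ^ 2 = n 0 * n 2`, then
`n = ± (m₁², m₁ m₂, m₂²)`, `gcd(m₁, m₂) = 1`, `dot n f = ± f(m₁, m₂)`, and not both values vanish since
`res f g ≠ 0`; so `D ≤ 3 H nrm n` and the sum over `m`, `D ≤ 3 H |m|²` of `Z² (Z H² / |m|²)²` is
`O(H⁵ Z⁴ log H)`. -/
def SKEW : Prop := PLANE → ∀ (K : ℕ) (ε : ℝ), 0 < ε → ∃ C : ℝ, ∀ H Z : ℕ, 1 ≤ Z → Z ≤ H →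
  (((box H ×ˢ box H).filter fun q : (Fin 3 → ℤ) × (Fin 3 → ℤ) => res q.1 q.2 ≠ 0 ∧ ∃ (n : Fin 3 → ℤ) (D : ℕ), 1 ≤ D ∧
    (∀ p : ℕ, p.Prime → ¬ ∀ i, (p : ℤ) ∣ n i) ∧ (D : ℤ) ∣ n 1 ^ 2 - n 0 * n 2 ∧
    (D : ℤ) ∣ dot n q.1 ∧ (D : ℤ) ∣ dot n q.2 ∧ (dot n q.1).natAbs ≤ K * Z * D ∧
    (dot n q.2).natAbs ≤ K * Z * D ∧ H * nrm n ≤ K * Z * D ∧ nrm n ≤ K * H * Z).card : ℝ) ≤
  C * (H : ℝ) ^ (5 + ε) * (Z : ℝ) ^ 5

/-- **OMEGA**. If at least `A` primes of `T` divide `res f g` then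
`Y ^ A ≤ ∑_{S ⊆ T, |S| ≤ A, ∏ S ∣ res f g} (Y - 1) ^ |S|` (take the subsets of a fixed set of `A` such primes).
For `P = ∏ S ≤ z ^ A ≤ H` the number of the pairs of the box with `P ∣ res f g` is at most
`((2 H + 1)/P + 1) ^ 6 ∏_{p ∈ S} (p⁵ + 3 p⁴) ≤ (4 H) ^ 6 ∏_{p ∈ S} (1/p + 3/p²)`. -/
def OMEGA : Prop := RESC → ∀ (T : Finset ℕ) (z A H : ℕ) (Y : ℝ), (∀ p ∈ T, p.Prime ∧ 5 ≤ p ∧ p ≤ z) →
  1 ≤ z → z ^ A ≤ H → 1 ≤ Y → Y ≤ 2 →
  (((box H ×ˢ box H).filter fun q : (Fin 3 → ℤ) × (Fin 3 → ℤ) => A ≤ (T.filter fun p => ((p : ℕ) : ℤ) ∣ res q.1 q.2).card).card : ℝ) ≤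
    Y⁻¹ ^ A * (4 * (H : ℝ)) ^ 6 * ∏ p ∈ T, (1 + (Y - 1) * (1 / (p : ℝ) + 3 / (p : ℝ) ^ 2))

open Classical in
/-- **SUM**. Rankin / Euler products: the sum is at most `∏_{p ≤ X} (1 + h(p)/p + h(p)/p²)`, where
`h(p) = (18/25)(1 + 3/p)` for `23 < p ≤ z` and `h(p) = 1` otherwise; Mertens (`Pool/Agent/H14Q/Mert.lean`). -/
def SUM : Prop := ∃ C : ℝ, 0 < C ∧ ∀ z X : ℕ, 24 ≤ z → z ≤ X →
  ∑ δ ∈ Icc 1 X, ∑ δ' ∈ Icc 1 X, (if Squarefree δ ∧ Squarefree δ' ∧ Nat.Coprime δ δ' ∧ δ * δ' ≤ X then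
    (δ : ℝ) * (∏ p ∈ (P z).filter (fun p => p ∣ δ * δ'), (18 / 25 * (1 + 3 / (p : ℝ)))) /
      ((δ : ℝ) * δ') ^ 2 else 0) ≤ C * Real.log z ^ (-(7 : ℝ) / 25) * Real.log X

/-- **MER**. Mertens. -/
def MER : Prop := ∃ C : ℝ, 0 < C ∧ ∀ z : ℕ, 24 ≤ z →
  ∏ p ∈ P z, (1 - (32 / 25 / (p : ℝ) - 7 / (p : ℝ) ^ 2)) ≤ C * Real.log z ^ (-(32 : ℝ) / 25) ∧
  ∏ p ∈ P z, (1 + 11 / 25 * (1 / (p : ℝ) + 3 / (p : ℝ) ^ 2)) ≤ C * Real.log z ^ ((11 : ℝ) / 25) ∧
  ∑ p ∈ P z, 4 / (p : ℝ) ≤ 4 * Real.log (Real.log z) + C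

/-- **LOCS**. If the product `G = f g` is not a constant times a square modulo `p`, then by Weil
(`Pool.Agent.H341R2.WeilSharp`, see its use in `Pool/Agent/H14Q2/Els.lean`) the number of `x` modulo `p` with
`f(x,1) g(x,1)` a nonzero square is at least `(p - 4 - 3 √p)/2 > 0`; lift the point by Hensel's lemma. (If `Red`
does not hold then `f(x,1) g(x,1)` modulo `p` is a polynomial of degree `≤ 4` which is not a constant times a
square: a root of multiplicity two comes from a common root, or from a double root of `f` or `g`.) -/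
def LOCS : Prop := ∀ (p : ℕ) [Fact p.Prime] (f g : Fin 3 → ℤ), 23 ≤ p → ¬ Red p f g → Sol f g ℚ_[p]

open Classical in
/-- **REDC**. Pairs of rank at most one modulo `p`: at most `2 p⁴`; `p ∣ disc f` and `p ∣ disc g`: `p² · p²`. -/
def REDC : Prop := ∀ p : ℕ, p.Prime → 3 ≤ p → ((cls p ×ˢ cls p).filter fun q : (Fin 3 → ℤ) × (Fin 3 → ℤ) => Red p q.1 q.2).card ≤ 3 * p ^ 4

open Classical in
/-- **LARGE**. Few pairs have `Red` for some large prime `H ≤ Q p`. (1) `f` and `g` proportional over `ℚ`, or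
`disc f = 0`, or `disc g = 0`: `O(H⁵)` pairs. (2) Rank one modulo `p`: some minor, say `f 0 g 1 - f 1 g 0 ≠ 0`,
is at most `2 H²` in absolute value, so it has `O_Q(1)` (at most `O(log H)`) prime factors `p ≥ H/Q`; for given
`f 0, f 1, g 0, g 1` and `p` the pair `(f 2, g 2)` lies on a line modulo `p` unless `p` divides all four, so
there are `O(H)` of them; and if `p ∣ f 0, f 1, g 0, g 1` there are `O(1)` such quadruples for each `p ≤ H` (the
quadruple is not zero) and `O(H)` primes. (3) `p ∣ disc f ≠ 0`: at most `O(log H)` primes `p`, and for each of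
them `O(H²)` forms `g` in the box with `p ∣ disc g`. -/
def LARGE : Prop := ∀ Q : ℕ, ∃ C : ℝ, ∀ H : ℕ, 3 ≤ H →
  (((box H ×ˢ box H).filter fun q : (Fin 3 → ℤ) × (Fin 3 → ℤ) => ∃ p : ℕ, p.Prime ∧ H ≤ Q * p ∧ 3 ≤ p ∧ Red p q.1 q.2).card : ℝ) ≤
    C * (H : ℝ) ^ 5 * Real.log H

end Pool.Agent.H14F
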