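import Pool.Agent.H14F.DefB
import Pool.Agent.W313.BMX.Final

/-!
# Project F6 (helper14), phase 2: stubs

Prove `theorem t : STUB := ...` in `Pool/Agent/H14F/<Stub>.lean` (import `Pool.Agent.H14F.StmB` and, if useful,
the proofs of the stubs of phase 1, `Pool/Agent/H14F/<Stub>.lean`), namespace `Pool.Agent.H14F.<Stub>`.
-/

set_option autoImplicit false

namespace Pool.Agent.H14F

open Finset

/-! ### Arithmetic of one pair -/

/-- **PASS1**. Let `p ≥ 3` and assume that `t` is not obstructed at `p`; suppose `Bad p (t/p) f g`. There are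
`x, w` not both divisible by `p`, `u`, `v` with `f(x,w) ≡ t u²`, `g(x,w) ≡ t v²` modulo `p²`. If `p ∣ t` then
`(x, w)` is a common zero modulo `p` so `p ∣ res f g`, contradiction (`res` is the resultant; e.g. use
`res f g * x ^ 3` and `res f g * w ^ 3` are in the ideal generated by `f(x,w)`, `g(x,w)`). So `p ∤ t`. Since
`p ∣ disc f`, `4 f0 f(x,w) = (2 f0 x + f1 w)² - disc f w²` and `4 f2 f(x,w) = (2 f2 w + f1 x)² - disc f x²`.
If `p ∤ f(x,w)` then `p ∤ u`, `(f(x,w)/p) = (t/p)`, and this equals `gen p f` (if `p ∣ f0` then `p ∣ f1`, and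
`f(x,w) ≡ f2 w²`; otherwise use `4 f0 f(x,w) ≡ (…)²`). If `p ∣ f(x,w)` then `p ∣ u`, so `p² ∣ f(x,w)`, and both
`(2 f0 x + f1 w)`, `(2 f2 w + f1 x)` are divisible by `p`, so `p² ∣ disc f w²`, `p² ∣ disc f x²`, and
`p² ∣ disc f`: contradiction. The second half of `NB` is the same with `f`, `g` exchanged (`res` is symmetric). -/
def PASS1 : Prop := ∀ (f g : Fin 3 → ℤ) (t : ℤ) (p : ℕ), p.Prime → 3 ≤ p → ¬ ObsF f g t p → NB p t f g

/-- **ODDV**. Induction on `|res f g|`: if `p ∤ res` fine. Otherwise, as there is no common zero modulo `p` in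
the projective line over `𝔽_p`: `f` and `g` are not both zero modulo `p`; say `f ≢ 0` (`res` is symmetric, and so
is `CZ`). Since the resultant vanishes modulo `p`, `f` and `g` have a common factor over `𝔽_p`, which is not
linear, so `f` is irreducible modulo `p` (it has no zeros) and `g ≡ ν f` modulo `p`: `g = ν f + p g'`. (Direct
way: if `p ∤ f 0`, put `ν = g 0 / f 0`; then `g - ν f ≡ w (b x + c w)` and `res f g ≡ f 0 * ... ` the value of `f`
at the zero `(-c, b)` times `f 0 `; if `(b, c) ≢ 0` then `(-c, b)` is a common zero.) Then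
`res f g = p² res f g'`, and `f`, `g'` have no common zero modulo `p`, because `f` has none. -/
def ODDV : Prop := ∀ (p : ℕ) (f g : Fin 3 → ℤ), p.Prime → res f g ≠ 0 → ¬ CZ p f g →
  Even (padicValInt p (res f g))

/-- **DUAL** (from ODDV). Put `r = res f g`. If `t ^ 2 ≤ |r|` take `t' = t`. Otherwise `r = t r₁`, `|r₁| < |t|`,
write `r₁ = t' m²` with `t'` squarefree (with sign); `t'² ≤ r₁² ≤ |r|`. Let `p ∣ t'` be prime: if `p ∣ t` there is
a common zero by assumption; otherwise `v_p(r) = v_p(r₁)` is odd and there is one by ODDV. Let `p ≥ 3` and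
suppose `Bad p (t'/p) f g`, so `p ∤ r`, `p ∣ disc f`, `p² ∤ disc f`, `gen p f ≠ (t'/p)`. Modulo `p` we have
`f = c L²`, so `r = c² g(zero of L)²` is a square modulo `p` (explicitly `4 f0 ^ 2 * res ≡ square`, or if `p ∣ f0`
then `p ∣ f1` and `res ≡ (g0 f2)²`), so `(r/p) = 1`, and `r = t t' m²` gives `(t/p) = (t'/p)`: contradiction
with `Ps t`. -/
def DUAL : Prop := ODDV → ∀ (f g : Fin 3 → ℤ) (t : ℤ), res f g ≠ 0 → t ∣ res f g → Ps t f g →
  ∃ t' : ℤ, t'.natAbs ^ 2 ≤ (res f g).natAbs ∧ Ps t' f g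

/-- **LATC**. Chinese remainder theorem: `δ'` is the product of the primes `p ∣ d` for which `p ∣ f 2` and
`p ∣ g 2` (the common zero `(0 : 1)`); for the other primes there is a common zero `(x : w)` with `p ∤ x`; take
`ρ ≡ w / x` modulo `p`. -/
def LATC : Prop := ∀ (d : ℕ) (f g : Fin 3 → ℤ), Squarefree d → (∀ p : ℕ, p.Prime → p ∣ d → CZ p f g) →
  ∃ δ δ' ρ : ℕ, δ * δ' = d ∧ ρ < δ ∧ Lat δ δ' ρ f ∧ Lat δ δ' ρ g

/-! ### The lattices -/

/-- **BAS** (from RB). `RB` for the basis `(δ, 0, 0)`, `(-ρ, 1, 0)`, `(-δ' ρ², 0, δ')`. -/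
def BAS : Prop := ∃ C : ℕ, 1 ≤ C ∧ ∀ δ δ' ρ : ℕ, 1 ≤ δ → 1 ≤ δ' → Rd C δ δ' ρ (eb C δ δ' ρ)

/-- **SKC**. Let `m = e 0 × e 1` (cross product), so `dot m (e 0) = dot m (e 1) = 0`, `dot m (e 2) = ± d`,
`d = δ δ'`. Write `m = j n`, `n` primitive, `j ≥ 1`; then `j ∣ d`; put `D = d / j`. For `f = lin e x`,
`dot n f = ± x 2 * D`, and `|x 2| nrm (e 2) ≤ C H`, so `|x 2| ≤ C Z`. `nrm m ≤ 2 nrm (e 0) nrm (e 1)`, so
`j H nrm n = H nrm m ≤ 2 nrm (e 0) nrm (e 1) nrm (e 2) Z ≤ 2 C d Z`, `H nrm n ≤ 2 C D Z` and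
`nrm n ≤ 2 C d Z / H ≤ 6 C H Z`. Finally let `p ∣ D` be prime (`D` is squarefree, so it suffices that
`p ∣ n 1 ^ 2 - n 0 * n 2`). `p ∤ j` since `d` is squarefree. If `p ∣ δ` let `w = (1, ρ, ρ²)`, otherwise
`w = (0, 0, 1)`: all elements of the lattice are orthogonal to `w` modulo `p`. Some coordinate of `n`, hence of
`m`, is not divisible by `p`, so `e 0`, `e 1` are independent modulo `p` and `w` is a multiple of `m` modulo `p`
(both are orthogonal to `e 0`, `e 1`): `m = c w` with `c ≢ 0` and `m 1 ^ 2 ≡ m 0 * m 2`. (E.g. the triple product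
expansion `w × (e 0 × e 1) = e 0 (w·e 1) - e 1 (w·e 0) ≡ 0`; so `w × m ≡ 0`, and then
`m 1 ^ 2 - m 0 m 2 ≡ 0` since for `w = (1, ρ, ρ²)`: `m 1 ≡ ρ m 0`, `m 2 ≡ ρ² m 0`; for `w = (0,0,1)`:
`m 0 ≡ m 1 ≡ 0`. No independence is needed.) -/
def SKC : Prop := ∀ (C H Z δ δ' ρ : ℕ) (e : Fin 3 → Fin 3 → ℤ) (f g : Fin 3 → ℤ), 1 ≤ C → 1 ≤ H → 1 ≤ Z →
  Squarefree (δ * δ') → δ * δ' ≤ 3 * H ^ 2 → Rd C δ δ' ρ e → H < nrm (e 2) * Z →
  f ∈ box H → g ∈ box H → Lat δ δ' ρ f → Lat δ δ' ρ g → Sk (6 * C) H Z f g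

/-- **GOODL** (from BRUN, MI, MEANL, MEANU, MER). Let `T` be the set of the primes of `P z` not dividing
`d = δ δ'`, `s p = (t/p) = ± 1`. With `f = lin e x`, `g = lin e x'` the sum is at most the sum over
`x, x' ∈ rbox N`, `N i = ⌊C H / nrm (e i)⌋` (the terms are nonnegative; `x ↦ lin e x` is injective since
`det e ≠ 0`), of `∏ (1 - u p x x')`, `u p x x' = 1 - wt (18/25) p (s p) (lin e x) (lin e x')`; `u p` has the
period `p²`. `N i ≥ M = Zf H`, since `nrm (e i) ≤ nrm (e 2)`. `BRUN` with `K = e`, `r = 2 ⌈11 ℓ⌉ + 1`,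
`ℓ = log log H`, `z = zf H`: `mean (u p) ≥ bp p` by MI and MEANL, and `≤ 4/p` by MEANU; so the error terms are
`e^(-r) exp (e (4 log log z + C)) ≤ C (log H)^(-2)` and `64 z^(3r) / M ≤ C (log H)^(-2)` (also
`z^(2r) ≤ M`), for `H ≥ H₀`. `∏ (2 N i + 1) ≤ ∏ (3 C H / nrm (e i))·…`; note `nrm (e 0) nrm (e 1) nrm (e 2)` is
bounded BELOW by `d / 6` (`|det| ≤ 6 ∏ nrm`), so `∏ (2 N i + 1) ≤ C' H³ / d`. -/
def GOODL : Prop := ∀ C₀ : ℕ, ∃ (C : ℝ) (H₀ : ℕ), 0 < C ∧ ∀ (H δ δ' ρ : ℕ) (t : ℤ)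
  (e : Fin 3 → Fin 3 → ℤ), H₀ ≤ H → Squarefree t → δ * δ' = t.natAbs → Rd C₀ δ δ' ρ e →
  nrm (e 2) * Zf H ≤ H →
  LS H (zf H) δ δ' ρ t ≤ C * (H : ℝ) ^ 6 / ((δ : ℝ) * δ') ^ 2 *
    (∏ p ∈ (P (zf H)).filter (fun p => ¬ p ∣ δ * δ'), (1 - bp p) + Real.log H ^ (-(2 : ℝ)))

/-! ### The count -/

open Classical in
/-- **CNT** (from PASS1, ODDV, DUAL, LATC, BAS, SKC). Let `(f, g) ∈ NC H`. By `¬ Cert` there is a squarefree
`t ∣ res f g` which is not obstructed at any prime; `Ps t f g`: for `p ∣ t` a solution modulo `p²` gives the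
common zero, and PASS1. By DUAL we may suppose `t² ≤ |res f g| ≤ 8 H⁴`, so `|t| ≤ 3 H²`. LATC with `d = |t|`
gives `δ, δ', ρ`. If `nrm (e 2) * Z > H` then the pair is in `SkS (6 C₀) H Z` by SKC. If at least `A` primes of
`P z` divide `res f g`, it is in `OmS H z A`. Otherwise: for `p ∈ P z` with `p ∣ δ δ'` we have `p ∣ res f g`; for
`p ∤ δ δ'` we have `wt (18/25) p (t/p) f g = 18/25` if `p ∣ res f g`, and `1` otherwise, by `NB`. So
`(18/25)^(number of the p ∣ δ δ') ∏ wt = (18/25)^(number of the p ∣ res f g) ≥ (18/25)^A`, so the pair contributes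
at least `1` to the last sum (term `δ, δ', ρ`, `σ = sign t`); all the terms are nonnegative. -/
def CNT : Prop := ∀ C₀ : ℕ, 1 ≤ C₀ → (∀ δ δ' ρ : ℕ, 1 ≤ δ → 1 ≤ δ' → Rd C₀ δ δ' ρ (eb C₀ δ δ' ρ)) →
  ∀ H Z z A : ℕ, 1 ≤ H → 1 ≤ Z →
  ((NC H).card : ℝ) ≤ (SkS (6 * C₀) H Z).card + (OmS H z A).card +
    (25 / 18) ^ A * ∑ δ ∈ Icc 1 (3 * H ^ 2), ∑ δ' ∈ Icc 1 (3 * H ^ 2),
      (if Squarefree (δ * δ') ∧ δ * δ' ≤ 3 * H ^ 2 then
        ∑ ρ ∈ range δ, ∑ σ ∈ ({1, -1} : Finset ℤ),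
          (if nrm (eb C₀ δ δ' ρ 2) * Z ≤ H then
            (18 / 25) ^ ((P z).filter (fun p => p ∣ δ * δ')).card * LS H z δ δ' ρ (σ * (δ * δ' : ℕ))
          else 0) else 0)

open Classical in
/-- **ANA** (from GOODL, BAS, CNT, SKEW, OMEGA, SUM, MER). Take `Z = Zf H`, `z = zf H`, `A = Af H`,
`ℓ = log log H`, `H ≥ H₀`. (1) `SKEW` with `ε = 1/4`: `C H^(5.25) H^(0.5) ≤ C H⁶ (log H)^(-2/25)`. (2) `OMEGA`
with `Y = 36/25`, `T = P z`, `z^A ≤ H`, and `MER`: `≤ C Y^(-A) H⁶ (log z)^(11/25)`,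
`Y^(-A) ≤ exp (-(36/25) log(36/25) ℓ) = (log H)^(-0.52509…)`, so `≤ C H⁶ (log H)^(-0.085)`. (3) By GOODL and
`(1 - bp p)⁻¹ ≤ 1 + 3/p` (`p ≥ 29`; `1 - bp p > 0`), the term for `δ, δ'` is at most
`2 δ C H⁶ / (δ δ')² ((∏_{p ∣ δ δ'} (18/25)(1 + 3/p)) ∏_{p ∈ P z} (1 - bp p) + (log H)^(-2))`. By SUM (with
`X = 3 H²`) and MER the first part is at most
`C H⁶ (log z)^(-7/25) log (3 H²) (log z)^(-32/25)`; the second one is trivially
`≤ C H⁶ (log H)^(-2) ∑ 1/δ ∑ 1/δ'² ≤ C H⁶ (log H)^(-1)`. Multiply by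
`(25/18)^A ≤ 2 exp ((36/25) log (25/18) ℓ) = 2 (log H)^(0.47304…)`, and use
`log z ≥ log H / (4000 ℓ)`, `ℓ^2 ≤ C (log H)^(0.001)`: `≤ C H⁶ (log H)^(0.4731 - 0.56 + 0.001)`, and
`0.4731 - 0.56 + 0.001 ≤ - 0.085`. Needed numerically: `(36/25) log(36/25) ≥ 0.525` and
`(36/25) log(25/18) ≤ 0.474`. For `H < H₀` use the trivial bound `(2 H + 1)⁶` and a large constant. -/
def ANA : Prop := ∃ C : ℝ, 0 < C ∧ ∀ H : ℕ, 3 ≤ H →
  ((NC H).card : ℝ) ≤ C * (H : ℝ) ^ 6 * Real.log H ^ (-(2 : ℝ) / 25)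

/-- **DEG**. Few degenerate pairs: choose a prime `p` with `2 H < p ≤ 4 H` (Bertrand; `2 H + 1 ≤ p`), so that the
reduction modulo `p` is injective on the box; the number of the classes modulo `p` with `p ∣ res` is at most
`p⁵ + 3 p⁴` (RESC), with `p ∣ disc f` at most `p² p³` (DISC), with `p ∣ f 0` `p² p³`. -/
def DEG : Prop := ∃ C : ℝ, 0 < C ∧ ∀ H : ℕ, 2 ≤ H →
  (((box H ×ˢ box H).filter fun q : (Fin 3 → ℤ) × (Fin 3 → ℤ) => res q.1 q.2 = 0 ∨ disc q.1 = 0 ∨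
    disc q.2 = 0 ∨ q.1 0 = 0 ∨ q.2 0 = 0).card : ℝ) ≤ C * (H : ℝ) ^ 5

/-! ### Local solubility -/

open Classical in
/-- **ELS** (from LOCS, REDC, LARGE, DEG). Let `Q = 8 · 3 · 5 · 7 · 11 · 13 · 17 · 19` and consider the pairs of the
box with `f 2 ≡ g 2 ≡ 1` modulo `Q`, `f 2 > 0`, `g 2 > 0`: at `(x : w) = (0 : 1)` the product is
`f 2 * g 2`, positive and `≡ 1` modulo `8` and modulo the primes `3 ≤ p ≤ 19`: a square in `ℝ` and in these
`ℚ_p`, `p < 23` (and `p = 2`). There are at least `c₁ H⁶` such pairs, `c₁ ≈ 2⁶/4/Q²`. For a prime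
`23 ≤ p ≤ η H` the number of them with `Red p` is at most (Chinese remainder theorem, `REDC`)
`(number of classes 3 p⁴) · (pairs of the box in a class modulo p in all six variables and modulo Q in two of
them, with two positive variables)` `≤ 3 p⁴ (2H/p + 1)⁴ (H/(Q p) + 1)²`, which is at most
`(3/p²) (1 + Q p / H)⁶ 2⁴ H⁶/Q²`, and `∑_{p ≥ 23} 3/p² < 1/10`; so with `η = 1/(100 Q)` at least one half of the
pairs has `¬ Red p` for all `23 ≤ p ≤ η H`. For the larger `p` use `LARGE` (`o(H⁶)` pairs). By `LOCS` all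
the remaining ones are soluble at all `p ≥ 23`. Remove the degenerate pairs (`DEG`). -/
def ELS : Prop := ∃ (c : ℝ) (H₀ : ℕ), 0 < c ∧ ∀ H : ℕ, H₀ ≤ H →
  c * (H : ℝ) ^ 6 ≤ (((box H ×ˢ box H).filter fun q : (Fin 3 → ℤ) × (Fin 3 → ℤ) =>
    (res q.1 q.2 ≠ 0 ∧ disc q.1 ≠ 0 ∧ disc q.2 ≠ 0 ∧ q.1 0 ≠ 0 ∧ q.2 0 ≠ 0) ∧ Sol q.1 q.2 ℝ ∧
      ∀ (p : ℕ) [Fact p.Prime], Sol q.1 q.2 ℚ_[p]).card : ℝ)

/-! ### Global consequences of the certificate -/

/-- **NORAT**. `y² = f(x, w) g(x, w)` has no rational point if there is a certificate. Scale `x, w` to coprime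
integers, `y` is an integer. Let `f(x,w) = A`, `g(x,w) = B`, `A B = y²`. If `A B ≠ 0`, write `A = t u²` with `t`
squarefree (with sign); then `t B` is a square, `B = t v²`, `v` an integer since `t` is squarefree. For `p ∣ t`
both values are divisible by `p`; since `res f g * x ^ 3`, `res f g * w ^ 3` are in the ideal generated by `A` and
`B`, and `gcd(x, w) = 1`, `gcd(A, B) ∣ res f g`, so `t ∣ res f g`. If `A = 0`, `B ≠ 0` (`res ≠ 0`): write
`B = t v²`, `u = 0`: `t ∣ gcd(A, B) = |B| ∣ res f g` again. The obstruction at some `q` contradicts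
`gcd(x, w) = 1`. -/
def NORAT : Prop := ∀ f g : Fin 3 → ℤ, Cert f g → ¬ Sol f g ℚ

open Polynomial Pool.Agent.W313.BMX in
/-- **BM**. As `Pool/Agent/H14Q2/Bm.lean` (`bm_empty`; helper14), with `facF` instead of `fac`; `local_sol` there
(file `H14Q/Desc.lean` or `H14Q2/Glob.lean`) is to be replaced by: if `f(ξ, η) = N (…)²`, `g(ξ, η) = N (…)²` over
`ℚ_p`, `N` a squarefree integer, scale `(ξ, η)` to a primitive vector over `ℤ_p`; then `f(ξ,η) = N u²` with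
`u ∈ ℤ_p` (`N` squarefree, so `N u²` integral implies `u` integral), same for `v`; approximate by integers modulo
`p²`: `¬ ObsF f g N p` for all primes `p`; and if `p ∣ N` then there is a common zero modulo `p`, `p ∣ res f g`, so
`N ∣ res f g`: contradiction to `Cert`. The hypothesis of `hexact` at the primes `p ∤ res f g`: the valuation of
the value is even, since a common primitive zero modulo `p` does not exist. -/
def BM : Prop := ∀ (F : ℤ[X]) (f g : Fin 3 → ℤ), 1 ≤ F.natDegree → f 0 ≠ 0 → g 0 ≠ 0 → Cert f g →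
  (∀ P : AdelicPoint (facF F f g) 1, ∃ e : ℤ, IsTest e ∧ Odd (ram (values P 0) e).ncard) ∧
  IsEmpty (Point (facF F f g) 1 ℚ)

/-- the coefficients of `y² - f(x, 1) g(x, 1)`, as a polynomial `∑ L_(i,j) x^i y^j` -/
def curve (f g : Fin 3 → ℤ) : List (List ℤ) :=
  [[-(f 2 * g 2), 0, 1], [-(f 1 * g 2 + f 2 * g 1)], [-(f 0 * g 2 + f 1 * g 1 + f 2 * g 0)],
    [-(f 0 * g 1 + f 1 * g 0)], [-(f 0 * g 0)]]

/-- **ALG**. The search for a certificate, see `Pool/Agent/H14Q/Alg.lean` (`exists_alg`; helper14). -/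
def ALG : Prop := ∃ φ : List (List ℤ) →. Bool, Partrec φ ∧ (∀ L, true ∉ φ L) ∧
  ∀ L, false ∈ φ L ↔ ∃ f g, L = curve f g ∧ Cert f g

end Pool.Agent.H14F
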