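import Pool.Agent.H14F.Cnd

/-!
# Conditions over the extension at the primes over two and at the real places
-/

set_option autoImplicit false
set_option linter.all false

open Polynomial IsDedekindDomain NumberField
open scoped Classical Pointwise

namespace Pool.Agent.H14F

open Pool.Agent.N783.PF
open Pool.Agent.N874.PP (Ev Sq1 U0)
open Pool.Agent.N783.PQ (LocIm)
open Pool.Agent.N874.JM (LocF)
open Pool.Agent.N692.PMTOW (im)
open Pool.Agent.H14U (res res_apply)

theorem locIm_sq {E : Type} [Field E] (f s : E[X]) : LocIm E f (s ^ 2) :=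
  ⟨[], s, by simp, by simp⟩

theorem locIm_map {E E' : Type} [Field E] [Field E'] (φ : E →+* E') {f h : E[X]}
    (H : LocIm E f h) : LocIm E' (f.map φ) (h.map φ) := by
  obtain ⟨l, s, h1, h2⟩ := H
  refine ⟨l.map fun p => (p.1.map φ, p.2.map φ), s.map φ, ?_, ?_⟩
  · intro p hp
    obtain ⟨p₀, hp₀, rfl⟩ := List.mem_map.1 hp
    obtain ⟨a1, a2, a3⟩ := h1 p₀ hp₀
    refine ⟨a1.map φ, ?_, ?_⟩
    · exact a2.map (Polynomial.mapRingHom φ)
    · have := Polynomial.map_dvd φ a3
      rwa [Polynomial.map_sub, Polynomial.map_pow] at this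
  · have h3 := Polynomial.map_dvd φ h2
    rw [Polynomial.map_sub, Polynomial.map_mul, Polynomial.map_pow] at h3
    have e : ((l.map fun p : E[X] × E[X] => (-1) ^ p.1.natDegree * p.1).prod).map φ =
        ((l.map fun p : E[X] × E[X] => (p.1.map φ, p.2.map φ)).map
          fun p : E'[X] × E'[X] => (-1) ^ p.1.natDegree * p.1).prod := by
      rw [← Polynomial.coe_mapRingHom, map_list_prod, List.map_map, List.map_map]
      congr 1
      refine List.map_congr_left fun p _ => ?_
      simp [Polynomial.natDegree_map]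
    rw [e] at h3
    exact h3

theorem locIm_congr {E : Type} [Field E] {f h h' : E[X]} (hd : f ∣ h - h') (H : LocIm E f h) :
    LocIm E f h' := by
  obtain ⟨l, s, h1, h2⟩ := H
  refine ⟨l, s, h1, ?_⟩
  have e : h' * (l.map fun p => (-1) ^ p.1.natDegree * p.1).prod - s ^ 2 =
      (h * (l.map fun p => (-1) ^ p.1.natDegree * p.1).prod - s ^ 2) -
        (h - h') * (l.map fun p => (-1) ^ p.1.natDegree * p.1).prod := by ring
  rw [e]
  exact dvd_sub h2 (dvd_mul_of_dvd_left hd _)

section two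

variable {M Ω : Type} [Field M] [NumberField M] [Field Ω] [NumberField Ω] [Algebra M Ω]

/-- The conditions at the primes over two and at the real places. -/
def C2 (f : M[X]) (θ x : Ω) : Prop := ∃ h : M[X], aeval θ h = x ∧
  (∀ w : HeightOneSpectrum (𝓞 M), (2 : 𝓞 M) ∈ w.asIdeal → LocF (w.adicCompletion M) f h) ∧
  ∀ ρ : M →+* ℝ, LocIm ℝ (f.map ρ) (h.map ρ)

variable {f : M[X]} {θ : Ω}

theorem c2_sq (hgen : ∀ x : Ω, ∃ h : M[X], aeval θ h = x) (x : Ω) : C2 f θ (x ^ 2) := by
  obtain ⟨s, hs⟩ := hgen x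
  refine ⟨s ^ 2, by rw [map_pow, hs], fun w _ => ?_, fun ρ => ?_⟩
  · show LocIm _ _ _
    rw [Polynomial.map_pow]
    exact locIm_sq _ _
  · rw [Polynomial.map_pow]
    exact locIm_sq _ _

theorem c2_mul {x y : Ω} (h : C2 f θ x) (h' : C2 f θ y) : C2 f θ (x * y) := by
  obtain ⟨a, ha, h1, h2⟩ := h
  obtain ⟨b, hb, h3, h4⟩ := h'
  refine ⟨a * b, by rw [map_mul, ha, hb], fun w hw => ?_, fun ρ => ?_⟩
  · have h5 : LocIm _ _ _ := Pool.Agent.N891.PQ.LocIm.mul (h1 w hw) (h3 w hw)
    rw [← Polynomial.map_mul] at h5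
    exact h5
  · rw [Polynomial.map_mul]
    exact Pool.Agent.N891.PQ.LocIm.mul (h2 ρ) (h4 ρ)

end two

section sig

variable {F L M Ω : Type} [Field F] [NumberField F] [Field L] [NumberField L] [Field M]
  [NumberField M] [Field Ω] [NumberField Ω] [Algebra F L] [Algebra F M] [Algebra L Ω]
  [Algebra M Ω] [Algebra F Ω] [IsScalarTower F L Ω] [IsScalarTower F M Ω] [Normal F M]

theorem c2_sig {f₀ : F[X]} {θ₀ : L} (σ : Ω ≃ₐ[L] Ω) {x : Ω}
    (h : C2 (f₀.map (algebraMap F M)) (algebraMap L Ω θ₀) x) :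
    C2 (f₀.map (algebraMap F M)) (algebraMap L Ω θ₀) (σ x) := by
  obtain ⟨a, ha, h1, h2⟩ := h
  obtain ⟨τ, hτ⟩ : ∃ τ : M ≃ₐ[F] M, τ = res F M σ := ⟨_, rfl⟩
  have hτ' : ∀ y : M, algebraMap M Ω (τ y) = σ (algebraMap M Ω y) := fun y => by
    rw [hτ, res_apply]
  let t : M →+* M := (τ : M →+* M)
  have ht : ∀ y, t y = τ y := fun y => rfl
  have hf : (f₀.map (algebraMap F M)).map t = f₀.map (algebraMap F M) := by
    rw [Polynomial.map_map]
    congr 1
    exact RingHom.ext fun y => τ.commutes y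
  refine ⟨a.map t, ?_, fun w hw => ?_, fun ρ => ?_⟩
  · rw [← ha]
    have e1 : aeval (algebraMap L Ω θ₀) (a.map t) =
        eval₂ ((algebraMap M Ω).comp t) (algebraMap L Ω θ₀) a := by
      rw [aeval_def, eval₂_map]
    have e2 : (algebraMap M Ω).comp t = ((σ : Ω →+* Ω)).comp (algebraMap M Ω) :=
      RingHom.ext fun y => hτ' y
    have e3 : (σ : Ω →+* Ω) (algebraMap L Ω θ₀) = algebraMap L Ω θ₀ := σ.commutes θ₀
    have e4 : σ (aeval (algebraMap L Ω θ₀) a) =
        (σ : Ω →+* Ω) (eval₂ (algebraMap M Ω) (algebraMap L Ω θ₀) a) := rfl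
    rw [e1, e2, e4, hom_eval₂, e3]
  · obtain ⟨w', hv⟩ := Pool.Agent.H14F.sig (τ : M ≃+* M) w
    have hw' : (2 : 𝓞 M) ∈ w'.asIdeal := by
      have e := nat_mem_iff_val w' 2
      have e' := nat_mem_iff_val w 2
      rw [Nat.cast_ofNat, Nat.cast_ofNat] at e e'
      rw [e, hv]
      have e2 : (τ : M ≃+* M) (2 : M) = 2 := map_ofNat _ 2
      rw [e2, ← e']
      exact hw
    obtain ⟨j, hj, -, -⟩ := Pool.Agent.TH115.GD.exists_compl_map w' w t
      (fun y hy => by
        have := hv y
        rw [this] at hy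
        exact hy)
      (fun y hy => by
        have := hv y
        rw [this] at hy
        exact hy)
    have h3 : LocIm _ _ _ := locIm_map j (h1 w' hw')
    have e5 : j.comp (algebraMap M (w'.adicCompletion M)) =
        (algebraMap M (w.adicCompletion M)).comp t := RingHom.ext fun y => hj y
    have e6 : (a.map (algebraMap M (w'.adicCompletion M))).map j =
        (a.map t).map (algebraMap M (w.adicCompletion M)) := by
      rw [Polynomial.map_map, Polynomial.map_map, e5]
    have e7 : ((f₀.map (algebraMap F M)).map (algebraMap M (w'.adicCompletion M))).map j =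
        (f₀.map (algebraMap F M)).map (algebraMap M (w.adicCompletion M)) := by
      rw [Polynomial.map_map, e5, ← Polynomial.map_map, hf]
    rw [e6, e7] at h3
    exact h3
  · have h3 := h2 (ρ.comp t)
    rw [← Polynomial.map_map, ← Polynomial.map_map, hf] at h3
    exact h3

/-- The conditions for an element of `L`. -/
theorem c2_base {f₀ : F[X]} {θ₀ : L} (hirr : Irreducible (f₀.map (algebraMap F M)))
    (hroot : aeval (algebraMap L Ω θ₀) (f₀.map (algebraMap F M)) = 0)
    (hs : ∀ v : HeightOneSpectrum (𝓞 F), (2 : 𝓞 F) ∈ v.asIdeal → ∃ w : HeightOneSpectrum (𝓞 M),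
      (2 : 𝓞 M) ∈ w.asIdeal ∧ (∀ x : F, w.valuation M (algebraMap F M x) = v.valuation F x) ∧
      ∀ s : M, s ≠ 0 → ∃ s₀ : F, w.valuation M (s - algebraMap F M s₀) < w.valuation M s)
    (hr : ∀ σ : F →+* ℝ, ∃ ρ : M →+* ℝ, ρ.comp (algebraMap F M) = σ) {h₁ : F[X]}
    (h : C2 (f₀.map (algebraMap F M)) (algebraMap L Ω θ₀) (algebraMap L Ω (aeval θ₀ h₁))) :
    (∀ v : HeightOneSpectrum (𝓞 F), (2 : 𝓞 F) ∈ v.asIdeal →
      LocF (v.adicCompletion F) f₀ h₁) ∧
    ∀ σ : F →+* ℝ, LocIm ℝ (f₀.map σ) (h₁.map σ) := by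
  obtain ⟨a, ha, h1, h2⟩ := h
  have hd : f₀.map (algebraMap F M) ∣ a - h₁.map (algebraMap F M) := by
    have h3 : aeval (algebraMap L Ω θ₀) (a - h₁.map (algebraMap F M)) = 0 := by
      rw [map_sub, ha, aeval_map_algebraMap, aeval_algebraMap_apply, sub_self]
    have h4 := minpoly.dvd M _ h3
    have h5 : Associated (f₀.map (algebraMap F M)) (minpoly M (algebraMap L Ω θ₀)) := by
      have h6 := minpoly.dvd M _ hroot
      have h7 : IsIntegral M (algebraMap L Ω θ₀) := by
        haveI : FiniteDimensional M Ω := Module.Finite.of_restrictScalars_finite ℚ M Ω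
        exact Algebra.IsIntegral.isIntegral _
      exact ((minpoly.irreducible h7).associated_of_dvd hirr h6).symm
    exact h5.dvd.trans h4
  refine ⟨fun v hv => ?_, fun σ => ?_⟩
  · obtain ⟨w, hw, hv1, hv2⟩ := hs v hv
    obtain ⟨e, he⟩ := compl_bij v w (algebraMap F M) hv1 hv2
    have h3 : LocIm _ _ _ := h1 w hw
    have h4 := locIm_congr (h' := (h₁.map (algebraMap F M)).map
      (algebraMap M (w.adicCompletion M))) (by
        rw [← Polynomial.map_sub]
        exact Polynomial.map_dvd _ hd) h3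
    have h5 := locIm_map (e.symm : w.adicCompletion M →+* v.adicCompletion F) h4
    have e5 : ((e.symm : w.adicCompletion M →+* v.adicCompletion F).comp
        (algebraMap M (w.adicCompletion M))).comp (algebraMap F M) =
        algebraMap F (v.adicCompletion F) := by
      refine RingHom.ext fun y => ?_
      show e.symm (algebraMap M (w.adicCompletion M) (algebraMap F M y)) = _
      rw [← he, RingEquiv.symm_apply_apply]
    rw [Polynomial.map_map, Polynomial.map_map, Polynomial.map_map, Polynomial.map_map,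
      e5] at h5
    exact h5
  · obtain ⟨ρ, rfl⟩ := hr σ
    have h3 := locIm_congr (h' := (h₁.map (algebraMap F M)).map ρ) (by
        rw [← Polynomial.map_sub]
        exact Polynomial.map_dvd _ hd) (h2 ρ)
    rw [Polynomial.map_map, Polynomial.map_map] at h3
    exact h3

end sig

end Pool.Agent.H14F
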