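import Pool.Agent.H14F.Final

/-!
# Over every number field a positive proportion of all elliptic curves has no 2-primary
# Tate-Shafarevich group over infinitely many extensions at once

Let `F` be any number field. For a curve `E : y² = x³ + A x + B` over `F` call a finite extension `M` of
`F` admissible if `M / F` is Galois of 2-power degree, the primes over `2` and the real places of `F`
split completely in `M`, the primes `𝔭` of `F` with `𝔭² ∣ A`, `𝔭³ ∣ B` split completely in `M`, and the
cubic `x³ + A x + B` has no root modulo any prime of `F` which is ramified in `M`.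

Theorem. Let `M₀ / F` be a Galois extension of 2-power degree in which the primes over `2` and the real
places split completely (for instance `M₀ = F`). Among all elliptic curves `E / F`, ordered by height, a
positive proportion has the following properties: `M₀` is admissible for `E`; for EVERY admissible `M` the
2-Selmer group of `E / M` is trivial, `Ш(E / M)[2^∞] = 0` and `E(M)` is finite of odd order; there are
infinitely many prime numbers `l` such that `M(√l)` is admissible for every admissible `M` (so the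
admissible fields contain infinite towers over `M₀`).

The proof: project PF (helper783) gives, for a positive proportion of all `E / F`, a twist for which a
strict group of square classes in the cubic field `L = F(θ)` is trivial. This twist does not depend on
`M`. The conditions on `M` are turned into conditions on the inertia and decomposition groups of
`M(θ) / L` (`H14F/Split.lean`, `Base.lean`); the local conditions over `M` descend along the Galois
2-extension `M(θ) / L` (`H14F/Cnd.lean`, `Two.lean`, `Top.lean`, `Sel.lean`, with the descent of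
helper301). The primes `l` come from Chebotarev's theorem, applied to a Frobenius element at a prime
which splits completely in `F` and modulo which the cubic is irreducible at all places
(`H14F/Frob.lean`, `Lam.lean`, `Lam2.lean`, `Lam3.lean`).
-/

set_option autoImplicit false
set_option linter.all false

namespace Pool.Agent.Results.MP_78d38b_nt.UniformEveryBase

open Filter NumberField IsDedekindDomain Pool.Agent.TH115.GD
open scoped Classical IntermediateField Pointwise

section family

variable (F : Type) [Field F] [NumberField F]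

/-- All elliptic curves over `F`: pairs of integers `(A, B)` with `4 A ^ 3 + 27 B ^ 2 ≠ 0` for which
no nonzero prime ideal `𝔭` satisfies both `𝔭 ^ 4 ∣ A` and `𝔭 ^ 6 ∣ B`. -/
def Family : Set (𝓞 F × 𝓞 F) :=
  {p | 4 * p.1 ^ 3 + 27 * p.2 ^ 2 ≠ 0 ∧
    ∀ 𝔭 : Ideal (𝓞 F), 𝔭.IsPrime → 𝔭 ≠ ⊥ → ¬ (p.1 ∈ 𝔭 ^ 4 ∧ p.2 ∈ 𝔭 ^ 6)}

variable {F}

/-- The height `max_σ max (4 |σ A|³, 27 |σ B|²)`, over the embeddings `σ : F → ℂ`. -/
noncomputable def height (p : 𝓞 F × 𝓞 F) : ℝ :=
  ⨆ σ : F →+* ℂ, max (4 * ‖σ (p.1 : F)‖ ^ 3) (27 * ‖σ (p.2 : F)‖ ^ 2)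

variable (F)

/-- The members of the family of height at most `X`. -/
def UpTo (X : ℝ) : Set (𝓞 F × 𝓞 F) := {p ∈ Family F | height p ≤ X}

end family

/-- The curve `y ^ 2 = x ^ 3 + A x + B` over the extension `M` of `F`. -/
def curve {F : Type} [Field F] [NumberField F] (M : Type) [Field M] [Algebra F M]
    (p : 𝓞 F × 𝓞 F) : WeierstrassCurve M :=
  ⟨0, 0, 0, algebraMap F M (p.1 : F), algebraMap F M (p.2 : F)⟩

section sha

variable (M : Type) [Field M] [NumberField M] (W : WeierstrassCurve M)

/-- The cocycle `f` of `Gal(Sep M / M)` is a coboundary over the completion of `M` at every maximal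
ideal of the ring of integers and over `ℝ` for every embedding `M → ℝ`. -/
structure Locally (f : (Sep M ≃ₐ[M] Sep M) → Pt W (Sep M)) : Prop where
  finite : ∀ v : HeightOneSpectrum (𝓞 M), LocTriv W (Comp (𝓞 M) M v) (Sep (Comp (𝓞 M) M v)) f
  real : ∀ ρ : M →+* ℝ, letI := ρ.toAlgebra; LocTriv W ℝ (Sep ℝ) f

/-- The 2-Selmer group is zero: every continuous cocycle with values in the points of order two
which is a coboundary at all places, with values in all points, is the coboundary of a point of order
two. -/
def SelTwoZero : Prop :=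
  ∀ f : (Sep M ≃ₐ[M] Sep M) → Pt W (Sep M), IsCoc W f → (∀ σ, (2 : ℕ) • f σ = 0) →
    Locally M W f → ∃ T : Pt W (Sep M), (2 : ℕ) • T = 0 ∧ ∀ σ, f σ = act W (rs M σ) T - T

/-- The 2-primary part of the Tate-Shafarevich group is zero: every continuous cocycle whose class
is killed by a power of two and which is a coboundary at all places is a coboundary. -/
def ShaTwoZero : Prop :=
  ∀ f : (Sep M ≃ₐ[M] Sep M) → Pt W (Sep M), IsCoc W f → Locally M W f →
    (∃ (n : ℕ) (Q : Pt W (Sep M)), ∀ σ, 2 ^ n • f σ = act W (rs M σ) Q - Q) →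
    ∃ Q : Pt W (Sep M), ∀ σ, f σ = act W (rs M σ) Q - Q

end sha

/-- Trivial 2-Selmer group, trivial 2-primary part of the Tate-Shafarevich group, and a finite group
of points of odd order, over `M`. -/
structure Good {F : Type} [Field F] [NumberField F] (M : Type) [Field M] [NumberField M]
    [Algebra F M] (p : 𝓞 F × 𝓞 F) : Prop where
  sel : SelTwoZero M (curve M p)
  sha : ShaTwoZero M (curve M p)
  finite : Finite (Pt (curve M p) M)
  odd : Odd (Nat.card (Pt (curve M p) M))

section admissible

variable (F : Type) {M : Type} [Field F] [NumberField F] [Field M] [NumberField M] [Algebra F M]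

/-- The decomposition group of the prime `w` of `M` over `F` is trivial. -/
def SplitAt (w : HeightOneSpectrum (𝓞 M)) : Prop :=
  MulAction.stabilizer Gal(M/F) w.asIdeal = ⊥

/-- The inertia group of the prime `w` of `M` over `F` is trivial. -/
def UnramifiedAt (w : HeightOneSpectrum (𝓞 M)) : Prop :=
  w.asIdeal.inertia Gal(M/F) = ⊥

variable (M)

/-- The extension `M` of `F` is admissible for the curve `y ^ 2 = x ^ 3 + A x + B`, `p = (A, B)`: it is
Galois of 2-power degree; the decomposition groups of the primes of `M` over `2`, and of those over a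
prime `𝔭` of `F` with `𝔭 ^ 2 ∣ A`, `𝔭 ^ 3 ∣ B`, are trivial; every embedding of `F` in `ℝ` extends to `M`;
the cubic has no root modulo the primes of `F` below the primes of `M` with nontrivial inertia group. -/
structure Admissible (p : 𝓞 F × 𝓞 F) : Prop where
  galois : IsGalois F M
  degree : ∃ n : ℕ, Module.finrank F M = 2 ^ n
  two : ∀ w : HeightOneSpectrum (𝓞 M), (2 : 𝓞 M) ∈ w.asIdeal → SplitAt F w
  split : ∀ w : HeightOneSpectrum (𝓞 M), p.1 ∈ (w.under (𝓞 F)).asIdeal ^ 2 →
    p.2 ∈ (w.under (𝓞 F)).asIdeal ^ 3 → SplitAt F w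
  real : ∀ σ : F →+* ℝ, ∃ ρ : M →+* ℝ, ρ.comp (algebraMap F M) = σ
  ramified : ∀ w : HeightOneSpectrum (𝓞 M), ¬ UnramifiedAt F w →
    ∀ z : 𝓞 F, z ^ 3 + p.1 * z + p.2 ∉ (w.under (𝓞 F)).asIdeal

end admissible

/-- The prime numbers `l` such that `M(√l)` is admissible for every admissible field `M`. -/
def Steps (F : Type) [Field F] [NumberField F] (p : 𝓞 F × 𝓞 F) : Set ℕ := {l : ℕ | l.Prime ∧
  ∀ (M M' : Type) [Field M] [NumberField M] [Field M'] [NumberField M'] [Algebra F M]
    [Algebra M M'] [Algebra F M'] [IsScalarTower F M M'] (x : M'),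
    x ^ 2 = (l : M') → M⟮x⟯ = ⊤ → Admissible F M p → Admissible F M' p}

theorem crv_iff {F : Type} [Field F] [NumberField F] (X : ℝ) (p : 𝓞 F × 𝓞 F) :
    Pool.Agent.N783.PF.Crv X p ↔ p ∈ UpTo F X := by
  have hb : BddAbove (Set.range fun σ : F →+* ℂ =>
      max (4 * ‖σ (p.1 : F)‖ ^ 3) (27 * ‖σ (p.2 : F)‖ ^ 2)) := Set.Finite.bddAbove (Set.finite_range _)
  constructor
  · rintro ⟨h1, h2, h3⟩
    refine ⟨⟨h1, h2⟩, ciSup_le fun σ => max_le (h3 σ).1 (h3 σ).2⟩
  · rintro ⟨⟨h1, h2⟩, h3⟩
    refine ⟨h1, h2, fun σ => ?_⟩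
    have h4 := (le_ciSup hb σ).trans h3
    exact ⟨(le_max_left _ _).trans h4, (le_max_right _ _).trans h4⟩

theorem adm_iff (F M : Type) [Field F] [NumberField F] [Field M] [NumberField M] [Algebra F M]
    (p : 𝓞 F × 𝓞 F) : Pool.Agent.H14F.Adm F M p ↔ Admissible F M p :=
  ⟨fun h => ⟨h.galois, h.deg, h.two, h.bad, h.real, h.ram⟩,
    fun h => ⟨h.galois, h.degree, h.two, h.split, h.real, h.ramified⟩⟩

theorem good_of {F M : Type} [Field F] [NumberField F] [Field M] [NumberField M] [Algebra F M]
    (p : 𝓞 F × 𝓞 F) (h : Pool.Agent.N783.PF.Good (F := M)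
      (algebraMap (𝓞 F) (𝓞 M) p.1, algebraMap (𝓞 F) (𝓞 M) p.2)) : Good M p := by
  refine ⟨?_, ?_, h.fin, h.odd⟩
  · intro f h1 h2 h3
    exact h.sel f h1 h2 ⟨h3.finite, h3.real⟩
  · intro f h1 h2 h3
    exact h.sha f h1 ⟨h2.finite, h2.real⟩ h3

/-- Let `F` be a number field and `M₀ / F` a Galois extension of degree `2 ^ n` in which the primes over
`2` split completely and to which all real embeddings of `F` extend. There is `c > 0` such that for all
large `X` at least `c` times the number of all elliptic curves `E` over `F` of height at most `X` have the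
following properties: `M₀` is admissible for `E`; for all fields `M` which are admissible for `E` the
2-Selmer group of `E` over `M` is trivial, the 2-primary part of `Ш(E / M)` is trivial and `E(M)` is
finite of odd order; there are infinitely many prime numbers `l` such that `M(√l)` is admissible for all
admissible fields `M`. -/
theorem result (F M₀ : Type) [Field F] [NumberField F] [Field M₀] [NumberField M₀] [Algebra F M₀]
    [IsGalois F M₀] (n : ℕ) (hn : Module.finrank F M₀ = 2 ^ n)
    (h2 : ∀ w : HeightOneSpectrum (𝓞 M₀), (2 : 𝓞 M₀) ∈ w.asIdeal → SplitAt F w)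
    (hr : ∀ σ : F →+* ℝ, ∃ ρ : M₀ →+* ℝ, ρ.comp (algebraMap F M₀) = σ) :
    (∀ X : ℝ, (UpTo F X).Finite) ∧
    ∃ c : ℝ, 0 < c ∧ ∀ᶠ X : ℝ in atTop,
      0 < (UpTo F X).ncard ∧
      c * ((UpTo F X).ncard : ℝ) ≤ (({p ∈ UpTo F X | Admissible F M₀ p ∧
        (∀ (M : Type) [Field M] [NumberField M] [Algebra F M], Admissible F M p → Good M p) ∧
        (Steps F p).Infinite}).ncard : ℝ) := by
  have hset : ∀ X : ℝ, UpTo F X = {p : 𝓞 F × 𝓞 F | Pool.Agent.N783.PF.Crv X p} := by
    intro X
    ext p
    exact (crv_iff X p).symm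
  obtain ⟨c, hc, Y₀, h⟩ := Pool.Agent.H14F.final F M₀ hn h2 hr
  have hfin : ∀ X : ℝ, (UpTo F X).Finite := fun X => by
    rw [hset]
    exact (h X).1
  refine ⟨hfin, c, hc, ?_⟩
  filter_upwards [eventually_ge_atTop Y₀] with X hX
  obtain ⟨h1, h3⟩ := (h X).2 hX
  rw [← hset] at h1 h3
  refine ⟨h1, h3.trans ?_⟩
  have h4 : {p : 𝓞 F × 𝓞 F | Pool.Agent.N783.PF.Crv X p ∧ Pool.Agent.H14F.GoodP F M₀ p} ⊆
      {p ∈ UpTo F X | Admissible F M₀ p ∧
        (∀ (M : Type) [Field M] [NumberField M] [Algebra F M], Admissible F M p → Good M p) ∧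
        (Steps F p).Infinite} := by
    rintro p ⟨hp, hg⟩
    refine ⟨(crv_iff X p).1 hp, (adm_iff F M₀ p).1 hg.adm, fun M _ _ _ hM => ?_, hg.inf.mono ?_⟩
    · exact good_of p (hg.all M ((adm_iff F M p).2 hM))
    · rintro l ⟨hl, h⟩
      exact ⟨hl, fun M M' _ _ _ _ _ _ _ _ x hx htop hM =>
        (adm_iff F M' p).1 (h M M' x hx htop ((adm_iff F M p).2 hM))⟩
  have h5 := Set.ncard_le_ncard h4 ((hfin X).subset fun p hp => hp.1)
  exact_mod_cast h5

end Pool.Agent.Results.MP_78d38b_nt.UniformEveryBase
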